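import Pool.Agent.Lib.APQ.Kit

/-!
Block AA: the singular series is under control for almost all terms of the progression.
-/

namespace Pool.Agent.Lib.APQ

open Finset Real Complex Filter Pool.Agent.Lib.PS
open scoped NumberTheorySymbols ArithmeticFunction.Moebius Classical ComplexConjugate

namespace AA

/-- Chebyshev's inequality, counting form -/
theorem cheb (K : ℕ) (g : ℕ → ℝ) {τ S : ℝ} (hτ : 0 < τ)
    (h : ∑ k ∈ range K, g k ^ 2 ≤ S * τ ^ 2) :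
    (((range K).filter fun k => τ < |g k|).card : ℝ) ≤ S := by
  have h1 : (((range K).filter fun k => τ < |g k|).card : ℝ) * τ ^ 2 ≤
      ∑ k ∈ range K, g k ^ 2 := by
    rw [← nsmul_eq_mul, ← sum_const]
    refine le_trans (sum_le_sum fun k hk => ?_)
      (sum_le_sum_of_subset_of_nonneg (filter_subset _ _) fun k _ _ => sq_nonneg (g k))
    have h2 := (mem_filter.1 hk).2
    rw [← sq_abs (g k)]
    exact pow_le_pow_left₀ hτ.le h2.le 2
  exact le_of_mul_le_mul_right (h1.trans h) (by positivity)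

theorem Pn_zero (z : ℝ) : Pn 0 z = 1 := by
  refine prod_eq_one fun p hp => ?_
  have h1 : p.Prime := (mem_filter.1 hp).2
  have h2 : J(((0 : ℕ) : ℤ) | p) = 0 := by
    simpa using jacobiSym.zero_left h1.one_lt
  simp only [fn, h2]
  simp

theorem pr_sub (y : ℕ) (z : ℝ) : pr y z ⊆ Ioc y ⌊z⌋₊ := by
  intro p hp
  have := (mem_filter.1 hp).1
  rwa [Nat.floor_natCast] at this

theorem sub_le {y Z : ℕ} {T : Finset ℕ} {b : ℝ} (hT : T ⊆ Ioc y Z)
    (h : ∑ d ∈ Ioc y Z, 1 / (d.totient : ℝ) ^ 2 ≤ b) : ∑ d ∈ T, 1 / (d.totient : ℝ) ^ 2 ≤ b :=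
  (sum_le_sum_of_subset_of_nonneg hT fun _ _ _ => by positivity).trans h

theorem good {A c η e P1 P2 S j : ℝ} (hc : 0 < c) (hc1 : c ≤ 1) (hA : c ≤ A) (hη : 0 < η)
    (hη1 : η ≤ 1 / 12) (hη2 : η ≤ e / 10) (h1 : |P1 - A| ≤ 4 * η * A) (h2 : |P2 - A| ≤ 4 * η * A)
    (h3 : |S - A| ≤ η * c) (h4 : |j| ≤ η * c) :
    c / 2 ≤ P1 ∧ |S - P1| ≤ e * P1 ∧ P2 ≤ 2 * P1 ∧ |j| ≤ e := by
  have hA0 : 0 < A := hc.trans_le hA
  have h5 : η * A ≤ A / 12 := by nlinarith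
  have h6 : η * c ≤ η * A := by gcongr
  obtain ⟨a1, a2⟩ := abs_le.1 h1
  obtain ⟨b1, b2⟩ := abs_le.1 h2
  obtain ⟨c1, c2⟩ := abs_le.1 h3
  have h7 : 2 / 3 * A ≤ P1 := by linarith
  have h8 : 10 * η * (2 / 3 * A) ≤ e * P1 :=
    mul_le_mul (by linarith) h7 (by positivity) (by linarith)
  have h9 : 0 ≤ η * A := by positivity
  refine ⟨by linarith, abs_le.2 ⟨by nlinarith, by nlinarith⟩, by linarith, ?_⟩
  nlinarith

end AA

theorem blk_AA (hAA1 : St_AA1) (hAA2 : St_AA2) : St_AA := by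
  intro d θ t e ε hd hd1 hθ hθ1 hdt ht he hε
  obtain ⟨η, hη, hη1, hη2⟩ : ∃ η : ℝ, 0 < η ∧ η ≤ 1 / 12 ∧ η ≤ e / 10 :=
    ⟨min (1 / 12) (e / 10), by positivity, min_le_left _ _, min_le_right _ _⟩
  obtain ⟨ε', hε0, hε1, hε2⟩ : ∃ ε' : ℝ, 0 < ε' ∧ ε' ≤ 1 ∧ ε' ≤ ε :=
    ⟨min 1 ε, by positivity, min_le_left _ _, min_le_right _ _⟩
  obtain ⟨y, c, hy, hc, hPn, hsum⟩ := hAA1.1 (ε' / 100 * η ^ 2) (by positivity)
  have hc1 : c ≤ 1 := by simpa [AA.Pn_zero] using hPn 0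
  set b : ℝ := ε' / 100 * η ^ 2 * c ^ 2 with hb
  have hb0 : 0 < b := by positivity
  have hbη : b ≤ η := by
    have h1 : c ^ 2 ≤ 1 := pow_le_one₀ hc.le hc1
    have h2 : η ^ 2 ≤ η := by nlinarith
    calc b ≤ 1 * η * 1 := by
          rw [hb]; gcongr; linarith
      _ = η := by ring
  have hτ : 0 < η * c := by positivity
  have hτη : η * c ≤ η := by nlinarith
  refine ⟨c / 2, by positivity, fun B hB => ?_⟩
  filter_upwards [hAA2.1 d t b hd hdt ht hb0, hAA2.2 b hb0, eventually_ge_atTop 1,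
    ev_rpow y hd, ev_rpow y hθ, ev_lg 1, ev_lg (2 * primorial y),
    ev_pow 1 B (show (0 : ℝ) < 1 / 4 by norm_num)] with X hJ hT hX hyd hyθ hl1 hl2 hl3
  intro q a K hR
  have hR' : Reg (1 / 1000) X q a K := hR.mono hX (by linarith)
  have hX1 : (1 : ℝ) ≤ X := by exact_mod_cast hX
  have hq := hR.q_pos
  have hXq : (0 : ℝ) ≤ X / q := by positivity
  rw [Real.rpow_zero, one_mul, mul_one] at hl3
  have hP1 : (Pb X B : ℝ) ≤ (X : ℝ) ^ (1 / 4 : ℝ) := (Pb_le X B).trans hl3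
  have hP2 : primorial y ≤ Pb X B := by
    have h1 := (Pb_bounds hl1 B).2
    have h2 : lg X ≤ lg X ^ B := le_self_pow₀ hl1 (by omega)
    have h3 : (primorial y : ℝ) ≤ Pb X B := by linarith
    exact_mod_cast h3
  -- the count for a set of moduli
  have key : ∀ (Z : ℕ) (T : Finset ℕ), T ⊆ Ioc y Z → (Z : ℝ) ≤ (X : ℝ) ^ (1 / 4 : ℝ) →
      (((range K).filter fun k => η * c < |∑ d ∈ T, fn (a + q * k) d|).card : ℝ) ≤
        3 * (ε' / 100) * (X / q) := by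
    intro Z T hTs hZ
    refine AA.cheb K (fun k => ∑ d ∈ T, fn (a + q * k) d) hτ ?_
    have h1 := hT q a K T hR' fun d hd => by
      have h2 := mem_Ioc.1 (hTs hd)
      exact ⟨by omega, le_trans (by exact_mod_cast h2.2) hZ⟩
    have h2 := AA.sub_le hTs (hsum Z)
    have h3 : 2 * (X : ℝ) / q * ∑ d ∈ T, 1 / (d.totient : ℝ) ^ 2 ≤ 2 * X / q * b := by gcongr
    refine h1.trans ((add_le_add h3 le_rfl).trans (le_of_eq ?_))
    rw [hb]; ring
  have hfl : ∀ s : ℝ, s ≤ 1 / 4 → (⌊(X : ℝ) ^ s⌋₊ : ℝ) ≤ (X : ℝ) ^ (1 / 4 : ℝ) := fun s hs =>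
    (Nat.floor_le (by positivity)).trans (Real.rpow_le_rpow_of_exponent_le hX1 hs)
  have k1 := key _ _ (AA.pr_sub y ((X : ℝ) ^ d)) (hfl d (by linarith))
  have k2 := key _ _ (AA.pr_sub y ((X : ℝ) ^ θ)) (hfl θ hθ1)
  have k3 := key _ _ (filter_subset (fun d => ¬ d ∣ primorial y) (Ioc y (Pb X B))) hP1
  have k4 : (((range K).filter fun k =>
      η * c < |Js (a + q * k) (zz X) ((X : ℝ) ^ (1 / 2 - t))|).card : ℝ) ≤
        ε' / 100 * (X / q) := by
    refine AA.cheb K (fun k => Js (a + q * k) (zz X) ((X : ℝ) ^ (1 / 2 - t))) hτ ?_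
    refine (hJ q a K hR).trans (le_of_eq ?_)
    rw [hb]; ring
  have hy2 : (2 : ℝ) ≤ y := by exact_mod_cast (by omega : 2 ≤ y)
  refine le_trans (Nat.cast_le.2 (card_le_card (t :=
    (((range K).filter fun k => η * c < |∑ d ∈ pr y ((X : ℝ) ^ d), fn (a + q * k) d|) ∪
     ((range K).filter fun k => η * c < |∑ d ∈ pr y ((X : ℝ) ^ θ), fn (a + q * k) d|)) ∪
    (((range K).filter fun k => η * c <
      |∑ d ∈ (Ioc y (Pb X B)).filter (fun d => ¬ d ∣ primorial y), fn (a + q * k) d|) ∪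
     ((range K).filter fun k =>
      η * c < |Js (a + q * k) (zz X) ((X : ℝ) ^ (1 / 2 - t))|))) fun k hk => ?_)) ?_
  · obtain ⟨hk1, hk2⟩ := mem_filter.1 hk
    by_contra hcon
    simp only [mem_union, mem_filter, hk1, true_and, not_or, not_lt] at hcon
    obtain ⟨⟨g1, g2⟩, g3, g4⟩ := hcon
    refine hk2 (AA.good hc hc1 (hPn (a + q * k)) hη hη1 hη2 ?_ ?_ ?_ g4)
    · exact hAA1.2.2 _ y _ η hy2 hyd (by linarith) (g1.trans hτη)
        ((AA.sub_le (AA.pr_sub y _) (hsum _)).trans hbη)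
    · exact hAA1.2.2 _ y _ η hy2 hyθ (by linarith) (g2.trans hτη)
        ((AA.sub_le (AA.pr_sub y _) (hsum _)).trans hbη)
    · rw [hAA1.2.1 _ y _ hP2, add_sub_cancel_left]
      exact g3
  · refine le_trans (Nat.cast_le.2 ((card_union_le _ _).trans
      (add_le_add (card_union_le _ _) (card_union_le _ _)))) ?_
    push_cast
    have h1 : ε' * (X / q) ≤ ε * (X / q) := by gcongr
    have h2 : 0 ≤ ε' * (X / q) := by positivity
    rw [mul_div_assoc]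
    linarith

end Pool.Agent.Lib.APQ
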