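import Pool.Agent.Lib.APQ.Kit
import Pool.Agent.Lib.PS.SING2

/-!
Block AA1: the partial Euler products of the singular series.
-/

namespace Pool.Agent.Lib.APQ

open Finset Real Complex Filter Pool.Agent.Lib.PS
open scoped NumberTheorySymbols ArithmeticFunction.Moebius Classical ComplexConjugate

namespace AA1

theorem exp_le {x u : ℝ} (h : 0 < 1 + u) (h1 : 1 ≤ x * (1 + u)) : Real.exp (-u) ≤ x := by
  have h2 := Real.add_one_le_exp u
  have h3 := Real.exp_pos (-u)
  have h4 : Real.exp (-u) * Real.exp u = 1 := by rw [← Real.exp_add]; simp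
  nlinarith

theorem fn_two (n : ℕ) : fn n 2 = 0 := by simp [fn]

theorem low (n : ℕ) {p : ℕ} (hp : p.Prime) : Real.exp (-(3 * (1 / p))) ≤ 1 + fn n p := by
  rcases hp.two_le.eq_or_lt with rfl | h
  · rw [fn_two, add_zero, Real.exp_le_one_iff]
    norm_num
  · have h3 : (3 : ℝ) ≤ p := by exact_mod_cast h
    have h1 := (abs_le.1 (sing2_abs_fn n p)).1
    rw [Nat.totient_prime hp, Nat.cast_sub hp.one_le, Nat.cast_one] at h1
    refine (exp_le (x := 1 - 1 / (p - 1)) (by positivity) ?_).trans (by linarith)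
    have : (0 : ℝ) < p - 1 := by linarith
    rw [one_sub_div this.ne', mul_one_div, one_add_div (by positivity), div_mul_div_comm,
      one_le_div (by positivity)]
    nlinarith

theorem pr_union {x y z : ℝ} (h : x ≤ y) (h' : y ≤ z) :
    pr x z = pr x y ∪ pr y z ∧ Disjoint (pr x y) (pr y z) := by
  unfold pr
  rw [← filter_union, Ioc_union_Ioc_eq_Ioc (Nat.floor_mono h) (Nat.floor_mono h')]
  exact ⟨rfl, disjoint_filter_filter (Ioc_disjoint_Ioc_of_le le_rfl)⟩

theorem Pn_ge : ∃ K : ℝ, 0 < K ∧ ∀ n y : ℕ, 3 ≤ y → K / lg y ^ 3 ≤ Pn n y := by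
  have l2 : 0 < Real.log 2 := Real.log_pos one_lt_two
  refine ⟨Real.exp (-(3 * (1 / 2 - Real.log (Real.log 2) + 22 / Real.log 2))), Real.exp_pos _,
    fun n y hy => ?_⟩
  have h2 : (2 : ℝ) ≤ y := by exact_mod_cast (by omega : 2 ≤ y)
  have hl : 0 < lg y := Real.log_pos (by linarith)
  have h3 := sum_pr_le le_rfl h2
  obtain ⟨e, d⟩ := pr_union (x := 0) zero_le_two h2
  have h4 : pr 0 2 = {2} := by
    rw [pr, Nat.floor_zero, Nat.floor_ofNat]
    decide
  refine le_trans ?_ (prod_le_prod (fun _ _ => (Real.exp_pos _).le) fun p hp =>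
    low n (mem_filter.1 hp).2)
  rw [← Real.exp_sum, sum_neg_distrib, ← mul_sum, e, sum_union d, h4, sum_singleton,
    ← Real.exp_log (pow_pos hl 3), ← Real.exp_sub, Real.exp_le_exp, Real.log_pow]
  rw [← lg, Real.log_div hl.ne' l2.ne'] at h3
  push_cast
  linarith

theorem tail : ∃ K : ℝ, 0 < K ∧ ∀ y Z : ℕ, 1 ≤ y →
    ∑ d ∈ Ioc y Z, 1 / (d.totient : ℝ) ^ 2 ≤ K / √(y : ℝ) := by
  obtain ⟨C, hC, h⟩ := sing2_pow_omega 4 (1 / 4) (by norm_num) (by norm_num)
  have hs : Summable fun d : ℕ => (d : ℝ) ^ (-(5 / 4) : ℝ) := Real.summable_nat_rpow.2 (by norm_num)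
  have h0 : 0 ≤ ∑' d : ℕ, (d : ℝ) ^ (-(5 / 4) : ℝ) := tsum_nonneg fun _ => by positivity
  refine ⟨C * (∑' d : ℕ, (d : ℝ) ^ (-(5 / 4) : ℝ) + 1), by positivity, fun y Z hy => ?_⟩
  have hy' : (0 : ℝ) < y := by exact_mod_cast hy
  calc _ ≤ ∑ d ∈ Ioc y Z, C / √(y : ℝ) * (d : ℝ) ^ (-(5 / 4) : ℝ) := sum_le_sum fun d hd => by
        have h1 := (mem_Ioc.1 hd).1
        have h2 : (0 : ℝ) < d := by exact_mod_cast (by omega : 0 < d)
        calc _ = (1 / (d.totient : ℝ)) ^ 2 := by rw [div_pow, one_pow]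
          _ ≤ (2 ^ d.primeFactors.card / d) ^ 2 :=
            pow_le_pow_left₀ (by positivity) (sing2_inv_totient d (by omega)) 2
          _ = 4 ^ d.primeFactors.card / d ^ 2 := by
            rw [div_pow, ← pow_mul, mul_comm, pow_mul]
            norm_num
          _ ≤ C * (d : ℝ) ^ (1 / 4 : ℝ) / d ^ 2 := by
            gcongr
            exact h d (by omega)
          _ = C / √(d : ℝ) * (d : ℝ) ^ (-(5 / 4) : ℝ) := by
            rw [Real.sqrt_eq_rpow, ← Real.rpow_natCast, mul_div_assoc, div_mul_eq_mul_div,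
              mul_div_assoc, ← Real.rpow_sub h2, ← Real.rpow_sub h2]
            norm_num
          _ ≤ _ := by gcongr
    _ ≤ _ := by
      rw [← mul_sum, div_mul_eq_mul_div]
      gcongr
      linarith [hs.sum_le_tsum (Ioc y Z) fun _ _ => by positivity]

/-- the coefficients as an arithmetic function -/
noncomputable def fa (n : ℕ) : ArithmeticFunction ℝ := ⟨fn n, by simp [fn]⟩

theorem fa_mul (n : ℕ) : (fa n).IsMultiplicative := by
  refine ArithmeticFunction.IsMultiplicative.iff_ne_zero.2 ⟨by simp [fa, fn], ?_⟩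
  intro p d hp hd hc
  have : NeZero p := ⟨hp⟩
  have : NeZero d := ⟨hd⟩
  change fn n _ = fn n _ * fn n _
  unfold fn
  by_cases h1 : Odd p
  · by_cases h2 : Odd d
    · rw [if_pos (h1.mul h2), if_pos h1, if_pos h2, jacobiSym.mul_right,
        ArithmeticFunction.isMultiplicative_moebius.map_mul_of_coprime hc, Nat.totient_mul hc]
      push_cast
      rw [div_mul_div_comm]
      ring
    · rw [if_neg fun h3 => h2 (Nat.odd_mul.1 h3).2, if_neg h2, mul_zero]
  · rw [if_neg fun h3 => h1 (Nat.odd_mul.1 h3).1, if_neg h1, zero_mul]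

theorem Pn_eq (n y : ℕ) : Pn n y = ∑ d ∈ (primorial y).divisors, fn n d := by
  refine Eq.trans (prod_congr ?_ fun _ _ => rfl)
    ((fa_mul n).prodPrimeFactors_one_add_of_squarefree (squarefree_primorial y))
  ext p
  rw [mem_pr le_rfl, Nat.mem_primeFactors_of_ne_zero (primorial_ne_zero y)]
  refine and_congr_right fun hp => ?_
  rw [hp.dvd_primorial_iff, Nat.cast_le, and_iff_right (Nat.cast_pos.2 hp.pos)]

end AA1

open AA1 in
theorem blk_AA1 : St_AA1 := by
  refine ⟨fun ε hε => ?_, fun n y P hP => ?_, fun n y z η hy hyz h4 h1 h2 => ?_⟩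
  · obtain ⟨K, hK, h⟩ := Pn_ge
    obtain ⟨C, hC, h'⟩ := tail
    obtain ⟨y, h1, h2⟩ := ((eventually_ge_atTop 3).and (ev_lg_sqrt (C / (ε * K ^ 2)) 6)).exists
    have h3 : (3 : ℝ) ≤ y := by exact_mod_cast h1
    have hl : 0 < lg y := Real.log_pos (by linarith)
    refine ⟨y, K / lg y ^ 3, h1, by positivity, fun n => h n y h1,
      fun Z => (h' y Z (by omega)).trans ?_⟩
    rw [div_mul_eq_mul_div, div_le_iff₀ (by positivity)] at h2
    rw [div_pow, ← mul_div_assoc, div_le_div_iff₀ (by positivity) (by positivity), ← pow_mul]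
    exact h2.trans_eq (mul_comm _ _)
  · rw [Pn_eq, S0, ← sum_filter_add_sum_filter_not (Icc 1 P) (· ∣ primorial y)]
    congr 1
    · refine sum_congr ?_ fun _ _ => rfl
      ext d
      rw [mem_filter, mem_Icc, Nat.mem_divisors, and_iff_left (primorial_ne_zero y)]
      exact and_iff_right_of_imp fun h => ⟨Nat.pos_of_dvd_of_pos h (primorial_pos y),
        (Nat.le_of_dvd (primorial_pos y) h).trans hP⟩
    · refine (sum_subset (filter_subset_filter _ fun d hd => ?_) fun d hd hd' => ?_).symm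
      · rw [mem_Ioc] at hd
        rw [mem_Icc]
        omega
      · rw [mem_filter, mem_Icc] at hd
        rw [mem_filter, mem_Ioc, and_iff_left hd.2, and_iff_left hd.1.2, not_lt] at hd'
        have : μ d = 0 := ArithmeticFunction.moebius_eq_zero_of_not_squarefree fun hs =>
          hd.2 (hs.dvd_primorial.trans (primorial_dvd_primorial hd'))
        simp [fn, this]
  · obtain ⟨e, d⟩ := pr_union (x := 0) (by linarith) hyz
    have h0 : 0 < Pn n y := sing2_prod_pos n _ fun p hp => (mem_filter.1 hp).2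
    have η0 := (abs_nonneg _).trans h1
    have hb : ∀ p ∈ pr y z, |fn n p| ≤ 1 / 2 ∧ fn n p ^ 2 ≤ 1 / (p.totient : ℝ) ^ 2 := fun p hp => by
      obtain ⟨a, b, -⟩ := (mem_pr (by linarith)).1 hp
      have c := sing2_abs_fn n p
      have : (2 : ℝ) ≤ p.totient := by
        have : 2 < p := by exact_mod_cast hy.trans_lt b
        rw [Nat.totient_prime a]
        exact_mod_cast (by omega : 2 ≤ p - 1)
      exact ⟨c.trans (by gcongr), by rw [← sq_abs, ← one_div_pow]; gcongr⟩
    have u : ∏ p ∈ pr y z, (1 + fn n p) ≤ Real.exp η := by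
      refine (prod_le_prod (g := fun p => Real.exp (fn n p))
        (fun p hp => by linarith [(abs_le.1 (hb p hp).1).1])
        fun p _ => by linarith [Real.add_one_le_exp (fn n p)]).trans ?_
      rw [← Real.exp_sum, Real.exp_le_exp]
      exact (abs_le.1 h1).2
    have l : Real.exp (-(3 * η)) ≤ ∏ p ∈ pr y z, (1 + fn n p) := by
      refine le_trans ?_ (prod_le_prod (f := fun p => Real.exp (-(2 * fn n p ^ 2 - fn n p)))
        (fun _ _ => (Real.exp_pos _).le) fun p hp => ?_)
      · rw [← Real.exp_sum, Real.exp_le_exp, sum_neg_distrib, sum_sub_distrib, ← mul_sum]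
        linarith [sum_le_sum fun p hp => (hb p hp).2, (abs_le.1 h1).1]
      · have := abs_le.1 (hb p hp).1
        exact exp_le (by nlinarith) (by nlinarith [sq_nonneg (fn n p)])
    have u2 := (abs_le.1 (Real.abs_exp_sub_one_le (x := η) (by rw [abs_of_nonneg η0]; linarith))).2
    rw [abs_of_nonneg η0] at u2
    have l2 := Real.add_one_le_exp (-(3 * η))
    rw [Pn, e, prod_union d, ← Pn, ← mul_sub_one, abs_mul, abs_of_pos h0, mul_comm]
    exact mul_le_mul_of_nonneg_right (abs_le.2 ⟨by linarith, by linarith⟩) h0.le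

end Pool.Agent.Lib.APQ
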