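import Pool.Agent.Lib.APQ.Kit

/-!
Block AA2: second moments of the character sums along the progression.
-/

namespace Pool.Agent.Lib.APQ

open Finset Real Complex Filter Pool.Agent.Lib.PS
open scoped NumberTheorySymbols ArithmeticFunction.Moebius Classical ComplexConjugate

namespace AA2

theorem le_tot (d : ℕ) : (d : ℝ) ≤ (d.divisors.card : ℝ) * d.totient := by
  rcases Nat.eq_zero_or_pos d with rfl | hd
  · simp
  have h1 : ∑ e ∈ d.divisors, e.totient ≤ d.divisors.card • d.totient :=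
    sum_le_card_nsmul _ _ _ fun e he =>
      Nat.le_of_dvd (Nat.totient_pos.2 hd) (Nat.totient_dvd_of_dvd (Nat.dvd_of_mem_divisors he))
  rw [Nat.sum_totient, smul_eq_mul] at h1
  exact_mod_cast h1

theorem jac_sq (n : ℤ) (p : ℕ) : ((J(n | p) : ℝ)) ^ 2 ≤ 1 := by
  rcases jacobiSym.trichotomy n p with h | h | h <;> simp [h]

theorem mu_abs (d : ℕ) : |(μ d : ℝ)| ≤ 1 := by
  have := ArithmeticFunction.abs_moebius_le_one (n := d)
  exact_mod_cast this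

theorem log_floor_le {X : ℕ} {a : ℝ} (hX : 1 ≤ X) (ha : a ≤ 1) :
    Real.log (⌊(X : ℝ) ^ a⌋₊ : ℕ) ≤ lg X := by
  have hX' : (1 : ℝ) ≤ X := by exact_mod_cast hX
  have h1 : ((⌊(X : ℝ) ^ a⌋₊ : ℕ) : ℝ) ≤ X := by
    refine (Nat.floor_le (by positivity)).trans ?_
    conv_rhs => rw [← Real.rpow_one (X : ℝ)]
    exact Real.rpow_le_rpow_of_exponent_le hX' ha
  rcases Nat.eq_zero_or_pos ⌊(X : ℝ) ^ a⌋₊ with h0 | h0
  · rw [h0]; simpa using lg_nonneg X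
  · exact Real.log_le_log (by exact_mod_cast h0) h1

theorem one (hJV : St_JV) (q a K : ℕ) (y z : ℝ) (hq : q.Prime) (hy : 2 ≤ y) (hz : 0 ≤ z) :
    ∑ k ∈ range K, Js (a + q * k) y z ^ 2 ≤
      K * (4 / y + 2 / (q : ℝ) ^ 2) + 64 * (1 + 2 * Real.log (⌊z⌋₊ : ℕ)) * z := by
  set S := (pr y z).erase q with hS
  have hy0 : 0 ≤ y := by linarith
  have hmem : ∀ p ∈ S, p.Prime ∧ y < p ∧ p ≤ ⌊z⌋₊ ∧ p ≠ q := fun p hp => by
    obtain ⟨h1, h2⟩ := mem_erase.1 hp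
    obtain ⟨h3, h4, h5⟩ := (mem_pr hy0).1 h2
    exact ⟨h3, h4, Nat.le_floor h5, h1⟩
  have hV := hJV q a K ⌊z⌋₊ S (fun p => 1 / (p : ℝ)) fun p hp => by
    obtain ⟨h1, h2, h3, h4⟩ := hmem p hp
    refine ⟨h1.odd_of_ne_two ?_, h1.squarefree, h3, (Nat.coprime_primes hq h1).2 h4.symm⟩
    rintro rfl
    norm_num at h2
    linarith
  have hk : ∀ k ∈ range K, Js (a + q * k) y z ^ 2 ≤
      2 * (∑ p ∈ S, 1 / (p : ℝ) * (J(((a + q * k : ℕ) : ℤ) | p) : ℝ)) ^ 2 + 2 / (q : ℝ) ^ 2 := by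
    intro k _
    have he : ∑ p ∈ S, 1 / (p : ℝ) * (J(((a + q * k : ℕ) : ℤ) | p) : ℝ) =
        ∑ p ∈ S, (J(((a + q * k : ℕ) : ℤ) | p) : ℝ) / p := sum_congr rfl fun p _ => by ring
    rw [he]
    by_cases hm : q ∈ pr y z
    · rw [Js, ← add_sum_erase _ _ hm, ← hS]
      have h1 := jac_sq ((a + q * k : ℕ) : ℤ) q
      have h2 : ((J(((a + q * k : ℕ) : ℤ) | q) : ℝ) / q) ^ 2 ≤ 1 / (q : ℝ) ^ 2 := by
        rw [div_pow]; gcongr
      have h3 : 2 / (q : ℝ) ^ 2 = 2 * (1 / (q : ℝ) ^ 2) := by ring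
      nlinarith [sq_nonneg ((J(((a + q * k : ℕ) : ℤ) | q) : ℝ) / q -
        ∑ p ∈ S, (J(((a + q * k : ℕ) : ℤ) | p) : ℝ) / p)]
    · rw [Js, hS, erase_eq_of_notMem hm]
      have h3 : 0 ≤ 2 / (q : ℝ) ^ 2 := by positivity
      nlinarith [sq_nonneg (∑ p ∈ pr y z, (J(((a + q * k : ℕ) : ℤ) | p) : ℝ) / p)]
  have hfl : 1 ≤ ⌊y⌋₊ := Nat.le_floor (by push_cast; linarith)
  have hA : ∑ p ∈ S, (1 / (p : ℝ)) ^ 2 ≤ 2 / y := by
    calc ∑ p ∈ S, (1 / (p : ℝ)) ^ 2 ≤ ∑ n ∈ Ioc ⌊y⌋₊ ⌊z⌋₊, 1 / ((n : ℕ) : ℝ) ^ 2 := by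
          simp only [div_pow, one_pow]
          exact sum_le_sum_of_subset_of_nonneg ((erase_subset _ _).trans (filter_subset _ _))
            fun _ _ _ => by positivity
      _ ≤ 1 / (⌊y⌋₊ : ℝ) := sum_inv_sq hfl _
      _ ≤ 2 / y := by
          have h1 := Nat.lt_floor_add_one y
          have h2 : (1 : ℝ) ≤ (⌊y⌋₊ : ℝ) := by exact_mod_cast hfl
          rw [div_le_div_iff₀ (by linarith) (by linarith)]
          linarith
  have hB : ∑ p ∈ S, |1 / (p : ℝ)| * (p.divisors.card : ℝ) * √(p : ℝ) ≤ 4 * √z := by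
    calc ∑ p ∈ S, |1 / (p : ℝ)| * (p.divisors.card : ℝ) * √(p : ℝ)
        = ∑ p ∈ S, 2 * (1 / √(p : ℝ)) := sum_congr rfl fun p hp => by
          have h1 := (hmem p hp).1
          have h2 : (0 : ℝ) < p := by exact_mod_cast h1.pos
          have h3 : 0 < √(p : ℝ) := Real.sqrt_pos.2 h2
          have h4 : √(p : ℝ) * √(p : ℝ) = p := Real.mul_self_sqrt h2.le
          rw [h1.divisors, card_pair h1.one_lt.ne, abs_of_pos (by positivity)]
          field_simp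
          push_cast
          nlinarith
      _ ≤ ∑ n ∈ Icc 1 ⌊z⌋₊, 2 * (1 / √(n : ℝ)) :=
          sum_le_sum_of_subset_of_nonneg (fun p hp =>
            mem_Icc.2 ⟨(hmem p hp).1.one_le, (hmem p hp).2.2.1⟩) fun _ _ _ => by positivity
      _ ≤ 2 * (2 * √((⌊z⌋₊ : ℕ) : ℝ)) := by
          rw [← mul_sum]; gcongr; exact sum_inv_sqrt _
      _ ≤ 4 * √z := by
          have := Real.sqrt_le_sqrt (Nat.floor_le hz)
          linarith
  have hB2 : (∑ p ∈ S, |1 / (p : ℝ)| * (p.divisors.card : ℝ) * √(p : ℝ)) ^ 2 ≤ 16 * z := by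
    refine (pow_le_pow_left₀ (sum_nonneg fun _ _ => by positivity) hB 2).trans (le_of_eq ?_)
    rw [mul_pow, Real.sq_sqrt hz]; norm_num
  have hl : 0 ≤ Real.log (⌊z⌋₊ : ℕ) := Real.log_natCast_nonneg _
  have hK : (0 : ℝ) ≤ K := Nat.cast_nonneg _
  have h1 := sum_le_sum hk
  rw [sum_add_distrib, ← mul_sum, sum_const, card_range, nsmul_eq_mul] at h1
  have h2 := mul_le_mul_of_nonneg_left hA hK
  have h3 := mul_le_mul_of_nonneg_left hB2 (show 0 ≤ 2 * (1 + 2 * Real.log (⌊z⌋₊ : ℕ)) by positivity)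
  have h4 : (K : ℝ) * (4 / y + 2 / (q : ℝ) ^ 2) = 2 * (K * (2 / y)) + K * (2 / (q : ℝ) ^ 2) := by
    ring
  rw [h4]
  linarith

theorem two (hJV : St_JV) (q a K Z : ℕ) (T : Finset ℕ) (hq : q.Prime) (hZ : Z < q)
    (hT : ∀ d ∈ T, 1 ≤ d ∧ d ≤ Z) :
    ∑ k ∈ range K, (∑ d ∈ T, fn (a + q * k) d) ^ 2 ≤
      K * ∑ d ∈ T, 1 / (d.totient : ℝ) ^ 2 +
        2 * (1 + 2 * Real.log Z) * (Z * (1 + Real.log Z) ^ 8) := by
  set S := T.filter (fun d => Odd d ∧ Squarefree d) with hS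
  have hV := hJV q a K Z S (fun d => (μ d : ℝ) / d.totient) fun d hd => by
    obtain ⟨h1, h2, h3⟩ := mem_filter.1 hd
    obtain ⟨h4, h5⟩ := hT d h1
    exact ⟨h2, h3, h5, (Nat.Prime.coprime_iff_not_dvd hq).2
      (Nat.not_dvd_of_pos_of_lt h4 (by omega))⟩
  have he : ∀ n : ℕ, ∑ d ∈ T, fn n d = ∑ d ∈ S, (μ d : ℝ) / d.totient * (J((n : ℤ) | d) : ℝ) := by
    intro n
    rw [hS, sum_filter]
    refine sum_congr rfl fun d _ => ?_
    by_cases h1 : Odd d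
    · by_cases h2 : Squarefree d
      · rw [fn, if_pos h1, if_pos ⟨h1, h2⟩]; ring
      · rw [fn, if_pos h1, if_neg (fun h => h2 h.2),
          ArithmeticFunction.moebius_eq_zero_of_not_squarefree h2]
        simp
    · rw [fn, if_neg h1, if_neg (fun h => h1 h.1)]
  have hA : ∑ d ∈ S, ((μ d : ℝ) / d.totient) ^ 2 ≤ ∑ d ∈ T, 1 / (d.totient : ℝ) ^ 2 := by
    refine le_trans (sum_le_sum fun d _ => ?_)
      (sum_le_sum_of_subset_of_nonneg (filter_subset _ _) fun _ _ _ => by positivity)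
    rw [div_pow]
    gcongr
    exact (sq_le_one_iff_abs_le_one _).2 (mu_abs d)
  have hB : ∑ d ∈ S, |(μ d : ℝ) / d.totient| * (d.divisors.card : ℝ) * √(d : ℝ) ≤
      √(Z : ℝ) * (1 + Real.log Z) ^ 4 := by
    calc ∑ d ∈ S, |(μ d : ℝ) / d.totient| * (d.divisors.card : ℝ) * √(d : ℝ)
        ≤ ∑ d ∈ S, √(Z : ℝ) * ((d.divisors.card : ℝ) ^ 2 / d) := sum_le_sum fun d hd => by
          obtain ⟨h4, h5⟩ := hT d (mem_filter.1 hd).1
          have h1 : (0 : ℝ) < d := by exact_mod_cast h4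
          have h2 : (0 : ℝ) < d.totient := by exact_mod_cast Nat.totient_pos.2 h4
          have h3 : |(μ d : ℝ) / d.totient| ≤ (d.divisors.card : ℝ) / d := by
            rw [abs_div, abs_of_pos h2, div_le_div_iff₀ h2 h1]
            have := le_tot d
            nlinarith [mu_abs d]
          have h6 : √(d : ℝ) ≤ √(Z : ℝ) := Real.sqrt_le_sqrt (by exact_mod_cast h5)
          calc |(μ d : ℝ) / d.totient| * (d.divisors.card : ℝ) * √(d : ℝ)
              ≤ (d.divisors.card : ℝ) / d * (d.divisors.card : ℝ) * √(Z : ℝ) := by gcongr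
            _ = _ := by ring
      _ ≤ ∑ d ∈ Icc 1 Z, √(Z : ℝ) * ((d.divisors.card : ℝ) ^ 2 / d) :=
          sum_le_sum_of_subset_of_nonneg (fun d hd => mem_Icc.2 (hT d (mem_filter.1 hd).1))
            fun _ _ _ => by positivity
      _ ≤ √(Z : ℝ) * (1 + Real.log Z) ^ 4 := by
          rw [← mul_sum]
          gcongr
          simpa using Pool.Agent.Lib.RankZero.dp_S 2 Z
  have hB2 : (∑ d ∈ S, |(μ d : ℝ) / d.totient| * (d.divisors.card : ℝ) * √(d : ℝ)) ^ 2 ≤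
      Z * (1 + Real.log Z) ^ 8 := by
    refine (pow_le_pow_left₀ (sum_nonneg fun _ _ => by positivity) hB 2).trans (le_of_eq ?_)
    rw [mul_pow, Real.sq_sqrt (Nat.cast_nonneg _), ← pow_mul]
  have hl : 0 ≤ Real.log Z := Real.log_natCast_nonneg _
  have hK : (0 : ℝ) ≤ K := Nat.cast_nonneg _
  have h2 := mul_le_mul_of_nonneg_left hA hK
  have h3 := mul_le_mul_of_nonneg_left hB2 (show 0 ≤ 2 * (1 + 2 * Real.log Z) by positivity)
  simp only [he]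
  linarith

end AA2

theorem blk_AA2 (hJV : St_JV) : St_AA2 := by
  refine ⟨fun d t η hd hdt ht hη => ?_, fun η hη => ?_⟩
  · filter_upwards [eventually_ge_atTop 1, ev_lg 1,
      ev_rpow (max 2 (24 / η)) (show (0 : ℝ) < 6 / 25 by norm_num),
      ev_pow (384 / η) 1 (show 1 / 2 - t < 1 / 2 - d / 10 by linarith)] with X hX hl hz hp q a K hR
    have hX' : (1 : ℝ) ≤ X := by exact_mod_cast hX
    have hz2 : 2 ≤ zz X := (le_max_left _ _).trans hz
    have hz3 : 24 / η ≤ zz X := (le_max_right _ _).trans hz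
    have h1 := AA2.one hJV q a K (zz X) ((X : ℝ) ^ (1 / 2 - t)) hR.pr hz2 (by positivity)
    have h2 := AA2.log_floor_le hX (show 1 / 2 - t ≤ 1 by linarith)
    have h3 := hR.K_le hX (by linarith)
    have h4 := hR.div_ge hX
    have hq := hR.q_pos
    have h5 : zz X ≤ q :=
      (Real.rpow_le_rpow_of_exponent_le hX' (by norm_num)).trans hR.lo
    have h6 : 2 / (q : ℝ) ^ 2 ≤ 2 / zz X := by
      gcongr
      nlinarith
    have h7 : 4 / zz X + 2 / (q : ℝ) ^ 2 ≤ η / 4 := by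
      have h8 : 6 / zz X ≤ η / 4 := by
        rw [div_le_iff₀ (by linarith)]
        rw [div_le_iff₀ hη] at hz3
        linarith
      have h9 : 6 / zz X = 4 / zz X + 2 / zz X := by ring
      linarith
    have h8 : (K : ℝ) * (4 / zz X + 2 / (q : ℝ) ^ 2) ≤ 2 * X / q * (η / 4) := by
      gcongr
    have hY : (0 : ℝ) ≤ (X : ℝ) ^ (1 / 2 - t) := by positivity
    have h9 : 64 * (1 + 2 * Real.log (⌊(X : ℝ) ^ (1 / 2 - t)⌋₊ : ℕ)) * (X : ℝ) ^ (1 / 2 - t) ≤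
        192 * lg X * (X : ℝ) ^ (1 / 2 - t) :=
      mul_le_mul_of_nonneg_right (by linarith) hY
    have h10 : 192 * lg X * (X : ℝ) ^ (1 / 2 - t) ≤ η / 2 * (X / q) := by
      have h11 := mul_le_mul_of_nonneg_left (hp.trans h4) (show 0 ≤ η / 2 by positivity)
      refine le_trans (le_of_eq ?_) h11
      field_simp
      ring
    have h12 : η * X / q = 2 * X / q * (η / 4) + η / 2 * (X / q) := by ring
    linarith
  · filter_upwards [eventually_ge_atTop 2, ev_lg 1,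
      ev_pow (1536 / η) 9 (show (1 / 4 : ℝ) < 1 / 2 - 1 / 1000 by norm_num)]
      with X hX hl hp q a K T hR hT
    have hX1 : 1 ≤ X := by omega
    have hX' : (1 : ℝ) < X := by exact_mod_cast hX
    have hZ : ((⌊(X : ℝ) ^ (1 / 4 : ℝ)⌋₊ : ℕ) : ℝ) ≤ (X : ℝ) ^ (1 / 4 : ℝ) :=
      Nat.floor_le (by positivity)
    have hZq : ⌊(X : ℝ) ^ (1 / 4 : ℝ)⌋₊ < q := by
      have h1 : (X : ℝ) ^ (1 / 4 : ℝ) < (X : ℝ) ^ (59 / 200 : ℝ) :=
        Real.rpow_lt_rpow_of_exponent_lt hX' (by norm_num)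
      exact_mod_cast (hZ.trans_lt h1).trans_le hR.lo
    have h1 := AA2.two hJV q a K _ T hR.pr hZq fun d hd => ⟨(hT d hd).1, Nat.le_floor (hT d hd).2⟩
    have h2 := AA2.log_floor_le hX1 (show (1 / 4 : ℝ) ≤ 1 by norm_num)
    have h3 := hR.K_le hX1 (by norm_num)
    have h4 := hR.div_ge hX1
    have hq := hR.q_pos
    have hl0 : 0 ≤ Real.log (⌊(X : ℝ) ^ (1 / 4 : ℝ)⌋₊ : ℕ) := Real.log_natCast_nonneg _
    have h5 : (K : ℝ) * ∑ d ∈ T, 1 / (d.totient : ℝ) ^ 2 ≤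
        2 * X / q * ∑ d ∈ T, 1 / (d.totient : ℝ) ^ 2 :=
      mul_le_mul_of_nonneg_right h3 (sum_nonneg fun _ _ => by positivity)
    have h6 : 2 * (1 + 2 * Real.log (⌊(X : ℝ) ^ (1 / 4 : ℝ)⌋₊ : ℕ)) *
        ((⌊(X : ℝ) ^ (1 / 4 : ℝ)⌋₊ : ℕ) * (1 + Real.log (⌊(X : ℝ) ^ (1 / 4 : ℝ)⌋₊ : ℕ)) ^ 8) ≤
        2 * (lg X + 2 * lg X) * ((X : ℝ) ^ (1 / 4 : ℝ) * (lg X + lg X) ^ 8) := by
      gcongr
    have h7 : 2 * (lg X + 2 * lg X) * ((X : ℝ) ^ (1 / 4 : ℝ) * (lg X + lg X) ^ 8) ≤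
        η * (X / q) := by
      have h11 := mul_le_mul_of_nonneg_left (hp.trans h4) hη.le
      refine le_trans (le_of_eq ?_) h11
      field_simp
      ring
    have h12 : η * X / q = η * (X / q) := by ring
    linarith

end Pool.Agent.Lib.APQ
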