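import Pool.Agent.Lib.APQ.Kit

/-!
Summation by parts with unimodal weights.
-/

namespace Pool.Agent.Lib.APQ

open Finset Real Complex Filter Pool.Agent.Lib.PS
open scoped NumberTheorySymbols ArithmeticFunction.Moebius Classical ComplexConjugate

namespace ABEL

theorem sum_top {E : Type} [AddCommMonoid E] (f : ℤ → E) {a u : ℤ} (h : a ≤ u) :
    ∑ t ∈ Ico a (u + 1), f t = ∑ t ∈ Ico a u, f t + f u := by
  rw [← insert_Ico_right_eq_Ico_add_one h, sum_insert right_notMem_Ico, add_comm]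

theorem abel {E : Type} [NormedAddCommGroup E] [NormedSpace ℝ E] {φ : ℤ → ℝ} {Φ D : ℝ} {a b : ℤ}
    {f : ℤ → E} (hφ : Uni φ Φ) (hab : a ≤ b)
    (h : ∀ s u, a ≤ s → s ≤ u → u ≤ b → ‖∑ t ∈ Ico s u, f t‖ ≤ D) :
    ‖∑ t ∈ Ico a b, φ t • f t‖ ≤ 2 * Φ * D := by
  obtain ⟨h0, c, h1, h2⟩ := hφ
  have hD : 0 ≤ D := (norm_nonneg _).trans (h a a le_rfl le_rfl hab)
  set g : ℤ → ℝ := fun u => if u ≤ c then φ u else 2 * φ c - φ u with hg
  have h3 : ∀ u, |φ u - φ (u + 1)| ≤ g (u + 1) - g u := fun u => by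
    simp only [hg]
    rcases lt_trichotomy u c with e | e | e
    · rw [if_pos (by omega), if_pos e.le, abs_sub_comm,
        abs_of_nonneg (sub_nonneg.mpr (h1 u (u + 1) (by omega) (by omega)))]
    · rw [if_neg (by omega), if_pos e.le,
        abs_of_nonneg (sub_nonneg.mpr (h2 u (u + 1) e.ge (by omega))), e]
      linarith
    · rw [if_neg (by omega), if_neg (by omega),
        abs_of_nonneg (sub_nonneg.mpr (h2 u (u + 1) e.le (by omega)))]
      linarith
  have h4 : ∀ u, a ≤ u → u ≤ b →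
      ‖∑ t ∈ Ico a u, φ t • f t - φ u • ∑ t ∈ Ico a u, f t‖ ≤ (g u - g a) * D := by
    intro u hu
    induction u, hu using Int.leInduction with
    | base => simp
    | succ u hu ih =>
      intro hb
      have e : ∑ t ∈ Ico a (u + 1), φ t • f t - φ (u + 1) • ∑ t ∈ Ico a (u + 1), f t =
          (∑ t ∈ Ico a u, φ t • f t - φ u • ∑ t ∈ Ico a u, f t) +
            (φ u - φ (u + 1)) • ∑ t ∈ Ico a (u + 1), f t := by
        rw [sum_top _ hu, sum_top f hu, sub_smul, smul_add (φ u)]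
        abel
      rw [e]
      refine (norm_add_le _ _).trans ?_
      rw [norm_smul, Real.norm_eq_abs]
      linarith [ih (by omega), mul_le_mul (h3 u) (h a (u + 1) le_rfl (by omega) hb)
        (norm_nonneg _) ((abs_nonneg _).trans (h3 u))]
  have h5 : 0 ≤ g a := by
    simp only [hg]
    split_ifs with e
    · exact (h0 a).1
    · linarith [h2 c a le_rfl (by omega), (h0 c).1]
  have h6 : g b + φ b ≤ 2 * Φ := by
    simp only [hg]
    split_ifs with e <;> linarith [(h0 b).2, (h0 c).2]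
  have h7 := norm_add_le (∑ t ∈ Ico a b, φ t • f t - φ b • ∑ t ∈ Ico a b, f t)
    (φ b • ∑ t ∈ Ico a b, f t)
  rw [sub_add_cancel, norm_smul, Real.norm_of_nonneg (h0 b).1] at h7
  nlinarith [h4 b hab le_rfl, mul_le_mul_of_nonneg_left (h a b le_rfl hab le_rfl) (h0 b).1]

theorem geom (a b : ℤ) (α : ℝ) : ‖∑ t ∈ Ico a b, ee (t * α)‖ * nz α ≤ 1 / 2 := by
  rcases le_or_gt a b with hab | hab
  swap
  · rw [Ico_eq_empty_of_le hab.le, sum_empty, norm_zero, zero_mul]
    norm_num
  have h1 : (∑ t ∈ Ico a b, ee (t * α)) * (ee α - 1) = ee (b * α) - ee (a * α) := by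
    induction b, hab using Int.leInduction with
    | base => simp
    | succ u hu ih =>
      rw [sum_top _ hu, add_mul, ih, Int.cast_add, Int.cast_one, add_mul (u : ℝ), one_mul,
        maj_ee_add]
      ring
  have h2 : 4 * nz α ≤ ‖ee α - 1‖ := by
    have h3 := maj_ee_sub ((α - round α) / 2) ((α - round α) / 2)
    have h4 : ee α = ee (α - round α) := by
      conv_lhs => rw [← sub_add_cancel α (round α), maj_ee_add, maj_ee_int, mul_one]
    rw [add_halves, sub_self, maj_ee_zero, ← h4] at h3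
    have h5 := Real.mul_abs_le_abs_sin (x := 2 * π * ((α - round α) / 2)) (by
      rw [abs_mul, abs_of_pos Real.two_pi_pos, abs_div, abs_two]
      nlinarith [abs_sub_round α, Real.pi_pos])
    rw [abs_mul, abs_of_pos Real.two_pi_pos, abs_div, abs_two,
      show 2 / π * (2 * π * (|α - round α| / 2)) = 2 * |α - round α| by field_simp] at h5
    rw [h3, norm_mul, maj_ee_norm, one_mul, norm_mul, norm_mul, Complex.norm_I, mul_one,
      Complex.norm_real, Real.norm_eq_abs, Complex.norm_two, nz]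
    linarith
  have h6 := norm_sub_le (ee (b * α)) (ee (a * α))
  rw [← h1, norm_mul, maj_ee_norm, maj_ee_norm] at h6
  nlinarith [mul_le_mul_of_nonneg_left h2 (norm_nonneg (∑ t ∈ Ico a b, ee (t * α)))]

theorem count (c : ℤ) {d : ℕ} (hd : 1 ≤ d) {s u : ℤ} (h : s ≤ u) :
    |∑ t ∈ Ico s u, ((if (d : ℤ) ∣ t - c then (1 : ℝ) else 0) - 1 / d)| ≤ 1 := by
  have hd' : (0 : ℝ) < d := by exact_mod_cast hd
  have hd0 : (0 : ℤ) < d := by exact_mod_cast hd
  have h1 : ∑ t ∈ Ico s u, ((if (d : ℤ) ∣ t - c then (1 : ℝ) else 0) - 1 / d) =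
      (((s - 1 - c) % d : ℤ) - ((u - 1 - c) % d : ℤ)) / d := by
    induction u, h using Int.leInduction with
    | base => simp
    | succ u hu ih =>
      have h2 : (u + 1 - 1 - c) % d =
          (u - 1 - c) % d + 1 - if (d : ℤ) ∣ u - c then (d : ℤ) else 0 := by
        have h3 := Int.emod_nonneg (u - 1 - c) hd0.ne'
        have h4 := Int.emod_lt_of_pos (u - 1 - c) hd0
        have h5 : u - c = (u - 1 - c) % d + 1 + d * ((u - 1 - c) / d) := by
          linarith [Int.emod_add_mul_ediv (u - 1 - c) d]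
        rw [add_sub_cancel_right]
        split_ifs with e
        · rw [Int.emod_eq_zero_of_dvd e]
          rw [h5] at e
          have := Int.le_of_dvd (by omega) ((dvd_add_left (dvd_mul_right _ _)).mp e)
          omega
        · have h6 : (u - 1 - c) % d + 1 ≠ d := fun e' => e (by
            rw [h5, e']; exact dvd_add dvd_rfl (dvd_mul_right _ _))
          conv_lhs => rw [h5, Int.add_mul_emod_self_left]
          rw [Int.emod_eq_of_lt (by omega) (by omega), sub_zero]
      rw [sum_top _ hu, ih, h2]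
      split_ifs <;> push_cast <;> field_simp <;> ring
  have h2 : ∀ x : ℤ, (0 : ℝ) ≤ (x % d : ℤ) ∧ ((x % d : ℤ) : ℝ) < d := fun x =>
    ⟨by exact_mod_cast Int.emod_nonneg x hd0.ne', by exact_mod_cast Int.emod_lt_of_pos x hd0⟩
  rw [h1, abs_div, abs_of_pos hd', div_le_one hd', abs_le]
  constructor <;> linarith [h2 (s - 1 - c), h2 (u - 1 - c)]

theorem sum_len (f : ℤ → ℝ) (s : ℤ) (d : ℕ) :
    ∑ t ∈ Ico s (s + d), f t = ∑ i ∈ range d, f (s + i) := by
  induction d with
  | zero => simp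
  | succ d ih => rw [Nat.cast_succ, ← add_assoc, sum_top _ (by omega), ih, sum_range_succ]

theorem sum_per {f : ℤ → ℝ} {d : ℕ} (hf : ∀ t, f (t + d) = f t) (s : ℤ) :
    ∑ t ∈ Ico s (s + d), f t = ∑ c ∈ range d, f c := by
  have h : ∀ s : ℤ, ∑ i ∈ range d, f (s + 1 + i) = ∑ i ∈ range d, f (s + i) := fun s => by
    have h1 := sum_range_succ (fun i : ℕ => f (s + i)) d
    rw [sum_range_succ', hf, Nat.cast_zero, add_zero, add_left_inj] at h1
    rw [← h1]
    exact sum_congr rfl fun i _ => by rw [Nat.cast_succ, add_assoc, add_comm 1]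
  rw [sum_len]
  induction s using Int.induction_on with
  | zero => simp
  | succ k ih => rw [h, ih]
  | pred k ih => rw [← h, sub_add_cancel, ih]

theorem per {f : ℤ → ℝ} {d : ℕ} (hd : 1 ≤ d) (hf : ∀ t, f (t + d) = f t) (k : ℕ) (s u : ℤ)
    (h : u - s ≤ k) :
    |∑ t ∈ Ico s u, (f t - (∑ c ∈ range d, f c) / d)| ≤ 2 * ∑ c ∈ range d, |f c| := by
  have hd' : (0 : ℝ) < d := by exact_mod_cast hd
  have h0 : 0 ≤ ∑ c ∈ range d, |f c| := sum_nonneg fun _ _ => abs_nonneg _
  induction k generalizing s with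
  | zero =>
    rw [Ico_eq_empty_of_le (by omega), sum_empty, abs_zero]
    linarith
  | succ k ih =>
    rcases le_or_gt (s + d) u with e | e
    · rw [← Ico_union_Ico_eq_Ico (show s ≤ s + d by omega) e,
        sum_union (Ico_disjoint_Ico_consecutive _ _ _), sum_sub_distrib, sum_per hf, sum_const,
        Int.card_Ico, add_sub_cancel_left, Int.toNat_natCast, nsmul_eq_mul,
        mul_div_cancel₀ _ hd'.ne', sub_self, zero_add]
      exact ih _ (by omega)
    · refine (abs_sum_le_sum_abs _ _).trans ((sum_le_sum_of_subset_of_nonneg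
        (Ico_subset_Ico_right e.le) fun _ _ _ => abs_nonneg _).trans
          ((sum_le_sum fun t _ => abs_sub _ _).trans ?_))
      rw [sum_add_distrib, sum_per (f := fun t => |f t|) fun t => by rw [hf], sum_const,
        Int.card_Ico, add_sub_cancel_left, Int.toNat_natCast, nsmul_eq_mul, abs_div,
        abs_of_pos hd', mul_div_cancel₀ _ hd'.ne']
      linarith [abs_sum_le_sum_abs (fun c : ℕ => f c) (range d)]

theorem uni_of {φ : ℤ → ℝ} {Φ : ℝ} (h0 : ∀ t, 0 ≤ φ t ∧ φ t ≤ Φ) (c : ℤ)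
    (h1 : ∀ s t, s ≤ t → t ≤ c → φ s ≤ φ t) (h2 : ∀ s t, c < s → s ≤ t → φ t ≤ φ s) : Uni φ Φ := by
  rcases le_total (φ c) (φ (c + 1)) with e | e
  · refine ⟨h0, c + 1, fun s t hs ht => ?_, fun s t hs ht => h2 s t (by omega) ht⟩
    rcases ht.eq_or_lt with rfl | ht
    · rcases hs.eq_or_lt with rfl | hs
      · exact le_rfl
      · exact (h1 s c (by omega) le_rfl).trans e
    · exact h1 s t hs (by omega)
  · refine ⟨h0, c, h1, fun s t hs ht => ?_⟩
    rcases hs.eq_or_lt with rfl | hs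
    · rcases ht.eq_or_lt with rfl | ht
      · exact le_rfl
      · exact (h2 (c + 1) t (by omega) (by omega)).trans e
    · exact h2 s t hs ht

theorem uni_pos {φ : ℤ → ℝ} {Φ : ℝ} (h : Uni φ Φ) (n : ℤ) {s : ℤ} (hs : 0 < s) :
    Uni (fun t => φ (n + s * t)) Φ := by
  obtain ⟨h0, c, h1, h2⟩ := h
  refine uni_of (fun _ => h0 _) ((c - n) / s) (fun x y hx hy => h1 _ _ ?_ ?_)
    fun x y hx hy => h2 _ _ ?_ ?_
  · nlinarith
  · linarith [(Int.le_ediv_iff_mul_le hs).mp hy]
  · linarith [(Int.ediv_lt_iff_lt_mul hs).mp hx]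
  · nlinarith

theorem uni_aff {φ : ℤ → ℝ} {Φ : ℝ} (h : Uni φ Φ) (n s : ℤ) : Uni (fun t => φ (n + s * t)) Φ := by
  rcases lt_trichotomy s 0 with e | rfl | e
  · obtain ⟨h0, c, h1, h2⟩ := h
    have h3 : Uni (fun t => φ (-t)) Φ := ⟨fun _ => h0 _, -c,
      fun x y hx hy => h2 _ _ (by omega) (by omega), fun x y hx hy => h1 _ _ (by omega) (by omega)⟩
    simpa [add_comm] using uni_pos h3 (-n) (neg_pos.mpr e)
  · exact ⟨fun _ => h.1 _, 0, fun _ _ _ _ => by simp, fun _ _ _ _ => by simp⟩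
  · exact uni_pos h n e

theorem uni_cut {φ : ℤ → ℝ} {Φ : ℝ} (h : Uni φ Φ) (a b : ℤ) :
    Uni (fun t => if t ∈ Ico a b then φ t else 0) Φ := by
  obtain ⟨h0, c, h1, h2⟩ := h
  have h3 : ∀ t, 0 ≤ (if t ∈ Ico a b then φ t else 0) ∧ (if t ∈ Ico a b then φ t else 0) ≤ Φ :=
    fun t => by
      split_ifs
      exacts [h0 t, ⟨le_rfl, (h0 t).1.trans (h0 t).2⟩]
  refine uni_of h3 (max (a - 1) (min c (b - 1))) (fun s t hs ht => ?_) fun s t hs ht => ?_
  · by_cases e : s ∈ Ico a b
    · have e' := mem_Ico.mp e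
      rw [if_pos e, if_pos (mem_Ico.mpr (by omega))]
      exact h1 s t hs (by omega)
    · rw [if_neg e]
      exact (h3 t).1
  · by_cases e : t ∈ Ico a b
    · have e' := mem_Ico.mp e
      rw [if_pos e, if_pos (mem_Ico.mpr (by omega))]
      exact h2 s t (by omega) ht
    · rw [if_neg e]
      exact (h3 s).1

end ABEL

theorem blk_ABEL : St_ABEL := by
  refine ⟨fun φ Φ D a b f h hab hf => ABEL.abel h hab hf,
    fun φ Φ D a b f h hab hf => ABEL.abel (f := f) (D := D) h hab hf, ABEL.geom,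
    fun φ Φ a b c d h hd => ?_,
    fun f d s u hd hf => ABEL.per hd hf (u - s).toNat s u (Int.self_le_toNat _),
    fun φ Φ n s h => ABEL.uni_aff h n s, fun φ Φ a b h => ABEL.uni_cut h a b⟩
  rcases le_or_gt a b with hab | hab
  · have h1 := ABEL.abel (f := fun t => (if (d : ℤ) ∣ t - c then (1 : ℝ) else 0) - 1 / d) (D := 1)
      h hab fun s u _ hs _ => ABEL.count c hd hs
    rw [mul_one] at h1
    refine le_of_eq_of_le (congrArg _ ?_) h1
    rw [sum_div, ← sum_sub_distrib]
    exact sum_congr rfl fun t _ => by split_ifs <;> simp only [smul_eq_mul] <;> ring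
  · rw [Ico_eq_empty_of_le hab.le, sum_empty, sum_empty, zero_div, sub_zero, abs_zero]
    linarith [(h.1 0).1, (h.1 0).2]

end Pool.Agent.Lib.APQ
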