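import Pool.Agent.Lib.APQ.Kit

/-!
Arithmetic of the local factors.
-/

namespace Pool.Agent.Lib.APQ

open Finset Real Complex Filter Pool.Agent.Lib.PS
open scoped NumberTheorySymbols ArithmeticFunction.Moebius Classical ComplexConjugate

namespace AF

theorem rho_eq (d : ℕ) [NeZero d] (x : ℤ) :
    rho d x = (univ.filter fun m : ZMod d => m ^ 2 = (x : ZMod d)).card := by
  rw [rho, card_filter, card_filter,
    ← gau_sum_zmod d fun m : ZMod d => if m ^ 2 = (x : ZMod d) then 1 else 0]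
  refine sum_congr rfl fun m _ => if_congr ?_ rfl rfl
  rw [← ZMod.intCast_zmod_eq_zero_iff_dvd]
  push_cast
  exact sub_eq_zero

theorem rho_mul (a b : ℕ) (h : Nat.Coprime a b) (x : ℤ) : rho (a * b) x = rho a x * rho b x := by
  rcases Nat.eq_zero_or_pos a with rfl | ha
  · simp [rho]
  rcases Nat.eq_zero_or_pos b with rfl | hb
  · simp [rho]
  have : NeZero a := ⟨ha.ne'⟩
  have : NeZero b := ⟨hb.ne'⟩
  have : NeZero (a * b) := ⟨(Nat.mul_pos ha hb).ne'⟩
  rw [rho_eq, rho_eq, rho_eq, ← card_product]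
  refine Finset.card_equiv (ZMod.chineseRemainder h).toEquiv fun m => ?_
  simp only [mem_filter, mem_univ, true_and, mem_product]
  rw [← (ZMod.chineseRemainder h).injective.eq_iff, map_pow, map_intCast, Prod.ext_iff]
  simp

theorem rho_one (x : ℤ) : rho 1 x = 1 := by simp [rho]

/-- the number of square roots as an arithmetic function -/
noncomputable def RR (x : ℤ) : ArithmeticFunction ℤ := ⟨fun d => (rho d x : ℤ), by simp [rho]⟩

theorem RR_mult (x : ℤ) : (RR x).IsMultiplicative := by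
  refine ⟨?_, fun {a b} h => ?_⟩
  · show ((rho 1 x : ℕ) : ℤ) = 1
    rw [rho_one]; rfl
  · show ((rho (a * b) x : ℕ) : ℤ) = (rho a x : ℤ) * (rho b x : ℤ)
    rw [rho_mul a b h]; push_cast; rfl

theorem Aq_eq (q : ℕ) (x : ℤ) : Aq q x = (μ * RR x) q := by
  rw [ArithmeticFunction.mul_apply, Nat.sum_divisorsAntidiagonal' fun a b => μ a * RR x b, Aq]
  rfl

theorem Aq_mul (a b : ℕ) (h : Nat.Coprime a b) (x : ℤ) : Aq (a * b) x = Aq a x * Aq b x := by
  simp only [Aq_eq]
  exact (ArithmeticFunction.isMultiplicative_moebius.mul (RR_mult x)).map_mul_of_coprime h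

theorem two_sq : ∀ a : ZMod 2, (univ.filter fun m : ZMod 2 => m ^ 2 = a).card = 1 := by decide

theorem Aq_prime (p : ℕ) (hp : p.Prime) (x : ℤ) : Aq p x = if Odd p then J(x | p) else 0 := by
  have hf : Fact p.Prime := ⟨hp⟩
  have h1 : Aq p x = (rho p x : ℤ) - 1 := by
    rw [Aq, hp.sum_divisors, Nat.div_self hp.pos, Nat.div_one, rho_one,
      ArithmeticFunction.moebius_apply_prime hp]
    simp
    ring
  rw [h1]
  by_cases h2 : p = 2
  · subst h2
    have h4 : rho 2 x = 1 := by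
      rw [rho_eq]
      exact two_sq _
    rw [h4, if_neg (by decide)]
    simp
  · rw [if_pos (hp.odd_of_ne_two h2), rho_eq, ← jacobiSym.legendreSym.to_jacobiSym]
    have h3 := legendreSym.card_sqrts p h2 x
    rw [Set.toFinset_ofPred] at h3
    rw [h3]
    ring

theorem Aq_sqf (x : ℤ) (r : ℕ) : Squarefree r → Aq r x = if Odd r then J(x | r) else 0 := by
  induction r using Nat.recOnPosPrimePosCoprime with
  | prime_pow p k hp hk =>
    intro hs
    have h1 : k = 1 := by
      have := (Nat.squarefree_pow_iff hp.ne_one hk.ne').1 hs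
      exact this.2
    subst h1
    rw [pow_one]
    exact Aq_prime p hp x
  | zero => intro hs; exact absurd hs not_squarefree_zero
  | one => intro _; simp [Aq, rho_one]
  | coprime a b ha hb h iha ihb =>
    intro hs
    rw [Aq_mul a b h, iha hs.of_mul_left, ihb hs.of_mul_right]
    have ha0 : NeZero a := ⟨by omega⟩
    have hb0 : NeZero b := ⟨by omega⟩
    by_cases h1 : Odd a
    · by_cases h2 : Odd b
      · rw [if_pos h1, if_pos h2, if_pos (h1.mul h2), jacobiSym.mul_right]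
      · rw [if_neg h2, if_neg (fun h3 => h2 (Nat.odd_mul.1 h3).2), mul_zero]
    · rw [if_neg h1, if_neg (fun h3 => h1 (Nat.odd_mul.1 h3).1), zero_mul]

theorem part1 (r n : ℕ) : (μ r : ℝ) * (Aq r n : ℝ) / (r.totient : ℝ) = fn n r := by
  unfold fn
  by_cases hs : Squarefree r
  · rw [Aq_sqf n r hs]
    split_ifs <;> simp
  · rw [ArithmeticFunction.moebius_eq_zero_of_not_squarefree hs]
    simp

theorem gS_le (a : ℤ) (q : ℕ) : ‖gS a q‖ ≤ q := by
  unfold gS
  refine (norm_sum_le _ _).trans ?_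
  simp [maj_ee_norm]

theorem part2 (r : ℕ) (y : ℤ) : |(Aq r y : ℝ)| ≤ r := by
  rcases Nat.eq_zero_or_pos r with rfl | hr
  · simp [Aq]
  have hr' : (0 : ℝ) < r := by exact_mod_cast hr
  have h1 : |(Aq r y : ℝ)| = ‖(Aq r y : ℂ)‖ := by
    rw [Complex.norm_intCast]
  rw [h1, gau_Aq r y hr]
  refine (norm_sum_le _ _).trans ?_
  have h2 : ∀ a ∈ (range r).filter (fun a => Nat.Coprime a r),
      ‖gS a r / r * ee (-((a : ℝ) * y / r))‖ ≤ 1 := by
    intro a _
    rw [norm_mul, maj_ee_norm, mul_one, norm_div, Complex.norm_natCast, div_le_one hr']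
    exact gS_le a r
  refine (sum_le_card_nsmul _ _ _ h2).trans ?_
  rw [nsmul_eq_mul, mul_one]
  have h3 := card_filter_le (range r) fun a => Nat.Coprime a r
  rw [card_range] at h3
  exact_mod_cast h3

theorem part3 (P : ℕ) (y : ℤ) : |(nu P y : ℝ)| ≤ (P : ℝ) ^ 2 := by
  rw [nu, Int.cast_sum]
  refine (abs_sum_le_sum_abs _ _).trans ?_
  have h2 : ∀ q ∈ Icc 1 P, |(Aq q y : ℝ)| ≤ (P : ℝ) := fun q hq =>
    (part2 q y).trans (by exact_mod_cast (mem_Icc.1 hq).2)
  refine (sum_le_card_nsmul _ _ _ h2).trans ?_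
  rw [nsmul_eq_mul, Nat.card_Icc, Nat.add_sub_cancel, pow_two]

theorem part4 (r : ℕ) (y y' : ℤ) (h : (r : ℤ) ∣ y - y') : Aq r y = Aq r y' := by
  unfold Aq
  refine sum_congr rfl fun d hd => ?_
  have hd' : (d : ℤ) ∣ y - y' :=
    (Int.natCast_dvd_natCast.2 (Nat.dvd_of_mem_divisors hd)).trans h
  have h1 : rho d y = rho d y' := by
    unfold rho
    refine congrArg card (filter_congr fun m _ => ?_)
    have h2 : (m : ℤ) ^ 2 - y' = ((m : ℤ) ^ 2 - y) + (y - y') := by ring
    rw [h2, dvd_add_left hd']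
  rw [h1]

theorem ram (k r : ℕ) (hr : 0 < r) (hk : Nat.Coprime k r) :
    ∑ c ∈ (range r).filter (fun c => Nat.Coprime c r), ee ((c : ℝ) * ((k : ℤ) / r)) = (μ r : ℂ) := by
  have h1 := (ArithmeticFunction.sum_eq_iff_sum_mul_moebius_eq_on (R := ℂ)
    (f := fun e => ∑ c ∈ (range e).filter (fun c => Nat.Coprime c e),
      ee ((c : ℝ) * ((k : ℤ) / e)))
    (g := fun d => if d = 1 then 1 else 0) {d | Nat.Coprime k d}
    (fun _ _ h h' => Nat.Coprime.coprime_dvd_right h h')).1 (fun d hd hu => by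
      rw [gau_split (fun c e => ee ((c : ℝ) * ((k : ℤ) / e))) ?_ d hd, maj_orth d hd k]
      · by_cases h : d = 1
        · subst h; simp
        · rw [if_neg h, if_neg]
          intro h2
          exact h (Nat.Coprime.eq_one_of_dvd (Nat.Coprime.symm hu) (Int.natCast_dvd_natCast.1 h2))
      · intro j e a hj he
        have hj' : (j : ℝ) ≠ 0 := by exact_mod_cast hj.ne'
        have he' : (e : ℝ) ≠ 0 := by exact_mod_cast he.ne'
        refine congrArg ee ?_
        push_cast
        field_simp) r hr hk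
  rw [← h1, Nat.sum_divisorsAntidiagonal' fun a b => (μ a : ℂ) * (if b = 1 then 1 else 0),
    sum_eq_single 1]
  · simp
  · intro b _ hb
    rw [if_neg hb, mul_zero]
  · intro h
    exact absurd (Nat.one_mem_divisors.2 hr.ne') h

theorem part5 (r u : ℕ) (n : ℤ) (hr : 1 ≤ r) (hu : Nat.Coprime u r) :
    ∑ c ∈ (range r).filter (fun c => Nat.Coprime c r), (Aq r (n - c * u) : ℝ)
      = (μ r : ℝ) * (Aq r n : ℝ) := by
  have h1 : ∑ c ∈ (range r).filter (fun c => Nat.Coprime c r), (Aq r (n - c * u) : ℂ)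
      = (μ r : ℂ) * (Aq r n : ℂ) := by
    rw [gau_Aq r n hr, sum_congr rfl fun (c : ℕ) _ => gau_Aq r (n - c * u) hr, sum_comm, mul_sum]
    refine sum_congr rfl fun a ha => ?_
    have ha' : Nat.Coprime (a * u) r := Nat.Coprime.mul_left (mem_filter.1 ha).2 hu
    rw [← ram (a * u) r hr ha', sum_mul]
    refine sum_congr rfl fun c _ => ?_
    rw [mul_left_comm, ← maj_ee_add]
    refine congrArg (fun t => gS a r / r * ee t) ?_
    push_cast
    ring
  exact_mod_cast h1

theorem part6 (X P : ℕ) (α : ℝ) : Ts X P α = ∑ r ∈ Icc 1 P,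
    ∑ b ∈ (range r).filter (fun b => Nat.Coprime b r),
      GG b 0 r / r * II X P (α - (b : ℝ) / r) := by
  have h1 : ∀ (b r : ℕ), GG b 0 r = gS b r := by
    intro b r
    simp [GG, gS]
  simp only [h1, Ts, II, ft, md, mul_sum]
  have h2 : ∀ y : ℤ, ((s0 X P y * (nu P y : ℝ) : ℝ) : ℂ) * ee (y * α) = ∑ r ∈ Icc 1 P,
      ∑ b ∈ (range r).filter (fun b => Nat.Coprime b r),
        gS b r / r * ((s0 X P y : ℂ) * ee (y * (α - (b : ℝ) / r))) := by
    intro y
    have h3 : ((nu P y : ℝ) : ℂ) = ∑ r ∈ Icc 1 P,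
        ∑ b ∈ (range r).filter (fun b => Nat.Coprime b r),
          gS b r / r * ee (-((b : ℝ) * y / r)) := by
      rw [Complex.ofReal_intCast, nu, Int.cast_sum]
      exact sum_congr rfl fun r hr => gau_Aq r y (mem_Icc.1 hr).1
    rw [Complex.ofReal_mul, h3, mul_sum, sum_mul]
    refine sum_congr rfl fun r _ => ?_
    rw [mul_sum, sum_mul]
    refine sum_congr rfl fun b _ => ?_
    have h4 : (y : ℝ) * (α - (b : ℝ) / r) = -((b : ℝ) * y / r) + y * α := by ring
    rw [h4, maj_ee_add]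
    ring
  rw [sum_congr rfl fun y _ => h2 y, sum_comm]
  exact sum_congr rfl fun r _ => sum_comm

end AF

theorem blk_AF : St_AF :=
  ⟨fun r n _ => AF.part1 r n, AF.part2, AF.part3, AF.part4, AF.part5, AF.part6⟩

end Pool.Agent.Lib.APQ
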