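import Pool.Agent.Lib.APQ.Kit

/-!
Numbers of roots of congruences and the sieve products.
-/

namespace Pool.Agent.Lib.APQ

open Finset Real Complex Filter Pool.Agent.Lib.PS
open scoped NumberTheorySymbols ArithmeticFunction.Moebius Classical ComplexConjugate

namespace AG

theorem rho_odd {p : ℕ} [Fact p.Prime] (h2 : p ≠ 2) (x : ℤ) :
    (rho p x : ℤ) = legendreSym p x + 1 := by
  rw [← legendreSym.card_sqrts p h2 x, rho, Nat.cast_inj]
  refine card_nbij' (fun m => (m : ZMod p)) (fun a => a.val) (fun m hm => ?_) (fun a ha => ?_)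
    (fun m hm => ?_) fun a _ => ZMod.natCast_zmod_val a
  · have := (ZMod.intCast_zmod_eq_zero_iff_dvd _ _).2 (mem_filter.1 hm).2
    simpa [sub_eq_zero] using this
  · refine mem_filter.2 ⟨mem_range.2 (ZMod.val_lt a), (ZMod.intCast_zmod_eq_zero_iff_dvd _ _).1 ?_⟩
    simpa [sub_eq_zero] using ha
  · exact ZMod.val_cast_of_lt (mem_range.1 (mem_filter.1 hm).1)

theorem rho_two (x : ℤ) : rho 2 x = 1 := by
  rw [rho, card_filter, sum_range_succ, sum_range_one]
  push_cast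
  split_ifs <;> omega

theorem rho_le {p : ℕ} (hp : p.Prime) (x : ℤ) : rho p x ≤ 2 ∧ 3 * rho p x ≤ 2 * p := by
  by_cases h2 : p = 2
  · subst h2
    rw [rho_two]
    omega
  · have := Fact.mk hp
    have h1 := rho_odd h2 x
    have h3 := hp.two_le
    have h4 : legendreSym p x ≤ 1 := by
      rw [jacobiSym.legendreSym.to_jacobiSym]
      rcases jacobiSym.trichotomy x p with h | h | h <;> omega
    omega

theorem rt_mul (f : ℤ → ℤ) (a b : ℕ) (hf : ∀ m m', m - m' ∣ f m - f m') (h : Nat.Coprime a b) :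
    rt f (a * b) = rt f a * rt f b := by
  rcases Nat.eq_zero_or_pos a with rfl | ha
  · simp [rt]
  rcases Nat.eq_zero_or_pos b with rfl | hb
  · simp [rt]
  have key : ∀ c m m' : ℕ, m ≡ m' [MOD c] → (c : ℤ) ∣ f m → (c : ℤ) ∣ f m' := fun c m m' e k =>
    (dvd_iff_dvd_of_dvd_sub (e.dvd.trans (hf _ _))).2 k
  rw [rt, rt, rt, ← card_product]
  refine card_bij (fun m _ => (m % a, m % b)) (fun m hm => ?_) (fun m hm m' hm' e => ?_)
    fun y hy => ?_
  · have k := (mem_filter.1 hm).2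
    push_cast at k
    exact mem_product.2 ⟨mem_filter.2 ⟨mem_range.2 (Nat.mod_lt _ ha),
        key _ _ _ (Nat.mod_modEq m a).symm ((dvd_mul_right _ _).trans k)⟩,
      mem_filter.2 ⟨mem_range.2 (Nat.mod_lt _ hb),
        key _ _ _ (Nat.mod_modEq m b).symm ((dvd_mul_left _ _).trans k)⟩⟩
  · obtain ⟨e1, e2⟩ := Prod.mk.inj e
    exact ((Nat.modEq_and_modEq_iff_modEq_mul h).1 ⟨e1, e2⟩).eq_of_lt_of_lt
      (mem_range.1 (mem_filter.1 hm).1) (mem_range.1 (mem_filter.1 hm').1)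
  · obtain ⟨h1, h2⟩ := mem_product.1 hy
    obtain ⟨h3, h4⟩ := mem_filter.1 h1
    obtain ⟨h5, h6⟩ := mem_filter.1 h2
    obtain ⟨c1, c2⟩ := (Nat.chineseRemainder h y.1 y.2).2
    refine ⟨Nat.chineseRemainder h y.1 y.2, mem_filter.2 ⟨mem_range.2
      (Nat.chineseRemainder_lt_mul h _ _ ha.ne' hb.ne'), ?_⟩, Prod.ext ?_ ?_⟩
    · push_cast
      exact (Nat.isCoprime_iff_coprime.2 h).mul_dvd (key _ _ _ c1.symm h4) (key _ _ _ c2.symm h6)
    · exact Eq.trans c1 (Nat.mod_eq_of_lt (mem_range.1 h3))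
    · exact Eq.trans c2 (Nat.mod_eq_of_lt (mem_range.1 h5))

theorem rt_rho (d : ℕ) (n : ℤ) : rt (fun m => n - m ^ 2) d = rho d n :=
  congrArg card (filter_congr fun _ _ => dvd_sub_comm)

theorem rt_id (d : ℕ) (hd : 1 ≤ d) : rt (fun m => m) d = 1 := by
  refine card_eq_one.2 ⟨0, eq_singleton_iff_unique_mem.2
    ⟨mem_filter.2 ⟨mem_range.2 hd, dvd_zero _⟩, fun m hm => ?_⟩⟩
  obtain ⟨h1, h2⟩ := mem_filter.1 hm
  exact Nat.eq_zero_of_dvd_of_lt (Int.natCast_dvd_natCast.1 h2) (mem_range.1 h1)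

theorem rho_mul {a b : ℕ} (h : Nat.Coprime a b) (n : ℤ) : rho (a * b) n = rho a n * rho b n := by
  rw [← rt_rho, ← rt_rho, ← rt_rho]
  exact rt_mul _ a b (fun m m' => ⟨-(m + m'), by ring⟩) h

theorem rho_sf (e : ℕ) (n : ℤ) : Squarefree e →
    rho e n = ∏ p ∈ e.primeFactors, rho p n ∧ rho e n ≤ e.divisors.card := by
  induction e using Nat.recOnPosPrimePosCoprime with
  | prime_pow p k hp hk =>
    intro h
    obtain rfl := ((Nat.squarefree_pow_iff hp.ne_one hk.ne').1 h).2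
    rw [pow_one, hp.primeFactors, prod_singleton, hp.divisors, card_pair hp.ne_one.symm]
    exact ⟨rfl, (rho_le hp n).1⟩
  | zero => exact fun h => absurd h not_squarefree_zero
  | one => exact fun _ => by simp [rho]
  | coprime a b _ _ h iha ihb =>
    intro k
    obtain ⟨a1, a2⟩ := iha k.of_mul_left
    obtain ⟨b1, b2⟩ := ihb k.of_mul_right
    rw [rho_mul h, h.primeFactors_mul, prod_union h.disjoint_primeFactors, h.card_divisors_mul]
    exact ⟨by rw [← a1, ← b1], Nat.mul_le_mul a2 b2⟩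

theorem rho_nat (p n : ℕ) (hp : p.Prime) :
    (rho p n : ℝ) = if p = 2 then 1 else 1 + (J((n : ℤ) | p) : ℝ) := by
  split_ifs with h2
  · rw [h2, rho_two, Nat.cast_one]
  · have := Fact.mk hp
    have h1 := rho_odd h2 (n : ℤ)
    rw [jacobiSym.legendreSym.to_jacobiSym, add_comm] at h1
    exact_mod_cast h1

theorem term (n : ℕ) {p : ℕ} (hp : p.Prime) :
    0 < 1 + fn n p ∧ 1 - (rho p n : ℝ) / p = (1 - 1 / (p : ℝ)) * (1 + fn n p) := by
  rw [rho_nat p n hp, fn]
  by_cases h2 : p = 2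
  · subst h2
    rw [if_neg (by decide), if_pos rfl]
    norm_num
  · have h3 : (3 : ℝ) ≤ p := by
      have := hp.two_le
      exact_mod_cast (by omega : 3 ≤ p)
    have h4 : (J((n : ℤ) | p) : ℝ) ≤ 1 := by
      rcases jacobiSym.trichotomy (n : ℤ) p with h | h | h <;> rw [h] <;> norm_num
    have h5 : (0 : ℝ) < p - 1 := by linarith
    rw [if_neg h2, if_pos (hp.odd_of_ne_two h2), ArithmeticFunction.moebius_apply_prime hp,
      Nat.totient_prime hp, Nat.cast_pred hp.pos]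
    push_cast
    refine ⟨?_, by field_simp; ring⟩
    rw [one_add_div h5.ne']
    exact div_pos (by linarith) h5

theorem Vz_le {z : ℝ} (hz : 2 ≤ z) :
    0 ≤ Vz z ∧ Vz z ≤ Real.exp (22 / Real.log 2) * Real.log 2 / Real.log z := by
  have h0 : ∀ p ∈ pr 0 z, 0 ≤ 1 - 1 / (p : ℝ) := fun p hp => by
    have : (1 : ℝ) ≤ p := by exact_mod_cast ((mem_pr le_rfl).1 hp).1.one_le
    rw [sub_nonneg]
    exact div_le_one_of_le₀ this (by positivity)
  refine ⟨prod_nonneg h0, ?_⟩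
  have h1 : Vz z ≤ Real.exp (-∑ p ∈ pr 0 z, 1 / (p : ℝ)) := by
    rw [← sum_neg_distrib, Real.exp_sum]
    exact prod_le_prod h0 fun p _ => Real.one_sub_le_exp_neg _
  have h2 : ∑ p ∈ pr 2 z, 1 / (p : ℝ) ≤ ∑ p ∈ pr 0 z, 1 / (p : ℝ) :=
    sum_le_sum_of_subset_of_nonneg (fun p hp => by
      obtain ⟨a, b, c⟩ := (mem_pr zero_le_two).1 hp
      exact (mem_pr le_rfl).2 ⟨a, by linarith, c⟩) fun _ _ _ => by positivity
  have h3 := (abs_le.1 (BK2.mert_two le_rfl hz)).1
  have h4 : 0 < Real.log 2 := Real.log_pos one_lt_two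
  have h5 : 0 < Real.log z := Real.log_pos (by linarith)
  refine h1.trans ((Real.exp_le_exp.2 (show _ ≤ 22 / Real.log 2 - Real.log (Real.log z / Real.log 2)
    by unfold pr at h2 ⊢; linarith)).trans_eq ?_)
  rw [Real.exp_sub, Real.exp_log (div_pos h5 h4), div_div_eq_mul_div]

end AG

open AG in
theorem blk_AG : St_AG :=
  ⟨rho_nat, fun _ n hp => rho_le hp n, rt_mul, rt_rho, rt_id, rho_sf,
    fun _ n n' h => congrArg card (filter_congr fun m _ => dvd_iff_dvd_of_dvd_sub (by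
      rw [show (m : ℤ) ^ 2 - n - (m ^ 2 - n') = -(n - n') by ring]
      exact h.neg_right)),
    fun n z => ⟨prod_pos fun p hp => (term n ((mem_pr le_rfl).1 hp).1).1, by
      rw [Vz, Pn, ← prod_mul_distrib]
      exact prod_congr rfl fun p hp => (term n ((mem_pr le_rfl).1 hp).1).2⟩,
    _, mul_pos (Real.exp_pos _) (Real.log_pos one_lt_two), fun _ hz => Vz_le hz⟩

end Pool.Agent.Lib.APQ
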