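import Pool.Agent.Lib.APQ.Kit
import Pool.Agent.Lib.PS.All

/-! Block ALL: from dyadic ranges to all integers up to `X`. -/

namespace Pool.Agent.Lib.APQ

open Finset Real Complex Filter Pool.Agent.Lib.PS Topology
open scoped NumberTheorySymbols ArithmeticFunction.Moebius Classical ComplexConjugate

namespace ALL

/-- the exceptional set in a class -/
noncomputable def Ex (q a Y : ℕ) : Finset ℕ := (Icc 0 Y).filter fun n => n ≡ a [MOD q] ∧ ¬ Rep n

theorem triv (q a Y : ℕ) : ((Ex q a Y).card : ℝ) ≤ Y / q + 1 := by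
  refine RankZero.dp_card (u := 0) (fun n hn => by simpa using (mem_filter.1 hn).1)
    fun y hy y' hy' => ?_
  exact (Nat.modEq_iff_dvd.1 ((mem_filter.1 hy').2.1.trans (mem_filter.1 hy).2.1.symm))

theorem step {δ e : ℝ} {q a Y Z : ℕ} (hq : q.Prime) (ha : ¬ q ∣ a) (hZ : Z ≤ 2 * Y)
    (h1 : (Y : ℝ) ^ (59 / 200 : ℝ) ≤ q) (h2 : (q : ℝ) ≤ (Y : ℝ) ^ (1 / 2 + δ))
    (h : ∀ q a K : ℕ, Reg δ Y q a K →
      (((range K).filter fun k => ¬ Rep (a + q * k)).card : ℝ) ≤ e * Y / q) :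
    ((Ex q a Z).card : ℝ) ≤ (Ex q a Y).card + e * Y / q := by
  have hq0 := hq.pos
  obtain ⟨b, hb1, hb2, hb3⟩ : ∃ b, Y < b ∧ b ≤ Y + q ∧ b ≡ a [MOD q] := by
    refine ⟨Y + 1 + (a + (q - 1) * (Y + 1)) % q, by omega, ?_, ?_⟩
    · have := Nat.mod_lt (a + (q - 1) * (Y + 1)) hq0
      omega
    · refine ((Nat.mod_modEq _ _).add_left _).trans ?_
      have e1 : Y + 1 + (a + (q - 1) * (Y + 1)) = a + q * (Y + 1) := by
        obtain ⟨r, rfl⟩ : ∃ r, q = r + 1 := ⟨q - 1, by omega⟩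
        simp only [Nat.add_sub_cancel]
        ring
      rw [e1]
      exact Nat.ModEq.symm (by simp [Nat.ModEq])
  have hK := Nat.mul_div_le (2 * Y + q - b) q
  have hR : Reg δ Y q b ((2 * Y + q - b) / q) :=
    ⟨hq, h1, h2, fun hd => ha ((hb3.dvd_iff dvd_rfl).1 hd), hb1, by omega⟩
  refine le_trans ?_ (add_le_add_right (h q b _ hR) _)
  rw [← Nat.cast_add, Nat.cast_le]
  refine (card_le_card (t := Ex q a Y ∪ ((range ((2 * Y + q - b) / q)).filter
    fun k => ¬ Rep (b + q * k)).image fun k => b + q * k) fun n hn => ?_).trans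
    ((card_union_le _ _).trans (Nat.add_le_add_left card_image_le _))
  obtain ⟨n1, n2, n3⟩ := mem_filter.1 hn
  have n4 := (mem_Icc.1 n1).2
  rcases le_or_gt n Y with h3 | h3
  · exact mem_union_left _ (mem_filter.2 ⟨mem_Icc.2 ⟨by omega, h3⟩, n2, n3⟩)
  · have h4 : b ≤ n := by
      by_contra h5
      have h6 := Nat.le_of_dvd (by omega) ((Nat.modEq_iff_dvd' (by omega : n ≤ b)).1
        (n2.trans hb3.symm))
      omega
    obtain ⟨k, hk⟩ := (Nat.modEq_iff_dvd' h4).1 (hb3.trans n2.symm)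
    have h7 : b + q * k = n := by omega
    refine mem_union_right _ (mem_image.2 ⟨k, mem_filter.2 ⟨mem_range.2 ?_, h7 ▸ n3⟩, h7⟩)
    rw [Nat.lt_iff_add_one_le, Nat.le_div_iff_mul_le hq0, add_mul, mul_comm k]
    omega

theorem iter {e : ℝ} {q a X Y₀ : ℕ} (hq : 0 < q) (he : 0 ≤ e)
    (h : ∀ Y Z : ℕ, Y₀ ≤ Y → Y ≤ X → Z ≤ 2 * Y →
      ((Ex q a Z).card : ℝ) ≤ (Ex q a Y).card + e * Y / q) (j : ℕ) :
    ∀ Y : ℕ, Y₀ * 2 ^ j ≤ Y → Y ≤ X →
      ((Ex q a Y).card : ℝ) ≤ (e * (Y + j) + (Y - 1) / 2 ^ j + 1) / q + 1 := by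
  have hq' : (0 : ℝ) < q := by exact_mod_cast hq
  induction j with
  | zero =>
    intro Y _ _
    refine (triv q a Y).trans ?_
    have : 0 ≤ e * Y := by positivity
    gcongr
    simp only [Nat.cast_zero, add_zero, pow_zero, div_one]
    linarith
  | succ j ih =>
    intro Y h1 h2
    have h3 : Y₀ * 2 ^ j ≤ (Y + 1) / 2 := by rw [pow_succ, ← mul_assoc] at h1; omega
    have h4 : Y₀ ≤ Y₀ * 2 ^ j := Nat.le_mul_of_pos_right _ (by positivity)
    have h5 : 2 * (((Y + 1) / 2 : ℕ) : ℝ) ≤ Y + 1 := by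
      exact_mod_cast (show 2 * ((Y + 1) / 2) ≤ Y + 1 by omega)
    refine (h _ Y (h4.trans h3) (by omega) (by omega)).trans ?_
    refine (add_le_add_left (ih _ h3 (by omega)) _).trans ?_
    rw [add_right_comm, ← add_div]
    refine add_le_add_left (div_le_div_of_nonneg_right ?_ hq'.le) _
    have h6 : ((((Y + 1) / 2 : ℕ) : ℝ) - 1) / 2 ^ j ≤ ((Y : ℝ) - 1) / 2 ^ (j + 1) := by
      rw [pow_succ', ← div_div]
      gcongr
      linarith
    have h7 := mul_le_mul_of_nonneg_left h5 he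
    push_cast
    nlinarith

end ALL

open ALL in
theorem blk_ALL (hDY : St_DY) : St_ALL := by
  obtain ⟨δ, hδ, h⟩ := hDY
  obtain ⟨C, hC⟩ := all_final
  set δ₀ := min δ (1 / 10) with hδ₀
  have d0 : 0 < δ₀ := by positivity
  have d1 : δ₀ ≤ δ := min_le_left _ _
  have d2 : δ₀ ≤ 1 / 10 := min_le_right _ _
  refine ⟨δ₀ / 2, by positivity, fun ε hε => ?_⟩
  obtain ⟨X₁, hX₁⟩ := eventually_atTop.1 (h (ε / 4) (by positivity))
  obtain ⟨J, hJ⟩ := pow_unbounded_of_one_lt (8 / ε) (show (1 : ℝ) < 2 by norm_num)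
  have key : ∀ᶠ X : ℕ in atTop, ∀ q a : ℕ, q.Prime → (q : ℝ) ≤ (X : ℝ) ^ (1 / 2 + δ₀ / 2) →
      ¬ q ∣ a → ((Ex q a X).card : ℝ) ≤ ε * X / q := by
    filter_upwards [ev_pow ((|C| + 1) / ε) 0 (show (7 / 10 : ℝ) < 141 / 200 by norm_num),
      ev_rpow (2 ^ (J + 1)) (show 0 < δ₀ / 2 by positivity),
      ev_rpow (8 / ε) (show (0 : ℝ) < 2 / 5 by norm_num),
      eventually_ge_atTop ((X₁ + 1) * 2 ^ J + J)] with X x1 x2 x3 x4 q a hq hq1 ha
    have hp : 0 < 2 ^ J := by positivity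
    have hp' : 2 ^ J ≤ (X₁ + 1) * 2 ^ J := Nat.le_mul_of_pos_left _ (by omega)
    have hX1 : 1 ≤ X := by omega
    have hX : (1 : ℝ) ≤ X := by exact_mod_cast hX1
    have hX0 : (0 : ℝ) < X := by linarith
    have hq0 : (0 : ℝ) < q := by exact_mod_cast hq.pos
    rcases le_total (q : ℝ) ((X : ℝ) ^ (59 / 200 : ℝ)) with hs | hs
    · have h1 := hC X hX1
      rw [show (1 - 1 / (10 / 3) : ℝ) = 7 / 10 by norm_num] at h1
      have h2 : (1 : ℝ) ≤ (X : ℝ) ^ (7 / 10 : ℝ) := Real.one_le_rpow hX (by norm_num)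
      have h3 : (Ex q a X).card ≤ ((Icc 1 X).filter
          fun n => ¬ ∃ p m : ℕ, p.Prime ∧ n = p + m ^ 2).card + 1 := by
        refine (card_le_card fun n hn => ?_).trans (card_insert_le 0 _)
        obtain ⟨n1, -, n3⟩ := mem_filter.1 hn
        rw [mem_insert, mem_filter, mem_Icc]
        rcases Nat.eq_zero_or_pos n with h6 | h6
        · exact Or.inl h6
        · exact Or.inr ⟨⟨h6, (mem_Icc.1 n1).2⟩, n3⟩
      have h4 : ((Ex q a X).card : ℝ) ≤ (|C| + 1) * (X : ℝ) ^ (7 / 10 : ℝ) := by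
        have h5 : ((Ex q a X).card : ℝ) ≤ (((Icc 1 X).filter
          fun n => ¬ ∃ p m : ℕ, p.Prime ∧ n = p + m ^ 2).card : ℝ) + 1 := by exact_mod_cast h3
        nlinarith [le_abs_self C]
      rw [pow_zero, mul_one, div_mul_eq_mul_div, div_le_iff₀ hε] at x1
      rw [le_div_iff₀ hq0]
      calc ((Ex q a X).card : ℝ) * q ≤ (X : ℝ) ^ (141 / 200 : ℝ) * ε * (X : ℝ) ^ (59 / 200 : ℝ) := by
            gcongr; exact h4.trans x1
        _ = ε * X := by rw [mul_right_comm, ← Real.rpow_add hX0]; norm_num [mul_comm]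
    · have y1 : X₁ + 1 ≤ X / 2 ^ J := (Nat.le_div_iff_mul_le hp).2 (by omega)
      have y2 : (X : ℝ) / 2 ^ (J + 1) ≤ (X / 2 ^ J : ℕ) := by
        have a1 : X < 2 ^ J * (X / 2 ^ J + 1) := Nat.lt_mul_div_succ X hp
        have a2 : X ≤ X / 2 ^ J * 2 ^ (J + 1) := by rw [pow_succ]; nlinarith
        rw [div_le_iff₀ (by positivity)]
        exact_mod_cast a2
      have y3 : (q : ℝ) ≤ ((X : ℝ) / 2 ^ (J + 1)) ^ (1 / 2 + δ₀) := by
        have a1 : (1 : ℝ) ≤ 2 ^ (J + 1) := one_le_pow₀ (by norm_num)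
        have a2 : ((2 : ℝ) ^ (J + 1)) ^ (1 / 2 + δ₀) ≤ (X : ℝ) ^ (δ₀ / 2) := by
          refine le_trans ?_ x2
          conv_rhs => rw [← Real.rpow_one (2 ^ (J + 1))]
          exact Real.rpow_le_rpow_of_exponent_le a1 (by linarith)
        rw [Real.div_rpow hX0.le (by positivity), le_div_iff₀ (by positivity)]
        calc (q : ℝ) * _ ≤ (X : ℝ) ^ (1 / 2 + δ₀ / 2) * (X : ℝ) ^ (δ₀ / 2) := by gcongr
          _ = _ := by rw [← Real.rpow_add hX0]; ring_nf
      have y4 := iter (q := q) (a := a) (X := X) (Y₀ := X / 2 ^ J) (e := ε / 4) hq.pos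
        (by positivity) (fun Y Z b1 b2 b3 => by
          have b4 : ((X / 2 ^ J : ℕ) : ℝ) ≤ Y := by exact_mod_cast b1
          have b5 : (1 : ℝ) ≤ Y := by exact_mod_cast (show 1 ≤ Y by omega)
          refine step (δ := δ) hq ha b3 (le_trans ?_ hs) (y3.trans ?_) (hX₁ Y (by omega))
          · gcongr
          · refine le_trans ?_ (Real.rpow_le_rpow_of_exponent_le b5
              (show 1 / 2 + δ₀ ≤ 1 / 2 + δ by linarith))
            gcongr
            exact y2.trans b4) J X (Nat.div_mul_le_self _ _) le_rfl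
      have y5 : (J : ℝ) ≤ X := by exact_mod_cast (show J ≤ X by omega)
      have y6 : ((X : ℝ) - 1) / 2 ^ J ≤ ε / 8 * X := by
        rw [div_lt_iff₀ hε] at hJ
        rw [div_le_iff₀ (by positivity)]
        nlinarith
      have y7 : 8 * (q : ℝ) ≤ ε * X := by
        rw [div_le_iff₀ hε] at x3
        calc 8 * (q : ℝ) ≤ (X : ℝ) ^ (2 / 5 : ℝ) * ε * (X : ℝ) ^ (3 / 5 : ℝ) := by
              gcongr
              exact hq1.trans (Real.rpow_le_rpow_of_exponent_le hX (by linarith))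
          _ = ε * X := by rw [mul_right_comm, ← Real.rpow_add hX0]; norm_num [mul_comm]
      have y8 : (1 : ℝ) ≤ q := by exact_mod_cast hq.pos
      refine y4.trans ?_
      rw [div_add_one hq0.ne']
      gcongr
      nlinarith
  obtain ⟨X₀, hX₀⟩ := eventually_atTop.1 key
  refine ⟨X₀, fun X q a b1 b2 b3 b4 => le_trans (le_of_eq ?_) (hX₀ X b1 q a b2 b3 b4)⟩
  rw [← Set.ncard_coe_finset]
  congr 2
  ext n
  simp [Ex, Rep]

end Pool.Agent.Lib.APQ
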