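import Pool.Agent.Lib.APQ.Kit
import Pool.Agent.Lib.PS.MLS

/-!
The block majorant of a short exponential sum, by the additive large sieve.
-/

namespace Pool.Agent.Lib.APQ

open Finset Real Complex Filter Pool.Agent.Lib.PS
open scoped NumberTheorySymbols ArithmeticFunction.Moebius Classical ComplexConjugate

namespace BLK

theorem bh_cont (β : ℕ → ℝ) (K : ℕ) : Continuous fun x : ℝ => ‖bh β K x‖ ^ 2 := by
  unfold bh ee
  fun_prop

theorem bh_fract (β : ℕ → ℝ) (K : ℕ) (x : ℝ) : bh β K (Int.fract x) = bh β K x := by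
  unfold bh
  refine sum_congr rfl fun k _ => ?_
  congr 1
  have : (k : ℝ) * x = k * Int.fract x + ((k * ⌊x⌋ : ℤ) : ℝ) := by
    push_cast
    rw [Int.fract]; ring
  rw [this, ee_add_int]

theorem bh_shift (β : ℕ → ℝ) (K : ℕ) (x : ℝ) :
    ‖bh β K x‖ = ‖∑ k ∈ Ioc 0 (0 + K), ((β (k - 1) : ℝ) : ℂ) * ee (k * x)‖ := by
  have h : ∑ k ∈ Ioc 0 (0 + K), ((β (k - 1) : ℝ) : ℂ) * ee (k * x) = ee x * bh β K x := by
    unfold bh
    rw [zero_add, mul_sum, ← Ico_add_one_add_one_eq_Ioc, range_eq_Ico,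
      ← sum_Ico_add' (fun k => ((β (k - 1) : ℝ) : ℂ) * ee (k * x)) 0 K 1]
    refine sum_congr rfl fun k _ => ?_
    have : ((k + 1 : ℕ) : ℝ) * x = x + k * x := by push_cast; ring
    rw [this, maj_ee_add, Nat.add_sub_cancel]; ring
  rw [h, norm_mul, maj_ee_norm, one_mul]

theorem cls (β : ℕ → ℝ) (K K' : ℕ) (hβ : ∀ k, |β k| ≤ 1) (hK : 1 ≤ K') (θ : ℕ → ℝ)
    (hθ : ∀ j : ℕ, (j : ℝ) / K' ≤ θ j ∧ θ j ≤ ((j : ℝ) + 1) / K') (Θ : Finset ℕ)
    (hΘ : ∀ i ∈ Θ, ∀ j ∈ Θ, i < j → i + 2 ≤ j ∧ j + 2 ≤ K') :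
    ∑ j ∈ Θ, ‖bh β K (θ j)‖ ^ 2 ≤ (K + K' * (1 + Real.log K')) * K := by
  have hK0 : (0 : ℝ) < K' := by exact_mod_cast hK
  have hK1 : (1 : ℝ) ≤ K' := by exact_mod_cast hK
  have key : ∀ i ∈ Θ, ∀ j ∈ Θ, i < j → ∀ n : ℤ, 1 / (K' : ℝ) ≤ |θ j - θ i - n| := by
    intro i hi j hj hij n
    obtain ⟨h1, h2⟩ := hΘ i hi j hj hij
    have h1' : (i : ℝ) + 2 ≤ j := by exact_mod_cast h1
    have h2' : (j : ℝ) + 2 ≤ K' := by exact_mod_cast h2
    have hi0 : (0 : ℝ) ≤ i := Nat.cast_nonneg i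
    obtain ⟨a1, a2⟩ := hθ i
    obtain ⟨b1, b2⟩ := hθ j
    rw [div_le_iff₀ hK0] at a1 b1
    rw [le_div_iff₀ hK0] at a2 b2
    rw [div_le_iff₀ hK0]
    rcases le_or_gt n 0 with hn | hn
    · have hn' : (n : ℝ) ≤ 0 := by exact_mod_cast hn
      have := le_abs_self (θ j - θ i - n)
      nlinarith
    · have hn' : (1 : ℝ) ≤ n := by exact_mod_cast hn
      have := neg_abs_le (θ j - θ i - n)
      nlinarith
  have h := mls_additive Θ θ (δ := 1 / (K' : ℝ)) (by positivity)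
    (by rw [div_le_one hK0]; exact hK1) (by
      intro x hx y hy hxy n
      rcases lt_or_gt_of_ne hxy with hl | hl
      · have := key x hx y hy hl (-n)
        rw [← abs_neg] at this
        convert this using 2
        push_cast; ring
      · exact key y hy x hx hl n) (fun k => ((β (k - 1) : ℝ) : ℂ)) 0 K
  simp only [one_div_one_div] at h
  simp only [bh_shift]
  refine h.trans ?_
  have hl : 0 ≤ Real.log K' := Real.log_nonneg hK1
  refine mul_le_mul_of_nonneg_left ?_ (by positivity)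
  calc ∑ k ∈ Ioc 0 (0 + K), ‖((β (k - 1) : ℝ) : ℂ)‖ ^ 2 ≤ ∑ k ∈ Ioc 0 (0 + K), (1 : ℝ) := by
        refine sum_le_sum fun k _ => ?_
        rw [Complex.norm_real, Real.norm_eq_abs]
        exact pow_le_one₀ (abs_nonneg _) (hβ _)
    _ = K := by simp

end BLK

theorem blk_BLK : St_BLK := by
  intro β K K' hβ hK
  have hK0 : (0 : ℝ) < K' := by exact_mod_cast hK
  have hex : ∀ j : ℕ, ∃ t ∈ Set.Icc ((j : ℝ) / K') (((j : ℝ) + 1) / K'),
      IsMaxOn (fun x : ℝ => ‖bh β K x‖ ^ 2) (Set.Icc ((j : ℝ) / K') (((j : ℝ) + 1) / K')) t :=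
    fun j => isCompact_Icc.exists_isMaxOn
      (Set.nonempty_Icc.2 (by gcongr; linarith)) (BLK.bh_cont β K).continuousOn
  choose θ hθ hm using hex
  refine ⟨fun j => ‖bh β K (θ j)‖ ^ 2, fun j => by positivity, fun x => ?_, ?_⟩
  · rw [← BLK.bh_fract β K x]
    refine hm (blk K' x) ⟨?_, ?_⟩
    · rw [div_le_iff₀ hK0, mul_comm]
      exact Nat.floor_le (mul_nonneg hK0.le (Int.fract_nonneg x))
    · rw [le_div_iff₀ hK0, mul_comm]
      exact (Nat.lt_floor_add_one _).le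
  · obtain ⟨M, rfl⟩ : ∃ M, K' = M + 1 := ⟨K' - 1, by omega⟩
    have c := BLK.cls β K (M + 1) hβ hK θ (fun j => hθ j)
    have c0 := c ((range M).filter fun j => j % 2 = 0) (by
      intro i hi j hj hij
      simp only [mem_filter, mem_range] at hi hj
      omega)
    have c1 := c ((range M).filter fun j => ¬ j % 2 = 0) (by
      intro i hi j hj hij
      simp only [mem_filter, mem_range] at hi hj
      omega)
    have c2 := c {M} (by
      intro i hi j hj hij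
      simp only [mem_singleton] at hi hj
      omega)
    rw [sum_singleton] at c2
    rw [sum_range_succ, ← sum_filter_add_sum_filter_not (range M) (fun j => j % 2 = 0)]
    unfold bS
    linarith

end Pool.Agent.Lib.APQ
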