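import Pool.Agent.Lib.APQ.Kit

/-!
Block DIAG: the diagonal terms of the bilinear sum.
-/

namespace Pool.Agent.Lib.APQ

open Finset Real Complex Filter Pool.Agent.Lib.PS
open scoped NumberTheorySymbols ArithmeticFunction.Moebius Classical ComplexConjugate

namespace DIAG

theorem cls {ι : Type} (f : ℤ → ℝ) (hf : ∀ y, 0 ≤ f y) (Y : Finset ℤ) (h0 : ∀ y ∉ Y, f y = 0)
    (T : Finset ι) (g : ι → ℤ) (hg : Set.InjOn g T) (p : ℤ → Prop) (hp : ∀ t ∈ T, p (g t)) :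
    ∑ t ∈ T, f (g t) ≤ ∑ y ∈ Y, if p y then f y else 0 := by
  have h1 : ∑ t ∈ T, f (g t) = ∑ y ∈ T.image g, if p y then f y else 0 := by
    rw [sum_image hg]
    exact sum_congr rfl fun t ht => (if_pos (hp t ht)).symm
  have h2 : ∑ y ∈ T.image g ∩ Y, (if p y then f y else 0) =
      ∑ y ∈ T.image g, if p y then f y else 0 := by
    refine sum_subset inter_subset_left fun y h1 h2 => ?_
    rw [h0 y fun h3 => h2 (mem_inter.2 ⟨h1, h3⟩), ite_self]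
  rw [h1, ← h2]
  refine sum_le_sum_of_subset_of_nonneg inter_subset_right fun y _ _ => ?_
  split_ifs
  · exact hf y
  · exact le_rfl

theorem sq_cls (hGT : St_GT) {ι : Type} {X p : ℕ} (hX : 1 ≤ X) (hp : p.Prime) (n : ℤ)
    (T : Finset ι) (g : ι → ℤ) (hg : Set.InjOn g T) (h : ∀ t ∈ T, (p : ℤ) ∣ n - g t) :
    ∑ t ∈ T, sq X (g t) ≤ 4 * √(X : ℝ) / p + 4 := by
  obtain ⟨-, -, -, -, g5, -, -, -, g9, g10⟩ := hGT
  refine (cls (sq X) (fun y => (g9 X 1 y).1) (YS X) (fun y hy => ((g9 X 1 y).2.2.2 hy).1) T g hg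
    (fun y => (p : ℤ) ∣ n - y) h).trans ?_
  have h1 := g5 X fun y => if (p : ℤ) ∣ n - y then 1 else 0
  simp only [mul_ite, mul_one, mul_zero] at h1
  have h2 := g10 X p n hX hp
  rw [← h1] at h2
  refine le_trans (le_of_eq (sum_congr rfl fun y _ => ?_)) h2
  split_ifs <;> rfl

theorem s0_cls (hGT : St_GT) (hIB : St_IB) (hABEL : St_ABEL) {ι : Type} {X P d : ℕ} (hP : 1 ≤ P)
    (hPX : (P : ℝ) ≤ √(X : ℝ)) (hd : 1 ≤ d) (n : ℤ)
    (T : Finset ι) (g : ι → ℤ) (hg : Set.InjOn g T) (h : ∀ t ∈ T, (d : ℤ) ∣ g t - n) :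
    ∑ t ∈ T, s0 X P (g t) ≤ 2 * √(X : ℝ) / d + 2 * (2 * P / √(X : ℝ)) := by
  obtain ⟨-, -, -, -, -, -, -, -, g9, -⟩ := hGT
  obtain ⟨i1, i2, -⟩ := hIB.1 X P hP hPX
  refine (cls (s0 X P) (fun y => (g9 X P y).2.2.1) (YS X) (fun y hy => ((g9 X P y).2.2.2 hy).2.1)
    T g hg (fun y => (d : ℤ) ∣ y - n) h).trans ?_
  have h1 := (abs_le.1 (hABEL.2.2.2.1 (s0 X P) _ 0 (((M3 X : ℤ) + 1) ^ 2) n d i1 hd)).2
  have h2 : (∑ t ∈ Ico 0 (((M3 X : ℤ) + 1) ^ 2), s0 X P t) / d ≤ 2 * √(X : ℝ) / d :=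
    div_le_div_of_nonneg_right (i2 _) (Nat.cast_nonneg _)
  have h3 : (∑ y ∈ YS X, if (d : ℤ) ∣ y - n then s0 X P y else 0) ≤
      2 * √(X : ℝ) / d + 2 * (2 * P / √(X : ℝ)) := by
    unfold YS; linarith
  refine le_trans (le_of_eq (sum_congr rfl fun y _ => ?_)) h3
  split_ifs <;> rfl

theorem sq_le {U : Finset ℤ} {f : ℤ → ℝ} {m s : ℝ} (h0 : ∀ u, 0 ≤ f u) (h1 : ∀ u, f u ≤ m)
    (h2 : ∑ u ∈ U, f u ≤ s) : ∑ u ∈ U, f u ^ 2 ≤ m * s := by
  calc ∑ u ∈ U, f u ^ 2 ≤ ∑ u ∈ U, m * f u :=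
        sum_le_sum fun u _ => by rw [pow_two]; exact mul_le_mul_of_nonneg_right (h1 u) (h0 u)
    _ = m * ∑ u ∈ U, f u := (mul_sum _ _ _).symm
    _ ≤ m * s := mul_le_mul_of_nonneg_left h2 ((h0 0).trans (h1 0))

theorem main (hGT : St_GT) (hIB : St_IB) (hAF : St_AF) (hABEL : St_ABEL) {X P q a K v : ℕ}
    {β : ℕ → ℝ} (U : Finset ℤ) (hX : 1 ≤ X) (hP : 1 ≤ P) (hPX : (P : ℝ) ≤ √(X : ℝ))
    (hq : q.Prime) (hv : v.Prime) (hβ : ∀ k, |β k| ≤ 1) :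
    DD X P q a K β {v} U ≤ 2 * ((4 * √(X : ℝ) / q + 4) * (K * (4 * √(X : ℝ) / v + 4))) +
      2 * (P : ℝ) ^ 4 * (K * (2 * P / √(X : ℝ)) *
        (K * (2 * √(X : ℝ) / v + 2 * (2 * P / √(X : ℝ))))) := by
  have g9 := hGT.2.2.2.2.2.2.2.2.1
  have i1 := (hIB.1 X P hP hPX).1
  let y : ℤ → ℕ → ℤ := fun u k => (a : ℤ) + q * k - u * v
  let A : ℤ → ℝ := fun u => ∑ k ∈ range K, sq X (y u k)
  let B : ℤ → ℝ := fun u => ∑ k ∈ range K, s0 X P (y u k)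
  have A0 : ∀ u, 0 ≤ A u := fun u => sum_nonneg fun k _ => (g9 X P _).1
  have B0 : ∀ u, 0 ≤ B u := fun u => sum_nonneg fun k _ => (g9 X P _).2.2.1
  have hq0 : (q : ℤ) ≠ 0 := by exact_mod_cast hq.ne_zero
  have hv0 : (v : ℤ) ≠ 0 := by exact_mod_cast hv.ne_zero
  have iu : ∀ k, Set.InjOn (fun u => y u k) U := fun k u _ u' _ h => by
    refine mul_right_cancel₀ hv0 ?_
    simp only [y] at h
    linarith
  have A1 : ∀ u, A u ≤ 4 * √(X : ℝ) / q + 4 := fun u => by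
    refine sq_cls hGT hX hq (a - u * v) (range K) (y u) (fun k _ k' _ h => ?_) fun k _ => ?_
    · have : (q : ℤ) * k = q * k' := by simp only [y] at h; linarith
      exact_mod_cast mul_left_cancel₀ hq0 this
    · exact ⟨-k, by simp only [y]; ring⟩
  have A2 : ∑ u ∈ U, A u ≤ K * (4 * √(X : ℝ) / v + 4) := by
    rw [sum_comm]
    refine (sum_le_card_nsmul _ _ _ fun (k : ℕ) _ => sq_cls hGT hX hv (a + q * k) U (fun u => y u k)
      (iu k) fun u _ => ⟨u, by simp only [y]; ring⟩).trans ?_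
    rw [card_range, nsmul_eq_mul]
  have B1 : ∀ u, B u ≤ K * (2 * P / √(X : ℝ)) := fun u => by
    refine (sum_le_card_nsmul _ _ _ fun k _ => (i1.1 _).2).trans ?_
    rw [card_range, nsmul_eq_mul]
  have B2 : ∑ u ∈ U, B u ≤ K * (2 * √(X : ℝ) / v + 2 * (2 * P / √(X : ℝ))) := by
    rw [sum_comm]
    refine (sum_le_card_nsmul _ _ _ fun (k : ℕ) _ => s0_cls hGT hIB hABEL hP hPX hv.pos (a + q * k) U
      (fun u => y u k) (iu k) fun u _ => ⟨-u, by simp only [y]; ring⟩).trans ?_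
    rw [card_range, nsmul_eq_mul]
  have key : ∀ u, (∑ k ∈ range K, β k * sg X P (y u k)) ^ 2 ≤
      2 * A u ^ 2 + 2 * (P : ℝ) ^ 4 * B u ^ 2 := fun u => by
    have h1 : |∑ k ∈ range K, β k * sg X P (y u k)| ≤ A u + (P : ℝ) ^ 2 * B u := by
      refine (abs_sum_le_sum_abs _ _).trans ?_
      simp only [A, B]
      rw [mul_sum, ← sum_add_distrib]
      refine sum_le_sum fun k _ => ?_
      have h2 : |sg X P (y u k)| ≤ sq X (y u k) + (P : ℝ) ^ 2 * s0 X P (y u k) := by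
        unfold sg md
        refine (abs_sub _ _).trans ?_
        rw [abs_of_nonneg (g9 X P _).1, abs_mul, abs_of_nonneg (g9 X P _).2.2.1, mul_comm]
        exact add_le_add le_rfl
          (mul_le_mul_of_nonneg_right (hAF.2.2.1 P _) (g9 X P _).2.2.1)
      rw [abs_mul]
      exact (mul_le_of_le_one_left (abs_nonneg _) (hβ k)).trans h2
    have h2 := pow_le_pow_left₀ (abs_nonneg _) h1 2
    rw [sq_abs] at h2
    nlinarith [sq_nonneg (A u - (P : ℝ) ^ 2 * B u)]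
  have h1 := sq_le A0 A1 A2
  have h2 := mul_le_mul_of_nonneg_left (sq_le B0 B1 B2) (show 0 ≤ 2 * (P : ℝ) ^ 4 by positivity)
  have h3 : DD X P q a K β {v} U ≤ ∑ u ∈ U, (2 * A u ^ 2 + 2 * (P : ℝ) ^ 4 * B u ^ 2) := by
    unfold DD
    refine sum_le_sum fun u _ => ?_
    rw [sum_singleton]
    exact key u
  rw [sum_add_distrib, ← mul_sum, ← mul_sum] at h3
  linarith

theorem num {M q v K P E L : ℝ} (hE : 1 ≤ E) (hM : E ^ 10 ≤ M) (hq : 0 < q) (hqM : q ≤ M * E)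
    (hv : E ^ 10 / 2 < v) (hK0 : 0 ≤ K) (hK : K ≤ 2 * (M ^ 2 / q)) (hP : 1 ≤ P) (hL : 0 < L)
    (hPE : 512 * P ^ 6 * L ≤ E) :
    2 * ((4 * M / q + 4) * (K * (4 * M / v + 4))) +
      2 * P ^ 4 * (K * (2 * P / M) * (K * (2 * M / v + 2 * (2 * P / M)))) ≤
      (M ^ 2 / q) ^ 2 / L := by
  have hE0 : 0 < E := by linarith
  have hE10 : 1 ≤ E ^ 10 := one_le_pow₀ hE
  have hM1 : 1 ≤ M := hE10.trans hM
  have hM0 : 0 < M := by linarith
  have hv0 : 0 < v := lt_of_le_of_lt (by positivity) hv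
  have a1 : M / v ≤ 2 * (M / E ^ 10) := by
    rw [div_le_iff₀ hv0]
    have : 2 * (M / E ^ 10) * (E ^ 10 / 2) = M := by field_simp
    have h2 : 0 ≤ 2 * (M / E ^ 10) := by positivity
    nlinarith
  have a2 : 1 ≤ M / E ^ 10 := (one_le_div (by positivity)).2 hM
  have a3 : 4 * M / v + 4 ≤ 12 * (M / E ^ 10) := by rw [mul_div_assoc]; linarith
  have a4 : 4 * M / q + 4 ≤ 8 * (M / q * E) := by
    have h1 : 1 ≤ M / q * E := by rw [div_mul_eq_mul_div, one_le_div hq]; exact hqM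
    have h2 : M / q ≤ M / q * E := le_mul_of_one_le_right (by positivity) hE
    rw [mul_div_assoc]; linarith
  have a5 : 2 * M / v + 2 * (2 * P / M) ≤ 8 * P * (M / E ^ 10) := by
    have h1 : P / M ≤ P := div_le_self (by linarith) hM1
    rw [mul_div_assoc, mul_div_assoc]
    nlinarith
  set Q := M ^ 2 / q with hQ
  have hQ0 : 0 ≤ Q := by positivity
  have t1 : (4 * M / q + 4) * (K * (4 * M / v + 4)) ≤ 192 * Q ^ 2 / E ^ 9 := by
    calc (4 * M / q + 4) * (K * (4 * M / v + 4))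
        ≤ 8 * (M / q * E) * (2 * Q * (12 * (M / E ^ 10))) := by gcongr
      _ = 192 * Q ^ 2 / E ^ 9 := by rw [hQ]; field_simp; ring
  have t2 : K * (2 * P / M) * (K * (2 * M / v + 2 * (2 * P / M))) ≤
      64 * P ^ 2 * Q ^ 2 / E ^ 9 := by
    calc K * (2 * P / M) * (K * (2 * M / v + 2 * (2 * P / M)))
        ≤ 2 * Q * (2 * P / M) * (2 * Q * (8 * P * (M / E ^ 10))) := by gcongr
      _ = 64 * P ^ 2 * Q ^ 2 / E ^ 10 := by field_simp; ring
      _ ≤ 64 * P ^ 2 * Q ^ 2 / E ^ 9 := by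
        refine div_le_div_of_nonneg_left (by positivity) (by positivity) ?_
        exact pow_le_pow_right₀ hE (by norm_num)
  have hP6 : 1 ≤ P ^ 6 := one_le_pow₀ hP
  have t3 : 512 * P ^ 6 * Q ^ 2 / E ^ 9 ≤ Q ^ 2 / L := by
    rw [div_le_div_iff₀ (by positivity) hL]
    have h1 : E ≤ E ^ 9 := le_self_pow₀ hE (by norm_num)
    have h2 := mul_le_mul_of_nonneg_left (hPE.trans h1) (sq_nonneg Q)
    linarith
  have t4 := mul_le_mul_of_nonneg_left t2 (show 0 ≤ 2 * P ^ 4 by positivity)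
  have t5 : 0 ≤ Q ^ 2 / E ^ 9 := by positivity
  have t6 := mul_le_mul_of_nonneg_right hP6 t5
  have e1 : 192 * Q ^ 2 / E ^ 9 = 192 * (Q ^ 2 / E ^ 9) := by ring
  have e2 : 2 * P ^ 4 * (64 * P ^ 2 * Q ^ 2 / E ^ 9) = 128 * (P ^ 6 * (Q ^ 2 / E ^ 9)) := by ring
  have e3 : 512 * P ^ 6 * Q ^ 2 / E ^ 9 = 512 * (P ^ 6 * (Q ^ 2 / E ^ 9)) := by ring
  linarith

end DIAG

theorem blk_DIAG (hGT : St_GT) (hIB : St_IB) (hAF : St_AF) (hABEL : St_ABEL) : St_DIAG := by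
  intro d A B hd hd1
  filter_upwards [ev_lg_sqrt 1 B, ev_lg 1, eventually_ge_atTop 1,
    ev_pow 512 (6 * B + A) (show (0 : ℝ) < d / 10 by positivity)] with X h1 h2 hX h3
  intro P q a K v β U hP hPB hR hv hv1 _ hβ
  have hX0 : (0 : ℝ) < X := by exact_mod_cast hX
  have hX1 : (1 : ℝ) ≤ X := by exact_mod_cast hX
  rw [one_mul] at h1
  rw [Real.rpow_zero, mul_one] at h3
  have hM : √(X : ℝ) ^ 2 = X := Real.sq_sqrt hX0.le
  have hE : ((X : ℝ) ^ (d / 10)) ^ 10 = (X : ℝ) ^ d := by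
    rw [← Real.rpow_natCast, ← Real.rpow_mul hX0.le]; congr 1; push_cast; ring
  refine (DIAG.main hGT hIB hAF hABEL U hX hP (hPB.trans h1) hR.pr hv hβ).trans ?_
  have := DIAG.num (M := √(X : ℝ)) (q := q) (v := v) (K := K) (P := P) (E := (X : ℝ) ^ (d / 10))
    (L := lg X ^ A) (Real.one_le_rpow hX1 (by positivity)) ?_ hR.q_pos ?_ (by rwa [hE])
    (Nat.cast_nonneg _) ?_ (by exact_mod_cast hP) (by positivity) ?_
  · rwa [hM] at this
  · rw [hE, sqrt_eq]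
    exact Real.rpow_le_rpow_of_exponent_le hX1 (by linarith)
  · rw [sqrt_eq, ← Real.rpow_add hX0]
    exact hR.hi
  · rw [hM, ← mul_div_assoc]
    exact hR.K_le hX (by linarith)
  · refine le_trans ?_ h3
    rw [pow_add, mul_comm 6 B, pow_mul, ← mul_assoc]
    have h4 : (0 : ℝ) ≤ P := Nat.cast_nonneg _
    gcongr

end Pool.Agent.Lib.APQ
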