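import Pool.Agent.Lib.APQ.Kit

/-!
The dispersion bound summed over the primes of the top range.
-/

namespace Pool.Agent.Lib.APQ

open Finset Real Complex Filter Pool.Agent.Lib.PS
open scoped NumberTheorySymbols ArithmeticFunction.Moebius Classical ComplexConjugate

namespace DSP

theorem cauchy (K : ℕ) (f : ℕ → ℝ) {S U V : ℝ} (hU : 0 ≤ U) (hV : 0 ≤ V)
    (h : ∑ k ∈ range K, f k ^ 2 ≤ S) (h2 : K * S ≤ U ^ 2 + V ^ 2) :
    ∑ k ∈ range K, |f k| ≤ U + V := by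
  have h1 : (∑ k ∈ range K, |f k|) ^ 2 ≤ (range K).card * ∑ k ∈ range K, |f k| ^ 2 :=
    sq_sum_le_card_mul_sum_sq
  simp only [sq_abs, card_range] at h1
  have h3 : (K : ℝ) * ∑ k ∈ range K, f k ^ 2 ≤ K * S :=
    mul_le_mul_of_nonneg_left h (Nat.cast_nonneg K)
  refine (pow_le_pow_iff_left₀ (by positivity) (by positivity) two_ne_zero).1 ?_
  nlinarith [mul_nonneg hU hV]

/-- the first term -/
theorem t1 {C K T M l p A : ℝ} (hC : 0 < C) (hK0 : 0 ≤ K) (hK : K ≤ 2 * T) (hp : 0 < p)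
    (hM : 0 ≤ M) (hA0 : 0 ≤ A) (hA : A ≤ 2 * M * l ^ 8) (hl : 128 * C ≤ l) (hl1 : 1 ≤ l) :
    K * (C * (K / p * A)) ≤ (T * √M * l ^ 5 / 4 * (1 / √p)) ^ 2 := by
  have e : (T * √M * l ^ 5 / 4 * (1 / √p)) ^ 2 = T ^ 2 * M * l ^ 10 / 16 / p := by
    rw [mul_pow, div_pow, mul_pow, mul_pow, Real.sq_sqrt hM, div_pow, Real.sq_sqrt hp.le]
    ring
  have e2 : K * (C * (K / p * A)) = C * K ^ 2 * A / p := by ring
  rw [e, e2]
  refine div_le_div_of_nonneg_right ?_ hp.le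
  have h1 : K ^ 2 ≤ (2 * T) ^ 2 := pow_le_pow_left₀ hK0 hK 2
  have h2 : 128 * C ≤ l ^ 2 := by nlinarith
  calc C * K ^ 2 * A ≤ C * (2 * T) ^ 2 * (2 * M * l ^ 8) := by gcongr
    _ = T ^ 2 * M * l ^ 8 / 16 * (128 * C) := by ring
    _ ≤ T ^ 2 * M * l ^ 8 / 16 * l ^ 2 := by gcongr
    _ = T ^ 2 * M * l ^ 10 / 16 := by ring

/-- the second term -/
theorem t2 {C K T M l p Y B : ℝ} (hC : 0 < C) (hK0 : 0 ≤ K) (hK : K ≤ 2 * T) (hp : 0 < p)
    (hB0 : 0 ≤ B) (hB : B ≤ Y * l ^ 2 * (2 * l * M / p) ^ 2) (hl1 : 1 ≤ l)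
    (hT : 128 * C * l ^ 10 * Y ≤ T) :
    K * (C * B) ≤ (T * M / (4 * l ^ 3) * (1 / p)) ^ 2 := by
  have hT0 : 0 ≤ T := by linarith
  have hl : 0 < l := by linarith
  calc K * (C * B) ≤ 2 * T * (C * (Y * l ^ 2 * (2 * l * M / p) ^ 2)) := by gcongr
    _ = T * (M / (4 * l ^ 3) * (1 / p)) ^ 2 * (128 * C * l ^ 10 * Y) := by field_simp; ring
    _ ≤ T * (M / (4 * l ^ 3) * (1 / p)) ^ 2 * T := by gcongr
    _ = (T * M / (4 * l ^ 3) * (1 / p)) ^ 2 := by ring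

theorem sub_Icc {y z : ℝ} (q : ℕ) : (pr y z).erase q ⊆ Icc 1 ⌊z⌋₊ := by
  intro p hp
  have h := mem_of_mem_erase hp
  rw [pr, mem_filter, mem_Ioc] at h
  exact mem_Icc.2 ⟨h.2.one_le, h.1.2⟩

end DSP

open DSP in
theorem blk_DSP (hDSP2 : St_DSP2) : St_DSP := by
  obtain ⟨C, hC, h⟩ := hDSP2
  filter_upwards [ev_lg 4, ev_lg (128 * C), eventually_ge_atTop 2,
    ev_pow 2 1 (show (4 / 25 : ℝ) < 2 / 5 by norm_num),
    ev_pow (128 * C) 10 (show (49 / 100 : ℝ) < 1 / 2 - 1 / 1000 by norm_num)]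
    with X hl4 hlC hX2 e1 e2
  intro D q a K Λ hR hS hD
  have hX1 : 1 ≤ X := by omega
  have hX0 : (0 : ℝ) < X := by exact_mod_cast hX1
  have hX1' : (1 : ℝ) < X := by exact_mod_cast hX2
  set l := lg X with hl
  set M := √(X : ℝ) with hM
  set T := (X : ℝ) / q with hT
  have hM1 : 1 ≤ M := Real.one_le_sqrt.2 hX1'.le
  have hl1 : 1 ≤ l := by linarith
  have hl0 : 0 < l := by linarith
  have hK : (K : ℝ) ≤ 2 * T := by
    have := hR.K_le hX1 (by norm_num)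
    rwa [mul_div_assoc] at this
  have hTl : (X : ℝ) ^ (1 / 2 - 1 / 1000 : ℝ) ≤ T := hR.div_ge hX1
  have hT0 : 0 ≤ T := le_trans (by positivity) hTl
  have hD1 : (1 : ℝ) ≤ D := by exact_mod_cast hS.lo
  have hlD : 1 + Real.log D ≤ l := by
    have h1 : Real.log D ≤ Real.log ((X : ℝ) ^ (1 / 25 : ℝ)) := Real.log_le_log (by linarith) hD
    rw [Real.log_rpow hX0] at h1
    have h2 : Real.log X = l := rfl
    rw [h2] at h1
    linarith
  have hlD0 : 0 ≤ 1 + Real.log D := by linarith [Real.log_nonneg hD1]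
  have hlM : Real.log M = l / 2 := Real.log_sqrt hX0.le
  have hP : M / l ^ 14 ≤ M := div_le_self (by linarith) (one_le_pow₀ hl1)
  have hDk : ∀ k : ℕ, (D : ℝ) ^ k ≤ (X : ℝ) ^ ((k : ℝ) / 25) := fun k => by
    calc (D : ℝ) ^ k ≤ ((X : ℝ) ^ (1 / 25 : ℝ)) ^ k := pow_le_pow_left₀ (by linarith) hD k
      _ = (X : ℝ) ^ ((k : ℝ) / 25) := by
        rw [← Real.rpow_natCast, ← Real.rpow_mul hX0.le]; ring_nf
  have hM3 := (M3_bounds hl4).2
  have key : ∀ p ∈ (pr ((X : ℝ) ^ (2 / 5 : ℝ)) (M / l ^ 14)).erase q,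
      ∑ k ∈ range K, |RR X Λ D ((a : ℤ) + q * k) p| ≤
        T * √M * l ^ 5 / 4 * (1 / √(p : ℝ)) + T * M / (4 * l ^ 3) * (1 / (p : ℝ)) := by
    intro p hp
    have hne := ne_of_mem_erase hp
    obtain ⟨hpp, hp1, hp2⟩ := (mem_pr (by positivity)).1 (mem_of_mem_erase hp)
    have hp0 : (0 : ℝ) < p := by exact_mod_cast hpp.pos
    have hpM : (p : ℝ) ≤ M := hp2.trans hP
    have hDp : D < p := by
      have h1 : (X : ℝ) ^ (1 / 25 : ℝ) ≤ (X : ℝ) ^ (2 / 5 : ℝ) :=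
        Real.rpow_le_rpow_of_exponent_le hX1'.le (by norm_num)
      exact_mod_cast (hD.trans h1).trans_lt hp1
    have hpq : ¬ p ∣ q := fun hd => hne ((Nat.prime_dvd_prime_iff_eq hpp hR.pr).1 hd)
    have hm : 1 + (M3 X : ℝ) / p ≤ 2 * l * M / p := by
      rw [le_div_iff₀ hp0, add_mul, div_mul_cancel₀ _ hp0.ne']
      nlinarith
    have hm0 : 0 ≤ 1 + (M3 X : ℝ) / p := by positivity
    have hlp : 1 + Real.log p ≤ l := by
      have := Real.log_le_log hp0 hpM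
      linarith
    have hlp0 : 0 ≤ 1 + Real.log p := by linarith [Real.log_natCast_nonneg p]
    have hA : M * (1 + Real.log D) ^ 8 + (D : ℝ) ^ 4 * (1 + (M3 X : ℝ) / p) ≤ 2 * M * l ^ 8 := by
      have h1 : M * (1 + Real.log D) ^ 8 ≤ M * l ^ 8 := by gcongr
      have h2 : (D : ℝ) ^ 4 * (2 * l) ≤ p := by
        have h3 := hDk 4
        have h4 : (D : ℝ) ^ 4 * (2 * l) ≤ (X : ℝ) ^ ((4 : ℝ) / 25) * (2 * l) := by
          push_cast at h3
          gcongr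
        rw [pow_one] at e1
        linarith
      have h5 : (D : ℝ) ^ 4 * (1 + (M3 X : ℝ) / p) ≤ M := by
        calc (D : ℝ) ^ 4 * (1 + (M3 X : ℝ) / p) ≤ (D : ℝ) ^ 4 * (2 * l * M / p) := by gcongr
          _ = (D : ℝ) ^ 4 * (2 * l) * (M / p) := by ring
          _ ≤ p * (M / p) := by gcongr
          _ = M := by field_simp
      have h6 : M ≤ M * l ^ 8 := le_mul_of_one_le_right (by linarith) (one_le_pow₀ hl1)
      linarith
    have hB : (D : ℝ) ^ 6 * √(p : ℝ) * (1 + Real.log p) ^ 2 * (1 + (M3 X : ℝ) / p) ^ 2 ≤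
        (X : ℝ) ^ (49 / 100 : ℝ) * l ^ 2 * (2 * l * M / p) ^ 2 := by
      have h1 : √(p : ℝ) ≤ (X : ℝ) ^ (1 / 4 : ℝ) := by
        refine (Real.sqrt_le_sqrt hpM).trans (le_of_eq ?_)
        rw [hM, sqrt_eq, Real.sqrt_eq_rpow, ← Real.rpow_mul hX0.le]
        norm_num
      have h2 : (D : ℝ) ^ 6 * √(p : ℝ) ≤ (X : ℝ) ^ (49 / 100 : ℝ) := by
        have h3 := hDk 6
        push_cast at h3
        calc (D : ℝ) ^ 6 * √(p : ℝ) ≤ (X : ℝ) ^ ((6 : ℝ) / 25) * (X : ℝ) ^ (1 / 4 : ℝ) := by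
              gcongr
          _ = (X : ℝ) ^ (49 / 100 : ℝ) := by rw [← Real.rpow_add hX0]; norm_num
      gcongr
    refine cauchy K _ (by positivity) (by positivity) (h X D p q a K Λ hX1 hS hpp hDp hpq) ?_
    rw [mul_add C, mul_add]
    exact add_le_add
      (t1 hC (Nat.cast_nonneg K) hK hp0 (by linarith) (by positivity) hA hlC hl1)
      (t2 hC (Nat.cast_nonneg K) hK hp0 (by positivity) hB hl1 (e2.trans hTl))
  rw [sum_comm]
  refine (sum_le_sum key).trans ?_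
  rw [sum_add_distrib, ← mul_sum, ← mul_sum]
  have hP0 : 0 ≤ M / l ^ 14 := by positivity
  have hfl : (⌊M / l ^ 14⌋₊ : ℝ) ≤ M / l ^ 14 := Nat.floor_le hP0
  have s1 : ∑ p ∈ (pr ((X : ℝ) ^ (2 / 5 : ℝ)) (M / l ^ 14)).erase q, 1 / √(p : ℝ) ≤
      2 * (√M / l ^ 7) := by
    refine (sum_le_sum_of_subset_of_nonneg (sub_Icc q) fun _ _ _ => by positivity).trans
      ((sum_inv_sqrt _).trans ?_)
    have h1 : √(M / l ^ 14) = √M / l ^ 7 := by
      rw [Real.sqrt_div (by linarith), show l ^ 14 = (l ^ 7) ^ 2 by ring,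
        Real.sqrt_sq (by positivity)]
    have := Real.sqrt_le_sqrt hfl
    linarith
  have s2 : ∑ p ∈ (pr ((X : ℝ) ^ (2 / 5 : ℝ)) (M / l ^ 14)).erase q, 1 / (p : ℝ) ≤ 2 * l := by
    refine (sum_le_sum_of_subset_of_nonneg (sub_Icc q) fun _ _ _ => by positivity).trans ?_
    simp only [one_div]
    refine (RankZero.dp_harm1 _).trans ?_
    rcases Nat.eq_zero_or_pos ⌊M / l ^ 14⌋₊ with h0 | h0
    · rw [h0]; simp; linarith
    · have := Real.log_le_log (by exact_mod_cast h0) (hfl.trans hP)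
      linarith
  have hMM : √M * √M = M := Real.mul_self_sqrt (by linarith)
  calc _ ≤ T * √M * l ^ 5 / 4 * (2 * (√M / l ^ 7)) + T * M / (4 * l ^ 3) * (2 * l) := by gcongr
    _ = T * (√M * √M) / (2 * l ^ 2) + T * M / (2 * l ^ 2) := by field_simp; ring
    _ = T * M / l ^ 2 := by rw [hMM]; field_simp; ring

end Pool.Agent.Lib.APQ
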