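import Pool.Agent.Lib.APQ.Kit

/-! Block DSP1: the main term of the dispersion. -/

namespace Pool.Agent.Lib.APQ

open Finset Real Pool.Agent.Lib.PS

namespace DSP1

theorem perm {G : ℤ → ℝ} {d : ℕ} (hd : 1 ≤ d) (hG : ∀ s t, (d : ℤ) ∣ s - t → G s = G t)
    (m : ℤ) {c : ℤ} (hc : IsCoprime (d : ℤ) c) :
    ∑ j ∈ range d, G (m + j * c) = ∑ j ∈ range d, G j := by
  have hd' : (0 : ℤ) < d := by exact_mod_cast hd
  have e : ∀ j : ℕ, (((m + j * c) % d).toNat : ℤ) = (m + j * c) % d := fun j =>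
    Int.toNat_of_nonneg (Int.emod_nonneg _ hd'.ne')
  have hi : Set.InjOn (fun j : ℕ => ((m + j * c) % d).toNat) (range d : Finset ℕ) := by
    intro i hi j hj h
    have h1 : (m + i * c) % d = (m + j * c) % d := by rw [← e i, ← e j]; exact congrArg _ h
    have h2 : (d : ℤ) ∣ (j : ℤ) - i := hc.dvd_of_dvd_mul_right (by
      have := Int.ModEq.dvd h1
      rwa [show m + j * c - (m + i * c) = ((j : ℤ) - i) * c by ring] at this)
    have h3 := mem_range.1 (mem_coe.1 hi)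
    have h4 := mem_range.1 (mem_coe.1 hj)
    have := Int.eq_zero_of_abs_lt_dvd h2 (abs_lt.2 ⟨by omega, by omega⟩)
    omega
  have hs : (range d).image (fun j : ℕ => ((m + j * c) % d).toNat) = range d :=
    eq_of_subset_of_card_le (image_subset_iff.2 fun j _ => mem_range.2 (by
      have := Int.emod_lt_of_pos (m + j * c) hd'
      have := e j
      omega)) (card_image_of_injOn hi).ge
  conv_rhs => rw [← hs, sum_image hi]
  refine sum_congr rfl fun j _ => hG _ _ ?_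
  rw [e]
  exact Int.dvd_self_sub_emod

theorem mult {G : ℤ → ℝ} {d : ℕ} (hG : ∀ s t, (d : ℤ) ∣ s - t → G s = G t) (k : ℕ) :
    ∑ j ∈ range (d * k), G j = k * ∑ j ∈ range d, G j := by
  induction k with
  | zero => simp
  | succ k ih =>
    rw [Nat.mul_succ, sum_range_add, ih, Nat.cast_succ, add_mul, one_mul]
    congr 1
    exact sum_congr rfl fun j _ => hG _ _ ⟨k, by push_cast; ring⟩

theorem reidx {N p : ℕ} (hp : 1 ≤ p) {m : ℤ} (hm : m ∈ box N) (F : ℤ → ℝ) :
    (∑ m' ∈ box N, if (p : ℤ) ∣ m' - m then F m' else 0) =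
      ∑ j ∈ box (2 * N / p), if m + p * j ∈ box N then F (m + p * j) else 0 := by
  have hp' : (0 : ℤ) < p := by exact_mod_cast hp
  rw [← sum_filter, ← sum_filter]
  symm
  refine sum_bij (fun j _ => m + p * j) (fun j hj => ?_) (fun i _ j _ h => ?_)
    (fun m' hm' => ?_) fun _ _ => rfl
  · exact mem_filter.2 ⟨(mem_filter.1 hj).2, j, by ring⟩
  · exact mul_left_cancel₀ hp'.ne' (add_left_cancel h)
  · obtain ⟨h1, j, hj⟩ := mem_filter.1 hm'
    have e : m + p * j = m' := by linarith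
    refine ⟨j, mem_filter.2 ⟨mem_box.2 ?_, e ▸ h1⟩, e⟩
    rw [Int.natCast_div, Int.le_ediv_iff_mul_le hp', mul_comm, ← abs_of_pos hp', ← abs_mul, ← hj]
    have a1 := abs_le.1 (mem_box.1 hm)
    have a2 := abs_le.1 (mem_box.1 h1)
    push_cast
    exact abs_le.2 ⟨by linarith, by linarith⟩

theorem core (hABEL : St_ABEL) {N p e e' : ℕ} {φ u u' : ℤ → ℝ} {W g g' : ℝ} (hφ : Uni φ 1)
    (hW : ∑ m ∈ box N, φ m ≤ W) (he : 1 ≤ e) (he' : 1 ≤ e') (hp : 1 ≤ p)
    (hc : IsCoprime (e' : ℤ) p) (pu : ∀ s t, (e : ℤ) ∣ s - t → u s = u t)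
    (pu' : ∀ s t, (e' : ℤ) ∣ s - t → u' s = u' t) (bu : ∀ t, |u t| ≤ 1) (bu' : ∀ t, |u' t| ≤ 1)
    (hg : 0 ≤ g) (hg' : 0 ≤ g') (lu : ∑ t ∈ range e, |u t| ≤ 2 * e * g)
    (lu' : ∑ t ∈ range e', |u' t| ≤ 2 * e' * g') (zu' : ∑ t ∈ range e', u' t = 0) :
    |∑ m ∈ box N, ∑ m' ∈ box N, if (p : ℤ) ∣ m' - m then φ m * φ m' * (u m * u' m') else 0| ≤
      8 * (e * e') * (4 * N / p + 1) + 16 * (Nat.gcd e e' * g * g') * W := by
  obtain ⟨-, A2, -, -, A5, A6, A7⟩ := hABEL
  have hf : 1 ≤ e * e' := Nat.mul_pos he he'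
  have f0 : (0 : ℝ) < (e * e' : ℕ) := by exact_mod_cast hf
  have e0 : (0 : ℝ) < e' := by exact_mod_cast he'
  have hγ : 1 ≤ Nat.gcd e e' := Nat.gcd_pos_of_pos_left _ he
  set c : ℤ → ℝ := fun j => (∑ m ∈ range (e * e'), u m * u' (m + p * j)) / (e * e' : ℕ) with hcd
  have pF : ∀ j s t : ℤ, ((e * e' : ℕ) : ℤ) ∣ s - t →
      u s * u' (s + p * j) = u t * u' (t + p * j) := fun j s t h => by
    rw [Nat.cast_mul] at h
    rw [pu s t ((dvd_mul_right _ _).trans h), pu' _ (t + p * j) (by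
      rw [add_sub_add_right_eq_sub]; exact (dvd_mul_left _ _).trans h)]
  have pc : ∀ s t : ℤ, (Nat.gcd e e' : ℤ) ∣ s - t → c s = c t := by
    rintro s t ⟨k, hk⟩
    rw [Nat.gcd_eq_gcd_ab] at hk
    simp only [hcd]
    rw [← perm hf (pF t) (p * e * Nat.gcdA e e' * k) isCoprime_one_right]
    congr 1
    refine sum_congr rfl fun m _ => ?_
    rw [pu m (p * e * Nat.gcdA e e' * k + m * 1) ⟨-(p * Nat.gcdA e e' * k), by ring⟩,
      pu' (m + p * s) (p * e * Nat.gcdA e e' * k + m * 1 + p * t)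
        ⟨p * Nat.gcdB e e' * k, by linear_combination (p : ℤ) * hk⟩]
  obtain ⟨k, hk⟩ := Nat.gcd_dvd_right e e'
  have k0 : (0 : ℝ) < k := by
    exact_mod_cast Nat.pos_of_ne_zero fun h => by rw [h] at hk; omega
  have zc : ∑ j ∈ range (Nat.gcd e e'), c j = 0 := by
    refine (mul_eq_zero.1 ?_).resolve_left k0.ne'
    rw [← mult pc, ← hk]
    simp only [hcd]
    rw [← sum_div, sum_comm, sum_eq_zero fun m _ => ?_, zero_div]
    simp only [mul_comm (p : ℤ)]
    rw [← mul_sum, perm he' pu' m hc, zu', mul_zero]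
  have lc : ∑ j ∈ range (Nat.gcd e e'), |c j| ≤ 4 * (Nat.gcd e e' * g * g') := by
    refine le_of_mul_le_mul_left ?_ k0
    rw [← mult (G := fun j => |c j|) fun s t h => by rw [pc s t h], ← hk]
    calc _ ≤ ∑ j ∈ range e', (∑ m ∈ range (e * e'), |u m| * |u' (m + (j : ℕ) * p)|) /
          (e * e' : ℕ) := sum_le_sum fun j _ => by
          simp only [hcd]
          rw [abs_div, abs_of_pos f0]
          gcongr
          exact (abs_sum_le_sum_abs _ _).trans (le_of_eq (by simp only [abs_mul, mul_comm]))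
      _ = (∑ m ∈ range (e * e'), |u m|) * (∑ t ∈ range e', |u' t|) / (e * e' : ℕ) := by
          rw [← sum_div, sum_comm, sum_mul]
          congr 1
          refine sum_congr rfl fun m _ => ?_
          rw [← mul_sum, perm (G := fun t => |u' t|) he' (fun s t h => by rw [pu' s t h]) m hc]
      _ ≤ e' * (2 * e * g) * (2 * e' * g') / (e * e' : ℕ) := by
          rw [mult (G := fun t => |u t|) fun s t h => by rw [pu s t h]]
          gcongr
      _ = _ := by
          have h1 : (e' : ℝ) = Nat.gcd e e' * k := by exact_mod_cast hk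
          rw [div_eq_iff f0.ne', Nat.cast_mul]
          linear_combination (4 * e * e' * g * g') * h1
  set ψ : ℤ → ℝ := fun t => if t ∈ Ico (-(N : ℤ)) (N + 1) then φ t else 0 with hψ
  have uψ : Uni ψ 1 := A7 φ 1 _ _ hφ
  have split : (∑ m ∈ box N, ∑ m' ∈ box N,
      if (p : ℤ) ∣ m' - m then φ m * φ m' * (u m * u' m') else 0) =
      ∑ j ∈ box (2 * N / p), ∑ m ∈ box N, φ m * (ψ (p * j + 1 * m) * (u m * u' (m + p * j) - c j)) +
        ∑ m ∈ box N, φ m * ∑ j ∈ box (2 * N / p), ψ (m + p * j) * (c j - 0) := by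
    rw [sum_comm (s := box (2 * N / p)), ← sum_add_distrib]
    refine sum_congr rfl fun m hm => ?_
    rw [reidx hp hm fun m' => φ m * φ m' * (u m * u' m'), mul_sum, ← sum_add_distrib]
    refine sum_congr rfl fun j _ => ?_
    rw [one_mul, add_comm (p * j) m, box_eq N]
    simp only [hψ]
    split_ifs <;> ring
  rw [split]
  refine (abs_add_le _ _).trans (add_le_add ?_ ?_)
  · refine (abs_sum_le_sum_abs _ _).trans ((sum_le_card_nsmul _ _ (8 * (e * e') : ℝ)
      fun j _ => ?_).trans ?_)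
    · rw [box_eq N]
      refine (A2 φ 1 (2 * 1 * (2 * (e * e' : ℕ))) _ _ _ hφ (by omega) fun s v _ hs _ =>
        A2 _ 1 _ s v _ (A6 ψ 1 (p * j) 1 uψ) hs fun s' v' _ _ _ =>
          (A5 (fun m => u m * u' (m + p * j)) (e * e') s' v' hf fun t =>
            pF j _ _ (by simp)).trans ?_).trans (le_of_eq (by push_cast; ring))
      gcongr
      refine (sum_le_card_nsmul _ _ 1 fun m _ => ?_).trans (by simp)
      rw [abs_mul]
      exact mul_le_one₀ (bu _) (abs_nonneg _) (bu' _)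
    · rw [card_box, nsmul_eq_mul, mul_comm]
      gcongr
      have h1 : ((2 * N / p : ℕ) : ℝ) ≤ (2 * N : ℕ) / p := Nat.cast_div_le
      push_cast at h1 ⊢
      rw [show (4 : ℝ) * N / p = 2 * (2 * N / p) by ring]
      gcongr
  · refine (abs_sum_le_sum_abs _ _).trans ((sum_le_sum (g := fun m => 16 * (Nat.gcd e e' * g * g') *
      φ m) fun m _ => ?_).trans ?_)
    · rw [abs_mul, abs_of_nonneg (hφ.1 m).1, mul_comm, box_eq (2 * N / p)]
      refine mul_le_mul_of_nonneg_right ((A2 _ 1 (2 * (4 * (Nat.gcd e e' * g * g'))) _ _ _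
        (A6 ψ 1 m p uψ) (by generalize 2 * N / p = L; omega) fun s v _ _ _ => ?_).trans (le_of_eq (by ring))) (hφ.1 m).1
      have := A5 c (Nat.gcd e e') s v hγ fun t => pc _ _ (by simp)
      rw [zc, zero_div] at this
      linarith
    · rw [← mul_sum]
      gcongr

theorem gsum (D : ℕ) : ∑ e ∈ Icc 1 D, ∑ e' ∈ Icc 1 D, (Nat.gcd e e' : ℝ) *
    ((e.divisors.card : ℝ) / e) * ((e'.divisors.card : ℝ) / e') ≤ (1 + Real.log D) ^ 8 := by
  rw [← sum_product']
  refine (RankZero.dp_inj (t := Icc 1 D ×ˢ Icc 1 D ×ˢ Icc 1 D) (g := fun q : ℕ × ℕ × ℕ =>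
    (q.1.divisors.card : ℝ) ^ 2 / q.1 * ((q.2.1.divisors.card : ℝ) ^ 1 / q.2.1 *
      ((q.2.2.divisors.card : ℝ) ^ 1 / q.2.2)))
    (fun q => (q.1.gcd q.2, q.1 / q.1.gcd q.2, q.2 / q.1.gcd q.2)) (fun a _ b _ h => ?_)
    (fun a ha => ?_) (fun a ha => ?_) fun _ _ => by positivity).trans ?_
  · simp only [Prod.mk.injEq] at h
    obtain ⟨h1, h2, h3⟩ := h
    refine Prod.ext ?_ ?_
    · rw [← Nat.div_mul_cancel (Nat.gcd_dvd_left a.1 a.2), h2, h1,
        Nat.div_mul_cancel (Nat.gcd_dvd_left _ _)]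
    · rw [← Nat.div_mul_cancel (Nat.gcd_dvd_right a.1 a.2), h3, h1,
        Nat.div_mul_cancel (Nat.gcd_dvd_right _ _)]
  · have h1 := mem_Icc.1 (mem_product.1 ha).1
    have h2 := mem_Icc.1 (mem_product.1 ha).2
    have h3 : 0 < a.1.gcd a.2 := Nat.gcd_pos_of_pos_left _ h1.1
    have h4 := Nat.gcd_le_left a.2 h1.1
    have h5 := Nat.gcd_le_right a.1 h2.1
    exact mem_product.2 ⟨mem_Icc.2 ⟨h3, h4.trans h1.2⟩, mem_product.2
      ⟨mem_Icc.2 ⟨Nat.div_pos h4 h3, (Nat.div_le_self _ _).trans h1.2⟩,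
        mem_Icc.2 ⟨Nat.div_pos h5 h3, (Nat.div_le_self _ _).trans h2.2⟩⟩⟩
  · have h3 : 0 < a.1.gcd a.2 := Nat.gcd_pos_of_pos_left _ (mem_Icc.1 (mem_product.1 ha).1).1
    obtain ⟨x, hx⟩ := Nat.gcd_dvd_left a.1 a.2
    obtain ⟨y, hy⟩ := Nat.gcd_dvd_right a.1 a.2
    generalize a.1.gcd a.2 = γ at *
    have t : ∀ z : ℕ, ((γ * z).divisors.card : ℝ) ≤ γ.divisors.card * z.divisors.card := fun z => by
      rw [Nat.divisors_mul]
      exact_mod_cast card_mul_le
    simp only [hx, hy, Nat.mul_div_cancel_left _ h3]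
    have h4 : (0 : ℝ) < γ := by exact_mod_cast h3
    calc _ ≤ (γ : ℝ) * (γ.divisors.card * x.divisors.card / (γ * x : ℕ)) *
          (γ.divisors.card * y.divisors.card / (γ * y : ℕ)) := by gcongr <;> exact t _
      _ = _ := by
          push_cast
          rw [mul_div_mul_comm, mul_div_mul_comm]
          field_simp
  · rw [sum_product' (f := fun (a : ℕ) (b : ℕ × ℕ) => (a.divisors.card : ℝ) ^ 2 / a *
      ((b.1.divisors.card : ℝ) ^ 1 / b.1 * ((b.2.divisors.card : ℝ) ^ 1 / b.2))), ← sum_mul_sum,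
      sum_product' (f := fun a b : ℕ => (a.divisors.card : ℝ) ^ 1 / a *
        ((b.divisors.card : ℝ) ^ 1 / b)), ← sum_mul_sum]
    have h1 := RankZero.dp_S 1 D
    have h2 := RankZero.dp_S 2 D
    have h3 : 0 ≤ 1 + Real.log D := by positivity
    calc _ ≤ (1 + Real.log D) ^ 2 ^ 2 * ((1 + Real.log D) ^ 2 ^ 1 * (1 + Real.log D) ^ 2 ^ 1) := by
          gcongr
      _ = _ := by ring

/-- the balanced indicator -/
noncomputable def uu (n : ℤ) (e : ℕ) (m : ℤ) : ℝ :=
  (if (e : ℤ) ∣ n - m ^ 2 then 1 else 0) - (rho e n : ℝ) / e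

theorem Th_eq (Λ : ℕ → ℝ) (D : ℕ) (n m : ℤ) : Th Λ D n m = ∑ e ∈ Icc 1 D, Λ e * uu n e m := by
  rw [Th, nw, Gm, ← sum_sub_distrib]
  refine sum_congr rfl fun e _ => ?_
  unfold uu
  split_ifs <;> ring

theorem uu_per (n : ℤ) (e : ℕ) (s t : ℤ) (h : (e : ℤ) ∣ s - t) : uu n e s = uu n e t := by
  unfold uu
  rw [if_congr (Q := (e : ℤ) ∣ n - t ^ 2) ?_ rfl rfl]
  rw [show n - t ^ 2 = n - s ^ 2 + (s - t) * (s + t) by ring]
  exact (dvd_add_left (h.mul_right _)).symm

theorem uu_le (n : ℤ) (e : ℕ) (t : ℤ) : |uu n e t| ≤ 1 := by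
  have h1 : (rho e n : ℝ) / e ≤ 1 := div_le_one_of_le₀ (by
    exact_mod_cast (card_filter_le _ _).trans (card_range e).le) (by positivity)
  have h2 : 0 ≤ (rho e n : ℝ) / e := by positivity
  unfold uu
  split_ifs <;> exact abs_le.2 ⟨by linarith, by linarith⟩

theorem ind_sum (n : ℤ) (e : ℕ) :
    ∑ t ∈ range e, (if (e : ℤ) ∣ n - (t : ℤ) ^ 2 then (1 : ℝ) else 0) = rho e n := by
  rw [sum_boole, rho, filter_congr fun t _ => dvd_sub_comm]

theorem uu_sum (n : ℤ) {e : ℕ} (he : 1 ≤ e) : ∑ t ∈ range e, uu n e t = 0 ∧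
    ∑ t ∈ range e, |uu n e t| ≤ 2 * e * ((rho e n : ℝ) / e) := by
  have h : (e : ℝ) ≠ 0 := by positivity
  unfold uu
  constructor
  · rw [sum_sub_distrib, ind_sum, sum_const, card_range, nsmul_eq_mul, mul_div_cancel₀ _ h,
      sub_self]
  · refine (sum_le_sum (g := fun t : ℕ => (if (e : ℤ) ∣ n - (t : ℤ) ^ 2 then (1 : ℝ) else 0) +
      (rho e n : ℝ) / e) fun t _ => (abs_sub _ _).trans (le_of_eq ?_)).trans (le_of_eq ?_)
    · rw [abs_of_nonneg (by positivity), abs_of_nonneg (by positivity)]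
    · rw [sum_add_distrib, ind_sum, sum_const, card_range, nsmul_eq_mul]
      field_simp
      ring

end DSP1

theorem blk_DSP1 (hABEL : St_ABEL) (hAG : St_AG) (hGT : St_GT) : St_DSP1 := by
  refine ⟨32, by norm_num, fun X D p Λ n hX hΛ hp hD => ?_⟩
  have e1 : (∑ m ∈ box (M3 X), ∑ m' ∈ box (M3 X),
      if (p : ℤ) ∣ m' - m then w X m * w X m' * Th Λ D n m * Th Λ D n m' else 0) =
      ∑ e ∈ Icc 1 D, ∑ e' ∈ Icc 1 D, Λ e * Λ e' * ∑ m ∈ box (M3 X), ∑ m' ∈ box (M3 X),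
        if (p : ℤ) ∣ m' - m then w X m * w X m' * (DSP1.uu n e m * DSP1.uu n e' m') else 0 := by
    simp only [mul_sum]
    symm
    rw [← sum_product', sum_comm]
    refine sum_congr rfl fun m _ => ?_
    rw [sum_comm]
    refine sum_congr rfl fun m' _ => ?_
    rw [sum_product]
    dsimp only
    split_ifs
    · rw [DSP1.Th_eq, DSP1.Th_eq, mul_assoc, sum_mul_sum, mul_sum]
      refine sum_congr rfl fun e _ => ?_
      rw [mul_sum]
      exact sum_congr rfl fun e' _ => by ring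
    · simp
  have h0 : (0 : ℝ) ≤ (M3 X : ℝ) / p := by positivity
  rw [e1]
  calc _ ≤ ∑ e ∈ Icc 1 D, ∑ e' ∈ Icc 1 D, (32 * √(X : ℝ) * ((Nat.gcd e e' : ℝ) *
        ((e.divisors.card : ℝ) / e) * ((e'.divisors.card : ℝ) / e')) +
        32 * (D : ℝ) ^ 2 * (1 + (M3 X : ℝ) / p)) := by
        refine sum_le_sum fun e he => sum_le_sum fun e' he' => ?_
        rcases eq_or_ne (Λ e) 0 with h1 | h1
        · rw [h1, zero_mul, zero_mul]; positivity
        rcases eq_or_ne (Λ e') 0 with h2 | h2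
        · rw [h2, mul_zero, zero_mul]; positivity
        obtain ⟨a1, a2⟩ := mem_Icc.1 he
        obtain ⟨b1, b2⟩ := mem_Icc.1 he'
        have h3 := DSP1.core hABEL (hGT.2.2.1 X) (hGT.2.2.2.1 X (box (M3 X)) hX) a1 b1 hp.one_le
          (Nat.isCoprime_iff_coprime.2 ((Nat.coprime_of_lt_prime (by omega) (by omega) hp).symm))
          (DSP1.uu_per n e) (DSP1.uu_per n e') (DSP1.uu_le n e) (DSP1.uu_le n e')
          (by positivity) (by positivity) (DSP1.uu_sum n a1).2 (DSP1.uu_sum n b1).2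
          (DSP1.uu_sum n b1).1
        have r1 : (rho e n : ℝ) ≤ e.divisors.card := by
          exact_mod_cast (hAG.2.2.2.2.2.1 e n (hΛ.sf e h1)).2
        have r2 : (rho e' n : ℝ) ≤ e'.divisors.card := by
          exact_mod_cast (hAG.2.2.2.2.2.1 e' n (hΛ.sf e' h2)).2
        refine (le_abs_self _).trans ?_
        rw [abs_mul, abs_mul, add_comm]
        refine (mul_le_of_le_one_left (abs_nonneg _)
          (mul_le_one₀ (hΛ.bd e) (abs_nonneg _) (hΛ.bd e'))).trans (h3.trans (add_le_add ?_ ?_))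
        · calc _ ≤ 8 * ((D : ℝ) * D) * (4 * (1 + (M3 X : ℝ) / p)) := by
                gcongr
                rw [mul_div_assoc]
                linarith
            _ = _ := by ring
        · calc _ ≤ 16 * (Nat.gcd e e' * ((e.divisors.card : ℝ) / e) *
                ((e'.divisors.card : ℝ) / e')) * (2 * √(X : ℝ)) := by gcongr
            _ = _ := by ring
    _ ≤ _ := by
        simp only [sum_add_distrib, ← mul_sum, sum_const, Nat.card_Icc, nsmul_eq_mul,
          Nat.add_sub_cancel]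
        have := mul_le_mul_of_nonneg_left (DSP1.gsum D) (show 0 ≤ 32 * √(X : ℝ) by positivity)
        linarith

end Pool.Agent.Lib.APQ
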