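import Pool.Agent.Lib.APQ.Kit

/-!
The second moment of the remainder over the progression.
-/

namespace Pool.Agent.Lib.APQ

open Finset Real Complex Filter Pool.Agent.Lib.PS
open scoped NumberTheorySymbols ArithmeticFunction.Moebius Classical ComplexConjugate

namespace DSP2

theorem cauchy {p : ℕ} (hp : p.Prime) (B : Finset ℤ) (c : ℤ → ℝ) (n : ℤ) :
    (∑ m ∈ B, if (p : ℤ) ∣ n - m ^ 2 then c m else 0) ^ 2 ≤ 2 * ∑ m ∈ B, ∑ m' ∈ B,
      if (p : ℤ) ∣ m' - m then (if (p : ℤ) ∣ n - m ^ 2 then 1 else 0) * (c m * c m') else 0 := by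
  set S : ℤ → ℝ := fun r => ∑ m ∈ B, if (p : ℤ) ∣ m - r then c m else 0 with hS
  have e1 : ∀ m, (∑ m' ∈ B, if (p : ℤ) ∣ m' - m then
      (if (p : ℤ) ∣ n - m ^ 2 then (1 : ℝ) else 0) * (c m * c m') else 0) =
      if (p : ℤ) ∣ n - m ^ 2 then c m * S m else 0 := fun m => by
    split_ifs
    · simp only [hS, mul_sum, one_mul, mul_ite, mul_zero]
    · simp
  have e2 : ∀ r, (∑ m ∈ B, if (p : ℤ) ∣ m - r then c m * S m else 0) = S r ^ 2 := fun r => by
    rw [pow_two, hS]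
    beta_reduce
    rw [sum_mul]
    refine sum_congr rfl fun m _ => ?_
    split_ifs with h
    · refine congrArg _ (sum_congr rfl fun x _ => if_congr ?_ rfl rfl)
      rw [show x - r = x - m + (m - r) by ring, dvd_add_left h]
    · rw [zero_mul]
  simp only [e1]
  by_cases h : ∃ r, (p : ℤ) ∣ n - r ^ 2
  swap
  · simp [not_exists.1 h]
  obtain ⟨r, hr⟩ := h
  have e3 : ∀ m, (p : ℤ) ∣ n - m ^ 2 ↔ (p : ℤ) ∣ m - r ∨ (p : ℤ) ∣ m - -r := fun m => by
    rw [← (Nat.prime_iff_prime_int.1 hp).dvd_mul, show n - m ^ 2 = n - r ^ 2 - (m - r) * (m - -r) by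
      ring, dvd_sub_right hr]
  by_cases h2 : (p : ℤ) ∣ r - -r
  · have e4 : ∀ m, (p : ℤ) ∣ n - m ^ 2 ↔ (p : ℤ) ∣ m - r := fun m => by
      rw [e3, show m - -r = m - r + (r - -r) by ring, dvd_add_left h2, or_self]
    simp only [e4, e2]
    nlinarith [sq_nonneg (S r)]
  · have e4 : ∀ (m : ℤ) (x : ℝ), (if (p : ℤ) ∣ n - m ^ 2 then x else 0) =
        (if (p : ℤ) ∣ m - r then x else 0) + if (p : ℤ) ∣ m - -r then x else 0 := fun m x => by
      by_cases a : (p : ℤ) ∣ m - r <;> by_cases b : (p : ℤ) ∣ m - -r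
      · exact absurd (by simpa using dvd_sub b a) h2
      all_goals simp only [e3, a, b, or_self, or_true, true_or, if_true, if_false, add_zero,
        zero_add]
    simp only [e4, sum_add_distrib, e2]
    nlinarith [sq_nonneg (S r - S (-r))]

theorem shift {p : ℕ} (hp : 0 < p) (N : ℕ) (F : ℤ → ℝ) {m : ℤ} (hm : m ∈ box N) :
    (∑ m' ∈ box N, if (p : ℤ) ∣ m' - m then F m' else 0) =
      ∑ j ∈ box (2 * N / p), if p * j + 1 * m ∈ box N then F (p * j + 1 * m) else 0 := by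
  have h0 : (0 : ℤ) < p := by exact_mod_cast hp
  rw [← sum_filter, ← sum_filter]
  refine (sum_bij (fun j _ => p * j + 1 * m) (fun j h => ?_) (fun j _ i _ e => ?_)
    (fun x h => ?_) fun _ _ => rfl).symm
  · exact mem_filter.2 ⟨(mem_filter.1 h).2, j, by ring⟩
  · exact mul_left_cancel₀ h0.ne' (add_right_cancel e)
  · obtain ⟨a, j, e⟩ := mem_filter.1 h
    have e' : p * j + 1 * m = x := by linarith
    refine ⟨j, mem_filter.2 ⟨mem_box.2 ?_, e' ▸ a⟩, e'⟩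
    rw [mem_box] at a hm
    have b := abs_sub x m
    rw [e, abs_mul, abs_of_pos h0] at b
    push_cast
    exact Int.le_ediv_of_mul_le h0 (by linarith)

noncomputable def u (e : ℕ) (n m : ℤ) : ℝ := (if (e : ℤ) ∣ n - m ^ 2 then 1 else 0) - rho e n / e

theorem Th_eq (Λ : ℕ → ℝ) (D : ℕ) (n m : ℤ) : Th Λ D n m = ∑ e ∈ Icc 1 D, Λ e * u e n m := by
  rw [Th, nw, Gm, ← sum_sub_distrib]
  refine sum_congr rfl fun e _ => ?_
  rw [u]
  split_ifs <;> ring

theorem u_le (e : ℕ) (n m : ℤ) : |u e n m| ≤ 1 := by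
  have h : (rho e n : ℝ) ≤ e := by
    exact_mod_cast (card_filter_le _ _).trans (card_range e).le
  have h1 : (rho e n : ℝ) / e ≤ 1 := div_le_one_of_le₀ h (by positivity)
  have h0 : 0 ≤ (rho e n : ℝ) / e := by positivity
  rw [u, abs_le]
  split_ifs <;> constructor <;> linarith

theorem u_congr (hAG : St_AG) {e : ℕ} {n n' m m' : ℤ} (h : (e : ℤ) ∣ n - n')
    (h' : (e : ℤ) ∣ m - m') : u e n m = u e n' m' := by
  rw [u, u, hAG.2.2.2.2.2.2.1 e n n' h]
  refine congrArg (· - _) (if_congr ?_ rfl rfl)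
  rw [show n - m ^ 2 = n' - m' ^ 2 + (n - n' - (m - m') * (m + m')) by ring,
    dvd_add_left (dvd_sub h (h'.mul_right _))]

end DSP2

open DSP2 in
theorem blk_DSP2 (hDSP1 : St_DSP1) (hPB2 : St_PB2) (hABEL : St_ABEL) (hAG : St_AG) (hGT : St_GT) :
    St_DSP2 := by
  obtain ⟨C1, p1, h1⟩ := hDSP1
  obtain ⟨C2, p2, h2⟩ := hPB2
  refine ⟨2 * C1 + 8 * C2, by positivity, fun X D p q a K Λ hX hΛ hp hD hq => ?_⟩
  set N := M3 X with hN
  set A := √(X : ℝ) * (1 + Real.log D) ^ 8 + (D : ℝ) ^ 4 * (1 + (N : ℝ) / p) with hA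
  set E := √(p : ℝ) * (1 + Real.log p) ^ 2 * (1 + (N : ℝ) / p) with hE
  have A0 : 0 ≤ A := by positivity
  have E0 : 0 ≤ E := by positivity
  set n : ℕ → ℤ := fun k => (a : ℤ) + q * k with hn
  set ψ : ℕ → ℤ → ℝ := fun k m => (if (p : ℤ) ∣ n k - m ^ 2 then 1 else 0) - 1 / (p : ℝ) with hψ
  set φ : ℤ → ℤ → ℝ := fun j m => if p * j + 1 * m ∈ box N then w X (p * j + 1 * m) else 0 with hφ
  set Z : ℤ → ℕ → ℕ → ℕ → ℤ → ℝ := fun j e e' k m =>
    w X m * φ j m * (u e (n k) m * u e' (n k) (p * j + 1 * m)) * ψ k m with hZ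
  have uφ : ∀ j, Uni (φ j) 1 := fun j => by
    have := hABEL.2.2.2.2.2.1 _ 1 (p * j) 1 (hABEL.2.2.2.2.2.2 _ 1 (-(N : ℤ)) (N + 1) (hGT.2.2.1 X))
    simpa only [← box_eq] using this
  have bZ : ∀ j, ∀ e ∈ Icc 1 D, ∀ e' ∈ Icc 1 D,
      Λ e * Λ e' * ∑ k ∈ range K, ∑ m ∈ box N, Z j e e' k m ≤ C2 * (D : ℝ) ^ 4 * E := by
    intro j e he e' he'
    rw [mem_Icc] at he he'
    have b := h2 p (e * e') q K N a (w X) (φ j)
      (fun k m => u e (n k) m * u e' (n k) (p * j + 1 * m)) hp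
      (fun z => (hp.dvd_mul.1 z).elim (Nat.not_dvd_of_pos_of_lt he.1 (by omega))
        (Nat.not_dvd_of_pos_of_lt he'.1 (by omega))) hq (hGT.2.2.1 X) (uφ j)
      (fun k m => by
        rw [abs_mul]; exact mul_le_one₀ (u_le _ _ _) (abs_nonneg _) (u_le _ _ _))
      (fun k m => congrArg₂ _
        (u_congr hAG ⟨q * e', by simp only [hn]; push_cast; ring⟩ (by simp))
        (u_congr hAG ⟨q * e, by simp only [hn]; push_cast; ring⟩ (by simp)))
      (fun k m => congrArg₂ _ (u_congr hAG (by simp) ⟨e', by push_cast; ring⟩)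
        (u_congr hAG (by simp) ⟨e, by push_cast; ring⟩))
    have c : ((e * e' : ℕ) : ℝ) ^ 2 ≤ (D : ℝ) ^ 4 := by
      have : e * e' ≤ D * D := Nat.mul_le_mul he.2 he'.2
      calc _ ≤ ((D * D : ℕ) : ℝ) ^ 2 := by gcongr
        _ = _ := by push_cast; ring
    refine (le_abs_self _).trans ?_
    rw [abs_mul, abs_mul]
    refine (mul_le_of_le_one_left (abs_nonneg _)
      (mul_le_one₀ (hΛ.bd e) (abs_nonneg _) (hΛ.bd e'))).trans (b.trans ?_)
    calc _ = C2 * ((e * e' : ℕ) : ℝ) ^ 2 * E := by rw [hE]; ring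
      _ ≤ _ := by gcongr
  have s1 : ∀ k, RR X Λ D (n k) p ^ 2 ≤ 2 * (1 / p * (C1 * A) + ∑ j ∈ box (2 * N / p),
      ∑ e ∈ Icc 1 D, ∑ e' ∈ Icc 1 D, Λ e * Λ e' * ∑ m ∈ box N, Z j e e' k m) := fun k => by
    refine (cauchy hp (box N) (fun m => w X m * Th Λ D (n k) m) (n k)).trans
      (mul_le_mul_of_nonneg_left ?_ zero_le_two)
    refine le_trans (le_of_eq ?_) (add_le_add_left (mul_le_mul_of_nonneg_left
      (h1 X D p Λ (n k) hX hΛ hp hD) (by positivity)) _)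
    have e1 : (∑ j ∈ box (2 * N / p), ∑ e ∈ Icc 1 D, ∑ e' ∈ Icc 1 D,
        Λ e * Λ e' * ∑ m ∈ box N, Z j e e' k m) = ∑ m ∈ box N, ∑ m' ∈ box N,
        if (p : ℤ) ∣ m' - m then
          ψ k m * (w X m * Th Λ D (n k) m * (w X m' * Th Λ D (n k) m')) else 0 := by
      conv_lhs => simp only [mul_sum, sum_comm (t := box N)]
      refine sum_congr rfl fun m hm => ?_
      rw [shift hp.pos N _ hm]
      refine sum_congr rfl fun j _ => ?_
      simp only [hZ, hφ, Th_eq]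
      split_ifs
      · rw [mul_mul_mul_comm, sum_mul_sum]
        simp only [mul_sum]
        exact sum_congr rfl fun e _ => sum_congr rfl fun e' _ => by ring
      · simp
    rw [e1, mul_sum, ← sum_add_distrib]
    refine sum_congr rfl fun m _ => ?_
    rw [mul_sum, ← sum_add_distrib]
    refine sum_congr rfl fun m' _ => ?_
    simp only [hψ]
    split_ifs <;> ring
  have s2 : (∑ k ∈ range K, ∑ j ∈ box (2 * N / p), ∑ e ∈ Icc 1 D, ∑ e' ∈ Icc 1 D,
      Λ e * Λ e' * ∑ m ∈ box N, Z j e e' k m) ≤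
      4 * (1 + (N : ℝ) / p) * (D * (D * (C2 * (D : ℝ) ^ 4 * E))) := by
    rw [sum_comm]
    refine (sum_le_card_nsmul _ _ (D * (D * (C2 * (D : ℝ) ^ 4 * E))) fun j _ => ?_).trans ?_
    · rw [sum_comm]
      refine (sum_le_card_nsmul _ _ (D * (C2 * (D : ℝ) ^ 4 * E)) fun e he => ?_).trans (by simp)
      rw [sum_comm]
      refine (sum_le_card_nsmul _ _ (C2 * (D : ℝ) ^ 4 * E) fun e' he' => ?_).trans (by simp)
      rw [← mul_sum]
      exact bZ j e he e' he'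
    · rw [nsmul_eq_mul, card_box]
      refine mul_le_mul_of_nonneg_right ?_ (by positivity)
      have b : ((2 * N / p : ℕ) : ℝ) ≤ ((2 * N : ℕ) : ℝ) / p := Nat.cast_div_le
      rw [Nat.cast_mul 2 N, Nat.cast_ofNat, mul_div_assoc] at b
      rw [Nat.cast_add, Nat.cast_mul, Nat.cast_ofNat, Nat.cast_one]
      linarith
  refine (sum_le_sum fun k _ => s1 k).trans ?_
  rw [← mul_sum, sum_add_distrib, sum_const, card_range, nsmul_eq_mul]
  have t1 : 0 ≤ K / p * A := by positivity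
  have t2 : 0 ≤ (D : ℝ) ^ 6 * E * (1 + (N : ℝ) / p) := by positivity
  calc _ ≤ 2 * (K * (1 / p * (C1 * A)) +
        4 * (1 + (N : ℝ) / p) * (D * (D * (C2 * (D : ℝ) ^ 4 * E)))) := by gcongr
    _ = 2 * C1 * (K / p * A) + 8 * C2 * ((D : ℝ) ^ 6 * E * (1 + (N : ℝ) / p)) := by ring
    _ ≤ (2 * C1 + 8 * C2) * (K / p * A + (D : ℝ) ^ 6 * E * (1 + (N : ℝ) / p)) := by
      nlinarith [mul_nonneg p1.le t2, mul_nonneg p2.le t1]
    _ = _ := by rw [hE]; ring

end Pool.Agent.Lib.APQ
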