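import Pool.Agent.Lib.APQ.Kit

/-! Block DY: the choice of the parameters and the count on a dyadic range. -/

namespace Pool.Agent.Lib.APQ

open Finset Real Complex Filter Pool.Agent.Lib.PS Topology
open scoped NumberTheorySymbols ArithmeticFunction.Moebius Classical ComplexConjugate

namespace DY

theorem markov (S : Finset ℕ) (f : ℕ → ℝ) (hf : ∀ k, 0 ≤ f k) {τ Z : ℝ} (hτ : 0 < τ)
    (h : ∑ k ∈ S, f k ≤ τ * Z) : ((S.filter fun k => τ < f k).card : ℝ) ≤ Z := by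
  refine le_of_mul_le_mul_left (le_trans ?_ h) hτ
  calc τ * ((S.filter fun k => τ < f k).card : ℝ) = ∑ _k ∈ S.filter fun k => τ < f k, τ := by
        rw [sum_const, nsmul_eq_mul, mul_comm]
    _ ≤ ∑ k ∈ S.filter fun k => τ < f k, f k := sum_le_sum fun k hk => (mem_filter.1 hk).2.le
    _ ≤ _ := sum_le_sum_of_subset_of_nonneg (filter_subset _ _) fun k _ _ => hf k

theorem pick {c₁ C₁ C₃ : ℝ} (hc : 0 < c₁) (h1 : 1 ≤ C₁) (h3 : 0 < C₃) :
    ∃ (k : ℕ) (d : ℝ), 0 < d ∧ C₁ ≤ 2 ^ k ∧ C₁ / d * (1 / 2 ^ k) ≤ c₁ / 10 ∧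
      (8 * k + 14) * d ≤ 1 / 100 ∧ 2 * C₃ * ((8 * k + 14) * d) ≤ c₁ / 10 := by
  have e1 := (tendsto_pow_const_div_const_pow_of_one_lt 2 (show (1 : ℝ) < 2 by norm_num)).eventually
    (ge_mem_nhds (show 0 < min (c₁ / 10) 1 / C₁ by positivity))
  have e2 := (tendsto_natCast_atTop_atTop (R := ℝ)).eventually_ge_atTop (2200 + 440 * C₃ / c₁)
  obtain ⟨k, hk1, hk2⟩ := (e1.and e2).exists
  have h4 : 0 ≤ 440 * C₃ / c₁ := by positivity
  have hk : (2200 : ℝ) ≤ k := by linarith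
  have hk0 : (0 : ℝ) < k := by linarith
  have hp : (0 : ℝ) < 2 ^ k := by positivity
  have h5 : C₁ * ((k : ℝ) ^ 2 / 2 ^ k) ≤ min (c₁ / 10) 1 := by
    rwa [le_div_iff₀ (by linarith), mul_comm] at hk1
  have h6 : (8 * k + 14) * (1 / (k : ℝ) ^ 2) ≤ 22 / k := by
    rw [mul_one_div, div_le_div_iff₀ (by positivity) hk0]; nlinarith
  refine ⟨k, 1 / (k : ℝ) ^ 2, by positivity, ?_, ?_, ?_, ?_⟩
  · have h7 := h5.trans (min_le_right _ _)
    rw [← mul_div_assoc, div_le_one hp] at h7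
    have h8 : (1 : ℝ) ≤ (k : ℝ) ^ 2 := one_le_pow₀ (by linarith)
    nlinarith
  · refine le_trans (le_of_eq ?_) (h5.trans (min_le_left _ _))
    field_simp
  · refine h6.trans ?_
    rw [div_le_div_iff₀ hk0 (by norm_num)]; linarith
  · refine (mul_le_mul_of_nonneg_left h6 (by positivity)).trans ?_
    have h8 : 440 * C₃ ≤ k * c₁ := by
      rw [← div_le_iff₀ hc]; linarith
    rw [← mul_div_assoc, div_le_div_iff₀ hk0 (by norm_num)]; linarith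

theorem arith {c₁ c Q Q' m s u₁ u₂ u₃ u₄ B₀ E₁ E₂ DS BR AQ BQ AT g : ℝ} (hc₁ : 0 < c₁) (hc : 0 < c)
    (hQ : c ≤ Q) (hm : 0 < m) (hs : 1 ≤ s) (hg : 0 ≤ g)
    (h : Q * B₀ ≤ E₁ + E₂ + 3 * DS * BR + 6 * AQ + 6 * Q * BQ + AT + 2) (h0 : c₁ * m ≤ B₀)
    (h1 : E₁ ≤ g * Q * m * (u₁ + u₂ + u₃) + (1 + Q) * s) (h2 : E₂ ≤ c * c₁ * m / 10)
    (h3 : BR ≤ g * m) (h4 : DS ≤ u₄ * Q) (hDS : 0 ≤ DS) (h5 : AQ ≤ s) (h6 : BQ ≤ s)
    (h7 : AT - Q' ≤ c * c₁ * m / 10) (h8 : Q' ≤ c₁ / 10 * Q * m) (a1 : g * u₁ ≤ c₁ / 10)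
    (a2 : g * u₂ ≤ c₁ / 30) (a3 : g * u₃ ≤ c₁ / 10) (a4 : g * u₄ ≤ c₁ / 30)
    (a5 : (9 / c + 7) * s ≤ c₁ * m / 10) : False := by
  have hQ0 : 0 < Q := by linarith
  have hQm : 0 < Q * m := by positivity
  have b0 : c₁ * (Q * m) ≤ Q * B₀ := by nlinarith
  have b1 : g * Q * m * (u₁ + u₂ + u₃) ≤ (c₁ / 10 + c₁ / 30 + c₁ / 10) * (Q * m) := by nlinarith
  have b2 : c * c₁ * m / 10 ≤ c₁ / 10 * (Q * m) := by
    have := mul_le_mul_of_nonneg_right hQ (show 0 ≤ c₁ * m by positivity)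
    nlinarith
  have b3 : 3 * DS * BR ≤ c₁ / 10 * (Q * m) := by
    have x1 : DS * BR ≤ DS * (g * m) := mul_le_mul_of_nonneg_left h3 hDS
    have x2 : DS * (g * m) ≤ u₄ * Q * (g * m) := mul_le_mul_of_nonneg_right h4 (by positivity)
    nlinarith
  have b4 : (9 + 7 * Q) * s ≤ c₁ / 10 * (Q * m) := by
    have x1 : 9 ≤ Q * (9 / c) := by
      rw [← mul_div_assoc, le_div_iff₀ hc]; linarith
    have x2 := mul_le_mul_of_nonneg_left a5 hQ0.le
    nlinarith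
  have b5 : Q * BQ ≤ Q * s := mul_le_mul_of_nonneg_left h6 hQ0.le
  have b6 : 0 < c₁ * (Q * m) := by positivity
  nlinarith

end DY

open DY in
theorem blk_DY (hNUM : St_NUM) (hT1 : St_T1) (hAA : St_AA) (hF2 : St_F2) (hF3T : St_F3T)
    (hSQ : St_SQ) (hDY1 : St_DY1) : St_DY := by
  obtain ⟨c₁, hc₁, hN⟩ := hNUM
  obtain ⟨C₁, hC₁, hT⟩ := hT1
  obtain ⟨C₃, θ, hC₃, hθ0, hθ1, hF3⟩ := hF3T
  obtain ⟨k, d, hd, hk1, hk2, hk3, hk4⟩ := pick hc₁ hC₁ hC₃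
  set t : ℝ := (8 * k + 14) * d with ht
  have hdt : d ≤ t := by
    have : (0 : ℝ) ≤ k := Nat.cast_nonneg k
    rw [ht]; nlinarith
  have ht0 : 0 < t := hd.trans_le hdt
  have hd1 : d ≤ 1 / 100 := hdt.trans hk3
  set e : ℝ := c₁ * d / (30 * C₁) with he
  have he0 : 0 < e := by positivity
  have hge : C₁ / d * e = c₁ / 30 := by rw [he]; field_simp
  refine ⟨d / 10, by positivity, fun ε hε => ?_⟩
  obtain ⟨c, hc, hA⟩ := hAA d θ t e (ε / 3) hd hd1 hθ0 hθ1 hdt (by linarith) he0 (by positivity)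
  obtain ⟨B₀, hB⟩ := hF2 d t hd hd1 ht0 (by linarith)
  filter_upwards [hN t (B₀ + 1) ht0 hk3, hT k d t hk1 hd le_rfl (by linarith),
    hA (B₀ + 1) (by omega), hB (B₀ + 1) (by omega),
    hF3 t (ε * c * c₁ / 30) ht0 (by linarith) (by positivity), hSQ d hd (by linarith),
    ev_lg (8 + 20 * (C₁ / d) / c₁ + 90 / (c * c₁ * ε)), ev_lg_sqrt 1 (B₀ + 1),
    ev_pow ((9 / c + 7) * 10 / c₁) 1 (show 1 / 2 - d / 2 < 1 / 2 by linarith),
    eventually_ge_atTop 33] with X x1 x2 x3 x4 x5 x6 x7 x8 x9 x10 q a K hR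
  have hX1 : 1 ≤ X := by omega
  have hX : (1 : ℝ) ≤ X := by exact_mod_cast hX1
  have p1 : 0 ≤ 20 * (C₁ / d) / c₁ := by positivity
  have p2 : 0 ≤ 90 / (c * c₁ * ε) := by positivity
  have hl : 8 ≤ lg X := by linarith
  have hl0 : 0 < lg X := by linarith
  have hM : 0 < √(X : ℝ) := Real.sqrt_pos.2 (by linarith)
  have hq := hR.q_pos
  set P := Pb X (B₀ + 1) with hP
  obtain ⟨hP1, hP2⟩ := Pb_bounds (X := X) (by linarith) (B₀ + 1)
  have hP3 : lg X / 2 ≤ P := by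
    have : lg X ≤ lg X ^ (B₀ + 1) := le_self_pow₀ (by linarith) (by omega)
    linarith
  have hP4 : 4 ≤ P := by exact_mod_cast (show (4 : ℝ) ≤ P by linarith)
  have hP5 : (P : ℝ) ≤ √(X : ℝ) := (Pb_le X _).trans (by linarith)
  have hP0 : (0 : ℝ) < P := by linarith
  set m : ℝ := √(X : ℝ) / lg X with hm
  have hm0 : 0 < m := by positivity
  set τ : ℝ := c * c₁ * m / 10 with hτ
  have hτ0 : 0 < τ := by positivity
  have y3 := x3 q a K hR
  have y4 := markov _ _ (fun _ => abs_nonneg _) hτ0 (Z := ε / 3 * X / q) ((x4 q a K hR).trans (by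
    have h1 : 90 ≤ lg X * (c * c₁ * ε) := by rw [← div_le_iff₀ (by positivity)]; linarith
    have h2 : τ * (ε / 3 * X / q) = lg X * (c * c₁ * ε) / 30 * (X / q) * √(X : ℝ) / lg X ^ 2 := by
      rw [hτ, hm]; field_simp; ring
    rw [h2]
    gcongr
    linarith))
  have y5 := markov _ _ (fun _ => le_max_right _ _) hτ0 (Z := ε / 3 * X / q)
    ((x5 q a K (hR.mono hX1 (by linarith))).trans (le_of_eq (by rw [hτ, hm]; ring)))
  refine le_trans (Nat.cast_le.2 ((card_le_card ?_).trans ((card_union_le _ _).trans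
    (Nat.add_le_add_right (card_union_le _ _) _)))) (by
      push_cast
      exact (add_le_add (add_le_add y3 y4) y5).trans (le_of_eq (by ring)))
  intro j hj
  obtain ⟨hj1, hj2⟩ := mem_filter.1 hj
  obtain ⟨n1, n2⟩ := hR.mem (mem_range.1 hj1)
  by_contra hcon
  simp only [mem_union, mem_filter, hj1, true_and, not_or, not_not, not_lt] at hcon
  obtain ⟨⟨⟨g1, g2, g3, g4⟩, g5⟩, g6⟩ := hcon
  obtain ⟨t1, t2⟩ := x2 P _ hP1 hP5 n1 n2
  obtain ⟨s1, s2⟩ := x6 P _ hP1 hP5 n1 n2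
  refine arith (g := C₁ / d) (m := m) (u₄ := e) (u₃ := 1 / P)
    (u₂ := |Js (a + q * j) (zz X) ((X : ℝ) ^ (1 / 2 - t))|)
    (Q' := C₃ * t * Pn (a + q * j) ((X : ℝ) ^ θ) * √(X : ℝ) / lg X) hc₁ hc g1 hm0
    (Real.one_le_rpow hX (show 0 ≤ 1 / 2 - d / 2 by linarith)) (by positivity)
    (hDY1 X P _ d t _ (S0 (a + q * j) P) x10 hd (by linarith) ht0 (by linarith) n2
      (hc.le.trans g1) hj2) ?_ (t2.trans (le_of_eq ?_)) g5 (t1.trans (le_of_eq ?_)) g2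
    (abs_nonneg _) s1 s2 ((le_max_left _ _).trans g6) ?_ hk2 ?_ ?_ hge.le ?_
  · rw [hm, ← mul_div_assoc]; exact x1 P _ hP4 (Pb_le X _) n1 n2
  · rw [hm]; field_simp
  · rw [hm]; field_simp
  · rw [mul_div_assoc, ← hm]
    have h1 : C₃ * t * Pn (a + q * j) ((X : ℝ) ^ θ) ≤ C₃ * t * (2 * Pn (a + q * j) ((X : ℝ) ^ d)) :=
      mul_le_mul_of_nonneg_left g3 (by positivity)
    have h2 := mul_le_mul_of_nonneg_right hk4 (hc.le.trans g1)
    exact mul_le_mul_of_nonneg_right (by linarith) hm0.le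
  · exact (mul_le_mul_of_nonneg_left g4 (by positivity)).trans hge.le
  · have h1 : 20 * (C₁ / d) ≤ lg X * c₁ := by rw [← div_le_iff₀ hc₁]; linarith
    rw [mul_one_div, div_le_div_iff₀ hP0 (by norm_num)]
    nlinarith
  · rw [← sqrt_eq, pow_one] at x9
    rw [hm, ← mul_div_assoc, div_div, le_div_iff₀ (by positivity)]
    have := mul_le_mul_of_nonneg_left x9 hc₁.le
    refine le_trans (le_of_eq ?_) this
    field_simp

end Pool.Agent.Lib.APQ
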