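import Pool.Agent.Lib.APQ.Kit

/-!
The part of the kernel transform that comes from denominators divisible by `q`.
-/

namespace Pool.Agent.Lib.APQ

open Finset Real Complex Filter Pool.Agent.Lib.PS
open scoped NumberTheorySymbols ArithmeticFunction.Moebius Classical ComplexConjugate

namespace EB

/-- exchange of the sum over `b` with the two dual sums -/
theorem main_le {ι κ : Type} (B : Finset ι) (S₁ S₂ : Finset κ) (e : ι → ℂ) (G₁ G₂ : ι → κ → ℂ)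
    (w₁ w₂ : κ → ℂ) (p₁ p₂ : ℂ) (h₁ : ∀ h, ‖w₁ h‖ ≤ 1) (h₂ : ∀ h, ‖w₂ h‖ ≤ 1) :
    ‖∑ b ∈ B, e b * (p₂ * ∑ h ∈ S₂, G₂ b h * w₂ h) * conj (p₁ * ∑ h ∈ S₁, G₁ b h * w₁ h)‖
      ≤ ‖p₁‖ * ‖p₂‖ * ∑ h ∈ S₁, ∑ h' ∈ S₂, ‖∑ b ∈ B, e b * G₂ b h' * conj (G₁ b h)‖ := by
  have e1 : ∑ b ∈ B, e b * (p₂ * ∑ h ∈ S₂, G₂ b h * w₂ h) * conj (p₁ * ∑ h ∈ S₁, G₁ b h * w₁ h)
      = conj p₁ * p₂ * ∑ h ∈ S₁, ∑ h' ∈ S₂,
        (conj (w₁ h) * w₂ h') * ∑ b ∈ B, e b * G₂ b h' * conj (G₁ b h) := by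
    have e2 : ∀ b ∈ B, e b * (p₂ * ∑ h ∈ S₂, G₂ b h * w₂ h) *
        conj (p₁ * ∑ h ∈ S₁, G₁ b h * w₁ h) = conj p₁ * p₂ * ∑ h ∈ S₁, ∑ h' ∈ S₂,
          (conj (w₁ h) * w₂ h') * (e b * G₂ b h' * conj (G₁ b h)) := by
      intro b _
      have e3 : ∑ h ∈ S₁, ∑ h' ∈ S₂, (conj (w₁ h) * w₂ h') * (e b * G₂ b h' * conj (G₁ b h))
          = e b * ((∑ h ∈ S₁, conj (G₁ b h * w₁ h)) * ∑ h' ∈ S₂, G₂ b h' * w₂ h') := by
        rw [sum_mul_sum, mul_sum]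
        refine sum_congr rfl fun h _ => ?_
        rw [mul_sum]
        refine sum_congr rfl fun h' _ => ?_
        rw [map_mul]
        ring
      rw [e3, map_mul, map_sum]
      ring
    rw [sum_congr rfl e2, ← mul_sum, sum_comm]
    refine congrArg _ (sum_congr rfl fun h _ => ?_)
    rw [sum_comm]
    exact sum_congr rfl fun h' _ => by rw [mul_sum]
  rw [e1, norm_mul, norm_mul, Complex.norm_conj]
  refine mul_le_mul_of_nonneg_left ((norm_sum_le _ _).trans (sum_le_sum fun h _ =>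
    (norm_sum_le _ _).trans (sum_le_sum fun h' _ => ?_))) (by positivity)
  rw [norm_mul, norm_mul, Complex.norm_conj]
  refine mul_le_of_le_one_left (norm_nonneg _) ?_
  exact mul_le_one₀ (h₁ h) (norm_nonneg _) (h₂ h')

/-- replacing both factors by their approximations -/
theorem err_le {e T₁ T₂ M₁ M₂ : ℂ} {Y d : ℝ} (he : ‖e‖ = 1) (h₁ : ‖T₁‖ ≤ Y) (h₂ : ‖T₂‖ ≤ Y)
    (d₁ : ‖T₁ - M₁‖ ≤ d) (d₂ : ‖T₂ - M₂‖ ≤ d) :
    ‖e * T₂ * conj T₁ - e * M₂ * conj M₁‖ ≤ Y * d + d * (Y + d) := by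
  have e1 : e * T₂ * conj T₁ - e * M₂ * conj M₁
      = e * (T₂ * conj (T₁ - M₁) + (T₂ - M₂) * conj M₁) := by
    rw [map_sub]; ring
  have h3 : ‖M₁‖ ≤ Y + d := by
    have : M₁ = T₁ - (T₁ - M₁) := by ring
    rw [this]
    exact (norm_sub_le _ _).trans (add_le_add h₁ d₁)
  have hY : 0 ≤ Y := (norm_nonneg _).trans h₁
  have hd : 0 ≤ d := (norm_nonneg _).trans d₁
  rw [e1, norm_mul, he, one_mul]
  refine (norm_add_le _ _).trans ?_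
  rw [norm_mul, norm_mul, Complex.norm_conj, Complex.norm_conj]
  gcongr

theorem one_le_Lx_sq {X : ℕ} (hX : 2 ≤ X) : 1 ≤ Lx X ^ 2 := by
  rw [Lx_sq, lg]
  have h1 : Real.log 2 ≤ Real.log X := Real.log_le_log two_pos (by exact_mod_cast hX)
  have h2 := Real.log_two_gt_d9
  linarith

theorem tt_pos {X : ℕ} (hX : 1 ≤ X) (η : ℝ) : 0 < tt X η := by
  have : (0 : ℝ) < X := by exact_mod_cast hX
  unfold tt
  positivity

theorem HQ_pos {X Q : ℕ} (hX : 1 ≤ X) (hQ : 1 ≤ Q) (η : ℝ) : 0 < HQ X Q η := by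
  have h1 : (0 : ℝ) < X := by exact_mod_cast hX
  have h2 : (0 : ℝ) < Q := by exact_mod_cast hQ
  have h3 := tt_pos hX η
  unfold HQ
  positivity

/-- the theta transformation for one factor -/
theorem dec (hTH : St_TH) {X q v r : ℕ} (b₁ : ℤ) (η H : ℝ) (hX : 2 ≤ X) (hq : 1 ≤ q) (hqX : q ≤ X)
    (hr : 1 ≤ r) (hH : H = HQ X (q * (r / Nat.gcd v r)) (v * η / q)) (hL : (Lx X * H) ^ 2 ≤ q)
    (b : ℕ) :
    ‖TT X (v * ((b + (b₁ / r + η)) / q)) - pf X (v * η / q) / (q * (r / Nat.gcd v r) : ℕ) *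
      ∑ h ∈ box ⌊Lx X * H⌋₊, GG (((v / Nat.gcd v r : ℕ) : ℤ) * (b * r + b₁)) h
        (q * (r / Nat.gcd v r)) * ((ga H h : ℝ) *
          ee (-(xi X (q * (r / Nat.gcd v r)) (v * η / q) * (h : ℝ) ^ 2)))‖
      ≤ 16 / (X : ℝ) ^ 10 := by
  have hg : 0 < Nat.gcd v r := Nat.gcd_pos_of_pos_right _ hr
  obtain ⟨u, hu⟩ := Nat.gcd_dvd_left v r
  obtain ⟨s, hs⟩ := Nat.gcd_dvd_right v r
  generalize Nat.gcd v r = g at *
  have e1 : v / g = u := by rw [hu, Nat.mul_div_cancel_left _ hg]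
  have e2 : r / g = s := by rw [hs, Nat.mul_div_cancel_left _ hg]
  rw [e1, e2]
  rw [e2] at hH
  have hs1 : 1 ≤ s := Nat.pos_of_ne_zero fun h => by rw [h, mul_zero] at hs; omega
  have hq' : (0 : ℝ) < q := by exact_mod_cast hq
  have hg' : (0 : ℝ) < g := by exact_mod_cast hg
  have hs' : (0 : ℝ) < s := by exact_mod_cast hs1
  have hX' : (0 : ℝ) < X := by exact_mod_cast (by omega : 0 < X)
  have e3 : (v : ℝ) * ((b + (b₁ / r + η)) / q)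
      = (((u : ℤ) * (b * r + b₁) : ℤ) : ℝ) / (q * s : ℕ) + v * η / q := by
    push_cast
    rw [hu, hs]
    push_cast
    field_simp
    ring
  have h1 := hTH.2 X (q * s) ⌊Lx X * H⌋₊ ((u : ℤ) * (b * r + b₁)) (v * η / q) (by omega)
    (Nat.mul_pos hq hs1) (by rw [← hH]; exact (Nat.lt_floor_add_one _).le)
  rw [← hH] at h1
  rw [e3]
  simp only [← mul_assoc]
  refine h1.trans ?_
  have h2 : H ^ 2 ≤ X := by
    have h3 := one_le_Lx_sq hX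
    have h4 : (q : ℝ) ≤ X := by exact_mod_cast hqX
    rw [mul_pow] at hL
    nlinarith [sq_nonneg H]
  have h5 : (1 : ℝ) ≤ X := by exact_mod_cast (by omega : 1 ≤ X)
  rw [div_le_div_iff₀ (by positivity) (by positivity), pow_succ (X : ℝ) 10]
  have h6 : (0 : ℝ) < (X : ℝ) ^ 10 := by positivity
  nlinarith

/-- the size of the factor in front of the dual sum -/
theorem pf_norm (hTH : St_TH) {X Q : ℕ} (hX : 1 ≤ X) (hQ : 1 ≤ Q) (η : ℝ) :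
    ‖pf X η / (Q : ℂ)‖ = √(√(X : ℝ)) / (√(Q : ℝ) * √(HQ X Q η)) := by
  have h1 : (0 : ℝ) < X := by exact_mod_cast hX
  have h2 : (0 : ℝ) < Q := by exact_mod_cast hQ
  have h3 := tt_pos hX η
  have h4 := HQ_pos hX hQ η
  have h5 := hTH.1 X η hX
  rw [← sq_eq_sq₀ (norm_nonneg _) (by positivity), norm_div, div_pow, h5, Complex.norm_natCast,
    div_pow, mul_pow, Real.sq_sqrt (Real.sqrt_nonneg _), Real.sq_sqrt h2.le, Real.sq_sqrt h4.le, HQ]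
  have h6 : 0 < √(tt X η) := Real.sqrt_pos.2 h3
  have h7 : 0 < √(X : ℝ) := Real.sqrt_pos.2 h1
  field_simp

theorem err_num {X : ℕ} (hX : 2 ≤ X) :
    2 * √(X : ℝ) * (16 / (X : ℝ) ^ 10) + 16 / (X : ℝ) ^ 10 * (2 * √(X : ℝ) + 16 / (X : ℝ) ^ 10)
      ≤ 1 := by
  have h1 : (2 : ℝ) ≤ X := by exact_mod_cast hX
  have h2 : √(X : ℝ) ≤ X := Real.sqrt_le_self_iff.2 (Or.inr (by linarith))
  have h3 : (512 : ℝ) ≤ (X : ℝ) ^ 9 := by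
    have := pow_le_pow_left₀ (by norm_num) h1 9
    norm_num at this
    exact this
  have h4 : X * (16 / (X : ℝ) ^ 10) ≤ 1 / 32 := by
    rw [pow_succ (X : ℝ) 9, mul_div_assoc', div_le_div_iff₀ (by positivity) (by norm_num)]
    nlinarith
  have h5 : 0 ≤ 16 / (X : ℝ) ^ 10 := by positivity
  have h6 : √(X : ℝ) * (16 / (X : ℝ) ^ 10) ≤ 1 / 32 :=
    (mul_le_mul_of_nonneg_right h2 h5).trans h4
  have h7 : 16 / (X : ℝ) ^ 10 ≤ 1 / 32 := by nlinarith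
  nlinarith

theorem not_dvd_of_lt {q u : ℕ} (h0 : 0 < u) (h : u < q) : ¬ (q : ℤ) ∣ (u : ℤ) := fun h1 =>
  absurd (Nat.le_of_dvd h0 (Int.natCast_dvd_natCast.1 h1)) (by omega)

theorem coef_ne {q : ℕ} [hq : Fact q.Prime] (h2 : q ≠ 2) {u : ℤ} {s : ℕ} (hu : ¬ (q : ℤ) ∣ u)
    (hs : ¬ q ∣ s) : (4 * (u : ZMod q) * (s : ZMod q))⁻¹ ≠ 0 := by
  refine inv_ne_zero (mul_ne_zero (mul_ne_zero ?_ ?_) ?_)
  · have h3 : ((2 : ℕ) : ZMod q) ≠ 0 := fun h =>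
      h2 ((Nat.prime_dvd_prime_iff_eq hq.out Nat.prime_two).1 ((ZMod.natCast_eq_zero_iff 2 q).1 h))
    have h4 : (4 : ZMod q) = ((2 : ℕ) : ZMod q) * ((2 : ℕ) : ZMod q) := by push_cast; norm_num
    rw [h4]
    exact mul_ne_zero h3 h3
  · exact fun h => hu ((ZMod.intCast_zmod_eq_zero_iff_dvd u q).1 h)
  · exact fun h => hs ((ZMod.natCast_eq_zero_iff s q).1 h)

theorem cop {v r : ℕ} {b₁ : ℤ} (hr : 1 ≤ r) (h : IsCoprime b₁ (r : ℤ)) :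
    IsCoprime (((v / Nat.gcd v r : ℕ) : ℤ) * b₁) ((r / Nat.gcd v r : ℕ) : ℤ) := by
  refine IsCoprime.mul_left ?_ (h.of_isCoprime_of_dvd_right ?_)
  · exact Nat.isCoprime_iff_coprime.2
      (Nat.coprime_div_gcd_div_gcd (Nat.gcd_pos_of_pos_right _ hr))
  · exact Int.natCast_dvd_natCast.2 (Nat.div_dvd_of_dvd (Nat.gcd_dvd_right v r))

theorem floor_sq {y : ℝ} {q : ℕ} (hy : 0 ≤ y) (h : y ^ 2 ≤ q) : ⌊y⌋₊ ^ 2 ≤ q := by
  have h1 : ((⌊y⌋₊ : ℕ) : ℝ) ^ 2 ≤ y ^ 2 := pow_le_pow_left₀ (by positivity) (Nat.floor_le hy) 2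
  exact_mod_cast h1.trans h

end EB

theorem blk_EB (hTH : St_TH) (hEB1 : St_EB1) (hKLAV : St_KLAV) (hGT : St_GT) : St_EB := by
  intro ε hε
  obtain ⟨C, hC, hK⟩ := hKLAV ε hε
  refine ⟨4 * C, by positivity, ?_⟩
  intro X q a v₁ v₂ r b₁ η H₁ H₂ hX hq hq2 hqX ha hr hb hv₁ hv₂ hne hl₁ hl₂ hH₁ hH₂ hL₁ hL₂
  have : Fact q.Prime := ⟨hq⟩
  have hr1 : 1 ≤ r := Nat.pos_of_ne_zero fun h => hr (h ▸ dvd_zero q)
  have hq1 : 1 ≤ q := hq.pos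
  have hX1 : 1 ≤ X := by omega
  have hq' : (0 : ℝ) < q := by exact_mod_cast hq1
  have d₁ := EB.dec hTH b₁ η H₁ hX hq1 hqX hr1 hH₁ hL₁
  have d₂ := EB.dec hTH b₁ η H₂ hX hq1 hqX hr1 hH₂ hL₂
  have c₁ : IsCoprime _ _ := EB.cop (v := v₁) hr1 hb
  have c₂ : IsCoprime _ _ := EB.cop (v := v₂) hr1 hb
  have g₁ : 0 < v₁ / Nat.gcd v₁ r :=
    Nat.div_pos (Nat.gcd_le_left _ hv₁.pos) (Nat.gcd_pos_of_pos_right _ hr1)
  have g₂ : 0 < v₂ / Nat.gcd v₂ r :=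
    Nat.div_pos (Nat.gcd_le_left _ hv₂.pos) (Nat.gcd_pos_of_pos_right _ hr1)
  have n₁ := EB.not_dvd_of_lt g₁ ((Nat.div_le_self _ _).trans_lt hl₁)
  have n₂ := EB.not_dvd_of_lt g₂ ((Nat.div_le_self _ _).trans_lt hl₂)
  have s₁ : r / Nat.gcd v₁ r ∣ r := Nat.div_dvd_of_dvd (Nat.gcd_dvd_right _ _)
  have s₂ : r / Nat.gcd v₂ r ∣ r := Nat.div_dvd_of_dvd (Nat.gcd_dvd_right _ _)
  generalize r / Nat.gcd v₁ r = r₁ at *
  generalize r / Nat.gcd v₂ r = r₂ at *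
  generalize ((v₁ / Nat.gcd v₁ r : ℕ) : ℤ) = u₁ at *
  generalize ((v₂ / Nat.gcd v₂ r : ℕ) : ℤ) = u₂ at *
  have p₁ : 1 ≤ r₁ := Nat.pos_of_dvd_of_pos s₁ hr1
  have p₂ : 1 ≤ r₂ := Nat.pos_of_dvd_of_pos s₂ hr1
  have Q₁ : 1 ≤ q * r₁ := Nat.mul_pos hq1 p₁
  have Q₂ : 1 ≤ q * r₂ := Nat.mul_pos hq1 p₂
  have H₁p : 0 < H₁ := hH₁ ▸ EB.HQ_pos hX1 Q₁ _
  have H₂p : 0 < H₂ := hH₂ ▸ EB.HQ_pos hX1 Q₂ _
  have L₁ : 0 ≤ Lx X * H₁ := mul_nonneg (Lx_nonneg X) H₁p.le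
  have L₂ : 0 ≤ Lx X * H₂ := mul_nonneg (Lx_nonneg X) H₂p.le
  have f₁ := EB.pf_norm hTH hX1 Q₁ (v₁ * η / q)
  have f₂ := EB.pf_norm hTH hX1 Q₂ (v₂ * η / q)
  rw [← hH₁] at f₁
  rw [← hH₂] at f₂
  set c : ℤ := (a : ℤ) * ((v₂ : ℤ) - v₁) with hc
  have hc0 : ¬ (q : ℤ) ∣ c := by
    intro h
    rcases (Nat.prime_iff_prime_int.1 hq).dvd_or_dvd h with h | h
    · exact ha (Int.natCast_dvd_natCast.1 h)
    · have := Int.eq_zero_of_abs_lt_dvd h (by rw [abs_lt]; constructor <;> omega)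
      omega
  have hc1 : -((c : ZMod q) * (r : ZMod q)⁻¹) ≠ 0 :=
    neg_ne_zero.2 (mul_ne_zero (fun h => hc0 ((ZMod.intCast_zmod_eq_zero_iff_dvd c q).1 h))
      (inv_ne_zero fun h => hr ((ZMod.natCast_eq_zero_iff r q).1 h)))
  have k := hK q _ _ _ ⌊Lx X * H₁⌋₊ ⌊Lx X * H₂⌋₊ hc1
    (EB.coef_ne hq2 n₁ fun h => hr (h.trans s₁))
    (neg_ne_zero.2 (EB.coef_ne hq2 n₂ fun h => hr (h.trans s₂)))
    (EB.floor_sq L₁ hL₁) (EB.floor_sq L₂ hL₂)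
  have hw : ∀ (H x : ℝ) (h : ℤ), ‖((ga H h : ℝ) : ℂ) * ee x‖ ≤ 1 := fun H x h => by
    rw [norm_mul, maj_ee_norm, mul_one, Complex.norm_real, Real.norm_of_nonneg (ga_pos _ _).le]
    exact ga_le_one _ _
  have m := EB.main_le (nb q r b₁) (box ⌊Lx X * H₁⌋₊) (box ⌊Lx X * H₂⌋₊)
    (fun b : ℕ => ee (-((c : ℝ) * b / q)))
    (fun (b : ℕ) h => GG (u₁ * (b * r + b₁)) h (q * r₁))
    (fun (b : ℕ) h => GG (u₂ * (b * r + b₁)) h (q * r₂))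
    (fun h => ((ga H₁ h : ℝ) : ℂ) * ee (-(xi X (q * r₁) (v₁ * η / q) * (h : ℝ) ^ 2)))
    (fun h => ((ga H₂ h : ℝ) : ℂ) * ee (-(xi X (q * r₂) (v₂ * η / q) * (h : ℝ) ^ 2)))
    (pf X (v₁ * η / q) / (q * r₁ : ℕ)) (pf X (v₂ * η / q) / (q * r₂ : ℕ))
    (fun h => hw _ _ h) (fun h => hw _ _ h)
  have m2 := sum_le_sum (s := box ⌊Lx X * H₁⌋₊) fun h₁ _ =>
    sum_le_sum (s := box ⌊Lx X * H₂⌋₊) fun h₂ _ =>
      hEB1 q r r₁ r₂ b₁ c u₁ u₂ h₁ h₂ hq2 hr s₁ s₂ n₁ n₂ c₁ c₂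
  simp only [← mul_sum] at m2
  have m3 := m.trans (mul_le_mul_of_nonneg_left
    (m2.trans (mul_le_mul_of_nonneg_left k (by positivity))) (by positivity))
  have er := sum_le_sum (s := nb q r b₁) fun b _ =>
    EB.err_le (maj_ee_norm (-((c : ℝ) * b / q))) (hGT.2.2.2.2.2.2.1 X _ hX1)
      (hGT.2.2.2.2.2.2.1 X _ hX1) (d₁ b) (d₂ b)
  have er2 := (norm_sum_le _ _).trans er
  rw [sum_sub_distrib, sum_const, nsmul_eq_mul] at er2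
  have cd : ((nb q r b₁).card : ℝ) ≤ q := by
    have : (nb q r b₁).card ≤ q := (card_filter_le _ _).trans (card_range q).le
    exact_mod_cast this
  have er3 := er2.trans (mul_le_mul cd (EB.err_num hX) (by positivity) hq'.le)
  have e0 : ET X q a v₁ v₂ r b₁ η = ee (-((c : ℝ) * (b₁ / r + η) / q)) *
      (∑ b ∈ nb q r b₁, ee (-((c : ℝ) * b / q)) * TT X (v₂ * ((b + (b₁ / r + η)) / q)) *
        conj (TT X (v₁ * ((b + (b₁ / r + η)) / q)))) / q := by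
    rw [ET, mul_sum]
    refine congrArg (· / (q : ℂ)) (sum_congr rfl fun b _ => ?_)
    rw [← mul_assoc, ← mul_assoc, ← maj_ee_add]
    refine congrArg (fun t => ee t * _ * _) ?_
    rw [hc]
    push_cast
    ring
  have tot := (norm_le_norm_add_norm_sub' _ _).trans (add_le_add m3 er3)
  rw [e0, norm_div, norm_mul, maj_ee_norm, one_mul, Complex.norm_natCast, div_le_iff₀ hq']
  refine tot.trans ?_
  rw [f₁, f₂, add_mul _ (1 : ℝ) (q : ℝ), one_mul, mul_one]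
  refine add_le_add ?_ le_rfl
  have N₁ : (⌊Lx X * H₁⌋₊ : ℝ) + 1 ≤ 1 + Lx X * H₁ := by linarith [Nat.floor_le L₁]
  have N₂ : (⌊Lx X * H₂⌋₊ : ℝ) + 1 ≤ 1 + Lx X * H₂ := by linarith [Nat.floor_le L₂]
  have N₃ : (((⌊Lx X * H₁⌋₊ : ℝ) + 1) * ((⌊Lx X * H₂⌋₊ : ℝ) + 1)) ^ (3 / 4 : ℝ)
      ≤ (1 + Lx X * H₁) ^ (3 / 4 : ℝ) * (1 + Lx X * H₂) ^ (3 / 4 : ℝ) := by
    rw [← Real.mul_rpow (by positivity) (by positivity)]
    gcongr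
  have r₁p : (0 : ℝ) < r₁ := by exact_mod_cast p₁
  have r₂p : (0 : ℝ) < r₂ := by exact_mod_cast p₂
  have e5 : √(√(X : ℝ)) / (√((q * r₁ : ℕ) : ℝ) * √H₁) * (√(√(X : ℝ)) / (√((q * r₂ : ℕ) : ℝ) * √H₂))
      * (4 * q * √((r₁ : ℝ) * r₂)) = 4 * √(X : ℝ) / (√H₁ * √H₂) := by
    have a1 : 0 < √(q : ℝ) := Real.sqrt_pos.2 hq'
    have a2 : 0 < √(r₁ : ℝ) := Real.sqrt_pos.2 r₁p
    have a3 : 0 < √(r₂ : ℝ) := Real.sqrt_pos.2 r₂p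
    have a4 : 0 < √H₁ := Real.sqrt_pos.2 H₁p
    have a5 : 0 < √H₂ := Real.sqrt_pos.2 H₂p
    have a6 : √(√(X : ℝ)) ^ 2 = √(X : ℝ) := Real.sq_sqrt (Real.sqrt_nonneg _)
    have a7 : √(q : ℝ) ^ 2 = q := Real.sq_sqrt hq'.le
    push_cast
    rw [Real.sqrt_mul hq'.le, Real.sqrt_mul hq'.le, Real.sqrt_mul r₁p.le]
    generalize √(√(X : ℝ)) = y at *
    generalize √(q : ℝ) = z at *
    rw [← a6, ← a7]
    field_simp
  rw [← mul_assoc, e5]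
  refine (mul_le_mul_of_nonneg_left (mul_le_mul_of_nonneg_left N₃ (by positivity))
    (by positivity)).trans (le_of_eq ?_)
  unfold fH
  field_simp

end Pool.Agent.Lib.APQ
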