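import Pool.Agent.Lib.APQ.Kit

/-!
The sum over residues of a product of two Gauss sums is a Kloosterman sum.
-/

namespace Pool.Agent.Lib.APQ

open Finset Real Complex Filter Pool.Agent.Lib.PS
open scoped NumberTheorySymbols ArithmeticFunction.Moebius Classical ComplexConjugate

namespace EB1

theorem split (hGS : St_GS) (q : ℕ) [Fact q.Prime] (r s : ℕ) (b₁ u h b : ℤ) (h2 : q ≠ 2)
    (hr : ¬ q ∣ r) (hs : s ∣ r) (hu : ¬ (q : ℤ) ∣ u) (hb : ¬ (q : ℤ) ∣ b * r + b₁) :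
    GG (u * (b * r + b₁)) h (q * s) =
      ((quadraticChar (ZMod q) ((b : ZMod q) * r + b₁) : ℤ) : ℂ) *
        (((quadraticChar (ZMod q) ((u : ZMod q) * s) : ℤ) : ℂ) * GG 1 0 q * GG (u * b₁ * q) h s) *
        ZMod.stdAddChar (-((4 * (u : ZMod q) * s)⁻¹ * (h : ZMod q) ^ 2) *
          ((b : ZMod q) * r + b₁)⁻¹) := by
  have hp : q.Prime := Fact.out
  have hs' : ¬ q ∣ s := fun h => hr (h.trans hs)
  have hs0 : 1 ≤ s := Nat.pos_of_ne_zero fun h => hs' (h ▸ dvd_zero q)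
  have hpz : Prime (q : ℤ) := Nat.prime_iff_prime_int.1 hp
  have h3 : ¬ (q : ℤ) ∣ u * (b * r + b₁) * s := fun h =>
    (hpz.dvd_or_dvd h).elim (fun h => (hpz.dvd_or_dvd h).elim hu hb)
      fun h => hs' (Int.natCast_dvd_natCast.1 h)
  have h4 : (s : ℤ) ∣ u * (b * r + b₁) * q - u * b₁ * q := by
    rw [show u * (b * r + b₁) * q - u * b₁ * q = r * (u * b * q) by ring]
    exact (Int.natCast_dvd_natCast.2 hs).mul_right _
  rw [hGS.1 _ h q s hp.one_le hs0 ((Nat.Prime.coprime_iff_not_dvd hp).2 hs'),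
    hGS.2.1 q _ h h2 h3, hGS.2.2.2 _ _ h s h4]
  push_cast
  rw [show (u : ZMod q) * (b * r + b₁) * s = (b * r + b₁) * (u * s) by ring, map_mul,
    show -((h : ZMod q) ^ 2 * (4 * (((b : ZMod q) * r + b₁) * (u * s)))⁻¹) =
      -((4 * (u : ZMod q) * s)⁻¹ * (h : ZMod q) ^ 2) * ((b : ZMod q) * r + b₁)⁻¹ by
      simp only [mul_inv]; ring]
  push_cast
  ring

theorem bound (hGS : St_GS) (q : ℕ) [Fact q.Prime] (r s : ℕ) (A h : ℤ) (x : ZMod q)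
    (hr : ¬ q ∣ r) (hs : s ∣ r) (hA : IsCoprime A (s : ℤ)) :
    ‖((quadraticChar (ZMod q) x : ℤ) : ℂ) * GG 1 0 q * GG (A * q) h s‖ ≤
      √(2 * (q : ℝ)) * √(2 * (s : ℝ)) := by
  have hp : q.Prime := Fact.out
  have hs' : ¬ q ∣ s := fun h => hr (h.trans hs)
  have hs0 : 1 ≤ s := Nat.pos_of_ne_zero fun h => hs' (h ▸ dvd_zero q)
  have h1 : ‖((quadraticChar (ZMod q) x : ℤ) : ℂ)‖ ≤ 1 := by
    rcases quadraticChar_isQuadratic (ZMod q) x with h | h | h <;> simp [h]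
  have h2 := hGS.2.2.1 1 0 q hp.one_le isCoprime_one_left
  have h3 := hGS.2.2.1 (A * q) h s hs0 (hA.mul_left
    (Nat.isCoprime_iff_coprime.2 ((Nat.Prime.coprime_iff_not_dvd hp).2 hs')))
  rw [norm_mul, norm_mul]
  refine mul_le_mul ?_ h3 (norm_nonneg _) (Real.sqrt_nonneg _)
  exact (mul_le_of_le_one_left (norm_nonneg _) h1).trans h2

theorem shift (q : ℕ) [Fact q.Prime] (r : ℕ) (b₁ : ℤ) (hr : ¬ q ∣ r) (u v : ZMod q) :
    ∑ b ∈ nb q r b₁, ZMod.stdAddChar (u * (((b : ℕ) : ZMod q) * (r : ZMod q) + (b₁ : ZMod q)) +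
      v * (((b : ℕ) : ZMod q) * (r : ZMod q) + (b₁ : ZMod q))⁻¹) = Kl q u v := by
  have h0 : (r : ZMod q) ≠ 0 := fun h => hr ((ZMod.natCast_eq_zero_iff r q).1 h)
  unfold nb Kl
  rw [Finset.sum_filter, ← Equiv.sum_comp ((Equiv.mulRight₀ (r : ZMod q) h0).trans
    (Equiv.addRight (b₁ : ZMod q))), ← gau_sum_zmod q]
  refine Finset.sum_congr rfl fun b _ => ?_
  have h1 : (q : ℤ) ∣ (b : ℤ) * r + b₁ ↔ (b : ZMod q) * r + b₁ = 0 := by
    rw [← ZMod.intCast_zmod_eq_zero_iff_dvd]; push_cast; rfl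
  simp only [h1, ite_not, Equiv.trans_apply, Equiv.mulRight₀_apply, Equiv.coe_addRight]

end EB1

theorem blk_EB1 (hGS : St_GS) : St_EB1 := by
  intro q _ r r₁ r₂ b₁ c u₁ u₂ h₁ h₂ h2 hr k1 k2 n1 n2 c1 c2
  have h0 : (r : ZMod q) ≠ 0 := fun h => hr ((ZMod.natCast_eq_zero_iff r q).1 h)
  have e1 := EB1.bound hGS q r r₁ _ h₁ ((u₁ : ZMod q) * r₁) hr k1 c1
  have e2 := EB1.bound hGS q r r₂ _ h₂ ((u₂ : ZMod q) * r₂) hr k2 c2
  set K₁ := ((quadraticChar (ZMod q) ((u₁ : ZMod q) * r₁) : ℤ) : ℂ) * GG 1 0 q *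
    GG (u₁ * b₁ * q) h₁ r₁ with hK₁
  set K₂ := ((quadraticChar (ZMod q) ((u₂ : ZMod q) * r₂) : ℤ) : ℂ) * GG 1 0 q *
    GG (u₂ * b₁ * q) h₂ r₂ with hK₂
  rw [← EB1.shift q r b₁ hr]
  rw [Finset.sum_congr rfl (g := fun b : ℕ => K₂ * conj K₁ *
    ZMod.stdAddChar (((c : ZMod q) * (r : ZMod q)⁻¹ * b₁ : ZMod q)) *
    ZMod.stdAddChar ((-((c : ZMod q) * (r : ZMod q)⁻¹) * ((b : ZMod q) * r + b₁) +
      ((4 * (u₁ : ZMod q) * r₁)⁻¹ * (h₁ : ZMod q) ^ 2 +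
        -(4 * (u₂ : ZMod q) * r₂)⁻¹ * (h₂ : ZMod q) ^ 2) * ((b : ZMod q) * r + b₁)⁻¹ : ZMod q))),
    ← Finset.mul_sum, norm_mul, norm_mul, norm_mul, Complex.norm_conj]
  · refine mul_le_mul_of_nonneg_right ?_ (norm_nonneg _)
    rw [ZMod.stdAddChar_apply, Circle.norm_coe, mul_one]
    refine (mul_le_mul e2 e1 (norm_nonneg _) (by positivity)).trans (le_of_eq ?_)
    rw [mul_mul_mul_comm, Real.mul_self_sqrt (by positivity), ← Real.sqrt_mul (by positivity),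
      show 2 * (r₂ : ℝ) * (2 * r₁) = 2 ^ 2 * (r₁ * r₂) by ring, Real.sqrt_mul (by positivity),
      Real.sqrt_sq (by norm_num)]
    ring
  · intro b hb
    have hb' : ¬ (q : ℤ) ∣ (b : ℤ) * r + b₁ := (Finset.mem_filter.1 hb).2
    have hA : (b : ZMod q) * r + b₁ ≠ 0 := fun h => hb' (by
      rw [← ZMod.intCast_zmod_eq_zero_iff_dvd]; push_cast; exact h)
    have hx : ((quadraticChar (ZMod q) ((b : ZMod q) * r + b₁) : ℤ) : ℂ) ^ 2 = 1 := by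
      exact_mod_cast quadraticChar_sq_one hA
    have he : ee (-((c : ℝ) * b / q)) = ZMod.stdAddChar (-((c : ZMod q) * (b : ZMod q))) := by
      have := gau_ee_eq q (-(c * b))
      push_cast at this
      rw [← this, neg_div]
    rw [EB1.split hGS q r r₂ b₁ u₂ h₂ b h2 hr k2 n2 hb',
      EB1.split hGS q r r₁ b₁ u₁ h₁ b h2 hr k1 n1 hb', ← hK₁, ← hK₂, he, map_mul (starRingEnd ℂ),
      map_mul (starRingEnd ℂ), map_intCast (starRingEnd ℂ),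
      ← AddChar.map_neg_eq_conj, Int.cast_natCast, mul_assoc (K₂ * conj K₁),
      ← AddChar.map_add_eq_mul]
    rw [show (c : ZMod q) * (r : ZMod q)⁻¹ * b₁ + (-((c : ZMod q) * (r : ZMod q)⁻¹) *
      ((b : ZMod q) * r + b₁) + ((4 * (u₁ : ZMod q) * r₁)⁻¹ * (h₁ : ZMod q) ^ 2 +
        -(4 * (u₂ : ZMod q) * r₂)⁻¹ * (h₂ : ZMod q) ^ 2) * ((b : ZMod q) * r + b₁)⁻¹) =
      -((c : ZMod q) * b) + (-((4 * (u₂ : ZMod q) * r₂)⁻¹ * (h₂ : ZMod q) ^ 2) *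
        ((b : ZMod q) * r + b₁)⁻¹ + -(-((4 * (u₁ : ZMod q) * r₁)⁻¹ * (h₁ : ZMod q) ^ 2) *
        ((b : ZMod q) * r + b₁)⁻¹)) by
      linear_combination (-((c : ZMod q) * b)) * mul_inv_cancel₀ h0,
      AddChar.map_add_eq_mul, AddChar.map_add_eq_mul]
    linear_combination (K₂ * conj K₁ * ZMod.stdAddChar (-((c : ZMod q) * (b : ZMod q))) *
      ZMod.stdAddChar ((-((4 * (u₂ : ZMod q) * r₂)⁻¹ * (h₂ : ZMod q) ^ 2) *
        ((b : ZMod q) * r + b₁)⁻¹ : ZMod q)) *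
      ZMod.stdAddChar ((-(-((4 * (u₁ : ZMod q) * r₁)⁻¹ * (h₁ : ZMod q) ^ 2) *
        ((b : ZMod q) * r + b₁)⁻¹) : ZMod q))) * hx

end Pool.Agent.Lib.APQ
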