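import Pool.Agent.Lib.APQ.Kit

/-!
Additive energy of squares modulo `q`.
-/

namespace Pool.Agent.Lib.APQ

open Finset Real Complex Filter Pool.Agent.Lib.PS
open scoped NumberTheorySymbols ArithmeticFunction.Moebius Classical ComplexConjugate

namespace EN

/-- representations as a difference of two squares -/
noncomputable def fib (N : ℕ) (n : ℤ) : Finset (ℤ × ℤ) :=
  (box N ×ˢ box N).filter fun h => h.1 ^ 2 - h.2 ^ 2 = n

theorem fib_zero (N : ℕ) : (fib N 0).card ≤ 2 * (2 * N + 1) := by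
  have h : fib N 0 ⊆ (box N).image (fun m => (m, m)) ∪ (box N).image fun m => (m, -m) := by
    rintro ⟨a, b⟩ h
    simp only [fib, mem_filter, mem_product, sub_eq_zero] at h
    rcases sq_eq_sq_iff_eq_or_eq_neg.1 h.2.symm with rfl | rfl
    · exact mem_union_left _ (mem_image_of_mem _ h.1.1)
    · exact mem_union_right _ (mem_image_of_mem _ h.1.1)
  have h1 := (card_le_card h).trans (card_union_le _ _)
  have h2 := card_image_le (s := box N) (f := fun m => (m, m))
  have h3 := card_image_le (s := box N) (f := fun m => (m, -m))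
  rw [card_box] at h2 h3
  omega

theorem fib_ne (N : ℕ) {n : ℤ} (hn : n ≠ 0) : (fib N n).card ≤ 2 * n.natAbs.divisors.card := by
  have h := card_le_card_of_injOn (s := fib N n) (t := (univ : Finset Bool) ×ˢ n.natAbs.divisors)
    (fun h => (decide (0 ≤ h.1 - h.2), (h.1 - h.2).natAbs)) (fun h hh => by
      simp only [fib, coe_filter, Set.mem_ofPred_eq] at hh
      simp only [coe_product, coe_univ, Set.mem_prod, Set.mem_univ, true_and, mem_coe,
        Nat.mem_divisors, Int.natAbs_dvd_natAbs]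
      exact ⟨⟨h.1 + h.2, by rw [← hh.2]; ring⟩, Int.natAbs_ne_zero.2 hn⟩) (by
      rintro ⟨a, b⟩ h1 ⟨c, d⟩ h2 h3
      simp only [fib, coe_filter, Set.mem_ofPred_eq] at h1 h2
      simp only [Prod.mk.injEq, decide_eq_decide] at h3 ⊢
      have h4 : a - b = c - d := by omega
      have h5 : a - b ≠ 0 := fun h => hn (by rw [← h1.2, sub_eq_zero.1 h, sub_self])
      have h6 : a + b = c + d := mul_left_cancel₀ h5 (by
        rw [show (a - b) * (a + b) = a ^ 2 - b ^ 2 by ring, h4,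
          show (c - d) * (c + d) = c ^ 2 - d ^ 2 by ring, h1.2, h2.2])
      omega)
  simpa using h

theorem fib_abs {N : ℕ} {h : ℤ × ℤ} (hh : h ∈ box N ×ˢ box N) :
    |h.1 ^ 2 - h.2 ^ 2| ≤ (N : ℤ) ^ 2 := by
  rw [mem_product, mem_box, mem_box] at hh
  have h1 := pow_le_pow_left₀ (abs_nonneg _) hh.1 2
  have h2 := pow_le_pow_left₀ (abs_nonneg _) hh.2 2
  rw [sq_abs] at h1 h2
  rw [abs_le]
  constructor <;> nlinarith [sq_nonneg h.1, sq_nonneg h.2]

theorem fib_bd {ε : ℝ} (hε : 0 < ε) : ∃ C : ℝ, 1 ≤ C ∧ ∀ (N : ℕ) (n : ℤ), n ≠ 0 →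
    ((fib N n).card : ℝ) ≤ C * ((N : ℝ) + 1) ^ ε := by
  obtain ⟨C, hC, h⟩ := mom_tau (half_pos hε)
  refine ⟨2 * C, by linarith, fun N n hn => ?_⟩
  rcases (fib N n).eq_empty_or_nonempty with h0 | ⟨x, hx⟩
  · rw [h0, card_empty, Nat.cast_zero]
    positivity
  have h1 : (n.natAbs : ℝ) ≤ ((N : ℝ) + 1) ^ (2 : ℝ) := by
    have h2 := fib_abs (mem_filter.1 hx).1
    rw [(mem_filter.1 hx).2, Int.abs_eq_natAbs] at h2
    have h3 : (n.natAbs : ℝ) ≤ (N : ℝ) ^ 2 := by exact_mod_cast h2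
    rw [Real.rpow_two]
    nlinarith [Nat.cast_nonneg (α := ℝ) N]
  have h2 := Real.rpow_le_rpow (Nat.cast_nonneg _) h1 (half_pos hε).le
  rw [← Real.rpow_mul (by positivity), show 2 * (ε / 2) = ε by ring] at h2
  have h3 : ((fib N n).card : ℝ) ≤ 2 * n.natAbs.divisors.card := by exact_mod_cast fib_ne N hn
  have h4 := h _ (Int.natAbs_ne_zero.2 hn)
  nlinarith [mul_le_mul_of_nonneg_left h2 (zero_le_one.trans hC)]

theorem cls {q N : ℕ} [NeZero q] (hN : N ^ 2 ≤ q) (s : ZMod q) :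
    ((box N ×ˢ box N).filter fun h => (h.1 : ZMod q) ^ 2 - (h.2 : ZMod q) ^ 2 = s).card ≤
      (fib N (s.val - q)).card + (fib N s.val).card + (fib N (s.val + q)).card := by
  refine le_trans (card_le_card (t := fib N (s.val - q) ∪ fib N s.val ∪ fib N (s.val + q))
    fun h hh => ?_) ((card_union_le _ _).trans (Nat.add_le_add_right (card_union_le _ _) _))
  obtain ⟨h1, h2⟩ := mem_filter.1 hh
  have h3 := abs_le.1 (fib_abs h1)
  have h4 : ((N : ℤ)) ^ 2 ≤ q := by exact_mod_cast hN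
  have h5 : (s.val : ℤ) < q := by exact_mod_cast s.val_lt
  have h6 : (0 : ℤ) ≤ s.val := Nat.cast_nonneg _
  obtain ⟨j, hj⟩ : (q : ℤ) ∣ h.1 ^ 2 - h.2 ^ 2 - s.val :=
    (ZMod.intCast_zmod_eq_zero_iff_dvd _ _).1 (by push_cast; rw [h2]; simp)
  have h7 : -2 < j := by nlinarith
  have h8 : j < 2 := by nlinarith
  simp only [fib, mem_union, mem_filter]
  interval_cases j
  · exact Or.inl (Or.inl ⟨h1, by linarith⟩)
  · exact Or.inl (Or.inr ⟨h1, by linarith⟩)
  · exact Or.inr ⟨h1, by linarith⟩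

end EN

theorem blk_EN : St_EN := by
  intro ε hε
  obtain ⟨C, hC, h⟩ := EN.fib_bd hε
  refine ⟨40 * C, by linarith, fun q N _ hN => ?_⟩
  obtain ⟨R, hR⟩ : ∃ R : ZMod q → ℝ, R = fun s => ((((box N ×ˢ box N).filter fun h =>
      (h.1 : ZMod q) ^ 2 - (h.2 : ZMod q) ^ 2 = s).card : ℕ) : ℝ) := ⟨_, rfl⟩
  obtain ⟨T, hT⟩ : ∃ T : ℝ, T = C * ((N : ℝ) + 1) ^ ε := ⟨_, rfl⟩
  have hn : (0 : ℝ) ≤ N := Nat.cast_nonneg N
  have hT1 : 1 ≤ T := hT ▸ one_le_mul_of_one_le_of_one_le hC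
    (Real.one_le_rpow (by linarith) hε.le)
  have hR0 : ∀ s, 0 ≤ R s := fun s => by rw [hR]; exact Nat.cast_nonneg _
  have hsum : ∑ s, R s = (2 * N + 1) ^ 2 := by
    have := card_eq_sum_card_fiberwise (s := box N ×ˢ box N) (t := (univ : Finset (ZMod q)))
      (f := fun h => (h.1 : ZMod q) ^ 2 - (h.2 : ZMod q) ^ 2) fun _ _ => mem_univ _
    rw [card_product, card_box] at this
    rw [hR, ← Nat.cast_sum, ← this]
    push_cast
    ring
  have hq : (0 : ℤ) < q := by exact_mod_cast NeZero.pos q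
  have hb : ∀ s, R s ≤ 3 * T + if s = 0 then 2 * (2 * (N : ℝ) + 1) else 0 := fun s => by
    have h5 : (s.val : ℤ) < q := by exact_mod_cast s.val_lt
    have h6 : (0 : ℤ) ≤ s.val := Nat.cast_nonneg _
    have h1 : R s ≤ (EN.fib N (s.val - q)).card + (EN.fib N s.val).card +
        (EN.fib N (s.val + q)).card := by
      have := (Nat.cast_le (α := ℝ)).2 (EN.cls hN s)
      rw [Nat.cast_add, Nat.cast_add] at this
      rw [hR]
      exact this
    have h2 := h N (s.val - q) (by omega)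
    have h3 := h N (s.val + q) (by omega)
    rw [← hT] at h2 h3
    split_ifs with hs
    · have h4 : ((EN.fib N s.val).card : ℝ) ≤ 2 * (2 * (N : ℝ) + 1) := by
        rw [hs, ZMod.val_zero]
        exact_mod_cast EN.fib_zero N
      linarith
    · have h4 := h N s.val (by exact_mod_cast (ZMod.val_eq_zero s).not.2 hs)
      rw [← hT] at h4
      linarith
  have h1 : ∑ s, R s ^ 2 ≤ 3 * T * (2 * N + 1) ^ 2 + R 0 * (2 * (2 * (N : ℝ) + 1)) := by
    refine (sum_le_sum fun s _ => (pow_two (R s)).le.trans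
      (mul_le_mul_of_nonneg_left (hb s) (hR0 s))).trans (le_of_eq ?_)
    simp only [mul_add, sum_add_distrib, mul_ite, mul_zero, sum_ite_eq', mem_univ, if_true,
      ← sum_mul, hsum]
    ring
  have h2 := hb 0
  rw [if_pos rfl] at h2
  have h3 := mul_le_mul_of_nonneg_right h2 (show 0 ≤ 2 * (2 * (N : ℝ) + 1) by linarith)
  have h4 : 40 * C * ((N : ℝ) + 1) ^ (2 + ε) = 40 * T * (N + 1) ^ 2 := by
    rw [Real.rpow_add (by linarith), Real.rpow_two, hT]
    ring
  rw [h4]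
  refine le_trans (le_of_eq (by rw [hR])) (h1.trans ?_)
  nlinarith [mul_nonneg (sub_nonneg.2 hT1) hn, mul_nonneg (sub_nonneg.2 hT1) (sq_nonneg (N : ℝ)),
    sq_nonneg (N : ℝ)]

end Pool.Agent.Lib.APQ
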