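import Pool.Agent.Lib.APQ.Kit

/-!
The first moment over the largest primes.
-/

namespace Pool.Agent.Lib.APQ

open Finset Real Complex Filter Pool.Agent.Lib.PS
open scoped NumberTheorySymbols ArithmeticFunction.Moebius Classical ComplexConjugate

namespace F1M

theorem cnt {e q : ℕ} (he : 0 < e) (h : IsCoprime (q : ℤ) e) (K : ℕ) (a b : ℤ) :
    |(∑ k ∈ range K, if (e : ℤ) ∣ a + q * k - b then (1 : ℝ) else 0) - K / e| ≤ 1 := by
  obtain ⟨u, v, huv⟩ := id h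
  have he' : (e : ℤ) ≠ 0 := by exact_mod_cast he.ne'
  have h1 : ∀ k : ℕ, (e : ℤ) ∣ a + q * k - b ↔ k ≡ ((b - a) * u % e).toNat [MOD e] := fun k => by
    rw [Nat.modEq_iff_dvd, Int.toNat_of_nonneg (Int.emod_nonneg _ he'), Int.emod_def,
      show a + q * k - b = e * ((a - b) * v) + -(q * ((b - a) * u - k)) by
        linear_combination (b - a) * huv,
      dvd_add_right (dvd_mul_right _ _), dvd_neg, sub_right_comm, dvd_sub_left (dvd_mul_right _ _)]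
    exact ⟨h.symm.dvd_of_dvd_mul_left, fun h2 => h2.mul_left _⟩
  simp only [h1]
  rw [sum_boole, ← Nat.count_eq_card_filter_range, Nat.count_modEq_card K he]
  have h2 : ((K / e : ℕ) : ℝ) ≤ K / e := Nat.cast_div_le
  have h3 : (K : ℝ) / e < (K / e : ℕ) + 1 := by
    rw [← Nat.floor_div_eq_div (K := ℝ)]; exact Nat.lt_floor_add_one _
  rw [abs_le]
  split_ifs <;> push_cast <;> constructor <;> linarith

theorem card_D (D : ℕ) (c : ℝ) : ∑ _e ∈ Icc 1 D, c = D * c := by simp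

theorem nw_eq (Λ : ℕ → ℝ) (D : ℕ) (s : ℤ) :
    nw Λ D s = ∑ e ∈ Icc 1 D, Λ e * if (e : ℤ) ∣ s then 1 else 0 :=
  sum_congr rfl fun e _ => by split_ifs <;> simp

theorem mul_le {x y B : ℝ} (hx : |x| ≤ 1) (hy : |y| ≤ B) : x * y ≤ B := by
  refine (le_abs_self _).trans ?_
  rw [abs_mul]
  exact (mul_le_of_le_one_left (abs_nonneg _) hx).trans hy

theorem sum_nw {Λ : ℕ → ℝ} {D q : ℕ} (hS : Sv Λ D) (hq : q.Prime) (hD : D < q) {c : ℝ}
    (hc : |∑ e ∈ Icc 1 D, Λ e / e| ≤ c) (K : ℕ) (a b : ℤ) :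
    ∑ k ∈ range K, nw Λ D (a + q * k - b) ≤ K * c + D := by
  simp only [nw_eq]
  rw [sum_comm]
  have h1 : ∀ e ∈ Icc 1 D, ∑ k ∈ range K, (Λ e * if (e : ℤ) ∣ a + q * k - b then 1 else 0) ≤
      K * (Λ e / e) + 1 := fun e he => by
    obtain ⟨h1, h2⟩ := mem_Icc.1 he
    have h3 := mul_le (hS.bd e) (cnt h1 (Nat.isCoprime_iff_coprime.2
      (Nat.coprime_of_lt_prime (by omega) (by omega) hq)) K a b)
    rw [← mul_sum]
    have h4 : (K : ℝ) * (Λ e / e) = Λ e * (K / e) := by ring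
    linarith
  refine (sum_le_sum h1).trans ?_
  rw [sum_add_distrib, ← mul_sum, card_D, mul_one]
  have := mul_le_mul_of_nonneg_left ((le_abs_self _).trans hc) (Nat.cast_nonneg (α := ℝ) K)
  linarith

theorem perp (hGT : St_GT) {C : ℝ} (hC0 : 0 < C)
    (hC : ∀ (p f q K N : ℕ) (a : ℤ) (φ₁ φ₂ : ℤ → ℝ) (G : ℕ → ℤ → ℝ), p.Prime →
      ¬ p ∣ f → ¬ p ∣ q → Uni φ₁ 1 → Uni φ₂ 1 → (∀ k m, |G k m| ≤ 1) →
      (∀ k m, G (k + f) m = G k m) → (∀ k m, G k (m + f) = G k m) →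
      |∑ k ∈ range K, ∑ m ∈ box N, φ₁ m * φ₂ m * G k m *
          ((if (p : ℤ) ∣ a + q * k - m ^ 2 then 1 else 0) - 1 / (p : ℝ))|
        ≤ C * (f : ℝ) ^ 2 * √(p : ℝ) * (1 + Real.log p) ^ 2 * (1 + (N : ℝ) / p))
    {X D q p : ℕ} {Λ : ℕ → ℝ} (hX : 1 ≤ X) (hS : Sv Λ D) (hq : q.Prime) (hD : D < q)
    (hp : p.Prime) (hDp : D < p) (hpq : p ≠ q) {c : ℝ} (hc : |∑ e ∈ Icc 1 D, Λ e / e| ≤ c)
    (K : ℕ) (a : ℤ) :
    ∑ k ∈ range K, TA X Λ D (a + q * k) p ≤ 1 / p * (2 * √(X : ℝ) * (K * c + D)) +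
      D * (C * (D : ℝ) ^ 2 * √(p : ℝ) * (1 + Real.log p) ^ 2 * (1 + (M3 X : ℝ) / p)) := by
  have h1 : ∑ k ∈ range K, TA X Λ D (a + q * k) p =
      1 / p * ∑ m ∈ box (M3 X), w X m * ∑ k ∈ range K, nw Λ D (a + q * k - m ^ 2) +
      ∑ e ∈ Icc 1 D, Λ e * ∑ k ∈ range K, ∑ m ∈ box (M3 X), w X m * 1 *
        (if (e : ℤ) ∣ a + q * k - m ^ 2 then 1 else 0) *
        ((if (p : ℤ) ∣ a + q * k - m ^ 2 then 1 else 0) - 1 / (p : ℝ)) := by
    simp only [mul_sum]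
    rw [sum_comm (s := box (M3 X)), sum_comm (s := Icc 1 D), ← sum_add_distrib]
    refine sum_congr rfl fun k _ => ?_
    rw [sum_comm (s := Icc 1 D), ← sum_add_distrib]
    refine sum_congr rfl fun m _ => ?_
    have h2 : ∀ t : ℝ, ∑ e ∈ Icc 1 D, Λ e * (w X m * 1 *
        (if (e : ℤ) ∣ a + q * k - m ^ 2 then 1 else 0) * t) =
        w X m * nw Λ D (a + q * k - m ^ 2) * t := fun t => by
      rw [nw_eq, mul_sum, sum_mul]
      exact sum_congr rfl fun e _ => by ring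
    rw [h2]
    split_ifs <;> ring
  have hc0 : 0 ≤ (K : ℝ) * c + D := by
    have := (abs_nonneg _).trans hc
    positivity
  rw [h1]
  refine add_le_add (mul_le_mul_of_nonneg_left ?_ (by positivity))
    ((sum_le_sum fun e he => ?_).trans (card_D D _).le)
  · refine (sum_le_sum fun m _ => mul_le_mul_of_nonneg_left (sum_nw hS hq hD hc K a (m ^ 2))
      (w_pos X m).le).trans ?_
    rw [← sum_mul]
    exact mul_le_mul_of_nonneg_right (hGT.2.2.2.1 X _ hX) hc0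
  · obtain ⟨h2, h3⟩ := mem_Icc.1 he
    refine mul_le (hS.bd e) ((hC p e q K (M3 X) a (w X) (fun _ => 1)
      (fun k m => if (e : ℤ) ∣ a + q * k - m ^ 2 then 1 else 0) hp
      (Nat.not_dvd_of_pos_of_lt h2 (by omega)) (fun h => hpq ((Nat.prime_dvd_prime_iff_eq hp hq).1 h))
      (hGT.2.2.1 X) uni_one (fun k m => by split_ifs <;> simp) (fun k m => ?_)
      fun k m => ?_).trans ?_)
    · rw [show a + q * ((k + e : ℕ) : ℤ) - m ^ 2 = e * q + (a + q * k - m ^ 2) by push_cast; ring]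
      simp only [dvd_add_right (dvd_mul_right (e : ℤ) _)]
    · rw [show a + q * k - (m + e) ^ 2 = e * (-(2 * m + e)) + (a + q * k - m ^ 2) by ring]
      simp only [dvd_add_right (dvd_mul_right (e : ℤ) _)]
    · gcongr

theorem small {η : ℝ} (hη : 0 < η) : ∀ᶠ X : ℕ in atTop,
    ∑ p ∈ pr (√(X : ℝ) / lg X ^ 14) √(2 * X : ℝ), (1 : ℝ) / p ≤ η := by
  have hb := fun {c : ℝ} (hc : 0 < c) =>
    lg_tendsto.eventually (Real.isLittleO_log_id_atTop.bound hc)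
  filter_upwards [hb (show (0 : ℝ) < 1 / 56 by norm_num), hb (show 0 < η / 112 by positivity),
    ev_lg 4, ev_lg (180 / η), eventually_ge_atTop 1] with X h1 h2 h3 h4 h5
  have hX : (0 : ℝ) < X := by exact_mod_cast h5
  have hl : 0 ≤ Real.log (lg X) := Real.log_nonneg (by linarith)
  rw [id, Real.norm_of_nonneg hl, Real.norm_of_nonneg (lg_nonneg X)] at h1 h2
  rw [div_le_iff₀ hη] at h4
  have hy0 : 0 < √(X : ℝ) / lg X ^ 14 := div_pos (Real.sqrt_pos.2 hX) (by positivity)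
  have hy : Real.log (√(X : ℝ) / lg X ^ 14) = lg X / 2 - 14 * Real.log (lg X) := by
    rw [Real.log_div (Real.sqrt_pos.2 hX).ne' (by positivity), Real.log_sqrt hX.le, Real.log_pow]
    rfl
  have hz : Real.log √(2 * X : ℝ) = (Real.log 2 + lg X) / 2 := by
    rw [Real.log_sqrt (by positivity), Real.log_mul two_ne_zero hX.ne']; rfl
  have h6 := Real.log_two_lt_d9
  have h7 := Real.log_two_gt_d9
  have h8 := Real.log_le_sub_one_of_pos hy0
  have h9 : √(X : ℝ) / lg X ^ 14 ≤ √(2 * X : ℝ) :=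
    (div_le_self (Real.sqrt_nonneg _) (one_le_pow₀ (by linarith))).trans
      (Real.sqrt_le_sqrt (by linarith))
  refine (sum_pr_le (by linarith) h9).trans ?_
  rw [hy, hz]
  have h10 : 0 < lg X / 2 - 14 * Real.log (lg X) := by linarith
  have h11 := Real.log_le_sub_one_of_pos
    (div_pos (show 0 < (Real.log 2 + lg X) / 2 by linarith) h10)
  have h12 : ((Real.log 2 + lg X) / 2 + 22) / (lg X / 2 - 14 * Real.log (lg X)) ≤ 1 + η := by
    rw [div_le_iff₀ h10]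
    nlinarith [mul_le_mul_of_nonneg_left
      (show lg X / 4 ≤ lg X / 2 - 14 * Real.log (lg X) by linarith) hη.le]
  rw [add_div] at h12
  linarith

end F1M

open F1M in
theorem blk_F1M (hPB2 : St_PB2) (hGT : St_GT) : St_F1M := fun C₀ η hη => by
  obtain ⟨C, hC0, hC⟩ := hPB2
  have hA : 0 < 2 * |C₀| + 1 := by positivity
  filter_upwards [small (show 0 < η / (4 * (2 * |C₀| + 1)) by positivity), ev_lg 4,
    eventually_ge_atTop 2, ev_pow 2 14 (show (1 / 25 : ℝ) < 1 / 2 by norm_num),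
    ev_pow 2 0 (show (1 / 25 : ℝ) < 59 / 200 by norm_num),
    ev_pow 1 1 (show (1 / 25 : ℝ) < 1 / 2 - 1 / 1000 by norm_num),
    ev_pow (64 * C / η) 18 (show (37 / 100 : ℝ) < 1 / 2 - 1 / 1000 by norm_num)]
    with X h1 hl hX2 h2 h3 h4 h5 D q a K Λ hR hS hD hc
  have hX : 1 ≤ X := by omega
  have hX' : (2 : ℝ) ≤ X := by exact_mod_cast hX2
  have hX0 : (0 : ℝ) < X := by linarith
  have hD1 : (1 : ℝ) ≤ D := by exact_mod_cast hS.lo
  have hM : 0 < √(X : ℝ) := Real.sqrt_pos.2 hX0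
  have hq := hR.q_pos
  have hQ := hR.div_ge hX
  have hK := hR.K_le hX (by norm_num)
  have hl14 : 0 < lg X ^ 14 := by positivity
  have hDq : D < q := by
    have := hR.lo
    rw [pow_zero] at h3
    exact_mod_cast (show (D : ℝ) < q by linarith)
  have hy : (D : ℝ) ≤ √(X : ℝ) / lg X ^ 14 := by
    rw [le_div_iff₀ hl14, sqrt_eq]
    nlinarith [mul_le_mul_of_nonneg_left hD hl14.le]
  have hz : √(2 * X : ℝ) ≤ 2 * √(X : ℝ) :=
    Real.sqrt_le_iff.2 ⟨by positivity, by rw [mul_pow, Real.sq_sqrt hX0.le]; linarith⟩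
  obtain ⟨B, hB⟩ : ∃ B, B = 2 * √(X : ℝ) * ((2 * |C₀| + 1) * (X / q) / lg X) := ⟨_, rfl⟩
  obtain ⟨E, hE⟩ : ∃ E, E = 16 * C * lg X ^ 17 * (X : ℝ) ^ (37 / 100 : ℝ) := ⟨_, rfl⟩
  have hB0 : 0 ≤ B := by rw [hB]; positivity
  have hE0 : 0 ≤ E := by rw [hE]; positivity
  have h6 : (K : ℝ) * (|C₀| / lg X) + D ≤ (2 * |C₀| + 1) * (X / q) / lg X := by
    have h7 : (D : ℝ) ≤ X / q / lg X := by
      rw [le_div_iff₀ (by linarith)]
      nlinarith [mul_le_mul_of_nonneg_left hD (lg_nonneg X)]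
    have h8 := mul_le_mul_of_nonneg_right hK (show 0 ≤ |C₀| / lg X by positivity)
    calc (K : ℝ) * (|C₀| / lg X) + D ≤ 2 * X / q * (|C₀| / lg X) + X / q / lg X := add_le_add h8 h7
      _ = _ := by ring
  have key : ∀ p ∈ (pr (√(X : ℝ) / lg X ^ 14) √(2 * X : ℝ)).erase q,
      ∑ k ∈ range K, TA X Λ D ((a : ℤ) + q * k) p ≤ 1 / p * B + E := fun p hp => by
    obtain ⟨hpq, hp⟩ := mem_erase.1 hp
    obtain ⟨hp, hp1, hp2⟩ := (mem_pr (by positivity)).1 hp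
    have hp0 : (0 : ℝ) < p := by exact_mod_cast hp.pos
    refine (perp hGT hC0 hC hX hS hR.pr hDq hp (by exact_mod_cast hy.trans_lt hp1) hpq
      (hc.trans (div_le_div_of_nonneg_right (le_abs_self C₀) (lg_nonneg X))) K a).trans
      (add_le_add (by rw [hB]; gcongr) ?_)
    have e1 : √(p : ℝ) ≤ 2 * (X : ℝ) ^ (1 / 4 : ℝ) := by
      refine Real.sqrt_le_iff.2 ⟨by positivity, ?_⟩
      rw [mul_pow, ← Real.rpow_natCast ((X : ℝ) ^ (1 / 4 : ℝ)), ← Real.rpow_mul hX0.le,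
        show (1 / 4 : ℝ) * ((2 : ℕ) : ℝ) = 1 / 2 by norm_num, ← sqrt_eq]
      linarith
    have e2 : 1 + Real.log p ≤ 2 * lg X := by
      have : Real.log p ≤ lg X := Real.log_le_log hp0
        (hp2.trans (Real.sqrt_le_iff.2 ⟨hX0.le, by nlinarith⟩))
      linarith
    have e3 : 1 + (M3 X : ℝ) / p ≤ 2 * lg X ^ 15 := by
      have h7 : (M3 X : ℝ) / p ≤ lg X ^ 15 := by
        rw [div_le_iff₀ hp0]
        rw [div_lt_iff₀ hl14] at hp1
        refine (M3_bounds hl).2.trans ?_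
        nlinarith [mul_le_mul_of_nonneg_left hp1.le (lg_nonneg X)]
      have h8 : 1 ≤ lg X ^ 15 := one_le_pow₀ (by linarith)
      linarith
    have e4 : 0 ≤ 1 + Real.log p := by linarith [Real.log_natCast_nonneg p]
    have e5 : (X : ℝ) ^ (37 / 100 : ℝ) = ((X : ℝ) ^ (1 / 25 : ℝ)) ^ 3 * (X : ℝ) ^ (1 / 4 : ℝ) := by
      rw [← Real.rpow_natCast, ← Real.rpow_mul hX0.le, ← Real.rpow_add hX0]; norm_num
    calc _ ≤ (X : ℝ) ^ (1 / 25 : ℝ) * (C * ((X : ℝ) ^ (1 / 25 : ℝ)) ^ 2 *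
          (2 * (X : ℝ) ^ (1 / 4 : ℝ)) * (2 * lg X) ^ 2 * (2 * lg X ^ 15)) := by gcongr
      _ = E := by rw [hE, e5]; ring
  rw [sum_comm]
  refine (sum_le_sum key).trans ((sum_le_sum_of_subset_of_nonneg (erase_subset _ _)
    fun p _ _ => by positivity).trans ?_)
  rw [sum_add_distrib, ← sum_mul, sum_const, nsmul_eq_mul]
  have f1 := mul_le_mul_of_nonneg_right h1 hB0
  have f2 := mul_le_mul_of_nonneg_right ((card_pr_le (y := √(X : ℝ) / lg X ^ 14)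
    (Real.sqrt_nonneg (2 * X))).trans hz) hE0
  have f3 : η / (4 * (2 * |C₀| + 1)) * B = η * (X / q) * √(X : ℝ) / lg X / 2 := by
    rw [hB]; field_simp; ring
  have f4 : 2 * √(X : ℝ) * E ≤ η * (X / q) * √(X : ℝ) / lg X / 2 := by
    calc 2 * √(X : ℝ) * E = η * (64 * C / η * lg X ^ 18 * (X : ℝ) ^ (37 / 100 : ℝ)) * √(X : ℝ) /
          lg X / 2 := by rw [hE]; field_simp; ring
      _ ≤ _ := by gcongr; exact h5.trans hQ
  linarith

end Pool.Agent.Lib.APQ
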