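import Pool.Agent.Lib.APQ.Kit

/-!
The top range: assembly.
-/

namespace Pool.Agent.Lib.APQ

open Finset Real Complex Filter Pool.Agent.Lib.PS
open scoped NumberTheorySymbols ArithmeticFunction.Moebius Classical ComplexConjugate

namespace F3T

theorem pr_sub {y y' z z' : ℝ} (h0 : 0 ≤ y') (hy : y' ≤ y) (hz : z ≤ z') : pr y z ⊆ pr y' z' := by
  intro p hp
  rw [mem_pr (h0.trans hy)] at hp
  exact (mem_pr h0).2 ⟨hp.1, hy.trans_lt hp.2.1, hp.2.2.trans hz⟩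

theorem split {y y' z : ℝ} (h0 : 0 ≤ y) (h1 : 0 ≤ y') (q : ℕ) (f : ℕ → ℝ) (hf : ∀ p, 0 ≤ f p) :
    ∑ p ∈ (pr y z).erase q, f p ≤
      ∑ p ∈ (pr y y').erase q, f p + ∑ p ∈ (pr y' z).erase q, f p := by
  have hs : (pr y z).erase q ⊆ (pr y y').erase q ∪ (pr y' z).erase q := by
    intro p hp
    rw [mem_erase, mem_pr h0] at hp
    rw [mem_union, mem_erase, mem_erase, mem_pr h0, mem_pr h1]
    rcases le_or_gt (p : ℝ) y' with h | h
    · exact Or.inl ⟨hp.1, hp.2.1, hp.2.2.1, h⟩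
    · exact Or.inr ⟨hp.1, hp.2.1, h, hp.2.2.2⟩
  refine (sum_le_sum_of_subset_of_nonneg hs fun p _ _ => hf p).trans ?_
  rw [← sum_union_inter]
  exact le_add_of_nonneg_right (sum_nonneg fun p _ => hf p)

/-- the primes just below the square root -/
theorem short {t : ℝ} (ht : 0 < t) (ht' : t ≤ 1 / 10) : ∀ᶠ X : ℕ in atTop,
    ∑ p ∈ pr ((X : ℝ) ^ (1 / 2 - t)) (√(X : ℝ) / lg X ^ 14), (4 * √(X : ℝ) / p + 4)
      ≤ 20 * t * √(X : ℝ) := by
  filter_upwards [ev_lg (55 / t), ev_lg 1, ev_rpow 2 (show (0 : ℝ) < 2 / 5 by norm_num),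
    eventually_ge_atTop 1] with X h1 h2 h3 h4
  have hX : (1 : ℝ) ≤ X := by exact_mod_cast h4
  have hX0 : (0 : ℝ) < X := by linarith
  have hM : 0 ≤ √(X : ℝ) := Real.sqrt_nonneg _
  have hl : 0 < lg X := by linarith
  have hy : (2 : ℝ) ≤ (X : ℝ) ^ (1 / 2 - t) :=
    h3.trans (Real.rpow_le_rpow_of_exponent_le hX (by linarith))
  have hyM : (X : ℝ) ^ (1 / 2 - t) ≤ √(X : ℝ) := by
    rw [sqrt_eq]; exact Real.rpow_le_rpow_of_exponent_le hX (by linarith)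
  have hl14 : lg X ≤ lg X ^ 14 := le_self_pow₀ h2 (by norm_num)
  have htl : 55 ≤ lg X * t := (div_le_iff₀ ht).1 h1
  have hy' : √(X : ℝ) / lg X ^ 14 ≤ t * √(X : ℝ) := by
    rw [div_le_iff₀ (by positivity)]
    have : 1 ≤ t * lg X ^ 14 := by nlinarith
    nlinarith
  have hy'' : √(X : ℝ) / lg X ^ 14 ≤ √(X : ℝ) := hy'.trans (by nlinarith)
  have hs := sum_pr_le hy hyM
  have e1 : Real.log √(X : ℝ) = 1 / 2 * lg X := by rw [sqrt_eq, Real.log_rpow hX0]; rfl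
  have e2 : Real.log ((X : ℝ) ^ (1 / 2 - t)) = (1 / 2 - t) * lg X := by
    rw [Real.log_rpow hX0]; rfl
  have h5 : 0 < 1 / 2 - t := by linarith
  rw [e1, e2, mul_div_mul_right _ _ hl.ne'] at hs
  have h6 : Real.log (1 / 2 / (1 / 2 - t)) ≤ 5 / 2 * t := by
    refine (Real.log_le_sub_one_of_pos (by positivity)).trans ?_
    rw [sub_le_iff_le_add, div_le_iff₀ h5]
    nlinarith
  have h7 : 22 / ((1 / 2 - t) * lg X) ≤ t := by
    rw [div_le_iff₀ (by positivity)]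
    nlinarith
  have h8 : ∑ p ∈ pr ((X : ℝ) ^ (1 / 2 - t)) (√(X : ℝ) / lg X ^ 14), (1 : ℝ) / p ≤ 7 / 2 * t :=
    (sum_le_sum_of_subset_of_nonneg (pr_sub (by positivity) le_rfl hy'')
      fun p _ _ => by positivity).trans (by linarith)
  have h9 := card_pr_le (y := (X : ℝ) ^ (1 / 2 - t)) (z := √(X : ℝ) / lg X ^ 14) (by positivity)
  have e3 : ∑ p ∈ pr ((X : ℝ) ^ (1 / 2 - t)) (√(X : ℝ) / lg X ^ 14), (4 * √(X : ℝ) / p + 4) =
      4 * √(X : ℝ) * ∑ p ∈ pr ((X : ℝ) ^ (1 / 2 - t)) (√(X : ℝ) / lg X ^ 14), (1 : ℝ) / p +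
        4 * ((pr ((X : ℝ) ^ (1 / 2 - t)) (√(X : ℝ) / lg X ^ 14)).card : ℝ) := by
    rw [sum_add_distrib, mul_sum, sum_const, nsmul_eq_mul, mul_comm _ (4 : ℝ)]
    congr 1
    exact sum_congr rfl fun p _ => by ring
  rw [e3]
  have h10 := mul_le_mul_of_nonneg_left h8 (show 0 ≤ 4 * √(X : ℝ) by positivity)
  nlinarith [mul_nonneg ht.le hM]

end F3T

theorem blk_F3T (hTOP : St_TOP) (hWT : St_WT) (hDSP : St_DSP) (hF1M : St_F1M) (hAG : St_AG) :
    St_F3T := by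
  obtain ⟨C, c, hC, hc, hc', hW⟩ := hWT
  obtain ⟨hT1, hT2, hT3⟩ := hTOP
  have hPn := fun n z => (hAG.2.2.2.2.2.2.2.1 n z).1
  refine ⟨20 * C, c, by positivity, hc, by linarith, fun t η ht ht' hη => ?_⟩
  filter_upwards [hW, hDSP, hF1M C (η / 3) (by positivity), F3T.short ht ht', ev_lg (3 / η),
    ev_lg 1, ev_lg_sqrt (48 / η) 1, ev_pow (48 / η) 1 (show (0 : ℝ) < 59 / 200 by norm_num),
    eventually_ge_atTop 1] with X h1 h2 h3 h4 h5 h6 h7 h8 h9
  intro q a K hR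
  obtain ⟨Λ, D, hS, hD, hΛ, hG⟩ := h1
  have hX : (1 : ℝ) ≤ X := by exact_mod_cast h9
  have hM : 0 ≤ √(X : ℝ) := Real.sqrt_nonneg _
  have hl : 0 < lg X := by linarith
  have hq := hR.q_pos
  have hDz : (D : ℝ) ≤ zz X := hD.trans (Real.rpow_le_rpow_of_exponent_le hX (by norm_num))
  have hy : (X : ℝ) ^ (2 / 5 : ℝ) ≤ (X : ℝ) ^ (1 / 2 - t) :=
    Real.rpow_le_rpow_of_exponent_le hX (by linarith)
  have key : ∀ k ∈ range K, max (AA X (a + q * k) (Ft X t) -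
        20 * C * t * Pn (a + q * k) ((X : ℝ) ^ c) * √(X : ℝ) / lg X) 0 ≤
      ∑ p ∈ (pr ((X : ℝ) ^ (2 / 5 : ℝ)) (√(X : ℝ) / lg X ^ 14)).erase q,
          |RR X Λ D ((a : ℤ) + q * k) p| +
        ∑ p ∈ (pr (√(X : ℝ) / lg X ^ 14) √(2 * X : ℝ)).erase q, TA X Λ D ((a : ℤ) + q * k) p +
        (4 * √(X : ℝ) / q + 4) := by
    intro k _
    have e : ((a + q * k : ℕ) : ℤ) = (a : ℤ) + q * k := by push_cast; ring
    have a1 := hT1 X D q (a + q * k) Λ t h9 hS hDz hR.pr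
    have a2 := hG (a + q * k)
    rw [e] at a1 a2
    have hP := (hPn (a + q * k) ((X : ℝ) ^ c)).le
    set g := C * Pn (a + q * k) ((X : ℝ) ^ c) / lg X with hg
    have hg0 : 0 ≤ g := by positivity
    have a3 := F3T.split (y := (X : ℝ) ^ (1 / 2 - t)) (y' := √(X : ℝ) / lg X ^ 14)
      (z := √(2 * X : ℝ)) (by positivity) (by positivity) q
      (fun p => TA X Λ D ((a : ℤ) + q * k) p) fun p => hT2 X D p Λ _ hS
    have a4 : ∑ p ∈ (pr ((X : ℝ) ^ (1 / 2 - t)) (√(X : ℝ) / lg X ^ 14)).erase q,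
        TA X Λ D ((a : ℤ) + q * k) p ≤ g * (20 * t * √(X : ℝ)) +
        ∑ p ∈ (pr ((X : ℝ) ^ (2 / 5 : ℝ)) (√(X : ℝ) / lg X ^ 14)).erase q,
          |RR X Λ D ((a : ℤ) + q * k) p| := by
      refine (sum_le_sum fun p hp => hT3 X D p Λ _ g h9
        ((mem_pr (by positivity)).1 (mem_of_mem_erase hp)).1 hg0 a2).trans ?_
      rw [sum_add_distrib, ← mul_sum]
      refine add_le_add (mul_le_mul_of_nonneg_left (le_trans ?_ h4) hg0) ?_
      · exact sum_le_sum_of_subset_of_nonneg (erase_subset _ _) fun p _ _ => by positivity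
      · exact sum_le_sum_of_subset_of_nonneg
          (erase_subset_erase _ (F3T.pr_sub (by positivity) hy le_rfl)) fun p _ _ => abs_nonneg _
    have e2 : 20 * C * t * Pn (a + q * k) ((X : ℝ) ^ c) * √(X : ℝ) / lg X =
        g * (20 * t * √(X : ℝ)) := by rw [hg]; ring
    refine max_le (by rw [e2]; linarith) ?_
    exact add_nonneg (add_nonneg (sum_nonneg fun p _ => abs_nonneg _)
      (sum_nonneg fun p _ => hT2 X D p Λ _ hS)) (by positivity)
  refine (sum_le_sum key).trans ?_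
  rw [sum_add_distrib, sum_add_distrib, sum_const, card_range, nsmul_eq_mul]
  have b1 := h2 D q a K Λ hR hS hD
  have b2 := h3 D q a K Λ hR hS hD hΛ
  have hXq : 0 ≤ (X : ℝ) / q := by positivity
  have b3 : (X : ℝ) / q * √(X : ℝ) / lg X ^ 2 ≤ η / 3 * ((X : ℝ) / q) * √(X : ℝ) / lg X := by
    have h10 : 3 ≤ lg X * η := (div_le_iff₀ hη).1 h5
    have h11 : 1 / lg X ≤ η / 3 := by rw [div_le_div_iff₀ hl (by norm_num)]; linarith
    calc (X : ℝ) / q * √(X : ℝ) / lg X ^ 2 = 1 / lg X * ((X : ℝ) / q) * √(X : ℝ) / lg X := by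
          field_simp
      _ ≤ _ := by gcongr
  have b4 : (K : ℝ) * (4 * √(X : ℝ) / q + 4) ≤ η / 3 * ((X : ℝ) / q) * √(X : ℝ) / lg X := by
    rw [Real.rpow_zero, mul_one, pow_one] at h8
    rw [pow_one] at h7
    have h10 : 48 / η * lg X ≤ q := h8.trans hR.lo
    have h11 : 8 / (q : ℝ) ≤ η / 6 / lg X := by
      rw [div_le_div_iff₀ hq hl]
      have := mul_le_mul_of_nonneg_left h10 (show 0 ≤ η / 6 by positivity)
      have e : η / 6 * (48 / η * lg X) = 8 * lg X := by field_simp; norm_num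
      linarith
    have h12 : 8 ≤ η / 6 * √(X : ℝ) / lg X := by
      rw [le_div_iff₀ hl]
      have := mul_le_mul_of_nonneg_left h7 (show 0 ≤ η / 6 by positivity)
      have e : η / 6 * (48 / η * lg X) = 8 * lg X := by field_simp; norm_num
      linarith
    have h13 := mul_le_mul_of_nonneg_right h11 hM
    calc (K : ℝ) * (4 * √(X : ℝ) / q + 4) ≤ 2 * X / q * (4 * √(X : ℝ) / q + 4) := by
          gcongr; exact hR.K_le h9 (by norm_num)
      _ = (X : ℝ) / q * (8 / q * √(X : ℝ) + 8) := by ring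
      _ ≤ (X : ℝ) / q * (η / 6 / lg X * √(X : ℝ) + η / 6 * √(X : ℝ) / lg X) := by gcongr
      _ = _ := by ring
  have e : η * ((X : ℝ) / q) * √(X : ℝ) / lg X =
      3 * (η / 3 * ((X : ℝ) / q) * √(X : ℝ) / lg X) := by ring
  linarith

end Pool.Agent.Lib.APQ
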