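import Pool.Agent.Lib.APQ.Kit

/-!
The fundamental lemma for the values of a polynomial map against a unimodal weight.
-/

namespace Pool.Agent.Lib.APQ

open Finset Real Complex Filter Pool.Agent.Lib.PS
open scoped NumberTheorySymbols ArithmeticFunction.Moebius Classical ComplexConjugate

namespace FLC

theorem rt_one (f : ℤ → ℤ) : rt f 1 = 1 := by simp [rt]

theorem rt_prod (hAG : St_AG) (f : ℤ → ℤ) (hf : ∀ m m', m - m' ∣ f m - f m') (S : Finset ℕ)
    (hS : ∀ l ∈ S, l.Prime) : rt f (∏ l ∈ S, l) = ∏ l ∈ S, rt f l := by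
  induction S using Finset.induction_on with
  | empty => simp [rt_one]
  | insert l S hl ih =>
    rw [prod_insert hl, prod_insert hl, hAG.2.2.1 f _ _ hf, ih fun x hx => hS x (mem_insert_of_mem hx)]
    refine Nat.Coprime.prod_right fun x hx => ?_
    exact (Nat.coprime_primes (hS l (mem_insert_self _ _)) (hS x (mem_insert_of_mem hx))).2
      fun h => hl (h ▸ hx)

theorem prod_dvd (S : Finset ℕ) (hS : ∀ l ∈ S, l.Prime) (n : ℤ) :
    ((∏ l ∈ S, l : ℕ) : ℤ) ∣ n ↔ ∀ l ∈ S, (l : ℤ) ∣ n := by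
  constructor
  · intro h l hl
    exact (Int.natCast_dvd_natCast.2 (dvd_prod_of_mem _ hl)).trans h
  · intro h
    rw [Int.natCast_dvd]
    exact Finset.prod_primes_dvd _ (fun l hl => (hS l hl).prime) fun l hl =>
      Int.natCast_dvd.1 (h l hl)

theorem rem (hABEL : St_ABEL) (φ : ℤ → ℝ) (Φ : ℝ) (a b : ℤ) (f : ℤ → ℤ) (D : ℕ) (hU : Uni φ Φ)
    (hab : a ≤ b) (hf : ∀ m m', m - m' ∣ f m - f m') (hD : 1 ≤ D) :
    |(∑ m ∈ Ico a b, if (D : ℤ) ∣ f m then φ m else 0) -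
      (∑ m ∈ Ico a b, φ m) * ((rt f D : ℝ) / D)| ≤ 4 * Φ * rt f D := by
  set g : ℤ → ℝ := fun t => if (D : ℤ) ∣ f t then 1 else 0 with hg
  have h1 : ∑ c ∈ range D, g c = rt f D := by
    simp only [hg, rt]
    rw [sum_boole]
  have h2 : ∑ c ∈ range D, |g c| = rt f D := by
    rw [← h1]
    refine sum_congr rfl fun c _ => abs_of_nonneg ?_
    simp only [hg]; split_ifs <;> norm_num
  have hp : ∀ t, g (t + D) = g t := fun t => by
    have h3 : (D : ℤ) ∣ f (t + D) - f t := by simpa using hf (t + D) t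
    have h4 : (D : ℤ) ∣ f (t + D) ↔ (D : ℤ) ∣ f t := by
      constructor
      · intro h; simpa using h.sub h3
      · intro h; simpa using h3.add h
    simp only [hg, h4]
  have h5 := hABEL.2.1 φ Φ (2 * rt f D) a b (fun t => g t - (rt f D : ℝ) / D) hU hab
    fun s u _ _ _ => by
      have := hABEL.2.2.2.2.1 g D s u hD hp
      rwa [h1, h2] at this
  have h6 : ∑ t ∈ Ico a b, φ t * (g t - (rt f D : ℝ) / D) =
      (∑ m ∈ Ico a b, if (D : ℤ) ∣ f m then φ m else 0) -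
        (∑ m ∈ Ico a b, φ m) * ((rt f D : ℝ) / D) := by
    rw [sum_mul, ← sum_sub_distrib]
    refine sum_congr rfl fun t _ => ?_
    simp only [hg]; split_ifs <;> ring
  rw [h6] at h5
  linarith

theorem card_sets (I : Finset ℕ) (hI : ∀ l ∈ I, l.Prime) (Z : ℝ) (hZ : 0 ≤ Z) :
    ((I.powerset.filter fun S : Finset ℕ => ∏ i ∈ S, (i : ℝ) ≤ Z).card : ℝ) ≤ Z := by
  have h1 : (I.powerset.filter fun S : Finset ℕ => ∏ i ∈ S, (i : ℝ) ≤ Z).card ≤ (Icc 1 ⌊Z⌋₊).card := by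
    refine card_le_card_of_injOn (fun S => ∏ i ∈ S, i) (fun S hS => ?_) fun S hS T hT h => ?_
    · rw [coe_filter, Set.mem_ofPred_eq, mem_powerset] at hS
      rw [mem_coe, mem_Icc]
      refine ⟨prod_pos fun i hi => (hI i (hS.1 hi)).pos, Nat.le_floor ?_⟩
      push_cast; exact hS.2
    · rw [coe_filter, Set.mem_ofPred_eq, mem_powerset] at hS hT
      have e1 := Nat.primeFactors_prod (s := S) fun i hi => hI i (hS.1 hi)
      have e2 := Nat.primeFactors_prod (s := T) fun i hi => hI i (hT.1 hi)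
      simp only at h
      rw [← e1, ← e2, h]
  rw [Nat.card_Icc, Nat.add_sub_cancel] at h1
  exact (Nat.cast_le.2 h1).trans (Nat.floor_le hZ)

theorem kap (f : ℤ → ℤ) (z : ℝ) (hl : ∀ l ∈ pr 0 z, rt f l ≤ 2 ∧ 3 * rt f l ≤ 2 * l) (y : ℝ)
    (hy : 1 < y) :
    ∑ i ∈ (pr 0 z).filter (fun i : ℕ => y < (i : ℝ) ∧ (i : ℝ) ≤ y ^ 2), (rt f i : ℝ) / i ≤
      2 * (Real.log 2 + 22 / Real.log 2) + 8 := by
  have hl2 : 0 < Real.log 2 := Real.log_pos (by norm_num)
  have hs : (pr 0 z).filter (fun i : ℕ => y < (i : ℝ) ∧ (i : ℝ) ≤ y ^ 2) ⊆ pr y (y ^ 2) :=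
    fun i hi => by
      rw [mem_filter, mem_pr le_rfl] at hi
      exact (mem_pr (by linarith)).2 ⟨hi.1.1, hi.2⟩
  have h1 : ∑ i ∈ (pr 0 z).filter (fun i : ℕ => y < (i : ℝ) ∧ (i : ℝ) ≤ y ^ 2), (rt f i : ℝ) / i ≤
      2 * ∑ i ∈ pr y (y ^ 2), (1 : ℝ) / i := by
    rw [mul_sum]
    refine le_trans (sum_le_sum fun i hi => ?_)
      (sum_le_sum_of_subset_of_nonneg hs fun i _ _ => by positivity)
    rw [mul_one_div]
    have : (rt f i : ℝ) ≤ 2 := by exact_mod_cast (hl i (mem_filter.1 hi).1).1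
    gcongr
  refine h1.trans ?_
  rcases le_total 2 y with h2 | h2
  · have h3 := sum_pr_le h2 (show y ≤ y ^ 2 by nlinarith)
    have h4 : 0 < Real.log y := Real.log_pos hy
    rw [Real.log_pow, Nat.cast_ofNat, mul_div_assoc, div_self h4.ne', mul_one] at h3
    have h5 : 22 / Real.log y ≤ 22 / Real.log 2 := by gcongr
    linarith
  · have h3 : ∑ i ∈ pr y (y ^ 2), (1 : ℝ) / i ≤ (pr y (y ^ 2)).card • (1 : ℝ) := by
      refine sum_le_card_nsmul _ _ _ fun i hi => ?_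
      have := ((mem_pr (by linarith)).1 hi).1.one_le
      rw [div_le_one (by exact_mod_cast this)]
      exact_mod_cast this
    have h4 := card_pr_le (y := y) (z := y ^ 2) (by positivity)
    rw [nsmul_eq_mul, mul_one] at h3
    have h5 : y ^ 2 ≤ 4 := by nlinarith
    have h6 : 0 ≤ 22 / Real.log 2 := by positivity
    linarith

end FLC

open FLC in
theorem blk_FLC (hFLQ : St_FLQ) (hABEL : St_ABEL) (hAG : St_AG) : St_FLC := by
  obtain ⟨C, hC, H⟩ := hFLQ (2 * (Real.log 2 + 22 / Real.log 2) + 8)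
  refine ⟨3 * C, by linarith, fun k hk φ Φ z a b f p hU hz hf hl hp hp2 => ?_⟩
  have hΦ := hU.nonneg
  have hz0 : (0 : ℝ) ≤ z := by linarith
  rcases lt_or_ge b a with hab | hab
  · rw [Ico_eq_empty (by omega)]
    simp only [sum_empty, zero_mul, sub_zero, abs_zero, mul_zero, zero_add]
    positivity
  have hI : ∀ l ∈ pr 0 z, l.Prime := fun l h => ((mem_pr le_rfl).1 h).1
  have hp1 : 1 ≤ p := by
    rcases hp with h | h
    · omega
    · exact h.1.one_le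
  have hW : 0 ≤ ∑ m ∈ Ico a b, φ m := sum_nonneg fun m _ => (hU.1 m).1
  have key := H k (by linarith) ℕ ℤ (pr 0 z) (fun l => (l : ℝ)) (fun l => (rt f l : ℝ) / l) z
    (Ico a b) (fun m => if (p : ℤ) ∣ f m then φ m else 0)
    (fun l m => if (l : ℤ) ∣ f m then 1 else 0)
    ((∑ m ∈ Ico a b, φ m) * ((rt f p : ℝ) / p)) (8 * Φ * z ^ (8 * k + 12)) hz
    (fun i hi => ?_) (kap f z hl) (fun x _ => ?_) (fun i _ x _ => ?_) (by positivity) ?_
  · have e1 : ∑ x ∈ Ico a b, (if (p : ℤ) ∣ f x then φ x else 0) *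
        ∏ i ∈ pr 0 z, (1 - if (i : ℤ) ∣ f x then (1 : ℝ) else 0) =
        ∑ m ∈ Ico a b, if (p : ℤ) ∣ f m ∧ ∀ l ∈ pr 0 z, ¬ (l : ℤ) ∣ f m then φ m else 0 := by
      refine sum_congr rfl fun m _ => ?_
      by_cases h1 : ∀ l ∈ pr 0 z, ¬ (l : ℤ) ∣ f m
      · rw [prod_eq_one fun l h => by simp [h1 l h], mul_one]
        exact if_congr ⟨fun h => ⟨h, h1⟩, fun h => h.1⟩ rfl rfl
      · rw [if_neg (show ¬ ((p : ℤ) ∣ f m ∧ ∀ l ∈ pr 0 z, ¬ (l : ℤ) ∣ f m) from fun h => h1 h.2)]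
        push Not at h1
        obtain ⟨l, h2, h3⟩ := h1
        rw [prod_eq_zero h2 (by simp [h3]), mul_zero]
    rw [e1] at key
    refine key.trans (le_of_eq ?_)
    ring
  · have h1 := (mem_pr le_rfl).1 hi
    have h2 : (2 : ℝ) ≤ i := by exact_mod_cast h1.1.two_le
    have h3 : (3 : ℝ) * rt f i ≤ 2 * i := by exact_mod_cast (hl i hi).2
    refine ⟨h2, h1.2.2, by positivity, ?_⟩
    rw [div_le_div_iff₀ (by linarith) (by norm_num)]
    linarith
  · show 0 ≤ if (p : ℤ) ∣ f x then φ x else 0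
    split_ifs
    · exact (hU.1 x).1
    · exact le_rfl
  · show (0 : ℝ) ≤ (if (i : ℤ) ∣ f x then 1 else 0) ∧ (if (i : ℤ) ∣ f x then (1 : ℝ) else 0) ≤ 1
    split_ifs <;> norm_num
  · refine le_trans (sum_le_card_nsmul _ _ (8 * Φ * z ^ (4 * k + 6)) fun S hS => ?_) ?_
    · rw [mem_filter, mem_powerset] at hS
      have hSp : ∀ l ∈ S, l.Prime := fun l h => hI l (hS.1 h)
      have hc : Nat.Coprime p (∏ l ∈ S, l) := by
        rcases hp with h | h
        · rw [h]; exact Nat.coprime_one_left _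
        · refine Nat.Coprime.prod_right fun l hl' => (Nat.coprime_primes h.1 (hSp l hl')).2 ?_
          intro e
          have := ((mem_pr le_rfl).1 (hS.1 hl')).2.2
          rw [← e] at this
          linarith [h.2]
      have hd : 1 ≤ ∏ l ∈ S, l := prod_pos fun l h => (hSp l h).pos
      have r1 := rem hABEL φ Φ a b f (p * ∏ l ∈ S, l) hU hab hf (Nat.mul_pos hp1 hd)
      rw [hAG.2.2.1 f _ _ hf hc, rt_prod hAG f hf S hSp] at r1
      have e1 : ∑ x ∈ Ico a b, (if (p : ℤ) ∣ f x then φ x else 0) *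
          ∏ i ∈ S, (if (i : ℤ) ∣ f x then (1 : ℝ) else 0) =
          ∑ m ∈ Ico a b, if ((p * ∏ l ∈ S, l : ℕ) : ℤ) ∣ f m then φ m else 0 := by
        refine sum_congr rfl fun m _ => ?_
        have h1 : ((p * ∏ l ∈ S, l : ℕ) : ℤ) ∣ f m ↔ (p : ℤ) ∣ f m ∧ ∀ l ∈ S, (l : ℤ) ∣ f m := by
          rw [← prod_dvd S hSp, Int.natCast_dvd, Int.natCast_dvd, Int.natCast_dvd]
          exact ⟨fun h => ⟨(Dvd.intro _ rfl).trans h, (Dvd.intro_left _ rfl).trans h⟩,
            fun h => hc.mul_dvd_of_dvd_of_dvd h.1 h.2⟩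
        rw [prod_boole]
        simp only [h1]
        by_cases h2 : (p : ℤ) ∣ f m <;> by_cases h3 : ∀ l ∈ S, (l : ℤ) ∣ f m <;> simp [h2, h3]
      have e2 : (∑ m ∈ Ico a b, φ m) * ((rt f p : ℝ) / p) * ∏ i ∈ S, ((rt f i : ℝ) / i) =
          (∑ m ∈ Ico a b, φ m) *
            (((rt f p * ∏ l ∈ S, rt f l : ℕ) : ℝ) / ((p * ∏ l ∈ S, l : ℕ) : ℝ)) := by
        rw [prod_div_distrib]; push_cast; ring
      rw [e1, e2]
      refine r1.trans ?_
      have h2 : ∏ l ∈ S, rt f l ≤ ∏ l ∈ S, l :=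
        prod_le_prod' fun l h => by have := (hl l (hS.1 h)).2; omega
      have h3 : ((rt f p * ∏ l ∈ S, rt f l : ℕ) : ℝ) ≤ 2 * z ^ (4 * k + 6) := by
        have h4 : ((rt f p * ∏ l ∈ S, rt f l : ℕ) : ℝ) ≤ ((2 * ∏ l ∈ S, l : ℕ) : ℝ) :=
          Nat.cast_le.2 (Nat.mul_le_mul hp2 h2)
        refine h4.trans ?_
        push_cast
        linarith [hS.2]
      nlinarith
    · rw [nsmul_eq_mul]
      have h1 := card_sets (pr 0 z) hI (z ^ (4 * k + 6)) (by positivity)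
      calc _ ≤ z ^ (4 * k + 6) * (8 * Φ * z ^ (4 * k + 6)) := by gcongr
        _ = _ := by ring

end Pool.Agent.Lib.APQ
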