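import Pool.Agent.Lib.APQ.Kit
import Pool.Agent.Lib.LQ.B2

/-!
Block FLQ: the fundamental lemma of the sieve with an explicit rate.
-/

namespace Pool.Agent.Lib.APQ

open Finset
open scoped Classical

theorem FLQ.exp_le {ι : Type} (I : Finset ι) (p : ι → ℝ) (hp : ∀ i ∈ I, 0 ≤ p i ∧ p i ≤ 2 / 3) :
    Real.exp (-2 * ∑ i ∈ I, p i) ≤ ∏ i ∈ I, (1 - p i) := by
  rw [mul_sum, Real.exp_sum]
  refine prod_le_prod (fun i _ => (Real.exp_pos _).le) fun i hi => ?_
  obtain ⟨h0, h1⟩ := hp i hi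
  have h2 := Real.sum_le_exp_of_nonneg (x := 2 * p i) (by linarith) 4
  simp only [sum_range_succ, range_zero, sum_empty, Nat.factorial] at h2
  rw [neg_mul, Real.exp_neg, inv_le_comm₀ (Real.exp_pos _) (by linarith)]
  refine le_trans ?_ h2
  rw [inv_le_iff_one_le_mul₀ (by linarith)]
  generalize p i = x at h0 h1
  have h3 : 0 ≤ x * (1 - 2 / 3 * x ^ 2 - 4 / 3 * x ^ 3) :=
    mul_nonneg h0 (by nlinarith [mul_le_mul h1 h1 h0 (by norm_num), mul_nonneg h0 h0])
  push_cast
  nlinarith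

open LQ.B2 in
theorem blk_FLQ : St_FLQ := by
  intro κ
  set K : ℝ := max κ 1 with hK
  have hK1 : 1 ≤ K := le_max_right _ _
  refine ⟨Real.exp (4 * K), Real.one_le_exp (by positivity),
    fun k hk ι A I N p z T a ψ M Rem hz hI hκ ha hψ hM hR => ?_⟩
  set η : ℝ := Real.exp (4 * K) / 2 ^ k with hηd
  have hη : 0 < η := by positivity
  have hη1 : η ≤ 1 := (div_le_one (by positivity)).2 hk
  have hz0 : 0 < z := by linarith
  have hz1 : 1 < z := by linarith
  set w : ℕ → ℝ := fun j => z ^ ((1 / 2 : ℝ) ^ j) with hwd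
  have hw1 : ∀ j, 1 < w j := fun j => Real.one_lt_rpow hz1 (by positivity)
  have hsq : ∀ j, w (j + 1) ^ 2 = w j := fun j => by
    simp only [hwd]
    rw [← Real.rpow_natCast, ← Real.rpow_mul hz0.le]
    congr 1
    push_cast
    ring
  set J := ⌊z⌋₊ with hJ
  have hJ2 : 2 ≤ J := Nat.le_floor (by exact_mod_cast hz)
  have hwJ : w J < 2 := by
    have h1 : z < (2 : ℝ) ^ (2 ^ J) := by
      refine (Nat.lt_floor_add_one z).trans_le ?_
      have a1 : J < 2 ^ J := Nat.lt_two_pow_self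
      have a2 : 2 ^ J < 2 ^ (2 ^ J) := Nat.lt_two_pow_self
      exact_mod_cast (show J + 1 ≤ 2 ^ (2 ^ J) by omega)
    refine (Real.rpow_lt_rpow hz0.le h1 (by positivity)).trans_le (le_of_eq ?_)
    rw [← Real.rpow_natCast, ← Real.rpow_mul (by norm_num)]
    push_cast
    rw [← mul_pow]
    norm_num
  set blk : ι → ℕ := fun i => sInf {j | w (j + 1) < N i} with hblk
  have hin : ∀ i ∈ I, J - 1 ∈ {j | w (j + 1) < N i} := fun i hi => by
    show w (J - 1 + 1) < N i
    rw [Nat.sub_add_cancel (by omega)]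
    linarith [(hI i hi).1]
  have hlo : ∀ i ∈ I, w (blk i + 1) < N i := fun i hi => Nat.sInf_mem ⟨_, hin i hi⟩
  have hhi : ∀ i ∈ I, N i ≤ w (blk i) := fun i hi => by
    rcases h : blk i with _ | j
    · simpa [hwd] using (hI i hi).2.1
    · exact not_lt.1 (Nat.notMem_of_lt_sInf (s := {j | w (j + 1) < N i})
        (show j < blk i by omega))
  have hR0 : 0 ≤ Rem := (sum_nonneg fun _ _ => abs_nonneg _).trans hR
  have hV0 : 0 ≤ M * ∏ i ∈ I, (1 - p i) :=
    mul_nonneg hM (prod_nonneg fun i hi => by linarith [(hI i hi).2.2.2])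
  refine (core I N p T a ψ M Rem _ η J blk w (fun j => k + j) hη.le hη1 (fun i hi => ?_)
    (fun j => (hw1 j).le) (fun i hi => ⟨by linarith [(hI i hi).1], hhi i hi⟩) ?_
    (fun i hi => ⟨(hI i hi).2.2.1, by linarith [(hI i hi).2.2.2]⟩) (fun j => ?_) ha hψ hM hR).trans
    (add_le_add (mul_le_mul_of_nonneg_right (mul_div_assoc _ _ _).ge hV0)
      (mul_le_mul_of_nonneg_right ?_ hR0))
  · have : blk i ≤ J - 1 := Nat.sInf_le (hin i hi)
    omega
  · have e : ∀ j, w j ^ (2 * (k + j) + 1) = z ^ ((1 / 2 : ℝ) ^ j * ((2 * k + 1) + 2 * j)) := by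
      intro j
      simp only [hwd]
      rw [← Real.rpow_natCast, ← Real.rpow_mul hz0.le]
      congr 1
      push_cast
      ring
    simp only [e]
    rw [← Real.rpow_sum_of_pos hz0, sum_exp, ← Real.rpow_natCast z]
    refine Real.rpow_le_rpow_of_exponent_le hz1.le ?_
    have : 0 ≤ (1 / 2 : ℝ) ^ J * (2 * (2 * k + 1) + 4 * J + 4) := by positivity
    push_cast
    linarith
  · have hp : ∀ i ∈ I.filter (fun i => blk i = j), 0 ≤ p i ∧ p i ≤ 2 / 3 := fun i hi =>
      (hI i (mem_filter.1 hi).1).2.2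
    have hs : ∑ i ∈ I.filter (fun i => blk i = j), p i ≤ K := by
      refine le_trans (sum_le_sum_of_subset_of_nonneg (fun i hi => ?_) fun i hi _ =>
        (hI i (mem_filter.1 hi).1).2.2.1) ((hκ _ (hw1 (j + 1))).trans (le_max_left _ _))
      obtain ⟨h1, h2⟩ := mem_filter.1 hi
      rw [mem_filter, hsq]
      exact ⟨h1, h2 ▸ hlo i h1, h2 ▸ hhi i h1⟩
    have hs0 : 0 ≤ ∑ i ∈ I.filter (fun i => blk i = j), p i := sum_nonneg fun i hi => (hp i hi).1
    have h1 := Real.pow_div_factorial_le_exp (2 * K) (by positivity) (2 * (k + j) + 1)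
    have h2 : (1 / 2 : ℝ) ^ (2 * (k + j) + 1) ≤ (1 / 2) ^ (k + (j + 1)) :=
      pow_le_pow_of_le_one (by norm_num) (by norm_num) (by omega)
    have h3 : Real.exp (-2 * K) ≤ ∏ i ∈ I.filter (fun i => blk i = j), (1 - p i) :=
      (Real.exp_le_exp.2 (by linarith)).trans (FLQ.exp_le _ p hp)
    refine (Ef_le _ p (fun i hi => (hp i hi).1) _).trans ((div_le_div_of_nonneg_right
      (pow_le_pow_left₀ hs0 hs _) (Nat.cast_nonneg _)).trans ?_)
    have e : K ^ (2 * (k + j) + 1) / ((2 * (k + j) + 1).factorial : ℝ) =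
        (1 / 2) ^ (2 * (k + j) + 1) *
          ((2 * K) ^ (2 * (k + j) + 1) / ((2 * (k + j) + 1).factorial : ℝ)) := by
      rw [← mul_div_assoc, ← mul_pow]
      congr 2
      ring
    rw [e]
    refine (mul_le_mul h2 h1 (by positivity) (by positivity)).trans ?_
    refine le_trans (le_of_eq ?_) (mul_le_mul_of_nonneg_left h3 (by positivity))
    rw [hηd, show 2 * K = 4 * K + -2 * K by ring, Real.exp_add, pow_add, one_div_pow 2 k]
    ring
  · linarith [Nat.floor_le hz0.le]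

end Pool.Agent.Lib.APQ
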