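import Pool.Agent.Lib.APQ.Kit

/-!
Splitting the transform of the kernel near a rational point.
-/

namespace Pool.Agent.Lib.APQ

open Finset Real Complex Filter Pool.Agent.Lib.PS
open scoped NumberTheorySymbols ArithmeticFunction.Moebius Classical ComplexConjugate

namespace GD

theorem sh_eq (X P : ℕ) (α : ℝ) : sh X P α = TT X α - Ts X P α := by
  simp only [sh, TT, Ts, ft, sg, ← sum_sub_distrib]
  exact sum_congr rfl fun y _ => by push_cast; ring

theorem one_root {q r : ℕ} (hq : q.Prime) (hr : ¬ q ∣ r) (b₁ : ℤ) :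
    ∃ b₀ : ℕ, (range q).filter (fun b : ℕ => (q : ℤ) ∣ (b : ℤ) * r + b₁) = {b₀} := by
  have := Fact.mk hq
  have h0 : (r : ZMod q) ≠ 0 := fun h => hr ((ZMod.natCast_eq_zero_iff r q).1 h)
  refine ⟨(-(b₁ : ZMod q) / r).val, ?_⟩
  ext b
  rw [mem_filter, mem_range, mem_singleton, ← ZMod.intCast_zmod_eq_zero_iff_dvd]
  push_cast
  rw [add_eq_zero_iff_eq_neg, ← eq_div_iff h0]
  constructor
  · rintro ⟨h1, h2⟩
    rw [← h2, ZMod.val_cast_of_lt h1]
  · rintro rfl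
    exact ⟨ZMod.val_lt _, ZMod.natCast_zmod_val _⟩

end GD

open GD

theorem blk_GD (hTSH : St_TSH) (hGT : St_GT) (hIB : St_IB) (hAF : St_AF) : St_GD := by
  intro X P q a v₁ v₂ r b₁ η hq hr hb h1 h2 hP hPq hPX k1 k2
  have hr1 : 1 ≤ r := Nat.one_le_iff_ne_zero.2 fun h => hr (h ▸ dvd_zero q)
  have hq0 : (0 : ℝ) < q := by exact_mod_cast hq.pos
  have hr0 : (0 : ℝ) < r := by exact_mod_cast hr1
  have hP1 : (1 : ℝ) ≤ P := by exact_mod_cast hP
  have hM : (0 : ℝ) < √(X : ℝ) := by linarith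
  have hX : 1 ≤ X := Nat.one_le_iff_ne_zero.2 fun h => by simp [h] at hM
  have hl : 0 ≤ Real.log q := Real.log_natCast_nonneg q
  have bT := fun α => hGT.2.2.2.2.2.2.1 X α hX
  have bS : ∀ α, ‖Ts X P α‖ ≤ (P : ℝ) ^ 2 * (2 * √(X : ℝ)) := by
    intro α
    refine (norm_sum_le _ _).trans (le_trans (sum_le_sum fun y _ => ?_)
      ((mul_sum _ _ _).symm.trans_le (mul_le_mul_of_nonneg_left
        ((hIB.1 X P hP hPX).2.1 (YS X)) (by positivity))))
    have h0 := (hGT.2.2.2.2.2.2.2.2.1 X P y).2.2.1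
    rw [norm_mul, maj_ee_norm, mul_one, Complex.norm_real, Real.norm_eq_abs, md, abs_mul,
      abs_of_nonneg h0, mul_comm]
    exact mul_le_mul_of_nonneg_right (hAF.2.2.1 P y) h0
  have tsh : ∀ v : ℕ, ¬ q ∣ v → r * v * |η| * P ≤ 1 / 2 →
      ∑ b ∈ nb q r b₁, ‖Ts X P (v * ((b + (b₁ / r + η)) / q))‖
        ≤ 8 * (P : ℝ) ^ 3 * (q * r * P + q * (1 + Real.log q)) / √(X : ℝ) := by
    intro v hv k
    refine le_trans (le_of_eq (sum_congr rfl fun b _ => ?_))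
      (hTSH X P q v r b₁ (v * η / q) hq hv hr1 hP hPq hPX (le_trans (le_of_eq ?_) k))
    · congr 2
      field_simp
      ring
    · rw [abs_div, abs_mul, Nat.abs_cast, Nat.abs_cast]
      field_simp
  obtain ⟨b₀, h0⟩ := one_root hq hr b₁
  obtain ⟨b', hb'⟩ : (q : ℤ) ∣ (b₀ : ℤ) * r + b₁ :=
    (mem_filter.1 (h0 ▸ mem_singleton_self b₀ : b₀ ∈ (range q).filter _)).2
  have e0 : ((b₀ : ℝ) + (b₁ / r + η)) / q = b' / r + η / q := by
    have : (b₀ : ℝ) * r + b₁ = q * b' := by exact_mod_cast hb'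
    field_simp
    linarith
  refine ⟨b', ?_, ?_⟩
  · have := hb.mul_add_left_left b₀
    rw [mul_comm, hb'] at this
    exact this.of_mul_left_right
  set x : ℕ → ℝ := fun b => (b + (b₁ / r + η)) / q with hx
  set e : ℕ → ℂ := fun b => ee (-((a : ℝ) * ((v₂ : ℝ) - v₁) * x b)) with he
  have e1 : gT X P q a v₁ v₂ (b₁ / r + η) =
      e b₀ * sh X P (v₂ * x b₀) * conj (sh X P (v₁ * x b₀)) / q + ET X q a v₁ v₂ r b₁ η -
        (∑ b ∈ nb q r b₁, e b * (Ts X P (v₂ * x b) * conj (sh X P (v₁ * x b)) +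
          TT X (v₂ * x b) * conj (Ts X P (v₁ * x b)))) / q := by
    rw [gT, ← sum_filter_add_sum_filter_not _ fun b : ℕ => (q : ℤ) ∣ (b : ℤ) * r + b₁, h0,
      sum_singleton, ET, add_div, add_sub_assoc, ← sub_div, ← sum_sub_distrib]
    congr 2
    refine sum_congr rfl fun b _ => ?_
    simp only [sh_eq, map_sub, he, hx]
    ring
  have e2 : ‖∑ b ∈ nb q r b₁, e b * (Ts X P (v₂ * x b) * conj (sh X P (v₁ * x b)) +
      TT X (v₂ * x b) * conj (Ts X P (v₁ * x b)))‖ ≤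
      ∑ b ∈ nb q r b₁, ((P : ℝ) ^ 2 * (4 * √(X : ℝ)) * ‖Ts X P (v₂ * x b)‖ +
        (P : ℝ) ^ 2 * (4 * √(X : ℝ)) * ‖Ts X P (v₁ * x b)‖) := by
    refine (norm_sum_le _ _).trans (sum_le_sum fun b _ => ?_)
    have p2 : 2 * √(X : ℝ) ≤ (P : ℝ) ^ 2 * (2 * √(X : ℝ)) :=
      le_mul_of_one_le_left (by positivity) (one_le_pow₀ hP1)
    rw [norm_mul, he, maj_ee_norm, one_mul]
    refine (norm_add_le _ _).trans (add_le_add ?_ ?_)
    · rw [norm_mul, RCLike.norm_conj, mul_comm]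
      refine mul_le_mul_of_nonneg_right ?_ (norm_nonneg _)
      rw [sh_eq]
      linarith [norm_sub_le (TT X (v₁ * x b)) (Ts X P (v₁ * x b)), bT (v₁ * x b), bS (v₁ * x b)]
    · rw [norm_mul, RCLike.norm_conj]
      exact mul_le_mul_of_nonneg_right (by linarith [bT (v₂ * x b)]) (norm_nonneg _)
  rw [sum_add_distrib, ← mul_sum, ← mul_sum] at e2
  have t1 := mul_le_mul_of_nonneg_left (tsh v₁ h1 k1)
    (show 0 ≤ (P : ℝ) ^ 2 * (4 * √(X : ℝ)) by positivity)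
  have t2 := mul_le_mul_of_nonneg_left (tsh v₂ h2 k2)
    (show 0 ≤ (P : ℝ) ^ 2 * (4 * √(X : ℝ)) by positivity)
  have e3 : (P : ℝ) ^ 2 * (4 * √(X : ℝ)) *
      (8 * (P : ℝ) ^ 3 * (q * r * P + q * (1 + Real.log q)) / √(X : ℝ))
      ≤ 32 * (P : ℝ) ^ 6 * (r + 1 + Real.log q) * q := by
    have : 1 + Real.log q ≤ (1 + Real.log q) * P := le_mul_of_one_le_right (by linarith) hP1
    calc _ = 32 * (P : ℝ) ^ 5 * q * (r * P + (1 + Real.log q)) := by field_simp; norm_num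
      _ ≤ 32 * (P : ℝ) ^ 5 * q * (r * P + (1 + Real.log q) * P) := by gcongr
      _ = _ := by ring
  rw [e1]
  refine (norm_sub_le _ _).trans (add_le_add ((norm_add_le _ _).trans (le_of_eq ?_)) ?_)
  · rw [norm_div, norm_mul, norm_mul, he, maj_ee_norm, one_mul, RCLike.norm_conj,
      Complex.norm_natCast, hx]
    simp only [e0]
  · rw [norm_div, Complex.norm_natCast, div_le_iff₀ hq0]
    linarith

end Pool.Agent.Lib.APQ
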