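import Pool.Agent.Lib.APQ.Kit

/-!
Mean square of the transform of the kernel on a grid.
-/

namespace Pool.Agent.Lib.APQ

open Finset Real Complex Filter Pool.Agent.Lib.PS
open scoped NumberTheorySymbols ArithmeticFunction.Moebius Classical ComplexConjugate

namespace GL2

/-- the sum over a line -/
noncomputable def cv (S : Finset ℤ) (u v : ℤ) (f g : ℤ → ℝ) (n : ℤ) : ℝ :=
  ∑ y₁ ∈ S, ∑ y₂ ∈ S, if v * y₁ - u * y₂ = n then f y₁ * g y₂ else 0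

theorem one_le (S : Finset ℤ) (p : ℤ → Prop) [DecidablePred p] (g : ℤ → ℝ) (M : ℝ) (hM : 0 ≤ M)
    (hg : ∀ y, g y ≤ M) (hp : ∀ y y', p y → p y' → y = y') :
    (∑ y ∈ S, if p y then g y else 0) ≤ M := by
  rw [← sum_filter]
  have h1 : (S.filter p).card ≤ 1 :=
    card_le_one.2 fun y hy y' hy' => hp y y' (mem_filter.1 hy).2 (mem_filter.1 hy').2
  have h2 : ((S.filter p).card : ℝ) ≤ 1 := by exact_mod_cast h1
  calc ∑ y ∈ S.filter p, g y ≤ ∑ _y ∈ S.filter p, M := sum_le_sum fun y _ => hg y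
    _ = (S.filter p).card * M := by rw [sum_const, nsmul_eq_mul]
    _ ≤ 1 * M := by gcongr
    _ = M := one_mul M

theorem cv_le_left (S : Finset ℤ) {u : ℤ} (v : ℤ) (hu : u ≠ 0) (f g : ℤ → ℝ) (n : ℤ) (M : ℝ)
    (hM : 0 ≤ M) (hf : ∀ y, 0 ≤ f y) (hg : ∀ y, g y ≤ M) :
    cv S u v f g n ≤ M * ∑ y ∈ S, f y := by
  rw [cv, mul_sum]
  refine sum_le_sum fun y₁ _ => ?_
  refine one_le S (fun y₂ => v * y₁ - u * y₂ = n) (fun y₂ => f y₁ * g y₂) _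
    (mul_nonneg hM (hf y₁)) (fun y => ?_) fun y y' h h' => ?_
  · rw [mul_comm M]; exact mul_le_mul_of_nonneg_left (hg y) (hf y₁)
  · exact mul_left_cancel₀ hu (by linarith)

theorem cv_le_right (S : Finset ℤ) (u : ℤ) {v : ℤ} (hv : v ≠ 0) (f g : ℤ → ℝ) (n : ℤ) (M : ℝ)
    (hM : 0 ≤ M) (hf : ∀ y, f y ≤ M) (hg : ∀ y, 0 ≤ g y) :
    cv S u v f g n ≤ M * ∑ y ∈ S, g y := by
  rw [cv, sum_comm, mul_sum]
  refine sum_le_sum fun y₂ _ => ?_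
  refine one_le S (fun y₁ => v * y₁ - u * y₂ = n) (fun y₁ => f y₁ * g y₂) _
    (mul_nonneg hM (hg y₂)) (fun y => ?_) fun y y' h h' => ?_
  · exact mul_le_mul_of_nonneg_right (hf y) (hg y₂)
  · exact mul_left_cancel₀ hv (by linarith)

theorem cv_split (S : Finset ℤ) (u v : ℤ) (f g : ℤ → ℝ) (n : ℤ) :
    cv S u v (fun y => f y + g y) (fun y => f y + g y) n =
      cv S u v f f n + cv S u v f g n + cv S u v g (fun y => f y + g y) n := by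
  simp only [cv, ← sum_add_distrib]
  refine sum_congr rfl fun y₁ _ => sum_congr rfl fun y₂ _ => ?_
  split_ifs <;> ring

theorem cv_sq (hGT : St_GT) (X : ℕ) (u v n : ℤ) :
    cv (YS X) u v (sq X) (sq X) n ≤
      (((box (M3 X) ×ˢ box (M3 X)).filter fun m => v * m.1 ^ 2 - u * m.2 ^ 2 = n).card : ℝ) := by
  obtain ⟨-, -, -, -, h5, -⟩ := hGT
  have e1 : cv (YS X) u v (sq X) (sq X) n = ∑ y₁ ∈ YS X, sq X y₁ *
      ∑ m₂ ∈ box (M3 X), w X m₂ * (if v * y₁ - u * m₂ ^ 2 = n then 1 else 0) := by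
    refine sum_congr rfl fun y₁ _ => ?_
    rw [← h5 X fun y₂ => if v * y₁ - u * y₂ = n then 1 else 0, mul_sum]
    refine sum_congr rfl fun y₂ _ => ?_
    split_ifs <;> ring
  rw [e1, h5 X fun y₁ =>
    ∑ m₂ ∈ box (M3 X), w X m₂ * (if v * y₁ - u * m₂ ^ 2 = n then 1 else 0), card_filter,
    sum_product]
  push_cast
  refine sum_le_sum fun m₁ _ => ?_
  rw [mul_sum]
  refine sum_le_sum fun m₂ _ => ?_
  have a1 := w_pos X m₁
  have a2 := w_le_one X m₁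
  have a3 := w_pos X m₂
  have a4 := w_le_one X m₂
  split_ifs
  · nlinarith
  · simp

theorem cv_sum (S T : Finset ℤ) (u v c : ℤ) (q : ℕ) (hq : 1 ≤ q) (hu : IsCoprime u (q : ℤ))
    (f : ℤ → ℝ) (M : ℝ) (hf : ∀ y, 0 ≤ f y)
    (hM : ∀ e : ℤ, (∑ y ∈ S, if (q : ℤ) ∣ y - e then f y else 0) ≤ M) :
    ∑ j ∈ T, cv S u v f f (c + q * j) ≤ M * ∑ y ∈ S, f y := by
  obtain ⟨s, t, hst⟩ := hu
  have hq0 : (q : ℤ) ≠ 0 := by omega
  simp only [cv]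
  rw [sum_comm, mul_sum]
  refine sum_le_sum fun y₁ _ => ?_
  rw [sum_comm, mul_comm M]
  refine le_trans ?_ (mul_le_mul_of_nonneg_left (hM (s * (v * y₁ - c))) (hf y₁))
  rw [mul_sum]
  refine sum_le_sum fun y₂ _ => ?_
  by_cases hd : (q : ℤ) ∣ y₂ - s * (v * y₁ - c)
  · rw [if_pos hd]
    refine one_le T (fun j => v * y₁ - u * y₂ = c + q * j) (fun _ => f y₁ * f y₂) _
      (mul_nonneg (hf _) (hf _)) (fun _ => le_rfl) fun j j' h h' => ?_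
    exact mul_left_cancel₀ hq0 (by linarith)
  · rw [if_neg hd, mul_zero]
    refine le_of_eq (sum_eq_zero fun j _ => if_neg fun h => hd ⟨t * y₂ - s * j, ?_⟩)
    have : v * y₁ - c = u * y₂ + q * j := by linarith
    rw [this]
    linear_combination (-y₂) * hst

theorem gk_le (hGT : St_GT) (hAF : St_AF) (X P q a v₁ v₂ : ℕ) (j : ℤ) :
    |gk X P q a v₁ v₂ j| ≤ cv (YS X) v₁ v₂ (fun y => sq X y + (P : ℝ) ^ 2 * s0 X P y)
      (fun y => sq X y + (P : ℝ) ^ 2 * s0 X P y) ((a : ℤ) * ((v₂ : ℤ) - v₁) + q * j) := by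
  obtain ⟨-, -, -, -, -, -, -, -, h9, -⟩ := hGT
  obtain ⟨-, -, h3, -⟩ := hAF
  have hs : ∀ y, |sg X P y| ≤ sq X y + (P : ℝ) ^ 2 * s0 X P y := fun y => by
    obtain ⟨a1, -, a2, -⟩ := h9 X P y
    have a3 := h3 P y
    calc |sg X P y| ≤ |sq X y| + |md X P y| := abs_sub _ _
      _ = sq X y + s0 X P y * |(nu P y : ℝ)| := by
        rw [abs_of_nonneg a1, md, abs_mul, abs_of_nonneg a2]
      _ ≤ sq X y + s0 X P y * (P : ℝ) ^ 2 := by gcongr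
      _ = _ := by ring
  refine (abs_sum_le_sum_abs _ _).trans (sum_le_sum fun y₁ _ =>
    (abs_sum_le_sum_abs _ _).trans (sum_le_sum fun y₂ _ => ?_))
  split_ifs
  · rw [abs_mul]
    exact mul_le_mul (hs y₁) (hs y₂) (abs_nonneg _) ((abs_nonneg _).trans (hs y₁))
  · simp

theorem num {P L R E Xe C s t : ℝ} (hP : 1 ≤ P) (hL : P ≤ L) (hC : 0 < C) (hE : 0 ≤ E)
    (hs : 0 ≤ s) (ht : 0 ≤ t) (hRE : R ≤ E)
    (h1 : 192 * C * L ^ 4 * E ≤ Xe) (h2 : 2304 * L ^ 9 ≤ Xe) :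
    3 * ((C * R + 12 * P ^ 5) * (32 * P ^ 4 * (s + t))) ≤ Xe * (s + t) := by
  have hP0 : 0 ≤ P := by linarith
  have a1 : P ^ 4 ≤ L ^ 4 := by gcongr
  have a2 : P ^ 9 ≤ L ^ 9 := by gcongr
  have a3 : C * R * P ^ 4 ≤ C * E * L ^ 4 := by gcongr
  have a4 : 96 * (C * R * P ^ 4) + 1152 * P ^ 9 ≤ Xe := by nlinarith
  calc 3 * ((C * R + 12 * P ^ 5) * (32 * P ^ 4 * (s + t)))
      = (96 * (C * R * P ^ 4) + 1152 * P ^ 9) * (s + t) := by ring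
    _ ≤ Xe * (s + t) := by gcongr

end GL2

open GL2 in
theorem blk_GL2 (hPAR : St_PAR) (hGID : St_GID) (hREP : St_REP) (hGT : St_GT) (hIB : St_IB)
    (hAF : St_AF) (hABEL : St_ABEL) : St_GL2 := by
  intro ε B hε
  obtain ⟨C, hC, hR⟩ := hREP (ε / 2) (by positivity)
  filter_upwards [ev_lg 4, ev_lg_sqrt 1 B, ev_lg_sqrt 1 1,
    ev_pow (192 * C) (B * 4) (show ε / 2 < ε by linarith), ev_pow 2304 (B * 9) hε,
    eventually_ge_atTop 1] with X hl hB h1 e1 e2 hX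
  intro P q a v₁ v₂ J N hP hPL hq hv₁ hv₂ hne hlt hs₁ hs₂ hJ hN hJN
  have hGT' := hGT
  obtain ⟨-, -, -, g4, g5, -, -, -, g9, g10⟩ := hGT'
  obtain ⟨-, -, -, a4, -⟩ := hABEL
  have hX0 : (0 : ℝ) < X := by exact_mod_cast hX
  have hs0 : 0 < √(X : ℝ) := Real.sqrt_pos.2 hX0
  have hss : √(X : ℝ) * √(X : ℝ) = X := Real.mul_self_sqrt hX0.le
  have hP1 : (1 : ℝ) ≤ P := by exact_mod_cast hP
  have hPs : (P : ℝ) ≤ √(X : ℝ) := by linarith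
  have hq0 : (0 : ℝ) < q := by exact_mod_cast hq.pos
  obtain ⟨i1, i2, -⟩ := hIB.1 X P hP hPs
  obtain ⟨m1, m2⟩ := M3_bounds hl
  set F : ℤ → ℝ := fun y => sq X y + (P : ℝ) ^ 2 * s0 X P y with hF
  have hsq : ∀ y, 0 ≤ sq X y := fun y => (g9 X P y).1
  have hs0' : ∀ y, 0 ≤ s0 X P y := fun y => (i1.1 y).1
  have hF0 : ∀ y, 0 ≤ F y := fun y => add_nonneg (hsq y) (mul_nonneg (by positivity) (hs0' y))
  have hG : ∀ y, (P : ℝ) ^ 2 * s0 X P y ≤ (P : ℝ) ^ 2 * (2 * P / √(X : ℝ)) := fun y =>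
    mul_le_mul_of_nonneg_left (i1.1 y).2 (by positivity)
  have t1 : ∑ y ∈ YS X, sq X y ≤ 2 * √(X : ℝ) := by
    have := g5 X fun _ => 1
    simp only [mul_one] at this
    rw [this]; exact g4 X _ hX
  have t2 : ∑ y ∈ YS X, F y ≤ 4 * (P : ℝ) ^ 2 * √(X : ℝ) := by
    simp only [hF, sum_add_distrib, ← mul_sum]
    have b1 := mul_le_mul_of_nonneg_left (i2 (YS X)) (show (0 : ℝ) ≤ (P : ℝ) ^ 2 by positivity)
    have b2 : √(X : ℝ) ≤ (P : ℝ) ^ 2 * √(X : ℝ) :=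
      le_mul_of_one_le_left hs0.le (one_le_pow₀ hP1)
    linarith
  -- the supremum
  have hsup : ∀ n : ℤ, cv (YS X) v₁ v₂ F F n ≤ C * (M3 X : ℝ) ^ (ε / 2) + 12 * (P : ℝ) ^ 5 := by
    intro n
    rw [hF, cv_split]
    have b1 := (cv_sq hGT X v₁ v₂ n).trans (hR v₁ v₂ (M3 X) n hv₁ hv₂ hne
      (by exact_mod_cast (show (v₁ : ℝ) ≤ M3 X by linarith))
      (by exact_mod_cast (show (v₂ : ℝ) ≤ M3 X by linarith)))
    have b2 := cv_le_left (YS X) (u := v₁) v₂ (by exact_mod_cast hv₁.ne_zero) (sq X)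
      (fun y => (P : ℝ) ^ 2 * s0 X P y) n _ (by positivity) hsq hG
    have b3 := cv_le_right (YS X) v₁ (v := v₂) (by exact_mod_cast hv₂.ne_zero)
      (fun y => (P : ℝ) ^ 2 * s0 X P y) F n _ (by positivity) hG hF0
    have b4 : (P : ℝ) ^ 2 * (2 * P / √(X : ℝ)) * ∑ y ∈ YS X, sq X y ≤ 4 * (P : ℝ) ^ 5 := by
      calc _ ≤ (P : ℝ) ^ 2 * (2 * P / √(X : ℝ)) * (2 * √(X : ℝ)) := by gcongr
        _ = 4 * (P : ℝ) ^ 3 := by field_simp; ring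
        _ ≤ 4 * (P : ℝ) ^ 5 := by gcongr; norm_num
    have b5 : (P : ℝ) ^ 2 * (2 * P / √(X : ℝ)) * ∑ y ∈ YS X, F y ≤ 8 * (P : ℝ) ^ 5 := by
      calc _ ≤ (P : ℝ) ^ 2 * (2 * P / √(X : ℝ)) * (4 * (P : ℝ) ^ 2 * √(X : ℝ)) := by gcongr
        _ = 8 * (P : ℝ) ^ 5 := by field_simp; ring
    linarith
  -- the total mass
  have hcl : ∀ e : ℤ, (∑ y ∈ YS X, if (q : ℤ) ∣ y - e then F y else 0)
      ≤ 8 * (P : ℝ) ^ 2 * (1 + √(X : ℝ) / q) := by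
    intro e
    have b1 : (∑ y ∈ YS X, if (q : ℤ) ∣ y - e then sq X y else 0) ≤ 4 * √(X : ℝ) / q + 4 := by
      have := g5 X fun y => if (q : ℤ) ∣ e - y then 1 else 0
      simp only [mul_ite, mul_one, mul_zero] at this
      refine le_trans (le_of_eq ?_) (this.le.trans (g10 X q e hX hq))
      exact sum_congr rfl fun y _ => if_congr dvd_sub_comm rfl rfl
    have b2 : (∑ y ∈ YS X, if (q : ℤ) ∣ y - e then s0 X P y else 0) ≤ 2 * √(X : ℝ) / q + 4 := by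
      have c1 := (abs_le.1 (a4 (s0 X P) _ 0 (((M3 X : ℤ) + 1) ^ 2) e q i1 hq.pos)).2
      have c2 : (∑ t ∈ Ico 0 (((M3 X : ℤ) + 1) ^ 2), s0 X P t) / q ≤ 2 * √(X : ℝ) / q := by
        gcongr; exact i2 _
      have c3 : 2 * P / √(X : ℝ) ≤ 2 := by rw [div_le_iff₀ hs0]; linarith
      unfold YS
      linarith
    have b3 : (∑ y ∈ YS X, if (q : ℤ) ∣ y - e then F y else 0) =
        (∑ y ∈ YS X, if (q : ℤ) ∣ y - e then sq X y else 0) +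
          (P : ℝ) ^ 2 * ∑ y ∈ YS X, if (q : ℤ) ∣ y - e then s0 X P y else 0 := by
      rw [mul_sum, ← sum_add_distrib]
      refine sum_congr rfl fun y _ => ?_
      split_ifs
      · rfl
      · simp
    have b4 := mul_le_mul_of_nonneg_left b2 (show (0 : ℝ) ≤ (P : ℝ) ^ 2 by positivity)
    have b5 : (1 : ℝ) ≤ (P : ℝ) ^ 2 := one_le_pow₀ hP1
    have b6 : 0 ≤ √(X : ℝ) / q := by positivity
    rw [b3]
    rw [mul_div_assoc] at b1 b4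
    nlinarith
  have hco : IsCoprime (v₁ : ℤ) (q : ℤ) :=
    Nat.isCoprime_iff_coprime.2 ((Nat.coprime_primes hv₁ hq).2 hlt.ne)
  have hL1 : ∑ j ∈ box J, cv (YS X) v₁ v₂ F F ((a : ℤ) * ((v₂ : ℤ) - v₁) + q * j)
      ≤ 32 * (P : ℝ) ^ 4 * (√(X : ℝ) + X / q) := by
    refine (cv_sum (YS X) (box J) v₁ v₂ _ q hq.pos hco F _ hF0 hcl).trans ?_
    calc _ ≤ 8 * (P : ℝ) ^ 2 * (1 + √(X : ℝ) / q) * (4 * (P : ℝ) ^ 2 * √(X : ℝ)) := by gcongr
      _ = 32 * (P : ℝ) ^ 4 * (√(X : ℝ) + √(X : ℝ) * √(X : ℝ) / q) := by ring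
      _ = _ := by rw [hss]
  have hM : (M3 X : ℝ) ^ (ε / 2) ≤ (X : ℝ) ^ (ε / 2) := by
    refine Real.rpow_le_rpow (by positivity) ?_ (by positivity)
    have : lg X * √(X : ℝ) ≤ √(X : ℝ) * √(X : ℝ) := by gcongr; linarith
    linarith
  have hsq2 : ∑ j ∈ box J, ‖(gk X P q a v₁ v₂ j : ℂ)‖ ^ 2 ≤
      (C * (M3 X : ℝ) ^ (ε / 2) + 12 * (P : ℝ) ^ 5) * (32 * (P : ℝ) ^ 4 * (√(X : ℝ) + X / q)) := by
    refine le_trans ?_ (mul_le_mul_of_nonneg_left hL1 (by positivity))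
    rw [mul_sum]
    refine sum_le_sum fun j _ => ?_
    rw [Complex.norm_real, Real.norm_eq_abs, pow_two]
    have b1 := gk_le hGT hAF X P q a v₁ v₂ j
    exact mul_le_mul (b1.trans (hsup _)) b1 (abs_nonneg _) (by positivity)
  have hpar := hPAR ℤ (box J) id (fun j => (gk X P q a v₁ v₂ j : ℂ)) N (2 * J) hN (by positivity)
    (Set.injOn_id _) fun x hx y hy => by
      have c1 : |(x : ℝ)| ≤ J := by exact_mod_cast mem_box.1 hx
      have c2 : |(y : ℝ)| ≤ J := by exact_mod_cast mem_box.1 hy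
      have c3 := abs_sub (x : ℝ) y
      simp only [id]
      linarith
  simp only [id] at hpar
  simp only [hGID X P q a v₁ v₂ J _ hq.pos hJ]
  refine hpar.trans ?_
  have hJN' : (J : ℝ) ≤ N := by exact_mod_cast hJN
  rw [pow_mul] at e1 e2
  rw [Real.rpow_zero, mul_one] at e2
  have fin := num hP1 hPL hC (by positivity) hs0.le (show (0 : ℝ) ≤ X / q by positivity)
    hM e1 e2
  calc _ ≤ (N + 2 * N : ℝ) * ((C * (M3 X : ℝ) ^ (ε / 2) + 12 * (P : ℝ) ^ 5) *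
        (32 * (P : ℝ) ^ 4 * (√(X : ℝ) + X / q))) := by gcongr
    _ = N * (3 * ((C * (M3 X : ℝ) ^ (ε / 2) + 12 * (P : ℝ) ^ 5) *
        (32 * (P : ℝ) ^ 4 * (√(X : ℝ) + X / q)))) := by ring
    _ ≤ _ := by gcongr

end Pool.Agent.Lib.APQ
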