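import Pool.Agent.Lib.APQ.Kit

namespace Pool.Agent.Lib.APQ

open Finset Real Complex Filter Pool.Agent.Lib.PS
open scoped NumberTheorySymbols ArithmeticFunction.Moebius Classical ComplexConjugate

namespace GS

theorem crt (A h : ℤ) (q r : ℕ) (hq : 1 ≤ q) (hr : 1 ≤ r) (hc : Nat.Coprime q r) :
    GG A h (q * r) = GG (A * r) h q * GG (A * q) h r := by
  unfold GG
  rw [sum_mul_sum, ← sum_product']
  have hpos : 0 < q * r := Nat.mul_pos hq hr
  have hinj : ∀ a ∈ range q ×ˢ range r, ∀ b ∈ range q ×ˢ range r,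
      (r * a.1 + q * a.2) % (q * r) = (r * b.1 + q * b.2) % (q * r) → a = b := by
    intro a ha b hb e
    rw [mem_product, mem_range, mem_range] at ha hb
    have e' : r * a.1 + q * a.2 ≡ r * b.1 + q * b.2 [MOD q * r] := e
    have e1 : r * a.1 ≡ r * b.1 [MOD q] := by
      have := e'.of_mul_right r
      simpa [Nat.ModEq] using this
    have e2 : q * a.2 ≡ q * b.2 [MOD r] := by
      have := e'.of_mul_left q
      simpa [Nat.ModEq] using this
    exact Prod.ext (Nat.ModEq.eq_of_lt_of_lt (Nat.ModEq.cancel_left_of_coprime hc e1) ha.1 hb.1)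
      (Nat.ModEq.eq_of_lt_of_lt (Nat.ModEq.cancel_left_of_coprime hc.symm e2) ha.2 hb.2)
  symm
  refine sum_bij (fun a _ => (r * a.1 + q * a.2) % (q * r))
    (fun a _ => mem_range.2 (Nat.mod_lt _ hpos)) hinj (fun b hb => ?_) fun a _ => ?_
  · obtain ⟨a, ha, e⟩ := surj_on_of_inj_on_of_card_le
      (fun (a : ℕ × ℕ) (_ : a ∈ range q ×ˢ range r) => (r * a.1 + q * a.2) % (q * r))
      (fun a _ => mem_range.2 (Nat.mod_lt _ hpos)) (fun a b ha hb e => hinj a ha b hb e)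
      (by simp) b hb
    exact ⟨a, ha, e.symm⟩
  · obtain ⟨x, y⟩ := a
    simp only
    generalize hk : (r * x + q * y) / (q * r) = k
    have e1 : ((((r * x + q * y) % (q * r) : ℕ)) : ℝ) = r * x + q * y - q * r * k := by
      have := Nat.mod_add_div (r * x + q * y) (q * r)
      rw [hk] at this
      have h2 := congrArg (Nat.cast : ℕ → ℝ) this
      push_cast at h2 ⊢
      linarith
    rw [e1, ← maj_ee_add, ← ee_add_int _
      (2 * A * x * y - 2 * A * (r * x + q * y) * k + A * q * r * k ^ 2 - h * k)]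
    congr 1
    have hq' : (q : ℝ) ≠ 0 := by positivity
    have hr' : (r : ℝ) ≠ 0 := by positivity
    push_cast
    field_simp
    ring

theorem GG_zmod (q : ℕ) [NeZero q] (A h : ℤ) :
    GG A h q = ∑ m : ZMod q, ZMod.stdAddChar ((A : ZMod q) * m ^ 2 + (h : ZMod q) * m) := by
  unfold GG
  rw [← gau_sum_zmod]
  refine sum_congr rfl fun m _ => ?_
  have := gau_ee_eq q (A * (m : ℤ) ^ 2 + h * m)
  push_cast at this
  exact this

theorem sq_sum (q : ℕ) [Fact q.Prime] (hq : q ≠ 2) (a : ZMod q) (ha : a ≠ 0) :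
    ∑ m : ZMod q, ZMod.stdAddChar (a * m ^ 2) =
      ∑ t : ZMod q, ((quadraticChar (ZMod q) t : ℤ) : ℂ) * ZMod.stdAddChar (a * t) := by
  have hch : ringChar (ZMod q) ≠ 2 := by rw [ZMod.ringChar_zmod_n]; exact hq
  have h0 : ∑ t : ZMod q, ZMod.stdAddChar (a * t) = 0 := by
    have := AddChar.sum_mulShift (ψ := (ZMod.stdAddChar : AddChar (ZMod q) ℂ)) a
      (ZMod.isPrimitive_stdAddChar q)
    rw [if_neg ha] at this
    simp only [mul_comm a]
    exact_mod_cast this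
  rw [← sum_fiberwise (s := univ) (g := fun m : ZMod q => m ^ 2), ← add_zero (∑ t : ZMod q,
    ((quadraticChar (ZMod q) t : ℤ) : ℂ) * ZMod.stdAddChar (a * t)), ← h0, ← sum_add_distrib]
  refine sum_congr rfl fun t _ => ?_
  rw [sum_congr rfl (g := fun _ => ZMod.stdAddChar (a * t))
    (fun m hm => by rw [(mem_filter.1 hm).2]), sum_const, nsmul_eq_mul]
  have h1 := quadraticChar_card_sqrts hch t
  rw [Set.toFinset_ofPred] at h1
  have h2 : (((univ.filter fun m : ZMod q => m ^ 2 = t).card : ℕ) : ℂ) =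
      ((quadraticChar (ZMod q) t : ℤ) : ℂ) + 1 := by exact_mod_cast h1
  rw [h2]
  ring

theorem twist (q : ℕ) [Fact q.Prime] (a : ZMod q) (ha : a ≠ 0) :
    ∑ t : ZMod q, ((quadraticChar (ZMod q) t : ℤ) : ℂ) * ZMod.stdAddChar (a * t) =
      ((quadraticChar (ZMod q) a : ℤ) : ℂ) *
        ∑ t : ZMod q, ((quadraticChar (ZMod q) t : ℤ) : ℂ) * ZMod.stdAddChar (1 * t) := by
  rw [← Equiv.sum_comp (Equiv.mulLeft₀ a ha) fun t : ZMod q =>
    ((quadraticChar (ZMod q) t : ℤ) : ℂ) * ZMod.stdAddChar (1 * t), mul_sum]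
  refine sum_congr rfl fun t _ => ?_
  have h1 : ((quadraticChar (ZMod q) a : ℤ) : ℂ) ^ 2 = 1 := by
    exact_mod_cast quadraticChar_sq_one ha
  simp only [Equiv.mulLeft₀_apply, map_mul, one_mul, Int.cast_mul]
  linear_combination (-(((quadraticChar (ZMod q) t : ℤ) : ℂ) * ZMod.stdAddChar (a * t))) * h1

theorem prime_case (q : ℕ) [Fact q.Prime] (A h : ℤ) (hq : q ≠ 2) (hA : ¬ (q : ℤ) ∣ A) :
    GG A h q = ((quadraticChar (ZMod q) (A : ZMod q) : ℤ) : ℂ) * GG 1 0 q *
      ZMod.stdAddChar (-((h : ZMod q) ^ 2 * (4 * (A : ZMod q))⁻¹)) := by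
  have ha : (A : ZMod q) ≠ 0 := fun e => hA ((ZMod.intCast_zmod_eq_zero_iff_dvd A q).1 e)
  have h2 : (2 : ZMod q) ≠ 0 := Ring.two_ne_zero (by rw [ZMod.ringChar_zmod_n]; exact hq)
  have h4 : (4 : ZMod q) ≠ 0 := by
    have := mul_ne_zero h2 h2
    norm_num at this
    exact this
  have e1 : GG 1 0 q =
      ∑ t : ZMod q, ((quadraticChar (ZMod q) t : ℤ) : ℂ) * ZMod.stdAddChar (1 * t) := by
    rw [GG_zmod, ← sq_sum q hq 1 one_ne_zero]
    simp
  rw [e1, ← twist q _ ha, ← sq_sum q hq _ ha, GG_zmod, sum_mul,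
    ← Equiv.sum_comp (Equiv.subRight ((h : ZMod q) * (2 * (A : ZMod q))⁻¹))]
  refine sum_congr rfl fun m _ => ?_
  rw [← AddChar.map_add_eq_mul]
  congr 1
  simp only [Equiv.subRight_apply]
  field_simp
  ring

end GS

theorem blk_GS : St_GS := by
  refine ⟨GS.crt, fun q _ A h hq hA => GS.prime_case q A h hq hA,
    fun A h r hr hA => blk_GAU.1 r A h hr hA, fun A A' h r hd => ?_⟩
  rcases Nat.eq_zero_or_pos r with rfl | hr
  · simp [GG]
  obtain ⟨k, hk⟩ := hd
  unfold GG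
  refine sum_congr rfl fun m _ => ?_
  rw [← ee_add_int (((A' : ℝ) * (m : ℝ) ^ 2 + (h : ℝ) * m) / r) (k * (m : ℤ) ^ 2)]
  congr 1
  have hr' : (r : ℝ) ≠ 0 := by positivity
  have e : (A : ℝ) = A' + r * k := by
    have := congrArg (Int.cast : ℤ → ℝ) hk
    push_cast at this
    linarith
  rw [e]
  push_cast
  field_simp
  ring

end Pool.Agent.Lib.APQ
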