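import Pool.Agent.Lib.APQ.Kit

/-!
Gaussian weights and the weighted squares.
-/

namespace Pool.Agent.Lib.APQ

open Finset Real Complex Filter Pool.Agent.Lib.PS
open scoped NumberTheorySymbols ArithmeticFunction.Moebius Classical ComplexConjugate

namespace GT

theorem ga_le {W s t : ℝ} (h : t ^ 2 ≤ s ^ 2) : ga W s ≤ ga W t :=
  Real.exp_le_exp.2 (neg_le_neg (div_le_div_of_nonneg_right
    (mul_le_mul_of_nonneg_left h Real.pi_pos.le) (sq_nonneg W)))

theorem ga_neg (W t : ℝ) : ga W (-t) = ga W t := by unfold ga; rw [neg_sq]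

theorem two (W c : ℝ) (N : ℕ) (hc : ∀ K : ℕ, ∑ j ∈ range K, ga W ((N : ℝ) + 1 + j) ≤ c)
    (S : Finset ℤ) (hS : ∀ h ∈ S, (N : ℤ) < |h|) : ∑ h ∈ S, ga W h ≤ 2 * c := by
  set K := S.sup Int.natAbs with hK
  have h1 : S ⊆ (range K).image (fun j : ℕ => (N : ℤ) + 1 + j) ∪
      (range K).image (fun j : ℕ => -((N : ℤ) + 1 + j)) := by
    intro h hh
    have h2 := hS h hh
    have h3 : h.natAbs ≤ K := Finset.le_sup (f := Int.natAbs) hh
    rw [← Int.natCast_natAbs] at h2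
    simp only [mem_union, mem_image, mem_range]
    rcases le_total 0 h with h0 | h0
    · exact Or.inl ⟨h.natAbs - (N + 1), by omega, by omega⟩
    · exact Or.inr ⟨h.natAbs - (N + 1), by omega, by omega⟩
  refine (sum_le_sum_of_subset_of_nonneg h1 fun _ _ _ => (ga_pos _ _).le).trans ?_
  have h2 := sum_union_inter (s₁ := (range K).image (fun j : ℕ => (N : ℤ) + 1 + j))
    (s₂ := (range K).image (fun j : ℕ => -((N : ℤ) + 1 + j))) (f := fun h : ℤ => ga W h)
  rw [sum_image fun a _ b _ h => by simpa using h,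
    sum_image fun a _ b _ h => by simpa using h] at h2
  have h3 : 0 ≤ ∑ h ∈ (range K).image (fun j : ℕ => (N : ℤ) + 1 + j) ∩
      (range K).image (fun j : ℕ => -((N : ℤ) + 1 + j)), ga W h :=
    sum_nonneg fun _ _ => (ga_pos _ _).le
  have h4 := hc K
  push_cast at h2
  simp only [ga_neg] at h2
  linarith

theorem half {W : ℝ} (hW : 0 < W) (K : ℕ) :
    ∑ j ∈ range K, ga W (((0 : ℕ) : ℝ) + 1 + j) ≤ W / 2 := by
  have h1 : AntitoneOn (ga W) (Set.Icc (0 : ℝ) (0 + K)) := fun a ha b _ hab =>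
    ga_le (pow_le_pow_left₀ ha.1 hab 2)
  have h2 := h1.sum_le_integral
  have hb : 0 < π / W ^ 2 := by positivity
  have e : ga W = fun x => Real.exp (-(π / W ^ 2) * x ^ 2) := by
    funext x; unfold ga; congr 1; ring
  have h3 : ∫ x in (0 : ℝ)..0 + K, ga W x ≤ W / 2 := by
    rw [intervalIntegral.integral_of_le (by positivity), e]
    refine (MeasureTheory.setIntegral_mono_set (integrable_exp_neg_mul_sq hb).integrableOn
      (Eventually.of_forall fun x => (Real.exp_pos _).le)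
      (Set.Ioc_subset_Ioi_self (b := 0)).eventuallyLE).trans_eq ?_
    rw [integral_gaussian_Ioi, show π / (π / W ^ 2) = W ^ 2 by field_simp, Real.sqrt_sq hW.le]
  refine le_trans (le_of_eq (sum_congr rfl fun j _ => ?_)) (h2.trans h3)
  congr 1; push_cast; ring

theorem one {W : ℝ} (S : Finset ℤ) (hW : 0 < W) : ∑ h ∈ S, ga W h ≤ 1 + W := by
  have h1 := two W (W / 2) 0 (half hW) (S.erase 0) fun h hh => by
    simpa using ne_of_mem_erase hh
  refine (sum_le_sum_of_subset_of_nonneg (subset_insert_iff.2 (Subset.refl (S.erase 0)))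
    fun _ _ _ => (ga_pos _ _).le).trans ?_
  rw [sum_insert (notMem_erase _ _)]
  linarith [ga_le_one W ((0 : ℤ) : ℝ)]

theorem tail {W : ℝ} (hW : 0 < W) (N K : ℕ) : ∑ j ∈ range K, ga W ((N : ℝ) + 1 + j) ≤
    (1 + W ^ 2) * Real.exp (-(π * ((N : ℝ) + 1) ^ 2 / W ^ 2)) := by
  set r : ℝ := W ^ 2 / (1 + W ^ 2) with hr
  have hW2 : 0 < W ^ 2 := by positivity
  have r0 : 0 ≤ r := by positivity
  have h1 : Real.exp (-(π / W ^ 2)) ≤ r := by
    have h2 := Real.add_one_le_exp (π / W ^ 2)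
    have h3 : 1 / W ^ 2 ≤ π / W ^ 2 :=
      div_le_div_of_nonneg_right (by linarith [Real.pi_gt_three]) hW2.le
    rw [Real.exp_neg, show r = (1 / W ^ 2 + 1)⁻¹ by rw [hr]; field_simp]
    exact inv_anti₀ (by positivity) (by linarith)
  have h2 : ∀ j : ℕ, ga W ((N : ℝ) + 1 + j) ≤
      r ^ j * Real.exp (-(π * ((N : ℝ) + 1) ^ 2 / W ^ 2)) := fun j => by
    refine le_trans ?_ (mul_le_mul_of_nonneg_right
      (pow_le_pow_left₀ (Real.exp_pos _).le h1 j) (Real.exp_pos _).le)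
    rw [← Real.exp_nat_mul, ← Real.exp_add]
    refine Real.exp_le_exp.2 ?_
    have h3 : ((N : ℝ) + 1) ^ 2 + j ≤ ((N : ℝ) + 1 + j) ^ 2 := by
      have : (0 : ℝ) ≤ N := by positivity
      have : (0 : ℝ) ≤ j := by positivity
      nlinarith
    have h4 := div_le_div_of_nonneg_right (mul_le_mul_of_nonneg_left h3 Real.pi_pos.le) hW2.le
    refine (neg_le_neg h4).trans_eq ?_
    ring
  refine (sum_le_sum fun j _ => h2 j).trans ?_
  rw [← sum_mul]
  refine mul_le_mul_of_nonneg_right ?_ (Real.exp_pos _).le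
  have h3 := geom_sum_mul_neg r K
  have h4 : 1 - r = 1 / (1 + W ^ 2) := by rw [hr]; field_simp; ring
  rw [h4, mul_one_div, div_eq_iff (by positivity)] at h3
  rw [h3]
  have := pow_nonneg r0 K
  nlinarith

theorem uni (X : ℕ) : Uni (w X) 1 := by
  refine ⟨fun t => ⟨(w_pos X t).le, w_le_one X t⟩, 0, fun s t h1 h2 => ga_le ?_,
    fun s t h1 h2 => ga_le ?_⟩
  · have : t ^ 2 ≤ s ^ 2 := by nlinarith
    exact_mod_cast this
  · have : s ^ 2 ≤ t ^ 2 := by nlinarith
    exact_mod_cast this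

theorem four {X : ℕ} (S : Finset ℤ) (hX : 1 ≤ X) : ∑ m ∈ S, w X m ≤ 2 * √(X : ℝ) := by
  have h1 : (1 : ℝ) ≤ √(X : ℝ) := Real.one_le_sqrt.2 (by exact_mod_cast hX)
  have h2 := one (W := √(X : ℝ)) S (by linarith)
  unfold w
  linarith

theorem sq_mem {X : ℕ} {m : ℤ} (h : m ∈ box (M3 X)) : m ^ 2 ∈ YS X := by
  rw [mem_box] at h
  rw [YS, mem_Ico, ← sq_abs]
  have := abs_nonneg m
  constructor <;> nlinarith

theorem five (X : ℕ) (F : ℤ → ℝ) :
    ∑ y ∈ YS X, sq X y * F y = ∑ m ∈ box (M3 X), w X m * F (m ^ 2) := by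
  simp only [sq, sum_mul, ite_mul, zero_mul]
  rw [sum_comm]
  refine sum_congr rfl fun m hm => ?_
  rw [sum_ite_eq, if_pos (sq_mem hm)]

theorem six (X : ℕ) (α : ℝ) :
    TT X α = ∑ m ∈ box (M3 X), (w X m : ℂ) * ee ((m : ℝ) ^ 2 * α) := by
  simp only [TT, ft, sq, Complex.ofReal_sum, apply_ite Complex.ofReal, Complex.ofReal_zero,
    sum_mul, ite_mul, zero_mul]
  rw [sum_comm]
  refine sum_congr rfl fun m hm => ?_
  rw [sum_ite_eq, if_pos (sq_mem hm), Int.cast_pow]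

theorem eight (X n : ℕ) (f : ℕ → ℝ) : AA X n f =
    ∑ m ∈ box (M3 X), if m ^ 2 < (n : ℤ) then w X m * f ((n : ℤ) - m ^ 2).toNat else 0 := by
  simp only [AA, sq, sum_mul, ite_mul, zero_mul]
  rw [sum_comm]
  refine sum_congr rfl fun m _ => ?_
  have h0 := sq_nonneg m
  generalize m ^ 2 = y at h0 ⊢
  split_ifs with h
  · rw [sum_eq_single ((n : ℤ) - y).toNat, if_pos (by omega)]
    · intro b _ hb
      rw [if_neg (by omega)]
    · intro hb
      exact absurd (mem_Icc.2 ⟨by omega, by omega⟩) hb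
  · refine sum_eq_zero fun x hx => ?_
    have := (mem_Icc.1 hx).1
    rw [if_neg (by omega)]

theorem sq_le (X : ℕ) (y : ℤ) : sq X y ≤ 2 := by
  unfold sq
  rw [← sum_filter]
  refine (sum_le_card_nsmul _ _ 1 fun m _ => w_le_one X m).trans ?_
  rw [nsmul_eq_mul, mul_one]
  have : ((box (M3 X)).filter fun m => m ^ 2 = y).card ≤ 2 := by
    rcases ((box (M3 X)).filter fun m => m ^ 2 = y).eq_empty_or_nonempty with h | ⟨a, ha⟩
    · rw [h]; simp
    · refine (card_le_card (t := {a, -a}) fun b hb => ?_).trans card_le_two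
      have h1 := (mem_filter.1 hb).2.trans (mem_filter.1 ha).2.symm
      simpa using sq_eq_sq_iff_eq_or_eq_neg.1 h1
  exact_mod_cast this

theorem nine (X P : ℕ) (y : ℤ) : 0 ≤ sq X y ∧ sq X y ≤ 2 ∧ 0 ≤ s0 X P y ∧
    (y ∉ YS X → sq X y = 0 ∧ s0 X P y = 0 ∧ sg X P y = 0) := by
  refine ⟨sum_nonneg fun m _ => ?_, sq_le X y, ?_, fun hy => ?_⟩
  · split_ifs
    · exact (w_pos X m).le
    · exact le_rfl
  · unfold s0
    split_ifs
    · have := w_pos X (Nat.sqrt y.toNat : ℕ)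
      positivity
    · exact le_rfl
  · have h1 : sq X y = 0 := sum_eq_zero fun m hm => if_neg fun h : m ^ 2 = y => hy (h ▸ sq_mem hm)
    have h2 : s0 X P y = 0 := by
      refine if_neg fun h => hy (mem_Ico.2 ⟨h.1, ?_⟩)
      have h3 : y.toNat < (M3 X + 1) ^ 2 := Nat.sqrt_lt'.1 (Nat.lt_succ_of_le h.2.2)
      have h4 : ((y.toNat : ℕ) : ℤ) < ((M3 X : ℤ) + 1) ^ 2 := by exact_mod_cast h3
      rwa [Int.toNat_of_nonneg h.1] at h4
    exact ⟨h1, h2, by rw [sg, md, h1, h2, zero_mul, sub_zero]⟩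

theorem ten (hABEL : St_ABEL) (hAG : St_AG) (X p : ℕ) (n : ℤ) (hX : 1 ≤ X) (hp : p.Prime) :
    (∑ m ∈ box (M3 X), if (p : ℤ) ∣ n - m ^ 2 then w X m else 0) ≤ 4 * √(X : ℝ) / p + 4 := by
  set C := (range p).filter fun c : ℕ => (p : ℤ) ∣ (c : ℤ) ^ 2 - n with hC
  have p0 : (0 : ℤ) < p := by exact_mod_cast hp.pos
  have p1 : (0 : ℝ) < p := by exact_mod_cast hp.pos
  have h0 : ∀ (m : ℤ) (c : ℕ), 0 ≤ if (p : ℤ) ∣ m - c then w X m else 0 := fun m c => by
    split_ifs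
    · exact (w_pos X m).le
    · exact le_rfl
  have h1 : ∀ m : ℤ, (if (p : ℤ) ∣ n - m ^ 2 then w X m else 0) ≤
      ∑ c ∈ C, if (p : ℤ) ∣ m - c then w X m else 0 := fun m => by
    split_ifs with h
    · have e : (((m % p).toNat : ℕ) : ℤ) = m % p := Int.toNat_of_nonneg (Int.emod_nonneg _ p0.ne')
      have d : (p : ℤ) ∣ m - m % p := Int.dvd_self_sub_emod
      have hm : (m % p).toNat ∈ C := by
        refine mem_filter.2 ⟨mem_range.2 ?_, ?_⟩
        · have := Int.emod_lt_of_pos m p0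
          omega
        · rw [e, show (m % p) ^ 2 - n = -(n - m ^ 2) - (m - m % p) * (m + m % p) by ring]
          exact dvd_sub (dvd_neg.2 h) (d.mul_right _)
      refine le_trans ?_ (single_le_sum (fun c _ => h0 m c) hm)
      rw [e, if_pos d]
    · exact sum_nonneg fun c _ => h0 m c
  refine (sum_le_sum fun m _ => h1 m).trans ?_
  rw [sum_comm]
  have h2 : ∀ c ∈ C, (∑ m ∈ box (M3 X), if (p : ℤ) ∣ m - c then w X m else 0) ≤
      2 * √(X : ℝ) / p + 2 := fun c _ => by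
    have h3 := (abs_le.1 (hABEL.2.2.2.1 (w X) 1 (-(M3 X : ℤ)) (M3 X + 1) c p (uni X) hp.pos)).2
    have h4 := div_le_div_of_nonneg_right (four (Ico (-(M3 X : ℤ)) (M3 X + 1)) hX) p1.le
    rw [box_eq]
    linarith
  refine (sum_le_card_nsmul _ _ _ h2).trans ?_
  have h5 : (C.card : ℝ) ≤ 2 := by exact_mod_cast (hAG.2.1 p n hp).1
  rw [nsmul_eq_mul]
  refine (mul_le_mul_of_nonneg_right h5 (by positivity)).trans_eq ?_
  ring

end GT

theorem blk_GT (hABEL : St_ABEL) (hAG : St_AG) : St_GT := by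
  refine ⟨fun W S hW => GT.one S hW, fun W N S hW hS => ?_, GT.uni, fun X S hX => GT.four S hX,
    GT.five, GT.six, fun X α hX => ?_, GT.eight, GT.nine, GT.ten hABEL hAG⟩
  · rw [mul_assoc]
    exact GT.two W _ N (GT.tail hW N) S hS
  · rw [GT.six]
    refine (norm_sum_le _ _).trans (le_trans (le_of_eq (sum_congr rfl fun m _ => ?_))
      (GT.four (box (M3 X)) hX))
    rw [norm_mul, maj_ee_norm, mul_one, Complex.norm_real, Real.norm_of_nonneg (w_pos X m).le]

end Pool.Agent.Lib.APQ
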