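import Pool.Agent.Lib.APQ.Kit

/-!
The smoothed squares: unimodality, mass and comparison with the squares.
-/

namespace Pool.Agent.Lib.APQ

open Finset Real Complex Filter Pool.Agent.Lib.PS
open scoped NumberTheorySymbols ArithmeticFunction.Moebius Classical ComplexConjugate

namespace IB

/-- the integers between two consecutive squares -/
noncomputable def Im (m : ℕ) : Finset ℤ := Ico ((m : ℤ) ^ 2) (((m : ℤ) + 1) ^ 2)

/-- the height of a step -/
noncomputable def cc (X : ℕ) (m : ℕ) : ℝ := 2 * w X m / (2 * m + 1)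

/-- multiplicity of a square -/
def ka (m : ℕ) : ℝ := if m = 0 then 1 else 2

theorem fib {E : Type} [AddCommMonoid E] (F : ℤ → E) (K : ℕ) :
    ∑ y ∈ Ico 0 ((K : ℤ) ^ 2), F y = ∑ m ∈ range K, ∑ y ∈ Im m, F y := by
  induction K with
  | zero => simp
  | succ K ih =>
    rw [sum_range_succ, ← ih, Im, ← sum_union (Ico_disjoint_Ico_consecutive _ _ _),
      Ico_union_Ico_eq_Ico (by positivity) (by nlinarith [Int.natCast_nonneg K])]
    push_cast
    rfl

theorem fibY {E : Type} [AddCommMonoid E] (F : ℤ → E) (X : ℕ) :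
    ∑ y ∈ YS X, F y = ∑ m ∈ range (M3 X + 1), ∑ y ∈ Im m, F y := by
  rw [← fib, YS]
  push_cast
  rfl

theorem card_Im (m : ℕ) : ((Im m).card : ℝ) = 2 * m + 1 := by
  have : (Im m).card = 2 * m + 1 := by
    rw [Im, Int.card_Ico, show ((m : ℤ) + 1) ^ 2 - (m : ℤ) ^ 2 = ((2 * m + 1 : ℕ) : ℤ) by
      push_cast; ring, Int.toNat_natCast]
  rw [this]
  push_cast
  rfl

theorem sqrt_Im {m : ℕ} {y : ℤ} (h : y ∈ Im m) : 0 ≤ y ∧ Nat.sqrt y.toNat = m := by
  rw [Im, mem_Ico] at h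
  have h0 : 0 ≤ y := (sq_nonneg _).trans h.1
  lift y to ℕ using h0
  refine ⟨by positivity, ?_⟩
  rw [Int.toNat_natCast, eq_comm, Nat.eq_sqrt']
  exact ⟨by exact_mod_cast h.1, by exact_mod_cast h.2⟩

theorem s0_Im {X P m : ℕ} {y : ℤ} (hm : m ∈ range (M3 X + 1)) (h : y ∈ Im m) :
    s0 X P y = if m0 X P ≤ m then cc X m else 0 := by
  obtain ⟨h0, h1⟩ := sqrt_Im h
  have h2 : m ≤ M3 X := by simpa [Nat.lt_succ_iff] using hm
  simp only [s0, h1, h0, h2, true_and, and_true, cc]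

theorem cc_nonneg (X m : ℕ) : 0 ≤ cc X m := by
  have := w_pos X m
  unfold cc
  positivity

theorem cc_card (X m : ℕ) : (2 * m + 1) * cc X m = 2 * w X m := by
  unfold cc
  field_simp

theorem w_anti (X : ℕ) {a b : ℕ} (h : a ≤ b) : w X b ≤ w X a := by
  have h1 : (a : ℝ) ≤ b := by exact_mod_cast h
  unfold w ga
  push_cast
  gcongr

theorem cc_anti (X : ℕ) {a b : ℕ} (h : a ≤ b) : cc X b ≤ cc X a := by
  have h1 : (a : ℝ) ≤ b := by exact_mod_cast h
  have h2 := w_anti X h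
  have h3 := w_pos X a
  unfold cc
  gcongr

theorem s0_nonneg (X P : ℕ) (y : ℤ) : 0 ≤ s0 X P y := by
  unfold s0
  split_ifs
  · exact cc_nonneg X _
  · exact le_rfl

theorem box_sum {E : Type} [AddCommGroup E] [Module ℝ E] (g : ℤ → E) (hg : ∀ m, g (-m) = g m)
    (N : ℕ) : ∑ m ∈ box N, g m = ∑ m ∈ range (N + 1), ka m • g m := by
  induction N with
  | zero => simp [box, ka]
  | succ N ih =>
    have e : box (N + 1) = insert (-((N + 1 : ℕ) : ℤ)) (insert ((N + 1 : ℕ) : ℤ) (box N)) := by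
      ext m
      simp only [box, mem_Icc, mem_insert]
      omega
    rw [e, sum_insert (by simp only [box, mem_Icc, mem_insert]; omega),
      sum_insert (by simp only [box, mem_Icc]; omega), ih, sum_range_succ _ (N + 1), hg, ka,
      if_neg (Nat.succ_ne_zero N), two_smul]
    abel

theorem w_neg (X : ℕ) (m : ℤ) : w X (-m) = w X m := by simp [w, ga]

theorem ka_le (m : ℕ) : 0 ≤ ka m ∧ ka m ≤ 2 := by
  unfold ka
  split_ifs <;> norm_num

theorem ka_eq {m : ℕ} (h : 1 ≤ m) : ka m = 2 := if_neg (by omega)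

theorem mass (hGT : St_GT) {X : ℕ} (hX : 1 ≤ X) :
    ∑ m ∈ range (M3 X + 1), ka m * w X m ≤ 2 * √(X : ℝ) := by
  have := hGT.2.2.2.1 X (box (M3 X)) hX
  rwa [box_sum _ (w_neg X)] at this

theorem head (a N : ℕ) : ∑ m ∈ range N, (if m < a then (2 : ℝ) else 0) ≤ 2 * a := by
  rw [← sum_filter, sum_const, nsmul_eq_mul, mul_comm]
  have : ((range N).filter (· < a)).card ≤ a :=
    (card_le_card (t := range a) fun m hm => mem_range.2 (mem_filter.1 hm).2).trans (by simp)
  have h2 : (((range N).filter (· < a)).card : ℝ) ≤ a := by exact_mod_cast this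
  linarith

theorem BB_eq (X P n : ℕ) : BB X P n (fun _ => 1) =
    ∑ m ∈ range (M3 X + 1), ∑ y ∈ Im m, if y < n then s0 X P y else 0 := by
  rw [← fibY (fun y => if y < n then s0 X P y else 0), ← sum_filter, BB]
  simp only [mul_one]
  have e : ∑ x ∈ Icc 1 n, s0 X P ((n : ℤ) - x) = ∑ y ∈ Ico (0 : ℤ) n, s0 X P y := by
    refine sum_nbij' (fun x => (n : ℤ) - x) (fun y => ((n : ℤ) - y).toNat) ?_ ?_ ?_ ?_ ?_
    · intro x hx
      simp only [mem_Icc, mem_Ico] at hx ⊢
      omega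
    · intro y hy
      simp only [mem_Icc, mem_Ico] at hy ⊢
      omega
    · intro x hx
      simp
    · intro y hy
      simp only [mem_Ico] at hy
      omega
    · intro x _
      rfl
  rw [e]
  symm
  refine sum_subset (fun y hy => ?_) fun y hy hy' => ?_
  · simp only [mem_filter, YS, mem_Ico] at hy ⊢
    exact ⟨hy.1.1, hy.2⟩
  · simp only [mem_filter, YS, mem_Ico] at hy hy'
    refine if_neg fun h => hy' ⟨⟨hy.1, ?_⟩, hy.2⟩
    obtain ⟨h0, -, h1⟩ := h
    lift y to ℕ using h0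
    rw [Int.toNat_natCast, ← Nat.lt_succ_iff, Nat.sqrt_lt'] at h1
    exact_mod_cast h1

theorem ee_sub (a b : ℝ) : ‖ee a - ee b‖ ≤ 2 * π * |a - b| := by
  have e : ee a - ee b = ee b * (ee (a - b) - 1) := by
    rw [mul_sub, ← maj_ee_add, mul_one]
    congr 2
    ring
  rw [e, norm_mul, maj_ee_norm, one_mul]
  exact maj_ee_sub_one _

section main

variable {X P : ℕ} (hP : 1 ≤ P) (hPX : (P : ℝ) ≤ √(X : ℝ))
include hP hPX

theorem one_le_X : 1 ≤ X := by
  have h1 : (1 : ℝ) ≤ P := by exact_mod_cast hP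
  exact_mod_cast Real.one_le_sqrt.1 (h1.trans hPX)

theorem m0_pos : 1 ≤ m0 X P := by
  have h1 : (0 : ℝ) < P := by exact_mod_cast hP
  exact Nat.le_floor (by rw [Nat.cast_one, one_le_div h1]; exact hPX)

omit hP hPX in
theorem m0_le : (m0 X P : ℝ) ≤ √(X : ℝ) / P := Nat.floor_le (by positivity)

theorem uni : Uni (s0 X P) (2 * P / √(X : ℝ)) := by
  have h1 : (0 : ℝ) < P := by exact_mod_cast hP
  have h2 : (0 : ℝ) < √(X : ℝ) := h1.trans_le hPX
  have h3 : cc X (m0 X P) ≤ 2 * P / √(X : ℝ) := by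
    have h4 : √(X : ℝ) / P < m0 X P + 1 := Nat.lt_floor_add_one _
    have h5 : (1 : ℝ) ≤ m0 X P := by exact_mod_cast m0_pos hP hPX
    have h6 := w_le_one X (m0 X P : ℕ)
    rw [div_lt_iff₀ h1] at h4
    rw [cc, div_le_div_iff₀ (by positivity) h2]
    nlinarith [mul_le_mul_of_nonneg_right h6 h2.le]
  refine ⟨fun t => ⟨s0_nonneg X P t, ?_⟩, (m0 X P : ℤ) ^ 2, fun s t hs ht => ?_,
    fun s t hs ht => ?_⟩
  · unfold s0
    split_ifs with h
    · exact (cc_anti X h.2.1).trans h3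
    · positivity
  · rcases (hs.trans ht).eq_or_lt with h | h
    · rw [show t = s by omega]
    · refine le_trans (le_of_eq (if_neg fun h' => ?_)) (s0_nonneg X P t)
      obtain ⟨h0, h4, -⟩ := h'
      lift s to ℕ using h0
      rw [Int.toNat_natCast, Nat.le_sqrt'] at h4
      exact absurd h (not_lt.2 (by exact_mod_cast h4))
  · by_cases h : 0 ≤ t ∧ m0 X P ≤ Nat.sqrt t.toNat ∧ Nat.sqrt t.toNat ≤ M3 X
    · have h0 : 0 ≤ s := (sq_nonneg _).trans hs
      have h4 : Nat.sqrt s.toNat ≤ Nat.sqrt t.toNat := Nat.sqrt_le_sqrt (Int.toNat_le_toNat ht)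
      have h5 : m0 X P ≤ Nat.sqrt s.toNat := by
        lift s to ℕ using h0
        rw [Int.toNat_natCast, Nat.le_sqrt']
        exact_mod_cast hs
      rw [s0, s0, if_pos h, if_pos ⟨h0, h5, h4.trans h.2.2⟩]
      exact cc_anti X h4
    · rw [s0, if_neg h]
      exact s0_nonneg X P s

theorem total (hGT : St_GT) (S : Finset ℤ) : ∑ y ∈ S, s0 X P y ≤ 2 * √(X : ℝ) := by
  have h1 : ∑ y ∈ S, s0 X P y ≤ ∑ y ∈ YS X, s0 X P y := by
    rw [← sum_filter_of_ne (p := (· ∈ YS X)) fun y _ h => by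
      by_contra h'
      exact h ((hGT.2.2.2.2.2.2.2.2.1 X P y).2.2.2 h').2.1]
    exact sum_le_sum_of_subset_of_nonneg (fun y hy => (mem_filter.1 hy).2)
      fun y _ _ => s0_nonneg X P y
  refine h1.trans (le_trans ?_ (mass hGT (one_le_X hP hPX)))
  rw [fibY]
  refine sum_le_sum fun m hm => ?_
  rw [sum_congr rfl fun y hy => s0_Im hm hy, sum_const, nsmul_eq_mul, card_Im]
  split_ifs with h
  · rw [cc_card, ka_eq ((m0_pos hP hPX).trans h)]
  · rw [mul_zero]
    exact mul_nonneg (ka_le m).1 (w_pos X m).le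

theorem four (hGT : St_GT) (η : ℝ) :
    ‖II X P η - TT X η‖ ≤ 2 * √(X : ℝ) / P + 40 * |η| * Lx X * X := by
  rw [hGT.2.2.2.2.2.1 X η, box_sum _ (fun m => by simp [w_neg]), II, ft, fibY, ← sum_sub_distrib]
  refine (norm_sum_le _ _).trans ((sum_le_sum (g := fun m => (if m < m0 X P then (2 : ℝ) else 0) +
    ka m * w X m * (4 * π * |η| * M3 X)) fun m hm => ?_).trans ?_)
  · have h1 := w_pos X m
    have h2 := ka_le m
    rw [sum_congr rfl fun y hy => by rw [s0_Im hm hy]]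
    by_cases h : m0 X P ≤ m
    · have e : ka m • ((w X m : ℂ) * ee ((((m : ℤ) : ℝ)) ^ 2 * η)) =
          ∑ y ∈ Im m, (cc X m : ℂ) * ee ((m : ℝ) ^ 2 * η) := by
        rw [sum_const, ← Nat.cast_smul_eq_nsmul ℝ, card_Im, ka_eq ((m0_pos hP hPX).trans h),
          real_smul, real_smul, ← mul_assoc, ← mul_assoc, ← ofReal_mul, ← ofReal_mul, cc_card]
        rfl
      rw [e, ← sum_sub_distrib, if_neg (not_lt.2 h), zero_add, ka_eq ((m0_pos hP hPX).trans h),
        ← cc_card, ← card_Im, mul_assoc, ← nsmul_eq_mul, ← sum_const]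
      refine (norm_sum_le _ _).trans (sum_le_sum fun y hy => ?_)
      rw [if_pos h, ← mul_sub, norm_mul, norm_real, Real.norm_of_nonneg (cc_nonneg X m)]
      refine mul_le_mul_of_nonneg_left ((ee_sub _ _).trans ?_) (cc_nonneg X m)
      rw [Im, mem_Ico] at hy
      have h3 : (m : ℝ) ^ 2 ≤ y := by exact_mod_cast hy.1
      have h4 : (y : ℝ) ≤ (m : ℝ) ^ 2 + 2 * m := by
        have : y ≤ (m : ℤ) ^ 2 + 2 * m := by nlinarith [hy.2]
        exact_mod_cast this
      have h5 : (m : ℝ) ≤ M3 X := by exact_mod_cast Nat.lt_succ_iff.1 (mem_range.1 hm)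
      rw [← sub_mul, abs_mul, abs_of_nonneg (sub_nonneg.2 h3)]
      have h6 : ((y : ℝ) - (m : ℝ) ^ 2) * |η| ≤ 2 * M3 X * |η| :=
        mul_le_mul_of_nonneg_right (by linarith) (abs_nonneg _)
      nlinarith [Real.pi_pos]
    · simp only [if_neg h, ofReal_zero, zero_mul, sum_const_zero, zero_sub, norm_neg, norm_smul,
        norm_mul, maj_ee_norm, mul_one, norm_real, if_pos (not_le.1 h)]
      rw [Real.norm_of_nonneg h2.1, Real.norm_of_nonneg h1.le]
      have h3 := w_le_one X m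
      have h4 : 0 ≤ ka m * w X m * (4 * π * |η| * M3 X) := by
        have := h2.1
        positivity
      nlinarith [h2.1, h2.2]
  · rw [sum_add_distrib, ← sum_mul]
    have h1 := head (m0 X P) (M3 X + 1)
    have h2 := m0_le (X := X) (P := P)
    have h3 := mass hGT (one_le_X hP hPX)
    have h4 := M3_le X
    have h5 : 4 * π * |η| * M3 X ≤ 20 * |η| * (Lx X * √(X : ℝ)) := by
      have := Real.pi_le_four
      gcongr
      linarith
    have h6 : √(X : ℝ) * √(X : ℝ) = X := Real.mul_self_sqrt (by positivity)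
    have h7 := mul_le_mul h3 h5 (by positivity) (by positivity)
    rw [mul_div_assoc]
    have h8 : 2 * √(X : ℝ) * (20 * |η| * (Lx X * √(X : ℝ))) = 40 * |η| * Lx X * X := by
      linear_combination 40 * |η| * Lx X * h6
    linarith

theorem five (hGT : St_GT) (n : ℕ) :
    |AA X n (fun _ => 1) - BB X P n (fun _ => 1)| ≤ 2 * √(X : ℝ) / P + 3 := by
  rw [hGT.2.2.2.2.2.2.2.1 X n, box_sum _ (fun m => by simp [w_neg]), BB_eq, ← sum_sub_distrib]
  refine (abs_sum_le_sum_abs _ _).trans ((sum_le_sum (g := fun m =>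
    (if m < m0 X P then (2 : ℝ) else 0) + if m = Nat.sqrt n then 2 else 0) fun m hm => ?_).trans ?_)
  · have h1 := w_pos X m
    have h2 := ka_le m
    have h3 := w_le_one X m
    have h4 := cc_nonneg X m
    rw [sum_congr rfl fun y hy => by rw [s0_Im hm hy], smul_eq_mul, mul_one]
    by_cases h : m0 X P ≤ m
    · rw [if_pos h, if_neg (not_lt.2 h), zero_add, ka_eq ((m0_pos hP hPX).trans h)]
      rcases lt_trichotomy m (Nat.sqrt n) with h5 | h5 | h5
      · have h6 : ((m : ℤ) + 1) ^ 2 ≤ n := by exact_mod_cast Nat.le_sqrt'.1 h5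
        rw [if_pos (by nlinarith [Int.natCast_nonneg m]), if_neg h5.ne,
          sum_congr (s₂ := Im m) rfl fun y hy => if_pos ((mem_Ico.1 hy).2.trans_le h6), sum_const,
          nsmul_eq_mul, card_Im, cc_card, sub_self, abs_zero]
      · have h6 : 0 ≤ ∑ y ∈ Im m, if y < n then cc X m else 0 :=
          sum_nonneg fun y _ => by split_ifs <;> linarith
        have h7 : (∑ y ∈ Im m, if y < n then cc X m else 0) ≤ 2 * w X m := by
          rw [← cc_card, ← card_Im, ← nsmul_eq_mul, ← sum_const]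
          exact sum_le_sum fun y _ => by split_ifs <;> linarith
        rw [if_pos h5, abs_le]
        split_ifs <;> constructor <;> linarith
      · have h6 : (n : ℤ) < (m : ℤ) ^ 2 := by exact_mod_cast Nat.sqrt_lt'.1 h5
        rw [if_neg h6.not_gt, if_neg h5.ne',
          sum_congr (s₂ := Im m) rfl fun y hy => if_neg (h6.trans_le (mem_Ico.1 hy).1).not_gt]
        simp
    · simp only [if_neg h, ite_self, sum_const_zero, sub_zero, if_pos (not_le.1 h)]
      rw [abs_le]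
      split_ifs <;> constructor <;> nlinarith [h2.1, h2.2]
  · rw [sum_add_distrib, sum_ite_eq']
    have h1 := head (m0 X P) (M3 X + 1)
    have h2 := m0_le (X := X) (P := P)
    rw [mul_div_assoc]
    split_ifs <;> linarith

end main

theorem low {X P n : ℕ} (hl : 4 ≤ lg X) (hM : 6 ≤ √(X : ℝ)) (hP : 4 ≤ P) (hn : X < n) :
    √(X : ℝ) / 50 ≤ BB X P n fun _ => 1 := by
  have h1 := (M3_bounds hl).1
  have h2 : (Nat.sqrt X : ℝ) ≤ √(X : ℝ) := Real.nat_sqrt_le_real_sqrt
  have h3 : √(X : ℝ) < Nat.sqrt X + 1 := Real.real_sqrt_lt_nat_sqrt_succ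
  have h4 : (m0 X P : ℝ) ≤ √(X : ℝ) / 4 :=
    m0_le.trans (div_le_div_of_nonneg_left (by positivity) (by norm_num) (by exact_mod_cast hP))
  have h5 : Nat.sqrt X ≤ M3 X + 1 := by
    have : (Nat.sqrt X : ℝ) ≤ M3 X + 1 := by linarith
    exact_mod_cast this
  have h6 : m0 X P ≤ Nat.sqrt X := by
    have : (m0 X P : ℝ) ≤ Nat.sqrt X := by linarith
    exact_mod_cast this
  have hs : Ico (m0 X P) (Nat.sqrt X) ⊆ range (M3 X + 1) := fun m hm =>
    mem_range.2 ((mem_Ico.1 hm).2.trans_le h5)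
  rw [BB_eq]
  refine le_trans ?_ (sum_le_sum_of_subset_of_nonneg hs fun m _ _ =>
    sum_nonneg fun y _ => by split_ifs; exacts [s0_nonneg X P y, le_rfl])
  refine le_trans ?_ (card_nsmul_le_sum _ _ (2 / 55) fun m hm => ?_)
  · rw [Nat.card_Ico, nsmul_eq_mul, Nat.cast_sub h6]
    linarith
  · obtain ⟨h7, h8⟩ := mem_Ico.1 hm
    have h9 : ((m : ℤ) + 1) ^ 2 ≤ n := by exact_mod_cast (Nat.le_sqrt'.1 h8).trans hn.le
    rw [sum_congr rfl fun y hy => by
      rw [if_pos ((mem_Ico.1 hy).2.trans_le h9), s0_Im (hs hm) hy, if_pos h7], sum_const,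
      nsmul_eq_mul, card_Im, cc_card]
    have h10 : (m : ℝ) ≤ √(X : ℝ) := le_trans (by exact_mod_cast h8.le) h2
    have h11 : π * (m : ℝ) ^ 2 / √(X : ℝ) ^ 2 ≤ 4 := by
      rw [div_le_iff₀ (by positivity)]
      have := Real.pi_le_four
      gcongr
    have h12 : Real.exp 4 ≤ 55 := by
      have h := Real.exp_one_lt_d9
      rw [show (4 : ℝ) = (4 : ℕ) * 1 by norm_num, Real.exp_nat_mul]
      exact (pow_le_pow_left₀ (Real.exp_pos 1).le h.le 4).trans (by norm_num)
    have h13 : 1 / 55 ≤ w X m := by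
      refine le_trans ?_ (Real.exp_le_exp.2 (neg_le_neg (by exact_mod_cast h11)))
      rw [Real.exp_neg, one_div]
      exact inv_anti₀ (Real.exp_pos 4) h12
    linarith

end IB

theorem blk_IB (hABEL : St_ABEL) (hGT : St_GT) : St_IB := by
  refine ⟨fun X P hP hPX => ⟨IB.uni hP hPX, IB.total hP hPX hGT, fun α => ⟨?_, ?_⟩,
    IB.four hP hPX hGT, IB.five hP hPX hGT⟩, ?_⟩
  · unfold II ft
    refine (norm_sum_le _ _).trans (le_trans (le_of_eq ?_) (IB.total hP hPX hGT (YS X)))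
    refine sum_congr rfl fun y _ => ?_
    rw [norm_mul, maj_ee_norm, mul_one, norm_real, Real.norm_of_nonneg (IB.s0_nonneg X P y)]
  · rcases (nz_nonneg α).eq_or_lt with h | h
    · rw [← h, mul_zero]
      positivity
    · have := hABEL.1 _ _ (1 / 2 / nz α) 0 (((M3 X : ℤ) + 1) ^ 2) (fun t => ee (t * α))
        (IB.uni hP hPX) (by positivity) fun s u _ _ _ => (le_div_iff₀ h).2 (hABEL.2.2.1 s u α)
      rw [← le_div_iff₀ h]
      exact this.trans_eq (by ring)
  · filter_upwards [ev_lg 4, ev_lg_sqrt 6 0] with X h1 h2 P n hP hn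
    exact IB.low h1 (by simpa using h2) hP hn

end Pool.Agent.Lib.APQ
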