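import Pool.Agent.Lib.APQ.Kit

/-!
Incomplete Gauss sums.
-/

namespace Pool.Agent.Lib.APQ

open Finset Real Complex Filter Pool.Agent.Lib.PS
open scoped NumberTheorySymbols ArithmeticFunction.Moebius Classical ComplexConjugate

namespace IGS

theorem expand (p : ℕ) (hp : 0 < p) (A B j : ℤ) :
    ee (((A : ℝ) * (j : ℝ) ^ 2 + (B : ℝ) * j) / p) =
      ∑ b ∈ range p, GG A (B + b) p / p * ee (j * (((-1 : ℤ) : ℝ) * b / p + 0)) := by
  have hp' : (p : ℝ) ≠ 0 := by positivity
  have hp'' : (p : ℂ) ≠ 0 := by exact_mod_cast hp.ne'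
  have hpz : (0 : ℤ) < p := by exact_mod_cast hp
  have h1 : ∀ b ∈ range p, GG A (B + b) p / p * ee (j * (((-1 : ℤ) : ℝ) * b / p + 0)) =
      ∑ r ∈ range p, ee (((A : ℝ) * (r : ℝ) ^ 2 + (B : ℝ) * r) / p) / p *
        ee ((b : ℝ) * ((((r : ℤ) - j : ℤ) : ℝ) / p)) := by
    intro b _
    unfold GG
    rw [sum_div, sum_mul]
    refine sum_congr rfl fun r _ => ?_
    rw [div_mul_eq_mul_div, div_mul_eq_mul_div, ← maj_ee_add, ← maj_ee_add]
    congr 2
    push_cast
    ring
  rw [sum_congr rfl h1, sum_comm]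
  simp only [← mul_sum, maj_orth p hp]
  have h0 := Int.emod_nonneg j hpz.ne'
  have hl := Int.emod_lt_of_pos j hpz
  obtain ⟨r0, hr0⟩ := Int.eq_ofNat_of_zero_le h0
  have hr : r0 < p := by omega
  have hj : (r0 : ℤ) = j + p * (-(j / p)) := by
    have := Int.emod_add_mul_ediv j p
    linarith
  rw [sum_eq_single r0]
  · rw [if_pos ⟨-(j / p), by linarith⟩, div_mul_cancel₀ _ hp'']
    generalize -(j / p) = c at hj
    have h3 : (r0 : ℝ) = j + p * c := by exact_mod_cast hj
    have h4 : ((A : ℝ) * (r0 : ℝ) ^ 2 + (B : ℝ) * r0) / p =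
        ((A : ℝ) * (j : ℝ) ^ 2 + (B : ℝ) * j) / p +
          ((A * (2 * j * c + p * c ^ 2) + B * c : ℤ) : ℝ) := by
      rw [h3]
      push_cast
      field_simp
      ring
    rw [h4, ee_add_int]
  · intro r hr' hne
    rw [if_neg, mul_zero]
    intro h
    have h2 : (p : ℤ) ∣ (r : ℤ) - r0 := by
      have : (r : ℤ) - r0 = (r - j) - p * (-(j / p)) := by linarith
      rw [this]
      exact dvd_sub h (dvd_mul_right _ _)
    have h3 := Int.eq_zero_of_abs_lt_dvd h2 (by
      have := mem_range.1 hr'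
      rw [abs_lt]
      constructor <;> omega)
    exact hne (by omega)
  · intro h
    exact absurd (mem_range.2 hr) h

end IGS

theorem blk_IGS (hSPC : St_SPC) (hABEL : St_ABEL) : St_IGS := by
  intro p A B s u hp hA hsu
  have hp' : (0 : ℝ) < p := by exact_mod_cast hp
  have hY : (0 : ℝ) ≤ (u : ℝ) - s := by
    have : (s : ℝ) ≤ u := by exact_mod_cast hsu
    linarith
  have h1 := hSPC p (-1) 0 ((u : ℝ) - s) (1 / 2)
    (fun b => ‖∑ j ∈ Ico s u, ee (j * (((-1 : ℤ) : ℝ) * b / p + 0))‖) hp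
    (isCoprime_one_left.neg_left) hY (by norm_num) (fun i _ => ⟨by
      refine (norm_sum_le _ _).trans ?_
      simp only [maj_ee_norm, sum_const, nsmul_eq_mul, mul_one, Int.card_Ico]
      have : (((u - s).toNat : ℤ) : ℝ) = ((u - s : ℤ) : ℝ) := by
        rw [Int.toNat_of_nonneg (by omega)]
      push_cast at this
      exact this.le, hABEL.2.2.1 s u _⟩)
  rw [sum_congr rfl fun j _ => IGS.expand p hp A B j, sum_comm]
  simp only [← mul_sum]
  refine (norm_sum_le _ _).trans ?_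
  calc ∑ b ∈ range p, ‖GG A (B + b) p / p *
          ∑ j ∈ Ico s u, ee (j * (((-1 : ℤ) : ℝ) * b / p + 0))‖
      ≤ ∑ b ∈ range p, √(2 * (p : ℝ)) / p *
          ‖∑ j ∈ Ico s u, ee (j * (((-1 : ℤ) : ℝ) * b / p + 0))‖ := by
        refine sum_le_sum fun b _ => ?_
        rw [norm_mul, norm_div, Complex.norm_natCast]
        gcongr
        exact blk_GAU.1 p A (B + b) hp hA
    _ ≤ √(2 * (p : ℝ)) / p * (2 * ((u : ℝ) - s) + 2 * (1 / 2) * p * (1 + Real.log p)) := by
        rw [← mul_sum]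
        gcongr
    _ = _ := by
        field_simp
        ring

end Pool.Agent.Lib.APQ
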