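import Pool.Agent.Lib.APQ.Kit
import Pool.Agent.Lib.PS.PV
import Pool.Agent.Lib.PS.PB

/-!
A large sieve type bound for Jacobi symbols along a progression.
-/

namespace Pool.Agent.Lib.APQ

open Finset Real Complex Filter Pool.Agent.Lib.PS
open scoped NumberTheorySymbols ArithmeticFunction.Moebius Classical ComplexConjugate

namespace JV

theorem abs_J (x : ℤ) (m : ℕ) : |(J(x | m) : ℝ)| ≤ 1 := by
  rcases jacobiSym.trichotomy x m with h | h | h <;> simp [h]

theorem off (q a K m : ℕ) (ho : Odd m) (hs : ¬ IsSquare m) (hc : Nat.Coprime q m) :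
    |∑ k ∈ range K, (J(((a + q * k : ℕ) : ℤ) | m) : ℝ)| ≤
      2 * (m.divisors.card : ℝ) * √(m : ℝ) * (1 + Real.log m) := by
  have hm := ho.pos
  obtain ⟨e, he⟩ := Nat.exists_eq_succ_of_ne_zero (Nat.totient_pos.mpr hm).ne'
  obtain ⟨t, ht⟩ := Nat.exists_eq_succ_of_ne_zero (show q ^ e * a + m ≠ 0 by omega)
  have h1 : ∀ k, J(((a + q * k : ℕ) : ℤ) | m) = J((q : ℤ) | m) * J(((t + 1 + k : ℕ) : ℤ) | m) :=
    fun k => by
      rw [← jacobiSym.mul_left]
      refine jacobiSym.mod_left' ?_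
      have h2 := Nat.ModEq.pow_totient hc
      rw [he, Nat.succ_eq_add_one] at h2
      have h3 : a + q * k ≡ q * (t + 1 + k) [MOD m] := by
        rw [show q * (t + 1 + k) = q ^ (e + 1) * a + q * k + m * q by
          rw [← Nat.succ_eq_add_one t, ← ht]; ring]
        simpa [Nat.ModEq] using ((h2.symm.mul_right a).add_right (q * k))
      exact_mod_cast congrArg (Nat.cast : ℕ → ℤ) h3
  have h4 := blk_PV blk_PB m (jc m) (blk_PB.2.2.2.2.2.2.2.2.1 m ho)
    (blk_PB.2.2.2.2.2.2.2.2.2.1 m ho hs) t K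
  have h5 : ∑ k ∈ Ioc t (t + K), jc m k =
      ((∑ k ∈ range K, (J(((t + 1 + k : ℕ) : ℤ) | m) : ℝ) : ℝ) : ℂ) := by
    rw [← Finset.Ico_add_one_add_one_eq_Ioc, sum_Ico_eq_sum_range,
      show t + K + 1 - (t + 1) = K by omega]
    simp [jc]
  rw [h5, Complex.norm_real, Real.norm_eq_abs] at h4
  simp only [h1, Int.cast_mul, ← mul_sum, abs_mul]
  exact (mul_le_of_le_one_left (abs_nonneg _) (abs_J _ _)).trans h4

theorem not_sq {d d' : ℕ} (h : Squarefree d) (h' : Squarefree d') (hs : IsSquare (d * d')) :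
    d = d' := by
  have key : ∀ {x y : ℕ}, Squarefree x → Squarefree y → IsSquare (x * y) → x ∣ y :=
    fun {x y} hx hy ⟨r, hr⟩ => by
      obtain ⟨s, rfl⟩ := (hx.dvd_pow_iff_dvd two_ne_zero).mp
        (show x ∣ r ^ 2 from ⟨y, by rw [pow_two r, hr]⟩)
      exact ⟨s * s, mul_left_cancel₀ hx.ne_zero (by rw [hr]; ring)⟩
  exact Nat.dvd_antisymm (key h h' hs) (key h' h (by rwa [mul_comm]))

end JV

theorem blk_JV : St_JV := by
  intro q a K Z S c hS
  have hZ : 0 ≤ 2 * (1 + 2 * Real.log Z) := by have := Real.log_natCast_nonneg Z; positivity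
  have h1 : ∀ d ∈ S, ∀ d' ∈ S, c d * c d' * ∑ k ∈ range K,
      (J(((a + q * k : ℕ) : ℤ) | d) : ℝ) * (J(((a + q * k : ℕ) : ℤ) | d') : ℝ) ≤
      (if d = d' then K * c d ^ 2 else 0) + 2 * (1 + 2 * Real.log Z) *
        (|c d| * (d.divisors.card : ℝ) * √(d : ℝ) *
          (|c d'| * (d'.divisors.card : ℝ) * √(d' : ℝ))) := fun d hd d' hd' => by
    obtain ⟨a1, a2, a3, a4⟩ := hS d hd
    obtain ⟨b1, b2, b3, b4⟩ := hS d' hd'
    split_ifs with e
    · subst e
      have h2 : ∑ k ∈ range K, (J(((a + q * k : ℕ) : ℤ) | d) : ℝ) *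
          (J(((a + q * k : ℕ) : ℤ) | d) : ℝ) ≤ K := by
        refine (sum_le_card_nsmul _ _ 1 fun k _ => ?_).trans (by simp)
        exact abs_le_one_iff_mul_self_le_one.mp (JV.abs_J _ _)
      refine le_add_of_le_of_nonneg ?_ (by positivity)
      nlinarith [mul_self_nonneg (c d)]
    · have h2 := JV.off q a K (d * d') (a1.mul b1) (fun h => e (JV.not_sq a2 b2 h))
        (Nat.Coprime.mul_right a4 b4)
      have : NeZero d := ⟨a1.pos.ne'⟩
      have : NeZero d' := ⟨b1.pos.ne'⟩
      simp only [jacobiSym.mul_right, Int.cast_mul] at h2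
      have h3 : ((d * d').divisors.card : ℝ) ≤ d.divisors.card * d'.divisors.card := by
        rw [Nat.divisors_mul]
        exact_mod_cast Finset.card_mul_le
      have p1 : (0 : ℝ) < d := by exact_mod_cast a1.pos
      have p2 : (0 : ℝ) < d' := by exact_mod_cast b1.pos
      have h4 : Real.log (d * d' : ℕ) ≤ 2 * Real.log Z := by
        rw [Nat.cast_mul, Real.log_mul p1.ne' p2.ne']
        linarith [Real.log_le_log p1 (show (d : ℝ) ≤ Z by exact_mod_cast a3),
          Real.log_le_log p2 (show (d' : ℝ) ≤ Z by exact_mod_cast b3)]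
      have h5 := Real.log_natCast_nonneg (d * d')
      rw [zero_add]
      calc _ ≤ |c d| * |c d'| * (2 * ((d * d').divisors.card : ℝ) * √((d * d' : ℕ) : ℝ) *
            (1 + Real.log (d * d' : ℕ))) := by
            refine (le_abs_self _).trans ?_
            rw [abs_mul, abs_mul]
            exact mul_le_mul_of_nonneg_left h2 (by positivity)
        _ ≤ |c d| * |c d'| * (2 * (d.divisors.card * d'.divisors.card : ℝ) *
            √((d * d' : ℕ) : ℝ) * (1 + 2 * Real.log Z)) := by gcongr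
        _ = _ := by rw [Nat.cast_mul, Real.sqrt_mul p1.le]; ring
  calc _ = ∑ d ∈ S, ∑ d' ∈ S, c d * c d' * ∑ k ∈ range K,
        (J(((a + q * k : ℕ) : ℤ) | d) : ℝ) * (J(((a + q * k : ℕ) : ℤ) | d') : ℝ) := by
        simp only [pow_two, sum_mul_sum]
        simp only [mul_sum]
        rw [sum_comm]
        refine sum_congr rfl fun d _ => ?_
        rw [sum_comm]
        exact sum_congr rfl fun d' _ => sum_congr rfl fun k _ => by ring
    _ ≤ _ := by
        refine (sum_le_sum fun d hd => sum_le_sum (h1 d hd)).trans (le_of_eq ?_)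
        simp only [sum_add_distrib]
        congr 1
        · rw [mul_sum]
          exact sum_congr rfl fun d hd => by rw [sum_ite_eq, if_pos hd]
        · rw [pow_two, sum_mul_sum, mul_sum]
          exact sum_congr rfl fun d _ => by rw [mul_sum]

end Pool.Agent.Lib.APQ
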