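import Pool.Agent.Lib.APQ.Kit
import Pool.Agent.Lib.LQ.B3a

/-!
Kloosterman sums on average over the values of a binary diagonal form.
-/

namespace Pool.Agent.Lib.APQ

open Finset Real Complex Filter Pool.Agent.Lib.PS
open scoped NumberTheorySymbols ArithmeticFunction.Moebius Classical ComplexConjugate

namespace KLAV

open Pool.Agent.Lib.LQ.B3a

variable {q : ℕ} [Fact q.Prime]

theorem Kl_eq (u v : ZMod q) : Kl q u v = S u v := by
  have h : ∀ g : ZMod q → ℂ, ∑ t, (if t = 0 then 0 else g t) =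
      ∑ t ∈ univ.filter fun t => t ≠ 0, g t := fun g => by
    rw [sum_filter]
    exact sum_congr rfl fun t _ => by by_cases h : t = 0 <;> simp [h]
  unfold Kl S
  rw [h]
  symm
  refine sum_bij (fun x _ => (x : ZMod q)) (fun x _ => by simp) (fun x _ y _ h => Units.ext h)
    (fun t ht => ⟨Units.mk0 t (mem_filter.mp ht).2, mem_univ _, rfl⟩)
    fun x _ => by rw [Units.val_inv_eq_inv_val]

theorem four {c : ZMod q} (hc : c ≠ 0) : ∑ t, ‖Kl q c t‖ ^ 4 ≤ 16 * (q : ℝ) ^ 3 := by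
  have hq := (Fact.out : q.Prime)
  have h2 : (2 : ℝ) ≤ q := by exact_mod_cast hq.two_le
  have h1 : ∀ x : (ZMod q)ˣ, ∑ t, ‖S (c * (x : ZMod q)) t‖ ^ 4 = ∑ t, ‖Kl q c t‖ ^ 4 := fun x => by
    rw [← Equiv.sum_comp (Units.mulRight x⁻¹)]
    exact sum_congr rfl fun t _ => by rw [Kl_eq, ← S_mul c t x]; rfl
  have h3 : ∑ x : (ZMod q)ˣ, ∑ t, ‖S (c * (x : ZMod q)) t‖ ^ 4 ≤ ∑ u : ZMod q, ∑ t, ‖S u t‖ ^ 4 := by
    rw [← sum_image (g := fun x : (ZMod q)ˣ => c * (x : ZMod q))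
      (f := fun u => ∑ t, ‖S u t‖ ^ 4) fun x _ y _ h => Units.ext (mul_left_cancel₀ hc h)]
    exact sum_le_sum_of_subset_of_nonneg (subset_univ _) fun _ _ _ =>
      sum_nonneg fun _ _ => by positivity
  have h4 := fourth (n := q)
  rw [Fintype.sum_prod_type, hq.divisors, card_pair hq.one_lt.ne] at h4
  simp only [h1, sum_const, card_univ, ZMod.card_units, nsmul_eq_mul, Nat.cast_sub hq.one_le] at h3
  have h5 : 0 ≤ ∑ t, ‖Kl q c t‖ ^ 4 := sum_nonneg fun _ _ => by positivity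
  refine le_of_mul_le_mul_left ?_ (show (0 : ℝ) < q by linarith)
  push_cast at h3 h4
  nlinarith

theorem two {α β : Type} (A : Finset α) (B : Finset β) (u : α → ZMod q) (v : β → ZMod q) :
    ∑ t, ((A.filter fun x => u x = t).card : ℝ) * ((B.filter fun y => v y = t).card : ℝ) =
      ∑ x ∈ A, ∑ y ∈ B, if u x = v y then 1 else 0 := by
  simp only [card_filter, Nat.cast_sum, sum_mul_sum]
  rw [sum_comm]
  refine sum_congr rfl fun x _ => ?_
  rw [sum_comm]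
  refine sum_congr rfl fun y _ => ?_
  rw [sum_eq_single (u x) (fun t _ h => by simp [h.symm]) (by simp)]
  simp [eq_comm]

theorem energy (A B : Finset ℤ) (f g : ℤ → ZMod q) :
    ∑ t, (((A ×ˢ B).filter fun h => f h.1 + g h.2 = t).card : ℝ) ^ 2 =
      ∑ s, (((A ×ˢ A).filter fun h => f h.1 - f h.2 = s).card : ℝ) *
        (((B ×ˢ B).filter fun h => g h.1 - g h.2 = s).card : ℝ) := by
  simp only [pow_two]
  rw [two, two]
  simp only [sum_product]
  refine sum_congr rfl fun a _ => ?_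
  rw [sum_comm]
  refine sum_congr rfl fun a' _ => ?_
  rw [sum_comm]
  refine sum_congr rfl fun b' _ => sum_congr rfl fun b _ => if_congr ?_ rfl rfl
  constructor <;> intro h <;> linear_combination h

theorem scale (A : Finset ℤ) {c : ZMod q} (hc : c ≠ 0) :
    ∑ s, (((A ×ˢ A).filter fun h =>
        c * (h.1 : ZMod q) ^ 2 - c * (h.2 : ZMod q) ^ 2 = s).card : ℝ) ^ 2 =
      ∑ s : ZMod q, (((A ×ˢ A).filter fun h =>
        (h.1 : ZMod q) ^ 2 - (h.2 : ZMod q) ^ 2 = s).card : ℝ) ^ 2 := by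
  rw [← Equiv.sum_comp (Equiv.mulLeft₀ c hc)]
  refine sum_congr rfl fun s _ => ?_
  refine congrArg (fun T : Finset (ℤ × ℤ) => (T.card : ℝ) ^ 2) (filter_congr fun h _ => ?_)
  rw [← mul_sub, Equiv.mulLeft₀_apply, mul_right_inj' hc]

theorem holder {α : Type} (B : Finset α) (φ : α → ZMod q) (K : ZMod q → ℝ) :
    (∑ h ∈ B, K (φ h)) ^ 4 ≤ (B.card : ℝ) ^ 2 *
      ((∑ t, ((B.filter fun h => φ h = t).card : ℝ) ^ 2) * ∑ t, K t ^ 4) := by
  have h1 := sq_sum_le_card_mul_sum_sq (s := B) (f := fun h => K (φ h))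
  have h2 : ∑ h ∈ B, K (φ h) ^ 2 = ∑ t, ((B.filter fun h => φ h = t).card : ℝ) * K t ^ 2 := by
    rw [← sum_fiberwise_of_maps_to (t := univ) (g := φ) fun _ _ => mem_univ _]
    refine sum_congr rfl fun t _ => ?_
    rw [sum_congr rfl (g := fun _ => K t ^ 2) fun h hh => by rw [(mem_filter.mp hh).2],
      sum_const, nsmul_eq_mul]
  have h3 := sum_mul_sq_le_sq_mul_sq univ (fun t => ((B.filter fun h => φ h = t).card : ℝ))
    fun t => K t ^ 2
  simp only [← pow_mul, ← h2] at h3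
  calc _ = ((∑ h ∈ B, K (φ h)) ^ 2) ^ 2 := by ring
    _ ≤ (B.card * ∑ h ∈ B, K (φ h) ^ 2) ^ 2 := by gcongr
    _ ≤ _ := by rw [mul_pow]; gcongr

end KLAV

open KLAV in
theorem blk_KLAV (hEN : St_EN) : St_KLAV := by
  intro ε hε
  obtain ⟨C, hC, h⟩ := hEN (8 * ε) (by positivity)
  refine ⟨4 * (C + 1) * 4 ^ ε, by positivity, fun q _ c c₁ c₂ N₁ N₂ hc h1 h2 n1 n2 => ?_⟩
  have hq : (1 : ℝ) ≤ q := by exact_mod_cast (Fact.out : q.Prime).one_le
  set P : ℝ := ((N₁ : ℝ) + 1) * ((N₂ : ℝ) + 1) with hP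
  have P0 : 0 < P := by positivity
  have P1 : P ≤ 4 * q := by
    have a1 : (N₁ : ℝ) ^ 2 ≤ q := by exact_mod_cast n1
    have a2 : (N₂ : ℝ) ^ 2 ≤ q := by exact_mod_cast n2
    nlinarith [sq_nonneg ((N₁ : ℝ) - N₂), sq_nonneg ((N₁ : ℝ) - 1), sq_nonneg ((N₂ : ℝ) - 1)]
  have e1 := holder (box N₁ ×ˢ box N₂)
    (fun h => c₁ * (h.1 : ZMod q) ^ 2 + c₂ * (h.2 : ZMod q) ^ 2) fun t => ‖Kl q c t‖
  rw [energy _ _ (fun x => c₁ * (x : ZMod q) ^ 2) fun x => c₂ * (x : ZMod q) ^ 2, sum_product,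
    card_product, card_box, card_box] at e1
  have e2 := sum_mul_sq_le_sq_mul_sq univ
    (fun s => (((box N₁ ×ˢ box N₁).filter fun h =>
      c₁ * (h.1 : ZMod q) ^ 2 - c₁ * (h.2 : ZMod q) ^ 2 = s).card : ℝ))
    fun s => (((box N₂ ×ˢ box N₂).filter fun h =>
      c₂ * (h.1 : ZMod q) ^ 2 - c₂ * (h.2 : ZMod q) ^ 2 = s).card : ℝ)
  rw [scale _ h1, scale _ h2] at e2
  have e3 := e2.trans (mul_le_mul (h q N₁ n1) (h q N₂ n2)
    (sum_nonneg fun _ _ => sq_nonneg _) (by positivity))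
  rw [mul_mul_mul_comm, ← Real.mul_rpow (by positivity) (by positivity), ← hP,
    Real.rpow_add P0, Real.rpow_two] at e3
  generalize ∑ s : ZMod q, (_ : ℝ) * (_ : ℝ) = E at e1 e3
  have e4 : (((2 * N₁ + 1) * (2 * N₂ + 1) : ℕ) : ℝ) ≤ 4 * P := by
    push_cast
    have : (0 : ℝ) ≤ N₁ := by positivity
    have : (0 : ℝ) ≤ N₂ := by positivity
    nlinarith
  have e5 : P ^ (8 * ε) ≤ (4 ^ ε * (q : ℝ) ^ ε) ^ 8 := by
    rw [← Real.mul_rpow (by positivity) (by positivity), ← Real.rpow_mul_natCast (by positivity),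
      mul_comm ε]
    push_cast
    gcongr
  have e6 : C * C ≤ (C + 1) ^ 8 :=
    (show C * C ≤ (C + 1) ^ 2 by nlinarith).trans (pow_le_pow_right₀ (by linarith) (by norm_num))
  have e7 : ∀ x : ℝ, 0 < x → (x ^ (3 / 4 : ℝ)) ^ 8 = x ^ 6 := fun x hx => by
    rw [← Real.rpow_mul_natCast hx.le, ← Real.rpow_natCast]; norm_num
  have e8 := four hc
  refine le_of_pow_le_pow_left₀ (n := 8) (by norm_num) (by positivity) ?_
  calc _ = (_ ^ 4) ^ 2 := by ring
    _ ≤ _ := pow_le_pow_left₀ (by positivity) e1 2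
    _ = (((2 * N₁ + 1) * (2 * N₂ + 1) : ℕ) : ℝ) ^ 4 * (E ^ 2 * (∑ t, ‖Kl q c t‖ ^ 4) ^ 2) := by
      ring
    _ ≤ (4 * P) ^ 4 * (((C + 1) ^ 8 * (P ^ 2 * (4 ^ ε * (q : ℝ) ^ ε) ^ 8)) *
        (16 * (q : ℝ) ^ 3) ^ 2) := by
      gcongr
      exact e3.trans (by gcongr)
    _ = _ := by
      rw [Real.rpow_add (by linarith)]
      simp only [mul_pow, e7 P P0, e7 q (by linarith)]
      ring

end Pool.Agent.Lib.APQ
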