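import Pool.Agent.Lib.APQ.Kit

/-!
Block M1: the mean square on the good arcs.
-/

namespace Pool.Agent.Lib.APQ

open Finset Real Complex Filter Pool.Agent.Lib.PS
open scoped NumberTheorySymbols ArithmeticFunction.Moebius Classical ComplexConjugate

namespace M1

theorem blk_lt {K' : ℕ} (hK : 1 ≤ K') (x : ℝ) : blk K' x < K' := by
  have h0 : (0 : ℝ) < K' := by exact_mod_cast hK
  rw [blk, Nat.floor_lt (mul_nonneg h0.le (Int.fract_nonneg x))]
  exact mul_lt_of_lt_one_right h0 (Int.fract_lt_one x)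

theorem blk_near {K' : ℕ} (hK : 1 ≤ K') {x y : ℝ} (h : blk K' x = blk K' y) :
    ∃ n : ℤ, |x - y - n| * K' < 1 := by
  have h0 : (0 : ℝ) < K' := by exact_mod_cast hK
  refine ⟨⌊x⌋ - ⌊y⌋, ?_⟩
  have e : x - y - ((⌊x⌋ - ⌊y⌋ : ℤ) : ℝ) = Int.fract x - Int.fract y := by
    unfold Int.fract; push_cast; ring
  have a1 := Nat.floor_le (mul_nonneg h0.le (Int.fract_nonneg x))
  have a2 := Nat.floor_le (mul_nonneg h0.le (Int.fract_nonneg y))
  have a3 := Nat.lt_floor_add_one ((K' : ℝ) * Int.fract x)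
  have a4 := Nat.lt_floor_add_one ((K' : ℝ) * Int.fract y)
  unfold blk at h
  rw [h] at a1 a3
  rw [e, ← abs_of_pos h0, ← abs_mul, abs_lt]
  constructor <;> nlinarith

theorem exact_rel {v r s : ℕ} {b c n : ℤ} (hv : v.Prime) (h3 : ¬ v ∣ r) (h4 : ¬ v ∣ s)
    (e : (v : ℤ) * (b * s - c * r) = n * (r * s)) : ∃ m : ℤ, n = v * m := by
  have c1 : IsCoprime (r : ℤ) v :=
    Nat.isCoprime_iff_coprime.2 ((Nat.Prime.coprime_iff_not_dvd hv).2 h3).symm
  have c2 : IsCoprime (s : ℤ) v :=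
    Nat.isCoprime_iff_coprime.2 ((Nat.Prime.coprime_iff_not_dvd hv).2 h4).symm
  exact (c1.mul_left c2).symm.dvd_of_dvd_mul_right ⟨_, e.symm⟩

theorem pair {K' v : ℕ} {V R x y : ℝ} {r s : ℕ} {b c : ℤ} (hV : 1 ≤ V) (hv : v.Prime)
    (h1 : V < v) (h2 : (v : ℝ) ≤ 2 * V) (hK : 1 ≤ K') (hR : 20 * R ^ 2 ≤ K')
    (hx : Arc R (1 / K' / V) x r b) (hy : Arc R (1 / K' / V) y s c) (h3 : ¬ v ∣ r) (h4 : ¬ v ∣ s)
    (h : blk K' (v * x) = blk K' (v * y)) : ∃ m : ℤ, |x - y - m| * (K' * V) ≤ 1 := by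
  obtain ⟨n, hn⟩ := blk_near hK h
  obtain ⟨r1, r2, -, r4⟩ := hx
  obtain ⟨s1, s2, -, s4⟩ := hy
  have k0 : (0 : ℝ) < K' := by exact_mod_cast hK
  have r0 : (0 : ℝ) < r := by exact_mod_cast r1
  have s0 : (0 : ℝ) < s := by exact_mod_cast s1
  have v0 : (0 : ℝ) < v := by linarith
  have V0 : (0 : ℝ) < V := by linarith
  have key : ∀ (z : ℝ) (t : ℕ) (d : ℤ), (0 : ℝ) < t → (t : ℝ) ≤ R →
      |z - d / t| ≤ R * (1 / K' / V) / t → |v * (z * t - d)| * K' ≤ 2 * R := by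
    intro z t d t0 t2 hz
    have e : z * t - d = (z - d / t) * t := by field_simp
    rw [le_div_iff₀ t0] at hz
    rw [abs_mul, abs_of_pos v0, e, abs_mul, abs_of_pos t0]
    calc v * (|z - d / t| * t) * K' ≤ (2 * V) * (R * (1 / K' / V)) * K' := by gcongr
      _ = 2 * R := by field_simp
  have k1 := key x r b r0 r2 r4
  have k2 := key y s c s0 s2 s4
  have e : (((v : ℤ) * (b * s - c * r) - n * (r * s) : ℤ) : ℝ) =
      (v * x - v * y - n) * (r * s) - v * (x * r - b) * s + v * (y * s - c) * r := by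
    push_cast; ring
  have hb : |(((v : ℤ) * (b * s - c * r) - n * (r * s) : ℤ) : ℝ)| < 1 := by
    rw [e]
    refine lt_of_mul_lt_mul_right ?_ k0.le
    have t1 : |(v * x - v * y - n) * (r * s) - v * (x * r - b) * s + v * (y * s - c) * r| ≤
        |v * x - v * y - n| * (r * s) + |v * (x * r - b)| * s + |v * (y * s - c)| * r := by
      refine (abs_add_le _ _).trans (add_le_add ((abs_sub _ _).trans (le_of_eq ?_)) (le_of_eq ?_))
      · rw [abs_mul _ ((r : ℝ) * s), abs_of_pos (mul_pos r0 s0), abs_mul _ (s : ℝ), abs_of_pos s0]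
      · rw [abs_mul _ (r : ℝ), abs_of_pos r0]
    have R0 : 0 < R := r0.trans_le r2
    calc _ ≤ (|v * x - v * y - n| * (r * s) + |v * (x * r - b)| * s + |v * (y * s - c)| * r) * K' := by
          gcongr
      _ = |v * x - v * y - n| * K' * (r * s) + |v * (x * r - b)| * K' * s +
          |v * (y * s - c)| * K' * r := by ring
      _ ≤ 1 * (R * R) + 2 * R * R + 2 * R * R := by gcongr
      _ < 1 * K' := by nlinarith
  have hz : (v : ℤ) * (b * s - c * r) - n * (r * s) = 0 := by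
    rw [← Int.cast_abs] at hb
    exact Int.abs_lt_one_iff.1 (by exact_mod_cast hb)
  obtain ⟨m, rfl⟩ := exact_rel hv h3 h4 (sub_eq_zero.1 hz)
  refine ⟨m, ?_⟩
  rw [show (v : ℝ) * x - v * y - ((v * m : ℤ) : ℝ) = v * (x - y - m) by push_cast; ring, abs_mul,
    abs_of_pos v0] at hn
  calc |x - y - m| * (K' * V) ≤ |x - y - m| * (K' * v) := by gcongr
    _ ≤ 1 := by linarith

theorem count {N : ℕ} {W : ℝ} (hW : 0 < W) (hN : W ≤ N) {J : Finset ℕ} (hJ : J ⊆ range N)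
    (h : ∀ i ∈ J, ∀ j ∈ J, ∃ m : ℤ, |(i : ℝ) / N - (j : ℝ) / N - m| * W ≤ 1) :
    (J.card : ℝ) ≤ 3 * N / W := by
  have N0 : (0 : ℝ) < N := hW.trans_le hN
  have L1 : 1 ≤ N / W := (one_le_div hW).2 hN
  rcases J.eq_empty_or_nonempty with rfl | ⟨j, hj⟩
  · simp only [card_empty, Nat.cast_zero]; positivity
  have hs : J ⊆ (box ⌊N / W⌋₊).image fun t : ℤ => (((j : ℤ) + t) % N).toNat := by
    intro i hi
    obtain ⟨m, hm⟩ := h i hi j hj
    refine mem_image.2 ⟨i - j - m * N, mem_box.2 ?_, ?_⟩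
    · have e : (i : ℝ) / N - (j : ℝ) / N - m = ((i - j - m * N : ℤ) : ℝ) / N := by
        push_cast; field_simp
      rw [e, abs_div, abs_of_pos N0, div_mul_eq_mul_div, div_le_one N0, ← le_div_iff₀ hW,
        ← Int.cast_abs] at hm
      rw [Int.natCast_floor_eq_floor (by linarith)]
      exact Int.le_floor.2 hm
    · have hi' : (i : ℤ) < N := by exact_mod_cast mem_range.1 (hJ hi)
      rw [show (j : ℤ) + (i - j - m * N) = i + N * (-m) by ring, Int.add_mul_emod_self_left,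
        Int.emod_eq_of_lt (by positivity) hi', Int.toNat_natCast]
  have h1 : J.card ≤ 2 * ⌊N / W⌋₊ + 1 := by
    rw [← card_box]
    exact (card_le_card hs).trans card_image_le
  have h2 : (J.card : ℝ) ≤ 2 * ⌊N / W⌋₊ + 1 := by exact_mod_cast h1
  have h3 := Nat.floor_le (show 0 ≤ N / W by linarith)
  rw [mul_div_assoc]
  linarith

end M1

theorem blk_M1 (hBLK : St_BLK) : St_M1 := by
  intro β K K' N v V R I hβ hV hv h1 h2 hK hR hN hI hA
  obtain ⟨h, h0, h3, h4⟩ := hBLK β K K' hβ hK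
  have k0 : (0 : ℝ) < K' := by exact_mod_cast hK
  have W0 : 0 < K' * V := by positivity
  have hb : 0 ≤ bS K K' := (sum_nonneg fun j _ => h0 j).trans h4
  calc ∑ i ∈ I, ‖bh β K (v * ((i : ℝ) / N))‖ ^ 2 ≤ ∑ i ∈ I, h (blk K' (v * ((i : ℝ) / N))) :=
        sum_le_sum fun i _ => h3 _
    _ = ∑ j ∈ range K', ∑ _i ∈ I.filter (fun i : ℕ => blk K' (v * ((i : ℝ) / N)) = j), h j := by
        rw [← sum_fiberwise_of_maps_to (g := fun i : ℕ => blk K' (v * ((i : ℝ) / N)))
          (t := range K') fun i _ => mem_range.2 (M1.blk_lt hK _)]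
        exact sum_congr rfl fun j _ => sum_congr rfl fun i hi => by rw [(mem_filter.1 hi).2]
    _ ≤ ∑ j ∈ range K', 3 * N / (K' * V) * h j := by
        refine sum_le_sum fun j _ => ?_
        rw [sum_const, nsmul_eq_mul]
        refine mul_le_mul_of_nonneg_right (M1.count W0 hN ((filter_subset _ _).trans hI) ?_) (h0 j)
        intro i hi i' hi'
        obtain ⟨r, b, a1, a2⟩ := hA i (mem_filter.1 hi).1
        obtain ⟨s, c, a3, a4⟩ := hA i' (mem_filter.1 hi').1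
        exact M1.pair hV hv h1 h2 hK hR a1 a3 a2 a4
          ((mem_filter.1 hi).2.trans (mem_filter.1 hi').2.symm)
    _ ≤ 3 * N / (K' * V) * bS K K' := by
        rw [← mul_sum]
        gcongr
    _ ≤ 12 * N * bS K K' / (K' * V) := by
        rw [div_mul_eq_mul_div]
        gcongr
        norm_num

end Pool.Agent.Lib.APQ
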