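import Pool.Agent.Lib.APQ.Kit

/-!
The main term of the bilinear part for the model of the squares.
-/

namespace Pool.Agent.Lib.APQ

open Finset Real Complex Filter Pool.Agent.Lib.PS
open scoped NumberTheorySymbols ArithmeticFunction.Moebius Classical ComplexConjugate

namespace MT2

theorem mult (n p : ℕ) (hp : 0 < p) (F a : ℕ → ℝ) :
    ∑ x ∈ Icc 1 n, F x * (if p ∣ x then a (x / p) else 0) =
      ∑ u ∈ Icc 1 n, a u * if p * u ≤ n then F (p * u) else 0 := by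
  simp only [mul_ite, mul_zero]
  rw [← sum_filter, ← sum_filter]
  refine sum_nbij' (· / p) (p * ·) (fun x hx => ?_) (fun u hu => ?_) (fun x hx => ?_)
    (fun u _ => Nat.mul_div_cancel_left u hp) (fun x hx => ?_)
  · simp only [mem_filter, mem_Icc] at hx ⊢
    obtain ⟨⟨h1, h2⟩, u, rfl⟩ := hx
    rw [Nat.mul_div_cancel_left u hp]
    exact ⟨⟨Nat.pos_of_mul_pos_left h1, (Nat.le_mul_of_pos_left u hp).trans h2⟩, h2⟩
  · simp only [mem_filter, mem_Icc] at hu ⊢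
    exact ⟨⟨Nat.mul_pos hp hu.1.1, hu.2⟩, dvd_mul_right _ _⟩
  · exact Nat.mul_div_cancel' (mem_filter.1 hx).2
  · rw [Nat.mul_div_cancel' (mem_filter.1 hx).2, mul_comm]

theorem swap (n : ℕ) (y z : ℝ) (F a : ℕ → ℝ) :
    ∑ x ∈ Icc 1 n, F x * ∑ p ∈ pr y z, (if p ∣ x then a (x / p) else 0) =
      ∑ u ∈ Icc 1 n, a u * ∑ p ∈ (Ioc ⌊y⌋₊ (min ⌊z⌋₊ (n / u))).filter Nat.Prime, F (p * u) := by
  simp only [mul_sum (pr y z)]
  rw [sum_comm, sum_congr rfl fun p hp => mult n p (mem_filter.1 hp).2.pos F a, sum_comm]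
  refine sum_congr rfl fun u hu => ?_
  rw [← mul_sum, ← sum_filter]
  congr 2
  ext p
  simp only [pr, mem_filter, mem_Ioc, le_min_iff, Nat.le_div_iff_mul_le (mem_Icc.1 hu).1]
  tauto

theorem cop {z : ℝ} {u r : ℕ} (h : Rz z u ≠ 0) (h1 : 1 ≤ r) (h2 : (r : ℝ) ≤ z) :
    Nat.Coprime u r := by
  refine Nat.Coprime.symm (Nat.coprime_of_dvd fun p hp hr hu => h ?_)
  refine if_neg fun h3 => h3 p ((mem_pr le_rfl).2 ⟨hp, by exact_mod_cast hp.pos, ?_⟩) hu
  exact le_trans (by exact_mod_cast Nat.le_of_dvd h1 hr) h2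

end MT2

open MT2

theorem blk_MT2 (hPW : St_PW) (hAF : St_AF) (hIB : St_IB) (hRAM : St_RAM) (hABEL : St_ABEL) :
    St_MT2 := by
  intro d t B d0 d1 t0 t1
  obtain ⟨C, C0, hC⟩ := hPW (4 * B + 4) (B + 1)
  filter_upwards [ev_pow 1 B d0, ev_lg_sqrt 1 B, ev_lg (1 / d ^ (B + 1)), ev_lg 1,
    ev_lg (36 * C / d ^ (4 * B + 4)), ev_rpow 1 d0, eventually_ge_atTop 33] with
    X e1 e2 e3 e4 e5 e6 e7 P n P1 hP n1 n2
  rw [Real.rpow_zero, mul_one, one_mul] at e1
  rw [one_mul] at e2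
  have X0 : (0 : ℝ) < X := by exact_mod_cast (by omega : 0 < X)
  have s0' : 0 < √(X : ℝ) := Real.sqrt_pos.2 X0
  have l0 : 0 < lg X := by linarith
  have hU := (hIB.1 X P P1 (hP.trans e2)).1
  set F : ℕ → ℝ := fun x => md X P ((n : ℤ) - x) - S0 n P * s0 X P ((n : ℤ) - x) with hF
  have h1 : ∑ x ∈ Icc 1 n, md X P ((n : ℤ) - x) * F2 X d t x - S0 n P * BB X P n (F2 X d t) =
      ∑ x ∈ Icc 1 n, F x * F2 X d t x := by
    rw [BB, mul_sum, ← sum_sub_distrib]
    exact sum_congr rfl fun x _ => by simp only [hF]; ring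
  set E : ℝ := 4 * C * √(X : ℝ) / (d ^ (4 * B + 4) * lg X ^ 4) with hE
  have E0 : 0 ≤ E := by positivity
  have h2 : ∀ u ∈ Icc 1 n, |al X d t u *
      ∑ p ∈ (Ioc ⌊(X : ℝ) ^ d⌋₊ (min ⌊zz X⌋₊ (n / u))).filter Nat.Prime, F (p * u)| ≤
      3 * E * (u : ℝ)⁻¹ := by
    intro u hu
    obtain ⟨u1, u2⟩ := mem_Icc.1 hu
    have u0 : (0 : ℝ) < u := by exact_mod_cast u1
    by_cases ha : Rz ((X : ℝ) ^ d) u = 0
    · rw [al, ha, zero_mul, zero_div, zero_mul, abs_zero]; positivity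
    set N := min ⌊zz X⌋₊ (n / u) with hN
    set s := ⌊(X : ℝ) ^ d⌋₊ with hs
    rcases le_or_gt N s with h | h
    · rw [Ioc_eq_empty (by omega), filter_empty, sum_empty, mul_zero, abs_zero]; positivity
    have s1 : 1 ≤ s := Nat.le_floor (by simpa using e6)
    have Ps : P ≤ s := Nat.le_floor (hP.trans e1)
    have k1 : d * lg X ≤ Real.log N := by
      rw [lg, ← Real.log_rpow X0]
      exact Real.log_le_log (by positivity) ((Nat.floor_lt (by positivity)).1 h).le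
    have k0 : 0 < d * lg X := by positivity
    have k2 : (N : ℝ) ≤ 2 * X / u := by
      refine le_trans (Nat.cast_le.2 (min_le_right _ _)) (Nat.cast_div_le.trans ?_)
      gcongr
      exact_mod_cast n2
    have k3 : lg X ^ B ≤ Real.log N ^ (B + 1) := by
      rw [div_le_iff₀ (by positivity)] at e3
      calc lg X ^ B ≤ lg X ^ B * (lg X * d ^ (B + 1)) := le_mul_of_one_le_right (by positivity) e3
        _ = (d * lg X) ^ (B + 1) := by ring
        _ ≤ _ := by gcongr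
    have k4 := (hC N s N _ _ (by omega) h.le le_rfl
      (hABEL.2.2.2.2.2.1 _ _ n (-(u : ℤ)) hU)).2
    have k5 : ∀ r ∈ Icc 1 P, |∑ p ∈ (Ioc s N).filter Nat.Prime,
        s0 X P ((n : ℤ) - (p * u : ℕ)) * ((Aq r ((n : ℤ) - (p * u : ℕ)) : ℝ) - fn n r)| ≤
        C * P * P * (2 * P / √(X : ℝ)) * (2 * X / u) / (d * lg X) ^ (4 * B + 4) := by
      intro r hr
      obtain ⟨r1, r2⟩ := mem_Icc.1 hr
      have r3 : (r : ℝ) ≤ P := by exact_mod_cast r2
      have k6 := k4 r r (fun k => (Aq r ((n : ℤ) - k * u) : ℝ)) r1 (r3.trans (hP.trans k3))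
        (r2.trans Ps) (fun k => by
          rw [hAF.2.2.2.1 r _ ((n : ℤ) - k * u) ⟨-u, by push_cast; ring⟩])
        (fun k => hAF.2.1 r _)
      rw [hAF.2.2.2.2.1 r u n r1 (cop ha r1 (r3.trans (hP.trans e1))), hAF.1 r n r1, mul_sum,
        ← sum_sub_distrib] at k6
      refine le_trans (le_of_eq ?_) (k6.trans (by gcongr))
      congr 1
      refine sum_congr rfl fun p _ => ?_
      rw [show (n : ℤ) + -(u : ℤ) * p = n - p * u by ring]
      push_cast; ring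
    have k7 : ∑ p ∈ (Ioc s N).filter Nat.Prime, F (p * u) = ∑ r ∈ Icc 1 P,
        ∑ p ∈ (Ioc s N).filter Nat.Prime,
          s0 X P ((n : ℤ) - (p * u : ℕ)) * ((Aq r ((n : ℤ) - (p * u : ℕ)) : ℝ) - fn n r) := by
      rw [sum_comm]
      refine sum_congr rfl fun p _ => ?_
      simp only [hF, md, nu, S0, Int.cast_sum]
      rw [← mul_sum, sum_sub_distrib]; ring
    have k8 := (abs_sum_le_sum_abs _ _).trans (sum_le_card_nsmul _ _ _ k5)
    rw [← k7, Nat.card_Icc, Nat.add_sub_cancel, nsmul_eq_mul] at k8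
    rw [abs_mul, mul_assoc]
    refine mul_le_mul (hRAM X u d t e7 d0 d1 t0 t1 u1 (by omega)).2.2.2.2.1 (k8.trans ?_)
      (abs_nonneg _) (by norm_num)
    have k9 : (X : ℝ) = √(X : ℝ) * √(X : ℝ) := (Real.mul_self_sqrt X0.le).symm
    calc _ ≤ lg X ^ B * (C * lg X ^ B * lg X ^ B * (2 * lg X ^ B / √(X : ℝ)) *
          (2 * (√(X : ℝ) * √(X : ℝ)) / u) / (d * lg X) ^ (4 * B + 4)) := by
          rw [← k9]; gcongr
      _ = _ := by rw [hE]; field_simp; ring
  rw [h1]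
  simp only [F2]
  rw [swap]
  refine (abs_sum_le_sum_abs _ _).trans ((sum_le_sum h2).trans ?_)
  rw [← mul_sum]
  have h3 : 1 + Real.log n ≤ 3 * lg X := by
    have h4 : Real.log n ≤ Real.log (2 * X) :=
      Real.log_le_log (by exact_mod_cast (by omega : 0 < n)) (by exact_mod_cast n2)
    rw [Real.log_mul two_ne_zero X0.ne'] at h4
    have := Real.log_two_lt_d9
    rw [lg] at e4 ⊢
    linarith
  calc _ ≤ 3 * E * (3 * lg X) := by gcongr; exact (RankZero.dp_harm1 n).trans h3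
    _ = 36 * C / d ^ (4 * B + 4) * (√(X : ℝ) / lg X ^ 3) := by rw [hE]; field_simp; ring
    _ ≤ lg X * (√(X : ℝ) / lg X ^ 3) := by gcongr
    _ = _ := by field_simp

end Pool.Agent.Lib.APQ
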