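import Pool.Agent.Lib.APQ.Kit

/-!
Block MU: pairs of primes whose multiples of a minor-arc point fall into two given short arcs.
-/

namespace Pool.Agent.Lib.APQ

open Finset Real Complex Filter Pool.Agent.Lib.PS
open scoped NumberTheorySymbols ArithmeticFunction.Moebius Classical ComplexConjugate

namespace MU

theorem mn_int {ρ D θ : ℝ} (h : Mn ρ D θ) (r b : ℤ) (hr : r ≠ 0) (hρ : |(r : ℝ)| ≤ ρ) :
    ρ * D / |(r : ℝ)| < |θ - b / r| := by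
  obtain ⟨n, rfl | rfl⟩ := Int.eq_nat_or_neg r
  · have hn : 1 ≤ n := by omega
    have e : |((n : ℤ) : ℝ)| = n := by rw [Int.cast_natCast, Nat.abs_cast]
    rw [e] at hρ ⊢
    simpa using h n b hn hρ
  · have hn : 1 ≤ n := by omega
    have e : |((-(n : ℤ) : ℤ) : ℝ)| = n := by rw [Int.cast_neg, abs_neg, Int.cast_natCast, Nat.abs_cast]
    rw [e] at hρ ⊢
    have := h n (-b) hn hρ
    convert this using 3
    push_cast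
    rw [div_neg, neg_div]

theorem err_le {V Δ φ φ' θ a b : ℝ} {l₁ l₂ : ℝ} (ha0 : 0 ≤ a) (hb0 : 0 ≤ b) (ha : a ≤ 2 * V)
    (hb : b ≤ 2 * V) (h2 : |b * θ - φ - l₂| ≤ Δ) (h1 : |a * θ - φ' - l₁| ≤ Δ) :
    |a * φ - b * φ' - (b * l₁ - a * l₂)| ≤ 4 * V * Δ := by
  have hΔ : 0 ≤ Δ := (abs_nonneg _).trans h1
  have e : a * φ - b * φ' - (b * l₁ - a * l₂)
      = b * (a * θ - φ' - l₁) - a * (b * θ - φ - l₂) := by ring
  rw [e]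
  calc _ ≤ |b * (a * θ - φ' - l₁)| + |a * (b * θ - φ - l₂)| := abs_sub _ _
    _ = b * |a * θ - φ' - l₁| + a * |b * θ - φ - l₂| := by
        rw [abs_mul, abs_mul, abs_of_nonneg ha0, abs_of_nonneg hb0]
    _ ≤ 2 * V * Δ + 2 * V * Δ := by gcongr <;> linarith
    _ = 4 * V * Δ := by ring

theorem slope_ne {v₁ v₂ w₁ w₂ : ℕ} (h1 : v₁.Prime) (h2 : v₂.Prime) (h3 : w₁.Prime) (hne : v₁ ≠ v₂)
    (h : (v₁ : ℤ) * w₂ - v₂ * w₁ = 0) : v₁ = w₁ ∧ v₂ = w₂ := by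
  have e : v₁ * w₂ = v₂ * w₁ := by
    have : (v₁ : ℤ) * w₂ = v₂ * w₁ := by linarith
    exact_mod_cast this
  have hd : v₁ ∣ v₂ * w₁ := ⟨w₂, e.symm⟩
  have h11 : v₁ = w₁ := by
    rcases (Nat.Prime.dvd_mul h1).1 hd with h | h
    · exact absurd ((Nat.prime_dvd_prime_iff_eq h1 h2).1 h) hne
    · exact (Nat.prime_dvd_prime_iff_eq h1 h3).1 h
  subst h11
  refine ⟨rfl, ?_⟩
  rw [mul_comm v₂] at e
  exact (Nat.eq_of_mul_eq_mul_left h1.pos e).symm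

theorem key {V Δ ρ φ φ' θ : ℝ} {v₁ v₂ w₁ w₂ : ℕ} {l₁ l₂ m : ℤ} (hV : 1 ≤ V) (hΔ : 0 < Δ)
    (hρ : 0 < ρ) (p1 : v₁.Prime) (p2 : v₂.Prime) (hne : v₁ ≠ v₂) (a1 : (v₁ : ℝ) ≤ 2 * V)
    (a2 : V < v₂) (a3 : (v₂ : ℝ) ≤ 2 * V) (b1 : (w₁ : ℝ) ≤ 2 * V) (b3 : (w₂ : ℝ) ≤ 2 * V)
    (hM : Mn ρ (Δ / V) θ) (h2 : |v₂ * θ - φ - l₂| ≤ Δ)
    (hP : |v₁ * φ - v₂ * φ' - (v₂ * l₁ - v₁ * l₂)| ≤ 4 * V * Δ)
    (hQ : |w₁ * φ - w₂ * φ' - m| ≤ 4 * V * Δ) (hc : (v₁ : ℤ) * w₂ - v₂ * w₁ ≠ 0) :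
    (crs (v₁, v₂, v₂ * l₁ - v₁ * l₂) (w₁, w₂, m) : ℝ) ≤ 32 * V ^ 2 / ρ := by
  set l : ℤ := v₂ * l₁ - v₁ * l₂ with hl
  set g : ℕ := crs (v₁, v₂, l) (w₁, w₂, m) with hg
  have d12 : (g : ℤ) ∣ (Int.gcd ((v₂ : ℤ) * m - l * w₂) (l * w₁ - v₁ * m) : ℕ) :=
    Int.gcd_dvd_left _ _
  have d3 : (g : ℤ) ∣ (v₁ : ℤ) * w₂ - v₂ * w₁ := Int.gcd_dvd_right _ _
  obtain ⟨A, hA⟩ : (g : ℤ) ∣ (v₂ : ℤ) * m - l * w₂ := d12.trans (Int.gcd_dvd_left _ _)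
  obtain ⟨B, hB⟩ : (g : ℤ) ∣ l * w₁ - (v₁ : ℤ) * m := d12.trans (Int.gcd_dvd_right _ _)
  obtain ⟨r, hr⟩ := d3
  have hg0 : (g : ℤ) ≠ 0 := fun h => hc (by rw [hr, h, zero_mul])
  have hr0 : r ≠ 0 := fun h => hc (by rw [hr, h, mul_zero])
  have horth : (v₁ : ℤ) * A + v₂ * B + l * r = 0 := by
    have : (g : ℤ) * ((v₁ : ℤ) * A + v₂ * B + l * r) = 0 := by
      linear_combination (-(v₁ : ℤ)) * hA - (v₂ : ℤ) * hB - l * hr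
    exact (mul_eq_zero.1 this).resolve_left hg0
  have hcop : IsCoprime (v₂ : ℤ) (v₁ : ℤ) :=
    Nat.isCoprime_iff_coprime.2 ((Nat.coprime_primes p2 p1).2 hne.symm)
  have hdv : (v₂ : ℤ) ∣ (v₁ : ℤ) * (l₂ * r - A) :=
    ⟨B + l₁ * r, by rw [hl] at horth; linear_combination -horth⟩
  obtain ⟨b, hb⟩ := hcop.dvd_of_dvd_mul_left hdv
  have hV0 : 0 < V := by linarith
  have hgR : (0 : ℝ) < g := by
    have : g ≠ 0 := by exact_mod_cast hg0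
    positivity
  have hrR : (r : ℝ) ≠ 0 := by exact_mod_cast hr0
  have hrA : 0 < |(r : ℝ)| := abs_pos.2 hrR
  have hAR : (v₂ : ℝ) * m - (v₂ * l₁ - v₁ * l₂) * w₂ = g * A := by
    have := congrArg (Int.cast : ℤ → ℝ) hA
    rw [hl] at this
    push_cast at this
    exact this
  have hrr : (v₁ : ℝ) * w₂ - v₂ * w₁ = g * r := by exact_mod_cast hr
  have hbR : (l₂ : ℝ) * r - A = v₂ * b := by exact_mod_cast hb
  have v10 : (0 : ℝ) ≤ v₁ := Nat.cast_nonneg _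
  have v20 : (0 : ℝ) ≤ v₂ := Nat.cast_nonneg _
  have w10 : (0 : ℝ) ≤ w₁ := Nat.cast_nonneg _
  have w20 : (0 : ℝ) ≤ w₂ := Nat.cast_nonneg _
  rw [le_div_iff₀ hρ]
  rcases le_or_gt |(r : ℝ)| (ρ / 2) with hsm | hbig
  · have hlt := mn_int hM r b hr0 (by linarith)
    have e : (θ - b / r) * (v₂ * g * r)
        = w₂ * (v₁ * φ - v₂ * φ' - (v₂ * l₁ - v₁ * l₂)) - v₂ * (w₁ * φ - w₂ * φ' - m)
          + g * r * (v₂ * θ - φ - l₂) := by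
      have : (θ - b / r) * (v₂ * g * r) = θ * v₂ * g * r - g * (v₂ * b) := by field_simp
      rw [this, ← hbR]
      linear_combination (-1 : ℝ) * hAR - φ * hrr
    have hb1 : |θ - b / r| * (v₂ * g * |(r : ℝ)|) ≤ 16 * V ^ 2 * Δ + g * |(r : ℝ)| * Δ := by
      have e2 : |θ - b / r| * (v₂ * g * |(r : ℝ)|) = |(θ - b / r) * (v₂ * g * r)| := by
        rw [abs_mul, abs_mul, abs_mul, abs_of_nonneg v20, abs_of_pos hgR]
      rw [e2, e]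
      calc _ ≤ |w₂ * (v₁ * φ - v₂ * φ' - (v₂ * l₁ - v₁ * l₂))| + |v₂ * (w₁ * φ - w₂ * φ' - m)|
            + |g * r * (v₂ * θ - φ - l₂)| :=
            (abs_add_le _ _).trans (by gcongr; exact abs_sub _ _)
        _ = w₂ * |v₁ * φ - v₂ * φ' - (v₂ * l₁ - v₁ * l₂)| + v₂ * |w₁ * φ - w₂ * φ' - m|
            + g * |(r : ℝ)| * |v₂ * θ - φ - l₂| := by
            rw [abs_mul, abs_mul, abs_mul, abs_mul, abs_of_nonneg v20, abs_of_nonneg w20,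
              abs_of_pos hgR]
        _ ≤ 2 * V * (4 * V * Δ) + 2 * V * (4 * V * Δ) + g * |(r : ℝ)| * Δ := by gcongr
        _ = _ := by ring
    have hb2 : ρ * Δ * g ≤ |θ - b / r| * (v₂ * g * |(r : ℝ)|) := by
      calc ρ * Δ * g = ρ * (Δ / V) / |(r : ℝ)| * (V * g * |(r : ℝ)|) := by field_simp
        _ ≤ |θ - b / r| * (v₂ * g * |(r : ℝ)|) := by gcongr
    have hb3 : (g : ℝ) * |(r : ℝ)| * Δ ≤ g * (ρ / 2) * Δ := by gcongr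
    have : (g * ρ) * Δ ≤ 32 * V ^ 2 * Δ := by nlinarith
    exact le_of_mul_le_mul_right this hΔ
  · have h4 : (g : ℝ) * |(r : ℝ)| ≤ 4 * V ^ 2 := by
      have e2 : (g : ℝ) * |(r : ℝ)| = |(v₁ : ℝ) * w₂ - v₂ * w₁| := by
        rw [hrr, abs_mul, abs_of_pos hgR]
      have q1 : (v₁ : ℝ) * w₂ ≤ 2 * V * (2 * V) := by gcongr
      have q2 : (v₂ : ℝ) * w₁ ≤ 2 * V * (2 * V) := by gcongr
      have q3 : 0 ≤ (v₁ : ℝ) * w₂ := by positivity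
      have q4 : 0 ≤ (v₂ : ℝ) * w₁ := by positivity
      rw [e2, abs_le]
      constructor <;> nlinarith
    have h5 : (g : ℝ) * (ρ / 2) ≤ g * |(r : ℝ)| := by gcongr
    nlinarith [sq_nonneg V]

end MU

theorem blk_MU (hMU1 : St_MU1) : St_MU := by
  refine ⟨20000, by norm_num, fun V Δ ρ φ φ' S hV hΔ hρ hS => ?_⟩
  set F := S.offDiag.filter fun v : ℕ × ℕ => ∃ θ : ℝ, Mn ρ (Δ / V) θ ∧ nz (v.2 * θ - φ) ≤ Δ ∧
      nz (v.1 * θ - φ') ≤ Δ with hF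
  have hex : ∀ v : ℕ × ℕ, ∃ θ : ℝ, v ∈ F → Mn ρ (Δ / V) θ ∧ nz (v.2 * θ - φ) ≤ Δ ∧
      nz (v.1 * θ - φ') ≤ Δ := fun v => by
    by_cases hv : v ∈ F
    · obtain ⟨θ, hθ⟩ := (mem_filter.1 hv).2
      exact ⟨θ, fun _ => hθ⟩
    · exact ⟨0, fun h => absurd h hv⟩
  choose th hth using hex
  set f : ℕ × ℕ → ℤ × ℤ × ℤ := fun v =>
    (v.1, v.2, v.2 * round (v.1 * th v - φ') - v.1 * round (v.2 * th v - φ)) with hf
  have hinj : Function.Injective f := fun v w h => by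
    simp only [hf, Prod.mk.injEq, Nat.cast_inj] at h
    exact Prod.ext h.1 h.2.1
  have hmem : ∀ v ∈ F, v.1 ∈ S ∧ v.2 ∈ S ∧ v.1 ≠ v.2 := fun v hv =>
    mem_offDiag.1 (mem_filter.1 hv).1
  have herr : ∀ v ∈ F, |(v.1 : ℝ) * φ - v.2 * φ' - (v.2 * (round (v.1 * th v - φ') : ℤ)
      - v.1 * (round (v.2 * th v - φ) : ℤ))| ≤ 4 * V * Δ := fun v hv => by
    obtain ⟨m1, m2, -⟩ := hmem v hv
    exact MU.err_le (Nat.cast_nonneg _) (Nat.cast_nonneg _) (hS _ m1).2.2 (hS _ m2).2.2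
      (hth v hv).2.1 (hth v hv).2.2
  have hV0 : 0 < V := by linarith
  have h := hMU1 V (4 * V * Δ) (32 * V ^ 2 / ρ) φ φ' (F.image f) hV (by positivity)
    (by positivity) ?_ ?_
  · rw [card_image_of_injective _ hinj] at h
    have q1 : 0 ≤ V ^ 2 / ρ := by positivity
    have q2 : 32 * V ^ 2 / ρ = 32 * (V ^ 2 / ρ) := by ring
    rw [q2] at h
    nlinarith
  · intro P hP
    obtain ⟨v, hv, rfl⟩ := mem_image.1 hP
    obtain ⟨m1, m2, -⟩ := hmem v hv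
    simp only [hf]
    push_cast
    exact ⟨(hS _ m1).2.1, (hS _ m1).2.2, (hS _ m2).2.1, (hS _ m2).2.2, herr v hv⟩
  · intro P hP Q hQ hPQ
    obtain ⟨v, hv, rfl⟩ := mem_image.1 hP
    obtain ⟨w, hw, rfl⟩ := mem_image.1 hQ
    obtain ⟨m1, m2, m3⟩ := hmem v hv
    obtain ⟨n1, n2, -⟩ := hmem w hw
    have hc : (v.1 : ℤ) * w.2 - v.2 * w.1 ≠ 0 := fun h => by
      obtain ⟨e1, e2⟩ := MU.slope_ne (hS _ m1).1 (hS _ m2).1 (hS _ n1).1 m3 h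
      exact hPQ (by rw [Prod.ext e1 e2])
    refine ⟨hc, ?_⟩
    refine MU.key (θ := th v) (φ := φ) (φ' := φ') hV hΔ hρ (hS _ m1).1 (hS _ m2).1 m3 (hS _ m1).2.2
      (hS _ m2).2.1 (hS _ m2).2.2 (hS _ n1).2.2 (hS _ n2).2.2 (hth v hv).1 (hth v hv).2.1
      (herr v hv) ?_ hc
    push_cast
    exact herr w hw

end Pool.Agent.Lib.APQ
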