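import Pool.Agent.Lib.APQ.Kit

/-! Block MU1: integer points near a plane. -/

namespace Pool.Agent.Lib.APQ

open Finset Real

namespace MU1

/-- the two by two minor -/
def dm (P Q : ℤ × ℤ × ℤ) : ℤ := P.1 * Q.2.1 - P.2.1 * Q.1

/-- the triple product -/
def dt (P Q R : ℤ × ℤ × ℤ) : ℤ :=
  R.1 * (P.2.1 * Q.2.2 - P.2.2 * Q.2.1) + R.2.1 * (P.2.2 * Q.1 - P.1 * Q.2.2) + R.2.2 * dm P Q

/-- the slope -/
noncomputable def sl (P : ℤ × ℤ × ℤ) : ℝ := (P.2.1 : ℝ) / P.1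

theorem dm_eq {P Q : ℤ × ℤ × ℤ} (hP : (0 : ℝ) < P.1) (hQ : (0 : ℝ) < Q.1) :
    (dm P Q : ℝ) = P.1 * Q.1 * (sl Q - sl P) := by
  unfold dm sl
  push_cast
  field_simp

theorem crs_dvd (P Q R : ℤ × ℤ × ℤ) : (crs P Q : ℤ) ∣ dt P Q R := by
  have h1 : (crs P Q : ℤ) ∣ (Int.gcd (P.2.1 * Q.2.2 - P.2.2 * Q.2.1) (P.2.2 * Q.1 - P.1 * Q.2.2) : ℕ) :=
    Int.gcd_dvd_left _ _
  exact dvd_add (dvd_add ((h1.trans (Int.gcd_dvd_left _ _)).mul_left _)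
    ((h1.trans (Int.gcd_dvd_right _ _)).mul_left _)) ((Int.gcd_dvd_right _ _).mul_left _)

theorem dt_zero {P Q A B C : ℤ × ℤ × ℤ} (h : dm P Q ≠ 0) (hA : dt P Q A = 0) (hB : dt P Q B = 0)
    (hC : dt P Q C = 0) : dt A B C = 0 := by
  refine (mul_eq_zero.1 ?_).resolve_left h
  unfold dt dm at *
  linear_combination (B.1 * C.2.1 - B.2.1 * C.1) * hA + (C.1 * A.2.1 - C.2.1 * A.1) * hB +
    (A.1 * B.2.1 - A.2.1 * B.1) * hC

/-- in a plane the minors are multiples of the primitive minor -/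
theorem dm_dvd {P Q A B : ℤ × ℤ × ℤ} (hA : dt P Q A = 0) (hB : dt P Q B = 0) :
    dm P Q ∣ crs P Q * dm A B := by
  have e1 := Int.gcd_eq_gcd_ab ((Int.gcd (P.2.1 * Q.2.2 - P.2.2 * Q.2.1)
    (P.2.2 * Q.1 - P.1 * Q.2.2) : ℕ) : ℤ) (dm P Q)
  have e2 := Int.gcd_eq_gcd_ab (P.2.1 * Q.2.2 - P.2.2 * Q.2.1) (P.2.2 * Q.1 - P.1 * Q.2.2)
  have h1 : dm P Q ∣ (P.2.1 * Q.2.2 - P.2.2 * Q.2.1) * dm A B :=
    ⟨B.2.2 * A.2.1 - A.2.2 * B.2.1, by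
      unfold dt at hA hB; unfold dm at *; linear_combination B.2.1 * hA - A.2.1 * hB⟩
  have h2 : dm P Q ∣ (P.2.2 * Q.1 - P.1 * Q.2.2) * dm A B :=
    ⟨A.2.2 * B.1 - B.2.2 * A.1, by
      unfold dt at hA hB; unfold dm at *; linear_combination A.1 * hB - B.1 * hA⟩
  have h3 : dm P Q ∣ ((Int.gcd (P.2.1 * Q.2.2 - P.2.2 * Q.2.1)
      (P.2.2 * Q.1 - P.1 * Q.2.2) : ℕ) : ℤ) * dm A B := by
    rw [e2, add_mul, mul_right_comm, mul_right_comm (P.2.2 * Q.1 - P.1 * Q.2.2)]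
    exact dvd_add (h1.mul_right _) (h2.mul_right _)
  rw [show (crs P Q : ℤ) = _ from e1, add_mul, mul_right_comm, mul_assoc (dm P Q)]
  exact dvd_add (h3.mul_right _) (Dvd.intro _ rfl)

theorem plane {V : ℝ} (hV : 1 ≤ V) (T : Finset (ℤ × ℤ × ℤ))
    (h1 : ∀ P ∈ T, V < P.1 ∧ (P.1 : ℝ) ≤ 2 * V) (h2 : ∀ P ∈ T, ∀ Q ∈ T, P ≠ Q → dm P Q ≠ 0)
    (h3 : ∀ P ∈ T, ∀ Q ∈ T, ∀ R ∈ T, dt P Q R = 0) :
    T.card ≤ 1 ∨ ∃ P ∈ T, ∃ Q ∈ T, P ≠ Q ∧ T.card ≤ 1 + 4 * crs P Q := by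
  rcases le_or_gt T.card 1 with h | h
  · exact Or.inl h
  have hne : T.Nonempty := card_pos.1 (by omega)
  obtain ⟨P, hP, mP⟩ := exists_min_image T sl hne
  obtain ⟨Q, hQ, mQ⟩ := exists_max_image T sl hne
  have pos : ∀ A ∈ T, (0 : ℝ) < A.1 := fun A hA => by linarith [(h1 A hA).1]
  have ne : ∀ A ∈ T, ∀ B ∈ T, A ≠ B → sl A ≠ sl B := fun A hA B hB hAB e => h2 A hA B hB hAB (by
    have := dm_eq (pos A hA) (pos B hB)
    rw [e, sub_self, mul_zero] at this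
    exact_mod_cast this)
  have hPQ : P ≠ Q := by
    rintro rfl
    obtain ⟨A, hA, B, hB, hAB⟩ := one_lt_card.1 h
    exact ne A hA B hB hAB (((mQ A hA).antisymm (mP A hA)).trans
      ((mP B hB).antisymm (mQ B hB)))
  refine Or.inr ⟨P, hP, Q, hQ, hPQ, ?_⟩
  have hs : 0 < sl Q - sl P := sub_pos.2 ((mP Q hQ).lt_of_ne (ne P hP Q hQ hPQ))
  have hG : 0 < crs P Q := Nat.pos_of_ne_zero fun e => h2 P hP Q hQ hPQ
    (Int.gcd_eq_zero_iff.1 e).2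
  have hG' : (0 : ℝ) < crs P Q := by exact_mod_cast hG
  have key : ∀ A ∈ T, ∀ B ∈ T, A ≠ B → sl Q - sl P ≤ 4 * crs P Q * |sl B - sl A| := by
    intro A hA B hB hAB
    have a1 := Int.le_of_dvd (abs_pos.2 (mul_ne_zero (by exact_mod_cast hG.ne')
      (h2 A hA B hB hAB))) ((dvd_abs _ _).2 (dm_dvd (h3 P hP Q hQ A hA) (h3 P hP Q hQ B hB)))
    have a2 : (dm P Q : ℝ) ≤ crs P Q * |(dm A B : ℝ)| := by
      rw [← abs_of_pos hG', ← abs_mul]; exact_mod_cast a1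
    rw [dm_eq (pos P hP) (pos Q hQ), dm_eq (pos A hA) (pos B hB), abs_mul,
      abs_of_pos (mul_pos (pos A hA) (pos B hB))] at a2
    have a3 : V * V * (sl Q - sl P) ≤ P.1 * Q.1 * (sl Q - sl P) := by
      gcongr
      exacts [(pos P hP).le, (h1 P hP).1.le, (h1 Q hQ).1.le]
    have a4 : (A.1 : ℝ) * B.1 * |sl B - sl A| ≤ 2 * V * (2 * V) * |sl B - sl A| := by
      gcongr
      exacts [(pos B hB).le, (h1 A hA).2, (h1 B hB).2]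
    have a5 := mul_le_mul_of_nonneg_left a4 hG'.le
    exact le_of_mul_le_mul_left (a := V * V) (by linarith) (by positivity)
  rw [add_comm, ← card_range (4 * crs P Q + 1)]
  refine card_le_card_of_injOn (fun A => ⌊4 * crs P Q * (sl A - sl P) / (sl Q - sl P)⌋₊)
    (fun A hA => ?_) fun A hA B hB e => ?_
  · refine mem_coe.2 (mem_range.2 (Nat.lt_succ_of_le (Nat.floor_le_of_le ?_)))
    rw [div_le_iff₀ hs]
    push_cast
    gcongr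
    exact mQ A hA
  · by_contra hAB
    have a1 := key A hA B hB hAB
    have nn : ∀ C ∈ T, 0 ≤ 4 * crs P Q * (sl C - sl P) / (sl Q - sl P) := fun C hC =>
      div_nonneg (mul_nonneg (by positivity) (sub_nonneg.2 (mP C hC))) hs.le
    have a2 := Nat.floor_le (nn A hA)
    have a3 := Nat.floor_le (nn B hB)
    have a4 := Nat.lt_floor_add_one (4 * crs P Q * (sl A - sl P) / (sl Q - sl P))
    have a5 := Nat.lt_floor_add_one (4 * crs P Q * (sl B - sl P) / (sl Q - sl P))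
    simp only at e
    rw [← e] at a3 a5
    rw [le_div_iff₀ hs] at a2 a3
    rw [div_lt_iff₀ hs] at a4 a5
    rcases abs_cases (sl B - sl A) with ⟨b, -⟩ | ⟨b, -⟩ <;> rw [b] at a1 <;> nlinarith

theorem dt_le {V E φ φ' c s : ℝ} (hV : 1 ≤ V) {P Q R : ℤ × ℤ × ℤ}
    (h : ∀ A, A = P ∨ A = Q ∨ A = R → (V < A.1 ∧ (A.1 : ℝ) ≤ 2 * V) ∧
      |A.1 * φ - A.2.1 * φ' - A.2.2| ≤ E ∧ c ≤ sl A ∧ sl A ≤ c + s) :
    |(dt P Q R : ℝ)| ≤ 12 * V ^ 2 * E * s := by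
  have b : ∀ A B C, A = P ∨ A = Q ∨ A = R → B = P ∨ B = Q ∨ B = R → C = P ∨ C = Q ∨ C = R →
      |(C.1 * φ - C.2.1 * φ' - C.2.2) * (dm A B : ℝ)| ≤ E * (2 * V * (2 * V) * s) := by
    intro A B C hA hB hC
    obtain ⟨⟨a1, a2⟩, -, a3, a4⟩ := h A hA
    obtain ⟨⟨b1, b2⟩, -, b3, b4⟩ := h B hB
    have pA : (0 : ℝ) < A.1 := by linarith
    have pB : (0 : ℝ) < B.1 := by linarith
    rw [abs_mul, dm_eq pA pB, abs_mul, abs_of_pos (mul_pos pA pB)]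
    have c1 := (h C hC).2.1
    have c2 : |sl B - sl A| ≤ s := abs_le.2 ⟨by linarith, by linarith⟩
    have c3 : 0 ≤ E := (abs_nonneg _).trans c1
    gcongr
  have b1 := abs_le.1 (b P Q R (by simp) (by simp) (by simp))
  have b2 := abs_le.1 (b Q R P (by simp) (by simp) (by simp))
  have b3 := abs_le.1 (b R P Q (by simp) (by simp) (by simp))
  have e : (dt P Q R : ℝ) = -((R.1 * φ - R.2.1 * φ' - R.2.2) * (dm P Q : ℝ) +
      (P.1 * φ - P.2.1 * φ' - P.2.2) * (dm Q R : ℝ) +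
      (Q.1 * φ - Q.2.1 * φ' - Q.2.2) * (dm R P : ℝ)) := by
    unfold dt dm
    push_cast
    ring
  rw [e]
  exact abs_le.2 ⟨by linarith [b1.2, b2.2, b3.2], by linarith [b1.1, b2.1, b3.1]⟩

theorem halve {V E φ φ' : ℝ} (hV : 1 ≤ V) (n : ℕ) : ∀ (c s : ℝ) (T : Finset (ℤ × ℤ × ℤ)),
    (∀ A ∈ T, (V < A.1 ∧ (A.1 : ℝ) ≤ 2 * V) ∧ |A.1 * φ - A.2.1 * φ' - A.2.2| ≤ E ∧ c ≤ sl A ∧
      sl A ≤ c + s) → (∀ P ∈ T, ∀ Q ∈ T, P ≠ Q → dm P Q ≠ 0) → 12 * V ^ 2 * E * s < 2 ^ n →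
    (∃ P ∈ T, ∃ Q ∈ T, ∃ R ∈ T, dt P Q R ≠ 0) → (T.card : ℝ) ≤ 120 * V ^ 2 * E * s := by
  have one : ∀ (c s : ℝ) (T : Finset (ℤ × ℤ × ℤ)),
      (∀ A ∈ T, (V < A.1 ∧ (A.1 : ℝ) ≤ 2 * V) ∧ |A.1 * φ - A.2.1 * φ' - A.2.2| ≤ E ∧ c ≤ sl A ∧
        sl A ≤ c + s) → ∀ P ∈ T, ∀ Q ∈ T, ∀ R ∈ T, ∀ g : ℕ, (g : ℤ) ∣ dt P Q R → dt P Q R ≠ 0 →
      (g : ℝ) ≤ 12 * V ^ 2 * E * s := fun c s T h P hP Q hQ R hR g hg h0 => by
    have a1 := Int.le_of_dvd (abs_pos.2 h0) ((dvd_abs _ _).2 hg)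
    refine le_trans (by exact_mod_cast a1) (dt_le (φ := φ) (φ' := φ') (c := c) hV ?_)
    rintro A (rfl | rfl | rfl) <;> exact h _ ‹_›
  induction n with
  | zero =>
    rintro c s T h - hs ⟨P, hP, Q, hQ, R, hR, h0⟩
    have := one c s T h P hP Q hQ R hR 1 (one_dvd _) h0
    norm_num at this hs
    linarith
  | succ n ih =>
    rintro c s T h h2 hs ⟨A, hA, B, hB, C, hC, h0⟩
    have a1 := one c s T h A hA B hB C hC 1 (one_dvd _) h0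
    rw [Nat.cast_one] at a1
    have half : ∀ (c' : ℝ) (H : Finset (ℤ × ℤ × ℤ)), H ⊆ T →
        (∀ P ∈ H, c' ≤ sl P ∧ sl P ≤ c' + s / 2) → (H.card : ℝ) ≤ 60 * V ^ 2 * E * s := by
      intro c' H hH hc
      by_cases h3 : ∃ P ∈ H, ∃ Q ∈ H, ∃ R ∈ H, dt P Q R ≠ 0
      · have := ih c' (s / 2) H (fun P hP => ⟨(h P (hH hP)).1, (h P (hH hP)).2.1, hc P hP⟩)
          (fun P hP Q hQ => h2 P (hH hP) Q (hH hQ)) (by rw [pow_succ _ n] at hs; linarith) h3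
        linarith
      push Not at h3
      rcases plane hV H (fun P hP => (h P (hH hP)).1) (fun P hP Q hQ => h2 P (hH hP) Q (hH hQ))
        h3 with h4 | ⟨P, hP, Q, hQ, hPQ, h4⟩
      · have : (H.card : ℝ) ≤ 1 := by exact_mod_cast h4
        linarith
      have h5 : (H.card : ℝ) ≤ 1 + 4 * crs P Q := by exact_mod_cast h4
      obtain ⟨R, hR, h6⟩ : ∃ R ∈ T, dt P Q R ≠ 0 := by
        by_contra h6
        push Not at h6
        exact h0 (dt_zero (h2 P (hH hP) Q (hH hQ) hPQ) (h6 A hA) (h6 B hB) (h6 C hC))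
      have := one c s T h P (hH hP) Q (hH hQ) R hR _ (crs_dvd P Q R) h6
      linarith
    classical
    have b1 := half c (T.filter fun P => sl P ≤ c + s / 2) (filter_subset _ _)
      fun P hP => ⟨(h P (mem_filter.1 hP).1).2.2.1, (mem_filter.1 hP).2⟩
    have b2 := half (c + s / 2) (T.filter fun P => ¬ sl P ≤ c + s / 2) (filter_subset _ _)
      fun P hP => ⟨(not_le.1 (mem_filter.1 hP).2).le, by
        linarith [(h P (mem_filter.1 hP).1).2.2.2]⟩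
    rw [← card_filter_add_card_filter_not (s := T) fun P => sl P ≤ c + s / 2]
    push_cast
    linarith

end MU1

theorem blk_MU1 : St_MU1 := by
  intro V E G φ φ' T hV hE hG h1 h2
  have hp : 0 ≤ V ^ 2 * E := by positivity
  by_cases h3 : ∃ P ∈ T, ∃ Q ∈ T, ∃ R ∈ T, MU1.dt P Q R ≠ 0
  · obtain ⟨n, hn⟩ := pow_unbounded_of_one_lt (12 * V ^ 2 * E * (3 / 2)) (one_lt_two (α := ℝ))
    have := MU1.halve (φ := φ) (φ' := φ') hV n (1 / 2) (3 / 2) T (fun A hA => ?_)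
      (fun P hP Q hQ h => (h2 P hP Q hQ h).1) hn h3
    · linarith
    obtain ⟨a1, a2, a3, a4, a5⟩ := h1 A hA
    have pA : (0 : ℝ) < A.1 := by linarith
    refine ⟨⟨a1, a2⟩, a5, ?_, ?_⟩
    · rw [MU1.sl, le_div_iff₀ pA]; linarith
    · rw [MU1.sl, div_le_iff₀ pA]; linarith
  push Not at h3
  rcases MU1.plane hV T (fun P hP => ⟨(h1 P hP).1, (h1 P hP).2.1⟩)
    (fun P hP Q hQ h => (h2 P hP Q hQ h).1) h3 with h4 | ⟨P, hP, Q, hQ, hPQ, h4⟩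
  · have : (T.card : ℝ) ≤ 1 := by exact_mod_cast h4
    linarith
  have h5 : (T.card : ℝ) ≤ 1 + 4 * crs P Q := by exact_mod_cast h4
  linarith [(h2 P hP Q hQ hPQ).2]

end Pool.Agent.Lib.APQ
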