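import Pool.Agent.Lib.APQ.Kit

/-!
Block NUM: the main term of the minorant is positive.
-/

namespace Pool.Agent.Lib.APQ

open Finset Real Complex Filter Pool.Agent.Lib.PS
open scoped NumberTheorySymbols ArithmeticFunction.Moebius Classical ComplexConjugate

namespace NUM

theorem N3_nonneg (X x : ℕ) : 0 ≤ N3 X x :=
  sum_nonneg fun _ _ => sum_nonneg fun _ _ => by split_ifs <;> norm_num

theorem N4_nonneg (X x : ℕ) : 0 ≤ N4 X x :=
  sum_nonneg fun _ _ => sum_nonneg fun _ _ => sum_nonneg fun _ _ => by split_ifs <;> norm_num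

theorem ip_le (x : ℕ) : ip x ≤ 1 := by unfold ip; split_ifs <;> norm_num

theorem small {φ : ℕ → ℝ} {Φ Y : ℝ} (n : ℕ) (hY : 0 ≤ Y) (h0 : 0 ≤ Φ) (h : ∀ x, φ x ≤ Φ) :
    ∑ x ∈ Icc 1 n, φ x * (if (x : ℝ) ≤ Y then 1 else 0) ≤ Y * Φ := by
  have h1 : ∑ x ∈ Icc 1 n, φ x * (if (x : ℝ) ≤ Y then 1 else 0) =
      ∑ x ∈ (Icc 1 n).filter (fun x : ℕ => (x : ℝ) ≤ Y), φ x := by
    rw [sum_filter]
    exact sum_congr rfl fun x _ => by split_ifs <;> simp
  have h2 : ((Icc 1 n).filter fun x : ℕ => (x : ℝ) ≤ Y).card ≤ ⌊Y⌋₊ := by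
    refine (card_le_card (t := Icc 1 ⌊Y⌋₊) fun x hx => ?_).trans (by simp)
    rw [mem_filter, mem_Icc] at hx
    exact mem_Icc.2 ⟨hx.1.1, Nat.le_floor hx.2⟩
  rw [h1]
  refine (sum_le_card_nsmul _ _ _ fun x _ => h x).trans ?_
  rw [nsmul_eq_mul]
  exact mul_le_mul_of_nonneg_right ((Nat.cast_le.2 h2).trans (Nat.floor_le hY)) h0

end NUM

theorem blk_NUM (hNUMa : St_NUMa) (hNUMb : St_NUMb) (hIB : St_IB) (hRAM : St_RAM) : St_NUM := by
  refine ⟨1 / 1000, by norm_num, fun t B ht ht1 => ?_⟩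
  filter_upwards [hNUMa, hNUMb B (1 / 60000) (by norm_num), hIB.2, ev_lg_sqrt 1 B, ev_lg 1,
    eventually_ge_atTop 33, ev_pow 80000 (B + 1) (show 1 - t < 1 by linarith)]
    with X ha hb hW h1 h2 hX h3
  intro P n hP hPB hn1 hn2
  have hX0 : (0 : ℝ) < X := by exact_mod_cast (show 0 < X by omega)
  rw [one_mul] at h1
  rw [Real.rpow_one] at h3
  obtain ⟨b3, b4, b1⟩ := hb P n (by omega) hPB hn1 hn2
  have hW1 := hW P n hP hn1
  have i1 := (hIB.1 X P (by omega) (hPB.trans h1)).1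
  set M := √(X : ℝ) with hMdef
  have hM0 : 0 < M := Real.sqrt_pos.2 hX0
  have hM : M ^ 2 = X := Real.sq_sqrt hX0.le
  have hl : 0 < lg X := by linarith
  set Y := (X : ℝ) ^ (1 - t)
  have hY : 0 ≤ Y := by positivity
  have s1 := NUM.small (φ := fun x : ℕ => s0 X P ((n : ℤ) - x)) n hY i1.nonneg fun x => (i1.1 _).2
  have key : BB X P n ip - 2 * BB X P n (N3 X) - 3 * BB X P n (N4 X) -
      4 * ∑ x ∈ Icc 1 n, s0 X P ((n : ℤ) - x) * (if (x : ℝ) ≤ Y then 1 else 0) ≤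
      BB X P n (F0 X t) := by
    unfold BB
    rw [mul_sum, mul_sum, mul_sum, ← sum_sub_distrib, ← sum_sub_distrib, ← sum_sub_distrib]
    refine sum_le_sum fun x hx => ?_
    rw [mem_Icc] at hx
    have h4 : ip x - 2 * N3 X x - 3 * N4 X x - 4 * (if (x : ℝ) ≤ Y then 1 else 0) ≤ F0 X t x := by
      split_ifs with h5
      · have := (hRAM X x (1 / 10) t hX (by norm_num) le_rfl ht (by linarith) hx.1
          (by omega)).2.2.2.2.2
        linarith [NUM.N3_nonneg X x, NUM.N4_nonneg X x, NUM.ip_le x]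
      · have := ha x t ht ht1 (not_le.1 h5) (by omega)
        linarith
    have h5 := mul_le_mul_of_nonneg_left h4 (i1.1 ((n : ℤ) - x)).1
    linarith
  have s2 : 4 * (Y * (2 * P / M)) ≤ M / 10000 / lg X := by
    rw [le_div_iff₀ hl, le_div_iff₀ (by norm_num)]
    have e1 : 4 * (Y * (2 * P / M)) * lg X * 10000 = 80000 * (P * lg X) * Y / M := by
      field_simp; ring
    rw [e1, div_le_iff₀ hM0, ← pow_two, hM]
    refine le_trans ?_ h3
    rw [pow_succ]
    gcongr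
  set W := BB X P n fun _ => 1
  have e2 : (99 / 100 * W - 1 / 60000 * M) / lg X - 2 * ((2 / 5 * W + 1 / 60000 * M) / lg X) -
      3 * ((1 / 25 * W + 1 / 60000 * M) / lg X) - M / 10000 / lg X =
      (7 / 100 * W - M / 5000) / lg X := by ring
  have e3 : 1 / 1000 * M / lg X ≤ (7 / 100 * W - M / 5000) / lg X :=
    div_le_div_of_nonneg_right (by linarith) hl.le
  linarith

end Pool.Agent.Lib.APQ
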