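import Pool.Agent.Lib.APQ.Kit

/-!
Block NUMa: the pointwise lower bound for `F0` by primes and products of three or four primes.
-/

namespace Pool.Agent.Lib.APQ

open Finset Real Complex Filter Pool.Agent.Lib.PS
open scoped NumberTheorySymbols ArithmeticFunction.Moebius Classical ComplexConjugate

namespace NUMa

theorem om_le {y z : ℝ} {x : ℕ} (S : Finset ℕ) (h : ∀ p ∈ pr y z, p ∣ x → p ∈ S) :
    om y z x ≤ S.card := by
  unfold om
  rw [Finset.sum_boole]
  exact_mod_cast Finset.card_le_card (fun p hp => h p (mem_filter.1 hp).1 (mem_filter.1 hp).2)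

theorem N3_nonneg (X x : ℕ) : 0 ≤ N3 X x :=
  sum_nonneg fun _ _ => sum_nonneg fun _ _ => by split_ifs <;> norm_num

theorem N4_nonneg (X x : ℕ) : 0 ≤ N4 X x :=
  sum_nonneg fun _ _ => sum_nonneg fun _ _ => sum_nonneg fun _ _ => by split_ifs <;> norm_num

theorem one_le_N3 {X x p q : ℕ} (hp : p ∈ pr (zz X) ((X : ℝ) ^ (39 / 100 : ℝ)))
    (hq : q ∈ pr (zz X) ((X : ℝ) ^ (39 / 100 : ℝ)))
    (h : p ≤ q ∧ p * q ∣ x ∧ (x / (p * q)).Prime ∧
      (X : ℝ) ^ (33 / 100 : ℝ) ≤ ((x / (p * q) : ℕ) : ℝ)) : 1 ≤ N3 X x := by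
  unfold N3
  refine le_trans ?_ (single_le_sum (fun _ _ => sum_nonneg fun _ _ => ?_) hp)
  · refine le_trans ?_ (single_le_sum (fun _ _ => ?_) hq)
    · rw [if_pos h]
    · split_ifs <;> norm_num
  · split_ifs <;> norm_num

theorem one_le_N4 {X x p q r : ℕ} (hp : p ∈ pr (zz X) ((X : ℝ) ^ (29 / 100 : ℝ)))
    (hq : q ∈ pr (zz X) ((X : ℝ) ^ (29 / 100 : ℝ)))
    (hr : r ∈ pr (zz X) ((X : ℝ) ^ (29 / 100 : ℝ)))
    (h : p * q * r ∣ x ∧ (x / (p * q * r)).Prime ∧ zz X ≤ ((x / (p * q * r) : ℕ) : ℝ)) :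
    1 ≤ N4 X x := by
  unfold N4
  refine le_trans ?_ (single_le_sum (fun _ _ => sum_nonneg fun _ _ => sum_nonneg fun _ _ => ?_) hp)
  · refine le_trans ?_ (single_le_sum (fun _ _ => sum_nonneg fun _ _ => ?_) hq)
    · refine le_trans ?_ (single_le_sum (fun _ _ => ?_) hr)
      · rw [if_pos h]
      · split_ifs <;> norm_num
    · split_ifs <;> norm_num
  · split_ifs <;> norm_num

theorem rp {X : ℕ} (k : ℕ) :
    (X : ℝ) ^ ((k : ℝ) / 100) = ((X : ℝ) ^ (1 / 100 : ℝ)) ^ k := by
  rw [← Real.rpow_natCast, ← Real.rpow_mul (Nat.cast_nonneg X)]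
  congr 1; ring

/-- a list of numbers above `z` has product at least `z ^ length` -/
theorem pow_le_prod {z : ℝ} (hz : 0 ≤ z) : ∀ l : List ℕ, (∀ p ∈ l, z < (p : ℝ)) →
    z ^ l.length ≤ (l.prod : ℕ)
  | [], _ => by simp
  | a :: l, h => by
    have h1 := pow_le_prod hz l (fun p hp => h p (List.mem_cons_of_mem _ hp))
    have h2 := h a List.mem_cons_self
    rw [List.length_cons, List.prod_cons, pow_succ', Nat.cast_mul]
    exact mul_le_mul h2.le h1 (pow_nonneg hz _) (Nat.cast_nonneg a)

end NUMa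

open NUMa in
theorem blk_NUMa : St_NUMa := by
  filter_upwards [ev_rpow 2 (show (0 : ℝ) < 1 / 100 by norm_num), eventually_ge_atTop 1]
    with X hu hX x t ht0 ht1 hx1 hx2
  have hX1 : (1 : ℝ) ≤ X := by exact_mod_cast hX
  have hX0 : (0 : ℝ) ≤ X := by linarith
  set u : ℝ := (X : ℝ) ^ (1 / 100 : ℝ) with hudef
  have hu0 : 0 < u := by linarith
  have hu1 : 1 ≤ u := by linarith
  have e24 : zz X = u ^ 24 := by
    have := rp (X := X) 24
    rw [← hudef] at this
    rw [← this]; unfold zz; congr 1; norm_num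
  have e39 : (X : ℝ) ^ (39 / 100 : ℝ) = u ^ 39 := by
    have := rp (X := X) 39
    rw [← hudef] at this
    rw [← this]; norm_num
  have e33 : (X : ℝ) ^ (33 / 100 : ℝ) = u ^ 33 := by
    have := rp (X := X) 33
    rw [← hudef] at this
    rw [← this]; norm_num
  have e29 : (X : ℝ) ^ (29 / 100 : ℝ) = u ^ 29 := by
    have := rp (X := X) 29
    rw [← hudef] at this
    rw [← this]; norm_num
  have e99 : (X : ℝ) ^ (99 / 100 : ℝ) = u ^ 99 := by
    have := rp (X := X) 99
    rw [← hudef] at this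
    rw [← this]; norm_num
  have e100 : (X : ℝ) = u ^ 100 := by
    have := rp (X := X) 100
    rw [← hudef] at this
    rw [← this]; norm_num
  have hlo : u ^ 99 < x := by
    rw [← e99]
    exact lt_of_le_of_lt (Real.rpow_le_rpow_of_exponent_le hX1 (by linarith)) hx1
  have hhi : (x : ℝ) ≤ u ^ 101 := by
    have h1 : (x : ℝ) ≤ 2 * X := by exact_mod_cast hx2
    have h2 : u ^ 101 = u * u ^ 100 := by ring
    rw [h2, ← e100]
    nlinarith
  set y : ℝ := (X : ℝ) ^ (1 / 2 - t) with hy
  have hy0 : 0 ≤ y := Real.rpow_nonneg hX0 _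
  have hy2 : y ^ 2 < x := by
    refine lt_of_le_of_lt ?_ hx1
    rw [hy, ← Real.rpow_natCast, ← Real.rpow_mul hX0]
    exact Real.rpow_le_rpow_of_exponent_le hX1 (by push_cast; linarith)
  have hz0 : 0 ≤ zz X := by rw [e24]; positivity
  have h3 := N3_nonneg X x
  have h4 := N4_nonneg X x
  have hx1' : (1 : ℝ) < x := lt_of_le_of_lt (one_le_pow₀ hu1) hlo
  have hx0 : x ≠ 0 := by
    rintro rfl
    norm_num at hx1'
  by_cases hR : ∀ p ∈ pr 0 (zz X), ¬ p ∣ x
  swap
  · have hF : F0 X t x = 0 := by unfold F0 Rz; rw [if_neg hR, zero_mul]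
    have hI : ip x = 0 := by
      unfold ip
      rw [if_neg]
      intro hpx
      apply hR
      intro p hp hd
      obtain ⟨hp1, -, hp3⟩ := (mem_pr le_rfl).1 hp
      have := (Nat.prime_dvd_prime_iff_eq hp1 hpx).1 hd
      subst this
      rw [e24] at hp3
      have : u ^ 24 ≤ u ^ 99 := pow_le_pow_right₀ hu1 (by norm_num)
      linarith
    rw [hF, hI]; linarith
  have hF : F0 X t x = 1 - om (zz X) y x := by
    unfold F0 Rz gf; rw [if_pos hR, one_mul]
  rw [hF]
  have hbig : ∀ p ∈ x.primeFactorsList, u ^ 24 < (p : ℝ) := by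
    intro p hp
    have hp1 := Nat.prime_of_mem_primeFactorsList hp
    have hd := Nat.dvd_of_mem_primeFactorsList hp
    by_contra hc
    push Not at hc
    exact hR p ((mem_pr le_rfl).2 ⟨hp1, by exact_mod_cast hp1.pos, by rw [e24]; exact hc⟩) hd
  have hpr : ∀ p ∈ x.primeFactorsList, p.Prime := fun p hp => Nat.prime_of_mem_primeFactorsList hp
  have hmem : ∀ p ∈ pr (zz X) y, p ∣ x → p ∈ x.primeFactorsList ∧ (p : ℝ) ≤ y := by
    intro p hp hd
    obtain ⟨hp1, -, hp3⟩ := (mem_pr hz0).1 hp
    exact ⟨(Nat.mem_primeFactorsList hx0).2 ⟨hp1, hd⟩, hp3⟩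
  have hprod := Nat.prod_primeFactorsList hx0
  have hsort := Nat.primeFactorsList_sorted x
  have hlen := pow_le_prod (z := u ^ 24) (by positivity) _ hbig
  rw [hprod] at hlen
  have hI : ip x ≤ 1 := by unfold ip; split_ifs <;> norm_num
  have hI0 : ¬ x.Prime → ip x = 0 := fun h => by unfold ip; rw [if_neg h]
  generalize x.primeFactorsList = l at hbig hpr hmem hprod hsort hlen
  match l, hbig, hpr, hmem, hprod, hsort, hlen with
  | [], _, _, _, hprod, _, _ =>
    exfalso
    simp at hprod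
    rw [← hprod] at hx1'
    norm_num at hx1'
  | [p], _, _, hmem, hprod, _, _ =>
    have hxp : p = x := by simpa using hprod
    have ho := om_le (y := zz X) (z := y) (x := x) ∅ (by
      intro s hs hd
      obtain ⟨h1, h2⟩ := hmem s hs hd
      exfalso
      have : s = x := by rw [← hxp]; simpa using h1
      subst this
      nlinarith)
    simp only [card_empty, Nat.cast_zero] at ho
    linarith
  | [p, q], _, hpr, hmem, hprod, hsort, _ =>
    have hxp : p * q = x := by simpa using hprod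
    have hp := hpr p (by simp)
    have hq := hpr q (by simp)
    have hpq : p ≤ q := by
      have := hsort.pairwise
      simpa using this
    have hnp : ¬ x.Prime := by
      rw [← hxp]; exact Nat.not_prime_mul hp.one_lt.ne' hq.one_lt.ne'
    have hqy : y < q := by
      by_contra hc
      push Not at hc
      have h1 : (p : ℝ) ≤ q := by exact_mod_cast hpq
      have h2 : (x : ℝ) = p * q := by rw [← hxp]; push_cast; ring
      have h5 : (0 : ℝ) ≤ p := Nat.cast_nonneg p
      have h6 : (0 : ℝ) ≤ q := Nat.cast_nonneg q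
      nlinarith
    have ho := om_le (y := zz X) (z := y) (x := x) {p} (by
      intro s hs hd
      obtain ⟨h1, h2⟩ := hmem s hs hd
      simp only [List.mem_cons, List.not_mem_nil, or_false] at h1
      rcases h1 with rfl | rfl
      · simp
      · linarith)
    simp only [card_singleton, Nat.cast_one] at ho
    rw [hI0 hnp]
    linarith
  | [p, q, r], hbig, hpr, hmem, hprod, hsort, _ =>
    have hxp : p * q * r = x := by rw [← hprod]; simp [mul_assoc]
    have hp := hpr p (by simp)
    have hq := hpr q (by simp)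
    have hr := hpr r (by simp)
    have bp := hbig p (by simp)
    have bq := hbig q (by simp)
    have hs : p ≤ q ∧ q ≤ r := by
      have := hsort.pairwise
      simp only [List.pairwise_cons, List.mem_cons, List.not_mem_nil, or_false, forall_eq_or_imp,
        forall_eq] at this
      exact ⟨this.1.1, this.2.1⟩
    have hnp : ¬ x.Prime := by
      rw [← hxp]
      exact Nat.not_prime_mul (one_lt_mul'' hp.one_lt hq.one_lt).ne' hr.one_lt.ne'
    have h1 : (p : ℝ) ≤ q := by exact_mod_cast hs.1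
    have h2 : (q : ℝ) ≤ r := by exact_mod_cast hs.2
    have h5 : (x : ℝ) = p * q * r := by rw [← hxp]; push_cast; ring
    have p0 : (0 : ℝ) < p := by exact_mod_cast hp.pos
    have q0 : (0 : ℝ) < q := by exact_mod_cast hq.pos
    have r0 : (0 : ℝ) < r := by exact_mod_cast hr.pos
    have hq39 : (q : ℝ) ≤ u ^ 39 := by
      by_contra hc
      push Not at hc
      have a1 : u ^ 24 * u ^ 39 * u ^ 39 ≤ (p : ℝ) * q * r := by
        gcongr
        exact hc.le.trans h2
      have a2 : u ^ 24 * u ^ 39 * u ^ 39 = u * u ^ 101 := by ring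
      have a3 : 0 < u ^ 101 := by positivity
      nlinarith
    have hr33 : u ^ 33 ≤ (r : ℝ) := by
      by_contra hc
      push Not at hc
      have a1 : (p : ℝ) * q * r ≤ u ^ 33 * u ^ 33 * u ^ 33 := by
        gcongr
        · linarith
        · linarith
      have a2 : u ^ 33 * u ^ 33 * u ^ 33 = u ^ 99 := by ring
      linarith
    have hdiv : x / (p * q) = r := by
      rw [← hxp]; exact Nat.mul_div_cancel_left r (Nat.mul_pos hp.pos hq.pos)
    have hN := one_le_N3 (X := X) (x := x) (p := p) (q := q)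
      ((mem_pr hz0).2 ⟨hp, by rw [e24]; exact bp, by rw [e39]; linarith⟩)
      ((mem_pr hz0).2 ⟨hq, by rw [e24]; exact bq, by rw [e39]; exact hq39⟩)
      ⟨hs.1, ⟨r, hxp.symm⟩, by rw [hdiv]; exact hr, by rw [hdiv, e33]; exact hr33⟩
    have ho := om_le (y := zz X) (z := y) (x := x) [p, q, r].toFinset (by
      intro s hs hd
      exact List.mem_toFinset.2 (hmem s hs hd).1)
    have hc : (([p, q, r].toFinset.card : ℕ) : ℝ) ≤ 3 := by
      exact_mod_cast List.toFinset_card_le [p, q, r]
    rw [hI0 hnp]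
    linarith
  | [p, q, r, s], hbig, hpr, hmem, hprod, _, _ =>
    have hxp : p * q * r * s = x := by rw [← hprod]; simp [mul_assoc]
    have hp := hpr p (by simp)
    have hq := hpr q (by simp)
    have hr := hpr r (by simp)
    have hs := hpr s (by simp)
    have bp := hbig p (by simp)
    have bq := hbig q (by simp)
    have br := hbig r (by simp)
    have bs := hbig s (by simp)
    have hnp : ¬ x.Prime := by
      rw [← hxp]
      exact Nat.not_prime_mul
        (one_lt_mul'' (one_lt_mul'' hp.one_lt hq.one_lt) hr.one_lt).ne' hs.one_lt.ne'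
    have key : ∀ a b c d : ℝ, (x : ℝ) = a * b * c * d → u ^ 24 < a → u ^ 24 < b → u ^ 24 < c →
        u ^ 24 < d → a ≤ u ^ 29 := by
      intro a b c d he ha hb hc hd
      by_contra hk
      push Not at hk
      have w0 : 0 < u ^ 24 := by positivity
      have w1 : 0 < u ^ 29 := by positivity
      have a1 : u ^ 29 * u ^ 24 * u ^ 24 * u ^ 24 < a * b * c * d := by
        gcongr
      have a2 : u ^ 29 * u ^ 24 * u ^ 24 * u ^ 24 = u ^ 101 := by ring
      linarith
    have h5 : (x : ℝ) = p * q * r * s := by rw [← hxp]; push_cast; ring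
    have kp := key p q r s h5 bp bq br bs
    have kq := key q p r s (by rw [h5]; ring) bq bp br bs
    have kr := key r p q s (by rw [h5]; ring) br bp bq bs
    have hdiv : x / (p * q * r) = s := by
      rw [← hxp]
      exact Nat.mul_div_cancel_left s (Nat.mul_pos (Nat.mul_pos hp.pos hq.pos) hr.pos)
    have hN := one_le_N4 (X := X) (x := x) (p := p) (q := q) (r := r)
      ((mem_pr hz0).2 ⟨hp, by rw [e24]; exact bp, by rw [e29]; exact kp⟩)
      ((mem_pr hz0).2 ⟨hq, by rw [e24]; exact bq, by rw [e29]; exact kq⟩)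
      ((mem_pr hz0).2 ⟨hr, by rw [e24]; exact br, by rw [e29]; exact kr⟩)
      ⟨⟨s, hxp.symm⟩, by rw [hdiv]; exact hs, by rw [hdiv, e24]; exact bs.le⟩
    have ho := om_le (y := zz X) (z := y) (x := x) [p, q, r, s].toFinset (by
      intro s hs hd
      exact List.mem_toFinset.2 (hmem s hs hd).1)
    have hc : (([p, q, r, s].toFinset.card : ℕ) : ℝ) ≤ 4 := by
      exact_mod_cast List.toFinset_card_le [p, q, r, s]
    rw [hI0 hnp]
    linarith
  | a :: b :: c :: d :: e :: l, _, _, _, _, _, hlen =>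
    exfalso
    have a1 : (u ^ 24) ^ 5 ≤ (u ^ 24) ^ (a :: b :: c :: d :: e :: l).length :=
      pow_le_pow_right₀ (one_le_pow₀ hu1) (by simp)
    have a2 : (u ^ 24) ^ 5 = u ^ 120 := by ring
    have a3 : u ^ 101 < u ^ 120 := pow_lt_pow_right₀ (by linarith) (by norm_num)
    linarith

end Pool.Agent.Lib.APQ
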