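import Pool.Agent.Lib.APQ.Kit

/-!
Block NUMb: the model weight summed over primes and over products of three and four primes.
-/

namespace Pool.Agent.Lib.APQ

open Finset Real Complex Filter Pool.Agent.Lib.PS
open scoped NumberTheorySymbols ArithmeticFunction.Moebius Classical ComplexConjugate

namespace NUMb

theorem sum_mul {n m : ℕ} (hm : 1 ≤ m) (g : ℕ → ℝ) :
    ∑ x ∈ Icc 1 n, (if m ∣ x then g x else 0) = ∑ u ∈ Ioc 0 (n / m), g (m * u) := by
  rw [← sum_filter]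
  symm
  refine sum_nbij' (fun u => m * u) (fun x => x / m) ?_ ?_ ?_ ?_ ?_
  · intro u hu
    rw [mem_Ioc, Nat.le_div_iff_mul_le hm] at hu
    rw [mem_filter, mem_Icc]
    exact ⟨⟨Nat.mul_pos hm hu.1, by rw [mul_comm]; exact hu.2⟩, dvd_mul_right _ _⟩
  · intro x hx
    rw [mem_filter, mem_Icc] at hx
    rw [mem_Ioc]
    exact ⟨Nat.div_pos (Nat.le_of_dvd hx.1.1 hx.2) hm, Nat.div_le_div_right hx.1.2⟩
  · intro u _
    exact Nat.mul_div_cancel_left u hm
  · intro x hx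
    exact Nat.mul_div_cancel' (mem_filter.1 hx).2
  · intro u _
    rfl

theorem sum_int (n : ℕ) (F : ℤ → ℝ) : ∑ t ∈ Ico (1 : ℤ) (n + 1), F t = ∑ x ∈ Icc 1 n, F x := by
  refine sum_nbij' (fun t => t.toNat) (fun x => (x : ℤ)) ?_ ?_ ?_ ?_ ?_
  · intro t ht
    rw [mem_Ico] at ht
    rw [mem_Icc]
    omega
  · intro x hx
    rw [mem_Icc] at hx
    rw [mem_Ico]
    omega
  · intro t ht
    rw [mem_Ico] at ht
    show ((t.toNat : ℕ) : ℤ) = t
    omega
  · intro x _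
    simp
  · intro t ht
    rw [mem_Ico] at ht
    rw [show ((t.toNat : ℕ) : ℤ) = t by omega]

theorem s0_nonneg (X P : ℕ) (y : ℤ) : 0 ≤ s0 X P y := by
  unfold s0
  split_ifs
  · have := w_pos X (Nat.sqrt y.toNat : ℕ)
    positivity
  · exact le_rfl

theorem BB_nonneg (X P n : ℕ) : 0 ≤ BB X P n fun _ => 1 :=
  sum_nonneg fun _ _ => mul_nonneg (s0_nonneg _ _ _) zero_le_one

/-- the weighted prime sum along multiples of `m` -/
noncomputable def LS (X P n m : ℕ) : ℝ :=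
  ∑ p ∈ (Ioc 0 (n / m)).filter Nat.Prime, s0 X P ((n : ℤ) - (m * p : ℕ)) * Real.log p

theorem key (hPW : St_PW) (hIB : St_IB) (hABEL : St_ABEL) (B : ℕ) {ε : ℝ} (hε : 0 < ε) :
    ∀ᶠ X : ℕ in atTop, ∀ P n : ℕ, 1 ≤ P → (P : ℝ) ≤ lg X ^ B → X < n → n ≤ 2 * X →
      ∀ m : ℕ, 1 ≤ m → (m : ℝ) ≤ (X : ℝ) ^ (87 / 100 : ℝ) →
      |LS X P n m - BB X P n (fun _ => 1) / m| ≤ ε * √(X : ℝ) / m := by
  obtain ⟨C, hC, hP⟩ := hPW (B + 1) 0
  filter_upwards [ev_lg_sqrt 1 B, ev_pow (8 / ε) B (show (87 / 100 : ℝ) < 1 by norm_num),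
    ev_lg (8 * C * 10 ^ (B + 1) / ε), ev_lg 1,
    ev_pow 2 0 (show (97 / 100 : ℝ) < 1 by norm_num),
    ev_rpow 2 (show (0 : ℝ) < 1 / 10 by norm_num), eventually_ge_atTop 1]
    with X h1 h2 h3 h4 h5 h6 h7 P n hP1 hPl hn1 hn2 m hm1 hm2
  have hX : (0 : ℝ) < X := by exact_mod_cast h7
  have hM : 0 < √(X : ℝ) := Real.sqrt_pos.2 hX
  have hMM : √(X : ℝ) * √(X : ℝ) = X := Real.mul_self_sqrt hX.le
  have hm : (0 : ℝ) < m := by exact_mod_cast hm1
  have hP0 : (0 : ℝ) ≤ P := Nat.cast_nonneg P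
  rw [Real.rpow_one] at h2 h5
  have hU := (hIB.1 X P hP1 (by linarith)).1
  set N := n / m with hN
  have hN1 : (X : ℝ) ^ (1 / 10 : ℝ) ≤ N := by
    have e1 : n < m * (N + 1) := Nat.lt_mul_div_succ n hm1
    have e2 : (X : ℝ) < m * (N + 1) := by exact_mod_cast hn1.trans e1
    have e3 : (X : ℝ) ^ (97 / 100 : ℝ) = (X : ℝ) ^ (87 / 100 : ℝ) * (X : ℝ) ^ (1 / 10 : ℝ) := by
      rw [← Real.rpow_add hX]; norm_num
    rw [pow_zero, mul_one, e3] at h5
    have e4 : m * (2 * (X : ℝ) ^ (1 / 10 : ℝ)) < m * (N + 1) := by nlinarith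
    have e5 := lt_of_mul_lt_mul_left e4 hm.le
    linarith
  have hN2 : 2 ≤ N := by exact_mod_cast h6.trans hN1
  have hN3 : (N : ℝ) ≤ 2 * X / m := by
    rw [le_div_iff₀ hm]
    exact_mod_cast (Nat.div_mul_le_self n m).trans hn2
  have hN4 : lg X / 10 ≤ Real.log N := by
    have := Real.log_le_log (by positivity) hN1
    rw [Real.log_rpow hX] at this
    unfold lg; linarith
  have a1 := (hP N 0 N _ _ hN2 (Nat.zero_le _) le_rfl (hABEL.2.2.2.2.2.1 _ _ n (-m) hU)).1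
  have a2 := hABEL.2.2.2.1 _ _ 1 (n + 1) 0 m (hABEL.2.2.2.2.2.1 _ _ n (-1) hU) hm1
  rw [sum_int, sum_int] at a2
  have b1 : ∑ p ∈ (Ioc 0 N).filter Nat.Prime, s0 X P ((n : ℤ) + -m * p) * Real.log p =
      LS X P n m := sum_congr rfl fun p _ => by push_cast; ring_nf
  have b2 : (∑ x ∈ Icc 1 n, if (m : ℤ) ∣ (x : ℤ) - 0 then s0 X P ((n : ℤ) + -1 * x) else 0) =
      ∑ u ∈ Ioc 0 N, s0 X P ((n : ℤ) + -m * u) := by
    simp only [sub_zero, Int.natCast_dvd_natCast]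
    rw [sum_mul hm1]
    exact sum_congr rfl fun u _ => by push_cast; ring_nf
  have b3 : ∑ x ∈ Icc 1 n, s0 X P ((n : ℤ) + -1 * x) = BB X P n fun _ => 1 :=
    sum_congr rfl fun x _ => by ring_nf
  rw [b1] at a1
  rw [b2, b3] at a2
  have c1 : 2 * (2 * P / √(X : ℝ)) ≤ ε / 2 * √(X : ℝ) / m := by
    have e1 : 8 / ε * (P * m) ≤ X := by
      refine le_trans ?_ h2
      rw [mul_assoc]; gcongr
    rw [div_mul_eq_mul_div, div_le_iff₀ hε] at e1
    rw [← mul_div_assoc, div_le_div_iff₀ hM hm, mul_assoc (ε / 2), hMM]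
    linarith
  have c2 : C * (2 * P / √(X : ℝ)) * N / Real.log N ^ (B + 1) ≤ ε / 2 * √(X : ℝ) / m := by
    have hl : 0 < lg X := by linarith
    rw [div_le_iff₀ hε] at h3
    calc C * (2 * P / √(X : ℝ)) * N / Real.log N ^ (B + 1)
        ≤ C * (2 * lg X ^ B / √(X : ℝ)) * (2 * X / m) / (lg X / 10) ^ (B + 1) := by gcongr
      _ = 8 * C * 10 ^ (B + 1) / lg X / 2 * (X / √(X : ℝ)) / m := by
        rw [div_pow, pow_succ (lg X)]; field_simp; ring
      _ ≤ ε / 2 * (X / √(X : ℝ)) / m := by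
        gcongr
        rw [div_le_iff₀ hl]; linarith
      _ = ε / 2 * √(X : ℝ) / m := by rw [Real.div_sqrt]
  have c3 : ε * √(X : ℝ) / m = ε / 2 * √(X : ℝ) / m + ε / 2 * √(X : ℝ) / m := by ring
  rw [abs_le] at a1 a2 ⊢
  constructor <;> linarith [a1.1, a1.2, a2.1, a2.2]

theorem up (X P n : ℕ) {m : ℕ} (hm : 1 ≤ m) {Y : ℝ} (hY : 1 < Y) :
    ∑ x ∈ Icc 1 n, s0 X P ((n : ℤ) - x) *
      (if m ∣ x ∧ (x / m).Prime ∧ Y ≤ ((x / m : ℕ) : ℝ) then 1 else 0) ≤
      LS X P n m / Real.log Y := by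
  have hl := Real.log_pos hY
  have e1 : ∀ x : ℕ, s0 X P ((n : ℤ) - x) *
      (if m ∣ x ∧ (x / m).Prime ∧ Y ≤ ((x / m : ℕ) : ℝ) then 1 else 0) =
      if m ∣ x then (if (x / m).Prime ∧ Y ≤ ((x / m : ℕ) : ℝ) then s0 X P ((n : ℤ) - x) else 0)
      else 0 := fun x => by
    by_cases h1 : m ∣ x <;> simp [h1]
  simp only [e1]
  rw [sum_mul hm, LS, sum_div, sum_filter]
  refine sum_le_sum fun u _ => ?_
  rw [Nat.mul_div_cancel_left u hm]
  have h0 := s0_nonneg X P ((n : ℤ) - (m * u : ℕ))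
  by_cases h1 : u.Prime
  · by_cases h2 : Y ≤ u
    · rw [if_pos ⟨h1, h2⟩, if_pos h1, le_div_iff₀ hl]
      exact mul_le_mul_of_nonneg_left (Real.log_le_log (by linarith) h2) h0
    · rw [if_neg fun h => h2 h.2, if_pos h1]
      exact div_nonneg (mul_nonneg h0 (Real.log_natCast_nonneg u)) hl.le
  · rw [if_neg fun h => h1 h.1, if_neg h1]

theorem tri (S : Finset ℕ) (a : ℕ → ℝ) :
    2 * ∑ p ∈ S, ∑ q ∈ S, (if p ≤ q then a p * a q else 0) =
      (∑ p ∈ S, a p) ^ 2 + ∑ p ∈ S, a p * a p := by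
  have e1 : ∑ p ∈ S, ∑ q ∈ S, (if p ≤ q then a p * a q else 0) =
      ∑ p ∈ S, ∑ q ∈ S, (if q ≤ p then a p * a q else 0) := by
    rw [sum_comm]
    exact sum_congr rfl fun p _ => sum_congr rfl fun q _ => by rw [mul_comm]
  rw [two_mul]
  nth_rewrite 2 [e1]
  rw [pow_two, sum_mul_sum, ← sum_add_distrib, ← sum_add_distrib]
  refine sum_congr rfl fun p hp => ?_
  have e2 : a p * a p = ∑ q ∈ S, if p = q then a p * a q else 0 := by
    rw [sum_ite_eq, if_pos hp]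
  rw [e2, ← sum_add_distrib, ← sum_add_distrib]
  refine sum_congr rfl fun q _ => ?_
  rcases lt_trichotomy p q with h | h | h
  · rw [if_pos h.le, if_neg h.not_ge, if_neg h.ne]
  · subst h; simp
  · rw [if_neg h.not_ge, if_pos h.le, if_neg h.ne', zero_add, add_zero]

theorem sig {b c : ℝ} (hb : 6 / 25 ≤ b) (hc : 0 ≤ c) (h : b / (6 / 25) ≤ 1 + c + c ^ 2 / 2) :
    ∀ᶠ X : ℕ in atTop, ∑ p ∈ pr (zz X) ((X : ℝ) ^ b), (1 : ℝ) / p ≤ c + 1 / 100 := by
  filter_upwards [ev_lg 10000, ev_rpow 2 (show (0 : ℝ) < 6 / 25 by norm_num),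
    eventually_ge_atTop 1] with X h1 h2 h3
  have hX : (1 : ℝ) ≤ X := by exact_mod_cast h3
  have hX0 : (0 : ℝ) < X := by linarith
  have := sum_pr_le (y := zz X) h2 (Real.rpow_le_rpow_of_exponent_le hX hb)
  refine this.trans ?_
  unfold lg at h1
  rw [zz, Real.log_rpow hX0, Real.log_rpow hX0, mul_div_mul_right _ _ (by linarith)]
  refine add_le_add ?_ ?_
  · rw [Real.log_le_iff_le_exp (by positivity)]
    exact h.trans (Real.quadratic_le_exp_of_nonneg hc)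
  · rw [div_le_iff₀ (by positivity)]
    linarith

end NUMb

open NUMb in
theorem blk_NUMb (hPW : St_PW) (hIB : St_IB) (hABEL : St_ABEL) : St_NUMb := by
  intro B η hη
  filter_upwards [key hPW hIB hABEL B hη,
    sig (b := 39 / 100) (c := 1 / 2) (by norm_num) (by norm_num) (by norm_num),
    sig (b := 29 / 100) (c := 1 / 5) (by norm_num) (by norm_num) (by norm_num),
    ev_lg 100, ev_rpow 1000 (show (0 : ℝ) < 6 / 25 by norm_num), eventually_ge_atTop 2]
    with X hk s3 s4 hl hz h2 P n hP1 hPl hn1 hn2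
  have hX : (1 : ℝ) < X := by exact_mod_cast h2
  have hX0 : (0 : ℝ) < X := by linarith
  have hk := hk P n hP1 hPl hn1 hn2
  have hW := BB_nonneg X P n
  have hM : 0 ≤ η * √(X : ℝ) := by positivity
  have hl0 : 0 < lg X := by linarith
  have hz0 : 0 ≤ zz X := by unfold zz; positivity
  set W := BB X P n fun _ => 1 with hWd
  have hup : ∀ (θ : ℝ) (m : ℕ), 0 < θ → 1 ≤ m → (m : ℝ) ≤ (X : ℝ) ^ (87 / 100 : ℝ) →
      ∑ x ∈ Icc 1 n, s0 X P ((n : ℤ) - x) *
        (if m ∣ x ∧ (x / m).Prime ∧ (X : ℝ) ^ θ ≤ ((x / m : ℕ) : ℝ) then 1 else 0) ≤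
        (W + η * √(X : ℝ)) / lg X / θ * (1 / m) := fun θ m hθ hm1 hm2 => by
    refine (up X P n hm1 (Real.one_lt_rpow hX hθ)).trans ?_
    have e1 := (abs_le.1 (hk m hm1 hm2)).2
    have hm : (0 : ℝ) < m := by exact_mod_cast hm1
    rw [Real.log_rpow hX0]
    calc LS X P n m / (θ * Real.log X) ≤ (W / m + η * √(X : ℝ) / m) / (θ * lg X) := by
          unfold lg at hl0 ⊢
          gcongr
          linarith
      _ = _ := by field_simp
  have hT : 0 ≤ (W + η * √(X : ℝ)) / lg X := by positivity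
  set T := (W + η * √(X : ℝ)) / lg X with hTd
  refine ⟨?_, ?_, ?_⟩
  · set S := pr (zz X) ((X : ℝ) ^ (39 / 100 : ℝ)) with hS
    have e1 : BB X P n (N3 X) ≤ T / (33 / 100) *
        ∑ p ∈ S, ∑ q ∈ S, (if p ≤ q then (1 : ℝ) / p * (1 / q) else 0) := by
      unfold BB N3
      simp only [mul_sum]
      rw [sum_comm]
      refine sum_le_sum fun p hp => ?_
      rw [sum_comm]
      refine sum_le_sum fun q hq => ?_
      obtain ⟨p1, -, p3⟩ := (mem_pr hz0).1 hp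
      obtain ⟨q1, -, q3⟩ := (mem_pr hz0).1 hq
      by_cases h : p ≤ q
      · simp only [h, true_and, if_true]
        refine (hup (33 / 100) (p * q) (by norm_num) (Nat.mul_pos p1.pos q1.pos) ?_).trans
          (le_of_eq (by push_cast; ring))
        calc ((p * q : ℕ) : ℝ) = p * q := by push_cast; rfl
          _ ≤ (X : ℝ) ^ (39 / 100 : ℝ) * (X : ℝ) ^ (39 / 100 : ℝ) := by gcongr
          _ ≤ _ := by
            rw [← Real.rpow_add hX0]
            exact Real.rpow_le_rpow_of_exponent_le hX.le (by norm_num)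
      · simp [h]
    have e2 := tri S fun p => (1 : ℝ) / p
    have e3 : ∑ p ∈ S, (1 : ℝ) / p * (1 / p) ≤ 1 / 1000 * ∑ p ∈ S, (1 : ℝ) / p := by
      rw [mul_sum]
      refine sum_le_sum fun p hp => ?_
      have : (1000 : ℝ) ≤ p := hz.trans ((mem_pr hz0).1 hp).2.1.le
      gcongr
    have e4 : 0 ≤ ∑ p ∈ S, (1 : ℝ) / p := sum_nonneg fun _ _ => by positivity
    have e5 : ∑ p ∈ S, ∑ q ∈ S, (if p ≤ q then (1 : ℝ) / p * (1 / q) else 0) ≤ 132 / 1000 := by
      nlinarith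
    calc BB X P n (N3 X) ≤ T / (33 / 100) * (132 / 1000) := e1.trans (by gcongr)
      _ = (2 / 5 * W + 2 / 5 * (η * √(X : ℝ))) / lg X := by rw [hTd]; ring
      _ ≤ _ := div_le_div_of_nonneg_right (by linarith) hl0.le
  · set S := pr (zz X) ((X : ℝ) ^ (29 / 100 : ℝ)) with hS
    have e1 : BB X P n (N4 X) ≤ T / (6 / 25) * (∑ p ∈ S, (1 : ℝ) / p) ^ 3 := by
      have e0 : (∑ p ∈ S, (1 : ℝ) / p) ^ 3 =
          ∑ p ∈ S, ∑ q ∈ S, ∑ r ∈ S, (1 : ℝ) / p * (1 / q * (1 / r)) := by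
        simp only [← mul_sum, ← Finset.sum_mul]
        ring
      rw [e0]
      unfold BB N4
      simp only [mul_sum]
      rw [sum_comm]
      refine sum_le_sum fun p hp => ?_
      rw [sum_comm]
      refine sum_le_sum fun q hq => ?_
      rw [sum_comm]
      refine sum_le_sum fun r hr => ?_
      obtain ⟨p1, -, p3⟩ := (mem_pr hz0).1 hp
      obtain ⟨q1, -, q3⟩ := (mem_pr hz0).1 hq
      obtain ⟨r1, -, r3⟩ := (mem_pr hz0).1 hr
      refine (hup (6 / 25) (p * q * r) (by norm_num)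
        (Nat.mul_pos (Nat.mul_pos p1.pos q1.pos) r1.pos) ?_).trans (le_of_eq (by push_cast; ring))
      calc ((p * q * r : ℕ) : ℝ) = p * q * r := by push_cast; rfl
        _ ≤ (X : ℝ) ^ (29 / 100 : ℝ) * (X : ℝ) ^ (29 / 100 : ℝ) * (X : ℝ) ^ (29 / 100 : ℝ) := by
          gcongr
        _ ≤ _ := by
          rw [← Real.rpow_add hX0, ← Real.rpow_add hX0]
          exact Real.rpow_le_rpow_of_exponent_le hX.le (by norm_num)
    have e4 : 0 ≤ ∑ p ∈ S, (1 : ℝ) / p := sum_nonneg fun _ _ => by positivity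
    calc BB X P n (N4 X) ≤ T / (6 / 25) * (1 / 5 + 1 / 100) ^ 3 := e1.trans (by gcongr)
      _ ≤ 1 / 25 * T := by linarith
      _ = (1 / 25 * W + 1 / 25 * (η * √(X : ℝ))) / lg X := by rw [hTd]; ring
      _ ≤ _ := div_le_div_of_nonneg_right (by linarith) hl0.le
  · have e1 := (abs_le.1 (hk 1 le_rfl (by
      rw [Nat.cast_one]; exact Real.one_le_rpow hX.le (by norm_num)))).1
    rw [Nat.cast_one, div_one, div_one] at e1
    have e2 : LS X P n 1 ≤ 100 / 99 * lg X * BB X P n ip := by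
      unfold LS BB ip
      rw [Nat.div_one, sum_filter, mul_sum, show Ioc 0 n = Icc 1 n from rfl]
      refine sum_le_sum fun x hx => ?_
      rw [one_mul]
      split_ifs with h
      · have h0 := s0_nonneg X P ((n : ℤ) - x)
        have h1 : Real.log x ≤ 100 / 99 * lg X := by
          have h3 : (x : ℝ) ≤ 2 * X := by exact_mod_cast (mem_Icc.1 hx).2.trans hn2
          have h4 := Real.log_le_log (by exact_mod_cast h.pos) h3
          rw [Real.log_mul (by norm_num) hX0.ne'] at h4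
          have h5 := Real.log_two_lt_d9
          unfold lg at hl ⊢
          linarith
        nlinarith
      · simp
    rw [div_le_iff₀ hl0]
    linarith

end Pool.Agent.Lib.APQ
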