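import Pool.Agent.Lib.APQ.Kit

/-!
Block PB2: completion in two variables.
-/

namespace Pool.Agent.Lib.APQ

open Finset Real Complex Filter Pool.Agent.Lib.PS
open scoped NumberTheorySymbols ArithmeticFunction.Moebius Classical ComplexConjugate

namespace PB2

theorem prog {f : ℕ} (hf : 0 < f) {a b : ℤ} (hab : a ≤ b) (c : ℤ) :
    ∃ s u : ℤ, s ≤ u ∧ u - s ≤ b - a ∧ ∀ F : ℤ → ℂ,
      (∑ t ∈ Ico a b, if (f : ℤ) ∣ t - c then F t else 0) = ∑ j ∈ Ico s u, F (c + f * j) := by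
  have h0 : (0 : ℤ) < f := by exact_mod_cast hf
  have key : ∀ x j : ℤ, -((c - x) / f) ≤ j ↔ x ≤ c + f * j := fun x j => by
    rw [neg_le, Int.le_ediv_iff_mul_le h0]
    constructor <;> intro h <;> linarith
  have mem : ∀ j, j ∈ Ico (-((c - a) / f)) (-((c - b) / f)) ↔ c + f * j ∈ Ico a b := fun j => by
    rw [mem_Ico, mem_Ico, key, ← not_le, key, not_le]
  have inj : ∀ j j' : ℤ, c + f * j = c + f * j' → j = j' := fun j j' h =>
    mul_left_cancel₀ h0.ne' (add_left_cancel h)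
  have hsu : -((c - a) / f) ≤ -((c - b) / f) := neg_le_neg (Int.ediv_le_ediv h0 (by linarith))
  refine ⟨_, _, hsu, ?_, fun F => ?_⟩
  · have := card_le_card_of_injOn (fun j => c + f * j) (fun j hj => (mem j).1 hj)
      fun j _ j' _ => inj j j'
    rw [Int.card_Ico, Int.card_Ico] at this
    omega
  · rw [← sum_filter]
    refine (sum_bij (fun j _ => c + f * j) (fun j hj => ?_) (fun j _ j' _ => inj j j')
      (fun t ht => ?_) fun _ _ => rfl).symm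
    · exact mem_filter.2 ⟨(mem j).1 hj, j, by ring⟩
    · obtain ⟨h1, j, h2⟩ := mem_filter.1 ht
      obtain rfl : t = c + f * j := by linarith
      exact ⟨j, (mem j).2 h1, rfl⟩

theorem psi {p : ℕ} (hp : 0 < p) (n : ℤ) :
    (((if (p : ℤ) ∣ n then 1 else 0) - 1 / (p : ℝ) : ℝ) : ℂ) =
      ∑ h ∈ (range p).erase 0, ee ((h : ℝ) * (n / p)) / p := by
  have h0 : (p : ℂ) ≠ 0 := by exact_mod_cast hp.ne'
  rw [← sum_div, sum_erase_eq_sub (mem_range.2 hp), maj_orth p hp, Nat.cast_zero, zero_mul,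
    maj_ee_zero]
  split_ifs
  · push_cast; field_simp
  · push_cast; ring

theorem ksum (hSPC : St_SPC) (hABEL : St_ABEL) {p f q : ℕ} (hp : p.Prime) (hf : ¬ p ∣ f)
    (hq : ¬ p ∣ q) (K : ℕ) (c : ℤ) :
    ∑ h ∈ (range p).erase 0, ‖∑ k ∈ range K,
      if (f : ℤ) ∣ k - c then ee ((h : ℝ) * (q * k / p)) else 0‖ ≤ 2 * p * (1 + Real.log p) := by
  have p0 : (0 : ℝ) < p := by exact_mod_cast hp.pos
  have hqf : ¬ p ∣ q * f := fun h => (hp.dvd_mul.1 h).elim hq hf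
  obtain ⟨s, u, -, -, H⟩ := prog (f := f)
    (Nat.pos_of_ne_zero fun h => hf (h ▸ dvd_zero p)) (Int.natCast_nonneg K) c
  have e : ∀ h : ℕ, ‖∑ k ∈ range K, if (f : ℤ) ∣ k - c then ee ((h : ℝ) * (q * k / p)) else 0‖ =
      ‖∑ j ∈ Ico s u, ee (j * (((q * f : ℕ) : ℤ) * h / p + 0))‖ := fun h => by
    have e1 : (∑ k ∈ range K, if (f : ℤ) ∣ k - c then ee ((h : ℝ) * (q * k / p)) else 0) =
        ∑ t ∈ Ico (0 : ℤ) K, if (f : ℤ) ∣ t - c then ee ((h : ℝ) * (q * t / p)) else 0 :=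
      sum_nbij' (fun k => (k : ℤ)) Int.toNat (by simp) (by simp; omega) (by simp)
        (by simp +contextual) (by simp)
    rw [e1, H fun t => ee ((h : ℝ) * (q * t / p)), ← one_mul ‖∑ j ∈ Ico s u, ee (j * _)‖,
      ← maj_ee_norm (h * (q * c / p)), ← norm_mul, mul_sum]
    refine congrArg _ (sum_congr rfl fun j _ => ?_)
    rw [← maj_ee_add]
    refine congrArg _ ?_
    push_cast
    ring
  have h1 := hSPC p ((q * f : ℕ) : ℤ) 0 (p / 2) (1 / 2) (fun h => if h = 0 then 0 else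
      ‖∑ j ∈ Ico s u, ee (j * (((q * f : ℕ) : ℤ) * h / p + 0))‖) hp.pos
    (Nat.isCoprime_iff_coprime.2 ((Nat.Prime.coprime_iff_not_dvd hp).2 hqf).symm)
    (by positivity) (by norm_num) fun h hh => by
      split_ifs with h0
      · exact ⟨by positivity, by norm_num⟩
      have h2 := hABEL.2.2.1 s u (((q * f : ℕ) : ℤ) * h / p + 0)
      refine ⟨?_, h2⟩
      have h3 : 1 / (p : ℝ) ≤ nz (((q * f : ℕ) : ℤ) * h / p + 0) := le_nz fun n => by
        have h4 : ((q * f : ℕ) : ℤ) * h - n * p ≠ 0 := fun h4 => by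
          have h5 : (p : ℤ) ∣ ((q * f * h : ℕ) : ℤ) := ⟨n, by push_cast at h4 ⊢; linarith⟩
          exact (hp.dvd_mul.1 (Int.natCast_dvd_natCast.1 h5)).elim hqf
            (Nat.not_dvd_of_pos_of_lt (Nat.pos_of_ne_zero h0) hh)
        have h5 : (1 : ℝ) ≤ |((((q * f : ℕ) : ℤ) * h - n * p : ℤ) : ℝ)| := by
          exact_mod_cast Int.one_le_abs h4
        rw [show (((q * f : ℕ) : ℤ) : ℝ) * h / p + 0 - n =
          ((((q * f : ℕ) : ℤ) * h - n * p : ℤ) : ℝ) / p by push_cast; field_simp; ring, abs_div,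
          abs_of_pos p0]
        exact div_le_div_of_nonneg_right h5 p0.le
      have h4 := (mul_le_mul_of_nonneg_left h3 (norm_nonneg _)).trans h2
      rw [mul_one_div, div_le_iff₀ p0] at h4
      linarith
  refine le_trans ((sum_congr rfl fun h hh => ?_).trans_le (sum_le_sum_of_subset_of_nonneg
    (erase_subset 0 _) fun i _ _ => by split_ifs <;> positivity)) (h1.trans ?_)
  · rw [e, if_neg (mem_erase.1 hh).1]
  · nlinarith [mul_nonneg p0.le (Real.log_natCast_nonneg p)]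

theorem msum (hIGS : St_IGS) (hABEL : St_ABEL) {p f h : ℕ} (hp : p.Prime) (hf : ¬ p ∣ f)
    (hh : ¬ p ∣ h) (N : ℕ) (c : ℤ) {φ₁ φ₂ : ℤ → ℝ} (h1 : Uni φ₁ 1) (h2 : Uni φ₂ 1) :
    ‖∑ m ∈ box N, if (f : ℤ) ∣ m - c then
      (φ₁ m : ℂ) * (φ₂ m * ee ((h : ℝ) * (-(m : ℝ) ^ 2 / p))) else 0‖ ≤
      32 * √(p : ℝ) * (1 + Real.log p) * (1 + (N : ℝ) / p) := by
  have p2 : (2 : ℝ) ≤ p := by exact_mod_cast hp.two_le
  have p0 : (0 : ℝ) < p := by linarith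
  have hl := Real.log_natCast_nonneg p
  obtain ⟨s, u, hsu, hlen, H⟩ := prog (f := f)
    (Nat.pos_of_ne_zero fun h => hf (h ▸ dvd_zero p)) (show -(N : ℤ) ≤ N + 1 by omega) c
  have hc : IsCoprime (-((h * f ^ 2 : ℕ) : ℤ)) (p : ℤ) :=
    (Nat.isCoprime_iff_coprime.2 ((Nat.Prime.coprime_iff_not_dvd hp).2 fun h3 =>
      (hp.dvd_mul.1 h3).elim hh fun h4 => hf (hp.dvd_of_dvd_pow h4)).symm).neg_left
  rw [box_eq, H fun m => (φ₁ m : ℂ) * (φ₂ m * ee ((h : ℝ) * (-(m : ℝ) ^ 2 / p)))]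
  refine (hABEL.1 _ 1 (2 * 1 * (8 * √(p : ℝ) * (1 + Real.log p) * (1 + (N : ℝ) / p))) s u _
    (hABEL.2.2.2.2.2.1 φ₁ 1 c f h1) hsu fun s' u' a1 a2 a3 =>
      hABEL.1 _ 1 _ s' u' _ (hABEL.2.2.2.2.2.1 φ₂ 1 c f h2) a2 fun s₂ u₂ b1 b2 b3 => ?_).trans_eq
    (by ring)
  have e : ∑ j ∈ Ico s₂ u₂, ee ((h : ℝ) * (-((c + f * j : ℤ) : ℝ) ^ 2 / p)) =
      ee (h * (-(c : ℝ) ^ 2 / p)) * ∑ j ∈ Ico s₂ u₂, ee ((((-((h * f ^ 2 : ℕ) : ℤ) : ℤ) : ℝ) *
        (j : ℝ) ^ 2 + ((-(2 * h * c * f) : ℤ) : ℝ) * j) / p) := by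
    rw [mul_sum]
    refine sum_congr rfl fun j _ => ?_
    rw [← maj_ee_add]
    refine congrArg _ ?_
    push_cast
    ring
  rw [e, norm_mul, maj_ee_norm, one_mul]
  refine (hIGS p _ _ s₂ u₂ hp.pos hc b2).trans ?_
  have h3 : √(2 * (p : ℝ)) ≤ 2 * √(p : ℝ) := by
    rw [Real.sqrt_le_left (by positivity), mul_pow, Real.sq_sqrt p0.le]
    linarith
  have h4 : (u₂ : ℝ) - s₂ ≤ 2 * N + 1 := by exact_mod_cast (by omega : u₂ - s₂ ≤ 2 * N + 1)
  have h5 : (0 : ℝ) ≤ (u₂ : ℝ) - s₂ := by exact_mod_cast (by omega : 0 ≤ u₂ - s₂)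
  have h6 : 2 * ((u₂ : ℝ) - s₂) / p ≤ 4 * (N / p) + 1 := by
    rw [div_le_iff₀ p0, add_mul, mul_assoc, div_mul_cancel₀ _ p0.ne']
    linarith
  have h7 : (0 : ℝ) ≤ N / p := by positivity
  calc _ ≤ 2 * √(p : ℝ) * (4 * ((1 + Real.log p) * (1 + (N : ℝ) / p))) :=
        mul_le_mul h3 (by nlinarith [mul_nonneg hl h7]) (by positivity) (by positivity)
    _ = _ := by ring

theorem one_eq {f : ℕ} (hf : 0 < f) (t : ℤ) :
    ∑ c ∈ range f, (if (f : ℤ) ∣ t - (c : ℕ) then (1 : ℝ) else 0) = 1 := by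
  have h0 : (0 : ℤ) < f := by exact_mod_cast hf
  have h1 := Int.emod_nonneg t h0.ne'
  have h2 := Int.emod_lt_of_pos t h0
  rw [sum_eq_single (t % f).toNat, if_pos]
  · rw [Int.toNat_of_nonneg h1]
    exact Int.dvd_self_sub_emod
  · intro c hc hne
    refine if_neg fun h => hne ?_
    have h3 : t % f = c % f := (Int.emod_emod_of_dvd _ dvd_rfl).symm.trans
      (by rw [Int.emod_emod_of_dvd _ dvd_rfl]; exact (Int.modEq_iff_dvd.2 h).symm)
    rw [h3, Int.emod_eq_of_lt (by positivity) (by exact_mod_cast mem_range.1 hc), Int.toNat_natCast]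
  · intro h
    exact absurd (mem_range.2 (by omega)) h

theorem core (hIGS : St_IGS) (hSPC : St_SPC) (hABEL : St_ABEL) {p f q : ℕ} (hp : p.Prime)
    (hf : ¬ p ∣ f) (hq : ¬ p ∣ q) (K N : ℕ) (a c c' : ℤ) {φ₁ φ₂ : ℤ → ℝ} (h1 : Uni φ₁ 1)
    (h2 : Uni φ₂ 1) :
    |∑ k ∈ range K, ∑ m ∈ box N, (if (f : ℤ) ∣ k - c then 1 else 0) *
      (if (f : ℤ) ∣ m - c' then 1 else 0) * (φ₁ m * φ₂ m *
        ((if (p : ℤ) ∣ a + q * k - m ^ 2 then 1 else 0) - 1 / (p : ℝ)))| ≤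
      64 * √(p : ℝ) * (1 + Real.log p) ^ 2 * (1 + (N : ℝ) / p) := by
  have p0 : (0 : ℝ) < p := by exact_mod_cast hp.pos
  have hl := Real.log_natCast_nonneg p
  have e : ((∑ k ∈ range K, ∑ m ∈ box N, (if (f : ℤ) ∣ k - c then 1 else 0) *
      (if (f : ℤ) ∣ m - c' then 1 else 0) * (φ₁ m * φ₂ m *
        ((if (p : ℤ) ∣ a + q * k - m ^ 2 then 1 else 0) - 1 / (p : ℝ))) : ℝ) : ℂ) =
      ∑ h ∈ (range p).erase 0, ee (h * (a / p)) / p *
        (∑ k ∈ range K, if (f : ℤ) ∣ k - c then ee ((h : ℝ) * (q * k / p)) else 0) *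
        ∑ m ∈ box N, if (f : ℤ) ∣ m - c' then
          (φ₁ m : ℂ) * (φ₂ m * ee ((h : ℝ) * (-(m : ℝ) ^ 2 / p))) else 0 := by
    simp only [mul_assoc, sum_mul_sum]
    simp only [mul_sum]
    rw [ofReal_sum, eq_comm, sum_comm]
    refine sum_congr rfl fun k _ => ?_
    rw [sum_comm, ofReal_sum]
    refine sum_congr rfl fun m _ => ?_
    rw [ofReal_mul, ofReal_mul, ofReal_mul, ofReal_mul, psi hp.pos]
    simp only [mul_sum]
    refine sum_congr rfl fun h _ => ?_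
    have e1 : ee ((h : ℝ) * (((a + q * k - m ^ 2 : ℤ) : ℝ) / p)) = ee (h * (a / p)) *
        ee ((h : ℝ) * (q * k / p)) * ee ((h : ℝ) * (-(m : ℝ) ^ 2 / p)) := by
      rw [← maj_ee_add, ← maj_ee_add]
      refine congrArg _ ?_
      push_cast
      ring
    rw [e1]
    split_ifs <;> push_cast <;> ring
  rw [← Real.norm_eq_abs, ← Complex.norm_real, e]
  refine le_trans (norm_sum_le_of_le _ (n := fun h : ℕ => 32 * √(p : ℝ) * (1 + Real.log p) *
    (1 + (N : ℝ) / p) / p *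
      ‖∑ k ∈ range K, if (f : ℤ) ∣ k - c then ee ((h : ℝ) * (q * k / p)) else 0‖)
    fun h hh => ?_) ?_
  · obtain ⟨h3, h4⟩ := mem_erase.1 hh
    rw [norm_mul, norm_mul, norm_div, maj_ee_norm, Complex.norm_natCast]
    exact (mul_le_mul_of_nonneg_left (msum hIGS hABEL hp hf (Nat.not_dvd_of_pos_of_lt
      (Nat.pos_of_ne_zero h3) (mem_range.1 h4)) N c' h1 h2) (by positivity)).trans_eq (by ring)
  · rw [← mul_sum]
    refine (mul_le_mul_of_nonneg_left (ksum hSPC hABEL hp hf hq K c) (by positivity)).trans_eq ?_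
    field_simp
    ring

end PB2

theorem blk_PB2 (hIGS : St_IGS) (hSPC : St_SPC) (hABEL : St_ABEL) : St_PB2 := by
  refine ⟨64, by norm_num, fun p f q K N a φ₁ φ₂ G hp hf hq h1 h2 hG g1 g2 => ?_⟩
  have f0 : 0 < f := Nat.pos_of_ne_zero fun h => hf (h ▸ dvd_zero p)
  have per : ∀ (k c c' : ℕ) (m : ℤ), (f : ℤ) ∣ k - c → (f : ℤ) ∣ m - c' → G k m = G c c' := by
    intro k c c' m h3 ⟨j, h4⟩
    have h5 : ∀ k, G (k % f) m = G k m := Function.Periodic.map_mod_nat (f := fun k => G k m)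
      fun k => g1 k m
    have h6 : c % f = k % f := (Nat.modEq_iff_dvd).2 h3
    rw [← h5, ← h6, h5, show m = c' + j * f by linarith]
    exact Function.Periodic.int_mul (f := G c) (g2 c) j c'
  have e : ∑ k ∈ range K, ∑ m ∈ box N, φ₁ m * φ₂ m * G k m *
        ((if (p : ℤ) ∣ a + q * k - m ^ 2 then 1 else 0) - 1 / (p : ℝ)) =
      ∑ x ∈ range f ×ˢ range f, G x.1 x.2 * ∑ k ∈ range K, ∑ m ∈ box N,
        (if (f : ℤ) ∣ k - (x.1 : ℕ) then 1 else 0) * (if (f : ℤ) ∣ m - (x.2 : ℕ) then 1 else 0) *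
        (φ₁ m * φ₂ m * ((if (p : ℤ) ∣ a + q * k - m ^ 2 then 1 else 0) - 1 / (p : ℝ))) := by
    simp only [mul_sum]
    rw [eq_comm, sum_comm]
    refine sum_congr rfl fun k _ => ?_
    rw [sum_comm]
    refine sum_congr rfl fun m _ => ?_
    generalize (if (p : ℤ) ∣ a + q * k - m ^ 2 then 1 else 0) - 1 / (p : ℝ) = ψ
    have u : φ₁ m * φ₂ m * G k m * ψ = φ₁ m * φ₂ m * G k m * ψ *
        ((∑ c ∈ range f, if (f : ℤ) ∣ k - (c : ℕ) then (1 : ℝ) else 0) *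
          ∑ c ∈ range f, if (f : ℤ) ∣ m - (c : ℕ) then (1 : ℝ) else 0) := by
      rw [PB2.one_eq f0, PB2.one_eq f0, mul_one, mul_one]
    rw [u, sum_mul_sum, ← sum_product', mul_sum]
    refine sum_congr rfl fun x _ => ?_
    split_ifs with h3 h4
    · rw [per k x.1 x.2 m h3 h4]; ring
    all_goals ring
  rw [e]
  refine (abs_sum_le_sum_abs _ _).trans ((sum_le_card_nsmul _ _
    (64 * √(p : ℝ) * (1 + Real.log p) ^ 2 * (1 + (N : ℝ) / p)) fun x _ => ?_).trans_eq ?_)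
  · rw [abs_mul]
    exact (mul_le_of_le_one_left (abs_nonneg _) (hG _ _)).trans
      (PB2.core hIGS hSPC hABEL hp hf hq K N a _ _ h1 h2)
  · rw [card_product, card_range, nsmul_eq_mul]
    push_cast
    ring

end Pool.Agent.Lib.APQ
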