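import Pool.Agent.Lib.APQ.Kit
import Pool.Agent.Lib.MP_6073f3_nt.Z.SW

/-!
Weighted sums over primes from the theorem of Siegel and Walfisz.
-/

namespace Pool.Agent.Lib.APQ

open Finset Real Complex Filter Pool.Agent.Lib.PS Pool.Agent.Lib.RankZero
open scoped NumberTheorySymbols ArithmeticFunction.Moebius Classical ComplexConjugate

namespace PW

theorem conv (F : ℤ → ℝ) (a b : ℕ) :
    ∑ t ∈ Ico ((a : ℤ) + 1) ((b : ℤ) + 1), F t = ∑ n ∈ Ioc a b, F n := by
  refine (sum_nbij' (fun n : ℕ => (n : ℤ)) (fun t : ℤ => t.toNat) ?_ ?_ ?_ ?_ ?_).symm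
  · intro n hn
    simp only [mem_Ioc, mem_Ico] at hn ⊢
    omega
  · intro t ht
    simp only [mem_Ioc, mem_Ico] at ht ⊢
    omega
  · intro n _
    simp
  · intro t ht
    simp only [mem_Ico] at ht
    omega
  · intro n _
    rfl

theorem abelN (hA : St_ABEL) {φ : ℤ → ℝ} {Φ D : ℝ} (hφ : Uni φ Φ) (g : ℕ → ℝ) {s t : ℕ}
    (hst : s ≤ t) (h : ∀ a b, s ≤ a → a ≤ b → b ≤ t → |∑ n ∈ Ioc a b, g n| ≤ D) :
    |∑ n ∈ Ioc s t, φ n * g n| ≤ 2 * Φ * D := by
  have := hA.2.1 φ Φ D ((s : ℤ) + 1) ((t : ℤ) + 1) (fun x => g x.toNat) hφ (by omega)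
    fun u v h1 h2 h3 => by
      obtain ⟨a, rfl⟩ : ∃ a : ℕ, u = (a : ℤ) + 1 := ⟨(u - 1).toNat, by omega⟩
      obtain ⟨b, rfl⟩ : ∃ b : ℕ, v = (b : ℤ) + 1 := ⟨(v - 1).toNat, by omega⟩
      rw [conv]
      simpa using h a b (by omega) (by omega) (by omega)
  rw [conv] at this
  simpa using this

theorem part {r k N : ℕ} {D : ℝ} (hk : k.Coprime r) (h : ∀ M ≤ N, |Eth r k 0 M| ≤ D) {a b : ℕ}
    (hab : a ≤ b) (hb : b ≤ N) :
    |∑ n ∈ Ioc a b, ((if n % r = k then th n else 0) - 1 / (r.totient : ℝ))| ≤ 2 * D := by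
  have e : ∀ M, Eth r k 0 M =
      ∑ n ∈ Ioc 0 M, ((if n % r = k then th n else 0) - 1 / (r.totient : ℝ)) := fun M => by
    rw [Eth, if_pos hk, cls, sum_filter, sum_sub_distrib, sum_const, Nat.card_Ioc, nsmul_eq_mul,
      mul_one_div]
  have h1 := h b hb
  have h2 := h a (hab.trans hb)
  rw [e] at h1 h2
  rw [← sum_Ioc_consecutive _ (Nat.zero_le a) hab] at h1
  rw [abs_le] at h1 h2 ⊢
  constructor <;> linarith [h1.1, h1.2, h2.1, h2.2]

/-- the inverse of the logarithm -/
noncomputable def il (t : ℤ) : ℝ := if 2 ≤ t then 1 / Real.log t else 0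

theorem il_anti {s t : ℤ} (hs : 2 ≤ s) (h : s ≤ t) : il t ≤ il s := by
  rw [il, il, if_pos hs, if_pos (hs.trans h)]
  have h1 : (2 : ℝ) ≤ s := by exact_mod_cast hs
  have h2 : (s : ℝ) ≤ t := by exact_mod_cast h
  exact one_div_le_one_div_of_le (Real.log_pos (by linarith)) (Real.log_le_log (by linarith) h2)

theorem il_nonneg (t : ℤ) : 0 ≤ il t := by
  unfold il
  split_ifs
  · exact one_div_nonneg.mpr (Real.log_intCast_nonneg t)
  · exact le_rfl

theorem uni_il : Uni il 2 := by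
  refine ⟨fun t => ⟨il_nonneg t, ?_⟩, 2, fun s t hst ht => ?_, fun s t hs hst => il_anti hs hst⟩
  · by_cases h : 2 ≤ t
    · refine (il_anti le_rfl h).trans ?_
      rw [il, if_pos le_rfl]
      have := Real.log_two_gt_d9
      push_cast
      rw [div_le_iff₀ (by linarith)]
      linarith
    · rw [il, if_neg h]; norm_num
  · by_cases h : 2 ≤ s
    · exact le_of_eq (by rw [show s = t by omega])
    · rw [il, if_neg h]; exact il_nonneg t

theorem il_th (n : ℕ) : il n * th n = if n.Prime then 1 else 0 := by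
  unfold th
  split_ifs with h
  · have h2 : (2 : ℝ) ≤ n := by exact_mod_cast h.two_le
    rw [il, if_pos (by exact_mod_cast h.two_le), Int.cast_natCast,
      one_div_mul_cancel (Real.log_pos (by linarith)).ne']
  · exact mul_zero _

theorem cls_bound (hA : St_ABEL) {φ : ℤ → ℝ} {Φ D D' : ℝ} (hφ : Uni φ Φ) {r k N s t : ℕ}
    (hr : 1 ≤ r) (hk : k.Coprime r) (h : ∀ M ≤ N, |Eth r k 0 M| ≤ D)
    (h' : ∀ M ≤ N, |Eth 1 0 0 M| ≤ D') (hst : s ≤ t) (ht : t ≤ N) :
    |∑ p ∈ (Ioc s t).filter Nat.Prime,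
      φ p * ((if p % r = k then 1 else 0) - 1 / (r.totient : ℝ))| ≤ 16 * Φ * (D + D') := by
  have hφ1 : (1 : ℝ) ≤ r.totient := by exact_mod_cast Nat.totient_pos.mpr hr
  have hD' : 0 ≤ D' := (abs_nonneg _).trans (h' 0 (Nat.zero_le _))
  have s1 : ∀ a b, a ≤ b → b ≤ N →
      |∑ n ∈ Ioc a b, th n * ((if n % r = k then 1 else 0) - 1 / (r.totient : ℝ))|
        ≤ 2 * (D + D') := fun a b hab hb => by
    have h1 := part hk h hab hb
    have h2 := part (Nat.coprime_one_right 0) h' hab hb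
    have e : ∑ n ∈ Ioc a b, th n * ((if n % r = k then 1 else 0) - 1 / (r.totient : ℝ)) =
        ∑ n ∈ Ioc a b, ((if n % r = k then th n else 0) - 1 / (r.totient : ℝ)) -
          (∑ n ∈ Ioc a b, ((if n % 1 = 0 then th n else 0) - 1 / ((1 : ℕ).totient : ℝ))) /
            (r.totient : ℝ) := by
      rw [sum_div, ← sum_sub_distrib]
      refine sum_congr rfl fun n _ => ?_
      rw [if_pos (Nat.mod_one n), Nat.totient_one]
      split_ifs <;> push_cast <;> ring
    rw [e]
    refine (abs_sub _ _).trans ?_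
    rw [abs_div, abs_of_pos (by linarith : (0 : ℝ) < r.totient)]
    have := div_le_self (abs_nonneg
      (∑ n ∈ Ioc a b, ((if n % 1 = 0 then th n else 0) - 1 / ((1 : ℕ).totient : ℝ)))) hφ1
    linarith
  have s2 : ∀ a b, a ≤ b → b ≤ N →
      |∑ n ∈ Ioc a b, il n * (th n * ((if n % r = k then 1 else 0) - 1 / (r.totient : ℝ)))|
        ≤ 2 * 2 * (2 * (D + D')) := fun a b hab hb =>
    abelN hA uni_il _ hab fun a' b' _ h2 h3 => s1 a' b' h2 (h3.trans hb)
  have s3 := abelN hA hφ _ hst fun a b _ h2 h3 => s2 a b h2 (h3.trans ht)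
  rw [sum_filter]
  have e : ∀ n : ℕ, (if n.Prime then φ n * ((if n % r = k then 1 else 0) - 1 / (r.totient : ℝ))
      else 0) = φ n * (il n * (th n * ((if n % r = k then 1 else 0) - 1 / (r.totient : ℝ)))) :=
    fun n => by
      rw [← mul_assoc (il n), il_th]
      by_cases hp : n.Prime
      · rw [if_pos hp, if_pos hp, one_mul]
      · rw [if_neg hp, if_neg hp, zero_mul, mul_zero]
  simp only [e]
  linarith

end PW

open PW in
theorem blk_PW (hABEL : St_ABEL) : St_PW := by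
  intro A B
  obtain ⟨C₁, h₁⟩ := siegel_walfisz A 0
  obtain ⟨C₂, h₂⟩ := siegel_walfisz A B
  refine ⟨16 * (|C₁| + |C₂|) + 1, by positivity, fun N s t φ Φ hN hst ht hφ => ?_⟩
  have hΦ := hφ.nonneg
  have hL : 0 < Real.log N ^ A :=
    pow_pos (Real.log_pos (by exact_mod_cast (by omega : 1 < N))) A
  set Y : ℝ := N / Real.log N ^ A with hY
  have hY0 : 0 ≤ Y := by positivity
  have e1 : ∀ M ≤ N, |Eth 1 0 0 M| ≤ |C₁| * Y := fun M hM =>
    (h₁ N 1 0 M hN le_rfl (by simp) hM one_pos).trans (by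
      rw [mul_div_assoc]; exact mul_le_mul_of_nonneg_right (le_abs_self _) hY0)
  have a1 := abs_nonneg C₁
  have a2 := abs_nonneg C₂
  constructor
  · have := abelN hABEL hφ
      (fun n => (if n % 1 = 0 then th n else 0) - 1 / ((1 : ℕ).totient : ℝ)) hst
      fun a b _ h2 h3 => part (Nat.coprime_one_right 0) e1 h2 (h3.trans ht)
    have e : ∑ p ∈ (Ioc s t).filter Nat.Prime, φ p * Real.log p - ∑ x ∈ Ioc s t, φ x =
        ∑ n ∈ Ioc s t,
          φ n * ((if n % 1 = 0 then th n else 0) - 1 / ((1 : ℕ).totient : ℝ)) := by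
      rw [sum_filter, ← sum_sub_distrib]
      refine sum_congr rfl fun n _ => ?_
      rw [if_pos (Nat.mod_one n), Nat.totient_one, th]
      split_ifs <;> push_cast <;> ring
    rw [e, mul_div_assoc, ← hY]
    refine this.trans ?_
    have := mul_nonneg hΦ hY0
    nlinarith [mul_nonneg a1 this, mul_nonneg a2 this]
  · intro r Γ G hr hrB hrs hG hΓ
    have hΓ0 : 0 ≤ Γ := (abs_nonneg _).trans (hΓ 0)
    have e2 : ∀ k < r, ∀ M ≤ N, |Eth r k 0 M| ≤ |C₂| * Y := fun k hk M hM =>
      (h₂ N r k M hN hr hrB hM hk).trans (by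
        rw [mul_div_assoc]; exact mul_le_mul_of_nonneg_right (le_abs_self _) hY0)
    have e : ∑ p ∈ (Ioc s t).filter Nat.Prime, φ p * G p -
          (∑ c ∈ (range r).filter (fun c => Nat.Coprime c r), G c) / (r.totient : ℝ) *
            ∑ p ∈ (Ioc s t).filter Nat.Prime, φ p =
        ∑ c ∈ (range r).filter (fun c => Nat.Coprime c r), G c *
          ∑ p ∈ (Ioc s t).filter Nat.Prime,
            φ p * ((if p % r = c then 1 else 0) - 1 / (r.totient : ℝ)) := by
      simp only [mul_sum]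
      rw [sum_comm, ← sum_sub_distrib]
      refine sum_congr rfl fun p hp => ?_
      obtain ⟨hp1, hp2⟩ := mem_filter.mp hp
      have hlt : r < p := hrs.trans_lt (mem_Ioc.mp hp1).1
      have hc : Nat.Coprime (p % r) r := by
        have : Nat.Coprime p r := (Nat.coprime_of_lt_prime (by omega) hlt hp2)
        rw [Nat.Coprime, ← Nat.gcd_rec, Nat.gcd_comm]
        exact this
      have hm : p % r ∈ (range r).filter (fun c => Nat.Coprime c r) :=
        mem_filter.mpr ⟨mem_range.mpr (Nat.mod_lt _ hr), hc⟩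
      have hper : G (p % r) = G p := Function.Periodic.map_mod_nat (f := G) hG p
      have e3 : ∀ c, G c * (φ p * ((if p % r = c then 1 else 0) - 1 / (r.totient : ℝ))) =
          (if p % r = c then φ p * G c else 0) - G c / (r.totient : ℝ) * φ p := fun c => by
        split_ifs <;> ring
      simp only [e3]
      rw [sum_sub_distrib, sum_ite_eq, if_pos hm, hper, sum_div, sum_mul]
    rw [e]
    refine (abs_sum_le_sum_abs _ _).trans ?_
    have hb : ∀ c ∈ (range r).filter (fun c => Nat.Coprime c r), |G c *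
          ∑ p ∈ (Ioc s t).filter Nat.Prime,
            φ p * ((if p % r = c then 1 else 0) - 1 / (r.totient : ℝ))| ≤
        Γ * (16 * Φ * (|C₂| * Y + |C₁| * Y)) := fun c hc => by
      obtain ⟨h1, h2⟩ := mem_filter.mp hc
      rw [abs_mul]
      exact mul_le_mul (hΓ c) (cls_bound hABEL hφ hr h2 (e2 c (mem_range.mp h1)) e1 hst ht)
        (abs_nonneg _) hΓ0
    refine (sum_le_card_nsmul _ _ _ hb).trans ?_
    have hcard : (((range r).filter (fun c => Nat.Coprime c r)).card : ℝ) ≤ r := by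
      exact_mod_cast (card_filter_le _ _).trans (card_range r).le
    rw [nsmul_eq_mul, mul_div_assoc, ← hY]
    refine (mul_le_mul_of_nonneg_right hcard (by positivity)).trans ?_
    have : 0 ≤ (r : ℝ) * Γ * Φ * Y := by positivity
    nlinarith

end Pool.Agent.Lib.APQ
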