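import Pool.Agent.Lib.APQ.Kit

/-!
The pointwise identities and bounds of the sieve weights.
-/

namespace Pool.Agent.Lib.APQ

open Finset Real Complex Filter Pool.Agent.Lib.PS
open scoped NumberTheorySymbols ArithmeticFunction.Moebius Classical ComplexConjugate Topology

namespace RAM

theorem om_eq (y z : ℝ) (x : ℕ) : om y z x = (((pr y z).filter fun p => p ∣ x).card : ℝ) := by
  unfold om
  rw [Finset.sum_boole]

theorem om_nonneg (y z : ℝ) (x : ℕ) : 0 ≤ om y z x := by rw [om_eq]; positivity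

theorem one_le_om {y z : ℝ} {x p : ℕ} (hp : p ∈ pr y z) (h : p ∣ x) : 1 ≤ om y z x := by
  rw [om_eq]
  exact_mod_cast card_pos.2 ⟨p, mem_filter.2 ⟨hp, h⟩⟩

theorem Rz_cases (z : ℝ) (x : ℕ) : Rz z x = 0 ∨ Rz z x = 1 := by
  unfold Rz; split_ifs <;> simp

theorem Rz_zero {z : ℝ} {x p : ℕ} (hp : p ∈ pr 0 z) (h : p ∣ x) : Rz z x = 0 := by
  unfold Rz; rw [if_neg]; exact fun h1 => h1 p hp h

theorem Rz_one {z : ℝ} {x : ℕ} (h : ∀ p ∈ pr 0 z, ¬ p ∣ x) : Rz z x = 1 := by
  unfold Rz; rw [if_pos h]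

theorem zz_one {X : ℕ} (hX : 33 ≤ X) : 1 ≤ zz X :=
  Real.one_le_rpow (by exact_mod_cast le_trans (by norm_num) hX) (by norm_num)

theorem zz_five {X : ℕ} (hX : 33 ≤ X) : 2 * (X : ℝ) < zz X ^ 5 := by
  have h0 : (33 : ℝ) ≤ X := by exact_mod_cast hX
  have h1 : zz X ^ 5 = (X : ℝ) ^ (1 / 5 : ℝ) * X := by
    rw [zz, ← Real.rpow_natCast, ← Real.rpow_mul (by linarith),
      ← Real.rpow_add_one (by linarith)]
    norm_num
  have h2 : (2 : ℝ) < (X : ℝ) ^ (1 / 5 : ℝ) := by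
    by_contra h
    have h3 := pow_le_pow_left₀ (by positivity) (not_lt.1 h) 5
    rw [← Real.rpow_natCast, ← Real.rpow_mul (by linarith)] at h3
    norm_num at h3
    linarith
  rw [h1]
  exact mul_lt_mul_of_pos_right h2 (by linarith)

theorem om_le {X u : ℕ} (hX : 33 ≤ X) (h1 : 1 ≤ u) (h2 : u ≤ 2 * X) (y : ℝ) :
    om (zz X) y u ≤ 4 := by
  rw [om_eq]
  set S := (pr (zz X) y).filter fun p => p ∣ u with hS
  have hz := zz_one hX
  have hm : ∀ p ∈ S, p.Prime ∧ zz X < p ∧ p ∣ u := fun p hp => by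
    have h := mem_filter.1 hp
    have h' := (mem_pr (by linarith)).1 h.1
    exact ⟨h'.1, h'.2.1, h.2⟩
  by_contra h
  have h5 : 5 ≤ S.card := by
    by_contra h'
    apply h
    exact_mod_cast Nat.lt_succ_iff.1 (not_le.1 h')
  have hd : ∏ p ∈ S, p ∣ u :=
    Finset.prod_primes_dvd u (fun p hp => (hm p hp).1.prime) fun p hp => (hm p hp).2.2
  have hle : ((∏ p ∈ S, p : ℕ) : ℝ) ≤ 2 * X := by exact_mod_cast (Nat.le_of_dvd h1 hd).trans h2
  have h6 : zz X ^ S.card ≤ ((∏ p ∈ S, p : ℕ) : ℝ) := by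
    rw [Nat.cast_prod, ← Finset.prod_const]
    exact Finset.prod_le_prod (fun _ _ => by linarith) fun p hp => (hm p hp).2.1.le
  have h7 := pow_le_pow_right₀ hz h5
  have h8 := zz_five hX
  linarith

theorem gf_abs {X u : ℕ} (hX : 33 ≤ X) (h1 : 1 ≤ u) (h2 : u ≤ 2 * X) (t : ℝ) :
    |gf X t u| ≤ 3 := by
  have h3 := om_le hX h1 h2 ((X : ℝ) ^ (1 / 2 - t))
  have h4 := om_nonneg (zz X) ((X : ℝ) ^ (1 / 2 - t)) u
  unfold gf
  rw [abs_le]; constructor <;> linarith

theorem dvd_div {p q x : ℕ} (hp : p.Prime) (hq : q.Prime) (hne : q ≠ p) (h : p ∣ x) :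
    q ∣ x / p ↔ q ∣ x := by
  obtain ⟨k, rfl⟩ := h
  rw [Nat.mul_div_cancel_left _ hp.pos, hq.dvd_mul, Nat.prime_dvd_prime_iff_eq hq hp]
  simp [hne]

theorem Rz_div {z : ℝ} {p x : ℕ} (hp : p.Prime) (hz : z < p) (h : p ∣ x) :
    Rz z (x / p) = Rz z x := by
  have : (∀ q ∈ pr 0 z, ¬ q ∣ x / p) ↔ ∀ q ∈ pr 0 z, ¬ q ∣ x := by
    refine forall₂_congr fun q hq => not_congr ?_
    have h1 := (mem_pr le_rfl).1 hq
    refine dvd_div hp h1.1 (fun e => ?_) h
    rw [e] at h1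
    linarith [h1.2.2]
  unfold Rz
  simp only [this]

theorem om_div {z y : ℝ} (h0 : 0 ≤ z) {p x : ℕ} (hp : p.Prime) (hz : (p : ℝ) ≤ z) (h : p ∣ x) :
    om z y (x / p) = om z y x := by
  unfold om
  refine sum_congr rfl fun q hq => ?_
  have h1 := (mem_pr h0).1 hq
  have : q ∣ x / p ↔ q ∣ x := by
    refine dvd_div hp h1.1 (fun e => ?_) h
    rw [e] at h1
    linarith [h1.2.1]
  simp only [this]

theorem om_div' {z y : ℝ} (h0 : 0 ≤ z) {p x : ℕ} (hp : p ∈ pr z y) (h : p ∣ x) :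
    1 + om z y (x / p) = om z y x + if p ^ 2 ∣ x then 1 else 0 := by
  have hp' := ((mem_pr h0).1 hp).1
  unfold om
  rw [← add_sum_erase _ _ hp, ← add_sum_erase _ _ hp, if_pos h]
  have e1 : ∑ q ∈ (pr z y).erase p, (if q ∣ x / p then (1 : ℝ) else 0)
      = ∑ q ∈ (pr z y).erase p, if q ∣ x then (1 : ℝ) else 0 := by
    refine sum_congr rfl fun q hq => ?_
    have h1 := mem_erase.1 hq
    simp only [dvd_div hp' ((mem_pr h0).1 h1.2).1 h1.1 h]
  have e2 : p ∣ x / p ↔ p ^ 2 ∣ x := by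
    rw [Nat.dvd_div_iff_mul_dvd h, pow_two]
  rw [e1]
  simp only [e2]
  ring

theorem sum_ite_const (y z : ℝ) (x : ℕ) (c : ℝ) :
    ∑ p ∈ pr y z, (if p ∣ x then c else 0) = c * om y z x := by
  unfold om
  rw [mul_sum]
  refine sum_congr rfl fun p _ => ?_
  split_ifs <;> simp

end RAM

open RAM in
theorem blk_RAM : St_RAM := by
  intro X x d t hX hd hd' _ht _ht' h1 h2
  have hX1 : (1 : ℝ) ≤ X := by exact_mod_cast le_trans (by norm_num) hX
  have hz := zz_one hX
  have hz0 : (0 : ℝ) ≤ (X : ℝ) ^ d := by positivity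
  have hzz : (X : ℝ) ^ d ≤ zz X := Real.rpow_le_rpow_of_exponent_le hX1 (by linarith)
  have hg := gf_abs hX h1 h2 t
  have hA := om_nonneg (zz X) ((X : ℝ) ^ (1 / 2 - t)) x
  have hB := om_nonneg ((X : ℝ) ^ (1 / 2 - t)) √(2 * X : ℝ) x
  have hm := om_nonneg ((X : ℝ) ^ d) (zz X) x
  have hle : F0 X t x - Ft X t x ≤ 1 := by
    unfold F0 Ft gf
    rcases Rz_cases (zz X) x with h | h <;> rw [h] <;> linarith
  have hterm : ∀ p ∈ pr ((X : ℝ) ^ d) (zz X), p ∣ x → al X d t (x / p) =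
      F1 X d t x / (om ((X : ℝ) ^ d) (zz X) x + if p ^ 2 ∣ x then 1 else 0) := by
    intro p hp h
    have h3 := (mem_pr hz0).1 hp
    unfold al F1 gf
    rw [Rz_div h3.1 h3.2.1 h, om_div (by linarith) h3.1 h3.2.2 h, om_div' hz0 hp h]
  have hF1 : |F1 X d t x| ≤ 3 * Rz ((X : ℝ) ^ d) x := by
    unfold F1
    rcases Rz_cases ((X : ℝ) ^ d) x with h | h <;> rw [h]
    · simp
    · simpa using hg
  have hR1 : Rz ((X : ℝ) ^ d) x ≤ 1 := by
    rcases Rz_cases ((X : ℝ) ^ d) x with h | h <;> rw [h] <;> norm_num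
  have hF2 : |F2 X d t x| ≤ |F1 X d t x| := by
    unfold F2
    refine (abs_sum_le_sum_abs _ _).trans ?_
    refine (sum_le_sum (g := fun p => if p ∣ x then |F1 X d t x| / om ((X : ℝ) ^ d) (zz X) x
      else 0) fun p hp => ?_).trans ?_
    · by_cases h : p ∣ x
      · rw [if_pos h, if_pos h, hterm p hp h, abs_div]
        have h4 := one_le_om hp h
        have h5 : (0 : ℝ) ≤ if p ^ 2 ∣ x then 1 else 0 := by split_ifs <;> norm_num
        refine div_le_div_of_nonneg_left (abs_nonneg _) (by linarith) ?_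
        rw [abs_of_nonneg (by linarith)]
        linarith
      · rw [if_neg h, if_neg h, abs_zero]
    · rw [sum_ite_const]
      rcases hm.eq_or_lt with h | h
      · rw [← h, mul_zero]; exact abs_nonneg _
      · rw [div_mul_cancel₀ _ h.ne']
  refine ⟨fun hx => ?_, hle, ?_, hF2.trans hF1, ?_, ?_⟩
  · unfold ip
    split_ifs with hp
    · exact hle
    · unfold F0 Ft gf
      have hq := Nat.minFac_prime (n := x) (by omega)
      have hqd := Nat.minFac_dvd x
      have hsq := Nat.minFac_sq_le_self (by omega) hp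
      by_cases ha : (x.minFac : ℝ) ≤ zz X
      · rw [Rz_zero ((mem_pr le_rfl).2 ⟨hq, by exact_mod_cast hq.pos, ha⟩) hqd]
        simp
      · have hs : 1 ≤ om (zz X) ((X : ℝ) ^ (1 / 2 - t)) x
            + om ((X : ℝ) ^ (1 / 2 - t)) √(2 * X : ℝ) x := by
          by_cases hb : (x.minFac : ℝ) ≤ (X : ℝ) ^ (1 / 2 - t)
          · have := one_le_om ((mem_pr (by linarith)).2 ⟨hq, not_le.1 ha, hb⟩) hqd
            linarith
          · have hc : (x.minFac : ℝ) ≤ √(2 * X : ℝ) := by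
              apply Real.le_sqrt_of_sq_le
              exact_mod_cast hsq.trans h2
            have := one_le_om ((mem_pr (by positivity)).2 ⟨hq, not_le.1 hb, hc⟩) hqd
            linarith
        rcases Rz_cases (zz X) x with h | h <;> rw [h] <;> linarith
  · by_cases hs : ∃ p ∈ pr ((X : ℝ) ^ d) (zz X), p ^ 2 ∣ x
    · obtain ⟨p, hp, h⟩ := hs
      have h3 := (mem_pr hz0).1 hp
      have hq : 1 ≤ Fq X d x := by
        unfold Fq
        have := single_le_sum (f := fun p : ℕ => if p ^ 2 ∣ x then (1 : ℝ) else 0)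
          (fun _ _ => by positivity) hp
        simpa only [if_pos h] using this
      have h0 : F0 X t x = 0 := by
        unfold F0
        rw [Rz_zero ((mem_pr le_rfl).2 ⟨h3.1, by exact_mod_cast h3.1.pos, h3.2.2⟩)
          ((dvd_pow_self p two_ne_zero).trans h), zero_mul]
      rw [h0, zero_sub, abs_neg]
      have := abs_sub (F1 X d t x) (F2 X d t x)
      linarith
    · push Not at hs
      have hq : Fq X d x = 0 := sum_eq_zero fun p hp => if_neg (hs p hp)
      have h3 : F2 X d t x = F1 X d t x / om ((X : ℝ) ^ d) (zz X) x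
          * om ((X : ℝ) ^ d) (zz X) x := by
        rw [← sum_ite_const]
        refine sum_congr rfl fun p hp => ?_
        by_cases h : p ∣ x
        · rw [if_pos h, if_pos h, hterm p hp h, if_neg (hs p hp), add_zero]
        · rw [if_neg h, if_neg h]
      rw [hq, mul_zero, abs_nonpos_iff, sub_eq_zero]
      by_cases hp : ∃ p ∈ pr ((X : ℝ) ^ d) (zz X), p ∣ x
      · obtain ⟨p, hp, h⟩ := hp
        have h4 := (mem_pr hz0).1 hp
        have h5 := one_le_om hp h
        rw [h3, div_mul_cancel₀ _ (by linarith), sub_self, F0,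
          Rz_zero ((mem_pr le_rfl).2 ⟨h4.1, by exact_mod_cast h4.1.pos, h4.2.2⟩) h, zero_mul]
      · push Not at hp
        have h4 : om ((X : ℝ) ^ d) (zz X) x = 0 := sum_eq_zero fun p hp' => if_neg (hp p hp')
        rw [h3, h4, mul_zero, sub_zero, F0, F1]
        congr 1
        by_cases h5 : ∀ p ∈ pr 0 ((X : ℝ) ^ d), ¬ p ∣ x
        · rw [Rz_one h5, Rz_one]
          intro p hp'
          have h6 := (mem_pr le_rfl).1 hp'
          by_cases h7 : (p : ℝ) ≤ (X : ℝ) ^ d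
          · exact h5 p ((mem_pr le_rfl).2 ⟨h6.1, h6.2.1, h7⟩)
          · exact hp p ((mem_pr hz0).2 ⟨h6.1, not_le.1 h7, h6.2.2⟩)
        · push Not at h5
          obtain ⟨p, h6, h7⟩ := h5
          have h8 := (mem_pr le_rfl).1 h6
          rw [Rz_zero h6 h7, Rz_zero ((mem_pr le_rfl).2 ⟨h8.1, h8.2.1, h8.2.2.trans hzz⟩) h7]
  · have : al X d t x = F1 X d t x / (1 + om ((X : ℝ) ^ d) (zz X) x) := rfl
    rw [this, abs_div, abs_of_nonneg (by linarith : (0 : ℝ) ≤ 1 + om ((X : ℝ) ^ d) (zz X) x)]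
    refine (div_le_self (abs_nonneg _) (by linarith)).trans (by linarith)
  · unfold F0
    rcases Rz_cases (zz X) x with h | h <;> rw [h]
    · norm_num
    · rw [one_mul]; exact (abs_le.1 hg).1

end Pool.Agent.Lib.APQ
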