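import Pool.Agent.Lib.APQ.Kit

/-! Block REP: representations by a diagonal binary form. -/

namespace Pool.Agent.Lib.APQ

open Finset Real Pool.Agent.Lib.PS

namespace REP

theorem co {v₁ v₂ n d d' x y x₀ y₀ : ℤ} (hv : IsCoprime v₁ v₂) (hn : n ≠ 0)
    (h : v₂ * x ^ 2 - v₁ * y ^ 2 = n) (h₀ : v₂ * x₀ ^ 2 - v₁ * y₀ ^ 2 = n)
    (hd : d = Int.gcd n (x * y₀ - x₀ * y)) (hd' : n = d * d') : d' ∣ x * y₀ + x₀ * y := by
  have hd0 : d ≠ 0 := left_ne_zero_of_mul (hd' ▸ hn)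
  obtain ⟨a, ha⟩ : d ∣ x * y₀ - x₀ * y := hd ▸ Int.gcd_dvd_right _ _
  have hc : IsCoprime d' a := by
    rw [Int.isCoprime_iff_gcd_eq_one]
    have h1 : Int.gcd n (x * y₀ - x₀ * y) = d.natAbs * Int.gcd d' a := by
      rw [ha]
      conv_lhs => rw [hd']
      exact Int.gcd_mul_left _ _ _
    have h2 : d.natAbs = Int.gcd n (x * y₀ - x₀ * y) := by rw [hd, Int.natAbs_natCast]
    rw [← h2] at h1
    exact (Nat.mul_eq_left (Int.natAbs_ne_zero.2 hd0)).1 h1.symm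
  have h2 : d' ∣ v₂ * (x * y₀ + x₀ * y) := hc.dvd_of_dvd_mul_left ⟨y₀ ^ 2 - y ^ 2,
    mul_left_cancel₀ hd0 (by
      linear_combination (-(v₂ * (x * y₀ + x₀ * y))) * ha + y₀ ^ 2 * h - y ^ 2 * h₀ +
        (y₀ ^ 2 - y ^ 2) * hd')⟩
  have h1 : d' ∣ v₁ * (x * y₀ + x₀ * y) := hc.dvd_of_dvd_mul_left ⟨x₀ ^ 2 - x ^ 2,
    mul_left_cancel₀ hd0 (by
      linear_combination (-(v₁ * (x * y₀ + x₀ * y))) * ha + x₀ ^ 2 * h - x ^ 2 * h₀ +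
        (x₀ ^ 2 - x ^ 2) * hd')⟩
  obtain ⟨s, t, hst⟩ := hv
  have e : x * y₀ + x₀ * y = s * (v₁ * (x * y₀ + x₀ * y)) + t * (v₂ * (x * y₀ + x₀ * y)) := by
    linear_combination (-(x * y₀ + x₀ * y)) * hst
  rw [e]
  exact dvd_add (h1.mul_left _) (h2.mul_left _)

theorem nosq {v l y : ℤ} (hv : Prime v) (hl : Prime l) (hy : ¬ l ∣ y) : ¬ l * l ∣ v * y ^ 2 := by
  intro h
  have hc : IsCoprime l y := (hl.irreducible.coprime_iff_not_dvd).2 hy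
  have h1 : l * l ∣ v := (hc.mul_left hc).pow_right.dvd_of_dvd_mul_right h
  exact hl.not_isUnit (hv.irreducible.squarefree _ h1)

theorem key {v₁ v₂ n x₀ y₀ x₁ y₁ x₂ y₂ : ℤ} (p₁ : Prime v₁) (p₂ : Prime v₂) (hv : IsCoprime v₁ v₂)
    (hn : n ≠ 0) (c₀ : IsCoprime x₀ y₀) (c₁ : IsCoprime x₁ y₁)
    (h₀ : v₂ * x₀ ^ 2 - v₁ * y₀ ^ 2 = n) (h₁ : v₂ * x₁ ^ 2 - v₁ * y₁ ^ 2 = n)
    (h₂ : v₂ * x₂ ^ 2 - v₁ * y₂ ^ 2 = n)
    (hg : Int.gcd n (x₁ * y₀ - x₀ * y₁) = Int.gcd n (x₂ * y₀ - x₀ * y₂)) :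
    n ∣ 2 * (x₁ * y₂ - x₂ * y₁) := by
  set d : ℤ := ((Int.gcd n (x₁ * y₀ - x₀ * y₁) : ℕ) : ℤ) with hd
  obtain ⟨d', hd'⟩ : d ∣ n := Int.gcd_dvd_left _ _
  have a1 : d ∣ x₁ * y₀ - x₀ * y₁ := Int.gcd_dvd_right _ _
  have a2 : d ∣ x₂ * y₀ - x₀ * y₂ := by rw [hd, hg]; exact Int.gcd_dvd_right _ _
  have b1 := co hv hn h₁ h₀ hd hd'
  have b2 := co hv hn h₂ h₀ (by rw [hd, hg]) hd'
  obtain ⟨s, t, hst⟩ := id c₀
  have w1 : d ∣ x₁ * y₂ - x₂ * y₁ := by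
    have e : x₁ * y₂ - x₂ * y₁ = (s * x₂ + t * y₂) * (x₁ * y₀ - x₀ * y₁) -
        (s * x₁ + t * y₁) * (x₂ * y₀ - x₀ * y₂) := by
      linear_combination (-(x₁ * y₂ - x₂ * y₁)) * hst
    rw [e]
    exact dvd_sub (a1.mul_left _) (a2.mul_left _)
  have w2 : d' ∣ x₁ * y₂ - x₂ * y₁ := by
    have e : x₁ * y₂ - x₂ * y₁ = (t * y₂ - s * x₂) * (x₁ * y₀ + x₀ * y₁) +
        (s * x₁ - t * y₁) * (x₂ * y₀ + x₀ * y₂) := by
      linear_combination (-(x₁ * y₂ - x₂ * y₁)) * hst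
    rw [e]
    exact dvd_add (b1.mul_left _) (b2.mul_left _)
  set h : ℤ := ((Int.gcd d d' : ℕ) : ℤ) with hh
  have h1 : h ∣ d := Int.gcd_dvd_left _ _
  have h2 : h ∣ d' := Int.gcd_dvd_right _ _
  have hc : IsCoprime h (x₁ * y₀) := by
    refine isCoprime_of_prime_dvd (fun h0 => hn ?_) fun l hl l1 l2 => ?_
    · rw [hd', show d = 0 from zero_dvd_iff.1 (h0.1 ▸ h1), zero_mul]
    have l3 : l * l ∣ n := hd' ▸ mul_dvd_mul (l1.trans h1) (l1.trans h2)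
    rcases hl.dvd_or_dvd l2 with l4 | l4
    · refine nosq p₁ hl (fun l5 => hl.not_isUnit (c₁.isUnit_of_dvd' l4 l5)) ?_
      rw [show v₁ * y₁ ^ 2 = v₂ * (x₁ * x₁) - n by linear_combination -h₁]
      exact dvd_sub ((mul_dvd_mul l4 l4).mul_left _) l3
    · refine nosq p₂ hl (fun l5 => hl.not_isUnit (c₀.isUnit_of_dvd' l5 l4)) ?_
      rw [show v₂ * x₀ ^ 2 = v₁ * (y₀ * y₀) + n by linear_combination h₀]
      exact dvd_add ((mul_dvd_mul l4 l4).mul_left _) l3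
  obtain ⟨c, hc2⟩ : h ∣ 2 := hc.dvd_of_dvd_mul_right (by
    rw [show 2 * (x₁ * y₀) = x₁ * y₀ - x₀ * y₁ + (x₁ * y₀ + x₀ * y₁) by ring]
    exact dvd_add (h1.trans a1) (h2.trans b1))
  have hb : h = d * Int.gcdA d d' + d' * Int.gcdB d d' := Int.gcd_eq_gcd_ab d d'
  obtain ⟨e1, he1⟩ := w1
  obtain ⟨e2, he2⟩ := w2
  refine ⟨c * (Int.gcdA d d' * e2 + Int.gcdB d d' * e1), ?_⟩
  rw [hc2, hb]
  linear_combination (d * Int.gcdA d d' * c) * he2 + (d' * Int.gcdB d d' * c) * he1 -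
    c * (Int.gcdA d d' * e2 + Int.gcdB d d' * e1) * hd'

theorem prod_ge {a x y : ℤ} (hx : 0 < x) (hy : 0 < y) (h1 : a ≤ x ^ 2) (h2 : a ≤ y ^ 2) :
    a ≤ x * y := by
  rcases le_total x y with h | h <;> nlinarith

theorem gap {v₁ v₂ n x₁ y₁ x₂ y₂ a b : ℤ} (p₁ : 1 ≤ v₁) (p₂ : 1 ≤ v₂) (hn : n ≠ 0)
    (h₁ : v₂ * x₁ ^ 2 - v₁ * y₁ ^ 2 = n) (h₂ : v₂ * x₂ ^ 2 - v₁ * y₂ ^ 2 = n)
    (hw : n ∣ 2 * (x₁ * y₂ - x₂ * y₁)) (s₁ : 0 < x₁) (s₂ : 0 < x₂) (t₁ : 0 < y₁) (t₂ : 0 < y₂)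
    (a₁ : a ≤ x₁ ^ 2 ∧ x₁ ^ 2 < 2 * a) (a₂ : a ≤ x₂ ^ 2 ∧ x₂ ^ 2 < 2 * a)
    (b₁ : b ≤ y₁ ^ 2 ∧ y₁ ^ 2 < 2 * b) (b₂ : b ≤ y₂ ^ 2 ∧ y₂ ^ 2 < 2 * b) :
    x₁ = x₂ ∧ y₁ = y₂ := by
  obtain ⟨c, hc⟩ := hw
  set s := x₁ * y₂ + x₂ * y₁ with hs
  have e1 : v₂ * s * c = 2 * (y₂ ^ 2 - y₁ ^ 2) := mul_left_cancel₀ hn (by
    rw [hs]; linear_combination (-(v₂ * (x₁ * y₂ + x₂ * y₁))) * hc + 2 * y₂ ^ 2 * h₁ - 2 * y₁ ^ 2 * h₂)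
  have e2 : v₁ * s * c = 2 * (x₂ ^ 2 - x₁ ^ 2) := mul_left_cancel₀ hn (by
    rw [hs]; linear_combination (-(v₁ * (x₁ * y₂ + x₂ * y₁))) * hc + 2 * x₂ ^ 2 * h₁ - 2 * x₁ ^ 2 * h₂)
  have hs0 : 0 < s := by positivity
  rcases eq_or_ne c 0 with rfl | h0
  · exact ⟨(pow_left_inj₀ s₁.le s₂.le two_ne_zero).1 (by linarith),
      (pow_left_inj₀ t₁.le t₂.le two_ne_zero).1 (by linarith)⟩
  exfalso
  have hc1 : 1 ≤ |c| := Int.one_le_abs h0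
  have f : ∀ v z k : ℤ, 1 ≤ v → v * s * c = 2 * z → |z| < k → s < 2 * k := fun v z k hv e hz => by
    have g1 : v * s * |c| = 2 * |z| := by
      rw [← abs_of_pos (show 0 < v * s by positivity), ← abs_mul, e, abs_mul, abs_two]
    have g2 : 1 * s * 1 ≤ v * s * |c| := by gcongr
    linarith
  have f1 := f _ _ b p₂ e1 (abs_lt.2 ⟨by linarith [b₁.2, b₂.1], by linarith [b₁.1, b₂.2]⟩)
  have f2 := f _ _ a p₁ e2 (abs_lt.2 ⟨by linarith [a₁.2, a₂.1], by linarith [a₁.1, a₂.2]⟩)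
  have g1 := prod_ge s₁ s₂ a₁.1 a₂.1
  have g2 := prod_ge t₁ t₂ b₁.1 b₂.1
  have g3 : a * b ≤ x₁ * x₂ * (y₁ * y₂) := mul_le_mul g1 g2 (by linarith) (by positivity)
  have g4 : s * s < 2 * a * (2 * b) := mul_lt_mul'' f2 f1 hs0.le hs0.le
  nlinarith [sq_nonneg (x₁ * y₂ - x₂ * y₁)]

theorem lg2 {x : ℤ} (hx : x ≠ 0) : (2 : ℤ) ^ Nat.log 2 (x.natAbs ^ 2) ≤ |x| ^ 2 ∧
    |x| ^ 2 < 2 * 2 ^ Nat.log 2 (x.natAbs ^ 2) := by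
  have h0 : x.natAbs ^ 2 ≠ 0 := pow_ne_zero _ (Int.natAbs_ne_zero.2 hx)
  have h1 := Nat.pow_log_le_self 2 h0
  have h2 := Nat.lt_pow_succ_log_self one_lt_two (x.natAbs ^ 2)
  rw [Nat.succ_eq_add_one, pow_succ' (2 : ℕ)] at h2
  rw [← Int.natCast_natAbs]
  exact ⟨by exact_mod_cast h1, by exact_mod_cast h2⟩

theorem count {v₁ v₂ : ℕ} (p₁ : v₁.Prime) (p₂ : v₂.Prime) (hv : v₁ ≠ v₂) {n : ℤ} (hn : n ≠ 0)
    (Z : ℕ) : ((box Z ×ˢ box Z).filter fun m => (v₂ : ℤ) * m.1 ^ 2 - v₁ * m.2 ^ 2 = n).card ≤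
      9 * n.natAbs.divisors.card ^ 2 * (Nat.log 2 (Z ^ 2) + 1) ^ 2 := by
  classical
  have hch : ∀ k : ℤ, ∃ z : ℤ × ℤ, ∀ x y : ℤ, IsCoprime x y → (v₂ : ℤ) * x ^ 2 - v₁ * y ^ 2 = k →
      IsCoprime z.1 z.2 ∧ (v₂ : ℤ) * z.1 ^ 2 - v₁ * z.2 ^ 2 = k := fun k => by
    by_cases h : ∃ x y : ℤ, IsCoprime x y ∧ (v₂ : ℤ) * x ^ 2 - v₁ * y ^ 2 = k
    · obtain ⟨x, y, h⟩ := h
      exact ⟨(x, y), fun _ _ _ _ => h⟩
    · exact ⟨0, fun x y h1 h2 => (h ⟨x, y, h1, h2⟩).elim⟩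
  choose z hz using hch
  have dec : ∀ x y : ℤ, (v₂ : ℤ) * x ^ 2 - v₁ * y ^ 2 = n → ∃ x' y' k : ℤ,
      |x| = Int.gcd x y * x' ∧ |y| = Int.gcd x y * y' ∧ n = (Int.gcd x y : ℤ) ^ 2 * k ∧
      |x| / Int.gcd x y = x' ∧ |y| / Int.gcd x y = y' ∧ n / (Int.gcd x y : ℤ) ^ 2 = k ∧
      IsCoprime x' y' ∧ (v₂ : ℤ) * x' ^ 2 - v₁ * y' ^ 2 = k := fun x y h => by
    have g0 : (Int.gcd x y : ℤ) ≠ 0 := fun h0 => hn (by
      obtain ⟨rfl, rfl⟩ := Int.gcd_eq_zero_iff.1 (by exact_mod_cast h0 : Int.gcd x y = 0)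
      simpa using h.symm)
    obtain ⟨x', hx⟩ : (Int.gcd x y : ℤ) ∣ |x| := (dvd_abs _ _).2 (Int.gcd_dvd_left _ _)
    obtain ⟨y', hy⟩ : (Int.gcd x y : ℤ) ∣ |y| := (dvd_abs _ _).2 (Int.gcd_dvd_right _ _)
    have e : n = (Int.gcd x y : ℤ) ^ 2 * (v₂ * x' ^ 2 - v₁ * y' ^ 2) := by
      rw [← h, ← sq_abs x, ← sq_abs y, hx, hy]; ring
    refine ⟨x', y', _, hx, hy, e, Int.ediv_eq_of_eq_mul_right g0 hx,
      Int.ediv_eq_of_eq_mul_right g0 hy, Int.ediv_eq_of_eq_mul_right (pow_ne_zero _ g0) e, ?_, rfl⟩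
    rw [Int.isCoprime_iff_gcd_eq_one]
    have h1 : Int.gcd |x| |y| = Int.gcd x y := by simp [Int.gcd, Int.natAbs_abs]
    rw [hx, hy, Int.gcd_mul_left, Int.natAbs_natCast] at h1
    exact (Nat.mul_eq_left (by exact_mod_cast g0)).1 h1
  let F : ℤ × ℤ → (SignType × SignType) × (ℕ × ℕ) × ℕ × ℕ := fun m =>
    ((SignType.sign m.1, SignType.sign m.2), (Int.gcd m.1 m.2,
      Int.gcd (n / (Int.gcd m.1 m.2 : ℤ) ^ 2)
        (|m.1| / Int.gcd m.1 m.2 * (z (n / (Int.gcd m.1 m.2 : ℤ) ^ 2)).2 -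
          (z (n / (Int.gcd m.1 m.2 : ℤ) ^ 2)).1 * (|m.2| / Int.gcd m.1 m.2))),
      Nat.log 2 (m.1.natAbs ^ 2), Nat.log 2 (m.2.natAbs ^ 2))
  have hb : ∀ x ∈ box Z, Nat.log 2 (x.natAbs ^ 2) ∈ range (Nat.log 2 (Z ^ 2) + 1) := fun x hx => by
    have := mem_Icc.1 hx
    exact mem_range.2 (Nat.lt_succ_of_le (Nat.log_mono_right (Nat.pow_le_pow_left (by omega) 2)))
  refine (card_le_card_of_injOn (t := univ ×ˢ (n.natAbs.divisors ×ˢ n.natAbs.divisors) ×ˢ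
    range (Nat.log 2 (Z ^ 2) + 1) ×ˢ range (Nat.log 2 (Z ^ 2) + 1)) F ?_ ?_).trans ?_
  · intro m hm
    obtain ⟨h1, h2⟩ := mem_filter.1 (mem_coe.1 hm)
    obtain ⟨x', y', k, -, -, e, -, -, e', -⟩ := dec _ _ h2
    have hn' := Int.natAbs_ne_zero.2 hn
    simp only [F, mem_coe, mem_product, mem_univ, true_and, Nat.mem_divisors]
    refine ⟨⟨⟨?_, hn'⟩, ?_, hn'⟩, hb _ (mem_product.1 h1).1, hb _ (mem_product.1 h1).2⟩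
    · exact Int.natCast_dvd.1 ⟨Int.gcd m.1 m.2 * k, by rw [← mul_assoc, ← pow_two]; exact e⟩
    · refine Int.natCast_dvd.1 ((Int.gcd_dvd_left _ _).trans ?_)
      rw [e']
      exact Dvd.intro_left _ e.symm
  · rintro ⟨x₁, y₁⟩ hm₁ ⟨x₂, y₂⟩ hm₂ hF
    have h₁ : (v₂ : ℤ) * x₁ ^ 2 - v₁ * y₁ ^ 2 = n := (mem_filter.1 (mem_coe.1 hm₁)).2
    have h₂ : (v₂ : ℤ) * x₂ ^ 2 - v₁ * y₂ ^ 2 = n := (mem_filter.1 (mem_coe.1 hm₂)).2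
    simp only [F, Prod.mk.injEq] at hF
    obtain ⟨⟨s1, s2⟩, ⟨g1, g2⟩, l1, l2⟩ := hF
    have q₁ : (0 : ℤ) < v₁ := by exact_mod_cast p₁.pos
    have q₂ : (0 : ℤ) < v₂ := by exact_mod_cast p₂.pos
    suffices h : |x₁| = |x₂| ∧ |y₁| = |y₂| by
      rw [← sign_mul_abs x₁, ← sign_mul_abs y₁, ← sign_mul_abs x₂, ← sign_mul_abs y₂, s1, s2, h.1,
        h.2]
    by_cases hx : x₁ = 0
    · have hx2 : x₂ = 0 := by
        rwa [hx, _root_.sign_zero, eq_comm, _root_.sign_eq_zero_iff] at s1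
      subst hx hx2
      exact ⟨rfl, sq_eq_sq_iff_abs_eq_abs _ _ |>.1 (mul_left_cancel₀ q₁.ne' (by linarith))⟩
    by_cases hy : y₁ = 0
    · have hy2 : y₂ = 0 := by
        rwa [hy, _root_.sign_zero, eq_comm, _root_.sign_eq_zero_iff] at s2
      subst hy hy2
      exact ⟨sq_eq_sq_iff_abs_eq_abs _ _ |>.1 (mul_left_cancel₀ q₂.ne' (by linarith)), rfl⟩
    have hx2 : x₂ ≠ 0 := fun h => hx (by
      rwa [h, _root_.sign_zero, _root_.sign_eq_zero_iff] at s1)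
    have hy2 : y₂ ≠ 0 := fun h => hy (by
      rwa [h, _root_.sign_zero, _root_.sign_eq_zero_iff] at s2)
    obtain ⟨a₁, b₁, k₁, e1, e2, e3, e4, e5, e6, c₁, r₁⟩ := dec _ _ h₁
    obtain ⟨a₂, b₂, k₂, f1, f2, f3, f4, f5, f6, c₂, r₂⟩ := dec _ _ h₂
    rw [e4, e5, e6, f4, f5, f6] at g2
    rw [← g1] at f1 f2 f6
    obtain rfl : k₁ = k₂ := e6.symm.trans f6
    obtain ⟨c₀, r₀⟩ := hz k₁ _ _ c₁ r₁
    obtain ⟨c, hc⟩ := key (Nat.prime_iff_prime_int.1 p₁) (Nat.prime_iff_prime_int.1 p₂)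
      (Nat.isCoprime_iff_coprime.2 ((Nat.coprime_primes p₁ p₂).2 hv))
      (right_ne_zero_of_mul (e3 ▸ hn)) c₀ c₁ r₀ r₁ r₂ g2
    refine gap (v₁ := v₁) (v₂ := v₂) q₁ q₂ hn (by rw [sq_abs, sq_abs, h₁])
      (by rw [sq_abs, sq_abs, h₂]) ⟨c, ?_⟩ (abs_pos.2 hx) (abs_pos.2 hx2) (abs_pos.2 hy)
      (abs_pos.2 hy2) (lg2 hx) (l1 ▸ lg2 hx2) (lg2 hy) (l2 ▸ lg2 hy2)
    rw [e1, e2, f1, f2]
    linear_combination (Int.gcd x₁ y₁ : ℤ) ^ 2 * hc - c * e3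
  · simp only [card_product, card_univ, Fintype.card_prod, card_range]
    rw [show Fintype.card SignType = 3 from rfl]
    exact le_of_eq (by ring)

end REP

theorem blk_REP : St_REP := by
  intro ε hε
  obtain ⟨C, hC, h⟩ := mom_tau (ε := ε / 12) (by positivity)
  refine ⟨9 * C ^ 4, by positivity, fun v₁ v₂ Z n p₁ p₂ hv z₁ z₂ => ?_⟩
  have hZ : 2 ≤ Z := p₁.two_le.trans z₁
  have hZ' : (1 : ℝ) ≤ Z := by exact_mod_cast (by omega : 1 ≤ Z)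
  have h1 : (1 : ℝ) ≤ (Z : ℝ) ^ ε := Real.one_le_rpow hZ' hε.le
  have h4 : 1 ≤ C ^ 4 := one_le_pow₀ hC
  rcases eq_or_ne n 0 with rfl | hn
  · refine le_trans (b := 1) ?_ (by nlinarith)
    rw [Nat.cast_le_one, card_le_one_iff_subset_singleton]
    refine ⟨0, fun m hm => mem_singleton.2 ?_⟩
    have e : (v₂ : ℤ) * m.1 ^ 2 = v₁ * m.2 ^ 2 := sub_eq_zero.1 (mem_filter.1 hm).2
    have e1 : v₂ * m.1.natAbs ^ 2 = v₁ * m.2.natAbs ^ 2 := by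
      simpa [Int.natAbs_mul, Int.natAbs_pow] using congrArg Int.natAbs e
    have : Fact v₂.Prime := ⟨p₂⟩
    have : Fact v₁.Prime := ⟨p₁⟩
    have h0 : m.1.natAbs = 0 := by
      by_contra a1
      have a2 : m.2.natAbs ≠ 0 := fun a2 => by
        rw [a2] at e1
        simp [p₂.ne_zero, a1] at e1
      have e2 := congrArg (padicValNat v₂) e1
      rw [padicValNat.mul p₂.ne_zero (pow_ne_zero _ a1), padicValNat.mul p₁.ne_zero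
        (pow_ne_zero _ a2), padicValNat.pow, padicValNat.pow, padicValNat_self,
        padicValNat_primes hv.symm] at e2
      omega
    rw [h0] at e1
    have h2 : m.2.natAbs = 0 := by simpa [p₁.ne_zero] using e1.symm
    exact Prod.ext (Int.natAbs_eq_zero.1 h0) (Int.natAbs_eq_zero.1 h2)
  rcases ((box Z ×ˢ box Z).filter fun m =>
    (v₂ : ℤ) * m.1 ^ 2 - v₁ * m.2 ^ 2 = n).eq_empty_or_nonempty with he | ⟨m, hm⟩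
  · rw [he, card_empty, Nat.cast_zero]; positivity
  obtain ⟨hm1, hm2⟩ := mem_filter.1 hm
  have b1 := mem_Icc.1 (mem_product.1 hm1).1
  have b2 := mem_Icc.1 (mem_product.1 hm1).2
  have hn4 : n.natAbs ≤ Z ^ 4 := by
    have a1 : m.1 ^ 2 ≤ (Z : ℤ) ^ 2 := sq_le_sq' b1.1 b1.2
    have a2 : m.2 ^ 2 ≤ (Z : ℤ) ^ 2 := sq_le_sq' b2.1 b2.2
    have a3 : (v₂ : ℤ) * m.1 ^ 2 ≤ Z * (Z : ℤ) ^ 2 := by gcongr
    have a4 : (v₁ : ℤ) * m.2 ^ 2 ≤ Z * (Z : ℤ) ^ 2 := by gcongr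
    have a5 : (0 : ℤ) ≤ v₂ * m.1 ^ 2 := by positivity
    have a6 : (0 : ℤ) ≤ v₁ * m.2 ^ 2 := by positivity
    have a7 : (Z : ℤ) * (Z : ℤ) ^ 2 ≤ (Z : ℤ) ^ 4 := by
      rw [← pow_succ']
      exact pow_le_pow_right₀ (by omega) (by norm_num)
    zify
    exact abs_le.2 ⟨by linarith, by linarith⟩
  have t1 : (n.natAbs.divisors.card : ℝ) ≤ C * (Z : ℝ) ^ (ε / 3) := by
    refine (h _ (Int.natAbs_ne_zero.2 hn)).trans (mul_le_mul_of_nonneg_left ?_ (by positivity))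
    rw [show ε / 3 = (4 : ℕ) * (ε / 12) by push_cast; ring, Real.rpow_natCast_mul (by positivity)]
    exact Real.rpow_le_rpow (by positivity) (by exact_mod_cast hn4) (by positivity)
  have t2 : ((Nat.log 2 (Z ^ 2) + 1 : ℕ) : ℝ) ≤ C * (Z : ℝ) ^ (ε / 6) := by
    have a1 := h (2 ^ Nat.log 2 (Z ^ 2)) (by positivity)
    rw [Nat.divisors_prime_pow Nat.prime_two, card_map, card_range] at a1
    refine a1.trans (mul_le_mul_of_nonneg_left ?_ (by positivity))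
    rw [show ε / 6 = (2 : ℕ) * (ε / 12) by push_cast; ring, Real.rpow_natCast_mul (by positivity)]
    exact Real.rpow_le_rpow (by positivity)
      (by exact_mod_cast Nat.pow_log_le_self 2 (by positivity)) (by positivity)
  calc _ ≤ ((9 * n.natAbs.divisors.card ^ 2 * (Nat.log 2 (Z ^ 2) + 1) ^ 2 : ℕ) : ℝ) := by
        exact_mod_cast REP.count p₁ p₂ hv hn Z
    _ ≤ 9 * (C * (Z : ℝ) ^ (ε / 3)) ^ 2 * (C * (Z : ℝ) ^ (ε / 6)) ^ 2 := by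
        rw [Nat.cast_mul, Nat.cast_mul, Nat.cast_pow, Nat.cast_pow, Nat.cast_ofNat]
        gcongr
    _ = _ := by
        have e : (Z : ℝ) ^ ε = ((Z : ℝ) ^ (ε / 3)) ^ 2 * ((Z : ℝ) ^ (ε / 6)) ^ 2 := by
          rw [← mul_pow, ← Real.rpow_add (by positivity), ← Real.rpow_natCast,
            ← Real.rpow_mul (by positivity)]
          congr 1
          push_cast
          ring
        rw [e]
        ring

end Pool.Agent.Lib.APQ
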