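import Pool.Agent.Lib.APQ.Kit

/-!
Block SIG: the transform of squares minus model is small near rationals of moderate height.
-/

namespace Pool.Agent.Lib.APQ

open Finset Real Complex Filter Pool.Agent.Lib.PS
open scoped NumberTheorySymbols ArithmeticFunction.Moebius Classical ComplexConjugate

namespace SIG

theorem sh_eq (X P : ℕ) (α : ℝ) : sh X P α = TT X α - Ts X P α := by
  unfold sh TT Ts ft sg
  rw [← sum_sub_distrib]
  exact sum_congr rfl fun y _ => by push_cast; ring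

theorem II_int (X P : ℕ) (α : ℝ) (n : ℤ) : II X P (α + n) = II X P α := by
  unfold II ft
  refine sum_congr rfl fun y _ => ?_
  rw [show (y : ℝ) * (α + n) = y * α + ((y * n : ℤ) : ℝ) by push_cast; ring, ee_add_int]

theorem GG_div (A : ℤ) {r : ℕ} (hr : 1 ≤ r) : ‖GG A 0 r / r‖ ≤ 1 := by
  have h0 : (0 : ℝ) < r := by exact_mod_cast hr
  rw [norm_div, Complex.norm_natCast, div_le_one h0]
  refine (norm_sum_le _ _).trans ?_
  simp [maj_ee_norm]

theorem sqrt_tt (X : ℕ) (η : ℝ) : 1 / (X : ℝ) ≤ √(tt X η) ∧ √(tt X η) ≤ 1 / (X : ℝ) + 2 * |η| := by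
  have h1 : (0 : ℝ) ≤ 1 / (X : ℝ) := by positivity
  have h2 := abs_nonneg η
  have h3 := sq_abs η
  have h4 : tt X η = (1 / (X : ℝ)) ^ 2 + 4 * η ^ 2 := by rw [tt, div_pow, one_pow]
  constructor
  · exact Real.le_sqrt_of_sq_le (by rw [h4]; nlinarith)
  · exact Real.sqrt_le_iff.2 ⟨by positivity, by rw [h4]; nlinarith⟩

theorem pf_le (hTH : St_TH) {X : ℕ} (hX : 1 ≤ X) (η : ℝ) : ‖pf X η‖ ≤ √(X : ℝ) := by
  have h0 : (0 : ℝ) < X := by exact_mod_cast hX
  refine Real.le_sqrt_of_sq_le ?_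
  rw [hTH.1 X η hX]
  have := one_div_le_one_div_of_le (by positivity) (sqrt_tt X η).1
  rwa [one_div_one_div] at this

theorem th0 (hTH : St_TH) {X Q : ℕ} (A : ℤ) (η : ℝ) (hX : 1 ≤ X) (hQ : 1 ≤ Q) (hL : 1 ≤ Lx X)
    (hH : Lx X * HQ X Q η ≤ 1) :
    ‖TT X ((A : ℝ) / Q + η) - GG A 0 Q / Q * pf X η‖ ≤ 16 := by
  have h := hTH.2 X Q 0 A η hX hQ (by simpa using hH)
  have h0 : 0 ≤ HQ X Q η := by unfold HQ; positivity
  have h1 : HQ X Q η ≤ 1 := by nlinarith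
  have h2 : (1 : ℝ) ≤ (X : ℝ) ^ 11 := one_le_pow₀ (by exact_mod_cast hX)
  have h3 : box 0 = {0} := by simp [box]
  rw [h3, sum_singleton] at h
  simp only [ga, Int.cast_zero, ne_eq, OfNat.ofNat_ne_zero, not_false_eq_true, zero_pow, mul_zero,
    zero_div, neg_zero, Real.exp_zero, ofReal_one, mul_one, maj_ee_zero] at h
  rw [show GG A 0 Q / Q * pf X η = pf X η / Q * GG A 0 Q by ring]
  refine h.trans ((div_le_self (by positivity) h2).trans (by nlinarith))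

/-- distinct reduced fractions are far apart modulo one -/
theorem far {r r' b' : ℕ} {b : ℤ} (hr : 1 ≤ r) (hr' : 1 ≤ r') (hb : IsCoprime b (r : ℤ))
    (hb' : Nat.Coprime b' r') (hlt : b' < r') (hne : ¬ (r' = r ∧ b' = (b % r).toNat)) (n : ℤ) :
    1 / ((r : ℝ) * r') ≤ |(b : ℝ) / r - (b' : ℝ) / r' - n| := by
  have p1 : (0 : ℝ) < r := by exact_mod_cast hr
  have p2 : (0 : ℝ) < r' := by exact_mod_cast hr'
  have h0 : b * r' - b' * r - n * r * r' ≠ 0 := fun h => hne (by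
    have d1 : (r : ℤ) ∣ r' := hb.symm.dvd_of_dvd_mul_left ⟨b' + n * r', by linear_combination h⟩
    have d2 : (r' : ℤ) ∣ r := (Nat.isCoprime_iff_coprime.2 hb').symm.dvd_of_dvd_mul_left
      ⟨b - n * r, by linear_combination -h⟩
    have e : r' = r := Nat.dvd_antisymm (by exact_mod_cast d2) (by exact_mod_cast d1)
    subst e
    have h2 : b = b' + r' * n :=
      mul_right_cancel₀ (b := (r' : ℤ)) (by omega) (by linear_combination h)
    refine ⟨rfl, ?_⟩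
    rw [h2, Int.add_mul_emod_self_left, Int.emod_eq_of_lt (by omega) (by omega)]
    rfl)
  have h1 : (1 : ℝ) ≤ |(b : ℝ) * r' - b' * r - n * r * r'| := by
    exact_mod_cast Int.one_le_abs h0
  rw [show (b : ℝ) / r - (b' : ℝ) / r' - n = ((b : ℝ) * r' - b' * r - n * r * r') / (r * r') by
    field_simp, abs_div, abs_of_pos (mul_pos p1 p2)]
  gcongr

theorem split (hGS : St_GS) (hIB : St_IB) (hAF : St_AF) {X P r : ℕ} {b : ℤ} {η : ℝ} (hP : 1 ≤ P)
    (hPM : (P : ℝ) ≤ √(X : ℝ)) (hr : 1 ≤ r) (hb : IsCoprime b (r : ℤ))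
    (h2 : r * |η| * P ≤ 1 / 2) (h3 : 4 * (P : ℝ) ^ 4 * r ≤ √(X : ℝ)) :
    ‖Ts X P ((b : ℝ) / r + η) - (if r ≤ P then GG b 0 r / r * II X P η else 0)‖ ≤ 1 := by
  have p1 : (0 : ℝ) < r := by exact_mod_cast hr
  have pP : (0 : ℝ) < P := by exact_mod_cast hP
  have pM : (0 : ℝ) < √(X : ℝ) := pP.trans_le hPM
  set b0 := (b % r).toNat with hb0
  have e0 : (b0 : ℤ) = b % r := Int.toNat_of_nonneg (Int.emod_nonneg _ (by omega))
  have e1 : b = b0 + r * (b / r) := by rw [e0, Int.emod_add_mul_ediv]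
  have m0 : b0 ∈ (range r).filter (fun c => Nat.Coprime c r) := by
    refine mem_filter.2 ⟨mem_range.2 ?_, Nat.isCoprime_iff_coprime.1 ?_⟩
    · have := Int.emod_lt_of_pos b (show (0 : ℤ) < r by omega); omega
    · rw [e1] at hb; exact hb.of_add_mul_left_left
  set f : ℕ → ℕ → ℂ := fun r' b' =>
    GG b' 0 r' / r' * II X P ((b : ℝ) / r + η - (b' : ℝ) / r') with hf
  have e2 : f r b0 = GG b 0 r / r * II X P η := by
    simp only [hf]
    rw [hGS.2.2.2 b0 b 0 r ⟨-(b / r), by linear_combination -e1⟩, ← II_int X P η (b / r)]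
    congr 2
    have : (b : ℝ) = b0 + r * ((b / r : ℤ) : ℝ) := by exact_mod_cast e1
    field_simp
    linarith
  have e3 : (if r ≤ P then GG b 0 r / r * II X P η else 0) = ∑ r' ∈ Icc 1 P,
      ∑ b' ∈ (range r').filter (fun c => Nat.Coprime c r'),
        if r' = r ∧ b' = b0 then f r' b' else 0 := by
    simp only [ite_and, sum_ite_irrel, sum_const_zero, sum_ite_eq', mem_Icc, hr, true_and, m0,
      if_true, e2]
  rw [hAF.2.2.2.2.2, e3, ← sum_sub_distrib]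
  have key : ∀ r' ∈ Icc 1 P, ‖∑ b' ∈ (range r').filter (fun c => Nat.Coprime c r'), f r' b' -
      ∑ b' ∈ (range r').filter (fun c => Nat.Coprime c r'),
        (if r' = r ∧ b' = b0 then f r' b' else 0)‖ ≤ P * (4 * (P : ℝ) ^ 2 * r / √(X : ℝ)) := by
    intro r' hr'
    obtain ⟨a1, a2⟩ := mem_Icc.1 hr'
    have p2 : (0 : ℝ) < r' := by exact_mod_cast a1
    have p3 : (r' : ℝ) ≤ P := by exact_mod_cast a2
    rw [← sum_sub_distrib]
    refine (norm_sum_le _ _).trans ((sum_le_card_nsmul _ _ (4 * (P : ℝ) ^ 2 * r / √(X : ℝ))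
      fun b' hb' => ?_).trans ?_)
    · obtain ⟨c1, c2⟩ := mem_filter.1 hb'
      split_ifs with hc
      · rw [sub_self, norm_zero]; positivity
      rw [sub_zero, hf, norm_mul]
      have n1 : 1 / (2 * (r : ℝ) * P) ≤ nz ((b : ℝ) / r + η - (b' : ℝ) / r') := by
        refine le_nz fun n => ?_
        have q1 := far hr a1 hb c2 (mem_range.1 c1) hc n
        have q2 : 1 / ((r : ℝ) * P) ≤ 1 / ((r : ℝ) * r') := by gcongr
        have q3 : |η| ≤ 1 / (2 * (r : ℝ) * P) := by rw [le_div_iff₀ (by positivity)]; linarith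
        have q4 := abs_sub_abs_le_abs_sub ((b : ℝ) / r - (b' : ℝ) / r' - n) (-η)
        rw [abs_neg, show (b : ℝ) / r - (b' : ℝ) / r' - n - -η =
          (b : ℝ) / r + η - (b' : ℝ) / r' - n by ring] at q4
        have q5 : 1 / ((r : ℝ) * P) = 2 * (1 / (2 * (r : ℝ) * P)) := by field_simp
        linarith
      have n2 := ((hIB.1 X P hP hPM).2.2.1 ((b : ℝ) / r + η - (b' : ℝ) / r')).2
      have n3 := (mul_le_mul_of_nonneg_left n1 (norm_nonneg _)).trans n2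
      rw [mul_one_div, div_le_iff₀ (by positivity)] at n3
      refine (mul_le_of_le_one_left (norm_nonneg _) (GG_div _ a1)).trans (n3.trans (le_of_eq ?_))
      ring
    · rw [nsmul_eq_mul]
      gcongr
      exact (card_filter_le _ _).trans ((card_range r').le.trans a2)
  refine (norm_sum_le _ _).trans ((sum_le_card_nsmul _ _ _ key).trans ?_)
  rw [Nat.card_Icc, Nat.add_sub_cancel, nsmul_eq_mul, ← mul_div_assoc, ← mul_div_assoc,
    div_le_one pM]
  linarith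

theorem core (hTH : St_TH) (hGS : St_GS) (hIB : St_IB) (hAF : St_AF) {X P r : ℕ} {b : ℤ} {η : ℝ}
    (hX : 1 ≤ X) (hP : 1 ≤ P) (hPM : (P : ℝ) ≤ √(X : ℝ)) (hr : 1 ≤ r) (hb : IsCoprime b (r : ℤ))
    (hL : 1 ≤ Lx X) (hH : Lx X * HQ X r η ≤ 1) (h2 : r * |η| * P ≤ 1 / 2)
    (h3 : 4 * (P : ℝ) ^ 4 * r ≤ √(X : ℝ)) (h4 : 40 * |η| * Lx X * X * P ≤ √(X : ℝ)) :
    ‖sh X P ((b : ℝ) / r + η)‖ ≤ 36 * √(X : ℝ) / √(P : ℝ) := by
  have p1 : (1 : ℝ) ≤ r := by exact_mod_cast hr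
  have pP : (1 : ℝ) ≤ P := by exact_mod_cast hP
  have pM : (0 : ℝ) < √(X : ℝ) := by linarith
  have s1 : (1 : ℝ) ≤ √(P : ℝ) := Real.one_le_sqrt.2 pP
  have s2 : √(P : ℝ) ≤ P := by nlinarith [Real.sq_sqrt (show (0 : ℝ) ≤ P by linarith)]
  have s3 : √(X : ℝ) / P ≤ √(X : ℝ) / √(P : ℝ) := by gcongr
  have s4 : 1 ≤ √(X : ℝ) / P := (one_le_div (by linarith)).2 hPM
  have t1 := th0 hTH b η hX hr hL hH
  have t2 := split hGS hIB hAF hP hPM hr hb h2 h3
  rw [sh_eq, mul_div_assoc]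
  split_ifs at t2 with hc
  · have t3 := th0 hTH (Q := 1) 0 η hX le_rfl hL (le_trans (by
      unfold HQ; gcongr) hH)
    have g1 : GG 0 0 1 = 1 := by simp [GG, maj_ee_zero]
    simp only [g1, Int.cast_zero, Nat.cast_one, zero_add, div_one, one_mul] at t3
    have t4 := (hIB.1 X P hP hPM).2.2.2.1 η
    have t5 : 40 * |η| * Lx X * X ≤ √(X : ℝ) / P := (le_div_iff₀ (by linarith)).2 h4
    have t6 : ‖pf X η - II X P η‖ ≤ 16 + 3 * (√(X : ℝ) / P) := by
      rw [show pf X η - II X P η = -(TT X η - pf X η) - (II X P η - TT X η) by ring]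
      refine (norm_sub_le _ _).trans ?_
      rw [norm_neg]
      rw [mul_div_assoc] at t4
      linarith
    have t7 : ‖GG b 0 r / r * (pf X η - II X P η)‖ ≤ 16 + 3 * (√(X : ℝ) / P) := by
      rw [norm_mul]
      exact (mul_le_of_le_one_left (norm_nonneg _) (GG_div _ hr)).trans t6
    rw [show TT X ((b : ℝ) / r + η) - Ts X P ((b : ℝ) / r + η) =
      (TT X ((b : ℝ) / r + η) - GG b 0 r / r * pf X η) + GG b 0 r / r * (pf X η - II X P η) -
        (Ts X P ((b : ℝ) / r + η) - GG b 0 r / r * II X P η) by ring]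
    refine (norm_sub_le _ _).trans ((add_le_add (norm_add_le _ _) le_rfl).trans ?_)
    linarith
  · have q1 : (P : ℝ) ≤ r := by exact_mod_cast (not_le.1 hc).le
    have t3 : ‖GG b 0 r / r‖ ≤ 2 / √(P : ℝ) := by
      rw [norm_div, Complex.norm_natCast, div_le_div_iff₀ (by linarith) (by linarith)]
      refine (mul_le_mul_of_nonneg_right (hGS.2.2.1 b 0 r hr hb) (by linarith)).trans ?_
      rw [← Real.sqrt_mul (by linarith)]
      exact Real.sqrt_le_iff.2 ⟨by linarith, by nlinarith⟩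
    have t4 : ‖GG b 0 r / r * pf X η‖ ≤ 2 * (√(X : ℝ) / √(P : ℝ)) := by
      rw [norm_mul]
      refine (mul_le_mul t3 (pf_le hTH hX η) (norm_nonneg _) (by positivity)).trans (le_of_eq ?_)
      ring
    rw [sub_zero] at t2
    rw [show TT X ((b : ℝ) / r + η) - Ts X P ((b : ℝ) / r + η) =
      (TT X ((b : ℝ) / r + η) - GG b 0 r / r * pf X η) + GG b 0 r / r * pf X η -
        Ts X P ((b : ℝ) / r + η) by ring]
    refine (norm_sub_le _ _).trans ((add_le_add (norm_add_le _ _) le_rfl).trans ?_)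
    linarith

end SIG

theorem blk_SIG (hTH : St_TH) (hGS : St_GS) (hIB : St_IB) (hAF : St_AF) (_hGT : St_GT) :
    St_SIG := by
  refine ⟨36, by norm_num, fun B => ?_⟩
  filter_upwards [eventually_ge_atTop 1, ev_lg 4, ev_lg_sqrt 1 B,
    ev_pow 3 1 (show (-(1 / 20) : ℝ) < 0 by norm_num),
    ev_pow 2 B (show (-(11 / 20) : ℝ) < 0 by norm_num),
    ev_pow 4 (B * 4) (show (2 / 5 : ℝ) < 1 / 2 by norm_num),
    ev_pow 40 (B + 1) (show (9 / 20 : ℝ) < 1 / 2 by norm_num)]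
    with X hX hl e1 e2 e3 e4 e5 P r b η hP hPB hr hrX hb hη
  have pX : (1 : ℝ) ≤ X := by exact_mod_cast hX
  have p0 : (0 : ℝ) < X := by linarith
  have p1 : (1 : ℝ) ≤ r := by exact_mod_cast hr
  have pP : (0 : ℝ) ≤ P := Nat.cast_nonneg P
  have ha := abs_nonneg η
  obtain ⟨l1, l2⟩ := Lx_bounds hl
  rw [Real.rpow_zero] at e2 e3
  rw [← sqrt_eq] at e4 e5
  refine SIG.core hTH hGS hIB hAF hX hP (by linarith) hr hb (by linarith) ?_ ?_ ?_ ?_
  · have a1 : (X : ℝ) ^ (2 / 5 : ℝ) * (1 / X) * √(X : ℝ) ≤ (X : ℝ) ^ (-(1 / 20) : ℝ) := by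
      rw [sqrt_eq, one_div (X : ℝ), ← Real.rpow_neg_one, ← Real.rpow_add p0, ← Real.rpow_add p0]
      exact Real.rpow_le_rpow_of_exponent_le pX (by norm_num)
    have a2 : (X : ℝ) ^ (-(11 / 20) : ℝ) * √(X : ℝ) = (X : ℝ) ^ (-(1 / 20) : ℝ) := by
      rw [sqrt_eq, ← Real.rpow_add p0]; norm_num
    have a3 : HQ X r η ≤ 3 * (X : ℝ) ^ (-(1 / 20) : ℝ) := by
      calc HQ X r η ≤ r * (1 / (X : ℝ) + 2 * |η|) * √(X : ℝ) := by
            unfold HQ; gcongr; exact (SIG.sqrt_tt X η).2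
        _ = r * (1 / X) * √(X : ℝ) + 2 * (r * |η| * √(X : ℝ)) := by ring
        _ ≤ (X : ℝ) ^ (2 / 5 : ℝ) * (1 / X) * √(X : ℝ) +
            2 * ((X : ℝ) ^ (-(11 / 20) : ℝ) * √(X : ℝ)) := by gcongr
        _ ≤ _ := by rw [a2]; linarith
    calc Lx X * HQ X r η ≤ lg X * (3 * (X : ℝ) ^ (-(1 / 20) : ℝ)) :=
          mul_le_mul l2 a3 (by unfold HQ; positivity) (by linarith)
      _ ≤ 1 := by linarith
  · have : r * |η| * P ≤ (X : ℝ) ^ (-(11 / 20) : ℝ) * lg X ^ B := by gcongr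
    linarith
  · refine le_trans ?_ e4
    rw [pow_mul]
    gcongr
  · refine le_trans ?_ e5
    have a1 : |η| ≤ (X : ℝ) ^ (-(11 / 20) : ℝ) := le_trans (by nlinarith) hη
    have a2 : (X : ℝ) ^ (9 / 20 : ℝ) = (X : ℝ) ^ (-(11 / 20) : ℝ) * X := by
      rw [← Real.rpow_add_one p0.ne']; norm_num
    calc 40 * |η| * Lx X * X * P ≤ 40 * (X : ℝ) ^ (-(11 / 20) : ℝ) * lg X * X * lg X ^ B := by
          gcongr
      _ = _ := by rw [a2]; ring

end Pool.Agent.Lib.APQ
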