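import Pool.Agent.Lib.APQ.Kit

/-!
Sums over well spaced points.
-/

namespace Pool.Agent.Lib.APQ

open Finset Real Complex Filter Pool.Agent.Lib.PS
open scoped NumberTheorySymbols ArithmeticFunction.Moebius Classical ComplexConjugate

namespace SPC

theorem key (q : ℕ) (t : ℝ) (ht : |t| ≤ q) : ∃ p : Bool × ℕ, p.2 ≤ q ∧ (p.2 : ℝ) ≤ |t| ∧
    ⌊t⌋ = if p.1 = true then (p.2 : ℤ) else -(p.2 : ℤ) - 1 := by
  have aux : ∀ j : ℕ, (j : ℝ) ≤ |t| → j ≤ q := fun j h => by exact_mod_cast h.trans ht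
  rcases le_or_gt 0 ⌊t⌋ with h | h
  · obtain ⟨j, hj⟩ := Int.eq_ofNat_of_zero_le h
    have h1 : (j : ℝ) ≤ |t| := by
      have := Int.floor_le t
      rw [hj, Int.cast_natCast] at this
      exact this.trans (le_abs_self t)
    exact ⟨(true, j), aux j h1, h1, by simpa using hj⟩
  · obtain ⟨j, hj⟩ := Int.eq_ofNat_of_zero_le (show 0 ≤ -⌊t⌋ - 1 by omega)
    have hj' : ⌊t⌋ = -(j : ℤ) - 1 := by omega
    have h1 : (j : ℝ) ≤ |t| := by
      have := Int.lt_floor_add_one t
      rw [hj'] at this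
      push_cast at this
      linarith [neg_le_abs t]
    exact ⟨(false, j), aux j h1, h1, by simpa using hj'⟩

end SPC

theorem blk_SPC : St_SPC := by
  intro q c α Y Z F hq hc hY hZ hF
  have hq0 : (0 : ℝ) < q := by exact_mod_cast hq
  set x : ℕ → ℝ := fun i => (c : ℝ) * i / q + α with hx
  have habs : ∀ i, |(q : ℝ) * (x i - round (x i))| = q * nz (x i) := fun i => by
    rw [abs_mul, abs_of_pos hq0]; rfl
  have hle : ∀ i, |(q : ℝ) * (x i - round (x i))| ≤ q := fun i => by
    rw [habs]; nlinarith [nz_le_half (x i)]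
  choose φ h1 h2 h3 using fun i => SPC.key q _ (hle i)
  have hfl : ∀ i : ℕ, ⌊(q : ℝ) * (x i - round (x i))⌋ = ⌊(q : ℝ) * α⌋ + (c * i - q * round (x i)) :=
    fun i => by
      rw [← Int.floor_add_intCast]
      congr 1
      simp only [hx]
      push_cast
      field_simp
      ring
  have hinj : Set.InjOn φ (range q : Finset ℕ) := by
    intro i hi i' hi' e
    have e1 : ⌊(q : ℝ) * (x i - round (x i))⌋ = ⌊(q : ℝ) * (x i' - round (x i'))⌋ := by
      rw [h3 i, h3 i', e]
    rw [hfl, hfl] at e1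
    have e2 : (q : ℤ) ∣ c * ((i : ℤ) - i') := ⟨round (x i) - round (x i'), by linarith⟩
    have e3 : (q : ℤ) ∣ (i : ℤ) - i' := hc.symm.dvd_of_dvd_mul_left e2
    have hi1 : i < q := by simpa using hi
    have hi2 : i' < q := by simpa using hi'
    have := Int.eq_zero_of_abs_lt_dvd e3 (by rw [abs_lt]; constructor <;> omega)
    omega
  set h : ℕ → ℝ := fun j => if j = 0 then Y else Z * q * (j : ℝ)⁻¹ with hh
  have h0 : ∀ j, 0 ≤ h j := fun j => by
    simp only [hh]; split_ifs <;> positivity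
  have hb : ∀ i ∈ range q, F i ≤ h (φ i).2 := fun i hi => by
    obtain ⟨a1, a2⟩ := hF i (mem_range.mp hi)
    simp only [hh]
    split_ifs with hj
    · exact a1
    · have hj0 : (0 : ℝ) < (φ i).2 := by exact_mod_cast Nat.pos_of_ne_zero hj
      have b1 := h2 i
      rw [habs] at b1
      rw [← div_eq_mul_inv, le_div_iff₀ hj0]
      rcases le_total (F i) 0 with b2 | b2
      · nlinarith [mul_nonneg hZ hq0.le]
      · calc F i * (φ i).2 ≤ F i * (q * nz (x i)) := mul_le_mul_of_nonneg_left b1 b2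
          _ = F i * nz (x i) * q := by ring
          _ ≤ Z * q := mul_le_mul_of_nonneg_right a2 hq0.le
  have hs : ∑ j ∈ range (q + 1), h j ≤ Y + Z * q * (1 + Real.log q) := by
    rw [range_eq_Ico, sum_eq_sum_Ico_succ_bot (Nat.succ_pos q)]
    refine add_le_add (by simp [hh]) ?_
    refine le_trans (le_of_eq ?_)
      (mul_le_mul_of_nonneg_left (RankZero.dp_harm1 q) (mul_nonneg hZ hq0.le))
    rw [mul_sum]
    refine sum_congr rfl fun j hj => ?_
    have : j ≠ 0 := by have := (mem_Icc.mp hj).1; omega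
    simp [hh, this]
  calc ∑ i ∈ range q, F i ≤ ∑ i ∈ range q, h (φ i).2 := sum_le_sum hb
    _ = ∑ p ∈ (range q).image φ, h p.2 := (sum_image (f := fun p : Bool × ℕ => h p.2) hinj).symm
    _ ≤ ∑ p ∈ (univ : Finset Bool) ×ˢ range (q + 1), h p.2 := by
        refine sum_le_sum_of_subset_of_nonneg (fun p hp => ?_) fun p _ _ => h0 _
        obtain ⟨i, -, rfl⟩ := mem_image.mp hp
        exact mem_product.mpr ⟨mem_univ _, mem_range.mpr (Nat.lt_succ_of_le (h1 i))⟩
    _ = 2 * ∑ j ∈ range (q + 1), h j := by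
        rw [sum_product]
        simp [two_mul]
    _ ≤ 2 * Y + 2 * Z * q * (1 + Real.log q) := by linarith

end Pool.Agent.Lib.APQ
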