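import Pool.Agent.Lib.APQ.Kit

/-!
The contribution of the numbers divisible by the square of a prime of the middle range.
-/

namespace Pool.Agent.Lib.APQ

open Finset Real Complex Filter Pool.Agent.Lib.PS
open scoped NumberTheorySymbols ArithmeticFunction.Moebius Classical ComplexConjugate

namespace SQ

theorem cls (hABEL : St_ABEL) {φ : ℤ → ℝ} {Φ S : ℝ} (h : Uni φ Φ)
    (hS : ∀ T : Finset ℤ, ∑ t ∈ T, φ t ≤ S) (a b c : ℤ) {d : ℕ} (hd : 1 ≤ d) :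
    (∑ t ∈ Ico a b, if (d : ℤ) ∣ t - c then φ t else 0) ≤ S / d + 2 * Φ := by
  have h1 := (abs_le.1 (hABEL.2.2.2.1 φ Φ a b c d h hd)).2
  have h2 : (∑ t ∈ Ico a b, φ t) / d ≤ S / d :=
    div_le_div_of_nonneg_right (hS _) (Nat.cast_nonneg d)
  linarith

theorem inv_sq {y : ℝ} (hy : 1 ≤ y) (z : ℝ) : ∑ p ∈ pr y z, 1 / (p : ℝ) ^ 2 ≤ 2 / y := by
  have h1 : 1 ≤ ⌊y⌋₊ := Nat.le_floor (by exact_mod_cast hy)
  have h2 : (1 : ℝ) ≤ ⌊y⌋₊ := by exact_mod_cast h1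
  have h3 := Nat.lt_floor_add_one y
  refine ((sum_le_sum_of_subset_of_nonneg (filter_subset _ _) fun _ _ _ => by positivity).trans
    (sum_inv_sq h1 ⌊z⌋₊)).trans ?_
  rw [div_le_div_iff₀ (by linarith) (by linarith)]
  linarith

theorem omega_le {n : ℕ} (hn : 0 < n) (S : Finset ℕ) (hS : ∀ p ∈ S, p.Prime) :
    ((S.filter (· ∣ n)).card : ℝ) ≤ 3 / 2 * Real.log n := by
  have h1 : (S.filter (· ∣ n)).card ≤ n.primeFactors.card := card_le_card fun p hp =>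
    Nat.mem_primeFactors.2 ⟨hS p (mem_filter.1 hp).1, (mem_filter.1 hp).2, hn.ne'⟩
  have h2 : 2 ^ n.primeFactors.card ≤ n :=
    (pow_card_le_prod _ _ _ fun p hp => (Nat.prime_of_mem_primeFactors hp).two_le).trans
      (Nat.le_of_dvd hn (Nat.prod_primeFactors_dvd n))
  have h3 : (2 : ℝ) ^ (S.filter (· ∣ n)).card ≤ n := by
    exact_mod_cast (Nat.pow_le_pow_right two_pos h1).trans h2
  have h4 := Real.log_le_log (by positivity) h3
  rw [Real.log_pow] at h4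
  have h5 := Real.log_two_gt_d9
  have h6 : (0 : ℝ) ≤ (S.filter (· ∣ n)).card := Nat.cast_nonneg _
  nlinarith

theorem roots {p : ℕ} (hp : p.Prime) (h2 : 2 < p) {n : ℤ} (hn : ¬ (p : ℤ) ∣ n) :
    ∃ c : ℤ, ∀ m : ℤ, (p : ℤ) ^ 2 ∣ n - m ^ 2 → (p : ℤ) ^ 2 ∣ m - c ∨ (p : ℤ) ^ 2 ∣ m - -c := by
  by_cases h : ∃ c : ℤ, (p : ℤ) ^ 2 ∣ n - c ^ 2
  swap
  · exact ⟨0, fun m hm => (h ⟨m, hm⟩).elim⟩
  obtain ⟨c, hc⟩ := h
  have hq : Prime (p : ℤ) := Nat.prime_iff_prime_int.1 hp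
  refine ⟨c, fun m hm => ?_⟩
  have h1 : (p : ℤ) ^ 2 ∣ (m - c) * (m - -c) := by
    have := dvd_sub hc hm
    rwa [show n - c ^ 2 - (n - m ^ 2) = (m - c) * (m - -c) by ring] at this
  by_cases h3 : (p : ℤ) ∣ m - c
  · refine Or.inl (hq.pow_dvd_of_dvd_mul_right 2 (fun h4 => hn ?_) h1)
    have h5 : (p : ℤ) ∣ 2 * c := by
      have := dvd_sub h4 h3
      rwa [show m - -c - (m - c) = 2 * c by ring] at this
    rcases hq.dvd_or_dvd h5 with h6 | h6
    · have := Int.le_of_dvd two_pos h6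
      omega
    · have := dvd_add ((dvd_pow_self _ two_ne_zero).trans hc) (dvd_pow h6 two_ne_zero)
      rwa [sub_add_cancel] at this
  · exact Or.inr (hq.pow_dvd_of_dvd_mul_left 2 h3 h1)

/-- the squares in one class modulo the square of a prime -/
theorem one (hGT : St_GT) (hABEL : St_ABEL) {X p n : ℕ} (hX : 1 ≤ X) (hp : p.Prime) (h2 : 2 < p)
    {y : ℝ} (hy : 0 < y) (hyp : y < p) :
    (∑ m ∈ box (M3 X), if (p : ℤ) ^ 2 ∣ (n : ℤ) - m ^ 2 then w X m else 0) ≤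
      4 * √(X : ℝ) * (1 / (p : ℝ) ^ 2) + 4 + if p ∣ n then 2 * √(X : ℝ) / y else 0 := by
  have hc := fun (c : ℤ) (d : ℕ) (hd : 1 ≤ d) =>
    cls hABEL (hGT.2.2.1 X) (fun T => hGT.2.2.2.1 X T hX) (-(M3 X : ℤ)) (M3 X + 1) c hd
  have hw := fun m => (w_pos X m).le
  rw [box_eq]
  split_ifs with h
  · have h3 : 2 * √(X : ℝ) / p ≤ 2 * √(X : ℝ) / y :=
      div_le_div_of_nonneg_left (by positivity) hy hyp.le
    have h4 : 0 ≤ 4 * √(X : ℝ) * (1 / (p : ℝ) ^ 2) := by positivity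
    refine (sum_le_sum fun m _ => ?_).trans ((hc 0 p hp.pos).trans (by linarith))
    split_ifs with h5 h6
    · exact le_rfl
    · refine (h6 ?_).elim
      have h7 := dvd_sub (Int.natCast_dvd_natCast.2 h) ((dvd_pow_self _ two_ne_zero).trans h5)
      rw [sub_sub_cancel] at h7
      rw [sub_zero]
      exact (Nat.prime_iff_prime_int.1 hp).dvd_of_dvd_pow h7
    · exact hw m
    · exact le_rfl
  · obtain ⟨c, h3⟩ := roots hp h2 (n := n) fun h3 => h (Int.natCast_dvd_natCast.1 h3)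
    have h4 := add_le_add (hc c (p ^ 2) (Nat.pow_pos hp.pos)) (hc (-c) (p ^ 2) (Nat.pow_pos hp.pos))
    rw [← sum_add_distrib] at h4
    push_cast at h4
    refine (sum_le_sum fun m _ => ?_).trans (h4.trans (le_of_eq (by ring)))
    have h5 := hw m
    have h6 := h3 m
    split_ifs <;> first | linarith | tauto

theorem AA_le (hGT : St_GT) (X n : ℕ) (d : ℝ) : AA X n (Fq X d) ≤ ∑ p ∈ pr ((X : ℝ) ^ d) (zz X),
    ∑ m ∈ box (M3 X), if (p : ℤ) ^ 2 ∣ (n : ℤ) - m ^ 2 then w X m else 0 := by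
  rw [hGT.2.2.2.2.2.2.2.1, sum_comm]
  refine sum_le_sum fun m _ => ?_
  split_ifs with h
  · rw [Fq, mul_sum]
    refine le_of_eq (sum_congr rfl fun p _ => ?_)
    rw [mul_ite, mul_one, mul_zero]
    refine if_congr ?_ rfl rfl
    rw [← Int.natCast_dvd_natCast, Int.toNat_of_nonneg (by omega), Nat.cast_pow]
  · exact sum_nonneg fun p _ => ite_nonneg (w_pos X m).le le_rfl

theorem BB_eq (X P n : ℕ) (d : ℝ) : BB X P n (Fq X d) = ∑ p ∈ pr ((X : ℝ) ^ d) (zz X),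
    ∑ t ∈ Ico (0 : ℤ) n, if ((p ^ 2 : ℕ) : ℤ) ∣ t - n then s0 X P t else 0 := by
  rw [BB, sum_comm]
  refine sum_nbij' (fun x => (n : ℤ) - x) (fun t => ((n : ℤ) - t).toNat) ?_ ?_ ?_ ?_ ?_
  · intro x hx; simp only [mem_Icc, mem_Ico] at hx ⊢; omega
  · intro x hx; simp only [mem_Icc, mem_Ico] at hx ⊢; omega
  · intro x hx; simp only [mem_Icc] at hx ⊢; omega
  · intro x hx; simp only [mem_Ico] at hx ⊢; omega
  · intro x _
    rw [Fq, mul_sum]
    refine sum_congr rfl fun p _ => ?_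
    rw [mul_ite, mul_one, mul_zero]
    refine if_congr ?_ rfl rfl
    rw [sub_sub_cancel_left, dvd_neg, Int.natCast_dvd_natCast]

end SQ

open SQ

theorem blk_SQ (hGT : St_GT) (hIB : St_IB) (hABEL : St_ABEL) (_hAG : St_AG) : St_SQ := by
  intro d hd hd'
  filter_upwards [ev_rpow 2 hd, ev_lg 1, eventually_ge_atTop 2,
    ev_pow 28 1 (show 1 / 2 - d < 1 / 2 - d / 2 by linarith),
    ev_pow 8 0 (show (6 / 25 : ℝ) < 1 / 2 - d / 2 by linarith)] with X h1 h2 h3 h4 h5 P n hP hP' hn hn'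
  have hX : (0 : ℝ) < X := by positivity
  have hM : 0 < √(X : ℝ) := Real.sqrt_pos.2 hX
  have hy : (0 : ℝ) < (X : ℝ) ^ d := by positivity
  have e1 : (X : ℝ) ^ (1 / 2 - d) = √(X : ℝ) / (X : ℝ) ^ d := by rw [Real.rpow_sub hX, sqrt_eq]
  rw [e1, pow_one] at h4
  rw [pow_zero, mul_one] at h5
  have hz : ((pr ((X : ℝ) ^ d) (zz X)).card : ℝ) ≤ (X : ℝ) ^ (6 / 25 : ℝ) :=
    card_pr_le (z := zz X) (by unfold zz; positivity)
  have hs := inv_sq (y := (X : ℝ) ^ d) (by linarith) (zz X)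
  have hu : 0 < √(X : ℝ) / (X : ℝ) ^ d := by positivity
  have hs' : √(X : ℝ) * ∑ p ∈ pr ((X : ℝ) ^ d) (zz X), 1 / (p : ℝ) ^ 2 ≤
      2 * (√(X : ℝ) / (X : ℝ) ^ d) := (mul_le_mul_of_nonneg_left hs hM.le).trans_eq (by ring)
  have hl : √(X : ℝ) / (X : ℝ) ^ d ≤ lg X * (√(X : ℝ) / (X : ℝ) ^ d) := le_mul_of_one_le_left hu.le h2
  constructor
  · refine (AA_le hGT X n d).trans ((sum_le_sum fun p hp => one hGT hABEL (by omega)
      ((mem_pr hy.le).1 hp).1 (by exact_mod_cast h1.trans_lt ((mem_pr hy.le).1 hp).2.1) hy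
      ((mem_pr hy.le).1 hp).2.1).trans ?_)
    have ho := omega_le (n := n) (by omega) _ fun p hp => ((mem_pr (z := zz X) hy.le).1 hp).1
    have hn2 : Real.log n ≤ 2 * lg X := by
      have : (n : ℝ) ≤ (X : ℝ) ^ 2 := by exact_mod_cast hn'.trans (by nlinarith)
      have h6 := Real.log_le_log (by exact_mod_cast (by omega : 0 < n)) this
      rwa [Real.log_pow] at h6
    rw [sum_add_distrib, sum_add_distrib, ← mul_sum, ← sum_filter, sum_const, sum_const,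
      nsmul_eq_mul, nsmul_eq_mul, mul_div_assoc]
    have h7 := mul_le_mul_of_nonneg_right (ho.trans (by linarith : _ ≤ 3 * lg X)) hu.le
    linarith
  · obtain ⟨i1, i2, -⟩ := hIB.1 X P hP hP'
    have h6 : 2 * P / √(X : ℝ) ≤ 2 := by rw [div_le_iff₀ hM]; linarith
    rw [BB_eq]
    refine (sum_le_sum (g := fun p : ℕ => 2 * (√(X : ℝ) * (1 / (p : ℝ) ^ 2)) + 4) fun p hp =>
      (cls hABEL i1 i2 0 n n (Nat.pow_pos ((mem_pr hy.le).1 hp).1.pos)).trans ?_).trans ?_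
    · push_cast
      have : 2 * √(X : ℝ) / (p : ℝ) ^ 2 = 2 * (√(X : ℝ) * (1 / (p : ℝ) ^ 2)) := by ring
      linarith
    · rw [sum_add_distrib, ← mul_sum, ← mul_sum, sum_const, nsmul_eq_mul]
      linarith

end Pool.Agent.Lib.APQ
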