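import Pool.Agent.Lib.APQ.Kit

/-!
The type one comparison.
-/

namespace Pool.Agent.Lib.APQ

open Finset Real Complex Filter Pool.Agent.Lib.PS
open scoped NumberTheorySymbols ArithmeticFunction.Moebius Classical ComplexConjugate

namespace T1

theorem sum_err (T : Finset ℕ) (A r : ℕ → ℝ) {c ε R y s : ℝ} (hc : 0 ≤ c) (hε : 0 ≤ ε)
    (hR : 0 ≤ R) (hy : (T.card : ℝ) ≤ y) (hs : ∑ p ∈ T, r p ≤ s)
    (h : ∀ p ∈ T, |A p - c * r p| ≤ ε * (c * r p) + R) :
    |∑ p ∈ T, A p - c * ∑ p ∈ T, r p| ≤ ε * c * s + y * R := by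
  rw [mul_sum, ← sum_sub_distrib]
  refine (abs_sum_le_sum_abs _ _).trans ((sum_le_sum h).trans ?_)
  rw [sum_add_distrib, ← mul_sum, ← mul_sum, sum_const, nsmul_eq_mul, ← mul_assoc]
  gcongr

theorem core {A1 B1 SA SB si sj W1 W0 V Q M D ε R y : ℝ} (hV : 0 ≤ V) (hQ : 0 ≤ Q) (hε : 0 ≤ ε)
    (hR : 0 ≤ R) (hy : 0 ≤ y) (a0 : 0 ≤ W1) (a1 : W1 ≤ 2 * M) (b1 : W0 ≤ 2 * M)
    (hD : |W1 - W0| ≤ D) (s0 : 0 ≤ si) (s2 : si ≤ 2)
    (h1 : |A1 - W1 * (V * Q)| ≤ ε * (W1 * (V * Q)) + R)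
    (h2 : |SA - W1 * (V * Q) * (si + sj)| ≤ ε * (W1 * (V * Q)) * 4 + y * R)
    (h3 : |B1 - W0 * V| ≤ ε * (W0 * V) + 2 * R)
    (h4 : |SB - W0 * V * si| ≤ ε * (W0 * V) * 2 + y * (2 * R)) :
    |A1 - SA - Q * (B1 - SB)| ≤
      V * Q * (D + 2 * M * |sj| + 16 * ε * M) + (1 + Q) * (2 * R * (1 + y)) := by
  have hU : 0 ≤ V * Q := mul_nonneg hV hQ
  have k1 : |(W1 - W0) * (1 - si)| ≤ D := by
    rw [abs_mul]
    have : |1 - si| ≤ 1 := abs_le.2 ⟨by linarith, by linarith⟩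
    nlinarith [abs_nonneg (W1 - W0), abs_nonneg (1 - si)]
  have k2 : |W1 * sj| ≤ 2 * M * |sj| := by
    rw [abs_mul, abs_of_nonneg a0]
    gcongr
  have k3 := mul_le_mul_of_nonneg_left (abs_le.1 k1).1 hU
  have k4 := mul_le_mul_of_nonneg_left (abs_le.1 k1).2 hU
  have k5 := mul_le_mul_of_nonneg_left (abs_le.1 k2).1 hU
  have k6 := mul_le_mul_of_nonneg_left (abs_le.1 k2).2 hU
  have l1 := mul_le_mul_of_nonneg_left (abs_le.1 h3).1 hQ
  have l2 := mul_le_mul_of_nonneg_left (abs_le.1 h3).2 hQ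
  have l3 := mul_le_mul_of_nonneg_left (abs_le.1 h4).1 hQ
  have l4 := mul_le_mul_of_nonneg_left (abs_le.1 h4).2 hQ
  have m1 := mul_le_mul_of_nonneg_left a1 (mul_nonneg hε hU)
  have m2 := mul_le_mul_of_nonneg_left b1 (mul_nonneg hε hU)
  have m3 := mul_nonneg hy hR
  obtain ⟨n1, n2⟩ := abs_le.1 h1
  obtain ⟨n3, n4⟩ := abs_le.1 h2
  rw [abs_le]
  constructor <;> linarith

/-- sifted multiples of `p` -/
noncomputable def G (z : ℝ) (p x : ℕ) : ℝ := if p ∣ x ∧ ∀ l ∈ pr 0 z, ¬ l ∣ x then 1 else 0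

theorem Rz_eq (z : ℝ) : Rz z = G z 1 := by
  funext x
  simp [Rz, G]

theorem F1_eq (X : ℕ) (d t : ℝ) : F1 X d t = fun x => G ((X : ℝ) ^ d) 1 x -
    ∑ p ∈ pr (zz X) ((X : ℝ) ^ (1 / 2 - t)), G ((X : ℝ) ^ d) p x := by
  funext x
  rw [F1, gf, om, mul_sub, mul_one, mul_sum, ← Rz_eq]
  congr 1
  refine sum_congr rfl fun p _ => ?_
  by_cases h : ∀ l ∈ pr 0 ((X : ℝ) ^ d), ¬ l ∣ x
  · rw [Rz, if_pos h, one_mul, G]
    exact if_congr ⟨fun k => ⟨k, h⟩, fun k => k.1⟩ rfl rfl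
  · rw [Rz, if_neg h, zero_mul, G, if_neg fun k => h k.2]

theorem AA_lin (X n : ℕ) (T : Finset ℕ) (f : ℕ → ℝ) (g : ℕ → ℕ → ℝ) :
    AA X n (fun x => f x - ∑ p ∈ T, g p x) = AA X n f - ∑ p ∈ T, AA X n (g p) := by
  simp only [AA, mul_sub, sum_sub_distrib, mul_sum]
  rw [sum_comm]

theorem BB_lin (X P n : ℕ) (T : Finset ℕ) (f : ℕ → ℝ) (g : ℕ → ℕ → ℝ) :
    BB X P n (fun x => f x - ∑ p ∈ T, g p x) = BB X P n f - ∑ p ∈ T, BB X P n (g p) := by
  simp only [BB, mul_sub, sum_sub_distrib, mul_sum]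
  rw [sum_comm]

/-- the integers with square below `n` -/
noncomputable def IS (n : ℕ) : Finset ℤ := Ico (-(Nat.sqrt (n - 1) : ℤ)) (Nat.sqrt (n - 1) + 1)

theorem mem_I {n : ℕ} (hn : 1 ≤ n) {m : ℤ} : m ∈ IS n ↔ m ^ 2 < n := by
  have h := Nat.le_sqrt' (m := m.natAbs) (n := n - 1)
  have e : ((m.natAbs ^ 2 : ℕ) : ℤ) = m ^ 2 := by push_cast; exact sq_abs m
  rw [IS, mem_Ico]
  omega

theorem AA_eq (hGT : St_GT) {X n : ℕ} (hl : 4 ≤ lg X) (hn : 1 ≤ n) (h2 : n ≤ 2 * X) (f : ℕ → ℝ) :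
    AA X n f = ∑ m ∈ IS n, w X m * f ((n : ℤ) - m ^ 2).toNat := by
  rw [hGT.2.2.2.2.2.2.2.1, ← sum_filter]
  refine sum_congr ?_ fun _ _ => rfl
  ext m
  rw [mem_filter, mem_I hn, mem_box, and_iff_right_iff_imp]
  intro h
  have h3 : (m : ℝ) ^ 2 < n := by exact_mod_cast h
  have h4 : (n : ℝ) ≤ 2 * X := by exact_mod_cast h2
  have h5 := (M3_bounds hl).1
  have h6 : √(X : ℝ) ^ 2 = X := Real.sq_sqrt (by positivity)
  have h7 : |(m : ℝ)| ≤ M3 X := abs_le_of_sq_le_sq' (by nlinarith [Real.sqrt_nonneg (X : ℝ)])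
    (by positivity) |> abs_le.2
  exact_mod_cast h7

theorem BB_eq (X P n : ℕ) (f : ℕ → ℝ) :
    BB X P n f = ∑ x ∈ Ico (1 : ℤ) (n + 1), s0 X P (n + -1 * x) * f x.toNat := by
  refine sum_nbij' (fun x => (x : ℤ)) Int.toNat (fun x hx => ?_) (fun x hx => ?_) (fun x _ => rfl)
    (fun x hx => ?_) fun x _ => ?_
  · simp only [mem_Icc, mem_Ico] at hx ⊢; omega
  · simp only [mem_Icc, mem_Ico] at hx ⊢; omega
  · simp only [mem_Ico] at hx; omega
  · rw [Int.toNat_natCast, neg_one_mul, ← sub_eq_add_neg]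

theorem G_eq (z c : ℝ) (p : ℕ) {x : ℤ} (hx : 0 ≤ x) : c * G z p x.toNat =
    if (p : ℤ) ∣ x ∧ ∀ l ∈ pr 0 z, ¬ (l : ℤ) ∣ x then c else 0 := by
  obtain ⟨x, rfl⟩ := Int.eq_ofNat_of_zero_le hx
  simp only [G, Int.toNat_natCast, Int.natCast_dvd_natCast, mul_ite, mul_one, mul_zero]

end T1

open T1 in
theorem blk_T1 (hFLC : St_FLC) (hGT : St_GT) (hIB : St_IB) (hAG : St_AG) (hABEL : St_ABEL) :
    St_T1 := by
  obtain ⟨CF, hCF, hF⟩ := hFLC
  obtain ⟨g1, g2, -, g4, g5, -, -, g8, CV, hCV, g9⟩ := hAG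
  refine ⟨16 * CF * (CV + 1), by nlinarith, fun k d t hk hd hdt ht => ?_⟩
  have hk' : CF ≤ 2 ^ k := by nlinarith
  have hk0 : (0 : ℝ) ≤ k * d := by positivity
  have hd1 : d ≤ 1 / 140 := by nlinarith
  filter_upwards [ev_lg 200, ev_rpow 2 hd, ev_rpow 2 (show (0 : ℝ) < 6 / 25 by norm_num),
    ev_pow (32 * d) 1 (show (1 / 10 : ℝ) < 1 / 2 by norm_num),
    ev_pow 64 0 (show 1 / 2 - d < 1 / 2 - d / 2 by linarith), eventually_ge_atTop 2]
    with X hl hz0 hz e1 e2 hX P n hP hPM hn hn2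
  have X1 : (1 : ℝ) < X := by exact_mod_cast hX
  have X0 : (0 : ℝ) < X := by linarith
  have P0 : (0 : ℝ) < P := by exact_mod_cast hP
  set M := √(X : ℝ) with hM
  have M0 : 0 < M := Real.sqrt_pos.2 X0
  set z0 := (X : ℝ) ^ d with hz0d
  set y := (X : ℝ) ^ (1 / 2 - t) with hyd
  set T := pr (zz X) y with hT
  set ε := CF / 2 ^ k with hε
  set R := 16 * z0 ^ (8 * k + 13) with hR
  have ε0 : 0 ≤ ε := by positivity
  have ε1 : ε ≤ 1 := (div_le_one (by positivity)).2 hk'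
  have R0 : 0 ≤ R := by positivity
  have y1 : 1 ≤ y := Real.one_le_rpow X1.le (by linarith)
  have hzz : 2 ≤ zz X := hz
  have hz0z : z0 ≤ zz X := Real.rpow_le_rpow_of_exponent_le X1.le (by linarith)
  have hmem : ∀ p ∈ T, p.Prime ∧ z0 < p ∧ p ≠ 2 := fun p hp => by
    have := (mem_pr (by linarith)).1 hp
    refine ⟨this.1, hz0z.trans_lt this.2.1, fun e => ?_⟩
    rw [e] at this
    have h2 := this.2.1
    push_cast at h2
    linarith
  have hcard : (T.card : ℝ) ≤ y := card_pr_le (by linarith)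
  have l0 : 0 < lg X := by linarith
  have hsi : ∑ p ∈ T, (1 : ℝ) / p ≤ 2 := by
    refine (sum_pr_le hzz (Real.rpow_le_rpow_of_exponent_le X1.le (by linarith))).trans ?_
    have a1 : Real.log (zz X) = 6 / 25 * lg X := Real.log_rpow X0 _
    have a2 : Real.log y = (1 / 2 - t) * lg X := Real.log_rpow X0 _
    have a3 : (1 / 2 - t) * lg X / (6 / 25 * lg X) = (1 / 2 - t) * (25 / 6) := by field_simp
    have a4 := Real.log_le_sub_one_of_pos (show 0 < (1 / 2 - t) * (25 / 6) by linarith)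
    have a5 : 22 / (6 / 25 * lg X) ≤ 1 / 2 := by
      rw [div_le_iff₀ (by positivity)]; linarith
    rw [a1, a2, a3]
    linarith
  obtain ⟨i1, i2, -, -, i5⟩ := hIB.1 X P hP hPM
  have hΦ : 2 * P / M ≤ 2 := by rw [div_le_iff₀ M0]; linarith
  obtain ⟨Q0, hprod⟩ := g8 n z0
  obtain ⟨V0, V1⟩ := g9 z0 hz0
  rw [show Real.log z0 = d * lg X from Real.log_rpow X0 _] at V1
  set V := Vz z0
  set Q := Pn n z0
  have n1 : 1 ≤ n := by omega
  set W1 := ∑ m ∈ IS n, w X m with hW1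
  set W0 := ∑ x ∈ Ico (1 : ℤ) (n + 1), s0 X P (n + -1 * x) with hW0
  have hA : ∀ p : ℕ, (p = 1 ∨ p ∈ T) → |AA X n (G z0 p) - W1 * (V * Q) * ((rho p n : ℝ) / p)| ≤
      ε * (W1 * (V * Q) * ((rho p n : ℝ) / p)) + R := fun p hp => by
    have := hF k hk' (w X) 1 z0 (-(Nat.sqrt (n - 1) : ℤ)) (Nat.sqrt (n - 1) + 1)
      (fun m => n - m ^ 2) p (hGT.2.2.1 X) hz0 (fun m m' => ⟨-(m + m'), by ring⟩)
      (fun l hl => by rw [g4]; exact g2 l n ((mem_pr le_rfl).1 hl).1)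
      (hp.imp_right fun h => ⟨(hmem p h).1, (hmem p h).2.1⟩) (by
        rcases hp with rfl | h
        · exact (card_filter_le _ _).trans (by simp)
        · rw [g4]; exact (g2 p n (hmem p h).1).1)
    simp only [g4, hprod] at this
    rw [AA_eq hGT (by linarith) n1 hn2, sum_congr rfl fun m hm =>
      G_eq z0 (w X m) p (sub_nonneg.2 ((mem_I n1).1 hm).le), mul_right_comm W1]
    rw [mul_one] at this
    exact this
  have hB : ∀ p : ℕ, (p = 1 ∨ p ∈ T) → |BB X P n (G z0 p) - W0 * V * ((1 : ℝ) / p)| ≤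
      ε * (W0 * V * ((1 : ℝ) / p)) + 2 * R := fun p hp => by
    have p1 : 1 ≤ p := by
      rcases hp with rfl | h
      · exact le_rfl
      · exact (hmem p h).1.one_le
    have := hF k hk' _ _ z0 1 (n + 1) (fun m => m) p (hABEL.2.2.2.2.2.1 _ _ n (-1) i1) hz0
      (fun m m' => dvd_rfl) (fun l hl => by
        have := ((mem_pr le_rfl).1 hl).1.two_le
        rw [g5 l (by omega)]; omega)
      (hp.imp_right fun h => ⟨(hmem p h).1, (hmem p h).2.1⟩) (by rw [g5 p p1]; omega)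
    rw [g5 p p1, prod_congr rfl fun l hl => by rw [g5 l ((mem_pr le_rfl).1 hl).1.one_le],
      Nat.cast_one] at this
    rw [BB_eq, sum_congr rfl fun m hm => G_eq z0 _ p (by have := (mem_Ico.1 hm).1; omega),
      mul_right_comm W0]
    refine this.trans (add_le_add le_rfl ?_)
    have : 0 ≤ z0 ^ (8 * k + 13) := by positivity
    linarith [mul_le_mul_of_nonneg_right hΦ this]
  have a0 : 0 ≤ W1 := sum_nonneg fun m _ => (w_pos X m).le
  have a1 : W1 ≤ 2 * M := hGT.2.2.2.1 X _ (by omega)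
  have b0 : 0 ≤ W0 := sum_nonneg fun m _ => (i1.1 _).1
  have b1 : W0 ≤ 2 * M := by
    refine le_trans (le_of_eq ?_) (i2 ((Ico (1 : ℤ) (n + 1)).image fun x => (n : ℤ) + -1 * x))
    rw [sum_image fun a _ b _ h => by simpa using h]
  have hD : |W1 - W0| ≤ 5 * M / P := by
    have h := i5 n
    rw [AA_eq hGT (by linarith) n1 hn2, BB_eq] at h
    simp only [mul_one] at h
    have : 1 ≤ M / P := (one_le_div P0).2 hPM
    rw [mul_div_assoc] at h ⊢
    linarith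
  have A1 := hA 1 (Or.inl rfl)
  have B1 := hB 1 (Or.inl rfl)
  have r1 : rho 1 n = 1 := by rw [← g4]; simp [rt]
  simp only [r1, Nat.cast_one, div_one, mul_one] at A1 B1
  have hRe : R = 16 * (X : ℝ) ^ (d * (8 * k + 13)) := by
    rw [hR, hz0d, ← Real.rpow_natCast, ← Real.rpow_mul X0.le]; push_cast; rfl
  have dl : 0 < d * lg X := by positivity
  have MV : M * V ≤ CV * (M / (d * lg X)) := by
    rw [mul_div_left_comm]; gcongr
  have Md : 0 ≤ M / (d * lg X) := by positivity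
  constructor
  · have h1 : 2 * R ≤ M / (d * lg X) := by
      have : (X : ℝ) ^ (d * (8 * k + 13)) ≤ (X : ℝ) ^ (1 / 10 : ℝ) :=
        Real.rpow_le_rpow_of_exponent_le X1.le (by linarith)
      rw [le_div_iff₀ dl, hRe, hM, sqrt_eq]
      refine le_trans ?_ e1
      rw [pow_one]
      linarith [mul_le_mul_of_nonneg_right this dl.le]
    have h2 := mul_le_mul_of_nonneg_right b1 V0
    have h3 := mul_le_mul_of_nonneg_right ε1 (mul_nonneg b0 V0)
    have h4 : (4 * CV + 1) * (M / (d * lg X)) ≤ 16 * CF * (CV + 1) * (M / (d * lg X)) :=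
      mul_le_mul_of_nonneg_right (by
        linarith [mul_le_mul_of_nonneg_right hCF (show 0 ≤ CV + 1 by linarith)]) Md
    rw [Rz_eq, mul_div_assoc]
    linarith [(abs_le.1 B1).2]
  · have hr : ∀ p ∈ T, (rho p n : ℝ) / p = 1 / p + (J((n : ℤ) | p) : ℝ) / p := fun p hp => by
      rw [g1 p n (hmem p hp).1, if_neg (hmem p hp).2.2, add_div]
    have hr4 : ∑ p ∈ T, (rho p n : ℝ) / p ≤ 4 := by
      have : ∑ p ∈ T, (rho p n : ℝ) / p ≤ ∑ p ∈ T, 2 * ((1 : ℝ) / p) := sum_le_sum fun p hp => by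
        have : (rho p n : ℝ) ≤ 2 := by exact_mod_cast (g2 p n (hmem p hp).1).1
        rw [mul_one_div]; gcongr
      rw [← mul_sum] at this
      linarith
    have SA := sum_err T _ _ (by positivity) ε0 R0 hcard hr4 fun p hp => hA p (Or.inr hp)
    have SB := sum_err T _ _ (by positivity) ε0 (by positivity) hcard hsi
      fun p hp => hB p (Or.inr hp)
    rw [sum_congr rfl hr, sum_add_distrib] at SA
    rw [F1_eq, AA_lin, BB_lin]
    refine (core V0 Q0.le ε0 R0 (by linarith) a0 a1 b1 hD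
      (sum_nonneg fun p _ => by positivity) hsi A1 SA B1 SB).trans (add_le_add ?_ ?_)
    · change V * Q * (5 * M / P + 2 * M * |Js n (zz X) y| + 16 * ε * M) ≤ _
      have j0 := abs_nonneg (Js n (zz X) y)
      set j := |Js n (zz X) y|
      have u0 : (0 : ℝ) ≤ 1 / 2 ^ k := by positivity
      have u1 : (0 : ℝ) ≤ 1 / P := by positivity
      have h1 : 5 * (1 / P) + 2 * j + 16 * CF * (1 / 2 ^ k) ≤ 16 * CF * (1 / 2 ^ k + j + 1 / P) := by
        linarith [mul_le_mul_of_nonneg_right hCF j0, mul_le_mul_of_nonneg_right hCF u1]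
      calc V * Q * (5 * M / P + 2 * M * j + 16 * ε * M)
          = Q * (M * V) * (5 * (1 / P) + 2 * j + 16 * CF * (1 / 2 ^ k)) := by rw [hε]; ring
        _ ≤ Q * ((CV + 1) * (M / (d * lg X))) * (16 * CF * (1 / 2 ^ k + j + 1 / P)) := by
            exact mul_le_mul (mul_le_mul_of_nonneg_left (by linarith) Q0.le) h1 (by positivity)
              (by positivity)
        _ = _ := by ring
    · refine mul_le_mul_of_nonneg_left (le_trans ?_ e2) (by linarith)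
      have h1 : (X : ℝ) ^ (d * (8 * k + 13)) * y ≤ (X : ℝ) ^ (1 / 2 - d) := by
        rw [hyd, ← Real.rpow_add X0]
        exact Real.rpow_le_rpow_of_exponent_le X1.le (by linarith)
      have h2 : 0 ≤ (X : ℝ) ^ (d * (8 * k + 13)) := by positivity
      rw [hRe, pow_zero]
      linarith [mul_le_mul_of_nonneg_left y1 h2]

end Pool.Agent.Lib.APQ
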