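import Pool.Agent.Lib.APQ.Kit

/-!
The bilinear bound: assembly of the diagonal and the off diagonal terms.
-/

namespace Pool.Agent.Lib.APQ

open Finset Real Complex Filter Pool.Agent.Lib.PS
open scoped NumberTheorySymbols ArithmeticFunction.Moebius Classical ComplexConjugate

namespace T2

theorem bS_le {K K' : ℕ} {Y l : ℝ} (h1 : K ≤ K') (h2 : (K' : ℝ) ≤ 2 * Y) (h3 : Real.log K' ≤ l)
    (h4 : 2 ≤ l) : bS K K' ≤ 24 * l * Y ^ 2 := by
  have a : (K : ℝ) ≤ K' := by exact_mod_cast h1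
  have b : (0 : ℝ) ≤ K := by positivity
  have c : (0 : ℝ) ≤ Real.log K' := Real.log_natCast_nonneg _
  calc bS K K' ≤ 3 * (2 * Y + 2 * Y * (1 + l)) * (2 * Y) := by
        unfold bS
        have : 0 ≤ Y := by linarith
        gcongr <;> linarith
    _ = 12 * (2 + l) * Y ^ 2 := by ring
    _ ≤ _ := by gcongr ?_ * _; linarith

theorem fin {C V Y l b s g c : ℝ} {A : ℕ} (hC : 0 < C) (hV : 0 ≤ V) (hl : 4 ≤ l)
    (hl' : 96 * C ≤ l) (hb : b ≤ 24 * l * Y ^ 2) (hs0 : 0 ≤ s + g) (hs : s ≤ 1 / l ^ (A + 2))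
    (hg : g ≤ 1 / l ^ (A + 2)) (hc : c ≤ 2 * V) :
    c * (Y ^ 2 / l ^ (A + 1)) + C * V * b * (s + g) ≤ Y ^ 2 * V / l ^ A := by
  have l0 : 0 < l := by linarith
  have p : 0 ≤ Y ^ 2 * V / l ^ A := by positivity
  have a1 : c * (Y ^ 2 / l ^ (A + 1)) ≤ Y ^ 2 * V / l ^ A * (2 / l) :=
    (mul_le_mul_of_nonneg_right hc (by positivity)).trans_eq (by field_simp; ring)
  have a2 : C * V * b * (s + g) ≤ Y ^ 2 * V / l ^ A * (48 * C / l) := by
    calc _ ≤ C * V * (24 * l * Y ^ 2) * (1 / l ^ (A + 2) + 1 / l ^ (A + 2)) := by gcongr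
      _ = _ := by field_simp; ring
  have a3 : 2 / l ≤ 1 / 2 := by rw [div_le_iff₀ l0]; linarith
  have a4 : 48 * C / l ≤ 1 / 2 := by rw [div_le_iff₀ l0]; linarith
  nlinarith [mul_le_mul_of_nonneg_left a3 p, mul_le_mul_of_nonneg_left a4 p]

end T2

open T2 in
theorem blk_T2 (hTOEP : St_TOEP) (hDIAG : St_DIAG) (hZON : St_ZON) (hGL2 : St_GL2)
    (hZ1 : St_Z1) : St_T2 := by
  intro d A hd hd'
  obtain ⟨C, hC, hZ⟩ := hZON
  obtain ⟨B₀, hB⟩ := hZ1 (A + 2)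
  refine ⟨B₀, fun B hB' => ?_⟩
  filter_upwards [hB B hB', hDIAG d (A + 1) B hd hd', hGL2 (d / 40) B (by positivity), ev_lg 4,
    ev_lg (96 * C), eventually_ge_atTop 1, ev_pow 2 0 (show d / 5 < d by linarith),
    ev_pow 20 0 (show (121 / 250 : ℝ) < 499 / 1000 by norm_num),
    ev_pow 3 0 (show (6 / 25 : ℝ) < 59 / 200 by norm_num),
    ev_pow 2 (2 * (A + 2)) (show d / 40 + d / 10 < d / 5 by linarith)]
    with X z1 dg gl l4 lC hX e1 e2 e3 e4
  intro q a K V S β U hR hV1 hV2 hS hβ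
  simp only [pow_zero, mul_one] at e1 e2 e3
  have x1 : (1 : ℝ) ≤ X := by exact_mod_cast hX
  have x0 : (0 : ℝ) < X := by linarith
  have mono : ∀ {s t : ℝ}, s ≤ t → (X : ℝ) ^ s ≤ (X : ℝ) ^ t :=
    fun h => Real.rpow_le_rpow_of_exponent_le x1 h
  have q0 := hR.q_pos
  have q1 : 1 ≤ q := hR.pr.pos
  have hY := hR.div_ge hX
  set Y : ℝ := X / q with hYe
  have Y1 : 1 ≤ Y := (Real.one_le_rpow x1 (by linarith)).trans hY
  have R1 : 1 ≤ (X : ℝ) ^ (d / 5) := Real.one_le_rpow x1 (by positivity)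
  have RV : (X : ℝ) ^ (d / 5) ≤ V := by linarith
  have V1 : 1 ≤ V := R1.trans RV
  have z0 : 0 < zz X := Real.rpow_pos_of_pos x0 _
  have VR : V * (X : ℝ) ^ (d / 5) ≤ (X : ℝ) ^ (121 / 500 : ℝ) := by
    calc _ ≤ (X : ℝ) ^ (6 / 25 : ℝ) * (X : ℝ) ^ (d / 5) := by gcongr; exact hV2
      _ = (X : ℝ) ^ (6 / 25 + d / 5 : ℝ) := (Real.rpow_add x0 _ _).symm
      _ ≤ _ := mono (by linarith)
  obtain ⟨K', k1, k2, k3⟩ : ∃ K' : ℕ, Y ≤ K' ∧ (K' : ℝ) < Y + 1 ∧ K' ≤ X :=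
    ⟨⌈Y⌉₊, Nat.le_ceil _, Nat.ceil_lt_add_one (by linarith), Nat.ceil_le.2
      (div_le_self x0.le (by exact_mod_cast q1))⟩
  have k0 : (0 : ℝ) < K' := by linarith
  have kK : K ≤ K' := by
    have : (K : ℝ) < K' + 1 := by linarith [hR.K_lt]
    exact Nat.lt_succ_iff.1 (by exact_mod_cast this)
  obtain ⟨W, w1, w2⟩ : ∃ W : ℕ, V ≤ W ∧ ∀ v ∈ S, v ≤ W :=
    ⟨⌊2 * V⌋₊, by linarith [Nat.lt_floor_add_one (2 * V)], fun v hv => Nat.le_floor (hS v hv).2.2⟩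
  have vz : ∀ v ∈ S, (v : ℝ) ≤ 2 * zz X := fun v hv => by linarith [(hS v hv).2.2]
  obtain ⟨P1, -⟩ := Pb_bounds (by linarith : 1 ≤ lg X) B
  obtain ⟨J, hJ⟩ : ∃ J, J = 2 * W * ((M3 X + 1) ^ 2 + a) := ⟨_, rfl⟩
  obtain ⟨N, hN⟩ : ∃ N, N = J + W * K + 1 + K' * W := ⟨_, rfl⟩
  have N0 : (0 : ℝ) < N := by
    have : 0 < N := by omega
    exact_mod_cast this
  have qJ : 2 * W * ((M3 X + 1) ^ 2 + a) ≤ q * J := hJ ▸ Nat.le_mul_of_pos_left _ q1
  have t1 := hTOEP X (Pb X B) q a K W J N β S U (Y ^ 2 / lg X ^ (A + 1)) q1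
    (fun v hv => ⟨(hS v hv).1, w2 v hv⟩) qJ (by omega) fun v hv U' =>
      dg _ q a K v β U' P1 (Pb_le X B) hR (hS v hv).1 (hV1.trans_lt (hS v hv).2.1) (vz v hv) hβ
  have l0 : 0 < lg X := by linarith
  have t2 := hZ β K K' N V ((X : ℝ) ^ (d / 5)) (Y / lg X ^ (A + 2))
    ((X : ℝ) ^ (d / 40) * (√(X : ℝ) + Y)) S (fun v₁ v₂ θ => ‖gT X (Pb X B) q a v₁ v₂ θ‖) hβ R1 RV
    hS kK ?_ ?_ (fun _ _ _ => norm_nonneg _) (by positivity) (by positivity) ?_ ?_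
  · refine (t1.trans (add_le_add le_rfl ((div_le_iff₀ N0).2 (t2.trans_eq (by
      rw [mul_right_comm C, mul_right_comm _ (N : ℝ), mul_right_comm _ (N : ℝ)]))))).trans
      (fin hC (by linarith) l4 lC (bS_le kK (by linarith)
        (Real.log_le_log k0 (by exact_mod_cast k3)) (by linarith)) (by positivity) ?_ ?_
        (hS.card_le (by linarith)))
    · rw [Real.sqrt_le_left (by positivity), div_pow, one_pow, ← pow_mul,
        div_le_div_iff₀ (by positivity) (by positivity), one_mul, mul_comm (A + 2)]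
      have m1 : √(X : ℝ) ≤ (X : ℝ) ^ (d / 10) * Y := by
        calc _ = (X : ℝ) ^ (d / 10) * (X : ℝ) ^ (1 / 2 - d / 10) := by
              rw [← Real.rpow_add x0, sqrt_eq]; ring_nf
          _ ≤ _ := by gcongr
      have m2 : Y ≤ (X : ℝ) ^ (d / 10) * Y :=
        le_mul_of_one_le_left (by linarith) (Real.one_le_rpow x1 (by positivity))
      calc _ ≤ (X : ℝ) ^ (d / 40) * (2 * ((X : ℝ) ^ (d / 10) * Y)) * lg X ^ (2 * (A + 2)) := by
            gcongr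
            linarith
        _ = Y * (2 * lg X ^ (2 * (A + 2)) * (X : ℝ) ^ (d / 40 + d / 10)) := by
            rw [Real.rpow_add x0]; ring
        _ ≤ _ := by gcongr
    · rw [div_right_comm]
      gcongr
      exact (div_le_one k0).2 k1
  · calc _ ≤ 20 * ((X : ℝ) ^ (121 / 500 : ℝ)) ^ 2 := by gcongr
      _ = 20 * (X : ℝ) ^ (121 / 250 : ℝ) := by
          rw [← Real.rpow_natCast, ← Real.rpow_mul x0.le]; norm_num
      _ ≤ _ := e2.trans ((mono (by linarith)).trans (hY.trans k1))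
  · calc (K' : ℝ) * V ≤ (K' * W : ℕ) := by push_cast; gcongr
      _ ≤ N := by exact_mod_cast (by omega : K' * W ≤ N)
  · intro v hv
    obtain ⟨h1, h2, h3⟩ := mem_offDiag.1 hv
    have s1 : 3 * zz X ≤ √(X : ℝ) := e3.trans (sqrt_eq X ▸ mono (by norm_num))
    have s2 : 3 * zz X ≤ q := e3.trans hR.lo
    refine gl _ q a v.1 v.2 J N P1 (Pb_le X B) hR.pr (hS _ h1).1 (hS _ h2).1 h3 ?_
      (by linarith [vz _ h1]) (by linarith [vz _ h2]) (le_trans ?_ qJ) (by omega) (by omega)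
    · have : (v.1 : ℝ) < q := by linarith [vz _ h1]
      exact_mod_cast this
    · have := w2 _ h1
      have := w2 _ h2
      exact Nat.mul_le_mul_right _ (by omega)
  · rintro v hv θ r b ⟨r1, r2, r3, r4⟩
    obtain ⟨h1, h2, h3⟩ := mem_offDiag.1 hv
    have r0 : (0 : ℝ) < r := by exact_mod_cast r1
    have := z1 q a K v.1 v.2 r b (θ - b / r) (hR.mono hX (by linarith)) (hS _ h1).1 (hS _ h2).1 h3
      (vz _ h1) (vz _ h2) r1 (r2.trans VR) r3 (by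
        rw [le_div_iff₀' r0] at r4
        calc _ ≤ _ := r4
          _ = (X : ℝ) ^ (d / 5) / K' := by field_simp
          _ ≤ (X : ℝ) ^ (1 / 500 : ℝ) / Y :=
              div_le_div₀ (by positivity) (mono (by linarith)) (by linarith) k1
          _ = _ := by rw [hYe]; field_simp)
    rwa [add_sub_cancel] at this

end Pool.Agent.Lib.APQ
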