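import Pool.Agent.Lib.APQ.Kit

/-!
The theta transformation for the weighted squares.
-/

namespace Pool.Agent.Lib.APQ

open Finset Real Complex Filter Pool.Agent.Lib.PS
open scoped NumberTheorySymbols ArithmeticFunction.Moebius Classical ComplexConjugate Topology

namespace TH

theorem sq_mul_cpow {Q : ℕ} (hQ : 1 ≤ Q) {τ : ℂ} (hτ : τ ≠ 0) :
    ((Q : ℂ) ^ 2 * τ) ^ (1 / 2 : ℂ) = Q * τ ^ (1 / 2 : ℂ) := by
  have h0 : (0 : ℝ) < Q := by exact_mod_cast hQ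
  have h1 : (Q : ℂ) ≠ 0 := by exact_mod_cast h0.ne'
  have h2 : (Q : ℂ) ^ 2 * τ = (((Q : ℝ) ^ 2 : ℝ) : ℂ) * τ := by push_cast; ring
  rw [cpow_def_of_ne_zero (mul_ne_zero (pow_ne_zero 2 h1) hτ), cpow_def_of_ne_zero hτ, h2,
    log_ofReal_mul (by positivity) hτ, add_mul, Complex.exp_add, Real.log_pow]
  congr 1
  have h3 : ((((2 : ℕ) : ℝ) * Real.log Q : ℝ) : ℂ) * (1 / 2) = (Real.log Q : ℝ) := by
    push_cast; ring
  rw [h3, ← ofReal_exp, Real.exp_log h0, ofReal_natCast]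

/-- one residue class -/
theorem cls {Q : ℕ} (hQ : 1 ≤ Q) {τ : ℂ} (hτ : 0 < τ.re) (c : ℕ) :
    ∑' j : ℤ, cexp (-π * τ * ((c : ℂ) + Q * j) ^ 2) =
      1 / τ ^ (1 / 2 : ℂ) / Q * ∑' h : ℤ, cexp (-π / ((Q : ℂ) ^ 2 * τ) * (h : ℂ) ^ 2) *
        ee ((h : ℝ) * c / Q) := by
  have h0 : (0 : ℝ) < Q := by exact_mod_cast hQ
  have h1 : (Q : ℂ) ≠ 0 := by exact_mod_cast h0.ne'
  have hτ0 : τ ≠ 0 := fun h => by simp [h] at hτ
  have ha : 0 < ((Q : ℂ) ^ 2 * τ).re := by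
    rw [show (Q : ℂ) ^ 2 * τ = (((Q : ℝ) ^ 2 : ℝ) : ℂ) * τ by push_cast; ring, re_ofReal_mul]
    positivity
  have h2 := Complex.tsum_exp_neg_quadratic ha (-(c * Q * τ))
  have h3 : ∀ j : ℤ, cexp (-π * τ * ((c : ℂ) + Q * j) ^ 2) = cexp (-π * τ * (c : ℂ) ^ 2) *
      cexp (-π * ((Q : ℂ) ^ 2 * τ) * (j : ℂ) ^ 2 + 2 * π * (-(c * Q * τ)) * j) := fun j => by
    rw [← Complex.exp_add]; congr 1; ring
  simp only [h3]
  rw [tsum_mul_left, h2, sq_mul_cpow hQ hτ0, mul_left_comm, ← tsum_mul_left, div_div,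
    mul_comm (τ ^ (1 / 2 : ℂ))]
  congr 1
  refine tsum_congr fun h => ?_
  unfold ee
  rw [← Complex.exp_add, ← Complex.exp_add]
  congr 1
  push_cast
  field_simp
  linear_combination (-(c : ℂ) ^ 2 * (Q : ℂ) ^ 2 * τ ^ 2) * I_sq

/-- splitting a series into residue classes -/
theorem split {Q : ℕ} (hQ : 1 ≤ Q) {f : ℤ → ℂ} (hf : Summable f) :
    ∑' m, f m = ∑ c ∈ range Q, ∑' j : ℤ, f (c + Q * j) := by
  have h0 : (0 : ℤ) < Q := by exact_mod_cast hQ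
  have h1 : ∀ m, f m = ∑ c ∈ range Q, if m % Q = (c : ℤ) then f m else 0 := fun m => by
    have h2 := Int.emod_nonneg m h0.ne'
    have h3 := Int.emod_lt_of_pos m h0
    rw [sum_eq_single (m % Q).toNat, if_pos (by omega)]
    · intro c _ hc
      exact if_neg (by omega)
    · intro h
      exact absurd (mem_range.mpr (by omega)) h
  rw [tsum_congr h1, Summable.tsum_finsetSum]
  · refine sum_congr rfl fun c hc => ?_
    have hc' : (c : ℤ) < Q := by exact_mod_cast mem_range.mp hc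
    have h4 : Function.Injective fun j : ℤ => (c : ℤ) + Q * j := fun i j h =>
      mul_left_cancel₀ h0.ne' (add_left_cancel h)
    rw [← h4.tsum_eq (f := fun m => if m % Q = (c : ℤ) then f m else 0)]
    · refine tsum_congr fun j => if_pos ?_
      rw [Int.add_mul_emod_self_left, Int.emod_eq_of_lt (by positivity) hc']
    · intro m hm
      have h5 : m % Q = (c : ℤ) := by
        by_contra h
        exact hm (if_neg h)
      exact ⟨m / Q, by simp only [← h5]; exact Int.emod_add_mul_ediv m Q⟩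
  · intro c _
    refine hf.norm.of_norm_bounded fun m => ?_
    split_ifs <;> simp

theorem summ (hGT : St_GT) {W C : ℝ} (hW : 0 < W) {f : ℤ → ℂ} (hf : ∀ h, ‖f h‖ ≤ C * ga W h) :
    Summable f :=
  ((summable_of_sum_le (fun _ => (ga_pos _ _).le) fun S => hGT.1 W S hW).mul_left C).of_norm_bounded
    hf

theorem tail (hGT : St_GT) {W C : ℝ} (hW : 0 < W) (hC : 0 ≤ C) {f : ℤ → ℂ}
    (hf : ∀ h, ‖f h‖ ≤ C * ga W h) (N : ℕ) :
    ‖∑' h, f h - ∑ h ∈ box N, f h‖ ≤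
      C * (2 * (1 + W ^ 2) * Real.exp (-(π * ((N : ℝ) + 1) ^ 2 / W ^ 2))) := by
  have h1 : Tendsto (fun S : Finset ℤ => ∑ h ∈ S, f h) atTop (𝓝 (∑' h, f h)) :=
    (summ hGT hW hf).hasSum
  refine le_of_tendsto (h1.sub_const _).norm ?_
  filter_upwards [eventually_ge_atTop (box N)] with S hS
  rw [← sum_sdiff hS, add_sub_cancel_right]
  refine (norm_sum_le_of_le _ fun h _ => hf h).trans ?_
  rw [← mul_sum]
  refine mul_le_mul_of_nonneg_left (hGT.2.1 W N _ hW fun h hh => ?_) hC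
  exact not_le.mp fun h2 => (mem_sdiff.mp hh).2 (mem_box.mpr h2)

theorem small {X : ℕ} (hX : 1 ≤ X) {W N : ℝ} (hW : 0 < W) (h : Lx X * W ≤ N) :
    Real.exp (-(π * N ^ 2 / W ^ 2)) ≤ 1 / (X : ℝ) ^ 12 := by
  have h0 : (0 : ℝ) < X := by exact_mod_cast hX
  have h1 : (Lx X * W) ^ 2 ≤ N ^ 2 :=
    pow_le_pow_left₀ (mul_nonneg (Lx_nonneg X) hW.le) h 2
  have h2 : 12 * lg X ≤ π * N ^ 2 / W ^ 2 := by
    rw [le_div_iff₀ (by positivity)]
    rw [mul_pow, Lx_sq] at h1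
    have h3 := mul_nonneg (lg_nonneg X) (sq_nonneg W)
    nlinarith [Real.pi_gt_three]
  calc _ ≤ Real.exp (-(12 * lg X)) := Real.exp_le_exp.mpr (neg_le_neg h2)
    _ = _ := by
      rw [Real.exp_neg, lg, show (12 : ℝ) * Real.log X = ((12 : ℕ) : ℝ) * Real.log X by norm_num,
        ← Real.log_pow, Real.exp_log (by positivity), one_div]

theorem tt_ge {X : ℕ} (η : ℝ) : 1 / (X : ℝ) ^ 2 ≤ tt X η := by
  unfold tt; nlinarith [sq_nonneg η]

theorem tt_pos {X : ℕ} (hX : 1 ≤ X) (η : ℝ) : 0 < tt X η := by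
  have h0 : (0 : ℝ) < X := by exact_mod_cast hX
  exact lt_of_lt_of_le (by positivity) (tt_ge η)

theorem tau_re (X : ℕ) (η : ℝ) : (1 / (X : ℂ) - 2 * I * η).re = 1 / (X : ℝ) := by
  rw [show 1 / (X : ℂ) = ((1 / (X : ℝ) : ℝ) : ℂ) by push_cast; rfl, sub_re, ofReal_re]; simp

theorem tau_im (X : ℕ) (η : ℝ) : (1 / (X : ℂ) - 2 * I * η).im = -(2 * η) := by
  rw [show 1 / (X : ℂ) = ((1 / (X : ℝ) : ℝ) : ℂ) by push_cast; rfl, sub_im, ofReal_im]; simp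

theorem pf_sq (X : ℕ) (η : ℝ) : ‖pf X η‖ ^ 2 = 1 / √(tt X η) := by
  rw [← norm_pow, pf, div_pow, one_pow, one_div (2 : ℂ), cpow_ofNat_inv_pow, norm_div, norm_one,
    norm_eq_sqrt_sq_add_sq, tau_re, tau_im, tt]
  congr 2
  ring

theorem pf_le {X : ℕ} (hX : 1 ≤ X) (η : ℝ) : ‖pf X η‖ ≤ X := by
  have h0 : (1 : ℝ) ≤ X := by exact_mod_cast hX
  have h1 : 1 / (X : ℝ) ≤ √(tt X η) := Real.le_sqrt_of_sq_le (by rw [div_pow, one_pow]; exact tt_ge η)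
  have h2 : ‖pf X η‖ ^ 2 ≤ X := by
    rw [pf_sq]
    exact (one_div_le (Real.sqrt_pos.mpr (tt_pos hX η)) (by linarith)).mpr h1
  exact abs_le_of_sq_le_sq' (by nlinarith) (by linarith) |>.2

theorem HQ_pos {X Q : ℕ} (hX : 1 ≤ X) (hQ : 1 ≤ Q) (η : ℝ) : 0 < HQ X Q η := by
  have h0 : (0 : ℝ) < X := by exact_mod_cast hX
  have h1 : (0 : ℝ) < Q := by exact_mod_cast hQ
  have := tt_pos hX η
  unfold HQ
  positivity

theorem term1 {X : ℕ} (hX : 1 ≤ X) (η x : ℝ) (m : ℤ) :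
    (w X m : ℂ) * ee ((m : ℝ) ^ 2 * (x + η)) =
      ee (x * (m : ℝ) ^ 2) * cexp (-π * (1 / (X : ℂ) - 2 * I * η) * (m : ℂ) ^ 2) := by
  have h0 : (0 : ℝ) < X := by exact_mod_cast hX
  unfold w ga ee
  rw [Real.sq_sqrt h0.le, ofReal_exp, ← Complex.exp_add, ← Complex.exp_add]
  congr 1
  push_cast
  ring

theorem term2 {X Q : ℕ} (hX : 1 ≤ X) (hQ : 1 ≤ Q) (η : ℝ) (h : ℤ) :
    cexp (-π / ((Q : ℂ) ^ 2 * (1 / (X : ℂ) - 2 * I * η)) * (h : ℂ) ^ 2) =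
      (ga (HQ X Q η) h : ℝ) * ee (-(xi X Q η * (h : ℝ) ^ 2)) := by
  have h0 : (0 : ℝ) < X := by exact_mod_cast hX
  have h1 : (0 : ℝ) < Q := by exact_mod_cast hQ
  have h2 := tt_pos hX η
  have h3 : HQ X Q η ^ 2 = (Q : ℝ) ^ 2 * tt X η * X := by
    rw [HQ, mul_pow, mul_pow, Real.sq_sqrt h2.le, Real.sq_sqrt h0.le]
  have h4 : (1 / (X : ℂ) - 2 * I * η) * (1 / (X : ℂ) + 2 * I * η) = (tt X η : ℝ) := by
    unfold tt; push_cast
    linear_combination (-4 * (η : ℂ) ^ 2) * I_sq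
  have h5 : ((tt X η : ℝ) : ℂ) ≠ 0 := ofReal_ne_zero.mpr h2.ne'
  have h6 : (1 / (X : ℂ) - 2 * I * η)⁻¹ = (1 / (X : ℂ) + 2 * I * η) / (tt X η : ℝ) := by
    refine inv_eq_of_mul_eq_one_right ?_
    rw [← mul_div_assoc, h4, div_self h5]
  unfold ga ee xi
  rw [h3, ofReal_exp, ← Complex.exp_add, div_eq_mul_inv, mul_inv, h6]
  congr 1
  push_cast
  ring

theorem GG_le (A h : ℤ) (Q : ℕ) : ‖GG A h Q‖ ≤ Q := by
  refine (norm_sum_le_of_le _ fun m _ => (maj_ee_norm _).le).trans ?_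
  simp

theorem full (hGT : St_GT) {X Q : ℕ} (hX : 1 ≤ X) (hQ : 1 ≤ Q) (A : ℤ) (η : ℝ) :
    ∑' m : ℤ, (w X m : ℂ) * ee ((m : ℝ) ^ 2 * ((A : ℝ) / Q + η)) =
      pf X η / Q * ∑' h : ℤ,
        GG A h Q * (ga (HQ X Q η) h : ℝ) * ee (-(xi X Q η * (h : ℝ) ^ 2)) := by
  have h0 : (0 : ℝ) < X := by exact_mod_cast hX
  have h1 : (0 : ℝ) < Q := by exact_mod_cast hQ
  have hτ : 0 < (1 / (X : ℂ) - 2 * I * η).re := by rw [tau_re]; positivity
  rw [split hQ (summ hGT (C := 1) (Real.sqrt_pos.mpr h0) fun m => by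
    rw [norm_mul, maj_ee_norm, mul_one, one_mul, Complex.norm_real, Real.norm_of_nonneg (w_pos X m).le]
    exact le_rfl)]
  have h2 : ∀ c ∈ range Q, ∑' j : ℤ, (w X ((c : ℤ) + Q * j) : ℂ) *
      ee (((((c : ℤ) + Q * j : ℤ)) : ℝ) ^ 2 * ((A : ℝ) / Q + η)) = pf X η / Q * ∑' h : ℤ,
        ee (((A : ℝ) * (c : ℝ) ^ 2 + (h : ℝ) * c) / Q) * (ga (HQ X Q η) h : ℝ) *
          ee (-(xi X Q η * (h : ℝ) ^ 2)) := by
    intro c _
    have h3 : ∀ j : ℤ, (w X ((c : ℤ) + Q * j) : ℂ) *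
        ee (((((c : ℤ) + Q * j : ℤ)) : ℝ) ^ 2 * ((A : ℝ) / Q + η)) = ee ((A : ℝ) * (c : ℝ) ^ 2 / Q) *
          cexp (-π * (1 / (X : ℂ) - 2 * I * η) * ((c : ℂ) + Q * j) ^ 2) := fun j => by
      rw [term1 hX, ← ee_add_int ((A : ℝ) * (c : ℝ) ^ 2 / Q) (A * (2 * c * j + Q * j ^ 2))]
      push_cast
      congr 2
      field_simp
      ring
    rw [tsum_congr h3, tsum_mul_left, cls hQ hτ, mul_left_comm, ← tsum_mul_left]
    congr 1
    refine tsum_congr fun h => ?_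
    rw [term2 hX hQ, add_div, maj_ee_add]
    ring
  rw [sum_congr rfl h2, ← mul_sum, ← Summable.tsum_finsetSum]
  · congr 1
    refine tsum_congr fun h => ?_
    rw [GG, sum_mul, sum_mul]
  · intro c _
    refine summ hGT (C := 1) (HQ_pos hX hQ η) fun h => ?_
    rw [norm_mul, norm_mul, maj_ee_norm, maj_ee_norm, mul_one, Complex.norm_real,
      Real.norm_of_nonneg (ga_pos _ _).le]

end TH

theorem blk_TH (hGT : St_GT) : St_TH := by
  refine ⟨fun X η _ => TH.pf_sq X η, fun X Q N A η hX hQ hN => ?_⟩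
  have h0 : (1 : ℝ) ≤ X := by exact_mod_cast hX
  have h1 : (0 : ℝ) < Q := by exact_mod_cast hQ
  have hs : 0 < √(X : ℝ) := Real.sqrt_pos.mpr (by linarith)
  have hH := TH.HQ_pos hX hQ η
  have t1 := TH.tail hGT hs zero_le_one
    (f := fun m : ℤ => (w X m : ℂ) * ee ((m : ℝ) ^ 2 * ((A : ℝ) / Q + η))) (fun m => by
      rw [norm_mul, maj_ee_norm, mul_one, one_mul, Complex.norm_real,
        Real.norm_of_nonneg (w_pos X m).le]
      exact le_rfl) (M3 X)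
  have t2 := TH.tail hGT hH h1.le
    (f := fun h : ℤ => GG A h Q * (ga (HQ X Q η) h : ℝ) * ee (-(xi X Q η * (h : ℝ) ^ 2)))
    (fun h => by
      rw [norm_mul, norm_mul, maj_ee_norm, mul_one, Complex.norm_real,
        Real.norm_of_nonneg (ga_pos _ _).le]
      exact mul_le_mul_of_nonneg_right (TH.GG_le A h Q) (ga_pos _ _).le) N
  have s1 := TH.small hX hs (lt_M3 X).le
  have s2 := TH.small hX hH hN
  rw [TH.full hGT hX hQ, ← hGT.2.2.2.2.2.1 X, norm_sub_rev] at t1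
  rw [Real.sq_sqrt (by linarith)] at t1 s1
  have e1 : 1 * (2 * (1 + (X : ℝ)) * (1 / (X : ℝ) ^ 12)) ≤ 4 / (X : ℝ) ^ 11 := by
    rw [one_mul, mul_one_div, div_le_div_iff₀ (by positivity) (by positivity)]
    have : (0 : ℝ) < (X : ℝ) ^ 11 := by positivity
    nlinarith
  have t3 := t1.trans ((by gcongr : _ ≤ 1 * (2 * (1 + (X : ℝ)) * (1 / (X : ℝ) ^ 12))).trans e1)
  have t4 := t2.trans (by gcongr : _ ≤ (Q : ℝ) * (2 * (1 + HQ X Q η ^ 2) * (1 / (X : ℝ) ^ 12)))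
  have t5 := mul_le_mul (div_le_div_of_nonneg_right (TH.pf_le hX η) h1.le) t4 (norm_nonneg _)
    (by positivity)
  rw [← Complex.norm_natCast Q, ← norm_div, ← norm_mul, mul_sub, Complex.norm_natCast] at t5
  refine (norm_sub_le_norm_sub_add_norm_sub _ _ _).trans ((add_le_add t3 t5).trans ?_)
  have e2 : (X : ℝ) / Q * (Q * (2 * (1 + HQ X Q η ^ 2) * (1 / (X : ℝ) ^ 12))) =
      2 * (1 + HQ X Q η ^ 2) / (X : ℝ) ^ 11 := by field_simp
  rw [e2, ← add_div]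
  gcongr
  nlinarith [sq_nonneg (HQ X Q η)]

end Pool.Agent.Lib.APQ
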