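import Pool.Agent.Lib.APQ.Kit

/-!
The bilinear sum of squares: diagonal terms and the kernel on a grid.
-/

namespace Pool.Agent.Lib.APQ

open Finset Real Complex Filter Pool.Agent.Lib.PS
open scoped NumberTheorySymbols ArithmeticFunction.Moebius Classical ComplexConjugate

namespace TOEP

theorem pair_sum (σ : ℤ → ℝ) (Y U : Finset ℤ) (h0 : ∀ y, y ∉ Y → σ y = 0) {v₁ v₂ n₁ n₂ : ℤ}
    (hc : IsCoprime v₁ v₂) (h1 : v₁ ≠ 0) (hU : ∀ u, n₁ - u * v₁ ∈ Y → u ∈ U) :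
    ∑ u ∈ U, σ (n₁ - u * v₁) * σ (n₂ - u * v₂) = ∑ y₁ ∈ Y, ∑ y₂ ∈ Y,
      if v₂ * y₁ - v₁ * y₂ = v₂ * n₁ - v₁ * n₂ then σ y₁ * σ y₂ else 0 := by
  have e : ∀ s t : ℤ, σ s * σ t = ∑ y₁ ∈ Y, ∑ y₂ ∈ Y,
      if y₁ = s ∧ y₂ = t then σ y₁ * σ y₂ else 0 := fun s t => by
    have e1 : ∀ s, σ s = ∑ y ∈ Y, if y = s then σ y else 0 := fun s => by
      rw [sum_ite_eq']
      split_ifs with h
      · rfl
      · exact h0 s h
    rw [e1 s, e1 t, sum_mul_sum]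
    refine sum_congr rfl fun y₁ _ => sum_congr rfl fun y₂ _ => ?_
    by_cases a1 : y₁ = s <;> by_cases a2 : y₂ = t <;> simp [a1, a2]
  rw [sum_congr rfl fun u _ => e _ _, sum_comm]
  refine sum_congr rfl fun y₁ hy₁ => ?_
  rw [sum_comm]
  refine sum_congr rfl fun y₂ _ => ?_
  split_ifs with h
  · obtain ⟨u, hu⟩ : v₁ ∣ n₁ - y₁ :=
      hc.dvd_of_dvd_mul_left ⟨n₂ - y₂, by linear_combination -h⟩
    have a1 : y₁ = n₁ - u * v₁ := by linear_combination -hu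
    have a2 : y₂ = n₂ - u * v₂ := mul_left_cancel₀ h1 (by linear_combination -h - v₂ * hu)
    rw [sum_eq_single u, if_pos ⟨a1, a2⟩]
    · intro u' _ hne
      rw [if_neg]
      rintro ⟨b1, -⟩
      exact hne (mul_right_cancel₀ h1 (by linear_combination b1 - a1))
    · intro hu'
      exact absurd (hU u (a1 ▸ hy₁)) hu'
  · refine sum_eq_zero fun u _ => if_neg ?_
    rintro ⟨b1, b2⟩
    exact h (by rw [b1, b2]; ring)

theorem gk_zero {X P q a v₁ v₂ J : ℕ} (hq : 1 ≤ q)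
    (h : (v₁ + v₂) * ((M3 X + 1) ^ 2 + a) ≤ q * J) {j : ℤ} (hj : j ∉ box J) :
    gk X P q a v₁ v₂ j = 0 := by
  refine sum_eq_zero fun y₁ h1 => sum_eq_zero fun y₂ h2 => if_neg fun e => hj ?_
  rw [YS, mem_Ico] at h1 h2
  have h' : ((v₁ : ℤ) + v₂) * (((M3 X : ℤ) + 1) ^ 2 + a) ≤ q * J := by exact_mod_cast h
  have hq' : (0 : ℤ) < q := by exact_mod_cast hq
  have p1 : (0 : ℤ) ≤ v₁ := by positivity
  have p2 : (0 : ℤ) ≤ v₂ := by positivity
  have p3 : (0 : ℤ) ≤ a := by positivity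
  generalize ((M3 X : ℤ) + 1) ^ 2 = Y at *
  rw [mem_box, abs_le]
  constructor
  · refine le_of_mul_le_mul_left ?_ hq'
    nlinarith [mul_nonneg p2 h1.1, mul_nonneg p1 p3, mul_nonneg p1 (sub_pos.2 h2.2).le,
      mul_nonneg p2 (h1.1.trans h1.2.le)]
  · refine le_of_mul_le_mul_left ?_ hq'
    nlinarith [mul_nonneg p1 h2.1, mul_nonneg p2 p3, mul_nonneg p2 (sub_pos.2 h1.2).le,
      mul_nonneg p1 (h1.1.trans h1.2.le)]

theorem grid (g : ℤ → ℝ) (T : ℝ → ℂ) (β : ℕ → ℝ) {K W J N v₁ v₂ : ℕ} (h1 : v₁ ≤ W) (h2 : v₂ ≤ W)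
    (hN : J + W * K < N) (h0 : ∀ j, j ∉ box J → g j = 0)
    (hT : ∀ θ, T θ = ∑ j ∈ box J, (g j : ℂ) * ee (j * θ)) :
    ∑ k₁ ∈ range K, ∑ k₂ ∈ range K, β k₁ * β k₂ * g ((v₂ : ℤ) * k₁ - v₁ * k₂) ≤
      (∑ i ∈ range N, ‖T ((i : ℝ) / N)‖ * ‖bh β K (v₂ * ((i : ℝ) / N))‖ *
        ‖bh β K (v₁ * ((i : ℝ) / N))‖) / N := by
  have hN0 : 0 < N := by omega
  have e : ∑ i ∈ range N, conj (bh β K (v₂ * ((i : ℝ) / N))) * bh β K (v₁ * ((i : ℝ) / N)) *
      T ((i : ℝ) / N) = ((N * ∑ k₁ ∈ range K, ∑ k₂ ∈ range K,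
        β k₁ * β k₂ * g ((v₂ : ℤ) * k₁ - v₁ * k₂) : ℝ) : ℂ) := by
    simp only [hT, bh, map_sum, map_mul, conj_ofReal, maj_ee_conj, sum_mul]
    push_cast
    rw [sum_comm, mul_sum]
    refine sum_congr rfl fun k₁ hk₁ => ?_
    simp only [mul_sum (range K), sum_mul]
    rw [sum_comm]
    refine sum_congr rfl fun k₂ hk₂ => ?_
    simp only [mul_sum]
    rw [sum_comm]
    rw [mem_range] at hk₁ hk₂
    have b1 : (v₂ : ℤ) * k₁ ≤ W * K := by exact_mod_cast Nat.mul_le_mul h2 hk₁.le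
    have b2 : (v₁ : ℤ) * k₂ ≤ W * K := by exact_mod_cast Nat.mul_le_mul h1 hk₂.le
    have b3 : (0 : ℤ) ≤ v₂ * k₁ := by positivity
    have b4 : (0 : ℤ) ≤ v₁ * k₂ := by positivity
    have b5 : (J : ℤ) + W * K < N := by exact_mod_cast hN
    have e1 : ∀ j ∈ box J, ∑ i ∈ range N, (β k₁ : ℂ) * ee (-(k₁ * (v₂ * ((i : ℝ) / N)))) *
        (β k₂ * ee (k₂ * (v₁ * ((i : ℝ) / N)))) * (g j * ee (j * ((i : ℝ) / N))) =
        if j = (v₂ : ℤ) * k₁ - v₁ * k₂ then (N : ℂ) * (β k₁ * β k₂ * g j) else 0 := by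
      intro j hj
      rw [mem_box, abs_le] at hj
      have o := maj_orth N hN0 (j - ((v₂ : ℤ) * k₁ - v₁ * k₂))
      have d : (N : ℤ) ∣ j - ((v₂ : ℤ) * k₁ - v₁ * k₂) ↔ j = (v₂ : ℤ) * k₁ - v₁ * k₂ :=
        ⟨fun hd => sub_eq_zero.1 (Int.eq_zero_of_abs_lt_dvd hd (abs_lt.2 ⟨by omega, by omega⟩)),
          fun hd => by simp [hd]⟩
      simp only [d] at o
      rw [← ite_zero_mul, ← o, sum_mul]
      refine sum_congr rfl fun i _ => ?_
      rw [show (i : ℝ) * (((j - ((v₂ : ℤ) * k₁ - v₁ * k₂) : ℤ) : ℝ) / N) =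
        -(k₁ * (v₂ * ((i : ℝ) / N))) + k₂ * (v₁ * ((i : ℝ) / N)) + j * ((i : ℝ) / N) by
          push_cast; ring, maj_ee_add, maj_ee_add]
      ring
    rw [sum_congr rfl e1, sum_ite_eq']
    split_ifs with h
    · rfl
    · simp [h0 _ h]
  have hN' : (0 : ℝ) < N := by exact_mod_cast hN0
  rw [le_div_iff₀ hN', mul_comm]
  refine (le_abs_self _).trans ?_
  rw [← Real.norm_eq_abs, ← Complex.norm_real, ← e]
  refine (norm_sum_le _ _).trans (le_of_eq (sum_congr rfl fun i _ => ?_))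
  rw [norm_mul, norm_mul, RCLike.norm_conj]
  ring

end TOEP

open TOEP in
theorem blk_TOEP (hGID : St_GID) (hGT : St_GT) : St_TOEP := by
  intro X P q a K W J N β S U G hq hS hJ hN hG
  have h0 : ∀ y, y ∉ YS X → sg X P y = 0 := fun y hy =>
    ((hGT.2.2.2.2.2.2.2.2.1 X P y).2.2.2 hy).2.2
  set U' := U ∪ box (a + q * K + (M3 X + 1) ^ 2) with hU'
  set F : ℕ → ℤ → ℝ := fun v u => ∑ k ∈ range K, β k * sg X P ((a : ℤ) + q * k - u * v) with hF
  have s1 : DD X P q a K β S U ≤ DD X P q a K β S U' :=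
    sum_le_sum_of_subset_of_nonneg subset_union_left fun _ _ _ => sq_nonneg _
  have s2 : DD X P q a K β S U' = ∑ v ∈ S, DD X P q a K β {v} U' +
      ∑ v ∈ S.offDiag, ∑ u ∈ U', F v.1 u * F v.2 u := by
    simp only [DD, sum_singleton]
    rw [sum_comm (s := S), sum_comm (s := S.offDiag), ← sum_add_distrib]
    refine sum_congr rfl fun u _ => ?_
    rw [pow_two, sum_mul_sum, ← sum_product', ← diag_union_offDiag,
      sum_union (disjoint_diag_offDiag S), sum_diag]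
    simp only [hF, pow_two]
  refine s1.trans ?_
  rw [s2, OF, sum_div]
  refine add_le_add ((sum_le_card_nsmul _ _ G fun v hv => hG v hv U').trans_eq (nsmul_eq_mul _ _))
    (sum_le_sum fun v hv => ?_)
  obtain ⟨m1, m2, hne⟩ := mem_offDiag.1 hv
  obtain ⟨p1, w1⟩ := hS _ m1
  obtain ⟨p2, w2⟩ := hS _ m2
  have hb : (v.1 + v.2) * ((M3 X + 1) ^ 2 + a) ≤ q * J :=
    le_trans (Nat.mul_le_mul_right _ (by omega)) hJ
  refine le_trans (le_of_eq ?_) (grid (gk X P q a v.1 v.2) (gT X P q a v.1 v.2) β w1 w2 hN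
    (fun j hj => gk_zero hq hb hj) fun θ => hGID X P q a v.1 v.2 J θ hq hb)
  simp only [hF, sum_mul_sum]
  rw [sum_comm]
  refine sum_congr rfl fun k₁ hk₁ => ?_
  rw [sum_comm]
  refine sum_congr rfl fun k₂ _ => ?_
  have hp := pair_sum (sg X P) (YS X) U' h0 (v₁ := v.1) (v₂ := v.2) (n₁ := a + q * k₁)
    (n₂ := a + q * k₂) (Nat.isCoprime_iff_coprime.2 ((Nat.coprime_primes p1 p2).2 hne))
    (by exact_mod_cast p1.ne_zero) fun u hu => by
      refine mem_union_right _ (mem_box.2 ?_)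
      rw [YS, mem_Ico] at hu
      have c1 : (1 : ℤ) ≤ v.1 := by exact_mod_cast p1.one_le
      have c2 : (q : ℤ) * k₁ ≤ q * K := by
        exact_mod_cast Nat.mul_le_mul_left q (mem_range.1 hk₁).le
      have c3 : (0 : ℤ) ≤ q * k₁ := by positivity
      have c4 : (0 : ℤ) ≤ a := by positivity
      have c5 : |u| ≤ |u * v.1| := by
        rw [abs_mul, abs_of_pos (a := (v.1 : ℤ)) (by omega)]
        exact le_mul_of_one_le_right (abs_nonneg u) c1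
      refine c5.trans (abs_le.2 ?_)
      push_cast
      constructor <;> linarith [hu.1, hu.2]
  rw [show (v.2 : ℤ) * (a + q * k₁) - v.1 * (a + q * k₂) =
    a * ((v.2 : ℤ) - v.1) + q * (v.2 * k₁ - v.1 * k₂) by ring] at hp
  rw [gk, ← hp, mul_sum]
  exact sum_congr rfl fun u _ => by ring

end Pool.Agent.Lib.APQ
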