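import Pool.Agent.Lib.APQ.Kit

namespace Pool.Agent.Lib.APQ

open Finset Real Complex Filter Pool.Agent.Lib.PS
open scoped NumberTheorySymbols ArithmeticFunction.Moebius Classical ComplexConjugate

namespace TOP

theorem nw_one {Λ : ℕ → ℝ} {D x : ℕ} {z : ℝ} (h : Sv Λ D) (hD : (D : ℝ) ≤ z)
    (hx : ∀ p ∈ pr 0 z, ¬ p ∣ x) : nw Λ D x = 1 := by
  rw [nw, sum_eq_single 1]
  · simp [h.one]
  · intro e he h1
    refine if_neg fun h2 => hx e.minFac ((mem_pr le_rfl).2 ⟨Nat.minFac_prime h1, ?_, ?_⟩)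
      ((Nat.minFac_dvd e).trans (Int.natCast_dvd_natCast.1 h2))
    · exact_mod_cast Nat.minFac_pos e
    · exact le_trans (by exact_mod_cast (Nat.minFac_le (mem_Icc.1 he).1).trans (mem_Icc.1 he).2) hD
  · exact fun h1 => absurd (mem_Icc.2 ⟨le_rfl, h.lo⟩) h1

theorem term {Λ : ℕ → ℝ} {X D : ℕ} (h : Sv Λ D) (hD : (D : ℝ) ≤ zz X) (t : ℝ) (q x : ℕ) :
    Ft X t x ≤ (∑ p ∈ (pr ((X : ℝ) ^ (1 / 2 - t)) √(2 * X : ℝ)).erase q,
      if (p : ℤ) ∣ (x : ℤ) then nw Λ D x else 0) + if (q : ℤ) ∣ (x : ℤ) then 1 else 0 := by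
  have h0 : (0 : ℝ) ≤ if (q : ℤ) ∣ (x : ℤ) then 1 else 0 := by split_ifs <;> norm_num
  rw [Ft, Rz]
  by_cases hx : ∀ p ∈ pr 0 (zz X), ¬ p ∣ x
  · rw [if_pos hx, one_mul, nw_one h hD hx, om]
    simp only [Int.natCast_dvd_natCast] at h0 ⊢
    by_cases hq : q ∈ pr ((X : ℝ) ^ (1 / 2 - t)) √(2 * X : ℝ)
    · exact (sum_erase_add _ _ hq).ge
    · rw [erase_eq_of_notMem hq]; linarith
  · rw [if_neg hx, zero_mul]
    refine add_nonneg (sum_nonneg fun p _ => ?_) h0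
    split_ifs
    exacts [h.pos _, le_rfl]

end TOP

theorem blk_TOP (hGT : St_GT) : St_TOP := by
  obtain ⟨-, -, -, -, -, -, -, h8, -, h10⟩ := hGT
  refine ⟨fun X D q n Λ t hX h hD hq => ?_, fun X D p Λ n h => ?_,
    fun X D p Λ n g hX hp hg hG => ?_⟩
  · refine le_trans ?_ (add_le_add_right (h10 X q n hX hq) _)
    rw [h8]
    unfold TA
    rw [sum_comm, ← sum_add_distrib]
    refine sum_le_sum fun m _ => ?_
    have hw := (w_pos X m).le
    by_cases hm : m ^ 2 < (n : ℤ)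
    · have h1 := mul_le_mul_of_nonneg_left (TOP.term h hD t q ((n : ℤ) - m ^ 2).toNat) hw
      rw [Int.toNat_of_nonneg (by linarith), mul_add, mul_sum] at h1
      rw [if_pos hm]
      simpa only [mul_ite, mul_one, mul_zero] using h1
    · rw [if_neg hm]
      refine add_nonneg (sum_nonneg fun p _ => ?_) ?_ <;> split_ifs
      exacts [mul_nonneg hw (h.pos _), le_rfl, hw, le_rfl]
  · refine sum_nonneg fun m _ => ?_
    split_ifs
    exacts [mul_nonneg (w_pos X m).le (h.pos _), le_rfl]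
  · have e : TA X Λ D n p = Gm Λ D n *
        (∑ m ∈ box (M3 X), if (p : ℤ) ∣ n - m ^ 2 then w X m else 0) + RR X Λ D n p := by
      rw [TA, RR, mul_sum, ← sum_add_distrib]
      refine sum_congr rfl fun m _ => ?_
      split_ifs
      · rw [Th]; ring
      · ring
    have h1 : 0 ≤ ∑ m ∈ box (M3 X), if (p : ℤ) ∣ n - m ^ 2 then w X m else 0 :=
      sum_nonneg fun m _ => by
        split_ifs
        exacts [(w_pos X m).le, le_rfl]
    rw [e]
    exact add_le_add ((mul_le_mul_of_nonneg_right hG h1).trans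
      (mul_le_mul_of_nonneg_left (h10 X p n hX hp) hg)) (le_abs_self _)

end Pool.Agent.Lib.APQ
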