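import Pool.Agent.Lib.APQ.Kit

/-!
The model sum on the fractions whose denominators are divisible by `q`.
-/

namespace Pool.Agent.Lib.APQ

open Finset Real Complex Filter Pool.Agent.Lib.PS
open scoped NumberTheorySymbols ArithmeticFunction.Moebius Classical ComplexConjugate

namespace TSH

theorem GG_le (A h : ℤ) {r : ℕ} (hr : 1 ≤ r) : ‖GG A h r / r‖ ≤ 1 := by
  rw [norm_div, Complex.norm_natCast]
  refine div_le_one_of_le₀ ((norm_sum_le _ _).trans_eq ?_) (by positivity)
  simp [maj_ee_norm]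

theorem far {P q v r s : ℕ} {c b : ℤ} {η : ℝ} (hq : q.Prime) (hv : ¬ q ∣ v) (hr : 1 ≤ r)
    (hs : 1 ≤ s) (hsP : s ≤ P) (hP : P < q) (hc : ¬ (q : ℤ) ∣ c)
    (hη : q * r * |η| * P ≤ 1 / 2) :
    1 / (2 * q * r * P : ℝ) ≤ nz (v * (c : ℝ) / (q * r) + η - b / s) := by
  refine le_nz fun n => ?_
  have q0 : (0 : ℝ) < q := by exact_mod_cast hq.pos
  have r0 : (0 : ℝ) < r := by exact_mod_cast hr
  have s0 : (0 : ℝ) < s := by exact_mod_cast hs
  have sP : (s : ℝ) ≤ P := by exact_mod_cast hsP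
  have P0 : (0 : ℝ) < P := s0.trans_le sP
  have h1 : (v : ℤ) * c * s - q * (b * r + n * r * s) ≠ 0 := fun e => by
    have h2 : (q : ℤ) ∣ v * c * s := ⟨_, sub_eq_zero.1 e⟩
    have hp := Nat.prime_iff_prime_int.1 hq
    rcases hp.dvd_or_dvd h2 with h | h
    · exact (hp.dvd_or_dvd h).elim (fun k => hv (Int.natCast_dvd_natCast.1 k)) hc
    · exact absurd (Nat.le_of_dvd hs (Int.natCast_dvd_natCast.1 h)) (by omega)
  have h2 : (1 : ℝ) ≤ |(v : ℝ) * c * s - q * (b * r + n * r * s)| := by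
    exact_mod_cast Int.one_le_abs h1
  have h3 : v * (c : ℝ) / (q * r) + η - b / s - n =
      ((v : ℝ) * c * s - q * (b * r + n * r * s)) / (q * r * s) - -η := by
    field_simp
    ring
  have h4 : 1 / (q * r * P : ℝ) ≤ |((v : ℝ) * c * s - q * (b * r + n * r * s)) / (q * r * s)| := by
    rw [abs_div, abs_of_pos (show (0 : ℝ) < q * r * s by positivity)]
    gcongr
  have h5 : |η| ≤ 1 / (2 * q * r * P : ℝ) := by
    rw [le_div_iff₀ (by positivity)]
    linarith
  have h6 : 1 / (q * r * P : ℝ) = 2 * (1 / (2 * q * r * P : ℝ)) := by field_simp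
  rw [h3]
  refine le_trans ?_ (abs_sub_abs_le_abs_sub _ _)
  rw [abs_neg]
  linarith

end TSH

open TSH in
theorem blk_TSH (hSPC : St_SPC) (hIB : St_IB) (hAF : St_AF) : St_TSH := by
  intro X P q v r b₁ η hq hv hr hP hPq hX hη
  have q0 : (0 : ℝ) < q := by exact_mod_cast hq.pos
  have r0 : (0 : ℝ) < r := by exact_mod_cast hr
  have P0 : (0 : ℝ) < P := by exact_mod_cast hP
  have X0 : (0 : ℝ) < √(X : ℝ) := P0.trans_le hX
  have l0 : 0 ≤ Real.log q := Real.log_natCast_nonneg q
  have hI := (hIB.1 X P hP hX).2.2.1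
  have hco : IsCoprime (v : ℤ) (q : ℤ) :=
    Nat.isCoprime_iff_coprime.2 ((Nat.Prime.coprime_iff_not_dvd hq).2 hv).symm
  set E : ℝ := 8 * P * (q * r * P + q * (1 + Real.log q)) / √(X : ℝ) with hE
  have E0 : 0 ≤ E := by positivity
  have h1 : ∀ s ∈ Icc 1 P, ∀ b' : ℕ, ∑ b ∈ nb q r b₁,
      ‖II X P (v * ((b : ℝ) * r + b₁) / (q * r) + η - (b' : ℝ) / s)‖ ≤ E := fun s hs b' => by
    obtain ⟨s1, s2⟩ := mem_Icc.1 hs
    rw [nb, sum_filter]
    refine (hSPC q v (v * b₁ / (q * r) + η - b' / s) (2 * P / √(X : ℝ) * (2 * q * r * P))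
      (2 * P / √(X : ℝ)) _ hq.pos hco (by positivity) (by positivity) fun i _ => ?_).trans ?_
    · split_ifs with h
      · exact ⟨by positivity, by rw [zero_mul]; positivity⟩
      · have h2 := (hI (v * ((i : ℝ) * r + b₁) / (q * r) + η - (b' : ℝ) / s)).2
        have h3 := far (b := b') hq hv hr s1 s2 hPq h hη
        push_cast at h3
        refine ⟨?_, le_of_eq_of_le ?_ h2⟩
        · rw [← div_le_iff₀ (by positivity), div_eq_mul_one_div]
          exact (mul_le_mul_of_nonneg_left h3 (norm_nonneg _)).trans h2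
        · congr 2
          push_cast
          field_simp
          ring
    · rw [hE, le_div_iff₀ X0]
      have : 0 ≤ (P : ℝ) * q * (1 + Real.log q) := by positivity
      refine le_of_eq_of_le (b := 8 * P * (q * r * P) + 4 * (P * q * (1 + Real.log q)))
        (by field_simp; ring) (by linarith)
  calc _ ≤ ∑ b ∈ nb q r b₁, ∑ s ∈ Icc 1 P, ∑ b' ∈ (range s).filter (fun b => Nat.Coprime b s),
        ‖II X P (v * ((b : ℝ) * r + b₁) / (q * r) + η - (b' : ℝ) / s)‖ := by
        refine sum_le_sum fun b _ => ?_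
        rw [hAF.2.2.2.2.2]
        refine norm_sum_le_of_le _ fun s hs => norm_sum_le_of_le _ fun b' _ => ?_
        rw [norm_mul]
        exact mul_le_of_le_one_left (norm_nonneg _) (GG_le _ _ (mem_Icc.1 hs).1)
    _ ≤ ∑ s ∈ Icc 1 P, P * E := by
        rw [sum_comm]
        refine sum_le_sum fun s hs => ?_
        rw [sum_comm]
        refine (sum_le_card_nsmul _ _ _ fun b' _ => h1 s hs b').trans ?_
        rw [nsmul_eq_mul]
        refine mul_le_mul_of_nonneg_right (Nat.cast_le.2 ((card_filter_le _ _).trans ?_)) E0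
        rw [card_range]
        exact (mem_Icc.1 hs).2
    _ = _ := by
        rw [sum_const, Nat.card_Icc, nsmul_eq_mul, hE, Nat.add_sub_cancel]
        ring

end Pool.Agent.Lib.APQ
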