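import Pool.Agent.Lib.APQ.Kit

/-! Upper sieve weights indexed by integers. -/

namespace Pool.Agent.Lib.APQ

open Finset Real Complex Filter Pool.Agent.Lib.PS
open scoped NumberTheorySymbols ArithmeticFunction.Moebius Classical ComplexConjugate

namespace WT

/-- the weights -/
noncomputable def La (z : ℝ) (c : Finset ℕ → ℝ) (e : ℕ) : ℝ :=
  if Squarefree e ∧ e.primeFactors ⊆ pr 0 z then c e.primeFactors else 0

theorem La_ne {z : ℝ} {c : Finset ℕ → ℝ} {e : ℕ} (h : La z c e ≠ 0) :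
    Squarefree e ∧ e.primeFactors ⊆ pr 0 z := by
  by_contra h1
  exact h (if_neg h1)

theorem sqf {S : Finset ℕ} (h : ∀ p ∈ S, p.Prime) : Squarefree (∏ p ∈ S, p) :=
  Finset.squarefree_prod_of_pairwise_isCoprime
    (fun p hp q hq hpq => Nat.coprime_iff_isRelPrime.1 ((Nat.coprime_primes (h p hp) (h q hq)).2 hpq))
    fun p hp => (h p hp).prime.squarefree

theorem transfer {z : ℝ} {c : Finset ℕ → ℝ} {D : ℕ}
    (hD : ∀ S ⊆ pr 0 z, c S ≠ 0 → ∏ p ∈ S, p ≤ D) (f x : ℕ → ℝ)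
    (hf : ∀ e, Squarefree e → f e = ∏ p ∈ e.primeFactors, x p) :
    ∑ e ∈ Icc 1 D, La z c e * f e = ∑ S ∈ (pr 0 z).powerset, c S * ∏ p ∈ S, x p := by
  refine Finset.sum_bij_ne_zero (fun e _ _ => e.primeFactors) ?_ ?_ ?_ ?_
  · intro e _ h
    exact mem_powerset.2 (La_ne (left_ne_zero_of_mul h)).2
  · intro e _ h e' _ h' he
    rw [← Nat.prod_primeFactors_of_squarefree (La_ne (left_ne_zero_of_mul h)).1, he,
      Nat.prod_primeFactors_of_squarefree (La_ne (left_ne_zero_of_mul h')).1]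
  · intro S hS h
    have h1 := mem_powerset.1 hS
    have h2 : ∀ p ∈ S, p.Prime := fun p hp => (mem_filter.1 (h1 hp)).2
    have h3 := Nat.primeFactors_prod h2
    refine ⟨∏ p ∈ S, p, mem_Icc.2 ⟨(sqf h2).ne_zero.bot_lt, hD S h1 (left_ne_zero_of_mul h)⟩,
      ?_, h3⟩
    rwa [La, if_pos ⟨sqf h2, h3.symm ▸ h1⟩, hf _ (sqf h2), h3]
  · intro e _ h
    have h1 := La_ne (left_ne_zero_of_mul h)
    rw [La, if_pos h1, hf e h1.1]

theorem ind_prod (s : ℤ) {e : ℕ} (he : Squarefree e) : (if (e : ℤ) ∣ s then (1 : ℝ) else 0) =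
    ∏ p ∈ e.primeFactors, if (p : ℤ) ∣ s then (1 : ℝ) else 0 := by
  rw [Finset.prod_boole]
  refine if_congr ⟨fun h p hp => (Int.natCast_dvd_natCast.2 (Nat.dvd_of_mem_primeFactors hp)).trans h,
    fun h => ?_⟩ rfl rfl
  rw [Int.natCast_dvd, ← Nat.prod_primeFactors_of_squarefree he]
  exact Finset.prod_primes_dvd _ (fun p hp => (Nat.prime_of_mem_primeFactors hp).prime)
    fun p hp => Int.natCast_dvd.1 (h p hp)

theorem cast_prod {e : ℕ} (he : Squarefree e) : (e : ℝ) = ∏ p ∈ e.primeFactors, (p : ℝ) := by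
  rw [← Nat.cast_prod, Nat.prod_primeFactors_of_squarefree he]

end WT

theorem blk_WT (hWT1 : St_WT1) (hAG : St_AG) : St_WT := by
  obtain ⟨C, u, C0, u1, h⟩ := hWT1
  obtain ⟨-, a2, -, -, -, a6, -, a8, C', C0', a9⟩ := hAG
  have u1' : (1 : ℝ) ≤ u := by exact_mod_cast u1
  have c0 : (0 : ℝ) < 1 / (25 * u) := by positivity
  refine ⟨C * C' * (25 * u), 1 / (25 * u), by positivity, c0,
    one_div_le_one_div_of_le (by norm_num) (by linarith), ?_⟩
  filter_upwards [ev_rpow 2 c0, ev_rpow 1 (show (0 : ℝ) < 1 / 25 by norm_num), ev_lg 1,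
    eventually_ge_atTop 1] with X h2 h1 hl hX
  have hX' : (0 : ℝ) < X := by exact_mod_cast hX
  obtain ⟨c, c1, c2, c3, c4, c5⟩ := h _ h2
  obtain ⟨v0, v1⟩ := a9 _ h2
  set z := (X : ℝ) ^ (1 / (25 * (u : ℝ))) with hz
  have hzu : z ^ u = (X : ℝ) ^ (1 / 25 : ℝ) := by
    rw [hz, ← Real.rpow_natCast, ← Real.rpow_mul hX'.le]
    congr 1
    field_simp
  have hD : ∀ S ⊆ pr 0 z, c S ≠ 0 → ∏ p ∈ S, p ≤ ⌊(X : ℝ) ^ (1 / 25 : ℝ)⌋₊ := fun S hS h0 =>
    Nat.le_floor (by rw [Nat.cast_prod, ← hzu]; exact c3 S hS h0)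
  have hV : C * Vz z ≤ C * C' * (25 * u) / lg X := by
    rw [hz, Real.log_rpow hX'] at v1
    refine (mul_le_mul_of_nonneg_left v1 C0.le).trans (le_of_eq ?_)
    have : Real.log X ≠ 0 := (lt_of_lt_of_le one_pos hl).ne'
    rw [lg]
    field_simp
  have hp : ∀ p ∈ pr 0 z, p.Prime ∧ (2 : ℝ) ≤ p := fun p hp =>
    ⟨(mem_filter.1 hp).2, by exact_mod_cast (mem_filter.1 hp).2.two_le⟩
  refine ⟨WT.La z c, ⌊(X : ℝ) ^ (1 / 25 : ℝ)⌋₊, ⟨fun e => ?_, fun e he => (WT.La_ne he).1, ?_,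
    fun s => ?_, Nat.le_floor (by exact_mod_cast h1)⟩, Nat.floor_le (by positivity), ?_, fun n => ?_⟩
  · unfold WT.La
    split_ifs
    exacts [c1 _, by simp]
  · simp [WT.La, c2]
  · have := WT.transfer hD (fun e => if (e : ℤ) ∣ s then 1 else 0)
      (fun p => if (p : ℤ) ∣ s then 1 else 0) fun e he => WT.ind_prod s he
    simp only [mul_ite, mul_one, mul_zero] at this
    rw [nw, this]
    exact c4 _ fun p _ => by split_ifs <;> simp
  · have := WT.transfer hD (fun e => 1 / (e : ℝ)) (fun p => 1 / (p : ℝ)) fun e he => by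
      rw [Finset.prod_div_distrib, prod_const_one, ← WT.cast_prod he]
    simp only [mul_one_div] at this
    have hx : ∀ p ∈ pr 0 z, 0 ≤ 1 / (p : ℝ) ∧ 1 / (p : ℝ) ≤ 2 / 3 ∧ 1 / (p : ℝ) ≤ 2 / p :=
      fun p hp' => by
        have := (hp p hp').2
        refine ⟨by positivity, ?_, by gcongr; norm_num⟩
        rw [div_le_div_iff₀ (by linarith) (by norm_num)]
        linarith
    rw [this, abs_of_nonneg (c4 _ fun p hp' => ⟨(hx p hp').1, by linarith [(hx p hp').2.1]⟩)]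
    exact (c5 _ hx).trans hV
  · have := WT.transfer hD (fun e => (rho e n : ℝ) / e) (fun p => (rho p n : ℝ) / p) fun e he => by
      rw [Finset.prod_div_distrib, ← WT.cast_prod he, (a6 e n he).1, Nat.cast_prod]
    simp only [← mul_div_assoc] at this
    rw [Gm, this]
    refine (c5 _ fun p hp' => ?_).trans ?_
    · have h3 := (hp p hp').2
      have h4 : (rho p n : ℝ) ≤ 2 := by exact_mod_cast (a2 p n (hp p hp').1).1
      have h5 : 3 * (rho p n : ℝ) ≤ 2 * p := by exact_mod_cast (a2 p n (hp p hp').1).2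
      refine ⟨by positivity, ?_, by gcongr⟩
      rw [div_le_div_iff₀ (by linarith) (by norm_num)]
      linarith
    · rw [(a8 n z).2, ← mul_assoc, mul_div_right_comm]
      exact mul_le_mul_of_nonneg_right hV (a8 n z).1.le

end Pool.Agent.Lib.APQ
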