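import Pool.Agent.Lib.APQ.Kit
import Pool.Agent.Lib.LQ.B2

/-!
Upper sieve weights of Brun-Hooley type.
-/

namespace Pool.Agent.Lib.APQ

open Finset Real Complex Filter Pool.Agent.Lib.PS
open scoped NumberTheorySymbols ArithmeticFunction.Moebius Classical ComplexConjugate

namespace WT1

theorem at_zero (I : Finset ℕ) (c : Finset ℕ → ℝ) :
    ∑ S ∈ I.powerset, c S * ∏ _i ∈ S, (0 : ℝ) = c ∅ := by
  rw [sum_eq_single ∅]
  · simp
  · intro S _ hS
    obtain ⟨i, hi⟩ := nonempty_iff_ne_empty.2 hS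
    rw [prod_eq_zero hi rfl, mul_zero]
  · simp

theorem Bf_at_zero (I : Finset ℕ) (k : ℕ) : LQ.B2.Bf I k (fun _ => 0) = 1 := by
  rw [LQ.B2.Bf, at_zero I fun S => if S.card ≤ k then (-1 : ℝ) ^ S.card else 0]
  simp

theorem exp_le_prod' (I : Finset ℕ) (p : ℕ → ℝ) (hp : ∀ i ∈ I, 0 ≤ p i ∧ p i ≤ 2 / 3) :
    Real.exp (-2 * ∑ i ∈ I, p i) ≤ ∏ i ∈ I, (1 - p i) := by
  rw [mul_sum, Real.exp_sum]
  refine prod_le_prod (fun i _ => (Real.exp_pos _).le) fun i hi => ?_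
  obtain ⟨h0, h1⟩ := hp i hi
  have h2 := Real.quadratic_le_exp_of_nonneg (show 0 ≤ 2 * p i by linarith)
  rw [neg_mul, Real.exp_neg, inv_le_comm₀ (Real.exp_pos _) (by linarith)]
  refine le_trans ?_ h2
  rw [inv_le_iff_one_le_mul₀ (by linarith)]
  have h3 : 0 ≤ p i * (1 - 2 * p i ^ 2) := mul_nonneg h0 (by nlinarith)
  nlinarith

theorem block_sum {y : ℝ} (hy : 1 < y) (S : Finset ℕ) (x : ℕ → ℝ)
    (hS : ∀ p ∈ S, p.Prime ∧ y < p ∧ (p : ℝ) ≤ y ^ 2)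
    (hx : ∀ p ∈ S, 0 ≤ x p ∧ x p ≤ 2 / 3 ∧ x p ≤ 2 / p) : ∑ p ∈ S, x p ≤ 70 := by
  have hsub : S ⊆ pr y (y ^ 2) := fun p hp => (mem_pr (by linarith)).2 (hS p hp)
  rcases lt_or_ge y 2 with h | h
  · have h1 : ∑ p ∈ S, x p ≤ ∑ _p ∈ S, (1 : ℝ) :=
      sum_le_sum fun p hp => by linarith [(hx p hp).2.1]
    have h2 : (S.card : ℝ) ≤ y ^ 2 :=
      (Nat.cast_le.2 (card_le_card hsub)).trans (card_pr_le (by positivity))
    rw [sum_const, nsmul_eq_mul, mul_one] at h1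
    nlinarith
  · have h1 : ∑ p ∈ S, x p ≤ 2 * ∑ p ∈ pr y (y ^ 2), (1 : ℝ) / p := by
      rw [mul_sum]
      refine (sum_le_sum fun p hp => (hx p hp).2.2.trans (le_of_eq (by ring))).trans
        (sum_le_sum_of_subset_of_nonneg hsub fun p _ _ => by positivity)
    have h2 := sum_pr_le h (show y ≤ y ^ 2 by nlinarith)
    have h3 : Real.log 2 ≤ Real.log y := Real.log_le_log (by norm_num) h
    have h4 := Real.log_two_gt_d9
    have h5 := Real.log_two_lt_d9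
    have h6 : Real.log (y ^ 2) / Real.log y = 2 := by
      rw [Real.log_pow]
      have : Real.log y ≠ 0 := by linarith
      field_simp
      norm_num
    have h7 : 22 / Real.log y ≤ 33 := by
      rw [div_le_iff₀ (by linarith)]
      linarith
    rw [h6] at h2
    linarith

end WT1

open WT1 LQ.B2 in
theorem blk_WT1 : St_WT1 := by
  obtain ⟨k0, hk0⟩ := Filter.eventually_atTop.1
    ((FloorSemiring.tendsto_pow_div_factorial_atTop (2 * 70 : ℝ)).eventually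
      (ge_mem_nhds (show 0 < Real.exp (-2 * 70) by positivity)))
  refine ⟨Real.exp 1, 4 * k0 + 6, Real.exp_pos _, by omega, fun z hz => ?_⟩
  have hz0 : 0 < z := by linarith
  have hz1 : 1 < z := by linarith
  set I := pr 0 z with hI
  have hIm : ∀ i ∈ I, i.Prime ∧ (2 : ℝ) ≤ i ∧ (i : ℝ) ≤ z := fun i hi => by
    obtain ⟨h1, -, h3⟩ := (mem_pr le_rfl).1 hi
    exact ⟨h1, by exact_mod_cast h1.two_le, h3⟩
  set v : ℕ → ℝ := fun j => z ^ ((1 / 2 : ℝ) ^ j) with hwd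
  have hw1 : ∀ j, 1 < v j := fun j => Real.one_lt_rpow hz1 (by positivity)
  have hsq : ∀ j, v (j + 1) ^ 2 = v j := fun j => by
    simp only [hwd]
    rw [← Real.rpow_natCast, ← Real.rpow_mul hz0.le]
    congr 1
    push_cast
    ring
  set J := ⌊z⌋₊ with hJ
  have hJ2 : 2 ≤ J := Nat.le_floor (by exact_mod_cast hz)
  have hwJ : v J < 2 := by
    have h1 : z < (2 : ℝ) ^ (2 ^ J) := by
      refine (Nat.lt_floor_add_one z).trans_le ?_
      have a1 : J < 2 ^ J := Nat.lt_two_pow_self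
      have a2 : 2 ^ J < 2 ^ (2 ^ J) := Nat.lt_two_pow_self
      exact_mod_cast (show J + 1 ≤ 2 ^ (2 ^ J) by omega)
    refine (Real.rpow_lt_rpow hz0.le h1 (by positivity)).trans_le (le_of_eq ?_)
    rw [← Real.rpow_natCast, ← Real.rpow_mul (by norm_num)]
    push_cast
    rw [← mul_pow]
    norm_num
  set bl : ℕ → ℕ := fun i => sInf {j | v (j + 1) < (i : ℝ)} with hblk
  have hin : ∀ i ∈ I, J - 1 ∈ {j | v (j + 1) < (i : ℝ)} := fun i hi => by
    show v (J - 1 + 1) < (i : ℝ)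
    rw [Nat.sub_add_cancel (by omega)]
    linarith [(hIm i hi).2.1]
  have hlo : ∀ i ∈ I, v (bl i + 1) < (i : ℝ) := fun i hi => Nat.sInf_mem ⟨_, hin i hi⟩
  have hhi : ∀ i ∈ I, (i : ℝ) ≤ v (bl i) := fun i hi => by
    rcases h : bl i with _ | j
    · simpa [hwd] using (hIm i hi).2.2
    · exact not_lt.1 (Nat.notMem_of_lt_sInf (s := {j | v (j + 1) < (i : ℝ)})
        (show j < bl i by omega))
  have hlt : ∀ i ∈ I, bl i < J := fun i hi => by
    have : bl i ≤ J - 1 := Nat.sInf_le (hin i hi)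
    omega
  set Ib : ℕ → Finset ℕ := fun j => I.filter fun i => bl i = j with hIb
  have hmem : ∀ j, ∀ i ∈ Ib j, i ∈ I ∧ bl i = j := fun j i hi => mem_filter.1 hi
  have hfib : ∀ f : ℕ → ℝ, ∏ i ∈ I, f i = ∏ j ∈ range J, ∏ i ∈ Ib j, f i := fun f =>
    (prod_fiberwise_of_maps_to (fun i hi => mem_range.2 (hlt i hi)) f).symm
  have hd : ∀ i j, i ≠ j → Disjoint (Ib i) (Ib j) := fun i j hij =>
    disjoint_left.2 fun x h1 h2 => hij ((hmem _ _ h1).2.symm.trans (hmem _ _ h2).2)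
  have hNb : ∀ j, ∀ i ∈ Ib j, (0 : ℝ) ≤ (i : ℝ) ∧ (i : ℝ) ≤ v j := fun j i hi => by
    obtain ⟨h1, h2⟩ := hmem j i hi
    exact ⟨Nat.cast_nonneg _, h2 ▸ hhi i h1⟩
  have hU : @Finset.biUnion ℕ ℕ (fun a b => Classical.propDecidable (a = b)) (range J) Ib = I := by
    ext i
    simp only [mem_biUnion]
    exact ⟨fun ⟨j, _, hj⟩ => (hmem j i hj).1,
      fun hi => ⟨bl i, mem_range.2 (hlt i hi), mem_filter.2 ⟨hi, rfl⟩⟩⟩
  have hG := Good.prod (N := fun i : ℕ => (i : ℝ)) Ib (fun j => v j ^ (2 * (k0 + j) + 1))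
    (fun j => Bf (Ib j) (2 * (k0 + j))) (fun j => good_Bf _ (hw1 j).le (hNb j)) hd
    (fun j i hi => (hNb j i hi).1) (range J)
  rw [hU] at hG
  obtain ⟨c, c1, c2, c3⟩ := hG
  have hZ : ∏ j ∈ range J, v j ^ (2 * (k0 + j) + 1) ≤ z ^ (4 * k0 + 6) := by
    have e : ∀ j, v j ^ (2 * (k0 + j) + 1) = z ^ ((1 / 2 : ℝ) ^ j * ((2 * k0 + 1) + 2 * j)) := by
      intro j
      simp only [hwd]
      rw [← Real.rpow_natCast, ← Real.rpow_mul hz0.le]
      congr 1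
      push_cast
      ring
    simp only [e]
    rw [← Real.rpow_sum_of_pos hz0, sum_exp, ← Real.rpow_natCast z]
    refine Real.rpow_le_rpow_of_exponent_le hz1.le ?_
    have : 0 ≤ (1 / 2 : ℝ) ^ J * (2 * (2 * k0 + 1) + 4 * J + 4) := by positivity
    push_cast
    linarith
  have hV : ∀ y : ℕ → ℝ, (∀ i ∈ I, 0 ≤ y i ∧ y i ≤ 1) → ∀ j, 0 ≤ ∏ i ∈ Ib j, (1 - y i) :=
    fun y hy j => prod_nonneg fun i hi => sub_nonneg.2 (hy i (hmem j i hi).1).2
  have hB0 : ∀ y : ℕ → ℝ, (∀ i ∈ I, 0 ≤ y i ∧ y i ≤ 1) → ∀ j, 0 ≤ Bf (Ib j) (2 * (k0 + j)) y :=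
    fun y hy j => (hV y hy j).trans (bonf_even _ _ (fun i hi => hy i (hmem j i hi).1) _).1
  refine ⟨c, c1, ?_, fun S hS h0 => (c2 S hS h0).trans hZ, fun x hx => ?_, fun x hx => ?_⟩
  · have h := c3 fun _ => 0
    rw [at_zero] at h
    rw [← h]
    exact prod_eq_one fun j _ => Bf_at_zero _ _
  · rw [← c3]
    exact prod_nonneg fun j _ => hB0 x hx j
  · have hx1 : ∀ i ∈ I, 0 ≤ x i ∧ x i ≤ 1 := fun i hi => ⟨(hx i hi).1, by linarith [(hx i hi).2.1]⟩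
    have hE : ∀ j, Ef (Ib j) (2 * (k0 + j) + 1) x ≤ (1 / 2) ^ (j + 1) * ∏ i ∈ Ib j, (1 - x i) := by
      intro j
      have hp : ∀ i ∈ Ib j, 0 ≤ x i ∧ x i ≤ 2 / 3 := fun i hi =>
        ⟨(hx i (hmem j i hi).1).1, (hx i (hmem j i hi).1).2.1⟩
      have hs : ∑ i ∈ Ib j, x i ≤ 70 := by
        refine block_sum (hw1 (j + 1)) _ x (fun i hi => ?_) fun i hi => hx i (hmem j i hi).1
        obtain ⟨h1, h2⟩ := hmem j i hi
        rw [hsq]
        exact ⟨(hIm i h1).1, h2 ▸ hlo i h1, h2 ▸ hhi i h1⟩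
      have hs0 : 0 ≤ ∑ i ∈ Ib j, x i := sum_nonneg fun i hi => (hp i hi).1
      have h1 := hk0 (2 * (k0 + j) + 1) (by omega)
      have h2 : (1 / 2 : ℝ) ^ (2 * (k0 + j) + 1) ≤ (1 / 2) ^ (j + 1) :=
        pow_le_pow_of_le_one (by norm_num) (by norm_num) (by omega)
      have h3 : Real.exp (-2 * 70) ≤ ∏ i ∈ Ib j, (1 - x i) :=
        (Real.exp_le_exp.2 (by linarith)).trans (exp_le_prod' _ x hp)
      refine (Ef_le _ x (fun i hi => (hp i hi).1) _).trans ((div_le_div_of_nonneg_right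
        (pow_le_pow_left₀ hs0 hs _) (Nat.cast_nonneg _)).trans ?_)
      have e : (70 : ℝ) ^ (2 * (k0 + j) + 1) / ((2 * (k0 + j) + 1).factorial : ℝ) =
          (1 / 2) ^ (2 * (k0 + j) + 1) *
            ((2 * 70) ^ (2 * (k0 + j) + 1) / ((2 * (k0 + j) + 1).factorial : ℝ)) := by
        rw [← mul_div_assoc, ← mul_pow]
        congr 2
        ring
      rw [e]
      exact mul_le_mul h2 (h1.trans h3) (by positivity) (by positivity)
    have hB : ∀ j, Bf (Ib j) (2 * (k0 + j)) x ≤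
        (∏ i ∈ Ib j, (1 - x i)) * Real.exp ((1 / 2) ^ (j + 1)) := fun j => by
      have h1 := (bonf_even _ _ (fun i hi => hx1 i (hmem j i hi).1) (k0 + j)).2
      have h2 := mul_le_mul_of_nonneg_left (Real.add_one_le_exp ((1 / 2 : ℝ) ^ (j + 1)))
        (hV x hx1 j)
      have h3 := hE j
      linarith
    have hV0 : 0 ≤ ∏ i ∈ I, (1 - x i) := prod_nonneg fun i hi => sub_nonneg.2 (hx1 i hi).2
    rw [← c3]
    refine (prod_le_prod (fun j _ => hB0 x hx1 j) fun j _ => hB j).trans ?_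
    rw [prod_mul_distrib, ← hfib, ← Real.exp_sum, sum_half, mul_comm]
    refine mul_le_mul_of_nonneg_right (Real.exp_le_exp.2 ?_) hV0
    have : (0 : ℝ) ≤ (1 / 2) ^ J := by positivity
    linarith

end Pool.Agent.Lib.APQ
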