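import Pool.Agent.Lib.APQ.Kit

/-!
The mean square of the off diagonal terms on the minor arcs.
-/

namespace Pool.Agent.Lib.APQ

open Finset Real Complex Filter Pool.Agent.Lib.PS
open scoped NumberTheorySymbols ArithmeticFunction.Moebius Classical ComplexConjugate

namespace YB

theorem blk_lt {K' : ℕ} (hK : 1 ≤ K') (x : ℝ) : blk K' x < K' := by
  have h0 : (0 : ℝ) < K' := by exact_mod_cast hK
  rw [blk, Nat.floor_lt (mul_nonneg h0.le (Int.fract_nonneg x))]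
  nlinarith [Int.fract_lt_one x]

theorem nz_blk {K' : ℕ} (hK : 1 ≤ K') (x : ℝ) : nz (x - (blk K' x : ℝ) / K') ≤ 1 / K' := by
  have h0 : (0 : ℝ) < K' := by exact_mod_cast hK
  have h1 : (blk K' x : ℝ) ≤ K' * Int.fract x :=
    Nat.floor_le (mul_nonneg h0.le (Int.fract_nonneg x))
  have h2 : K' * Int.fract x < (blk K' x : ℝ) + 1 := Nat.lt_floor_add_one _
  refine (nz_le _ ⌊x⌋).trans ?_
  have h3 : x - (blk K' x : ℝ) / K' - ⌊x⌋ = (K' * Int.fract x - blk K' x) / K' := by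
    rw [Int.fract]; field_simp; ring
  rw [h3, abs_of_nonneg (div_nonneg (by linarith) h0.le)]
  gcongr
  linarith

theorem fib {K' : ℕ} (I : Finset ℕ) (h : ℕ → ℝ) (a b : ℕ → ℕ) (ha : ∀ i, a i < K')
    (hb : ∀ i, b i < K') :
    ∑ i ∈ I, h (a i) * h (b i) = ∑ p ∈ range K' ×ˢ range K',
      h p.1 * h p.2 * ((I.filter fun i => a i = p.1 ∧ b i = p.2).card : ℝ) := by
  rw [← sum_fiberwise_of_maps_to (s := I) (t := range K' ×ˢ range K') (g := fun i => (a i, b i))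
    fun i _ => mem_product.mpr ⟨mem_range.mpr (ha i), mem_range.mpr (hb i)⟩]
  refine sum_congr rfl fun p _ => ?_
  rw [sum_congr (s₂ := I.filter fun i => a i = p.1 ∧ b i = p.2) (g := fun _ => h p.1 * h p.2)
    (filter_congr fun i _ => Prod.ext_iff) fun i hi => by
      rw [(mem_filter.mp hi).2.1, (mem_filter.mp hi).2.2], sum_const, nsmul_eq_mul, mul_comm]

end YB

theorem blk_YB (hBLK : St_BLK) (hMU : St_MU) (hYC : St_YC) : St_YB := by
  obtain ⟨C, hC, hMU⟩ := hMU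
  refine ⟨2 * C, by positivity, fun β K K' N V ρ S I hβ hV hρ hS hK hN hI hM => ?_⟩
  have hK0 : (0 : ℝ) < K' := by linarith
  have hK1 : 1 ≤ K' := by exact_mod_cast hK0
  obtain ⟨h, h0, h1, h2⟩ := hBLK β K K' hβ hK1
  have hc : ∀ p : ℕ × ℕ, ∑ v ∈ S.offDiag, ((I.filter fun i : ℕ =>
      blk K' (v.2 * ((i : ℝ) / N)) = p.1 ∧ blk K' (v.1 * ((i : ℝ) / N)) = p.2).card : ℝ) ≤
      C * (1 + V ^ 3 / K' + V ^ 2 / ρ) * (2 * N / (K' * V)) := by
    intro p
    have h3 := hMU V (1 / K') ρ (p.1 / K') (p.2 / K') S hV (by positivity) hρ hS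
    rw [mul_one_div] at h3
    refine le_trans ?_ (mul_le_mul_of_nonneg_right h3 (by positivity))
    rw [← nsmul_eq_mul, ← sum_const, sum_filter]
    refine sum_le_sum fun v hv => ?_
    obtain ⟨m1, m2, m3⟩ := mem_offDiag.mp hv
    split_ifs with h4
    · refine le_trans (Nat.cast_le.mpr (card_le_card (filter_subset_filter _ hI))) ?_
      exact hYC K' N v.1 v.2 p.1 p.2 V hV (hS _ m1).1 (hS _ m2).1 m3 (hS _ m1).2.2 (hS _ m2).2.1
        (hS _ m2).2.2 hK hN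
    · rw [filter_eq_empty_iff.mpr, card_empty, Nat.cast_zero]
      intro i hi h5
      exact h4 ⟨_, hM i hi, h5.1 ▸ YB.nz_blk hK1 _, h5.2 ▸ YB.nz_blk hK1 _⟩
  have hB : 0 ≤ C * (1 + V ^ 3 / K' + V ^ 2 / ρ) * (2 * N / (K' * V)) := by positivity
  have hs : 0 ≤ ∑ j ∈ range K', h j := sum_nonneg fun j _ => h0 j
  calc _ ≤ ∑ v ∈ S.offDiag, ∑ i ∈ I,
        h (blk K' (v.2 * ((i : ℝ) / N))) * h (blk K' (v.1 * ((i : ℝ) / N))) :=
        sum_le_sum fun v _ => sum_le_sum fun i _ =>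
          mul_le_mul (h1 _) (h1 _) (by positivity) (h0 _)
    _ = ∑ p ∈ range K' ×ˢ range K', h p.1 * h p.2 * ∑ v ∈ S.offDiag, ((I.filter fun i : ℕ =>
        blk K' (v.2 * ((i : ℝ) / N)) = p.1 ∧ blk K' (v.1 * ((i : ℝ) / N)) = p.2).card : ℝ) := by
        simp only [mul_sum]
        rw [sum_comm (s := range K' ×ˢ range K')]
        exact sum_congr rfl fun v _ =>
          YB.fib I h _ _ (fun _ => YB.blk_lt hK1 _) fun _ => YB.blk_lt hK1 _
    _ ≤ ∑ p ∈ range K' ×ˢ range K', h p.1 * h p.2 *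
        (C * (1 + V ^ 3 / K' + V ^ 2 / ρ) * (2 * N / (K' * V))) :=
        sum_le_sum fun p _ => mul_le_mul_of_nonneg_left (hc p) (mul_nonneg (h0 _) (h0 _))
    _ = (∑ j ∈ range K', h j) ^ 2 * (C * (1 + V ^ 3 / K' + V ^ 2 / ρ) * (2 * N / (K' * V))) := by
        rw [← sum_mul, pow_two (∑ j ∈ range K', h j), sum_mul_sum, sum_product]
    _ ≤ bS K K' ^ 2 * (C * (1 + V ^ 3 / K' + V ^ 2 / ρ) * (2 * N / (K' * V))) := by gcongr
    _ = _ := by ring

end Pool.Agent.Lib.APQ
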