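import Pool.Agent.Lib.APQ.Kit

/-!
Block YC: grid points with two prescribed blocks.
-/

namespace Pool.Agent.Lib.APQ

open Finset Real Complex Filter Pool.Agent.Lib.PS
open scoped NumberTheorySymbols ArithmeticFunction.Moebius Classical ComplexConjugate

namespace YC

theorem near {K' : ℕ} {x y : ℝ} (h : blk K' x = blk K' y) :
    K' * |x - y - (⌊x⌋ - ⌊y⌋ : ℤ)| < 1 := by
  have h1 := Nat.floor_le (mul_nonneg (Nat.cast_nonneg K') (Int.fract_nonneg x))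
  have h2 := Nat.floor_le (mul_nonneg (Nat.cast_nonneg K') (Int.fract_nonneg y))
  have h3 := Nat.lt_floor_add_one (K' * Int.fract x)
  have h4 := Nat.lt_floor_add_one (K' * Int.fract y)
  rw [blk, blk] at h
  rw [h] at h1 h3
  rw [← abs_of_nonneg (Nat.cast_nonneg (α := ℝ) K'), ← abs_mul, abs_lt]
  simp only [Int.fract] at h1 h2 h3 h4
  push_cast
  constructor <;> linarith

theorem fl {v : ℕ} {θ : ℝ} (hv : 0 < v) (h0 : 0 ≤ θ) (h1 : θ < 1) :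
    0 ≤ ⌊v * θ⌋ ∧ ⌊v * θ⌋ < v :=
  ⟨Int.floor_nonneg.2 (by positivity), Int.floor_lt.2 (by
    have : (0 : ℝ) < v := by exact_mod_cast hv
    push_cast
    nlinarith)⟩

theorem close {K' v₁ v₂ : ℕ} {V θ θ' : ℝ} (hV : 1 ≤ V) (p1 : v₁.Prime) (p2 : v₂.Prime)
    (hne : v₁ ≠ v₂) (h1 : (v₁ : ℝ) ≤ 2 * V) (h2 : (v₂ : ℝ) ≤ 2 * V) (hK : 16 * V ≤ K')
    (a0 : 0 ≤ θ) (a1 : θ < 1) (b0 : 0 ≤ θ') (b1 : θ' < 1)
    (e2 : blk K' (v₂ * θ) = blk K' (v₂ * θ')) (e1 : blk K' (v₁ * θ) = blk K' (v₁ * θ')) :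
    K' * |v₂ * θ - v₂ * θ'| < 1 := by
  have n1 := near e1
  have n2 := near e2
  have f1 := fl p2.pos a0 a1
  have f2 := fl p2.pos b0 b1
  generalize ⌊v₁ * θ⌋ - ⌊v₁ * θ'⌋ = a at n1
  obtain ⟨b, hb⟩ : ∃ b, b = ⌊v₂ * θ⌋ - ⌊v₂ * θ'⌋ := ⟨_, rfl⟩
  rw [← hb] at n2
  have h3 : (v₁ : ℤ) * b - v₂ * a = 0 := by
    rw [← Int.abs_lt_one_iff]
    have h4 : ((v₁ : ℝ) * b - v₂ * a) =
        v₂ * (v₁ * θ - v₁ * θ' - a) - v₁ * (v₂ * θ - v₂ * θ' - b) := by ring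
    have h5 : |(v₁ : ℝ) * b - v₂ * a| < 1 := by
      rw [h4]
      refine (abs_sub _ _).trans_lt ?_
      rw [abs_mul, abs_mul, Nat.abs_cast, Nat.abs_cast]
      nlinarith [abs_nonneg (v₁ * θ - v₁ * θ' - a), abs_nonneg (v₂ * θ - v₂ * θ' - b)]
    exact_mod_cast h5
  have h6 : (v₂ : ℤ) ∣ b := (Nat.isCoprime_iff_coprime.2
    ((Nat.coprime_primes p2 p1).2 hne.symm)).dvd_of_dvd_mul_left ⟨a, by linarith⟩
  rw [Int.eq_zero_of_abs_lt_dvd h6 (abs_lt.2 ⟨by omega, by omega⟩)] at n2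
  simpa using n2

theorem card_le {T : Finset ℕ} {L : ℝ} (hL : 1 ≤ L) (h : ∀ i ∈ T, ∀ j ∈ T, (i : ℝ) - j ≤ L) :
    (T.card : ℝ) ≤ 2 * L := by
  rcases T.eq_empty_or_nonempty with rfl | hT
  · simp only [card_empty, Nat.cast_zero]
    linarith
  have h1 : T ⊆ Icc (T.min' hT) (T.min' hT + ⌊L⌋₊) := fun i hi => by
    have h2 := T.min'_le i hi
    have h3 : i - T.min' hT ≤ ⌊L⌋₊ :=
      Nat.le_floor (by rw [Nat.cast_sub h2]; exact h i hi _ (T.min'_mem hT))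
    exact mem_Icc.2 ⟨h2, by omega⟩
  have h4 := card_le_card h1
  rw [Nat.card_Icc, show T.min' hT + ⌊L⌋₊ + 1 - T.min' hT = ⌊L⌋₊ + 1 by omega] at h4
  have h5 : (T.card : ℝ) ≤ ⌊L⌋₊ + 1 := by exact_mod_cast h4
  linarith [Nat.floor_le (show 0 ≤ L by linarith)]

end YC

theorem blk_YC : St_YC := by
  intro K' N v₁ v₂ j j' V hV p1 p2 hne h1 h2 h3 hK hN
  have k0 : (0 : ℝ) < K' := by linarith
  have k1 : 0 < K' * V := by positivity
  have n0 : (0 : ℝ) < N := by linarith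
  rw [mul_div_assoc]
  refine YC.card_le ((one_le_div k1).2 hN) fun i hi i' hi' => ?_
  simp only [mem_filter, mem_range] at hi hi'
  have h4 := YC.close hV p1 p2 hne h1 h3 hK (by positivity)
    ((div_lt_one n0).2 (by exact_mod_cast hi.1)) (by positivity)
    ((div_lt_one n0).2 (by exact_mod_cast hi'.1)) (hi.2.1.trans hi'.2.1.symm)
    (hi.2.2.trans hi'.2.2.symm)
  rw [← mul_sub, ← sub_div, abs_mul, abs_div, Nat.abs_cast, Nat.abs_cast, ← mul_div_assoc,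
    ← mul_div_assoc, div_lt_one n0] at h4
  rw [le_div_iff₀ k1]
  have h5 := mul_le_mul_of_nonneg_left (mul_le_mul_of_nonneg_right h2.le
    (abs_nonneg ((i : ℝ) - i'))) k0.le
  nlinarith [mul_le_mul_of_nonneg_right (le_abs_self ((i : ℝ) - i')) k1.le]

end Pool.Agent.Lib.APQ
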