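import Pool.Agent.Lib.APQ.Kit

/-!
The off diagonal terms, split into the zone without and the zone with a good approximation.
-/

namespace Pool.Agent.Lib.APQ

open Finset Real Complex Filter Pool.Agent.Lib.PS
open scoped NumberTheorySymbols ArithmeticFunction.Moebius Classical ComplexConjugate

namespace ZON

theorem arc {ρ D θ : ℝ} (hρ : 0 ≤ ρ) (hD : 0 ≤ D) (h : ¬ Mn ρ D θ) : ∃ r b, Arc ρ D θ r b := by
  unfold Mn at h
  push Not at h
  obtain ⟨r, b, h1, h2, h3⟩ := h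
  have h4 : (Rat.divInt b r).den ≤ r :=
    Nat.le_of_dvd h1 (Int.natCast_dvd_natCast.1 (Rat.den_dvd b r))
  have h5 : (((Rat.divInt b r).den : ℕ) : ℝ) ≤ r := by exact_mod_cast h4
  have h6 := (Rat.divInt b r).den_pos
  have h7 : (0 : ℝ) < ((Rat.divInt b r).den : ℕ) := by exact_mod_cast h6
  refine ⟨(Rat.divInt b r).den, (Rat.divInt b r).num, h6, h5.trans h2,
    Rat.isCoprime_num_den _, ?_⟩
  rw [← Rat.cast_def, Rat.cast_divInt, Int.cast_natCast]
  exact h3.trans (div_le_div_of_nonneg_left (mul_nonneg hρ hD) h7 h5)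

theorem pt (S : Finset ℕ) (x : ℕ → ℝ) (p : ℕ → Prop) [DecidablePred p]
    (hT : (S.filter p).card ≤ 1) :
    ∑ v ∈ S.offDiag, x v.2 * x v.1 ≤
      2 * S.card * ∑ v ∈ S.filter (fun v => ¬ p v), x v ^ 2 + ∑ v ∈ S, x v ^ 2 := by
  have h1 : (∑ v ∈ S, x v) ^ 2 = ∑ v ∈ S, x v ^ 2 + ∑ v ∈ S.offDiag, x v.2 * x v.1 := by
    rw [_root_.sq, sum_mul_sum, ← sum_product', ← diag_union_offDiag,
      sum_union (disjoint_diag_offDiag S), sum_diag]
    simp only [_root_.sq, mul_comm]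
  have h2 := sum_filter_add_sum_filter_not S p x
  have h3 : (∑ v ∈ S.filter p, x v) ^ 2 ≤ ∑ v ∈ S, x v ^ 2 := by
    refine sq_sum_le_card_mul_sum_sq.trans ?_
    have h4 : ∑ v ∈ S.filter p, x v ^ 2 ≤ ∑ v ∈ S, x v ^ 2 :=
      sum_le_sum_of_subset_of_nonneg (filter_subset _ _) fun _ _ _ => sq_nonneg _
    have h5 : ((S.filter p).card : ℝ) ≤ 1 := by exact_mod_cast hT
    have h6 : 0 ≤ ∑ v ∈ S.filter p, x v ^ 2 := sum_nonneg fun _ _ => sq_nonneg _
    nlinarith
  have h4 : (∑ v ∈ S.filter (fun v => ¬ p v), x v) ^ 2 ≤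
      S.card * ∑ v ∈ S.filter (fun v => ¬ p v), x v ^ 2 :=
    sq_sum_le_card_mul_sum_sq.trans (mul_le_mul_of_nonneg_right
      (Nat.cast_le.2 (card_filter_le _ _)) (sum_nonneg fun _ _ => sq_nonneg _))
  rw [← h2] at h1
  nlinarith [sq_nonneg (∑ v ∈ S.filter p, x v - ∑ v ∈ S.filter (fun v => ¬ p v), x v)]

theorem one {V : ℝ} {S : Finset ℕ} (hS : PV V S) (hV : 0 ≤ V) {r : ℕ} (h1 : 1 ≤ r)
    (h2 : (r : ℝ) ≤ V * V) : (S.filter fun v => v ∣ r).card ≤ 1 := by
  refine card_le_one.2 fun a ha b hb => ?_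
  obtain ⟨a1, a2⟩ := mem_filter.1 ha
  obtain ⟨b1, b2⟩ := mem_filter.1 hb
  by_contra hne
  have h3 : a * b ≤ r := Nat.le_of_dvd h1
    (((Nat.coprime_primes (hS a a1).1 (hS b b1).1).2 hne).mul_dvd_of_dvd_of_dvd a2 b2)
  have h4 : (a : ℝ) * b ≤ r := by exact_mod_cast h3
  have h5 := mul_lt_mul'' (hS a a1).2.1 (hS b b1).2.1 hV hV
  linarith

theorem par (hPAR : St_PAR) {β : ℕ → ℝ} (hβ : ∀ k, |β k| ≤ 1) (K : ℕ) {N v : ℕ} (hN : 1 ≤ N)
    (hv : 0 < v) :
    ∑ i ∈ range N, ‖bh β K (v * ((i : ℝ) / N))‖ ^ 2 ≤ (N + v * K) * K := by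
  have h := hPAR ℕ (range K) (fun k => (v : ℤ) * k) (fun k => (β k : ℂ)) N ((v : ℝ) * K) hN
    (by positivity)
    (fun a _ b _ e => by
      have h1 : (v : ℤ) ≠ 0 := by exact_mod_cast hv.ne'
      exact_mod_cast mul_left_cancel₀ h1 e)
    (fun a ha b hb => by
      have h1 : (a : ℝ) ≤ K := by exact_mod_cast (mem_range.1 ha).le
      have h2 : (b : ℝ) ≤ K := by exact_mod_cast (mem_range.1 hb).le
      have h3 : (0 : ℝ) ≤ a := a.cast_nonneg
      have h4 : (0 : ℝ) ≤ b := b.cast_nonneg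
      have h5 : (0 : ℝ) ≤ v := v.cast_nonneg
      push_cast
      rw [← mul_sub, abs_mul, abs_of_nonneg h5]
      exact mul_le_mul_of_nonneg_left (abs_le.2 ⟨by linarith, by linarith⟩) h5)
  have h1 : ∑ x ∈ range K, ‖(β x : ℂ)‖ ^ 2 ≤ K := by
    refine (sum_le_card_nsmul _ _ 1 fun x _ => ?_).trans (by simp)
    rw [Complex.norm_real, Real.norm_eq_abs]
    exact pow_le_one₀ (abs_nonneg _) (hβ x)
  refine le_trans (le_of_eq (sum_congr rfl fun i _ => ?_))
    (h.trans (mul_le_mul_of_nonneg_left h1 (by positivity)))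
  rw [bh]
  refine congrArg (fun t : ℂ => ‖t‖ ^ 2) (sum_congr rfl fun k _ => ?_)
  refine congrArg (fun t : ℝ => (β k : ℂ) * ee t) ?_
  push_cast
  ring

theorem bS_ge (K : ℕ) (K' : ℕ) : 3 * (K' : ℝ) * K ≤ bS K K' := by
  have h1 := Real.log_natCast_nonneg K'
  have h2 : (0 : ℝ) ≤ K := K.cast_nonneg
  have h3 : (0 : ℝ) ≤ K' := K'.cast_nonneg
  have h4 := mul_nonneg h3 h1
  rw [bS]
  exact mul_le_mul_of_nonneg_right (by nlinarith) h2

end ZON

theorem blk_ZON (hYB : St_YB) (hM1 : St_M1) (hPAR : St_PAR) : St_ZON := by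
  obtain ⟨C, hC, hY⟩ := hYB
  refine ⟨12 * C + 98, by positivity,
    fun β K K' N V R g₁ G₂ S g hβ hR hRV hS hK hK' hN _hg hg₁ hG₂ hG hA => ?_⟩
  have hV : 1 ≤ V := hR.trans hRV
  have hV0 : 0 < V := by linarith
  have hR0 : 0 < R := by linarith
  have hVR : V ≤ V * R := le_mul_of_one_le_right hV0.le hR
  have hV2 : V ^ 2 ≤ (V * R) ^ 2 := pow_le_pow_left₀ hV0.le hVR 2
  have hVV : V ≤ V ^ 2 := by nlinarith
  have hK0 : (0 : ℝ) < K' := by linarith
  have hK1 : 1 ≤ K' := by exact_mod_cast hK0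
  have hN0 : (0 : ℝ) < N := lt_of_lt_of_le (mul_pos hK0 hV0) hN
  have hN1 : 1 ≤ N := by exact_mod_cast hN0
  have hKK : (K : ℝ) ≤ K' := by exact_mod_cast hK
  have hb := ZON.bS_ge K K'
  have hb0 : 0 ≤ bS K K' := le_trans (by positivity) hb
  have hn := hS.card_le hV0.le
  have hn0 : (0 : ℝ) ≤ S.card := Nat.cast_nonneg _
  set x : ℕ → ℕ → ℝ := fun v i => ‖bh β K (v * ((i : ℝ) / N))‖ with hx
  have hx0 : ∀ v i, 0 ≤ x v i := fun v i => norm_nonneg _
  set p : ℕ → Prop := fun i => Mn (V * R) (1 / K' / V) ((i : ℝ) / N) with hp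
  -- the zone without a good approximation
  have hI : ∑ v ∈ S.offDiag, ∑ i ∈ (range N).filter p, g v.1 v.2 ((i : ℝ) / N) * x v.2 i * x v.1 i
      ≤ (12 * C + 98) * N * V * bS K K' * √(G₂ / (K' * R)) := by
    have h1 := hY β K K' N V (V * R) S ((range N).filter p) hβ hV (by positivity) hS (by linarith)
      hN (filter_subset _ _) fun i hi => (mem_filter.1 hi).2
    have h2 : (1 + V ^ 3 / K' + V ^ 2 / (V * R)) / (K' * V) ≤ 3 / (K' * R) := by
      have e1 : 1 ≤ V / R := (one_le_div hR0).2 hRV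
      have e2 : V ^ 3 / K' ≤ V / R := by
        rw [div_le_div_iff₀ hK0 hR0]
        have e3 : V ^ 2 * R ≤ K' := by nlinarith [mul_nonneg (sq_nonneg V) hR0.le]
        nlinarith
      have e3 : V ^ 2 / (V * R) = V / R := by field_simp
      have e4 : 3 / (K' * R) = 3 * (V / R) / (K' * V) := by field_simp
      rw [e3, e4]
      exact div_le_div_of_nonneg_right (by linarith) (by positivity)
    have h3 : ∑ v ∈ S.offDiag, ∑ i ∈ (range N).filter p, x v.2 i ^ 2 * x v.1 i ^ 2 ≤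
        C * N * bS K K' ^ 2 * (3 / (K' * R)) := by
      refine h1.trans ?_
      rw [mul_div_assoc]
      exact mul_le_mul_of_nonneg_left h2 (by positivity)
    have h4 : ∑ v ∈ S.offDiag, ∑ i ∈ (range N).filter p, g v.1 v.2 ((i : ℝ) / N) ^ 2 ≤
        4 * V ^ 2 * (N * G₂) := by
      refine (sum_le_card_nsmul _ _ (N * G₂) fun v hv => (sum_le_sum_of_subset_of_nonneg
        (filter_subset _ _) fun _ _ _ => sq_nonneg _).trans (hG v hv)).trans ?_
      rw [nsmul_eq_mul]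
      refine mul_le_mul_of_nonneg_right ?_ (by positivity)
      have e1 : S.offDiag.card ≤ S.card * S.card := by
        rw [offDiag_card]
        exact Nat.sub_le _ _
      have e2 : (S.offDiag.card : ℝ) ≤ S.card * S.card := by exact_mod_cast e1
      nlinarith
    have h5 := sum_mul_sq_le_sq_mul_sq (S.offDiag ×ˢ (range N).filter p)
      (fun t => g t.1.1 t.1.2 ((t.2 : ℝ) / N)) (fun t => x t.1.2 t.2 * x t.1.1 t.2)
    simp only [sum_product, mul_pow, ← mul_assoc] at h5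
    refine le_of_sq_le_sq (h5.trans ((mul_le_mul h4 h3
      (sum_nonneg fun _ _ => sum_nonneg fun _ _ => by positivity) (by positivity)).trans ?_))
      (by positivity)
    rw [mul_pow _ (√_), Real.sq_sqrt (by positivity)]
    have e1 : 4 * V ^ 2 * (N * G₂) * (C * N * bS K K' ^ 2 * (3 / (K' * R))) =
        12 * C * ((N * V * bS K K') ^ 2 * (G₂ / (K' * R))) := by ring
    have e2 : ((12 * C + 98) * N * V * bS K K') ^ 2 * (G₂ / (K' * R)) =
        (12 * C + 98) ^ 2 * ((N * V * bS K K') ^ 2 * (G₂ / (K' * R))) := by ring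
    rw [e1, e2]
    exact mul_le_mul_of_nonneg_right (by nlinarith) (by positivity)
  -- the zone with a good approximation
  have hJ : ∑ v ∈ S.offDiag, ∑ i ∈ (range N).filter (fun i => ¬ p i),
      g v.1 v.2 ((i : ℝ) / N) * x v.2 i * x v.1 i ≤
        (12 * C + 98) * N * V * bS K K' * (g₁ / K') := by
    have h0 : ∀ i : ℕ, ∃ r b, ¬ p i → Arc (V * R) (1 / K' / V) ((i : ℝ) / N) r b := fun i => by
      by_cases h : p i
      · exact ⟨0, 0, fun h' => (h' h).elim⟩
      · obtain ⟨r, b, h1⟩ := ZON.arc (by positivity) (by positivity) h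
        exact ⟨r, b, fun _ => h1⟩
    choose r b hrb using h0
    set I := (range N).filter (fun i => ¬ p i) with hIdef
    have h1 : ∑ i ∈ I, ∑ v ∈ S.filter (fun v => ¬ v ∣ r i), x v i ^ 2 ≤
        S.card * (12 * N * bS K K' / (K' * V)) := by
      simp only [sum_filter]
      rw [sum_comm, ← nsmul_eq_mul]
      refine sum_le_card_nsmul _ _ _ fun v hv => ?_
      rw [← sum_filter]
      exact hM1 β K K' N v V (V * R) _ hβ hV (hS v hv).1 (hS v hv).2.1 (hS v hv).2.2 hK1 hK' hN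
        ((filter_subset _ _).trans (filter_subset _ _)) fun i hi =>
          ⟨r i, b i, hrb i (mem_filter.1 (mem_filter.1 hi).1).2, (mem_filter.1 hi).2⟩
    have h2 : ∑ i ∈ I, ∑ v ∈ S, x v i ^ 2 ≤ S.card * (N * bS K K' / K') := by
      rw [sum_comm, ← nsmul_eq_mul]
      refine sum_le_card_nsmul _ _ _ fun v hv => (sum_le_sum_of_subset_of_nonneg
        (filter_subset _ _) fun _ _ _ => sq_nonneg _).trans
          ((ZON.par hPAR hβ K hN1 (hS v hv).1.pos).trans ?_)
      have e1 : (v : ℝ) * K ≤ 2 * V * K' :=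
        mul_le_mul (hS v hv).2.2 hKK K.cast_nonneg (by positivity)
      have e2 : (N + v * K) * K ≤ 3 * (N : ℝ) * K :=
        mul_le_mul_of_nonneg_right (by linarith) K.cast_nonneg
      rw [le_div_iff₀ hK0]
      nlinarith [mul_le_mul_of_nonneg_left hb hN0.le, mul_le_mul_of_nonneg_right e2 hK0.le]
    have h3 : ∑ i ∈ I, ∑ v ∈ S.offDiag, x v.2 i * x v.1 i ≤ 98 * (N * V * bS K K' / K') := by
      refine (sum_le_sum fun i hi => ZON.pt S (fun v => x v i) (fun v => v ∣ r i)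
        (ZON.one hS hV0.le (hrb i (mem_filter.1 hi).2).1 ((hrb i (mem_filter.1 hi).2).2.1.trans
          (mul_le_mul_of_nonneg_left hRV hV0.le)))).trans ?_
      rw [sum_add_distrib, ← mul_sum]
      have e1 : 0 ≤ N * bS K K' / K' := by positivity
      have e2 : 2 * (S.card : ℝ) * (S.card * (12 * N * bS K K' / (K' * V))) ≤
          2 * (2 * V) * (2 * V * (12 * N * bS K K' / (K' * V))) := by gcongr
      have e3 : 2 * (2 * V) * (2 * V * (12 * N * bS K K' / (K' * V))) =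
          96 * (N * V * bS K K' / K') := by field_simp; ring
      have e4 : 2 * V * (N * bS K K' / K') = 2 * (N * V * bS K K' / K') := by ring
      have e5 := mul_le_mul_of_nonneg_left h1 (show 0 ≤ 2 * (S.card : ℝ) by positivity)
      have e6 := mul_le_mul_of_nonneg_right hn e1
      linarith
    rw [sum_comm]
    have h4 : ∑ i ∈ I, ∑ v ∈ S.offDiag, g v.1 v.2 ((i : ℝ) / N) * x v.2 i * x v.1 i ≤
        g₁ * ∑ i ∈ I, ∑ v ∈ S.offDiag, x v.2 i * x v.1 i := by
      rw [mul_sum]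
      refine sum_le_sum fun i hi => ?_
      rw [mul_sum]
      refine sum_le_sum fun v hv => ?_
      rw [mul_assoc]
      exact mul_le_mul_of_nonneg_right (hA v hv _ _ _ (hrb i (mem_filter.1 hi).2))
        (mul_nonneg (hx0 _ _) (hx0 _ _))
    refine h4.trans ((mul_le_mul_of_nonneg_left h3 hg₁).trans ?_)
    have e1 : g₁ * (98 * (N * V * bS K K' / K')) = 98 * (N * V * bS K K' * (g₁ / K')) := by ring
    have e2 : (12 * C + 98) * N * V * bS K K' * (g₁ / K') =
        (12 * C + 98) * (N * V * bS K K' * (g₁ / K')) := by ring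
    rw [e1, e2]
    exact mul_le_mul_of_nonneg_right (by linarith) (by positivity)
  rw [mul_add]
  refine le_trans (le_of_eq ?_) (add_le_add hI hJ)
  rw [OF, ← sum_add_distrib]
  exact sum_congr rfl fun v _ => (sum_filter_add_sum_filter_not _ _ _).symm

end Pool.Agent.Lib.APQ
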