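import Pool.Agent.Lib.APQ.B_PAR
import Pool.Agent.Lib.APQ.B_ABEL
import Pool.Agent.Lib.APQ.B_SPC
import Pool.Agent.Lib.APQ.B_GT
import Pool.Agent.Lib.APQ.B_TH
import Pool.Agent.Lib.APQ.B_GS
import Pool.Agent.Lib.APQ.B_EN
import Pool.Agent.Lib.APQ.B_KLAV
import Pool.Agent.Lib.APQ.B_IB
import Pool.Agent.Lib.APQ.B_AF
import Pool.Agent.Lib.APQ.B_AG
import Pool.Agent.Lib.APQ.B_SIG
import Pool.Agent.Lib.APQ.B_TSH
import Pool.Agent.Lib.APQ.B_GID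
import Pool.Agent.Lib.APQ.B_TOEP
import Pool.Agent.Lib.APQ.B_DIAG
import Pool.Agent.Lib.APQ.B_BLK
import Pool.Agent.Lib.APQ.B_MU1
import Pool.Agent.Lib.APQ.B_MU
import Pool.Agent.Lib.APQ.B_YC
import Pool.Agent.Lib.APQ.B_YB
import Pool.Agent.Lib.APQ.B_M1
import Pool.Agent.Lib.APQ.B_REP
import Pool.Agent.Lib.APQ.B_GL2
import Pool.Agent.Lib.APQ.B_EB1
import Pool.Agent.Lib.APQ.B_EB
import Pool.Agent.Lib.APQ.B_GD
import Pool.Agent.Lib.APQ.B_Z1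
import Pool.Agent.Lib.APQ.B_ZON
import Pool.Agent.Lib.APQ.B_T2
import Pool.Agent.Lib.APQ.B_FLQ
import Pool.Agent.Lib.APQ.B_FLC
import Pool.Agent.Lib.APQ.B_T1
import Pool.Agent.Lib.APQ.B_JV
import Pool.Agent.Lib.APQ.B_AA1
import Pool.Agent.Lib.APQ.B_AA2
import Pool.Agent.Lib.APQ.B_AA
import Pool.Agent.Lib.APQ.B_RAM
import Pool.Agent.Lib.APQ.B_SQ
import Pool.Agent.Lib.APQ.B_PW
import Pool.Agent.Lib.APQ.B_MT2
import Pool.Agent.Lib.APQ.B_F2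
import Pool.Agent.Lib.APQ.B_IGS
import Pool.Agent.Lib.APQ.B_PB2
import Pool.Agent.Lib.APQ.B_DSP1
import Pool.Agent.Lib.APQ.B_DSP2
import Pool.Agent.Lib.APQ.B_DSP
import Pool.Agent.Lib.APQ.B_F1M
import Pool.Agent.Lib.APQ.B_WT1
import Pool.Agent.Lib.APQ.B_WT
import Pool.Agent.Lib.APQ.B_TOP
import Pool.Agent.Lib.APQ.B_F3T
import Pool.Agent.Lib.APQ.B_NUMa
import Pool.Agent.Lib.APQ.B_NUMb
import Pool.Agent.Lib.APQ.B_NUM
import Pool.Agent.Lib.APQ.B_DY1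
import Pool.Agent.Lib.APQ.B_DY
import Pool.Agent.Lib.APQ.B_ALL

/-! Assembly of all blocks. -/

namespace Pool.Agent.Lib.APQ

theorem all_apq : St_ALL := by
  have hPAR := blk_PAR
  have hABEL := blk_ABEL
  have hSPC := blk_SPC
  have hGS := blk_GS
  have hEN := blk_EN
  have hKLAV := blk_KLAV hEN
  have hAF := blk_AF
  have hAG := blk_AG
  have hGT := blk_GT hABEL hAG
  have hTH := blk_TH hGT
  have hIB := blk_IB hABEL hGT
  have hSIG := blk_SIG hTH hGS hIB hAF hGT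
  have hTSH := blk_TSH hSPC hIB hAF
  have hGID := blk_GID
  have hTOEP := blk_TOEP hGID hGT
  have hDIAG := blk_DIAG hGT hIB hAF hABEL
  have hBLK := blk_BLK
  have hMU1 := blk_MU1
  have hMU := blk_MU hMU1
  have hYC := blk_YC
  have hYB := blk_YB hBLK hMU hYC
  have hM1 := blk_M1 hBLK
  have hREP := blk_REP
  have hGL2 := blk_GL2 hPAR hGID hREP hGT hIB hAF hABEL
  have hEB1 := blk_EB1 hGS
  have hEB := blk_EB hTH hEB1 hKLAV hGT
  have hGD := blk_GD hTSH hGT hIB hAF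
  have hZ1 := blk_Z1 hGD hEB hSIG
  have hZON := blk_ZON hYB hM1 hPAR
  have hT2 := blk_T2 hTOEP hDIAG hZON hGL2 hZ1
  have hFLQ := blk_FLQ
  have hFLC := blk_FLC hFLQ hABEL hAG
  have hT1 := blk_T1 hFLC hGT hIB hAG hABEL
  have hJV := blk_JV
  have hAA1 := blk_AA1
  have hAA2 := blk_AA2 hJV
  have hAA := blk_AA hAA1 hAA2
  have hRAM := blk_RAM
  have hSQ := blk_SQ hGT hIB hABEL hAG
  have hPW := blk_PW hABEL
  have hMT2 := blk_MT2 hPW hAF hIB hRAM hABEL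
  have hF2 := blk_F2 hT2 hMT2 hRAM hGT
  have hIGS := blk_IGS hSPC hABEL
  have hPB2 := blk_PB2 hIGS hSPC hABEL
  have hDSP1 := blk_DSP1 hABEL hAG hGT
  have hDSP2 := blk_DSP2 hDSP1 hPB2 hABEL hAG hGT
  have hDSP := blk_DSP hDSP2
  have hF1M := blk_F1M hPB2 hGT
  have hWT1 := blk_WT1
  have hWT := blk_WT hWT1 hAG
  have hTOP := blk_TOP hGT
  have hF3T := blk_F3T hTOP hWT hDSP hF1M hAG
  have hNUMa := blk_NUMa
  have hNUMb := blk_NUMb hPW hIB hABEL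
  have hNUM := blk_NUM hNUMa hNUMb hIB hRAM
  have hDY1 := blk_DY1 hRAM hGT
  have hDY := blk_DY hNUM hT1 hAA hF2 hF3T hSQ hDY1
  have hALL := blk_ALL hDY
  exact hALL

end Pool.Agent.Lib.APQ
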