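import Pool.Agent.Lib.APQ.Kit

/-!
The pointwise inequality for an integer that is not a prime plus a square.
-/

namespace Pool.Agent.Lib.APQ

open Finset Real Complex Filter Pool.Agent.Lib.PS
open scoped NumberTheorySymbols ArithmeticFunction.Moebius Classical ComplexConjugate

namespace DY1

theorem wsum {S : Finset ℕ} {c f g : ℕ → ℝ} {k : ℝ} (hc : ∀ x, 0 ≤ c x)
    (h : ∀ x ∈ S, |f x| ≤ k * g x) : |∑ x ∈ S, c x * f x| ≤ k * ∑ x ∈ S, c x * g x := by
  rw [mul_sum]
  refine (abs_sum_le_sum_abs _ _).trans (sum_le_sum fun x hx => ?_)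
  rw [abs_mul, abs_of_nonneg (hc x), mul_left_comm]
  exact mul_le_mul_of_nonneg_left (h x hx) (hc x)

theorem sq_zero {X n x : ℕ} (hn : ¬ Rep n) (hx : x.Prime) : sq X ((n : ℤ) - x) = 0 := by
  refine sum_eq_zero fun m _ => if_neg fun h => hn ⟨x, m.natAbs, hx, ?_⟩
  have h1 : (n : ℤ) = x + (m.natAbs : ℤ) ^ 2 := by rw [Int.natCast_natAbs, sq_abs]; linarith
  exact_mod_cast h1

end DY1

open DY1 in
theorem blk_DY1 (hRAM : St_RAM) (hGT : St_GT) : St_DY1 := by
  intro X P n d t Q S hX hd hd' ht ht' hn hQ hrep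
  obtain ⟨-, -, -, -, -, -, -, -, h9, -⟩ := hGT
  have hR := fun x (hx : x ∈ Icc 1 n) =>
    hRAM X x d t hX hd hd' ht ht' (mem_Icc.1 hx).1 ((mem_Icc.1 hx).2.trans hn)
  have ha : ∀ x : ℕ, 0 ≤ sq X ((n : ℤ) - x) := fun x => (h9 X P _).1
  have hb : ∀ x : ℕ, 0 ≤ s0 X P ((n : ℤ) - x) := fun x => (h9 X P _).2.2.1
  have h1 : AA X n (F0 X t) - AA X n (Ft X t) ≤ 2 := by
    unfold AA
    rw [← sum_sub_distrib]
    have h2 : ∀ x ∈ Icc 1 n, sq X ((n : ℤ) - x) * F0 X t x - sq X ((n : ℤ) - x) * Ft X t x ≤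
        if x = 1 then 2 else 0 := fun x hx => by
      rw [← mul_sub]
      split_ifs with h
      · have := mul_le_mul_of_nonneg_left (hR x hx).2.1 (ha x)
        linarith [(h9 X P ((n : ℤ) - x)).2.1]
      · have h3 := mul_le_mul_of_nonneg_left
          ((hR x hx).1 (by have := (mem_Icc.1 hx).1; omega)) (ha x)
        refine h3.trans (le_of_eq ?_)
        unfold ip
        split_ifs with hp
        · rw [sq_zero hrep hp, zero_mul]
        · rw [mul_zero]
    refine (sum_le_sum h2).trans ?_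
    rw [sum_ite_eq']
    split_ifs <;> norm_num
  have h2 : |AA X n (F0 X t) - (AA X n (F1 X d t) - AA X n (F2 X d t))| ≤ 6 * AA X n (Fq X d) := by
    have := wsum ha fun x hx => (hR x hx).2.2.1
    simp only [mul_sub, sum_sub_distrib] at this
    exact this
  have h3 : |BB X P n (F0 X t) - (BB X P n (F1 X d t) - BB X P n (F2 X d t))| ≤
      6 * BB X P n (Fq X d) := by
    have := wsum hb fun x hx => (hR x hx).2.2.1
    simp only [mul_sub, sum_sub_distrib] at this
    exact this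
  have h4 : |BB X P n (F2 X d t)| ≤ 3 * BB X P n (Rz ((X : ℝ) ^ d)) :=
    wsum hb fun x hx => (hR x hx).2.2.2.1
  have h5 := mul_le_mul_of_nonneg_left (abs_le.1 h3).2 hQ
  have h6 : (S - Q) * BB X P n (F2 X d t) ≤ 3 * |S - Q| * BB X P n (Rz ((X : ℝ) ^ d)) := by
    refine (le_abs_self _).trans ?_
    rw [abs_mul, mul_comm 3, mul_assoc]
    exact mul_le_mul_of_nonneg_left h4 (abs_nonneg _)
  have h7 := neg_abs_le (AA X n (F1 X d t) - Q * BB X P n (F1 X d t))
  have h8 := le_abs_self (AA X n (F2 X d t) - S * BB X P n (F2 X d t))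
  have h10 := (abs_le.1 h2).1
  linarith

end Pool.Agent.Lib.APQ
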