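import Pool.Agent.Lib.APQ.Kit

/-!
Block F2: the bilinear part of the sieve on average over the progression.
-/

namespace Pool.Agent.Lib.APQ

open Finset Real Complex Filter Pool.Agent.Lib.PS
open scoped NumberTheorySymbols ArithmeticFunction.Moebius Classical ComplexConjugate

namespace F2

theorem reindex {p n N : ℕ} (hp : 0 < p) (hN : ∀ u, u * p ≤ n → u ≤ N) (g : ℤ → ℝ)
    (hg : ∀ y < 0, g y = 0) (f : ℕ → ℝ) :
    ∑ x ∈ Icc 1 n, g ((n : ℤ) - x) * (if p ∣ x then f (x / p) else 0) =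
      ∑ u ∈ Icc 1 N, f u * g ((n : ℤ) - u * p) := by
  rw [← sum_filter_of_ne (s := Icc 1 N) (p := fun u => u * p ≤ n) fun u _ h => by
    by_contra h1
    have : (n : ℤ) < u * p := by exact_mod_cast not_le.1 h1
    exact h (by rw [hg _ (by omega), mul_zero])]
  simp only [mul_ite, mul_zero]
  rw [← sum_filter]
  refine sum_nbij' (fun x => x / p) (fun u => u * p) (fun x hx => ?_) (fun u hu => ?_)
    (fun x hx => ?_) (fun u _ => Nat.mul_div_cancel u hp) fun x hx => ?_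
  · obtain ⟨h1, c, rfl⟩ := mem_filter.1 hx
    rw [mem_Icc] at h1
    rw [Nat.mul_div_cancel_left c hp, mem_filter, mem_Icc, mul_comm c]
    exact ⟨⟨Nat.pos_of_mul_pos_left h1.1, hN c (mul_comm c p ▸ h1.2)⟩, h1.2⟩
  · obtain ⟨h1, h2⟩ := mem_filter.1 hu
    exact mem_filter.2 ⟨mem_Icc.2 ⟨Nat.mul_pos (mem_Icc.1 h1).1 hp, h2⟩, Dvd.intro_left u rfl⟩
  · exact Nat.div_mul_cancel (mem_filter.1 hx).2
  · obtain ⟨-, c, rfl⟩ := mem_filter.1 hx
    rw [Nat.mul_div_cancel_left c hp, mul_comm (f c), Nat.cast_mul, mul_comm (p : ℤ)]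

/-- one dyadic block -/
theorem block {X P q a K : ℕ} {V c : ℝ} {S : Finset ℕ} (β f : ℕ → ℝ) (hV : 1 ≤ V) (hS : PV V S)
    (hn : ∀ k < K, a + q * k ≤ 2 * X) (hg : ∀ y < 0, sg X P y = 0)
    (hf : ∀ u, 1 ≤ u → u ≤ 2 * X → |f u| ≤ 3) (hc : 0 ≤ c)
    (hD : ∀ U, 18 * X / V * DD X P q a K β S U ≤ c ^ 2) :
    ∑ k ∈ range K, β k * ∑ p ∈ S, ∑ x ∈ Icc 1 (a + q * k),
      sg X P (((a + q * k : ℕ) : ℤ) - x) * (if p ∣ x then f (x / p) else 0) ≤ c := by
  set N := ⌊2 * X / V⌋₊ with hN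
  have hV0 : 0 < V := by linarith
  have hN1 : (N : ℝ) ≤ 2 * X / V := Nat.floor_le (by positivity)
  have hN2 : N ≤ 2 * X := by
    have := hN1.trans (div_le_self (by positivity) hV)
    exact_mod_cast this
  have e : ∑ k ∈ range K, β k * ∑ p ∈ S, ∑ x ∈ Icc 1 (a + q * k),
      sg X P (((a + q * k : ℕ) : ℤ) - x) * (if p ∣ x then f (x / p) else 0) =
      ∑ u ∈ Icc 1 N, f u * ∑ v ∈ S, ∑ k ∈ range K, β k * sg X P ((a : ℤ) + q * k - u * v) := by
    rw [sum_congr rfl fun k hk => congrArg (β k * ·) (sum_congr rfl fun p hp =>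
      reindex (N := N) (hS p hp).1.pos (fun u hu => Nat.le_floor (by
        have h1 : (u : ℝ) * p ≤ 2 * X := by exact_mod_cast hu.trans (hn k (mem_range.1 hk))
        rw [le_div_iff₀ hV0]
        exact (mul_le_mul_of_nonneg_left (hS p hp).2.1.le (Nat.cast_nonneg u)).trans h1)) _ hg f)]
    simp only [mul_sum]
    rw [sum_comm, sum_congr rfl fun p _ => sum_comm, sum_comm]
    refine sum_congr rfl fun u _ => sum_congr rfl fun p _ => sum_congr rfl fun k _ => ?_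
    push_cast
    ring
  rw [e]
  refine (abs_le_of_sq_le_sq' ?_ hc).2
  refine (sum_mul_sq_le_sq_mul_sq _ _ _).trans (le_trans ?_ (hD ((Icc 1 N).map Nat.castEmbedding)))
  rw [DD, sum_map]
  refine mul_le_mul_of_nonneg_right ?_ (sum_nonneg fun _ _ => sq_nonneg _)
  have h1 : ∑ u ∈ Icc 1 N, f u ^ 2 ≤ ∑ _u ∈ Icc 1 N, (9 : ℝ) := sum_le_sum fun u hu => by
    have := abs_le.1 (hf u (mem_Icc.1 hu).1 ((mem_Icc.1 hu).2.trans hN2))
    nlinarith [this.1, this.2]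
  rw [sum_const, Nat.card_Icc, Nat.add_sub_cancel, nsmul_eq_mul] at h1
  calc _ ≤ (N : ℝ) * 9 := h1
    _ ≤ 2 * X / V * 9 := by gcongr
    _ = _ := by ring

theorem dyad {z : ℝ} {p : ℕ} (hp : 0 < p) (h : (p : ℝ) ≤ z) :
    z / 2 ^ (Nat.log 2 ⌊z / p⌋₊ + 1) < p ∧ (p : ℝ) ≤ 2 * (z / 2 ^ (Nat.log 2 ⌊z / p⌋₊ + 1)) := by
  have hp' : (0 : ℝ) < p := by exact_mod_cast hp
  have h1 : 1 ≤ z / p := (one_le_div hp').2 h
  have h2 : ⌊z / p⌋₊ ≠ 0 := (Nat.floor_pos.2 h1).ne'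
  have h3 : ((2 ^ Nat.log 2 ⌊z / p⌋₊ : ℕ) : ℝ) ≤ z / p :=
    (Nat.cast_le.2 (Nat.pow_log_le_self 2 h2)).trans (Nat.floor_le (by linarith))
  have h4 : z / p < ((2 ^ (Nat.log 2 ⌊z / p⌋₊ + 1) : ℕ) : ℝ) :=
    (Nat.floor_lt (by linarith)).1 (Nat.lt_pow_succ_log_self one_lt_two _)
  push_cast at h3 h4
  generalize Nat.log 2 ⌊z / p⌋₊ = j at h3 h4
  rw [le_div_iff₀ hp'] at h3
  rw [div_lt_iff₀ hp'] at h4
  refine ⟨(div_lt_iff₀' (by positivity)).2 h4, ?_⟩
  rw [← mul_div_assoc, le_div_iff₀ (by positivity), pow_succ]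
  linarith

theorem log_le {X : ℕ} (h : 1 ≤ lg X) : ((Nat.log 2 X + 1 : ℕ) : ℝ) ≤ 3 * lg X := by
  have hX : X ≠ 0 := by
    rintro rfl
    simp only [lg, Nat.cast_zero, Real.log_zero] at h
    linarith
  have h1 : (2 : ℝ) ^ Nat.log 2 X ≤ X := by exact_mod_cast Nat.pow_log_le_self 2 hX
  have h2 := Real.log_le_log (by positivity) h1
  rw [Real.log_pow] at h2
  have h3 := Real.log_two_gt_d9
  have h4 : (0 : ℝ) ≤ Nat.log 2 X := Nat.cast_nonneg _
  unfold lg at h ⊢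
  push_cast
  nlinarith

end F2

open F2 in
theorem blk_F2 (hT2 : St_T2) (hMT2 : St_MT2) (hRAM : St_RAM) (hGT : St_GT) : St_F2 := by
  intro d t hd hd1 ht ht1
  obtain ⟨B₀, hB⟩ := hT2 d 8 hd hd1
  refine ⟨B₀, fun B hB₀ => ?_⟩
  filter_upwards [hB B hB₀, hMT2 d t B hd (by linarith) ht ht1, ev_lg 15, ev_rpow 2 hd,
    eventually_ge_atTop 33] with X h1 h2 hl h3 hX q a K hR
  have hX1 : 1 ≤ X := by omega
  have hX0 : (1 : ℝ) ≤ X := by exact_mod_cast hX1
  have hq := hR.q_pos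
  have hl0 : 0 < lg X := by linarith
  set P := Pb X B with hP
  have hg : ∀ y < 0, sg X P y = 0 := fun y hy =>
    ((hGT.2.2.2.2.2.2.2.2.1 X P y).2.2.2 fun h => absurd (mem_Ico.1 h).1 (not_le.2 hy)).2.2
  set E : ℕ → ℝ := fun k => ∑ x ∈ Icc 1 (a + q * k),
    sg X P (((a + q * k : ℕ) : ℤ) - x) * F2 X d t x with hE
  set β : ℕ → ℝ := fun k => if 0 ≤ E k then 1 else -1 with hβ
  have hβ1 : ∀ k, |β k| ≤ 1 := fun k => by
    simp only [hβ]
    split_ifs <;> simp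
  have hβ2 : ∀ k, |E k| = β k * E k := fun k => by
    simp only [hβ]
    split_ifs with h
    · rw [one_mul, abs_of_nonneg h]
    · rw [neg_one_mul, abs_of_neg (not_le.1 h)]
  have hz0 : 0 ≤ zz X := Real.rpow_nonneg (by positivity) _
  have hzX : zz X ≤ X := by
    conv_rhs => rw [← Real.rpow_one (X : ℝ)]
    exact Real.rpow_le_rpow_of_exponent_le hX0 (by norm_num)
  have hd0 : (0 : ℝ) ≤ (X : ℝ) ^ d := by positivity
  have hmap : ∀ p ∈ pr ((X : ℝ) ^ d) (zz X),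
      Nat.log 2 ⌊zz X / p⌋₊ ∈ range (Nat.log 2 X + 1) := fun p hp => by
    refine mem_range.2 (Nat.lt_succ_of_le (Nat.log_mono_right (Nat.floor_le_of_le ?_)))
    exact (div_le_self hz0 (by exact_mod_cast ((mem_pr hd0).1 hp).1.one_le)).trans hzX
  have hmain : ∑ k ∈ range K, |E k| ≤ (X : ℝ) / q * √(X : ℝ) / lg X ^ 2 := by
    have e : ∑ k ∈ range K, |E k| = ∑ j ∈ range (Nat.log 2 X + 1), ∑ k ∈ range K, β k *
        ∑ p ∈ (pr ((X : ℝ) ^ d) (zz X)).filter (fun p : ℕ => Nat.log 2 ⌊zz X / p⌋₊ = j),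
          ∑ x ∈ Icc 1 (a + q * k), sg X P (((a + q * k : ℕ) : ℤ) - x) *
            (if p ∣ x then al X d t (x / p) else 0) := by
      rw [sum_comm]
      refine sum_congr rfl fun k _ => ?_
      rw [← mul_sum, sum_fiberwise_of_maps_to hmap, hβ2, sum_comm]
      simp only [hE, F2, mul_sum]
    rw [e]
    refine (sum_le_card_nsmul _ _ (5 * ((X : ℝ) / q) * √(X : ℝ) / lg X ^ 4) fun j _ => ?_).trans ?_
    · rcases ((pr ((X : ℝ) ^ d) (zz X)).filter
        (fun p : ℕ => Nat.log 2 ⌊zz X / p⌋₊ = j)).eq_empty_or_nonempty with h0 | ⟨p₀, h0⟩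
      · simp only [h0, sum_empty, mul_zero, sum_const_zero]
        positivity
      have hS : PV (zz X / 2 ^ (j + 1)) ((pr ((X : ℝ) ^ d) (zz X)).filter
          fun p : ℕ => Nat.log 2 ⌊zz X / p⌋₊ = j) := fun p hp => by
        obtain ⟨h4, rfl⟩ := mem_filter.1 hp
        rw [mem_pr hd0] at h4
        exact ⟨h4.1, dyad h4.1.pos h4.2.2⟩
      have hV : (X : ℝ) ^ d / 2 ≤ zz X / 2 ^ (j + 1) := by
        linarith [(hS p₀ h0).2.2, ((mem_pr hd0).1 (mem_filter.1 h0).1).2.1]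
      have hV2 : zz X / 2 ^ (j + 1) ≤ zz X := div_le_self hz0 (one_le_pow₀ one_le_two)
      have hV3 : 0 < zz X / 2 ^ (j + 1) := by linarith
      refine block β _ (by linarith) hS (fun k hk => (hR.mem hk).2) hg
        (fun u hu hu2 => (hRAM X u d t hX hd (by linarith) ht ht1 hu hu2).2.2.2.2.1)
        (by positivity) fun U => ?_
      refine (mul_le_mul_of_nonneg_left (h1 q a K _ _ β U hR hV hV2 hS hβ1) (by positivity)).trans ?_
      generalize zz X / 2 ^ (j + 1) = V at hV3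
      rw [div_pow (5 * _ * _), mul_pow, mul_pow, Real.sq_sqrt (by positivity),
        show 18 * X / V * (((X : ℝ) / q) ^ 2 * V / lg X ^ 8) =
          18 * ((X : ℝ) / q) ^ 2 * X / (lg X ^ 4) ^ 2 by field_simp]
      gcongr
      norm_num
    · rw [card_range, nsmul_eq_mul]
      calc _ ≤ 3 * lg X * (5 * ((X : ℝ) / q) * √(X : ℝ) / lg X ^ 4) := by
            gcongr
            exact log_le (by linarith)
        _ = 15 / lg X * ((X : ℝ) / q * √(X : ℝ) / lg X ^ 2) := by field_simp; norm_num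
        _ ≤ _ := mul_le_of_le_one_left (by positivity) ((div_le_one hl0).2 hl)
  have hK := hR.K_le hX1 (by linarith)
  calc _ ≤ ∑ k ∈ range K, (|E k| + √(X : ℝ) / lg X ^ 2) := sum_le_sum fun k hk => by
        obtain ⟨h4, h5⟩ := hR.mem (mem_range.1 hk)
        refine le_trans (le_of_eq ?_) ((abs_add_le _ _).trans (add_le_add le_rfl
          (h2 P _ (Pb_bounds (by linarith) B).1 (Pb_le X B) h4 h5)))
        simp only [hE, AA, sg, sub_mul, sum_sub_distrib, sub_add_sub_cancel]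
    _ = ∑ k ∈ range K, |E k| + K * (√(X : ℝ) / lg X ^ 2) := by
        rw [sum_add_distrib, sum_const, card_range, nsmul_eq_mul]
    _ ≤ (X : ℝ) / q * √(X : ℝ) / lg X ^ 2 + 2 * X / q * (√(X : ℝ) / lg X ^ 2) := by gcongr
    _ = _ := by ring

end Pool.Agent.Lib.APQ
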