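import Pool.Agent.Lib.APQ.Kit

/-!
Block GID: the transform of the bilinear kernel.
-/

namespace Pool.Agent.Lib.APQ

open Finset Real Complex Filter Pool.Agent.Lib.PS
open scoped NumberTheorySymbols ArithmeticFunction.Moebius Classical ComplexConjugate

namespace GID

theorem key {q J : ℕ} (hq : 1 ≤ q) (k : ℤ) (hk : |k| ≤ q * J) (θ : ℝ) :
    ∑ b ∈ range q, ee (k * ((b + θ) / q)) =
      q * ∑ j ∈ box J, if k = q * j then ee (j * θ) else 0 := by
  have hq0 : (q : ℝ) ≠ 0 := by positivity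
  have hq1 : (0 : ℤ) < q := by exact_mod_cast hq
  have h1 : ∀ b ∈ range q, ee (k * ((b + θ) / q)) = ee ((b : ℝ) * (k / q)) * ee (k * θ / q) :=
    fun b _ => by rw [← maj_ee_add]; congr 1; ring
  rw [sum_congr rfl h1, ← sum_mul, maj_orth q hq]
  split_ifs with h
  · obtain ⟨j, rfl⟩ := h
    rw [abs_mul, abs_of_pos hq1] at hk
    have h2 := abs_le.mp (le_of_mul_le_mul_left hk hq1)
    rw [sum_eq_single_of_mem (s := box J) j (mem_Icc.mpr h2) fun i _ hi =>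
      if_neg fun e => hi (mul_left_cancel₀ hq1.ne' e).symm, if_pos rfl]
    congr 2
    push_cast
    field_simp
  · rw [sum_eq_zero fun j _ => if_neg fun e => h ⟨j, e⟩]
    simp

end GID

theorem blk_GID : St_GID := by
  intro X P q a v₁ v₂ J θ hq hJ
  have hq0 : (q : ℂ) ≠ 0 := by exact_mod_cast (by omega : q ≠ 0)
  have hJ' : ((v₁ : ℤ) + v₂) * (((M3 X : ℤ) + 1) ^ 2 + a) ≤ q * J := by exact_mod_cast hJ
  have hy : ∀ y ∈ YS X, |y - a| ≤ ((M3 X : ℤ) + 1) ^ 2 + a := fun y hy => by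
    have := mem_Ico.mp hy
    have h0 : (0 : ℤ) ≤ a := Int.natCast_nonneg a
    rw [abs_le]; constructor <;> linarith [this.1, this.2]
  have h1 : ∀ b ∈ range q, ee (-((a : ℝ) * ((v₂ : ℝ) - v₁) * ((b + θ) / q))) *
      sh X P (v₂ * ((b + θ) / q)) * conj (sh X P (v₁ * ((b + θ) / q))) =
      ∑ y₁ ∈ YS X, ∑ y₂ ∈ YS X, ((sg X P y₁ * sg X P y₂ : ℝ) : ℂ) *
        ee ((((v₂ : ℤ) * y₁ - v₁ * y₂ - (a : ℤ) * ((v₂ : ℤ) - v₁) : ℤ) : ℝ) * ((b + θ) / q)) := by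
    intro b _
    unfold sh ft
    rw [map_sum, mul_assoc, sum_mul_sum, mul_sum]
    refine sum_congr rfl fun y₁ _ => ?_
    rw [mul_sum]
    refine sum_congr rfl fun y₂ _ => ?_
    rw [map_mul, conj_ofReal, maj_ee_conj,
      show (((v₂ : ℤ) * y₁ - v₁ * y₂ - (a : ℤ) * ((v₂ : ℤ) - v₁) : ℤ) : ℝ) * ((b + θ) / q) =
        -((a : ℝ) * ((v₂ : ℝ) - v₁) * ((b + θ) / q)) + (y₁ * (v₂ * ((b + θ) / q)) +
          -(y₂ * (v₁ * ((b + θ) / q)))) by push_cast; ring, maj_ee_add, maj_ee_add]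
    push_cast
    ring
  unfold gT gk
  rw [sum_congr rfl h1, div_eq_iff hq0, sum_comm]
  simp only [ofReal_sum, sum_mul]
  rw [sum_comm (s := box J)]
  refine sum_congr rfl fun y₁ h₁ => ?_
  rw [sum_comm, sum_comm (s := box J)]
  refine sum_congr rfl fun y₂ h₂ => ?_
  rw [← mul_sum, GID.key (J := J) hq, mul_sum, mul_sum]
  · refine sum_congr rfl fun j _ => ?_
    simp only [sub_eq_iff_eq_add' (a := (v₂ : ℤ) * y₁ - v₁ * y₂)]
    split_ifs
    · ring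
    · simp
  · rw [show (v₂ : ℤ) * y₁ - v₁ * y₂ - (a : ℤ) * ((v₂ : ℤ) - v₁) =
      v₂ * (y₁ - a) - v₁ * (y₂ - a) by ring]
    refine (abs_sub _ _).trans (le_trans ?_ hJ')
    rw [abs_mul, abs_mul, Nat.abs_cast, Nat.abs_cast, add_mul, add_comm]
    exact add_le_add (mul_le_mul_of_nonneg_left (hy _ h₂) (Int.natCast_nonneg _))
      (mul_le_mul_of_nonneg_left (hy _ h₁) (Int.natCast_nonneg _))

end Pool.Agent.Lib.APQ
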