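import Pool.Agent.Lib.APQ.Kit

/-!
A discrete Parseval inequality on the grid of mesh `1 / N`.
-/

namespace Pool.Agent.Lib.APQ

open Finset Real Complex Filter Pool.Agent.Lib.PS
open scoped NumberTheorySymbols ArithmeticFunction.Moebius Classical ComplexConjugate

namespace PAR

theorem cnt {ι : Type} (S : Finset ι) (s : ι → ℤ) {N : ℕ} {D : ℝ} (hN : 1 ≤ N) (hD : 0 ≤ D)
    (hs : Set.InjOn s S) (h : ∀ x ∈ S, ∀ y ∈ S, |(s x : ℝ) - s y| ≤ D) (c : ℤ) :
    ∑ y ∈ S, (if (N : ℤ) ∣ c - s y then (N : ℝ) else 0) ≤ N + D := by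
  have hN' : (0 : ℝ) < N := by exact_mod_cast hN
  have hN0 : (N : ℤ) ≠ 0 := by omega
  rw [← sum_filter, sum_const, nsmul_eq_mul]
  set T := S.filter fun y => (N : ℤ) ∣ c - s y with hT
  rcases T.eq_empty_or_nonempty with h0 | h0
  · rw [h0, card_empty, Nat.cast_zero, zero_mul]; positivity
  obtain ⟨z, hz, hm⟩ := T.exists_min_image s h0
  have hd : ∀ y ∈ T, ∃ k : ℕ, s y - s z = N * k := fun y hy => by
    obtain ⟨k, hk⟩ := dvd_sub (mem_filter.mp hz).2 (mem_filter.mp hy).2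
    have h1 := hm y hy
    have h2 : 0 ≤ k := by
      by_contra h3
      have : (N : ℤ) * k < 0 := mul_neg_of_pos_of_neg (by omega) (by omega)
      omega
    exact ⟨k.toNat, by rw [Int.toNat_of_nonneg h2]; omega⟩
  choose! k hk using hd
  have h1 : T.card ≤ (range (⌊D / N⌋₊ + 1)).card := by
    refine card_le_card_of_injOn k (fun y hy => ?_) fun y hy y' hy' e => ?_
    · have h2 := (le_abs_self _).trans (h y (mem_filter.mp hy).1 z (mem_filter.mp hz).1)
      have h3 : (s y : ℝ) - s z = N * k y := by exact_mod_cast hk y hy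
      rw [coe_range, Set.mem_Iio, Nat.lt_succ_iff]
      refine Nat.le_floor ?_
      rw [le_div_iff₀ hN']; linarith
    · have h2 := hk y hy
      have h3 := hk y' hy'
      rw [e] at h2
      exact hs (mem_filter.mp hy).1 (mem_filter.mp hy').1 (by omega)
  rw [card_range] at h1
  have h2 : (T.card : ℝ) ≤ D / N + 1 := by
    have h3 : (T.card : ℝ) ≤ (⌊D / N⌋₊ : ℝ) + 1 := by exact_mod_cast h1
    have h4 := Nat.floor_le (div_nonneg hD hN'.le)
    linarith
  calc (T.card : ℝ) * N ≤ (D / N + 1) * N := by gcongr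
    _ = N + D := by field_simp; ring

theorem orth {ι : Type} (S : Finset ι) (s : ι → ℤ) (f : ι → ℂ) {N : ℕ} (hN : 1 ≤ N) :
    ((∑ i ∈ range N, ‖∑ x ∈ S, f x * ee (s x * ((i : ℝ) / N))‖ ^ 2 : ℝ) : ℂ) =
      ∑ x ∈ S, ∑ y ∈ S, f x * conj (f y) * if (N : ℤ) ∣ s x - s y then (N : ℂ) else 0 := by
  simp only [ofReal_sum, ofReal_pow, ← Complex.mul_conj', map_sum, sum_mul_sum]
  simp only [← maj_orth N hN, mul_sum]
  rw [sum_comm]
  refine sum_congr rfl fun x _ => ?_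
  rw [sum_comm]
  refine sum_congr rfl fun y _ => sum_congr rfl fun i _ => ?_
  have e : (i : ℝ) * (((s x - s y : ℤ) : ℝ) / N) =
      s x * ((i : ℝ) / N) + -(s y * ((i : ℝ) / N)) := by push_cast; ring
  rw [map_mul, maj_ee_conj, e, maj_ee_add]; ring

end PAR

theorem blk_PAR : St_PAR := by
  intro ι S s f N D hN hD hs h
  have h1 := congrArg norm (PAR.orth S s f hN)
  rw [Complex.norm_real, Real.norm_eq_abs] at h1
  refine (le_abs_self _).trans (h1.le.trans ?_)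
  have h2 : ∀ x y : ι, ‖f x * conj (f y) * if (N : ℤ) ∣ s x - s y then (N : ℂ) else 0‖ ≤
      ‖f x‖ ^ 2 / 2 * (if (N : ℤ) ∣ s x - s y then (N : ℝ) else 0) +
        ‖f y‖ ^ 2 / 2 * (if (N : ℤ) ∣ s y - s x then (N : ℝ) else 0) := fun x y => by
    by_cases hd : (N : ℤ) ∣ s x - s y
    · rw [if_pos hd, if_pos hd, if_pos (dvd_sub_comm.mp hd), norm_mul, norm_mul, norm_conj,
        Complex.norm_natCast, ← add_mul]
      gcongr
      nlinarith [sq_nonneg (‖f x‖ - ‖f y‖)]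
    · rw [if_neg hd, if_neg hd, if_neg fun h3 => hd (dvd_sub_comm.mp h3)]
      simp
  have h3 : ∑ x ∈ S, ∑ y ∈ S, ‖f x‖ ^ 2 / 2 * (if (N : ℤ) ∣ s x - s y then (N : ℝ) else 0) ≤
      (N + D) * (∑ x ∈ S, ‖f x‖ ^ 2) / 2 := by
    rw [mul_sum, sum_div]
    refine sum_le_sum fun x _ => ?_
    rw [← mul_sum]
    have := PAR.cnt S s hN hD hs h (s x)
    nlinarith [sq_nonneg ‖f x‖]
  refine (norm_sum_le_of_le _ fun x _ => norm_sum_le_of_le _ fun y _ => h2 x y).trans ?_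
  simp only [sum_add_distrib]
  rw [sum_comm (f := fun x y => ‖f y‖ ^ 2 / 2 * (if (N : ℤ) ∣ s y - s x then (N : ℝ) else 0))]
  linarith

end Pool.Agent.Lib.APQ
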