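import Pool.Agent.Lib.APQ.Kit

/-!
Block Z1: the transform of the kernel near rationals with small denominator.
-/

namespace Pool.Agent.Lib.APQ

open Finset Real Complex Filter Pool.Agent.Lib.PS
open scoped NumberTheorySymbols ArithmeticFunction.Moebius Classical ComplexConjugate

namespace Z1

theorem fH_sq {X : ℕ} {H h₀ h₁ : ℝ} (hL : 1 ≤ Lx X) (h0 : 0 < h₀) (h1 : h₀ ≤ H) (h2 : 0 ≤ h₁)
    (h3 : H ≤ h₁ ^ 2) : fH X H ^ 2 ≤ 3 / h₀ + 4 * Lx X ^ 2 * h₁ := by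
  have hH : 0 < H := h0.trans_le h1
  have hp : 0 < 1 + Lx X * H := by positivity
  have e : fH X H ^ 2 = (1 + Lx X * H) * √(1 + Lx X * H) / H := by
    rw [fH, div_pow, Real.sq_sqrt hH.le, ← Real.rpow_natCast, ← Real.rpow_mul hp.le,
      Real.sqrt_eq_rpow, ← Real.rpow_one_add' hp.le (by norm_num)]
    norm_num
  rw [e]
  have hs := Real.sqrt_nonneg (1 + Lx X * H)
  rcases le_total (Lx X * H) 1 with h | h
  · have h4 : √(1 + Lx X * H) ≤ 3 / 2 := Real.sqrt_le_iff.2 ⟨by norm_num, by linarith⟩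
    have h5 : (1 + Lx X * H) * √(1 + Lx X * H) / H ≤ 3 / h₀ := by
      gcongr
      nlinarith
    have h6 : 0 ≤ 4 * Lx X ^ 2 * h₁ := by positivity
    linarith
  · have h4 : √(1 + Lx X * H) ≤ 2 * Lx X * h₁ := by
      refine Real.sqrt_le_iff.2 ⟨by positivity, ?_⟩
      have h5 : Lx X * H ≤ Lx X * h₁ ^ 2 := by gcongr
      have h6 : Lx X * h₁ ^ 2 ≤ Lx X ^ 2 * h₁ ^ 2 := by
        gcongr
        nlinarith
      nlinarith
    have h5 : (1 + Lx X * H) * √(1 + Lx X * H) / H ≤ 4 * Lx X ^ 2 * h₁ := by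
      rw [div_le_iff₀ hH]
      calc _ ≤ (2 * (Lx X * H)) * (2 * Lx X * h₁) := by gcongr; linarith
        _ = _ := by ring
    have h6 : 0 ≤ 3 / h₀ := by positivity
    linarith

theorem HQ_ge {X : ℕ} (hX : 1 ≤ X) (Q : ℕ) (η : ℝ) : Q / √(X : ℝ) ≤ HQ X Q η := by
  have hx : (0 : ℝ) < X := by exact_mod_cast hX
  have h1 : 1 / (X : ℝ) ≤ √(tt X η) := Real.le_sqrt_of_sq_le (by
    rw [tt, div_pow, one_pow]; nlinarith [sq_nonneg η])
  have h2 : (Q : ℝ) / √(X : ℝ) = Q * (1 / X) * √(X : ℝ) := by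
    rw [mul_assoc, one_div_mul_eq_div, Real.sqrt_div_self', mul_one_div]
  rw [h2, HQ]
  gcongr

theorem HQ_le (X Q : ℕ) (η : ℝ) : HQ X Q η ≤ Q * (1 / X + 2 * |η|) * √(X : ℝ) := by
  have h1 : √(tt X η) ≤ 1 / X + 2 * |η| := Real.sqrt_le_iff.2 ⟨by positivity, by
    have h2 : 0 ≤ 1 / (X : ℝ) * |η| := by positivity
    rw [tt, ← sq_abs η, ← one_pow 2, ← div_pow]
    nlinarith⟩
  rw [HQ]
  gcongr

theorem reduce {v r : ℕ} {b : ℤ} (hr : 1 ≤ r) (hb : IsCoprime b (r : ℤ)) :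
    1 ≤ r / Nat.gcd v r ∧ r / Nat.gcd v r ≤ r ∧
      IsCoprime (((v / Nat.gcd v r : ℕ) : ℤ) * b) ((r / Nat.gcd v r : ℕ) : ℤ) ∧
      ∀ η : ℝ, v * ((b : ℝ) / r + η) =
        ((((v / Nat.gcd v r : ℕ) : ℤ) * b : ℤ) : ℝ) / (r / Nat.gcd v r : ℕ) + v * η := by
  have hg : 0 < Nat.gcd v r := Nat.gcd_pos_of_pos_right v hr
  have hc := Nat.coprime_div_gcd_div_gcd hg
  have e1 := Nat.div_mul_cancel (Nat.gcd_dvd_left v r)
  have e2 := Nat.div_mul_cancel (Nat.gcd_dvd_right v r)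
  have h1 : 1 ≤ r / Nat.gcd v r := Nat.div_pos (Nat.gcd_le_right v hr) hg
  generalize v / Nat.gcd v r = u at *
  generalize r / Nat.gcd v r = s at *
  generalize Nat.gcd v r = g at *
  subst e1 e2
  refine ⟨h1, Nat.le_mul_of_pos_right s hg, (Nat.isCoprime_iff_coprime.2 hc).mul_left ?_,
    fun η => ?_⟩
  · rw [Nat.cast_mul] at hb
    exact hb.of_mul_right_left
  · have h2 : (g : ℝ) ≠ 0 := by exact_mod_cast hg.ne'
    have h3 : (s : ℝ) ≠ 0 := by exact_mod_cast (by omega : s ≠ 0)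
    push_cast
    field_simp

theorem term1 {x q C P l lA lB : ℝ} (x0 : 0 < x) (q0 : 0 < q) (P0 : 0 < P) (hA : 0 < lA)
    (h1 : lA * l ≤ lB) (h2 : lB / 2 ≤ P) (h3 : 10 * C ^ 2 ≤ l) :
    C * √x / √P * (C * √x / √P) / q ≤ x / q / lA / 5 := by
  calc _ = x / q * (C ^ 2 / P) := by
        rw [div_mul_div_comm, Real.mul_self_sqrt P0.le, mul_mul_mul_comm,
          Real.mul_self_sqrt x0.le]; ring
    _ ≤ x / q * (1 / (lA * 5)) := by
        gcongr x / q * ?_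
        rw [div_le_div_iff₀ P0 (by positivity)]
        nlinarith
    _ = _ := by field_simp

theorem term2 {x q D lA : ℝ} (x0 : 0 < x) (q0 : 0 < q) (hA : 0 < lA)
    (lo : x ^ (59 / 200 : ℝ) ≤ q) (n5 : 15 * D * lA ≤ x ^ (59 / 200 * (249 / 1000) : ℝ)) :
    D * q ^ (3 / 4 + 1 / 1000 : ℝ) * (√x / q) * (3 / (q / √x)) ≤ x / q / lA / 5 := by
  have h1 : x ^ (59 / 200 * (249 / 1000) : ℝ) ≤ q ^ (249 / 1000 : ℝ) := by
    rw [Real.rpow_mul x0.le]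
    exact Real.rpow_le_rpow (by positivity) lo (by norm_num)
  have h2 : q ^ (3 / 4 + 1 / 1000 : ℝ) * q ^ (249 / 1000 : ℝ) = q := by
    rw [← Real.rpow_add q0]; norm_num
  have h3 : (0 : ℝ) < q ^ (3 / 4 + 1 / 1000 : ℝ) := by positivity
  calc _ = x / q * (3 * D * q ^ (3 / 4 + 1 / 1000 : ℝ) / q) := by
        field_simp; rw [Real.sq_sqrt x0.le]
    _ ≤ x / q * (1 / (lA * 5)) := by
        gcongr x / q * ?_
        rw [div_le_div_iff₀ q0 (by positivity)]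
        nlinarith [mul_le_mul_of_nonneg_left (n5.trans h1) h3.le]
    _ = _ := by field_simp

theorem term3 {x q D l : ℝ} {A : ℕ} (x1 : 1 ≤ x) (q0 : 0 < q) (l0 : 0 < l) (hD : 0 < D)
    (hi : q ≤ x ^ (501 / 1000 : ℝ)) (n6 : 240 * D * l ^ (A + 1) * x ^ (499 / 500 : ℝ) ≤ x) :
    D * q ^ (3 / 4 + 1 / 1000 : ℝ) * (√x / q) * (4 * (4 * l) * (3 * x ^ (243 / 2000 : ℝ))) ≤
      x / q / l ^ A / 5 := by
  have x0 : 0 < x := by linarith
  have h1 : q ^ (3 / 4 + 1 / 1000 : ℝ) ≤ x ^ (501 / 1000 * (3 / 4 + 1 / 1000) : ℝ) := by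
    rw [Real.rpow_mul x0.le]
    exact Real.rpow_le_rpow q0.le hi (by norm_num)
  have h2 : q ^ (3 / 4 + 1 / 1000 : ℝ) * √x * x ^ (243 / 2000 : ℝ) ≤ x ^ (499 / 500 : ℝ) := by
    calc _ ≤ x ^ (501 / 1000 * (3 / 4 + 1 / 1000) : ℝ) * √x * x ^ (243 / 2000 : ℝ) := by gcongr
      _ ≤ _ := by
        rw [Real.sqrt_eq_rpow, ← Real.rpow_add x0, ← Real.rpow_add x0]
        exact Real.rpow_le_rpow_of_exponent_le x1 (by norm_num)
  rw [div_div, div_div, le_div_iff₀ (by positivity)]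
  calc _ = 240 * D * l ^ (A + 1) * (q ^ (3 / 4 + 1 / 1000 : ℝ) * √x * x ^ (243 / 2000 : ℝ)) := by
        field_simp; ring
    _ ≤ 240 * D * l ^ (A + 1) * x ^ (499 / 500 : ℝ) := by gcongr
    _ ≤ x := n6

theorem term5 {P r y l z : ℝ} {B : ℕ} (P0 : 0 ≤ P) (hP : P ≤ l ^ B) (r0 : 0 ≤ r) (hr : r ≤ z)
    (y0 : 0 ≤ y) (hy : y ≤ l) (hl : 1 ≤ l) (hz : 1 ≤ z) :
    64 * P ^ 6 * (r + 1 + y) ≤ 192 * l ^ (6 * B + 1) * z := by
  calc _ ≤ 64 * (l ^ B) ^ 6 * (3 * (l * z)) := by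
        gcongr
        nlinarith
    _ = _ := by rw [← pow_mul, mul_comm B 6, pow_succ]; ring

theorem sizeH {X q s : ℕ} {θ : ℝ} (hX1 : 1 ≤ X) (q0 : (0 : ℝ) < q) (hl : 4 ≤ lg X) (r1 : 1 ≤ s)
    (s2 : (s : ℝ) ≤ (X : ℝ) ^ (121 / 500 : ℝ)) (k : s * |θ| ≤ 2 * (X : ℝ) ^ (121 / 500 : ℝ) / X)
    (qM : (q : ℝ) / √(X : ℝ) ≤ (X : ℝ) ^ (1 / 1000 : ℝ))
    (n4 : 100 * lg X ^ 1 * (X : ℝ) ^ (97 / 200 : ℝ) ≤ (X : ℝ) ^ (1 / 2 : ℝ)) :
    (Lx X * HQ X (q * s) θ) ^ 2 ≤ q ∧ fH X (HQ X (q * s) θ) ^ 2 ≤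
      3 / (q / √(X : ℝ)) + 4 * Lx X ^ 2 * (3 * (X : ℝ) ^ (243 / 2000 : ℝ)) := by
  have x0 : (0 : ℝ) < X := by exact_mod_cast hX1
  have M0 : 0 < √(X : ℝ) := Real.sqrt_pos.2 x0
  have add : ∀ s t : ℝ, (X : ℝ) ^ s * (X : ℝ) ^ t = (X : ℝ) ^ (s + t) :=
    fun s t => (Real.rpow_add x0 s t).symm
  have s1 : (1 : ℝ) ≤ s := by exact_mod_cast r1
  have lo : q / √(X : ℝ) ≤ HQ X (q * s) θ := by
    refine le_trans ?_ (HQ_ge hX1 _ _)
    push_cast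
    gcongr
    nlinarith
  have hi : HQ X (q * s) θ ≤ 5 * (X : ℝ) ^ (121 / 500 : ℝ) * (q / √(X : ℝ)) := by
    refine (HQ_le _ _ _).trans ?_
    calc _ = q * (s / X + 2 * (s * |θ|)) * √(X : ℝ) := by push_cast; ring
      _ ≤ q * ((X : ℝ) ^ (121 / 500 : ℝ) / X + 2 * (2 * (X : ℝ) ^ (121 / 500 : ℝ) / X)) *
          √(X : ℝ) := by gcongr
      _ = _ := by field_simp; rw [Real.sq_sqrt x0.le]; ring
  have hi2 : HQ X (q * s) θ ≤ 5 * (X : ℝ) ^ (243 / 1000 : ℝ) := by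
    refine hi.trans ?_
    rw [show (243 / 1000 : ℝ) = 121 / 500 + 1 / 1000 by norm_num, ← add, ← mul_assoc]
    gcongr
  have H0 : 0 ≤ HQ X (q * s) θ := le_trans (by positivity) lo
  have l0 := lg_nonneg X
  refine ⟨?_, fH_sq (by linarith [(Lx_bounds hl).1]) (by positivity) lo (by positivity)
    (hi2.trans ?_)⟩
  · calc _ = 4 * lg X * (HQ X (q * s) θ * HQ X (q * s) θ) := by rw [mul_pow, Lx_sq]; ring
      _ ≤ 4 * lg X * (5 * (X : ℝ) ^ (243 / 1000 : ℝ) *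
          (5 * (X : ℝ) ^ (121 / 500 : ℝ) * (q / √(X : ℝ)))) := by gcongr
      _ = 100 * lg X ^ 1 * ((X : ℝ) ^ (243 / 1000 : ℝ) * (X : ℝ) ^ (121 / 500 : ℝ)) /
          √(X : ℝ) * q := by ring
      _ ≤ 1 * q := by
          gcongr
          rw [add, div_le_one M0, sqrt_eq, show (243 / 1000 + 121 / 500 : ℝ) = 97 / 200 by norm_num]
          exact n4
      _ = q := one_mul _
  · rw [mul_pow, pow_two ((X : ℝ) ^ (243 / 2000 : ℝ)), add,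
      show (243 / 2000 + 243 / 2000 : ℝ) = 243 / 1000 by norm_num]
    linarith [Real.rpow_nonneg x0.le (243 / 1000 : ℝ)]

end Z1

open Z1 in
theorem blk_Z1 (hGD : St_GD) (hEB : St_EB) (hSIG : St_SIG) : St_Z1 := by
  intro A
  obtain ⟨C, hC, hS⟩ := hSIG
  obtain ⟨D, hD, hE⟩ := hEB (1 / 1000) (by norm_num)
  refine ⟨A + 1, fun B hB => ?_⟩
  filter_upwards [hS B, eventually_ge_atTop 2, ev_lg 4, ev_lg (10 * C ^ 2),
    ev_pow 4 B (show (243 / 1000 : ℝ) < 1 / 2 by norm_num),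
    ev_pow 3 B (show (121 / 500 : ℝ) < 59 / 200 by norm_num),
    ev_pow 2 0 (show (121 / 500 - 1 : ℝ) < -(11 / 20) by norm_num),
    ev_pow 100 1 (show (97 / 200 : ℝ) < 1 / 2 by norm_num),
    ev_pow (15 * D) A (show (0 : ℝ) < 59 / 200 * (249 / 1000) by norm_num),
    ev_pow (240 * D) (A + 1) (show (499 / 500 : ℝ) < 1 by norm_num),
    ev_pow 960 (A + (6 * B + 1)) (show (121 / 500 : ℝ) < 1 / 2 - 1 / 1000 by norm_num)]
    with X hS hX hl hl2 n1 n2 n3 n4 n5 n6 n7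
  intro q a K v₁ v₂ r b₁ η hR p1 p2 hne hv1 hv2 hr hrX hb hη
  have hX1 : 1 ≤ X := by omega
  have x1 : (1 : ℝ) ≤ X := by exact_mod_cast hX1
  have x0 : (0 : ℝ) < X := by linarith
  have q0 := hR.q_pos
  have mono : ∀ {s t : ℝ}, s ≤ t → (X : ℝ) ^ s ≤ (X : ℝ) ^ t :=
    fun h => Real.rpow_le_rpow_of_exponent_le x1 h
  have ge1 : ∀ {s : ℝ}, 0 ≤ s → 1 ≤ (X : ℝ) ^ s := fun h => Real.one_le_rpow x1 h
  have add : ∀ s t : ℝ, (X : ℝ) ^ s * (X : ℝ) ^ t = (X : ℝ) ^ (s + t) :=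
    fun s t => (Real.rpow_add x0 s t).symm
  have hM := sqrt_eq X
  have M0 : 0 < √(X : ℝ) := Real.sqrt_pos.2 x0
  have MM : √(X : ℝ) * √(X : ℝ) = X := Real.mul_self_sqrt x0.le
  obtain ⟨P1, P2⟩ := Pb_bounds (X := X) (by linarith) B
  have P3 := Pb_le X B
  have lB : 1 ≤ lg X ^ B := one_le_pow₀ (by linarith)
  have lA : 1 ≤ lg X ^ A := one_le_pow₀ (by linarith)
  have z1 := ge1 (show (0 : ℝ) ≤ 121 / 500 by norm_num)
  have zq : 3 * lg X ^ B * (X : ℝ) ^ (121 / 500 : ℝ) ≤ q := n2.trans hR.lo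
  have zz1 : zz X ≤ (X : ℝ) ^ (121 / 500 : ℝ) := mono (by norm_num)
  have zq2 : 3 * (X : ℝ) ^ (121 / 500 : ℝ) ≤ q :=
    le_trans (by gcongr; linarith) zq
  have rq : r < q := by exact_mod_cast (show (r : ℝ) < q by linarith)
  have vq : ∀ v : ℕ, (v : ℝ) ≤ 2 * zz X → v < q := fun v hv => by
    exact_mod_cast (show (v : ℝ) < q by linarith)
  have Pq : Pb X B < q := by
    have := le_mul_of_one_le_right (show 0 ≤ 3 * lg X ^ B by positivity) z1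
    exact_mod_cast (show (Pb X B : ℝ) < q by linarith)
  have qhi : (q : ℝ) ≤ (X : ℝ) ^ (501 / 1000 : ℝ) := hR.hi.trans (mono (by norm_num))
  have qM : (q : ℝ) / √(X : ℝ) ≤ (X : ℝ) ^ (1 / 1000 : ℝ) := by
    rw [div_le_iff₀ M0, hM, add]; exact qhi.trans (mono (by norm_num))
  -- the size of `r v |η|`
  have key : ∀ v : ℕ, (v : ℝ) ≤ 2 * zz X →
      r * v * |η| ≤ 2 * (X : ℝ) ^ (121 / 500 : ℝ) * q / X := fun v hv => by
    calc r * v * |η| = v * (r * |η|) := by ring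
      _ ≤ 2 * zz X * ((X : ℝ) ^ (1 / 500 : ℝ) * q / X) :=
          mul_le_mul hv hη (by positivity) ((Nat.cast_nonneg v).trans hv)
      _ = 2 * (zz X * (X : ℝ) ^ (1 / 500 : ℝ)) * q / X := by ring
      _ = _ := by rw [zz, add]; norm_num
  have gd : ∀ v : ℕ, (v : ℝ) ≤ 2 * zz X → r * v * |η| * Pb X B ≤ 1 / 2 := fun v hv => by
    calc r * v * |η| * Pb X B ≤ 2 * (X : ℝ) ^ (121 / 500 : ℝ) * q / X * lg X ^ B := by
          gcongr; exact key v hv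
      _ = 2 * lg X ^ B * ((X : ℝ) ^ (121 / 500 : ℝ) * (q / √(X : ℝ))) / √(X : ℝ) := by
          field_simp; rw [Real.sq_sqrt x0.le]
      _ ≤ 2 * lg X ^ B * ((X : ℝ) ^ (121 / 500 : ℝ) * (X : ℝ) ^ (1 / 1000 : ℝ)) / √(X : ℝ) := by
          gcongr
      _ ≤ 1 / 2 := by
          rw [add, div_le_iff₀ M0, hM, show (121 / 500 + 1 / 1000 : ℝ) = 243 / 1000 by norm_num]
          linarith
  obtain ⟨b', hb', hG⟩ := hGD X (Pb X B) q a v₁ v₂ r b₁ η hR.pr (Nat.not_dvd_of_pos_of_lt hr rq) hb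
    (Nat.not_dvd_of_pos_of_lt p1.pos (vq _ hv1)) (Nat.not_dvd_of_pos_of_lt p2.pos (vq _ hv2)) P1 Pq
    (by
      have := le_mul_of_one_le_right (show 0 ≤ 4 * lg X ^ B by positivity)
        (ge1 (show (0 : ℝ) ≤ 243 / 1000 by norm_num))
      rw [hM]; linarith) (gd _ hv1) (gd _ hv2)
  have key2 : ∀ v s : ℕ, (v : ℝ) ≤ 2 * zz X → s ≤ r →
      s * |v * η / q| ≤ 2 * (X : ℝ) ^ (121 / 500 : ℝ) / X := fun v s hv hs => by
    have h1 : (s : ℝ) ≤ r := by exact_mod_cast hs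
    rw [abs_div, abs_mul, Nat.abs_cast, Nat.abs_cast]
    calc s * (v * |η| / q) ≤ r * (v * |η| / q) := by gcongr
      _ = r * v * |η| / q := by ring
      _ ≤ 2 * (X : ℝ) ^ (121 / 500 : ℝ) * q / X / q := by gcongr; exact key v hv
      _ = _ := by field_simp
  have sig : ∀ v : ℕ, (v : ℝ) ≤ 2 * zz X →
      ‖sh X (Pb X B) (v * (b' / r + η / q))‖ ≤ C * √(X : ℝ) / √(Pb X B : ℝ) := fun v hv => by
    obtain ⟨r1, r2, r3, r4⟩ := reduce (v := v) hr hb'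
    rw [r4]
    refine hS _ _ _ _ P1 P3 r1 ((Nat.cast_le.2 r2).trans (hrX.trans (mono (by norm_num)))) r3 ?_
    rw [← mul_div_assoc]
    refine (key2 v _ hv r2).trans ?_
    rw [Real.rpow_sub x0, Real.rpow_one, pow_zero, mul_one, ← mul_div_assoc] at n3
    exact n3
  have hH := fun (v : ℕ) (hv : (v : ℝ) ≤ 2 * zz X) =>
    sizeH hX1 q0 hl (reduce (v := v) hr hb').1 ((Nat.cast_le.2 (reduce hr hb').2.1).trans hrX)
      (key2 v _ hv (reduce hr hb').2.1) qM n4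
  have qX := hR.q_le hX1 (by norm_num)
  have eb := hE X q a v₁ v₂ r b₁ η _ _ hX hR.pr (by have := p1.two_le; have := vq _ hv1; omega)
    (by exact_mod_cast qX) hR.cop (Nat.not_dvd_of_pos_of_lt hr rq) hb p1 p2 hne (vq _ hv1)
    (vq _ hv2) rfl rfl (hH _ hv1).1 (hH _ hv2).1
  have f1 := (hH _ hv1).2
  have f2 := (hH _ hv2).2
  generalize fH X (HQ X (q * (r / Nat.gcd v₁ r)) (v₁ * η / q)) = F₁ at eb f1
  generalize fH X (HQ X (q * (r / Nat.gcd v₂ r)) (v₂ * η / q)) = F₂ at eb f2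
  have f3 : F₁ * F₂ ≤ 3 / (q / √(X : ℝ)) + 4 * Lx X ^ 2 * (3 * (X : ℝ) ^ (243 / 2000 : ℝ)) := by
    linarith [two_mul_le_add_sq F₁ F₂, mul_assoc 2 F₁ F₂]
  have l0 : 0 < lg X := by linarith
  have t1 : ‖sh X (Pb X B) (v₂ * (b' / r + η / q))‖ * ‖sh X (Pb X B) (v₁ * (b' / r + η / q))‖ / q
      ≤ X / q / lg X ^ A / 5 := by
    refine le_trans ?_ (term1 (C := C) x0 q0 (by exact_mod_cast P1) (by positivity)
      (by rw [← pow_succ]; exact pow_le_pow_right₀ (by linarith) hB) P2 hl2)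
    gcongr
    · exact sig _ hv2
    · exact sig _ hv1
  rw [Real.rpow_zero, mul_one] at n5
  rw [Real.rpow_one] at n6
  have t2 := term2 x0 q0 (by positivity) hR.lo n5
  have t3 := term3 x1 q0 l0 hD qhi n6
  rw [← Lx_sq] at t3
  have t4 : 192 * lg X ^ (6 * B + 1) * (X : ℝ) ^ (121 / 500 : ℝ) ≤ X / q / lg X ^ A / 5 := by
    rw [div_div _ (lg X ^ A), le_div_iff₀ (by positivity)]
    refine le_trans (le_of_eq ?_) (n7.trans (hR.div_ge hX1))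
    rw [pow_add]; ring
  have l6 : 1 ≤ lg X ^ (6 * B + 1) := one_le_pow₀ (by linarith)
  have t5 := term5 (Nat.cast_nonneg _) P3 (Nat.cast_nonneg r) hrX (Real.log_natCast_nonneg q)
    (Real.log_le_log q0 qX) (by linarith : 1 ≤ lg X) z1
  have t6 : D * (q : ℝ) ^ (3 / 4 + 1 / 1000 : ℝ) * (√(X : ℝ) / q) * F₁ * F₂ ≤
      D * (q : ℝ) ^ (3 / 4 + 1 / 1000 : ℝ) * (√(X : ℝ) / q) *
        (3 / (q / √(X : ℝ)) + 4 * Lx X ^ 2 * (3 * (X : ℝ) ^ (243 / 2000 : ℝ))) := by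
    rw [mul_assoc _ F₁]
    gcongr
  rw [mul_add] at t6
  have t7 : 1 ≤ lg X ^ (6 * B + 1) * (X : ℝ) ^ (121 / 500 : ℝ) := one_le_mul_of_one_le_of_one_le l6 z1
  linarith [mul_assoc 192 (lg X ^ (6 * B + 1)) ((X : ℝ) ^ (121 / 500 : ℝ))]

end Pool.Agent.Lib.APQ
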