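import Pool.Agent.Lib.APQ.Defs

/-!
Block statements. Every block proves `theorem blk_X (deps) : St_X`.
-/

namespace Pool.Agent.Lib.APQ

open Finset Real Complex Filter Pool.Agent.Lib.PS
open scoped NumberTheorySymbols ArithmeticFunction.Moebius Classical ComplexConjugate

/-! ### Part 1: tools -/

def St_PAR : Prop :=
  ∀ (ι : Type) (S : Finset ι) (s : ι → ℤ) (f : ι → ℂ) (N : ℕ) (D : ℝ), 1 ≤ N → 0 ≤ D →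
    Set.InjOn s S → (∀ x ∈ S, ∀ y ∈ S, |(s x : ℝ) - s y| ≤ D) →
    ∑ i ∈ range N, ‖∑ x ∈ S, f x * ee (s x * ((i : ℝ) / N))‖ ^ 2 ≤ (N + D) * ∑ x ∈ S, ‖f x‖ ^ 2

def St_ABEL : Prop :=
  (∀ (φ : ℤ → ℝ) (Φ D : ℝ) (a b : ℤ) (f : ℤ → ℂ), Uni φ Φ → a ≤ b →
    (∀ s u, a ≤ s → s ≤ u → u ≤ b → ‖∑ t ∈ Ico s u, f t‖ ≤ D) →
    ‖∑ t ∈ Ico a b, (φ t : ℂ) * f t‖ ≤ 2 * Φ * D) ∧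
  (∀ (φ : ℤ → ℝ) (Φ D : ℝ) (a b : ℤ) (f : ℤ → ℝ), Uni φ Φ → a ≤ b →
    (∀ s u, a ≤ s → s ≤ u → u ≤ b → |∑ t ∈ Ico s u, f t| ≤ D) →
    |∑ t ∈ Ico a b, φ t * f t| ≤ 2 * Φ * D) ∧
  (∀ (a b : ℤ) (α : ℝ), ‖∑ t ∈ Ico a b, ee (t * α)‖ * nz α ≤ 1 / 2) ∧
  (∀ (φ : ℤ → ℝ) (Φ : ℝ) (a b c : ℤ) (d : ℕ), Uni φ Φ → 1 ≤ d →
    |(∑ t ∈ Ico a b, if (d : ℤ) ∣ t - c then φ t else 0) - (∑ t ∈ Ico a b, φ t) / d| ≤ 2 * Φ) ∧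
  (∀ (f : ℤ → ℝ) (d : ℕ) (s u : ℤ), 1 ≤ d → (∀ t, f (t + d) = f t) →
    |∑ t ∈ Ico s u, (f t - (∑ c ∈ range d, f c) / d)| ≤ 2 * ∑ c ∈ range d, |f c|) ∧
  (∀ (φ : ℤ → ℝ) (Φ : ℝ) (n s : ℤ), Uni φ Φ → Uni (fun t => φ (n + s * t)) Φ) ∧
  ∀ (φ : ℤ → ℝ) (Φ : ℝ) (a b : ℤ), Uni φ Φ → Uni (fun t => if t ∈ Ico a b then φ t else 0) Φ

def St_SPC : Prop :=
  ∀ (q : ℕ) (c : ℤ) (α Y Z : ℝ) (F : ℕ → ℝ), 1 ≤ q → IsCoprime c (q : ℤ) → 0 ≤ Y → 0 ≤ Z →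
    (∀ i < q, F i ≤ Y ∧ F i * nz ((c : ℝ) * i / q + α) ≤ Z) →
    ∑ i ∈ range q, F i ≤ 2 * Y + 2 * Z * q * (1 + Real.log q)

def St_GT : Prop :=
  (∀ (W : ℝ) (S : Finset ℤ), 0 < W → ∑ h ∈ S, ga W h ≤ 1 + W) ∧
  (∀ (W : ℝ) (N : ℕ) (S : Finset ℤ), 0 < W → (∀ h ∈ S, (N : ℤ) < |h|) →
    ∑ h ∈ S, ga W h ≤ 2 * (1 + W ^ 2) * Real.exp (-(π * ((N : ℝ) + 1) ^ 2 / W ^ 2))) ∧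
  (∀ X : ℕ, Uni (w X) 1) ∧
  (∀ (X : ℕ) (S : Finset ℤ), 1 ≤ X → ∑ m ∈ S, w X m ≤ 2 * √(X : ℝ)) ∧
  (∀ (X : ℕ) (F : ℤ → ℝ), ∑ y ∈ YS X, sq X y * F y = ∑ m ∈ box (M3 X), w X m * F (m ^ 2)) ∧
  (∀ (X : ℕ) (α : ℝ), TT X α = ∑ m ∈ box (M3 X), (w X m : ℂ) * ee ((m : ℝ) ^ 2 * α)) ∧
  (∀ (X : ℕ) (α : ℝ), 1 ≤ X → ‖TT X α‖ ≤ 2 * √(X : ℝ)) ∧
  (∀ (X n : ℕ) (f : ℕ → ℝ), AA X n f =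
    ∑ m ∈ box (M3 X), if m ^ 2 < (n : ℤ) then w X m * f ((n : ℤ) - m ^ 2).toNat else 0) ∧
  (∀ (X P : ℕ) (y : ℤ), 0 ≤ sq X y ∧ sq X y ≤ 2 ∧ 0 ≤ s0 X P y ∧
    (y ∉ YS X → sq X y = 0 ∧ s0 X P y = 0 ∧ sg X P y = 0)) ∧
  ∀ (X p : ℕ) (n : ℤ), 1 ≤ X → p.Prime →
    (∑ m ∈ box (M3 X), if (p : ℤ) ∣ n - m ^ 2 then w X m else 0) ≤ 4 * √(X : ℝ) / p + 4

def St_TH : Prop :=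
  (∀ (X : ℕ) (η : ℝ), 1 ≤ X → ‖pf X η‖ ^ 2 = 1 / √(tt X η)) ∧
  ∀ (X Q N : ℕ) (A : ℤ) (η : ℝ), 1 ≤ X → 1 ≤ Q → Lx X * HQ X Q η ≤ N + 1 →
    ‖TT X ((A : ℝ) / Q + η) - pf X η / Q * ∑ h ∈ box N,
        GG A h Q * (ga (HQ X Q η) h : ℝ) * ee (-(xi X Q η * (h : ℝ) ^ 2))‖
      ≤ 8 * (1 + HQ X Q η ^ 2) / (X : ℝ) ^ 11

def St_GS : Prop :=
  (∀ (A h : ℤ) (q r : ℕ), 1 ≤ q → 1 ≤ r → Nat.Coprime q r →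
    GG A h (q * r) = GG (A * r) h q * GG (A * q) h r) ∧
  (∀ (q : ℕ) [Fact q.Prime] (A h : ℤ), q ≠ 2 → ¬ (q : ℤ) ∣ A →
    GG A h q = ((quadraticChar (ZMod q) (A : ZMod q) : ℤ) : ℂ) * GG 1 0 q *
      ZMod.stdAddChar (-((h : ZMod q) ^ 2 * (4 * (A : ZMod q))⁻¹))) ∧
  (∀ (A h : ℤ) (r : ℕ), 1 ≤ r → IsCoprime A (r : ℤ) → ‖GG A h r‖ ≤ √(2 * (r : ℝ))) ∧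
  ∀ (A A' h : ℤ) (r : ℕ), (r : ℤ) ∣ A - A' → GG A h r = GG A' h r

def St_EN : Prop :=
  ∀ ε : ℝ, 0 < ε → ∃ C : ℝ, 0 < C ∧ ∀ (q N : ℕ) [NeZero q], N ^ 2 ≤ q →
    ∑ s : ZMod q, ((((box N ×ˢ box N).filter fun h =>
      (h.1 : ZMod q) ^ 2 - (h.2 : ZMod q) ^ 2 = s).card : ℝ)) ^ 2 ≤ C * ((N : ℝ) + 1) ^ (2 + ε)

def St_KLAV : Prop :=
  ∀ ε : ℝ, 0 < ε → ∃ C : ℝ, 0 < C ∧ ∀ (q : ℕ) [Fact q.Prime] (c c₁ c₂ : ZMod q) (N₁ N₂ : ℕ),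
    c ≠ 0 → c₁ ≠ 0 → c₂ ≠ 0 → N₁ ^ 2 ≤ q → N₂ ^ 2 ≤ q →
    ∑ h₁ ∈ box N₁, ∑ h₂ ∈ box N₂, ‖Kl q c (c₁ * (h₁ : ZMod q) ^ 2 + c₂ * (h₂ : ZMod q) ^ 2)‖
      ≤ C * (q : ℝ) ^ (3 / 4 + ε) * (((N₁ : ℝ) + 1) * ((N₂ : ℝ) + 1)) ^ (3 / 4 : ℝ)

def St_IB : Prop :=
  (∀ X P : ℕ, 1 ≤ P → (P : ℝ) ≤ √(X : ℝ) →
    Uni (s0 X P) (2 * P / √(X : ℝ)) ∧
    (∀ S : Finset ℤ, ∑ y ∈ S, s0 X P y ≤ 2 * √(X : ℝ)) ∧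
    (∀ α : ℝ, ‖II X P α‖ ≤ 2 * √(X : ℝ) ∧ ‖II X P α‖ * nz α ≤ 2 * P / √(X : ℝ)) ∧
    (∀ η : ℝ, ‖II X P η - TT X η‖ ≤ 2 * √(X : ℝ) / P + 40 * |η| * Lx X * X) ∧
    ∀ n : ℕ, |AA X n (fun _ => 1) - BB X P n (fun _ => 1)| ≤ 2 * √(X : ℝ) / P + 3) ∧
  ∀ᶠ X : ℕ in atTop, ∀ P n : ℕ, 4 ≤ P → X < n → √(X : ℝ) / 50 ≤ BB X P n fun _ => 1

def St_AF : Prop :=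
  (∀ r n : ℕ, 1 ≤ r → (μ r : ℝ) * (Aq r n : ℝ) / (r.totient : ℝ) = fn n r) ∧
  (∀ (r : ℕ) (y : ℤ), |(Aq r y : ℝ)| ≤ r) ∧
  (∀ (P : ℕ) (y : ℤ), |(nu P y : ℝ)| ≤ (P : ℝ) ^ 2) ∧
  (∀ (r : ℕ) (y y' : ℤ), (r : ℤ) ∣ y - y' → Aq r y = Aq r y') ∧
  (∀ (r u : ℕ) (n : ℤ), 1 ≤ r → Nat.Coprime u r →
    ∑ c ∈ (range r).filter (fun c => Nat.Coprime c r), (Aq r (n - c * u) : ℝ)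
      = (μ r : ℝ) * (Aq r n : ℝ)) ∧
  ∀ (X P : ℕ) (α : ℝ), Ts X P α = ∑ r ∈ Icc 1 P,
    ∑ b ∈ (range r).filter (fun b => Nat.Coprime b r), GG b 0 r / r * II X P (α - (b : ℝ) / r)

def St_AG : Prop :=
  (∀ p n : ℕ, p.Prime → (rho p n : ℝ) = if p = 2 then 1 else 1 + (J((n : ℤ) | p) : ℝ)) ∧
  (∀ (p : ℕ) (n : ℤ), p.Prime → rho p n ≤ 2 ∧ 3 * rho p n ≤ 2 * p) ∧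
  (∀ (f : ℤ → ℤ) (a b : ℕ), (∀ m m', m - m' ∣ f m - f m') → Nat.Coprime a b →
    rt f (a * b) = rt f a * rt f b) ∧
  (∀ (d : ℕ) (n : ℤ), rt (fun m => n - m ^ 2) d = rho d n) ∧
  (∀ d : ℕ, 1 ≤ d → rt (fun m => m) d = 1) ∧
  (∀ (e : ℕ) (n : ℤ), Squarefree e → rho e n = ∏ p ∈ e.primeFactors, rho p n ∧
    rho e n ≤ e.divisors.card) ∧
  (∀ (e : ℕ) (n n' : ℤ), (e : ℤ) ∣ n - n' → rho e n = rho e n') ∧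
  (∀ (n : ℕ) (z : ℝ), 0 < Pn n z ∧ ∏ p ∈ pr 0 z, (1 - (rho p n : ℝ) / p) = Vz z * Pn n z) ∧
  ∃ C : ℝ, 0 < C ∧ ∀ z : ℝ, 2 ≤ z → 0 ≤ Vz z ∧ Vz z ≤ C / Real.log z

def St_SIG : Prop :=
  ∃ C : ℝ, 0 < C ∧ ∀ B : ℕ, ∀ᶠ X : ℕ in atTop, ∀ (P r : ℕ) (b : ℤ) (η : ℝ), 1 ≤ P →
    (P : ℝ) ≤ lg X ^ B → 1 ≤ r → (r : ℝ) ≤ (X : ℝ) ^ (2 / 5 : ℝ) → IsCoprime b (r : ℤ) →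
    r * |η| ≤ (X : ℝ) ^ (-(11 / 20) : ℝ) → ‖sh X P ((b : ℝ) / r + η)‖ ≤ C * √(X : ℝ) / √(P : ℝ)

def St_TSH : Prop :=
  ∀ (X P q v r : ℕ) (b₁ : ℤ) (η : ℝ), q.Prime → ¬ q ∣ v → 1 ≤ r → 1 ≤ P → P < q →
    (P : ℝ) ≤ √(X : ℝ) → q * r * |η| * P ≤ 1 / 2 →
    ∑ b ∈ nb q r b₁, ‖Ts X P (v * ((b : ℝ) * r + b₁) / (q * r) + η)‖
      ≤ 8 * (P : ℝ) ^ 3 * (q * r * P + q * (1 + Real.log q)) / √(X : ℝ)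

/-! ### Part 2: bilinear sums -/

def St_GID : Prop :=
  ∀ (X P q a v₁ v₂ J : ℕ) (θ : ℝ), 1 ≤ q → (v₁ + v₂) * ((M3 X + 1) ^ 2 + a) ≤ q * J →
    gT X P q a v₁ v₂ θ = ∑ j ∈ box J, (gk X P q a v₁ v₂ j : ℂ) * ee (j * θ)

def St_TOEP : Prop :=
  ∀ (X P q a K W J N : ℕ) (β : ℕ → ℝ) (S : Finset ℕ) (U : Finset ℤ) (G : ℝ), 1 ≤ q →
    (∀ v ∈ S, v.Prime ∧ v ≤ W) → 2 * W * ((M3 X + 1) ^ 2 + a) ≤ q * J → J + W * K < N →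
    (∀ v ∈ S, ∀ U' : Finset ℤ, DD X P q a K β {v} U' ≤ G) →
    DD X P q a K β S U ≤ S.card * G + OF β K N S (fun v₁ v₂ θ => ‖gT X P q a v₁ v₂ θ‖) / N

def St_DIAG : Prop :=
  ∀ (d : ℝ) (A B : ℕ), 0 < d → d ≤ 1 / 100 → ∀ᶠ X : ℕ in atTop,
    ∀ (P q a K v : ℕ) (β : ℕ → ℝ) (U : Finset ℤ), 1 ≤ P → (P : ℝ) ≤ lg X ^ B →
    Reg (d / 10) X q a K → v.Prime → (X : ℝ) ^ d / 2 < v → (v : ℝ) ≤ 2 * zz X →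
    (∀ k, |β k| ≤ 1) → DD X P q a K β {v} U ≤ ((X : ℝ) / q) ^ 2 / lg X ^ A

def St_BLK : Prop :=
  ∀ (β : ℕ → ℝ) (K K' : ℕ), (∀ k, |β k| ≤ 1) → 1 ≤ K' → ∃ h : ℕ → ℝ, (∀ j, 0 ≤ h j) ∧
    (∀ x : ℝ, ‖bh β K x‖ ^ 2 ≤ h (blk K' x)) ∧ ∑ j ∈ range K', h j ≤ bS K K'

/-- content of the cross product -/
def crs (P Q : ℤ × ℤ × ℤ) : ℕ :=
  Int.gcd (Int.gcd (P.2.1 * Q.2.2 - P.2.2 * Q.2.1) (P.2.2 * Q.1 - P.1 * Q.2.2) : ℕ)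
    (P.1 * Q.2.1 - P.2.1 * Q.1)

def St_MU1 : Prop :=
  ∀ (V E G φ φ' : ℝ) (T : Finset (ℤ × ℤ × ℤ)), 1 ≤ V → 0 ≤ E → 0 ≤ G →
    (∀ P ∈ T, V < P.1 ∧ (P.1 : ℝ) ≤ 2 * V ∧ V < P.2.1 ∧ (P.2.1 : ℝ) ≤ 2 * V ∧
      |P.1 * φ - P.2.1 * φ' - P.2.2| ≤ E) →
    (∀ P ∈ T, ∀ Q ∈ T, P ≠ Q → P.1 * Q.2.1 - P.2.1 * Q.1 ≠ 0 ∧ (crs P Q : ℝ) ≤ G) →
    (T.card : ℝ) ≤ 1 + 4 * G + 5000 * V ^ 2 * E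

def St_MU : Prop :=
  ∃ C : ℝ, 0 < C ∧ ∀ (V Δ ρ φ φ' : ℝ) (S : Finset ℕ), 1 ≤ V → 0 < Δ → 0 < ρ → PV V S →
    ((S.offDiag.filter fun v => ∃ θ : ℝ, Mn ρ (Δ / V) θ ∧ nz (v.2 * θ - φ) ≤ Δ ∧
      nz (v.1 * θ - φ') ≤ Δ).card : ℝ) ≤ C * (1 + V ^ 3 * Δ + V ^ 2 / ρ)

def St_YC : Prop :=
  ∀ (K' N v₁ v₂ j j' : ℕ) (V : ℝ), 1 ≤ V → v₁.Prime → v₂.Prime → v₁ ≠ v₂ → (v₁ : ℝ) ≤ 2 * V →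
    V < v₂ → (v₂ : ℝ) ≤ 2 * V → 16 * V ≤ K' → K' * V ≤ N →
    (((range N).filter fun i : ℕ => blk K' (v₂ * ((i : ℝ) / N)) = j ∧
      blk K' (v₁ * ((i : ℝ) / N)) = j').card : ℝ) ≤ 2 * N / (K' * V)

def St_YB : Prop :=
  ∃ C : ℝ, 0 < C ∧ ∀ (β : ℕ → ℝ) (K K' N : ℕ) (V ρ : ℝ) (S I : Finset ℕ), (∀ k, |β k| ≤ 1) →
    1 ≤ V → 0 < ρ → PV V S → 16 * V ≤ K' → K' * V ≤ N → I ⊆ range N →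
    (∀ i ∈ I, Mn ρ (1 / K' / V) ((i : ℝ) / N)) →
    ∑ v ∈ S.offDiag, ∑ i ∈ I,
        ‖bh β K (v.2 * ((i : ℝ) / N))‖ ^ 2 * ‖bh β K (v.1 * ((i : ℝ) / N))‖ ^ 2
      ≤ C * N * bS K K' ^ 2 * (1 + V ^ 3 / K' + V ^ 2 / ρ) / (K' * V)

def St_M1 : Prop :=
  ∀ (β : ℕ → ℝ) (K K' N v : ℕ) (V R : ℝ) (I : Finset ℕ), (∀ k, |β k| ≤ 1) → 1 ≤ V → v.Prime →
    V < v → (v : ℝ) ≤ 2 * V → 1 ≤ K' → 20 * R ^ 2 ≤ K' → K' * V ≤ N → I ⊆ range N →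
    (∀ i ∈ I, ∃ r b, Arc R (1 / K' / V) ((i : ℝ) / N) r b ∧ ¬ v ∣ r) →
    ∑ i ∈ I, ‖bh β K (v * ((i : ℝ) / N))‖ ^ 2 ≤ 12 * N * bS K K' / (K' * V)

def St_REP : Prop :=
  ∀ ε : ℝ, 0 < ε → ∃ C : ℝ, 0 < C ∧ ∀ (v₁ v₂ Z : ℕ) (n : ℤ), v₁.Prime → v₂.Prime → v₁ ≠ v₂ →
    v₁ ≤ Z → v₂ ≤ Z → (((box Z ×ˢ box Z).filter fun m =>
      (v₂ : ℤ) * m.1 ^ 2 - v₁ * m.2 ^ 2 = n).card : ℝ) ≤ C * (Z : ℝ) ^ ε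

def St_GL2 : Prop :=
  ∀ (ε : ℝ) (B : ℕ), 0 < ε → ∀ᶠ X : ℕ in atTop, ∀ P q a v₁ v₂ J N : ℕ, 1 ≤ P →
    (P : ℝ) ≤ lg X ^ B → q.Prime → v₁.Prime → v₂.Prime → v₁ ≠ v₂ → v₁ < q →
    (v₁ : ℝ) ≤ √(X : ℝ) → (v₂ : ℝ) ≤ √(X : ℝ) →
    (v₁ + v₂) * ((M3 X + 1) ^ 2 + a) ≤ q * J → 1 ≤ N → J ≤ N →
    ∑ i ∈ range N, ‖gT X P q a v₁ v₂ ((i : ℝ) / N)‖ ^ 2
      ≤ N * ((X : ℝ) ^ ε * (√(X : ℝ) + X / q))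

def St_EB1 : Prop :=
  ∀ (q : ℕ) [Fact q.Prime] (r r₁ r₂ : ℕ) (b₁ c u₁ u₂ h₁ h₂ : ℤ), q ≠ 2 → ¬ q ∣ r → r₁ ∣ r →
    r₂ ∣ r → ¬ (q : ℤ) ∣ u₁ → ¬ (q : ℤ) ∣ u₂ → IsCoprime (u₁ * b₁) (r₁ : ℤ) →
    IsCoprime (u₂ * b₁) (r₂ : ℤ) →
    ‖∑ b ∈ nb q r b₁, ee (-((c : ℝ) * b / q)) * GG (u₂ * (b * r + b₁)) h₂ (q * r₂) *
        conj (GG (u₁ * (b * r + b₁)) h₁ (q * r₁))‖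
      ≤ 4 * q * √((r₁ : ℝ) * r₂) * ‖Kl q (-((c : ZMod q) * (r : ZMod q)⁻¹))
        ((4 * (u₁ : ZMod q) * r₁)⁻¹ * (h₁ : ZMod q) ^ 2 +
          -(4 * (u₂ : ZMod q) * r₂)⁻¹ * (h₂ : ZMod q) ^ 2)‖

def St_EB : Prop :=
  ∀ ε : ℝ, 0 < ε → ∃ C : ℝ, 0 < C ∧ ∀ (X q a v₁ v₂ r : ℕ) (b₁ : ℤ) (η H₁ H₂ : ℝ), 2 ≤ X →
    q.Prime → q ≠ 2 → q ≤ X → ¬ q ∣ a → ¬ q ∣ r → IsCoprime b₁ (r : ℤ) → v₁.Prime → v₂.Prime →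
    v₁ ≠ v₂ → v₁ < q → v₂ < q → H₁ = HQ X (q * (r / Nat.gcd v₁ r)) (v₁ * η / q) →
    H₂ = HQ X (q * (r / Nat.gcd v₂ r)) (v₂ * η / q) → (Lx X * H₁) ^ 2 ≤ q → (Lx X * H₂) ^ 2 ≤ q →
    ‖ET X q a v₁ v₂ r b₁ η‖ ≤ C * (q : ℝ) ^ (3 / 4 + ε) * (√(X : ℝ) / q) * fH X H₁ * fH X H₂ + 1

def St_GD : Prop :=
  ∀ (X P q a v₁ v₂ r : ℕ) (b₁ : ℤ) (η : ℝ), q.Prime → ¬ q ∣ r → IsCoprime b₁ (r : ℤ) →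
    ¬ q ∣ v₁ → ¬ q ∣ v₂ → 1 ≤ P → P < q → (P : ℝ) ≤ √(X : ℝ) → r * v₁ * |η| * P ≤ 1 / 2 →
    r * v₂ * |η| * P ≤ 1 / 2 → ∃ b' : ℤ, IsCoprime b' (r : ℤ) ∧
    ‖gT X P q a v₁ v₂ (b₁ / r + η)‖ ≤
      ‖sh X P (v₂ * (b' / r + η / q))‖ * ‖sh X P (v₁ * (b' / r + η / q))‖ / q +
      ‖ET X q a v₁ v₂ r b₁ η‖ + 64 * (P : ℝ) ^ 6 * (r + 1 + Real.log q)

def St_Z1 : Prop :=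
  ∀ A : ℕ, ∃ B₀ : ℕ, ∀ B : ℕ, B₀ ≤ B → ∀ᶠ X : ℕ in atTop,
    ∀ (q a K v₁ v₂ r : ℕ) (b₁ : ℤ) (η : ℝ), Reg (1 / 1000) X q a K → v₁.Prime → v₂.Prime →
    v₁ ≠ v₂ → (v₁ : ℝ) ≤ 2 * zz X → (v₂ : ℝ) ≤ 2 * zz X → 1 ≤ r →
    (r : ℝ) ≤ (X : ℝ) ^ (121 / 500 : ℝ) → IsCoprime b₁ (r : ℤ) →
    r * |η| ≤ (X : ℝ) ^ (1 / 500 : ℝ) * q / X →
    ‖gT X (Pb X B) q a v₁ v₂ (b₁ / r + η)‖ ≤ (X : ℝ) / q / lg X ^ A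

def St_ZON : Prop :=
  ∃ C : ℝ, 0 < C ∧ ∀ (β : ℕ → ℝ) (K K' N : ℕ) (V R g₁ G₂ : ℝ) (S : Finset ℕ)
    (g : ℕ → ℕ → ℝ → ℝ), (∀ k, |β k| ≤ 1) → 1 ≤ R → R ≤ V → PV V S → K ≤ K' →
    20 * (V * R) ^ 2 ≤ K' → K' * V ≤ N → (∀ v₁ v₂ θ, 0 ≤ g v₁ v₂ θ) → 0 ≤ g₁ → 0 ≤ G₂ →
    (∀ v ∈ S.offDiag, ∑ i ∈ range N, g v.1 v.2 ((i : ℝ) / N) ^ 2 ≤ N * G₂) →
    (∀ v ∈ S.offDiag, ∀ θ r b, Arc (V * R) (1 / K' / V) θ r b → g v.1 v.2 θ ≤ g₁) →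
    OF β K N S g ≤ C * N * V * bS K K' * (√(G₂ / (K' * R)) + g₁ / K')

def St_T2 : Prop :=
  ∀ (d : ℝ) (A : ℕ), 0 < d → d ≤ 1 / 100 → ∃ B₀ : ℕ, ∀ B : ℕ, B₀ ≤ B → ∀ᶠ X : ℕ in atTop,
    ∀ (q a K : ℕ) (V : ℝ) (S : Finset ℕ) (β : ℕ → ℝ) (U : Finset ℤ), Reg (d / 10) X q a K →
    (X : ℝ) ^ d / 2 ≤ V → V ≤ zz X → PV V S → (∀ k, |β k| ≤ 1) →
    DD X (Pb X B) q a K β S U ≤ ((X : ℝ) / q) ^ 2 * V / lg X ^ A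

/-! ### Part 3: the sieve -/

def St_FLQ : Prop :=
  ∀ κ : ℝ, ∃ C : ℝ, 1 ≤ C ∧ ∀ k : ℕ, C ≤ 2 ^ k → ∀ (ι A : Type) (I : Finset ι) (N p : ι → ℝ)
    (z : ℝ) (T : Finset A) (a : A → ℝ) (ψ : ι → A → ℝ) (M Rem : ℝ), 2 ≤ z →
    (∀ i ∈ I, 2 ≤ N i ∧ N i ≤ z ∧ 0 ≤ p i ∧ p i ≤ 2 / 3) →
    (∀ y : ℝ, 1 < y → ∑ i ∈ I.filter (fun i => y < N i ∧ N i ≤ y ^ 2), p i ≤ κ) →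
    (∀ x ∈ T, 0 ≤ a x) → (∀ i ∈ I, ∀ x ∈ T, 0 ≤ ψ i x ∧ ψ i x ≤ 1) → 0 ≤ M →
    (∑ S ∈ I.powerset.filter (fun S => ∏ i ∈ S, N i ≤ z ^ (4 * k + 6)),
      |∑ x ∈ T, a x * ∏ i ∈ S, ψ i x - M * ∏ i ∈ S, p i| ≤ Rem) →
    |∑ x ∈ T, a x * ∏ i ∈ I, (1 - ψ i x) - M * ∏ i ∈ I, (1 - p i)| ≤
      3 * C / 2 ^ k * (M * ∏ i ∈ I, (1 - p i)) + 2 * z * Rem

def St_FLC : Prop :=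
  ∃ C : ℝ, 1 ≤ C ∧ ∀ k : ℕ, C ≤ 2 ^ k → ∀ (φ : ℤ → ℝ) (Φ z : ℝ) (a b : ℤ) (f : ℤ → ℤ) (p : ℕ),
    Uni φ Φ → 2 ≤ z → (∀ m m', m - m' ∣ f m - f m') →
    (∀ l ∈ pr 0 z, rt f l ≤ 2 ∧ 3 * rt f l ≤ 2 * l) → (p = 1 ∨ (p.Prime ∧ z < p)) → rt f p ≤ 2 →
    |(∑ m ∈ Ico a b, if (p : ℤ) ∣ f m ∧ ∀ l ∈ pr 0 z, ¬ (l : ℤ) ∣ f m then φ m else 0) -
        (∑ m ∈ Ico a b, φ m) * ((rt f p : ℝ) / p) * ∏ l ∈ pr 0 z, (1 - (rt f l : ℝ) / l)|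
      ≤ C / 2 ^ k * ((∑ m ∈ Ico a b, φ m) * ((rt f p : ℝ) / p) *
          ∏ l ∈ pr 0 z, (1 - (rt f l : ℝ) / l)) + 16 * Φ * z ^ (8 * k + 13)

def St_T1 : Prop :=
  ∃ C : ℝ, 1 ≤ C ∧ ∀ (k : ℕ) (d t : ℝ), C ≤ 2 ^ k → 0 < d → (8 * k + 14) * d ≤ t → t ≤ 1 / 10 →
    ∀ᶠ X : ℕ in atTop, ∀ P n : ℕ, 1 ≤ P → (P : ℝ) ≤ √(X : ℝ) → X < n → n ≤ 2 * X →
    BB X P n (Rz ((X : ℝ) ^ d)) ≤ C * √(X : ℝ) / (d * lg X) ∧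
    |AA X n (F1 X d t) - Pn n ((X : ℝ) ^ d) * BB X P n (F1 X d t)| ≤
      C * Pn n ((X : ℝ) ^ d) * √(X : ℝ) / (d * lg X) *
        (1 / 2 ^ k + |Js n (zz X) ((X : ℝ) ^ (1 / 2 - t))| + 1 / P) +
      (1 + Pn n ((X : ℝ) ^ d)) * (X : ℝ) ^ (1 / 2 - d / 2)

def St_JV : Prop :=
  ∀ (q a K Z : ℕ) (S : Finset ℕ) (c : ℕ → ℝ),
    (∀ d ∈ S, Odd d ∧ Squarefree d ∧ d ≤ Z ∧ Nat.Coprime q d) →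
    ∑ k ∈ range K, (∑ d ∈ S, c d * (J(((a + q * k : ℕ) : ℤ) | d) : ℝ)) ^ 2 ≤
      K * ∑ d ∈ S, c d ^ 2 +
        2 * (1 + 2 * Real.log Z) * (∑ d ∈ S, |c d| * (d.divisors.card : ℝ) * √(d : ℝ)) ^ 2

def St_AA1 : Prop :=
  (∀ ε : ℝ, 0 < ε → ∃ (y : ℕ) (c : ℝ), 3 ≤ y ∧ 0 < c ∧ (∀ n, c ≤ Pn n y) ∧
    ∀ Z : ℕ, ∑ d ∈ Ioc y Z, 1 / (d.totient : ℝ) ^ 2 ≤ ε * c ^ 2) ∧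
  (∀ n y P : ℕ, primorial y ≤ P →
    S0 n P = Pn n y + ∑ d ∈ (Ioc y P).filter (fun d => ¬ d ∣ primorial y), fn n d) ∧
  ∀ (n : ℕ) (y z η : ℝ), 2 ≤ y → y ≤ z → η ≤ 1 / 4 → |∑ p ∈ pr y z, fn n p| ≤ η →
    ∑ p ∈ pr y z, 1 / (p.totient : ℝ) ^ 2 ≤ η → |Pn n z - Pn n y| ≤ 4 * η * Pn n y

def St_AA2 : Prop :=
  (∀ d t η : ℝ, 0 < d → d ≤ t → t ≤ 1 / 10 → 0 < η → ∀ᶠ X : ℕ in atTop, ∀ q a K : ℕ,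
    Reg (d / 10) X q a K →
    ∑ k ∈ range K, Js (a + q * k) (zz X) ((X : ℝ) ^ (1 / 2 - t)) ^ 2 ≤ η * X / q) ∧
  ∀ η : ℝ, 0 < η → ∀ᶠ X : ℕ in atTop, ∀ (q a K : ℕ) (T : Finset ℕ), Reg (1 / 1000) X q a K →
    (∀ d ∈ T, 1 ≤ d ∧ (d : ℝ) ≤ (X : ℝ) ^ (1 / 4 : ℝ)) →
    ∑ k ∈ range K, (∑ d ∈ T, fn (a + q * k) d) ^ 2 ≤
      2 * X / q * ∑ d ∈ T, 1 / (d.totient : ℝ) ^ 2 + η * X / q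

def St_AA : Prop :=
  ∀ d θ t e ε : ℝ, 0 < d → d ≤ 1 / 100 → 0 < θ → θ ≤ 1 / 4 → d ≤ t → t ≤ 1 / 10 → 0 < e →
    0 < ε → ∃ c : ℝ, 0 < c ∧ ∀ B : ℕ, 1 ≤ B → ∀ᶠ X : ℕ in atTop, ∀ q a K : ℕ,
    Reg (d / 10) X q a K →
    (((range K).filter fun k => ¬ (c ≤ Pn (a + q * k) ((X : ℝ) ^ d) ∧
      |S0 (a + q * k) (Pb X B) - Pn (a + q * k) ((X : ℝ) ^ d)| ≤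
        e * Pn (a + q * k) ((X : ℝ) ^ d) ∧
      Pn (a + q * k) ((X : ℝ) ^ θ) ≤ 2 * Pn (a + q * k) ((X : ℝ) ^ d) ∧
      |Js (a + q * k) (zz X) ((X : ℝ) ^ (1 / 2 - t))| ≤ e)).card : ℝ) ≤ ε * X / q

def St_RAM : Prop :=
  ∀ (X x : ℕ) (d t : ℝ), 33 ≤ X → 0 < d → d ≤ 1 / 10 → 0 < t → t ≤ 1 / 10 → 1 ≤ x → x ≤ 2 * X →
    (2 ≤ x → F0 X t x - Ft X t x ≤ ip x) ∧ F0 X t x - Ft X t x ≤ 1 ∧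
    |F0 X t x - (F1 X d t x - F2 X d t x)| ≤ 6 * Fq X d x ∧
    |F2 X d t x| ≤ 3 * Rz ((X : ℝ) ^ d) x ∧ |al X d t x| ≤ 3 ∧ -3 ≤ F0 X t x

def St_SQ : Prop :=
  ∀ d : ℝ, 0 < d → d ≤ 1 / 10 → ∀ᶠ X : ℕ in atTop, ∀ P n : ℕ, 1 ≤ P → (P : ℝ) ≤ √(X : ℝ) →
    X < n → n ≤ 2 * X → AA X n (Fq X d) ≤ (X : ℝ) ^ (1 / 2 - d / 2) ∧
      BB X P n (Fq X d) ≤ (X : ℝ) ^ (1 / 2 - d / 2)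

def St_PW : Prop :=
  ∀ A B : ℕ, ∃ C : ℝ, 0 < C ∧ ∀ (N s t : ℕ) (φ : ℤ → ℝ) (Φ : ℝ), 2 ≤ N → s ≤ t → t ≤ N →
    Uni φ Φ →
    |∑ p ∈ (Ioc s t).filter Nat.Prime, φ p * Real.log p - ∑ x ∈ Ioc s t, φ x|
      ≤ C * Φ * N / Real.log N ^ A ∧
    ∀ (r : ℕ) (Γ : ℝ) (G : ℕ → ℝ), 1 ≤ r → (r : ℝ) ≤ Real.log N ^ B → r ≤ s →
      (∀ k, G (k + r) = G k) → (∀ k, |G k| ≤ Γ) →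
      |∑ p ∈ (Ioc s t).filter Nat.Prime, φ p * G p -
          (∑ c ∈ (range r).filter (fun c => Nat.Coprime c r), G c) / (r.totient : ℝ) *
            ∑ p ∈ (Ioc s t).filter Nat.Prime, φ p|
        ≤ C * r * Γ * Φ * N / Real.log N ^ A

def St_MT2 : Prop :=
  ∀ (d t : ℝ) (B : ℕ), 0 < d → d ≤ 1 / 10 → 0 < t → t ≤ 1 / 10 → ∀ᶠ X : ℕ in atTop,
    ∀ P n : ℕ, 1 ≤ P → (P : ℝ) ≤ lg X ^ B → X < n → n ≤ 2 * X →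
    |∑ x ∈ Icc 1 n, md X P ((n : ℤ) - x) * F2 X d t x - S0 n P * BB X P n (F2 X d t)|
      ≤ √(X : ℝ) / lg X ^ 2

def St_F2 : Prop :=
  ∀ d t : ℝ, 0 < d → d ≤ 1 / 100 → 0 < t → t ≤ 1 / 10 → ∃ B₀ : ℕ, ∀ B : ℕ, B₀ ≤ B →
    ∀ᶠ X : ℕ in atTop, ∀ q a K : ℕ, Reg (d / 10) X q a K →
    ∑ k ∈ range K, |AA X (a + q * k) (F2 X d t) -
        S0 (a + q * k) (Pb X B) * BB X (Pb X B) (a + q * k) (F2 X d t)|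
      ≤ 3 * ((X : ℝ) / q) * √(X : ℝ) / lg X ^ 2

/-! ### Part 4: the top range -/

def St_IGS : Prop :=
  ∀ (p : ℕ) (A B s u : ℤ), 1 ≤ p → IsCoprime A (p : ℤ) → s ≤ u →
    ‖∑ j ∈ Ico s u, ee (((A : ℝ) * (j : ℝ) ^ 2 + (B : ℝ) * j) / p)‖
      ≤ √(2 * (p : ℝ)) * (2 * ((u : ℝ) - s) / p + 1 + Real.log p)

def St_PB2 : Prop :=
  ∃ C : ℝ, 0 < C ∧ ∀ (p f q K N : ℕ) (a : ℤ) (φ₁ φ₂ : ℤ → ℝ) (G : ℕ → ℤ → ℝ), p.Prime →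
    ¬ p ∣ f → ¬ p ∣ q → Uni φ₁ 1 → Uni φ₂ 1 → (∀ k m, |G k m| ≤ 1) →
    (∀ k m, G (k + f) m = G k m) → (∀ k m, G k (m + f) = G k m) →
    |∑ k ∈ range K, ∑ m ∈ box N, φ₁ m * φ₂ m * G k m *
        ((if (p : ℤ) ∣ a + q * k - m ^ 2 then 1 else 0) - 1 / (p : ℝ))|
      ≤ C * (f : ℝ) ^ 2 * √(p : ℝ) * (1 + Real.log p) ^ 2 * (1 + (N : ℝ) / p)

def St_DSP1 : Prop :=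
  ∃ C : ℝ, 0 < C ∧ ∀ (X D p : ℕ) (Λ : ℕ → ℝ) (n : ℤ), 1 ≤ X → Sv Λ D → p.Prime → D < p →
    (∑ m ∈ box (M3 X), ∑ m' ∈ box (M3 X),
      if (p : ℤ) ∣ m' - m then w X m * w X m' * Th Λ D n m * Th Λ D n m' else 0)
      ≤ C * (√(X : ℝ) * (1 + Real.log D) ^ 8 + (D : ℝ) ^ 4 * (1 + (M3 X : ℝ) / p))

def St_DSP2 : Prop :=
  ∃ C : ℝ, 0 < C ∧ ∀ (X D p q a K : ℕ) (Λ : ℕ → ℝ), 1 ≤ X → Sv Λ D → p.Prime → D < p →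
    ¬ p ∣ q → ∑ k ∈ range K, RR X Λ D ((a : ℤ) + q * k) p ^ 2 ≤
      C * (K / p * (√(X : ℝ) * (1 + Real.log D) ^ 8 + (D : ℝ) ^ 4 * (1 + (M3 X : ℝ) / p)) +
        (D : ℝ) ^ 6 * √(p : ℝ) * (1 + Real.log p) ^ 2 * (1 + (M3 X : ℝ) / p) ^ 2)

def St_DSP : Prop :=
  ∀ᶠ X : ℕ in atTop, ∀ (D q a K : ℕ) (Λ : ℕ → ℝ), Reg (1 / 1000) X q a K → Sv Λ D →
    (D : ℝ) ≤ (X : ℝ) ^ (1 / 25 : ℝ) →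
    ∑ k ∈ range K, ∑ p ∈ (pr ((X : ℝ) ^ (2 / 5 : ℝ)) (√(X : ℝ) / lg X ^ 14)).erase q,
      |RR X Λ D ((a : ℤ) + q * k) p| ≤ (X : ℝ) / q * √(X : ℝ) / lg X ^ 2

def St_F1M : Prop :=
  ∀ C₀ η : ℝ, 0 < η → ∀ᶠ X : ℕ in atTop, ∀ (D q a K : ℕ) (Λ : ℕ → ℝ), Reg (1 / 1000) X q a K →
    Sv Λ D → (D : ℝ) ≤ (X : ℝ) ^ (1 / 25 : ℝ) → |∑ e ∈ Icc 1 D, Λ e / e| ≤ C₀ / lg X →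
    ∑ k ∈ range K, ∑ p ∈ (pr (√(X : ℝ) / lg X ^ 14) √(2 * X : ℝ)).erase q,
      TA X Λ D ((a : ℤ) + q * k) p ≤ η * ((X : ℝ) / q) * √(X : ℝ) / lg X

def St_WT1 : Prop :=
  ∃ (C : ℝ) (u : ℕ), 0 < C ∧ 1 ≤ u ∧ ∀ z : ℝ, 2 ≤ z → ∃ c : Finset ℕ → ℝ, (∀ S, |c S| ≤ 1) ∧
    c ∅ = 1 ∧ (∀ S ⊆ pr 0 z, c S ≠ 0 → ∏ p ∈ S, (p : ℝ) ≤ z ^ u) ∧
    (∀ x : ℕ → ℝ, (∀ p ∈ pr 0 z, 0 ≤ x p ∧ x p ≤ 1) →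
      0 ≤ ∑ S ∈ (pr 0 z).powerset, c S * ∏ p ∈ S, x p) ∧
    ∀ x : ℕ → ℝ, (∀ p ∈ pr 0 z, 0 ≤ x p ∧ x p ≤ 2 / 3 ∧ x p ≤ 2 / p) →
      ∑ S ∈ (pr 0 z).powerset, c S * ∏ p ∈ S, x p ≤ C * ∏ p ∈ pr 0 z, (1 - x p)

def St_WT : Prop :=
  ∃ C c : ℝ, 0 < C ∧ 0 < c ∧ c ≤ 1 / 25 ∧ ∀ᶠ X : ℕ in atTop, ∃ (Λ : ℕ → ℝ) (D : ℕ), Sv Λ D ∧
    (D : ℝ) ≤ (X : ℝ) ^ (1 / 25 : ℝ) ∧ |∑ e ∈ Icc 1 D, Λ e / e| ≤ C / lg X ∧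
    ∀ n : ℕ, Gm Λ D n ≤ C * Pn n ((X : ℝ) ^ c) / lg X

def St_TOP : Prop :=
  (∀ (X D q n : ℕ) (Λ : ℕ → ℝ) (t : ℝ), 1 ≤ X → Sv Λ D → (D : ℝ) ≤ zz X → q.Prime →
    AA X n (Ft X t) ≤ ∑ p ∈ (pr ((X : ℝ) ^ (1 / 2 - t)) √(2 * X : ℝ)).erase q, TA X Λ D n p +
      (4 * √(X : ℝ) / q + 4)) ∧
  (∀ (X D p : ℕ) (Λ : ℕ → ℝ) (n : ℤ), Sv Λ D → 0 ≤ TA X Λ D n p) ∧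
  ∀ (X D p : ℕ) (Λ : ℕ → ℝ) (n : ℤ) (g : ℝ), 1 ≤ X → p.Prime → 0 ≤ g → Gm Λ D n ≤ g →
    TA X Λ D n p ≤ g * (4 * √(X : ℝ) / p + 4) + |RR X Λ D n p|

def St_F3T : Prop :=
  ∃ C c : ℝ, 0 < C ∧ 0 < c ∧ c ≤ 1 / 4 ∧ ∀ t η : ℝ, 0 < t → t ≤ 1 / 10 → 0 < η →
    ∀ᶠ X : ℕ in atTop, ∀ q a K : ℕ, Reg (1 / 1000) X q a K →
    ∑ k ∈ range K, max (AA X (a + q * k) (Ft X t) -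
        C * t * Pn (a + q * k) ((X : ℝ) ^ c) * √(X : ℝ) / lg X) 0
      ≤ η * ((X : ℝ) / q) * √(X : ℝ) / lg X

/-! ### Part 5: assembly -/

def St_NUMa : Prop :=
  ∀ᶠ X : ℕ in atTop, ∀ (x : ℕ) (t : ℝ), 0 < t → t ≤ 1 / 100 → (X : ℝ) ^ (1 - t) < x →
    x ≤ 2 * X → ip x - 2 * N3 X x - 3 * N4 X x ≤ F0 X t x

def St_NUMb : Prop :=
  ∀ (B : ℕ) (η : ℝ), 0 < η → ∀ᶠ X : ℕ in atTop, ∀ P n : ℕ, 1 ≤ P → (P : ℝ) ≤ lg X ^ B → X < n →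
    n ≤ 2 * X →
    BB X P n (N3 X) ≤ (2 / 5 * BB X P n (fun _ => 1) + η * √(X : ℝ)) / lg X ∧
    BB X P n (N4 X) ≤ (1 / 25 * BB X P n (fun _ => 1) + η * √(X : ℝ)) / lg X ∧
    (99 / 100 * BB X P n (fun _ => 1) - η * √(X : ℝ)) / lg X ≤ BB X P n ip

def St_NUM : Prop :=
  ∃ c : ℝ, 0 < c ∧ ∀ (t : ℝ) (B : ℕ), 0 < t → t ≤ 1 / 100 → ∀ᶠ X : ℕ in atTop, ∀ P n : ℕ,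
    4 ≤ P → (P : ℝ) ≤ lg X ^ B → X < n → n ≤ 2 * X → c * √(X : ℝ) / lg X ≤ BB X P n (F0 X t)

def St_DY1 : Prop :=
  ∀ (X P n : ℕ) (d t Q S : ℝ), 33 ≤ X → 0 < d → d ≤ 1 / 10 → 0 < t → t ≤ 1 / 10 → n ≤ 2 * X →
    0 ≤ Q → ¬ Rep n →
    Q * BB X P n (F0 X t) ≤ |AA X n (F1 X d t) - Q * BB X P n (F1 X d t)| +
      |AA X n (F2 X d t) - S * BB X P n (F2 X d t)| + 3 * |S - Q| * BB X P n (Rz ((X : ℝ) ^ d)) +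
      6 * AA X n (Fq X d) + 6 * Q * BB X P n (Fq X d) + AA X n (Ft X t) + 2

def St_DY : Prop :=
  ∃ δ : ℝ, 0 < δ ∧ ∀ ε : ℝ, 0 < ε → ∀ᶠ X : ℕ in atTop, ∀ q a K : ℕ, Reg δ X q a K →
    (((range K).filter fun k => ¬ Rep (a + q * k)).card : ℝ) ≤ ε * X / q

def St_ALL : Prop :=
  ∃ δ : ℝ, 0 < δ ∧ ∀ ε : ℝ, 0 < ε → ∃ X₀ : ℕ, ∀ X q a : ℕ, X₀ ≤ X → q.Prime →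
    (q : ℝ) ≤ (X : ℝ) ^ (1 / 2 + δ) → ¬ q ∣ a →
    (Set.ncard {n : ℕ | n ≤ X ∧ n ≡ a [MOD q] ∧ ¬ ∃ p m : ℕ, p.Prime ∧ n = p + m ^ 2} : ℝ)
      ≤ ε * X / q

end Pool.Agent.Lib.APQ
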