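import Pool.Agent.Lib.PS.Blue

/-!
Definitions for a prime plus a square in progressions to large prime moduli.
-/

namespace Pool.Agent.Lib.APQ

open Finset Real Complex Pool.Agent.Lib.PS
open scoped NumberTheorySymbols ArithmeticFunction.Moebius Classical ComplexConjugate

noncomputable section

/-! ### weights -/

/-- Gaussian of width `W` -/
def ga (W t : ℝ) : ℝ := Real.exp (-(π * t ^ 2 / W ^ 2))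

/-- distance to the nearest integer -/
def nz (x : ℝ) : ℝ := |x - round x|

def box (N : ℕ) : Finset ℤ := Icc (-(N : ℤ)) N

/-- unimodal with values in `[0, Φ]` -/
def Uni (φ : ℤ → ℝ) (Φ : ℝ) : Prop :=
  (∀ t, 0 ≤ φ t ∧ φ t ≤ Φ) ∧ ∃ c : ℤ, (∀ s t, s ≤ t → t ≤ c → φ s ≤ φ t) ∧
    ∀ s t, c ≤ s → s ≤ t → φ t ≤ φ s

def lg (X : ℕ) : ℝ := Real.log X

def Lx (X : ℕ) : ℝ := 2 * √(lg X)

def M3 (X : ℕ) : ℕ := ⌊Lx X * √(X : ℝ)⌋₊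

def Pb (X B : ℕ) : ℕ := ⌊lg X ^ B⌋₊

def m0 (X P : ℕ) : ℕ := ⌊√(X : ℝ) / P⌋₊

def w (X : ℕ) (m : ℤ) : ℝ := ga √(X : ℝ) m

/-- weighted squares -/
def sq (X : ℕ) (y : ℤ) : ℝ := ∑ m ∈ box (M3 X), if m ^ 2 = y then w X m else 0

/-- the mass of each square spread up to the next square -/
def s0 (X P : ℕ) (y : ℤ) : ℝ :=
  if 0 ≤ y ∧ m0 X P ≤ Nat.sqrt y.toNat ∧ Nat.sqrt y.toNat ≤ M3 X then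
    2 * w X (Nat.sqrt y.toNat : ℕ) / (2 * (Nat.sqrt y.toNat : ℕ) + 1) else 0

/-- the model for the squares -/
def md (X P : ℕ) (y : ℤ) : ℝ := s0 X P y * (nu P y : ℝ)

def sg (X P : ℕ) (y : ℤ) : ℝ := sq X y - md X P y

def YS (X : ℕ) : Finset ℤ := Ico 0 (((M3 X : ℤ) + 1) ^ 2)

def ft (S : Finset ℤ) (f : ℤ → ℝ) (α : ℝ) : ℂ := ∑ y ∈ S, (f y : ℂ) * ee (y * α)

def TT (X : ℕ) (α : ℝ) : ℂ := ft (YS X) (sq X) α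

def II (X P : ℕ) (α : ℝ) : ℂ := ft (YS X) (s0 X P) α

def Ts (X P : ℕ) (α : ℝ) : ℂ := ft (YS X) (md X P) α

def sh (X P : ℕ) (α : ℝ) : ℂ := ft (YS X) (sg X P) α

/-! ### complete sums and the theta transformation -/

def GG (A h : ℤ) (Q : ℕ) : ℂ :=
  ∑ m ∈ range Q, ee (((A : ℝ) * (m : ℝ) ^ 2 + (h : ℝ) * m) / Q)

def tt (X : ℕ) (η : ℝ) : ℝ := 1 / (X : ℝ) ^ 2 + 4 * η ^ 2

def HQ (X Q : ℕ) (η : ℝ) : ℝ := Q * √(tt X η) * √(X : ℝ)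

def xi (X Q : ℕ) (η : ℝ) : ℝ := η / ((Q : ℝ) ^ 2 * tt X η)

def pf (X : ℕ) (η : ℝ) : ℂ := 1 / ((1 / (X : ℂ) - 2 * I * η) ^ (1 / 2 : ℂ))

/-- Kloosterman sum -/
def Kl (q : ℕ) [Fact q.Prime] (u v : ZMod q) : ℂ :=
  ∑ t : ZMod q, if t = 0 then 0 else ZMod.stdAddChar (u * t + v * t⁻¹)

/-! ### the progression -/

/-- the progression `a + q k`, `k < K`, inside `(X, 2X]` -/
structure Reg (δ : ℝ) (X q a K : ℕ) : Prop where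
  pr : q.Prime
  lo : (X : ℝ) ^ (59 / 200 : ℝ) ≤ q
  hi : (q : ℝ) ≤ (X : ℝ) ^ (1 / 2 + δ)
  cop : ¬ q ∣ a
  a1 : X < a
  a2 : a + q * K ≤ 2 * X + q

def bh (β : ℕ → ℝ) (K : ℕ) (φ : ℝ) : ℂ := ∑ k ∈ range K, (β k : ℂ) * ee (k * φ)

/-- primes of a dyadic range -/
def PV (V : ℝ) (S : Finset ℕ) : Prop := ∀ v ∈ S, v.Prime ∧ V < v ∧ (v : ℝ) ≤ 2 * V

/-- the residues `b` with `q ∤ b r + b₁` -/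
def nb (q r : ℕ) (b₁ : ℤ) : Finset ℕ := (range q).filter fun b => ¬ (q : ℤ) ∣ (b : ℤ) * r + b₁

/-! ### bilinear sums -/

/-- the kernel -/
def gk (X P q a v₁ v₂ : ℕ) (j : ℤ) : ℝ :=
  ∑ y₁ ∈ YS X, ∑ y₂ ∈ YS X,
    if (v₂ : ℤ) * y₁ - v₁ * y₂ = (a : ℤ) * ((v₂ : ℤ) - v₁) + q * j then sg X P y₁ * sg X P y₂ else 0

/-- its transform -/
def gT (X P q a v₁ v₂ : ℕ) (θ : ℝ) : ℂ :=
  (∑ b ∈ range q, ee (-((a : ℝ) * ((v₂ : ℝ) - v₁) * ((b + θ) / q))) *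
    sh X P (v₂ * ((b + θ) / q)) * conj (sh X P (v₁ * ((b + θ) / q)))) / q

/-- the part coming from denominators divisible by `q` -/
def ET (X q a v₁ v₂ r : ℕ) (b₁ : ℤ) (η : ℝ) : ℂ :=
  (∑ b ∈ nb q r b₁, ee (-((a : ℝ) * ((v₂ : ℝ) - v₁) * ((b + (b₁ / r + η)) / q))) *
    TT X (v₂ * ((b + (b₁ / r + η)) / q)) * conj (TT X (v₁ * ((b + (b₁ / r + η)) / q)))) / q

def blk (K' : ℕ) (x : ℝ) : ℕ := ⌊(K' : ℝ) * Int.fract x⌋₊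

/-- no good rational approximation -/
def Mn (ρ D θ : ℝ) : Prop := ∀ (r : ℕ) (b : ℤ), 1 ≤ r → (r : ℝ) ≤ ρ → ρ * D / r < |θ - b / r|

/-- the bound for the sum of the block maxima -/
def bS (K K' : ℕ) : ℝ := 3 * (K + K' * (1 + Real.log K')) * K

/-- a good rational approximation -/
def Arc (ρ D θ : ℝ) (r : ℕ) (b : ℤ) : Prop :=
  1 ≤ r ∧ (r : ℝ) ≤ ρ ∧ IsCoprime b (r : ℤ) ∧ |θ - b / r| ≤ ρ * D / r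

/-- the bilinear sum of squares -/
def DD (X P q a K : ℕ) (β : ℕ → ℝ) (S : Finset ℕ) (U : Finset ℤ) : ℝ :=
  ∑ u ∈ U, (∑ v ∈ S, ∑ k ∈ range K, β k * sg X P ((a : ℤ) + q * k - u * v)) ^ 2

/-- the off diagonal terms on the grid -/
def OF (β : ℕ → ℝ) (K N : ℕ) (S : Finset ℕ) (g : ℕ → ℕ → ℝ → ℝ) : ℝ :=
  ∑ v ∈ S.offDiag, ∑ i ∈ range N,
    g v.1 v.2 ((i : ℝ) / N) * ‖bh β K (v.2 * ((i : ℝ) / N))‖ * ‖bh β K (v.1 * ((i : ℝ) / N))‖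

/-- the size of one dual sum -/
def fH (X : ℕ) (H : ℝ) : ℝ := (1 + Lx X * H) ^ (3 / 4 : ℝ) / √H

/-! ### the top range -/

def nw (Λ : ℕ → ℝ) (D : ℕ) (s : ℤ) : ℝ := ∑ e ∈ Icc 1 D, if (e : ℤ) ∣ s then Λ e else 0

def Gm (Λ : ℕ → ℝ) (D : ℕ) (n : ℤ) : ℝ := ∑ e ∈ Icc 1 D, Λ e * (rho e n : ℝ) / e

def Th (Λ : ℕ → ℝ) (D : ℕ) (n m : ℤ) : ℝ := nw Λ D (n - m ^ 2) - Gm Λ D n

def TA (X : ℕ) (Λ : ℕ → ℝ) (D : ℕ) (n : ℤ) (p : ℕ) : ℝ :=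
  ∑ m ∈ box (M3 X), if (p : ℤ) ∣ n - m ^ 2 then w X m * nw Λ D (n - m ^ 2) else 0

def RR (X : ℕ) (Λ : ℕ → ℝ) (D : ℕ) (n : ℤ) (p : ℕ) : ℝ :=
  ∑ m ∈ box (M3 X), if (p : ℤ) ∣ n - m ^ 2 then w X m * Th Λ D n m else 0

/-- upper sieve weights -/
structure Sv (Λ : ℕ → ℝ) (D : ℕ) : Prop where
  bd : ∀ e, |Λ e| ≤ 1
  sf : ∀ e, Λ e ≠ 0 → Squarefree e
  one : Λ 1 = 1
  pos : ∀ s, 0 ≤ nw Λ D s
  lo : 1 ≤ D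

/-! ### the sieve -/

/-- the primes in `(y, z]` -/
def pr (y z : ℝ) : Finset ℕ := (Ioc ⌊y⌋₊ ⌊z⌋₊).filter Nat.Prime

/-- no prime factor up to `z` -/
def Rz (z : ℝ) (x : ℕ) : ℝ := if ∀ p ∈ pr 0 z, ¬ p ∣ x then 1 else 0

/-- number of prime factors in `(y, z]` -/
def om (y z : ℝ) (x : ℕ) : ℝ := ∑ p ∈ pr y z, if p ∣ x then 1 else 0

def zz (X : ℕ) : ℝ := (X : ℝ) ^ (6 / 25 : ℝ)

def gf (X : ℕ) (t : ℝ) (x : ℕ) : ℝ := 1 - om (zz X) ((X : ℝ) ^ (1 / 2 - t)) x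

def al (X : ℕ) (d t : ℝ) (u : ℕ) : ℝ :=
  Rz ((X : ℝ) ^ d) u * gf X t u / (1 + om ((X : ℝ) ^ d) (zz X) u)

def F2 (X : ℕ) (d t : ℝ) (x : ℕ) : ℝ :=
  ∑ p ∈ pr ((X : ℝ) ^ d) (zz X), if p ∣ x then al X d t (x / p) else 0

def F1 (X : ℕ) (d t : ℝ) (x : ℕ) : ℝ := Rz ((X : ℝ) ^ d) x * gf X t x

def Ft (X : ℕ) (t : ℝ) (x : ℕ) : ℝ := Rz (zz X) x * om ((X : ℝ) ^ (1 / 2 - t)) √(2 * X : ℝ) x

def Fq (X : ℕ) (d : ℝ) (x : ℕ) : ℝ := ∑ p ∈ pr ((X : ℝ) ^ d) (zz X), if p ^ 2 ∣ x then 1 else 0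

/-- products of three primes -/
def N3 (X x : ℕ) : ℝ :=
  ∑ p₁ ∈ pr (zz X) ((X : ℝ) ^ (39 / 100 : ℝ)), ∑ p₂ ∈ pr (zz X) ((X : ℝ) ^ (39 / 100 : ℝ)),
    if p₁ ≤ p₂ ∧ p₁ * p₂ ∣ x ∧ (x / (p₁ * p₂)).Prime ∧
      (X : ℝ) ^ (33 / 100 : ℝ) ≤ ((x / (p₁ * p₂) : ℕ) : ℝ) then 1 else 0

/-- products of four primes -/
def N4 (X x : ℕ) : ℝ :=
  ∑ p₁ ∈ pr (zz X) ((X : ℝ) ^ (29 / 100 : ℝ)), ∑ p₂ ∈ pr (zz X) ((X : ℝ) ^ (29 / 100 : ℝ)),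
    ∑ p₃ ∈ pr (zz X) ((X : ℝ) ^ (29 / 100 : ℝ)),
      if p₁ * p₂ * p₃ ∣ x ∧ (x / (p₁ * p₂ * p₃)).Prime ∧ zz X ≤ ((x / (p₁ * p₂ * p₃) : ℕ) : ℝ)
      then 1 else 0

/-- the minorant on rough numbers -/
def F0 (X : ℕ) (t : ℝ) (x : ℕ) : ℝ := Rz (zz X) x * gf X t x

def ip (x : ℕ) : ℝ := if x.Prime then 1 else 0

def AA (X n : ℕ) (f : ℕ → ℝ) : ℝ := ∑ x ∈ Icc 1 n, sq X ((n : ℤ) - x) * f x

def BB (X P n : ℕ) (f : ℕ → ℝ) : ℝ := ∑ x ∈ Icc 1 n, s0 X P ((n : ℤ) - x) * f x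

def Vz (z : ℝ) : ℝ := ∏ p ∈ pr 0 z, (1 - 1 / (p : ℝ))

def Pn (n : ℕ) (z : ℝ) : ℝ := ∏ p ∈ pr 0 z, (1 + fn n p)

def Js (n : ℕ) (y z : ℝ) : ℝ := ∑ p ∈ pr y z, (J((n : ℤ) | p) : ℝ) / p

/-- number of roots of `f` modulo `d` -/
def rt (f : ℤ → ℤ) (d : ℕ) : ℕ := ((range d).filter fun m : ℕ => (d : ℤ) ∣ f m).card

def Rep (n : ℕ) : Prop := ∃ p m : ℕ, p.Prime ∧ n = p + m ^ 2

end

end Pool.Agent.Lib.APQ
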