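import Pool.Agent.Lib.APQ.Blue
import Pool.Agent.Lib.PS.MAJ
import Pool.Agent.Lib.PS.GAU
import Pool.Agent.Lib.PS.MOM
import Pool.Agent.Lib.BK2.MERT
import Pool.Agent.Lib.MP_6073f3_nt.Z.DispA

/-!
Small tools shared by all blocks.
-/

namespace Pool.Agent.Lib.APQ

open Finset Real Complex Filter Pool.Agent.Lib.PS
open scoped NumberTheorySymbols ArithmeticFunction.Moebius Classical ComplexConjugate

/-! ### growth -/

theorem lg_tendsto : Tendsto lg atTop atTop :=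
  Real.tendsto_log_atTop.comp tendsto_natCast_atTop_atTop

theorem ev_lg (C : ℝ) : ∀ᶠ X : ℕ in atTop, C ≤ lg X := lg_tendsto.eventually_ge_atTop C

theorem ev_rpow (C : ℝ) {a : ℝ} (ha : 0 < a) : ∀ᶠ X : ℕ in atTop, C ≤ (X : ℝ) ^ a :=
  ((tendsto_rpow_atTop ha).comp tendsto_natCast_atTop_atTop).eventually_ge_atTop C

theorem lg_nonneg (X : ℕ) : 0 ≤ lg X := Real.log_natCast_nonneg X

/-- powers beat logarithms -/
theorem ev_pow (C : ℝ) (A : ℕ) {a b : ℝ} (hab : a < b) :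
    ∀ᶠ X : ℕ in atTop, C * lg X ^ A * (X : ℝ) ^ a ≤ (X : ℝ) ^ b := by
  have h := (isLittleO_log_rpow_rpow_atTop (A : ℝ) (sub_pos.2 hab)).bound
    (show 0 < 1 / (|C| + 1) by positivity)
  filter_upwards [tendsto_natCast_atTop_atTop.eventually h, eventually_ge_atTop 1] with X h1 h2
  have hX : (0 : ℝ) < X := by exact_mod_cast h2
  have hl := lg_nonneg X
  rw [Real.norm_of_nonneg (Real.rpow_nonneg (Real.log_natCast_nonneg X) _),
    Real.norm_of_nonneg (by positivity), Real.rpow_natCast] at h1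
  have h3 : C * lg X ^ A ≤ (X : ℝ) ^ (b - a) := by
    have h4 : (|C| + 1) * lg X ^ A ≤ (X : ℝ) ^ (b - a) := by
      have := mul_le_mul_of_nonneg_left h1 (show 0 ≤ |C| + 1 by positivity)
      rwa [← mul_assoc, mul_one_div_cancel (by positivity), one_mul] at this
    nlinarith [le_abs_self C, pow_nonneg hl A]
  calc C * lg X ^ A * (X : ℝ) ^ a ≤ (X : ℝ) ^ (b - a) * (X : ℝ) ^ a := by gcongr
    _ = (X : ℝ) ^ b := by rw [← Real.rpow_add hX]; ring_nf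

theorem sqrt_eq (X : ℕ) : √(X : ℝ) = (X : ℝ) ^ (1 / 2 : ℝ) := Real.sqrt_eq_rpow _

theorem ev_lg_sqrt (C : ℝ) (A : ℕ) : ∀ᶠ X : ℕ in atTop, C * lg X ^ A ≤ √(X : ℝ) := by
  filter_upwards [ev_pow C A (show (0 : ℝ) < 1 / 2 by norm_num)] with X h
  rwa [Real.rpow_zero, mul_one, ← sqrt_eq] at h

theorem Lx_nonneg (X : ℕ) : 0 ≤ Lx X := by unfold Lx; positivity

theorem Lx_sq (X : ℕ) : Lx X ^ 2 = 4 * lg X := by
  rw [Lx, mul_pow, Real.sq_sqrt (lg_nonneg X)]; norm_num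

theorem Lx_bounds {X : ℕ} (h : 4 ≤ lg X) : 4 ≤ Lx X ∧ Lx X ≤ lg X := by
  have h1 := Lx_sq X
  have h2 := Lx_nonneg X
  constructor <;> nlinarith

theorem M3_le (X : ℕ) : (M3 X : ℝ) ≤ Lx X * √(X : ℝ) :=
  Nat.floor_le (mul_nonneg (Lx_nonneg X) (Real.sqrt_nonneg _))

theorem lt_M3 (X : ℕ) : Lx X * √(X : ℝ) < M3 X + 1 := Nat.lt_floor_add_one _

theorem M3_bounds {X : ℕ} (h : 4 ≤ lg X) :
    3 * √(X : ℝ) ≤ M3 X ∧ (M3 X : ℝ) ≤ lg X * √(X : ℝ) := by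
  obtain ⟨h1, h2⟩ := Lx_bounds h
  have h3 := M3_le X
  have h4 := lt_M3 X
  have h5 : (1 : ℝ) ≤ √(X : ℝ) := by
    rcases Nat.eq_zero_or_pos X with rfl | h0
    · simp [lg] at h; linarith
    · exact Real.one_le_sqrt.2 (by exact_mod_cast h0)
  constructor <;> nlinarith

theorem Pb_le (X B : ℕ) : (Pb X B : ℝ) ≤ lg X ^ B := Nat.floor_le (pow_nonneg (lg_nonneg X) B)

theorem Pb_bounds {X : ℕ} (h : 1 ≤ lg X) (B : ℕ) : 1 ≤ Pb X B ∧ lg X ^ B / 2 ≤ Pb X B := by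
  have h1 : 1 ≤ lg X ^ B := one_le_pow₀ h
  have h2 : 1 ≤ Pb X B := Nat.le_floor (by exact_mod_cast h1)
  have h3 : lg X ^ B < Pb X B + 1 := Nat.lt_floor_add_one _
  have h4 : (1 : ℝ) ≤ Pb X B := by exact_mod_cast h2
  exact ⟨h2, by linarith⟩

/-! ### the progression -/

theorem Reg.mono {δ δ' : ℝ} {X q a K : ℕ} (h : Reg δ X q a K) (hX : 1 ≤ X) (hδ : δ ≤ δ') :
    Reg δ' X q a K :=
  ⟨h.pr, h.lo, h.hi.trans (Real.rpow_le_rpow_of_exponent_le (by exact_mod_cast hX)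
    (by linarith)), h.cop, h.a1, h.a2⟩

theorem Reg.q_pos {δ : ℝ} {X q a K : ℕ} (h : Reg δ X q a K) : (0 : ℝ) < q := by
  exact_mod_cast h.pr.pos

theorem Reg.mem {δ : ℝ} {X q a K k : ℕ} (h : Reg δ X q a K) (hk : k < K) :
    X < a + q * k ∧ a + q * k ≤ 2 * X := by
  have h1 := h.a1
  have h2 := h.a2
  have h3 : q * (k + 1) ≤ q * K := Nat.mul_le_mul_left q hk
  rw [mul_add, mul_one] at h3
  omega

theorem Reg.K_lt {δ : ℝ} {X q a K : ℕ} (h : Reg δ X q a K) : (K : ℝ) < X / q + 1 := by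
  have h1 : q * K < X + q := by have := h.a1; have := h.a2; omega
  have h2 : (q : ℝ) * K < X + q := by exact_mod_cast h1
  rw [div_add_one h.q_pos.ne', lt_div_iff₀ h.q_pos]
  linarith

theorem Reg.q_le {δ : ℝ} {X q a K : ℕ} (h : Reg δ X q a K) (hX : 1 ≤ X) (hδ : δ ≤ 1 / 2) :
    (q : ℝ) ≤ X := by
  refine h.hi.trans ?_
  conv_rhs => rw [← Real.rpow_one (X : ℝ)]
  exact Real.rpow_le_rpow_of_exponent_le (by exact_mod_cast hX) (by linarith)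

theorem Reg.K_le {δ : ℝ} {X q a K : ℕ} (h : Reg δ X q a K) (hX : 1 ≤ X) (hδ : δ ≤ 1 / 2) :
    (K : ℝ) ≤ 2 * X / q := by
  have h1 : (1 : ℝ) ≤ X / q := (one_le_div h.q_pos).2 (h.q_le hX hδ)
  have h2 := h.K_lt
  rw [mul_div_assoc]
  linarith

theorem Reg.div_ge {δ : ℝ} {X q a K : ℕ} (h : Reg δ X q a K) (hX : 1 ≤ X) :
    (X : ℝ) ^ (1 / 2 - δ) ≤ X / q := by
  have hX' : (0 : ℝ) < X := by exact_mod_cast hX
  rw [le_div_iff₀ h.q_pos]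
  calc (X : ℝ) ^ (1 / 2 - δ) * q ≤ (X : ℝ) ^ (1 / 2 - δ) * (X : ℝ) ^ (1 / 2 + δ) := by
        gcongr; exact h.hi
    _ = X := by rw [← Real.rpow_add hX']; norm_num

/-! ### sets -/

theorem mem_pr {y z : ℝ} (hy : 0 ≤ y) {p : ℕ} : p ∈ pr y z ↔ p.Prime ∧ y < p ∧ (p : ℝ) ≤ z := by
  rw [pr, mem_filter, mem_Ioc, Nat.floor_lt hy]
  exact ⟨fun h => ⟨h.2, h.1.1, (Nat.le_floor_iff' h.2.ne_zero).1 h.1.2⟩,
    fun h => ⟨⟨h.2.1, (Nat.le_floor_iff' h.1.ne_zero).2 h.2.2⟩, h.1⟩⟩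

theorem card_pr_le {y z : ℝ} (hz : 0 ≤ z) : ((pr y z).card : ℝ) ≤ z := by
  have h1 : (pr y z).card ≤ ⌊z⌋₊ := (card_filter_le _ _).trans (by simp)
  exact (Nat.cast_le.2 h1).trans (Nat.floor_le hz)

theorem sum_pr_le {y z : ℝ} (hy : 2 ≤ y) (hyz : y ≤ z) :
    ∑ p ∈ pr y z, (1 : ℝ) / p ≤ Real.log (Real.log z / Real.log y) + 22 / Real.log y :=
  by have := (abs_le.1 (BK2.mert_two hy hyz)).2; unfold pr; linarith

theorem mem_box {N : ℕ} {m : ℤ} : m ∈ box N ↔ |m| ≤ N := by rw [box, mem_Icc, abs_le]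

theorem card_box (N : ℕ) : (box N).card = 2 * N + 1 := by
  rw [box, Int.card_Icc]; omega

theorem box_eq (N : ℕ) : box N = Ico (-(N : ℤ)) (N + 1) := by
  ext m; simp only [box, mem_Icc, mem_Ico]; omega

theorem PV.card_le {V : ℝ} {S : Finset ℕ} (h : PV V S) (hV : 0 ≤ V) : (S.card : ℝ) ≤ 2 * V := by
  refine le_trans (Nat.cast_le.2 (card_le_card (t := pr V (2 * V)) fun v hv => ?_))
    (card_pr_le (by positivity))
  exact (mem_pr hV).2 (h v hv)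

/-! ### distance to the nearest integer, exponentials -/

theorem nz_nonneg (x : ℝ) : 0 ≤ nz x := abs_nonneg _

theorem nz_le_half (x : ℝ) : nz x ≤ 1 / 2 := abs_sub_round x

theorem nz_le (x : ℝ) (n : ℤ) : nz x ≤ |x - n| := round_le x n

theorem le_nz {x c : ℝ} (h : ∀ n : ℤ, c ≤ |x - n|) : c ≤ nz x := h _

theorem nz_add_int (x : ℝ) (n : ℤ) : nz (x + n) = nz x := by
  unfold nz; rw [round_add_intCast]; push_cast; ring_nf

theorem nz_neg (x : ℝ) : nz (-x) = nz x := by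
  have h : ∀ y : ℝ, nz (-y) ≤ nz y := fun y => by
    refine (nz_le _ (-round y)).trans (le_of_eq ?_)
    rw [nz, ← abs_neg]; push_cast; ring_nf
  exact le_antisymm (h x) (by simpa using h (-x))

theorem ee_add_int (x : ℝ) (n : ℤ) : ee (x + n) = ee x := by rw [maj_ee_add, maj_ee_int, mul_one]

theorem ga_pos (W t : ℝ) : 0 < ga W t := Real.exp_pos _

theorem ga_le_one (W t : ℝ) : ga W t ≤ 1 :=
  Real.exp_le_one_iff.2 (neg_nonpos.2 (by positivity))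

theorem w_pos (X : ℕ) (m : ℤ) : 0 < w X m := ga_pos _ _

theorem w_le_one (X : ℕ) (m : ℤ) : w X m ≤ 1 := ga_le_one _ _

theorem Uni.nonneg {φ : ℤ → ℝ} {Φ : ℝ} (h : Uni φ Φ) : 0 ≤ Φ := (h.1 0).1.trans (h.1 0).2

theorem uni_one : Uni (fun _ => 1) 1 :=
  ⟨fun _ => ⟨zero_le_one, le_rfl⟩, 0, fun _ _ _ _ => le_rfl, fun _ _ _ _ => le_rfl⟩

/-! ### elementary sums -/

theorem sum_inv_sqrt (Z : ℕ) : ∑ n ∈ Icc 1 Z, 1 / √(n : ℝ) ≤ 2 * √(Z : ℝ) := by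
  induction Z with
  | zero => simp
  | succ Z ih =>
    rw [sum_Icc_succ_top (by omega)]
    have h1 : 0 < √((Z + 1 : ℕ) : ℝ) := Real.sqrt_pos.2 (by positivity)
    have h2 : √((Z + 1 : ℕ) : ℝ) ^ 2 = Z + 1 := by rw [Real.sq_sqrt (by positivity)]; simp
    have h3 : √(Z : ℝ) ^ 2 = Z := Real.sq_sqrt (by positivity)
    have h4 : 1 / √((Z + 1 : ℕ) : ℝ) ≤ 2 * √((Z + 1 : ℕ) : ℝ) - 2 * √(Z : ℝ) := by
      rw [div_le_iff₀ h1]
      nlinarith [sq_nonneg (√((Z + 1 : ℕ) : ℝ) - √(Z : ℝ))]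
    linarith

theorem sum_inv_sq {y : ℕ} (hy : 1 ≤ y) (Z : ℕ) :
    ∑ n ∈ Ioc y Z, 1 / ((n : ℕ) : ℝ) ^ 2 ≤ 1 / (y : ℝ) := by
  rcases le_total y Z with h | h
  · have := sum_Ioc_inv_sq_le_sub (α := ℝ) (by omega : y ≠ 0) h
    simp only [one_div]
    have h2 : (0 : ℝ) ≤ (Z : ℝ)⁻¹ := by positivity
    linarith
  · rw [Ioc_eq_empty (by omega), sum_empty]; positivity

end Pool.Agent.Lib.APQ
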